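import Mathlib
import Pool.Agent.MP1bdb59.Defs

/-!
# The absolute Galois group of a finite separable extension
-/

noncomputable section

open scoped Classical

namespace Pool.Agent.MP1bdb59C

open Pool.Agent.MP1bdb59 (Sep AbsGal emb resGal emb_resGal)

namespace BC

variable (K K' : Type*) [Field K] [Field K'] [Algebra K K'] [Algebra.IsSeparable K K']

theorem emb_surjective : Function.Surjective (emb K K') := by
  let i1 : Algebra (Sep K) (Sep K') := (emb K K').toRingHom.toAlgebra
  have i2 : IsScalarTower K (Sep K) (Sep K') :=
    IsScalarTower.of_algebraMap_eq' (emb K K').comp_algebraMap.symm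
  have i3 : Algebra.IsSeparable K (Sep K') := Algebra.IsSeparable.trans K K' (Sep K')
  have i4 : Algebra.IsSeparable (Sep K) (Sep K') :=
    Algebra.isSeparable_tower_top_of_isSeparable K (Sep K) (Sep K')
  exact IsSepClosed.algebraMap_surjective (Sep K) (Sep K')

/-- The isomorphism of separable closures. -/
def embEquiv : Sep K ≃ₐ[K] Sep K' :=
  AlgEquiv.ofBijective (emb K K') ⟨(emb K K').toRingHom.injective, emb_surjective K K'⟩

lemma embEquiv_apply (x : Sep K) : embEquiv K K' x = emb K K' x := rfl

/-- The image of `K'` in the separable closure of `K`. -/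
def image : IntermediateField K (Sep K) :=
  (((embEquiv K K').symm : Sep K' →ₐ[K] Sep K).comp
    (IsScalarTower.toAlgHom K K' (Sep K'))).fieldRange

theorem range_resGal : (resGal K K').range = (image K K').fixingSubgroup := by
  ext τ
  constructor
  · rintro ⟨σ, rfl⟩
    rw [IntermediateField.mem_fixingSubgroup_iff]
    rintro x ⟨y, rfl⟩
    apply (embEquiv K K').injective
    change embEquiv K K' (resGal K K' σ ((embEquiv K K').symm (algebraMap K' (Sep K') y))) =
      embEquiv K K' ((embEquiv K K').symm (algebraMap K' (Sep K') y))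
    rw [embEquiv_apply, emb_resGal, ← embEquiv_apply, AlgEquiv.apply_symm_apply, σ.commutes]
  · intro hτ
    rw [IntermediateField.mem_fixingSubgroup_iff] at hτ
    let e := embEquiv K K'
    let σ : AbsGal K' := AlgEquiv.ofRingEquiv (f := (e.symm.trans (τ.trans e)).toRingEquiv) (by
      intro y
      change e (τ (e.symm (algebraMap K' (Sep K') y))) = algebraMap K' (Sep K') y
      rw [hτ (e.symm (algebraMap K' (Sep K') y)) ⟨y, rfl⟩, AlgEquiv.apply_symm_apply])
    refine ⟨σ, ?_⟩
    apply AlgEquiv.ext
    intro x
    apply (embEquiv K K').injective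
    rw [embEquiv_apply, emb_resGal, ← embEquiv_apply]
    change e (τ (e.symm (e x))) = e (τ x)
    rw [AlgEquiv.symm_apply_apply]

theorem index_range [FiniteDimensional K K'] :
    (resGal K K').range.index = Module.finrank K K' := by
  rw [range_resGal, ← IntermediateField.finrank_eq_fixingSubgroup_index]
  exact (AlgEquiv.ofInjectiveField (((embEquiv K K').symm : Sep K' →ₐ[K] Sep K).comp
    (IsScalarTower.toAlgHom K K' (Sep K')))).toLinearEquiv.finrank_eq.symm

end BC

end Pool.Agent.MP1bdb59C
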