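import Mathlib

/-!
# Restriction to a subgroup of finite index: descent of triviality and of divisibility
-/

noncomputable section

open scoped Classical

namespace Pool.Agent.MP1bdb59C

namespace BC

variable {G M : Type*} [Group G] [AddCommGroup M] (a : G → M →+ M)
  (ha : ∀ g h x, a (g * h) x = a g (a h x)) (H : Subgroup G) [hH : H.FiniteIndex]

omit hH in
/-- The sum over `G/H` of a function `b` with `b (g q) = u + a g (b q)`. -/
lemma sum_coset [Fintype (G ⧸ H)] (b : G ⧸ H → M) (g : G) (u : M)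
    (hb : ∀ q : G ⧸ H, b (g • q) = u + a g (b q)) :
    ∑ q : G ⧸ H, b q = H.index • u + a g (∑ q : G ⧸ H, b q) := by
  calc ∑ q : G ⧸ H, b q = ∑ q : G ⧸ H, b (g • q) :=
        (Equiv.sum_comp (MulAction.toPerm g) b).symm
    _ = ∑ q : G ⧸ H, (u + a g (b q)) := Finset.sum_congr rfl fun q _ => hb q
    _ = H.index • u + a g (∑ q : G ⧸ H, b q) := by
        rw [Finset.sum_add_distrib, Finset.sum_const, Finset.card_univ,
          ← Nat.card_eq_fintype_card, map_sum]
        rfl

include ha

/-- A cocycle which is a coboundary on `H`, multiplied by the index of `H`, is a coboundary. -/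
theorem descent_triv (c : G → M) (hc : ∀ g h, c (g * h) = c g + a g (c h)) (P₀ : M)
    (hP : ∀ h ∈ H, c h = a h P₀ - P₀) : ∃ S : M, ∀ g, H.index • c g = a g S - S := by
  let c₀ : G → M := fun g => c g - (a g P₀ - P₀)
  have hc₀ : ∀ g h, c₀ (g * h) = c₀ g + a g (c₀ h) := by
    intro g h
    simp only [c₀, hc, ha, map_sub]
    abel
  have hH₀ : ∀ h ∈ H, c₀ h = 0 := by
    intro h hh
    simp only [c₀, hP h hh, sub_self]
  let _ : Fintype (G ⧸ H) := H.fintypeQuotientOfFiniteIndex
  let b : G ⧸ H → M := Quotient.lift c₀ (by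
    intro g g' hgg
    have h1 : g⁻¹ * g' ∈ H := QuotientGroup.leftRel_apply.mp hgg
    have h2 : g' = g * (g⁻¹ * g') := by group
    rw [h2, hc₀, hH₀ _ h1, map_zero, add_zero])
  have hb : ∀ (g : G) (q : G ⧸ H), b (g • q) = c₀ g + a g (b q) := by
    intro g q
    obtain ⟨g', rfl⟩ := QuotientGroup.mk_surjective q
    exact hc₀ g g'
  have hsum : ∀ g, ∑ q, b q = H.index • c₀ g + a g (∑ q, b q) := fun g =>
    sum_coset a H b g (c₀ g) (hb g)
  refine ⟨H.index • P₀ - ∑ q, b q, fun g => ?_⟩
  have h1 := hsum g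
  have h3 : H.index • c₀ g = ∑ q, b q - a g (∑ q, b q) := by
    rw [eq_sub_iff_add_eq]
    exact h1.symm
  have h4 : H.index • c₀ g = H.index • c g - (H.index • a g P₀ - H.index • P₀) := by
    simp only [c₀, smul_sub]
  rw [h4] at h3
  rw [map_sub, map_nsmul, ← sub_eq_zero]
  rw [← sub_eq_zero] at h3
  rw [← h3]
  abel

/-- The trace of an `H`-invariant element. -/
theorem descent_inv (s : M) (hs : ∀ h ∈ H, a h s = s) :
    ∃ S : M, (∀ g, a g S = S) ∧ ∀ (n : ℕ) (t : M), (∀ g, a g t = t) → n • s = t →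
      n • S = H.index • t := by
  let _ : Fintype (G ⧸ H) := H.fintypeQuotientOfFiniteIndex
  let b : G ⧸ H → M := Quotient.lift (fun g => a g s) (by
    intro g g' hgg
    have h1 : g⁻¹ * g' ∈ H := QuotientGroup.leftRel_apply.mp hgg
    have h2 : g' = g * (g⁻¹ * g') := by group
    change a g s = a g' s
    rw [h2, ha, hs _ h1])
  have hb : ∀ (g : G) (q : G ⧸ H), b (g • q) = 0 + a g (b q) := by
    intro g q
    obtain ⟨g', rfl⟩ := QuotientGroup.mk_surjective q
    rw [zero_add]
    exact ha g g' s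
  refine ⟨∑ q, b q, fun g => ?_, fun n t ht hst => ?_⟩
  · have := sum_coset a H b g 0 (hb g)
    rw [smul_zero, zero_add] at this
    exact this.symm
  · rw [Finset.smul_sum]
    have h1 : ∀ q : G ⧸ H, n • b q = t := by
      intro q
      obtain ⟨g, rfl⟩ := QuotientGroup.mk_surjective q
      change n • a g s = t
      rw [← map_nsmul, hst, ht]
    simp only [h1]
    rw [Finset.sum_const, Finset.card_univ, ← Nat.card_eq_fintype_card]
    rfl

end BC

end Pool.Agent.MP1bdb59C
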