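import Mathlib
import Pool.Agent.MP1bdb59.Comp

/-!
# Places of a finite extension and the places of the base field below them
-/

open Polynomial

noncomputable section

open scoped Classical

namespace Pool.Agent.MP1bdb59C

open Pool.Agent.MP1bdb59 (Place Completion compMap compMap_coe)

namespace BC

section Bound

variable {K K' : Type*} [Field K] [Field K'] [Algebra K K'] {Γ : Type*}
  [LinearOrderedCommGroupWithZero Γ]

/-- The values of an algebraic element are bounded by values of the base field. -/
theorem exists_bound (w : Valuation K' Γ) (y : K') (hy : IsIntegral K y) :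
    ∃ e : K, e ≠ 0 ∧ w y ≤ w (algebraMap K K' e) := by
  by_contra hcon
  push Not at hcon
  have h1 : 1 < w y := by
    have := hcon 1 one_ne_zero
    rwa [map_one, map_one] at this
  have hy0 : w y ≠ 0 := (zero_lt_one.trans h1).ne'
  have hm : (minpoly K y).Monic := minpoly.monic hy
  set n := (minpoly K y).natDegree with hn
  have h2 : y ^ n = - ∑ i ∈ Finset.range n, algebraMap K K' ((minpoly K y).coeff i) * y ^ i := by
    have h3 := minpoly.aeval K y
    rw [hm.as_sum, map_add, map_pow, aeval_X, map_sum] at h3
    simp only [map_mul, map_pow, aeval_X, aeval_C] at h3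
    exact eq_neg_of_add_eq_zero_left h3
  have h4 : w (y ^ n) < w y ^ n := by
    rw [h2, Valuation.map_neg]
    apply Valuation.map_sum_lt _ (pow_ne_zero n hy0)
    intro i hi
    rw [Finset.mem_range] at hi
    rw [map_mul, map_pow]
    by_cases ha : (minpoly K y).coeff i = 0
    · rw [ha, map_zero, map_zero, zero_mul]
      exact pow_pos (zero_lt_one.trans h1) n
    · calc w (algebraMap K K' ((minpoly K y).coeff i)) * w y ^ i < w y * w y ^ i := by
            apply mul_lt_mul_of_pos_right (hcon _ ha)
            exact pow_pos (zero_lt_one.trans h1) i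
        _ = w y ^ (i + 1) := by rw [pow_succ']
        _ ≤ w y ^ n := pow_le_pow_right₀ h1.le (by omega)
  rw [map_pow] at h4
  exact lt_irrefl _ h4

theorem exists_bound' (w : Valuation K' Γ) (d : K') (hd : d ≠ 0) (hy : IsIntegral K d⁻¹) :
    ∃ e : K, e ≠ 0 ∧ w (algebraMap K K' e) ≤ w d := by
  obtain ⟨e, he, h⟩ := exists_bound w d⁻¹ hy
  refine ⟨e⁻¹, inv_ne_zero he, ?_⟩
  rw [map_inv₀] at h
  rw [map_inv₀, map_inv₀]
  have h1 : 0 < w (algebraMap K K' e) := by
    rw [Valuation.pos_iff]
    exact (_root_.map_ne_zero _).mpr he
  have h2 : 0 < w d := by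
    rw [Valuation.pos_iff]
    exact hd
  rwa [inv_le_comm₀ h1 h2]

end Bound

section Places

variable {k K k' K' : Type*} [Field k] [Field K] [Algebra k K] [Field k'] [Field K']
  [Algebra k' K'] [Algebra K K'] [Algebra k k'] [Algebra k K'] [IsScalarTower k K K']
  [IsScalarTower k k' K'] [Algebra.IsAlgebraic K K']

/-- The place below a place of `K'`. -/
def placeComap (v : Place k' K') : Place k K where
  ring := v.ring.comap (algebraMap K K')
  algebraMap_mem c := by
    rw [ValuationSubring.mem_comap, ← IsScalarTower.algebraMap_apply,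
      IsScalarTower.algebraMap_apply k k' K']
    exact v.algebraMap_mem _
  ne_top h := by
    apply v.ne_top
    rw [eq_top_iff]
    intro y _
    obtain ⟨e, _, he⟩ := exists_bound v.ring.valuation y
      (Algebra.IsAlgebraic.isAlgebraic (R := K) y).isIntegral
    have h1 : e ∈ v.ring.comap (algebraMap K K') := by
      rw [h]
      exact ValuationSubring.mem_top e
    rw [ValuationSubring.mem_comap, ← ValuationSubring.valuation_le_one_iff] at h1
    rw [← ValuationSubring.valuation_le_one_iff]
    exact he.trans h1

/-- The map of completions. -/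
theorem exists_compMap (v : Place k' K') :
    ∃ φ : Completion (placeComap (k := k) (K := K) v) →+* Completion v, ∀ x : K,
      φ (algebraMap K (Completion (placeComap (k := k) (K := K) v)) x) =
        algebraMap K' (Completion v) (algebraMap K K' x) := by
  have h : (placeComap (k := k) (K := K) v).ring.valuation.IsEquiv
      (v.ring.valuation.comap (algebraMap K K')) := by
    rw [Valuation.isEquiv_iff_val_le_one]
    intro x
    rw [ValuationSubring.valuation_le_one_iff, Valuation.comap_apply,
      ValuationSubring.valuation_le_one_iff]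
    exact ValuationSubring.mem_comap
  have hc : ∀ d : K', d ≠ 0 →
      ∃ e : K, e ≠ 0 ∧ v.ring.valuation (algebraMap K K' e) ≤ v.ring.valuation d := fun d hd =>
    exists_bound' _ d hd (Algebra.IsAlgebraic.isAlgebraic (R := K) d⁻¹).isIntegral
  refine ⟨compMap _ _ h hc, fun x => ?_⟩
  exact compMap_coe _ _ h hc (WithVal.toVal _ x)

end Places

end BC

end Pool.Agent.MP1bdb59C
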