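import Mathlib

/-!
# The ring `A[x,y]/(y^ℓ - g(x))`
-/

open Polynomial Finset

noncomputable section

namespace Pool.Agent.MP1bdb59C

universe u v

/-- The affine coordinate ring `A[x,y]/(y^ℓ - g(x))` of the curve `y^ℓ = g(x)` over `A`. -/
abbrev CoordRing (ℓ : ℕ) {A : Type u} [CommRing A] (g : A[X]) : Type u :=
  AdjoinRoot ((X : A[X][X]) ^ ℓ - C g)

theorem coordMap_dvd (ℓ : ℕ) {A : Type u} [CommRing A] {A' : Type v} [CommRing A'] (φ : A →+* A')
    {g : A[X]} {g' : A'[X]} (h : g.map φ = g') :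
    ((X : A'[X][X]) ^ ℓ - C g') ∣ ((X : A[X][X]) ^ ℓ - C g).map (mapRingHom φ) := by
  rw [← h, Polynomial.map_sub, Polynomial.map_pow, map_X, map_C, coe_mapRingHom]

/-- The ring homomorphism `A[x,y]/(y^ℓ - g) → A'[x,y]/(y^ℓ - g')` induced by a homomorphism
`φ : A → A'` that takes the coefficients of `g` to those of `g'`. -/
def coordMap (ℓ : ℕ) {A : Type u} [CommRing A] {A' : Type v} [CommRing A'] (φ : A →+* A')
    {g : A[X]} {g' : A'[X]} (h : g.map φ = g') : CoordRing ℓ g →+* CoordRing ℓ g' :=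
  AdjoinRoot.map (mapRingHom φ) _ _ (coordMap_dvd ℓ φ h)

section Basic

variable {A : Type u} [CommRing A] {ℓ : ℕ} {g : A[X]}

/-- the inclusion of `A[x]`. -/
abbrev of (g : A[X]) : A[X] →+* CoordRing ℓ g := algebraMap A[X] (CoordRing ℓ g)

/-- the element `y`. -/
def yy : CoordRing ℓ g := AdjoinRoot.root _

lemma yy_pow : (yy : CoordRing ℓ g) ^ ℓ = of g g := by
  have h := AdjoinRoot.mk_self (f := ((X : A[X][X]) ^ ℓ - C g))
  rw [map_sub, map_pow, AdjoinRoot.mk_X, AdjoinRoot.mk_C, sub_eq_zero] at h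
  exact h

lemma ringHom_ext {T : Type*} [CommRing T] {a b : CoordRing ℓ g →+* T}
    (h1 : ∀ p, a (of g p) = b (of g p)) (h2 : a yy = b yy) : a = b :=
  AdjoinRoot.ringHom_ext (RingHom.ext h1) h2

lemma coordMap_of {A' : Type v} [CommRing A'] (φ : A →+* A') {g' : A'[X]}
    (h : g.map φ = g') (p : A[X]) : coordMap ℓ φ h (of g p) = of g' (p.map φ) := by
  unfold coordMap AdjoinRoot.map
  exact AdjoinRoot.lift_of _

lemma coordMap_yy {A' : Type v} [CommRing A'] (φ : A →+* A') {g' : A'[X]}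
    (h : g.map φ = g') : coordMap ℓ φ h yy = yy := by
  unfold coordMap AdjoinRoot.map
  exact AdjoinRoot.lift_root _

lemma coordMap_comp {A' : Type v} [CommRing A'] {A'' : Type*} [CommRing A''] (φ : A →+* A')
    (φ' : A' →+* A'') {g' : A'[X]} {g'' : A''[X]} (h : g.map φ = g') (h' : g'.map φ' = g'')
    (h'' : g.map (φ'.comp φ) = g'') :
    (coordMap ℓ φ' h').comp (coordMap ℓ φ h) = coordMap ℓ (φ'.comp φ) h'' := by
  apply ringHom_ext
  · intro p
    rw [RingHom.comp_apply, coordMap_of, coordMap_of, coordMap_of, Polynomial.map_map]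
  · rw [RingHom.comp_apply, coordMap_yy, coordMap_yy, coordMap_yy]

lemma coordMap_id (h : g.map (RingHom.id A) = g) :
    coordMap ℓ (RingHom.id A) h = RingHom.id _ := by
  apply ringHom_ext
  · intro p
    rw [coordMap_of, Polynomial.map_id, RingHom.id_apply]
  · rw [coordMap_yy, RingHom.id_apply]

variable [hℓ : NeZero ℓ]

variable (ℓ) in
lemma monic_rel (g : A[X]) : ((X : A[X][X]) ^ ℓ - C g).Monic := monic_X_pow_sub_C g hℓ.out

/-- the coefficients of an element, as a polynomial in `y`. -/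
def coefHom : CoordRing ℓ g →ₗ[A[X]] A[X][X] := AdjoinRoot.modByMonicHom (monic_rel ℓ g)

/-- the coefficients of an element. -/
def coef (z : CoordRing ℓ g) (j : ℕ) : A[X] := (coefHom z).coeff j

lemma coef_add (z w : CoordRing ℓ g) (j : ℕ) : coef (z + w) j = coef z j + coef w j := by
  unfold coef
  rw [map_add, coeff_add]

lemma coef_sub (z w : CoordRing ℓ g) (j : ℕ) : coef (z - w) j = coef z j - coef w j := by
  unfold coef
  rw [map_sub, coeff_sub]

lemma coef_zero (j : ℕ) : coef (0 : CoordRing ℓ g) j = 0 := by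
  unfold coef
  rw [map_zero, coeff_zero]

lemma coef_of_mul (p : A[X]) (z : CoordRing ℓ g) (j : ℕ) : coef (of g p * z) j = p * coef z j := by
  unfold coef
  rw [← Algebra.smul_def, map_smul, coeff_smul, smul_eq_mul]

lemma coef_sum {ι : Type*} (s : Finset ι) (z : ι → CoordRing ℓ g) (j : ℕ) :
    coef (∑ i ∈ s, z i) j = ∑ i ∈ s, coef (z i) j := by
  unfold coef
  rw [map_sum, finsetSum_coeff]

/-- the quotient map. -/
def mk (g : A[X]) : A[X][X] →+* CoordRing ℓ g := AdjoinRoot.mk _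

omit hℓ in
lemma mk_C (p : A[X]) : (mk g (C p) : CoordRing ℓ g) = of g p := AdjoinRoot.mk_C p

omit hℓ in
lemma mk_X : (mk g X : CoordRing ℓ g) = yy := AdjoinRoot.mk_X

omit hℓ in
lemma mk_surjective : Function.Surjective (mk g : A[X][X] →+* CoordRing ℓ g) :=
  AdjoinRoot.mk_surjective

omit hℓ in
lemma mk_sum (u : ℕ → A[X]) : (mk g (∑ i ∈ range ℓ, C (u i) * X ^ i) : CoordRing ℓ g) =
    ∑ i ∈ range ℓ, of g (u i) * yy ^ i := by
  rw [map_sum]
  apply Finset.sum_congr rfl
  intro j _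
  rw [map_mul, map_pow, mk_X, mk_C]

lemma coefHom_mk' (P : A[X][X]) : coefHom (mk g P : CoordRing ℓ g) =
    P %ₘ ((X : A[X][X]) ^ ℓ - C g) :=
  AdjoinRoot.modByMonicHom_mk (monic_rel ℓ g) P

lemma mk_coefHom (z : CoordRing ℓ g) : mk g (coefHom z) = z :=
  AdjoinRoot.mk_leftInverse (monic_rel ℓ g) z

variable [Nontrivial A]

lemma coefHom_mk (P : A[X][X]) (hP : P.natDegree < ℓ) :
    coefHom (mk g P : CoordRing ℓ g) = P := by
  rw [coefHom_mk', modByMonic_eq_self_iff (monic_rel ℓ g),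
    degree_X_pow_sub_C (Nat.pos_of_ne_zero hℓ.out) g]
  exact degree_le_natDegree.trans_lt (by exact_mod_cast hP)

lemma natDegree_coefHom (z : CoordRing ℓ g) : (coefHom z).natDegree < ℓ := by
  obtain ⟨P, rfl⟩ := mk_surjective z
  rw [coefHom_mk']
  have h1 := degree_modByMonic_lt P (monic_rel ℓ g)
  rw [degree_X_pow_sub_C (Nat.pos_of_ne_zero hℓ.out) g] at h1
  by_cases h0 : P %ₘ (X ^ ℓ - C g) = 0
  · rw [h0, natDegree_zero]
    exact Nat.pos_of_ne_zero hℓ.out
  · exact (natDegree_lt_iff_degree_lt h0).mpr h1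

lemma coef_of_le (z : CoordRing ℓ g) {j : ℕ} (hj : ℓ ≤ j) : coef z j = 0 :=
  coeff_eq_zero_of_natDegree_lt ((natDegree_coefHom z).trans_le hj)

lemma eq_sum (z : CoordRing ℓ g) : z = ∑ j ∈ range ℓ, of g (coef z j) * yy ^ j := by
  have h2 : coefHom z = ∑ j ∈ range ℓ, C (coef z j) * X ^ j := by
    rw [as_sum_range' _ ℓ (natDegree_coefHom z)]
    simp only [← C_mul_X_pow_eq_monomial]
    rfl
  conv_lhs => rw [← mk_coefHom z, h2]
  exact mk_sum _

lemma coef_sum_yy (u : ℕ → A[X]) {j : ℕ} (hj : j < ℓ) :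
    coef (∑ i ∈ range ℓ, of g (u i) * yy ^ i : CoordRing ℓ g) j = u j := by
  have h2 : (∑ i ∈ range ℓ, C (u i) * X ^ i : A[X][X]).natDegree < ℓ := by
    have h3 : (∑ i ∈ range ℓ, C (u i) * X ^ i : A[X][X]).natDegree ≤ ℓ - 1 := by
      apply natDegree_sum_le_of_forall_le
      intro i hi
      rw [Finset.mem_range] at hi
      exact (natDegree_C_mul_X_pow_le _ _).trans (by omega)
    have := Nat.pos_of_ne_zero hℓ.out
    omega
  rw [← mk_sum, coef, coefHom_mk _ h2, finsetSum_coeff]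
  simp only [coeff_C_mul_X_pow]
  rw [Finset.sum_ite_eq]
  simp [hj]

lemma coef_ext {z w : CoordRing ℓ g} (h : ∀ j < ℓ, coef z j = coef w j) : z = w := by
  rw [eq_sum z, eq_sum w]
  exact Finset.sum_congr rfl fun j hj => by rw [h j (Finset.mem_range.mp hj)]

lemma coef_of_mul_yy_pow (p : A[X]) {i : ℕ} (hi : i < ℓ) (j : ℕ) :
    coef (of g p * yy ^ i : CoordRing ℓ g) j = if j = i then p else 0 := by
  by_cases hj : j < ℓ
  · have h1 : (of g p * yy ^ i : CoordRing ℓ g) =
        ∑ k ∈ range ℓ, of g (if k = i then p else 0) * yy ^ k := by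
      rw [Finset.sum_eq_single i]
      · rw [if_pos rfl]
      · intro b _ hb
        rw [if_neg hb, map_zero, zero_mul]
      · intro h
        exact absurd (Finset.mem_range.mpr hi) h
    rw [h1, coef_sum_yy _ hj]
  · rw [coef_of_le _ (not_lt.mp hj), if_neg (by omega)]

lemma coef_of (p : A[X]) (j : ℕ) : coef (of g p : CoordRing ℓ g) j = if j = 0 then p else 0 := by
  have := coef_of_mul_yy_pow (ℓ := ℓ) (g := g) p (i := 0) (Nat.pos_of_ne_zero hℓ.out) j
  rwa [pow_zero, mul_one] at this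

lemma of_injective : Function.Injective (of g : A[X] →+* CoordRing ℓ g) := by
  intro p q h
  have h1 : coef (of g p : CoordRing ℓ g) 0 = coef (of g q : CoordRing ℓ g) 0 := by rw [h]
  rwa [coef_of, coef_of, if_pos rfl, if_pos rfl] at h1

instance : Nontrivial (CoordRing ℓ g) := (of_injective (g := g)).nontrivial

lemma coef_coordMap {A' : Type v} [CommRing A'] [Nontrivial A'] (φ : A →+* A') {g' : A'[X]}
    (h : g.map φ = g') (z : CoordRing ℓ g) (j : ℕ) :
    coef (coordMap ℓ φ h z) j = (coef z j).map φ := by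
  by_cases hj : j < ℓ
  · conv_lhs => rw [eq_sum z]
    rw [map_sum]
    simp only [map_mul, map_pow, coordMap_of, coordMap_yy]
    exact coef_sum_yy (fun i => (coef z i).map φ) hj
  · rw [coef_of_le _ (not_lt.mp hj), coef_of_le _ (not_lt.mp hj), Polynomial.map_zero]

lemma coordMap_injective {A' : Type v} [CommRing A'] [Nontrivial A'] {φ : A →+* A'}
    (hφ : Function.Injective φ) {g' : A'[X]} (h : g.map φ = g') :
    Function.Injective (coordMap ℓ φ h : CoordRing ℓ g →+* CoordRing ℓ g') := by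
  intro z w hzw
  apply coef_ext
  intro j _
  have := congrArg (fun t => coef t j) hzw
  simp only [coef_coordMap] at this
  exact Polynomial.map_injective φ hφ this

instance : Module.Finite A[X] (CoordRing ℓ g) := (monic_rel ℓ g).finite_adjoinRoot

/-- Evaluation at the point `(α, 0)`, `α` a root of `g`. -/
def ev (α : A) (hα : g.eval α = 0) : CoordRing ℓ g →+* A :=
  AdjoinRoot.lift (evalRingHom α) 0 (by
    rw [eval₂_sub, eval₂_pow, eval₂_X, eval₂_C, coe_evalRingHom, hα, zero_pow hℓ.out, sub_zero])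

omit [Nontrivial A] in
lemma ev_of (α : A) (hα : g.eval α = 0) (p : A[X]) : ev (ℓ := ℓ) α hα (of g p) = p.eval α :=
  AdjoinRoot.lift_of _

omit [Nontrivial A] in
lemma ev_yy (α : A) (hα : g.eval α = 0) : ev (ℓ := ℓ) α hα yy = 0 :=
  AdjoinRoot.lift_root _

lemma ev_eq (α : A) (hα : g.eval α = 0) (z : CoordRing ℓ g) :
    ev α hα z = (coef z 0).eval α := by
  conv_lhs => rw [eq_sum z]
  rw [map_sum, Finset.sum_eq_single 0]
  · rw [map_mul, ev_of, pow_zero, map_one, mul_one]
  · intro j _ hj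
    rw [map_mul, map_pow, ev_yy, zero_pow hj, mul_zero]
  · intro h
    exact absurd (Finset.mem_range.mpr (Nat.pos_of_ne_zero hℓ.out)) h

end Basic

section Tau

variable {A : Type u} [CommRing A] {ℓ : ℕ} {g : A[X]} {ζ : A} (hζ : ζ ^ ℓ = 1)

/-- The automorphism `y ↦ ζ y`. -/
def tau (g : A[X]) : CoordRing ℓ g →+* CoordRing ℓ g :=
  AdjoinRoot.lift (of g) (of g (C ζ) * yy) (by
    rw [eval₂_sub, eval₂_pow, eval₂_X, eval₂_C, mul_pow, ← map_pow, ← C_pow, hζ, C_1, map_one,
      one_mul, yy_pow, sub_self])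

lemma tau_of (p : A[X]) : tau hζ g (of g p) = of g p := AdjoinRoot.lift_of _

lemma tau_yy : tau hζ g yy = of g (C ζ) * yy := AdjoinRoot.lift_root _

variable [hℓ : NeZero ℓ] [Nontrivial A]

lemma coef_tau (z : CoordRing ℓ g) (j : ℕ) : coef (tau hζ g z) j = C (ζ ^ j) * coef z j := by
  by_cases hj : j < ℓ
  · conv_lhs => rw [eq_sum z]
    rw [map_sum]
    have h1 : ∀ i, tau hζ g (of g (coef z i) * yy ^ i) = of g (C (ζ ^ i) * coef z i) * yy ^ i := by
      intro i
      rw [map_mul, map_pow, tau_of, tau_yy, mul_pow, ← map_pow, ← C_pow, map_mul]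
      ring
    simp only [h1]
    exact coef_sum_yy (fun i => C (ζ ^ i) * coef z i) hj
  · rw [coef_of_le _ (not_lt.mp hj), coef_of_le _ (not_lt.mp hj), mul_zero]

lemma coef_tau_iterate (z : CoordRing ℓ g) (n j : ℕ) :
    coef ((tau hζ g)^[n] z) j = C (ζ ^ (n * j)) * coef z j := by
  induction n with
  | zero => simp
  | succ n ih =>
    rw [Function.iterate_succ_apply', coef_tau, ih, ← mul_assoc, ← C_mul, ← pow_add]
    congr 3
    ring

lemma tau_iterate_ell (z : CoordRing ℓ g) : (tau hζ g)^[ℓ] z = z := by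
  apply coef_ext
  intro j _
  rw [coef_tau_iterate, pow_mul, hζ, one_pow, C_1, one_mul]

lemma ev_tau (α : A) (hα : g.eval α = 0) (z : CoordRing ℓ g) :
    ev α hα (tau hζ g z) = ev α hα z := by
  rw [ev_eq, ev_eq, coef_tau, pow_zero, C_1, one_mul]

lemma tau_injective : Function.Injective (tau hζ g : CoordRing ℓ g →+* CoordRing ℓ g) := by
  intro z w h
  obtain ⟨n, hn⟩ := Nat.exists_eq_succ_of_ne_zero hℓ.out
  have := congrArg (fun t => (tau hζ g)^[n] t) h
  simp only [← Function.iterate_succ_apply, ← hn, tau_iterate_ell] at this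
  exact this

end Tau

end Pool.Agent.MP1bdb59C
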