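import Mathlib
import Pool.Agent.MP1bdb59C.Stmt
import Pool.Agent.MP1bdb59C.BCGroup
import Pool.Agent.MP1bdb59C.BCField
import Pool.Agent.MP1bdb59C.BCPlace

/-!
# Descent of the result from a finite separable extension of degree prime to `ℓ`
-/

open Polynomial

noncomputable section

open scoped Classical

namespace Pool.Agent.MP1bdb59C

open Pool.Agent.MP1bdb59 (Sep AbsGal emb resGal emb_resGal continuous_resGal Place Completion)

namespace BC

section PicMap

variable {ℓ : ℕ}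

theorem picMap_id {A : Type*} [CommRing A] {g : A[X]} (ψ : A →+* A) (hψ : ψ = RingHom.id A)
    (h : g.map ψ = g) (t : Additive (CommRing.Pic (CoordRing ℓ g))) : picMap ℓ ψ h t = t := by
  subst hψ
  change CommRing.Pic.mapRingHom (coordMap ℓ (RingHom.id A) h) t.toMul = t.toMul
  rw [coordMap_id, CommRing.Pic.mapRingHom_id]
  rfl

end PicMap

section Act

variable (ℓ : ℕ) {K : Type*} [Field K] (f : K[X]) (F : Type*) [Field F] [Algebra K F]

lemma act_one (P : Jac ℓ f F) : act ℓ f F 1 P = P := picMap_id _ rfl _ P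

lemma act_mul (σ τ : AbsGal F) (P : Jac ℓ f F) :
    act ℓ f F (σ * τ) P = act ℓ f F σ (act ℓ f F τ P) := by
  unfold act
  rw [picMap_picMap ℓ _ _ _ _ ((σ * τ : AbsGal F) : Sep F →+* Sep F) rfl]

lemma cls_nsmul (n : ℕ) (c : AbsGal F → Jac ℓ f F) :
    cls ℓ f F (n • c) = n • cls ℓ f F c := by
  induction n with
  | zero =>
    rw [zero_smul, zero_smul]
    rfl
  | succ n ih => rw [succ_nsmul, succ_nsmul, cls_add, ih]

end Act

section Compare

variable (ℓ : ℕ) {K : Type*} [Field K] (f : K[X]) {L F' : Type*} [Field L] [Field F']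
  [Algebra L F'] (g : L[X])

lemma act_picMap {E : Type*} [Field E] [Algebra K E] (ε : Sep E →+* Sep F')
    (h : (f.map (algebraMap K (Sep E))).map ε = g.map (algebraMap L (Sep F')))
    (τ : AbsGal F') (ρ : AbsGal E) (hρ : ∀ x, ε (ρ x) = τ (ε x)) (P : Jac ℓ f E) :
    act ℓ g F' τ (picMap ℓ ε h P) = picMap ℓ ε h (act ℓ f E ρ P) := by
  have h1 : (τ : Sep F' →+* Sep F').comp ε = ε.comp (ρ : Sep E →+* Sep E) :=
    RingHom.ext fun x => (hρ x).symm
  have h'' : (f.map (algebraMap K (Sep E))).map (ε.comp (ρ : Sep E →+* Sep E)) =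
      g.map (algebraMap L (Sep F')) := by
    rw [← Polynomial.map_map, map_sigma f ρ, h]
  unfold act
  rw [picMap_picMap ℓ _ _ _ _ _ h1 h'', picMap_picMap ℓ _ _ _ _ _ rfl h'']

/-- Two embeddings of the separable closure give cohomologous restrictions. -/
theorem compare (ε₁ ε₂ : Sep K →+* Sep F')
    (h₁ : (f.map (algebraMap K (Sep K))).map ε₁ = g.map (algebraMap L (Sep F')))
    (h₂ : (f.map (algebraMap K (Sep K))).map ε₂ = g.map (algebraMap L (Sep F')))
    (γ : AbsGal K) (hγ : ∀ x, ε₂ (γ x) = ε₁ x) (τ : AbsGal F') (ρ₁ ρ₂ : AbsGal K)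
    (hρ₁ : ∀ x, ε₁ (ρ₁ x) = τ (ε₁ x)) (hρ₂ : ∀ x, ε₂ (ρ₂ x) = τ (ε₂ x))
    (c : AbsGal K → Jac ℓ f K) (hc : ∀ σ τ, c (σ * τ) = c σ + act ℓ f K σ (c τ)) :
    picMap ℓ ε₁ h₁ (c ρ₁) = picMap ℓ ε₂ h₂ (c ρ₂) +
      (act ℓ g F' τ (picMap ℓ ε₂ h₂ (c γ)) - picMap ℓ ε₂ h₂ (c γ)) := by
  have h3 : γ * ρ₁ = ρ₂ * γ := by
    apply AlgEquiv.ext
    intro x
    apply ε₂.injective
    change ε₂ (γ (ρ₁ x)) = ε₂ (ρ₂ (γ x))
    rw [hγ, hρ₁, hρ₂, hγ]
  have h4 := hc γ ρ₁
  rw [h3, hc] at h4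
  have h5 : picMap ℓ ε₁ h₁ (c ρ₁) = picMap ℓ ε₂ h₂ (act ℓ f K γ (c ρ₁)) := by
    unfold act
    rw [picMap_picMap ℓ _ _ _ _ ε₁ (RingHom.ext hγ)]
  rw [h5, act_picMap ℓ f g ε₂ h₂ τ ρ₂ hρ₂, ← map_sub, ← map_add]
  congr 1
  rw [← add_sub_assoc, h4]
  abel

theorem exists_gamma {Ω : Type*} [Field Ω] (ε₁ ε₂ : Sep K →+* Ω)
    (h : ε₁.comp (algebraMap K (Sep K)) = ε₂.comp (algebraMap K (Sep K))) :
    ∃ γ : AbsGal K, ∀ x, ε₂ (γ x) = ε₁ x := by
  let i1 : Algebra K Ω := (ε₁.comp (algebraMap K (Sep K))).toAlgebra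
  let i2 : Algebra (Sep K) Ω := ε₂.toAlgebra
  have i3 : IsScalarTower K (Sep K) Ω := IsScalarTower.of_algebraMap_eq' h
  let φ : Sep K →ₐ[K] Ω := { ε₁ with commutes' := fun _ => rfl }
  refine ⟨φ.restrictNormal' (Sep K), fun x => ?_⟩
  exact AlgHom.restrictNormal_commutes φ (Sep K) x

end Compare

section Main

variable {k K k' K' : Type*} [Field k] [Field K] [Algebra k K] [Field k'] [Field K']
  [Algebra k' K'] [Algebra K K'] [Algebra k k'] [Algebra k K'] [IsScalarTower k K K']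
  [IsScalarTower k k' K'] (ℓ : ℕ) (f : K[X])

variable (K') in
theorem map_emb' : (f.map (algebraMap K (Sep K))).map (emb K K' : Sep K →+* Sep K') =
    (f.map (algebraMap K K')).map (algebraMap K' (Sep K')) := by
  rw [Polynomial.map_map, Polynomial.map_map]
  congr 1
  refine RingHom.ext fun x => ?_
  rw [RingHom.comp_apply, RingHom.comp_apply, ← IsScalarTower.algebraMap_apply K K' (Sep K')]
  exact (emb K K').commutes x

variable (K') in
/-- The identification of the points over the separable closures. -/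
def Phi : Jac ℓ f K →+ Jac ℓ (f.map (algebraMap K K')) K' :=
  picMap ℓ (emb K K' : Sep K →+* Sep K') (map_emb' K' f)

lemma act_Phi (σ : AbsGal K') (P : Jac ℓ f K) :
    act ℓ (f.map (algebraMap K K')) K' σ (Phi K' ℓ f P) =
      Phi K' ℓ f (act ℓ f K (resGal K K' σ) P) :=
  act_picMap ℓ f _ _ _ σ _ (emb_resGal K K' σ) P

theorem Phi_bijective [Algebra.IsSeparable K K'] : Function.Bijective (Phi K' ℓ f) := by
  have h1 : ((embEquiv K K').symm : Sep K' →+* Sep K).comp (emb K K' : Sep K →+* Sep K') =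
      RingHom.id (Sep K) := RingHom.ext fun x => (embEquiv K K').symm_apply_apply x
  have h2 : (emb K K' : Sep K →+* Sep K').comp ((embEquiv K K').symm : Sep K' →+* Sep K) =
      RingHom.id (Sep K') := RingHom.ext fun x => (embEquiv K K').apply_symm_apply x
  have h3 : ((f.map (algebraMap K K')).map (algebraMap K' (Sep K'))).map
      ((embEquiv K K').symm : Sep K' →+* Sep K) = f.map (algebraMap K (Sep K)) := by
    rw [← map_emb', Polynomial.map_map, h1, Polynomial.map_id]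
  rw [Function.bijective_iff_has_inverse]
  refine ⟨picMap ℓ ((embEquiv K K').symm : Sep K' →+* Sep K) h3, fun P => ?_, fun P => ?_⟩
  · unfold Phi
    rw [picMap_picMap ℓ _ _ _ _ _ h1 (Polynomial.map_id), picMap_id _ rfl]
  · unfold Phi
    rw [picMap_picMap ℓ _ _ _ _ _ h2 (Polynomial.map_id), picMap_id _ rfl]

/-- A cocycle that is trivial at all places of `K` is trivial at all places of `K'`. -/
theorem sha_transfer [Algebra.IsAlgebraic K K'] (c : AbsGal K → Jac ℓ f K)
    (hc : ∀ σ τ, c (σ * τ) = c σ + act ℓ f K σ (c τ))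
    (hv : ∀ v : Place k K, ∃ P : Jac ℓ f (Completion v), ∀ σ : AbsGal (Completion v),
      embJac ℓ f (Completion v) (c (resGal K (Completion v) σ)) =
        act ℓ f (Completion v) σ P - P) (v' : Place k' K') :
    ∃ P : Jac ℓ (f.map (algebraMap K K')) (Completion v'), ∀ τ : AbsGal (Completion v'),
      embJac ℓ (f.map (algebraMap K K')) (Completion v')
        (Phi K' ℓ f (c (resGal K K' (resGal K' (Completion v') τ)))) =
        act ℓ (f.map (algebraMap K K')) (Completion v') τ P - P := by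
  obtain ⟨φ, hφ⟩ := exists_compMap (k := k) (K := K) v'
  obtain ⟨P, hP⟩ := hv (placeComap v')
  let F := Completion (placeComap (k := k) (K := K) v')
  let F' := Completion v'
  let i1 : Algebra F F' := φ.toAlgebra
  let ε₁ : Sep K →+* Sep F' := (emb F F' : Sep F →+* Sep F').comp (emb K F : Sep K →+* Sep F)
  let ε₂ : Sep K →+* Sep F' := (emb K' F' : Sep K' →+* Sep F').comp (emb K K' : Sep K →+* Sep K')
  have hε : ε₁.comp (algebraMap K (Sep K)) = ε₂.comp (algebraMap K (Sep K)) := by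
    refine RingHom.ext fun x => ?_
    change emb F F' (emb K F (algebraMap K (Sep K) x)) =
      emb K' F' (emb K K' (algebraMap K (Sep K) x))
    rw [(emb K F).commutes x, (emb K K').commutes x, IsScalarTower.algebraMap_apply K F (Sep F),
      IsScalarTower.algebraMap_apply K K' (Sep K'), (emb F F').commutes, (emb K' F').commutes,
      IsScalarTower.algebraMap_apply F F' (Sep F'), IsScalarTower.algebraMap_apply K' F' (Sep F')]
    congr 1
    exact hφ x
  have h₂ : (f.map (algebraMap K (Sep K))).map ε₂ =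
      (f.map (algebraMap K K')).map (algebraMap K' (Sep F')) := by
    rw [← Polynomial.map_map, map_emb' K' f, Pool.Agent.MP1bdb59C.map_emb]
  have h₁ : (f.map (algebraMap K (Sep K))).map ε₁ =
      (f.map (algebraMap K K')).map (algebraMap K' (Sep F')) := by
    rw [Polynomial.map_map, hε, ← Polynomial.map_map, h₂]
  have h₃ : (f.map (algebraMap K (Sep F))).map (emb F F' : Sep F →+* Sep F') =
      (f.map (algebraMap K K')).map (algebraMap K' (Sep F')) := by
    rw [← Pool.Agent.MP1bdb59C.map_emb f F, Polynomial.map_map]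
    exact h₁
  obtain ⟨γ, hγ⟩ := exists_gamma ε₁ ε₂ hε
  refine ⟨picMap ℓ (emb F F' : Sep F →+* Sep F') h₃ P - picMap ℓ ε₂ h₂ (c γ), fun τ => ?_⟩
  have h4 := compare ℓ f (f.map (algebraMap K K')) ε₁ ε₂ h₁ h₂ γ hγ τ
    (resGal K F (resGal F F' τ)) (resGal K K' (resGal K' F' τ)) (fun x => by
      change emb F F' (emb K F (resGal K F (resGal F F' τ) x)) = τ (emb F F' (emb K F x))
      rw [emb_resGal, emb_resGal]) (fun x => by
      change emb K' F' (emb K K' (resGal K K' (resGal K' F' τ) x)) = τ (emb K' F' (emb K K' x))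
      rw [emb_resGal, emb_resGal]) c hc
  have h5 : embJac ℓ (f.map (algebraMap K K')) F' (Phi K' ℓ f
      (c (resGal K K' (resGal K' F' τ)))) =
      picMap ℓ ε₂ h₂ (c (resGal K K' (resGal K' F' τ))) :=
    picMap_picMap ℓ _ _ _ _ ε₂ rfl h₂ _
  have h6 : picMap ℓ ε₁ h₁ (c (resGal K F (resGal F F' τ))) =
      picMap ℓ (emb F F' : Sep F →+* Sep F') h₃
        (embJac ℓ f F (c (resGal K F (resGal F F' τ)))) :=
    (picMap_picMap ℓ _ _ _ _ ε₁ rfl h₁ _).symm
  have h7 := act_picMap ℓ f (f.map (algebraMap K K')) (emb F F' : Sep F →+* Sep F') h₃ τ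
    (resGal F F' τ) (emb_resGal F F' τ) P
  change embJac ℓ (f.map (algebraMap K K')) F' (Phi K' ℓ f
      (c (resGal K K' (resGal K' F' τ)))) = _
  rw [h5, map_sub, h7, ← sub_eq_zero]
  rw [h6, hP, map_sub, ← sub_eq_zero] at h4
  rw [← neg_eq_zero, ← h4]
  abel

end Main

end BC

open BC in
theorem descend_baseChange {k K k' K' : Type*} [Field k] [Field K] [Algebra k K] [Field k']
    [Field K'] [Algebra k' K'] [Algebra K K'] [Algebra k k'] [Algebra k K'] [IsScalarTower k K K']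
    [IsScalarTower k k' K'] [FiniteDimensional K K'] [Algebra.IsSeparable K K'] {ℓ : ℕ}
    [hp : Fact ℓ.Prime] (hd : ¬ ℓ ∣ Module.finrank K K') (f : K[X])
    (h1 : ∀ ξ ∈ Sha k' ℓ (f.map (algebraMap K K')), ℓ • ξ = 0 → ξ = 0)
    (h2 : ∀ t : Jac ℓ (f.map (algebraMap K K')) K',
      (∀ σ, act ℓ (f.map (algebraMap K K')) K' σ t = t) →
      ∃ s : Jac ℓ (f.map (algebraMap K K')) K',
        (∀ σ, act ℓ (f.map (algebraMap K K')) K' σ s = s) ∧ ℓ • s = t) :
    (∀ ξ ∈ Sha k ℓ f, ℓ • ξ = 0 → ξ = 0) ∧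
      (∀ t : Jac ℓ f K, (∀ σ, act ℓ f K σ t = t) →
        ∃ s : Jac ℓ f K, (∀ σ, act ℓ f K σ s = s) ∧ ℓ • s = t) := by
  have hidx := index_range K K'
  have hpos : 0 < Module.finrank K K' := Module.finrank_pos
  have hfin : (resGal K K').range.FiniteIndex := ⟨by rw [hidx]; exact hpos.ne'⟩
  have hcop : Nat.Coprime ℓ (Module.finrank K K') := (Nat.Prime.coprime_iff_not_dvd hp.out).mpr hd
  have hbij := Phi_bijective (K' := K') ℓ f
  constructor
  · rintro _ ⟨⟨c, ⟨hcl, hc⟩, rfl⟩, hv⟩ hℓ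
    have hv' : ∀ v : Place k K, ∃ P : Jac ℓ f (Completion v), ∀ σ : AbsGal (Completion v),
        embJac ℓ f (Completion v) (c (resGal K (Completion v) σ)) =
          act ℓ f (Completion v) σ P - P := by
      intro v
      have h3 : res ℓ f (Completion v) (cls ℓ f K c) = 0 :=
        (AddSubgroup.mem_iInf.mp hv) v
      rw [res_cls, cls_eq_zero_iff] at h3
      exact h3
    let c' : AbsGal K' → Jac ℓ (f.map (algebraMap K K')) K' :=
      fun σ => Phi K' ℓ f (c (resGal K K' σ))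
    have hc' : IsCocycle ℓ (f.map (algebraMap K K')) K' c' := by
      refine ⟨(hcl.comp_continuous (continuous_resGal K K')).comp (Phi K' ℓ f), fun σ τ => ?_⟩
      simp only [c', map_mul, hc, map_add, act_Phi]
    have hmem : cls ℓ (f.map (algebraMap K K')) K' c' ∈ Sha k' ℓ (f.map (algebraMap K K')) := by
      refine ⟨⟨c', hc', rfl⟩, AddSubgroup.mem_iInf.mpr fun v' => ?_⟩
      rw [AddMonoidHom.mem_ker, res_cls, cls_eq_zero_iff]
      exact sha_transfer ℓ f c hc hv' v'
    have hℓ' : ℓ • cls ℓ (f.map (algebraMap K K')) K' c' = 0 := by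
      rw [← cls_nsmul, cls_eq_zero_iff] at hℓ ⊢
      obtain ⟨P, hP⟩ := hℓ
      refine ⟨Phi K' ℓ f P, fun σ => ?_⟩
      have h3 := hP (resGal K K' σ)
      rw [Pi.smul_apply] at h3 ⊢
      simp only [c']
      rw [← map_nsmul, h3, map_sub, act_Phi]
    have h4 := h1 _ hmem hℓ'
    rw [cls_eq_zero_iff] at h4
    obtain ⟨P', hP'⟩ := h4
    obtain ⟨P₀, rfl⟩ := hbij.2 P'
    have h5 : ∀ h ∈ (resGal K K').range, c h = act ℓ f K h P₀ - P₀ := by
      rintro _ ⟨σ, rfl⟩
      apply hbij.1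
      rw [map_sub, ← act_Phi]
      exact hP' σ
    obtain ⟨S, hS⟩ := descent_triv (act ℓ f K) (act_mul ℓ f K) (resGal K K').range c hc P₀ h5
    rw [hidx] at hS
    have h6 : Module.finrank K K' • cls ℓ f K c = 0 := by
      rw [← cls_nsmul, cls_eq_zero_iff]
      exact ⟨S, hS⟩
    have h7 := Nat.dvd_gcd (addOrderOf_dvd_of_nsmul_eq_zero hℓ)
      (addOrderOf_dvd_of_nsmul_eq_zero h6)
    rw [Nat.Coprime.gcd_eq_one hcop, Nat.dvd_one, AddMonoid.addOrderOf_eq_one_iff] at h7
    exact h7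
  · intro t ht
    obtain ⟨s', hs', hst'⟩ := h2 (Phi K' ℓ f t) (fun σ => by rw [act_Phi, ht])
    obtain ⟨s, rfl⟩ := hbij.2 s'
    have hs : ∀ h ∈ (resGal K K').range, act ℓ f K h s = s := by
      rintro _ ⟨σ, rfl⟩
      apply hbij.1
      rw [← act_Phi]
      exact hs' σ
    have hst : ℓ • s = t := by
      apply hbij.1
      rw [map_nsmul]
      exact hst'
    obtain ⟨S, hS, hS'⟩ := descent_inv (act ℓ f K) (act_mul ℓ f K) (resGal K K').range s hs
    have h3 := hS' ℓ t ht hst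
    rw [hidx] at h3
    have hb := Nat.gcd_eq_gcd_ab ℓ (Module.finrank K K')
    rw [Nat.Coprime.gcd_eq_one hcop] at hb
    set u := Nat.gcdA ℓ (Module.finrank K K')
    set w := Nat.gcdB ℓ (Module.finrank K K')
    refine ⟨u • t + w • S, fun σ => ?_, ?_⟩
    · rw [map_add, map_zsmul, map_zsmul, ht, hS]
    · have h4 : t = ((1 : ℕ) : ℤ) • t := by rw [Nat.cast_one, one_smul]
      conv_rhs => rw [h4, hb]
      rw [add_smul, mul_smul, mul_comm ((Module.finrank K K' : ℕ) : ℤ) w, mul_smul, natCast_zsmul,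
        natCast_zsmul, ← h3, smul_add]
      congr 1
      rw [← natCast_zsmul, ← natCast_zsmul, smul_comm]

end Pool.Agent.MP1bdb59C
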