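import Mathlib
import Pool.Agent.MP1bdb59C.Ring

/-!
# The weight filtration of `A[x,y]/(y^ℓ - g(x))` and its units
-/

open Polynomial Finset
open scoped Classical
set_option linter.unusedSectionVars false

noncomputable section

namespace Pool.Agent.MP1bdb59C

universe u

section

variable {A : Type u} [CommRing A] [Nontrivial A] {ℓ : ℕ} [hℓ : NeZero ℓ] {g : A[X]}

/-- the monomial `x^i y^j`. -/
def mon (g : A[X]) (i j : ℕ) : CoordRing ℓ g := of g (X ^ i) * yy ^ j

omit [Nontrivial A] hℓ in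
lemma mon_mul (i j i' j' : ℕ) : (mon g i j : CoordRing ℓ g) * mon g i' j' =
    mon g (i + i') (j + j') := by
  unfold mon
  rw [pow_add, pow_add, map_mul]
  ring

lemma coef_mon (i j k : ℕ) : coef (mon g i j : CoordRing ℓ g) k =
    if k = j % ℓ then X ^ i * g ^ (j / ℓ) else 0 := by
  have h1 : (mon g i j : CoordRing ℓ g) = of g (X ^ i * g ^ (j / ℓ)) * yy ^ (j % ℓ) := by
    unfold mon
    conv_lhs => rw [← Nat.div_add_mod j ℓ]
    rw [pow_add, pow_mul, yy_pow, map_mul, map_pow, map_pow]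
    ring
  rw [h1, coef_of_mul_yy_pow _ (Nat.mod_lt _ (Nat.pos_of_ne_zero hℓ.out))]

/-- Elements of weight at most `w`, where `x` has weight `ℓ` and `y` has weight `deg g`. -/
def Fil (g : A[X]) (w : ℕ) : AddSubgroup (CoordRing ℓ g) where
  carrier := {z | ∀ j i : ℕ, w < ℓ * i + g.natDegree * j → (coef z j).coeff i = 0}
  zero_mem' := by intro j i _; rw [coef_zero, coeff_zero]
  add_mem' := by
    intro a b ha hb j i h
    rw [coef_add, coeff_add, ha j i h, hb j i h, add_zero]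
  neg_mem' := by
    intro a ha j i h
    have : coef (-a) j = - coef a j := by
      have h1 := coef_sub (0 : CoordRing ℓ g) a j
      rwa [zero_sub, coef_zero, zero_sub] at h1
    rw [this, coeff_neg, ha j i h, neg_zero]

lemma mem_Fil {w : ℕ} {z : CoordRing ℓ g} : z ∈ Fil g w ↔
    ∀ j i : ℕ, w < ℓ * i + g.natDegree * j → (coef z j).coeff i = 0 := Iff.rfl

lemma Fil_mono {w w' : ℕ} (h : w ≤ w') {z : CoordRing ℓ g} (hz : z ∈ Fil g w) : z ∈ Fil g w' :=
  fun j i hh => hz j i (h.trans_lt hh)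

lemma of_mul_mem_Fil {w : ℕ} (a : A) {z : CoordRing ℓ g} (hz : z ∈ Fil g w) :
    of g (C a) * z ∈ Fil g w := by
  intro j i hh
  rw [coef_of_mul, coeff_C_mul, hz j i hh, mul_zero]

/-- The coefficient of weight `w`. -/
def lead (g : A[X]) (w : ℕ) : CoordRing ℓ g →+ A where
  toFun z := ∑ j ∈ range ℓ, if g.natDegree * j ≤ w ∧ ℓ ∣ w - g.natDegree * j then
    (coef z j).coeff ((w - g.natDegree * j) / ℓ) else 0
  map_zero' := by simp [coef_zero]
  map_add' a b := by
    rw [← Finset.sum_add_distrib]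
    apply Finset.sum_congr rfl
    intro j _
    split_ifs
    · rw [coef_add, coeff_add]
    · rw [add_zero]

lemma lead_apply (w : ℕ) (z : CoordRing ℓ g) : lead g w z =
    ∑ j ∈ range ℓ, if g.natDegree * j ≤ w ∧ ℓ ∣ w - g.natDegree * j then
    (coef z j).coeff ((w - g.natDegree * j) / ℓ) else 0 := rfl

lemma lead_of_mul (w : ℕ) (a : A) (z : CoordRing ℓ g) :
    lead g w (of g (C a) * z) = a * lead g w z := by
  rw [lead_apply, lead_apply, Finset.mul_sum]
  apply Finset.sum_congr rfl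
  intro j _
  split_ifs
  · rw [coef_of_mul, coeff_C_mul]
  · rw [mul_zero]

lemma natDegree_aux (hg : g.Monic) (i m : ℕ) : (X ^ i * g ^ m).natDegree = i + m * g.natDegree := by
  rw [(monic_X_pow i).natDegree_mul (hg.pow m), natDegree_X_pow, hg.natDegree_pow]

lemma weight_aux (i j n : ℕ) : ℓ * (i + (j / ℓ) * n) + n * (j % ℓ) = ℓ * i + n * j := by
  have h := Nat.div_add_mod j ℓ
  calc ℓ * (i + (j / ℓ) * n) + n * (j % ℓ) = ℓ * i + n * (ℓ * (j / ℓ) + j % ℓ) := by ring
    _ = ℓ * i + n * j := by rw [h]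

lemma mon_mem_Fil (hg : g.Monic) (i j : ℕ) :
    (mon g i j : CoordRing ℓ g) ∈ Fil g (ℓ * i + g.natDegree * j) := by
  intro k m h
  rw [coef_mon]
  split_ifs with hk
  · apply coeff_eq_zero_of_natDegree_lt
    rw [natDegree_aux hg]
    by_contra hcon
    rw [not_lt] at hcon
    have h1 := weight_aux (ℓ := ℓ) i j g.natDegree
    rw [← h1, hk] at h
    have h2 : ℓ * m ≤ ℓ * (i + j / ℓ * g.natDegree) := Nat.mul_le_mul_left _ hcon
    omega
  · rw [coeff_zero]

lemma lead_mon (hg : g.Monic) (i j w : ℕ) (hw : ℓ * i + g.natDegree * j ≤ w) :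
    lead g w (mon g i j : CoordRing ℓ g) = if ℓ * i + g.natDegree * j = w then 1 else 0 := by
  have hℓ0 : 0 < ℓ := Nat.pos_of_ne_zero hℓ.out
  have h1 := weight_aux (ℓ := ℓ) i j g.natDegree
  rw [lead_apply, Finset.sum_eq_single (j % ℓ)]
  · rw [coef_mon, if_pos rfl]
    split_ifs with ha hb hb
    · have h2 : (w - g.natDegree * (j % ℓ)) / ℓ = i + j / ℓ * g.natDegree := by
        have : w - g.natDegree * (j % ℓ) = ℓ * (i + j / ℓ * g.natDegree) := by omega
        rw [this, Nat.mul_div_cancel_left _ hℓ0]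
      rw [h2, ← natDegree_aux hg]
      exact (monic_X_pow i).mul (hg.pow _)
    · apply coeff_eq_zero_of_natDegree_lt
      rw [natDegree_aux hg]
      obtain ⟨c, hc⟩ := ha.2
      rw [hc, Nat.mul_div_cancel_left _ hℓ0]
      by_contra hcon
      rw [not_lt] at hcon
      have h2 : ℓ * c ≤ ℓ * (i + j / ℓ * g.natDegree) := Nat.mul_le_mul_left _ hcon
      omega
    · exfalso
      apply ha
      refine ⟨by omega, ⟨i + j / ℓ * g.natDegree, by omega⟩⟩
    · rfl
  · intro b _ hb
    split_ifs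
    · rw [coef_mon, if_neg hb, coeff_zero]
    · rfl
  · intro h
    exact absurd (Finset.mem_range.mpr (Nat.mod_lt _ hℓ0)) h

/-- Expansion in monomials. -/
lemma exists_eq_sum_mon (z : CoordRing ℓ g) : ∃ N : ℕ, z = ∑ p ∈ range N ×ˢ range ℓ,
    of g (C ((coef z p.2).coeff p.1)) * mon g p.1 p.2 := by
  refine ⟨(∑ j ∈ range ℓ, (coef z j).natDegree) + 1, ?_⟩
  conv_lhs => rw [eq_sum z]
  rw [Finset.sum_product_right]
  apply Finset.sum_congr rfl
  intro j hj
  have h1 : (coef z j).natDegree < (∑ j ∈ range ℓ, (coef z j).natDegree) + 1 := by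
    have := Finset.single_le_sum (f := fun j => (coef z j).natDegree) (fun _ _ => Nat.zero_le _) hj
    omega
  have h2 := as_sum_range' (coef z j) _ h1
  simp only [← C_mul_X_pow_eq_monomial] at h2
  conv_lhs => rw [h2]
  rw [map_sum, Finset.sum_mul]
  apply Finset.sum_congr rfl
  intro i _
  simp only [mon]
  rw [map_mul, mul_assoc]

lemma mul_eq_sum (z z' : CoordRing ℓ g) {N N' : ℕ}
    (h : z = ∑ p ∈ range N ×ˢ range ℓ, of g (C ((coef z p.2).coeff p.1)) * mon g p.1 p.2)
    (h' : z' = ∑ p ∈ range N' ×ˢ range ℓ, of g (C ((coef z' p.2).coeff p.1)) * mon g p.1 p.2) :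
    z * z' = ∑ p ∈ range N ×ˢ range ℓ, ∑ q ∈ range N' ×ˢ range ℓ,
      of g (C ((coef z p.2).coeff p.1 * (coef z' q.2).coeff q.1)) *
        mon g (p.1 + q.1) (p.2 + q.2) := by
  conv_lhs => rw [h, h']
  rw [Finset.sum_mul_sum]
  apply Finset.sum_congr rfl
  intro p _
  apply Finset.sum_congr rfl
  intro q _
  rw [← mon_mul, C_mul, map_mul]
  ring

lemma mul_mem_Fil (hg : g.Monic) {w w' : ℕ} {z z' : CoordRing ℓ g} (hz : z ∈ Fil g w)
    (hz' : z' ∈ Fil g w') : z * z' ∈ Fil g (w + w') := by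
  obtain ⟨N, hN⟩ := exists_eq_sum_mon z
  obtain ⟨N', hN'⟩ := exists_eq_sum_mon z'
  rw [mul_eq_sum z z' hN hN']
  apply AddSubgroup.sum_mem
  intro p _
  apply AddSubgroup.sum_mem
  intro q _
  by_cases hp : ℓ * p.1 + g.natDegree * p.2 ≤ w
  · by_cases hq : ℓ * q.1 + g.natDegree * q.2 ≤ w'
    · apply of_mul_mem_Fil
      refine Fil_mono ?_ (mon_mem_Fil hg _ _)
      calc ℓ * (p.1 + q.1) + g.natDegree * (p.2 + q.2) =
          (ℓ * p.1 + g.natDegree * p.2) + (ℓ * q.1 + g.natDegree * q.2) := by ring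
        _ ≤ w + w' := Nat.add_le_add hp hq
    · rw [hz' q.2 q.1 (not_le.mp hq), mul_zero, C_0, map_zero, zero_mul]
      exact AddSubgroup.zero_mem _
  · rw [hz p.2 p.1 (not_le.mp hp), zero_mul, C_0, map_zero, zero_mul]
    exact AddSubgroup.zero_mem _

lemma lead_eq_sum (hg : g.Monic) {w : ℕ} {z : CoordRing ℓ g} (hz : z ∈ Fil g w) {N : ℕ}
    (h : z = ∑ p ∈ range N ×ˢ range ℓ, of g (C ((coef z p.2).coeff p.1)) * mon g p.1 p.2) :
    lead g w z = ∑ p ∈ range N ×ˢ range ℓ,
      if ℓ * p.1 + g.natDegree * p.2 = w then (coef z p.2).coeff p.1 else 0 := by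
  conv_lhs => rw [h]
  rw [map_sum]
  apply Finset.sum_congr rfl
  intro p _
  rw [lead_of_mul]
  by_cases hp : ℓ * p.1 + g.natDegree * p.2 ≤ w
  · rw [lead_mon hg _ _ _ hp]
    split_ifs
    · rw [mul_one]
    · rw [mul_zero]
  · rw [hz p.2 p.1 (not_le.mp hp), zero_mul, ite_self]

lemma lead_mul (hg : g.Monic) {w w' : ℕ} {z z' : CoordRing ℓ g} (hz : z ∈ Fil g w)
    (hz' : z' ∈ Fil g w') : lead g (w + w') (z * z') = lead g w z * lead g w' z' := by
  obtain ⟨N, hN⟩ := exists_eq_sum_mon z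
  obtain ⟨N', hN'⟩ := exists_eq_sum_mon z'
  rw [lead_eq_sum hg hz hN, lead_eq_sum hg hz' hN', mul_eq_sum z z' hN hN', Finset.sum_mul_sum,
    map_sum]
  apply Finset.sum_congr rfl
  intro p _
  rw [map_sum]
  apply Finset.sum_congr rfl
  intro q _
  rw [lead_of_mul]
  by_cases hp : ℓ * p.1 + g.natDegree * p.2 ≤ w
  · by_cases hq : ℓ * q.1 + g.natDegree * q.2 ≤ w'
    · have h1 : ℓ * (p.1 + q.1) + g.natDegree * (p.2 + q.2) =
          (ℓ * p.1 + g.natDegree * p.2) + (ℓ * q.1 + g.natDegree * q.2) := by ring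
      rw [lead_mon hg _ _ _ (by rw [h1]; exact Nat.add_le_add hp hq), h1]
      by_cases hp' : ℓ * p.1 + g.natDegree * p.2 = w
      · by_cases hq' : ℓ * q.1 + g.natDegree * q.2 = w'
        · rw [if_pos hp', if_pos hq', if_pos (by rw [hp', hq']), mul_one]
        · rw [if_neg hq', if_neg (by omega), mul_zero, mul_zero]
      · rw [if_neg hp', if_neg (by omega), mul_zero, zero_mul]
    · rw [hz' q.2 q.1 (not_le.mp hq), mul_zero, zero_mul, ite_self, mul_zero]
  · rw [hz p.2 p.1 (not_le.mp hp), zero_mul, zero_mul, ite_self, zero_mul]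

/-- A nonzero element has a leading term. -/
lemma exists_lead (hcop : Nat.Coprime ℓ g.natDegree) {z : CoordRing ℓ g} (hz : z ≠ 0) :
    ∃ w, z ∈ Fil g w ∧ lead g w z ≠ 0 := by
  obtain ⟨N, hN⟩ := exists_eq_sum_mon z
  set S := (range N ×ˢ range ℓ).filter (fun p => (coef z p.2).coeff p.1 ≠ 0) with hS
  have hSne : S.Nonempty := by
    rw [Finset.nonempty_iff_ne_empty]
    intro h0
    apply hz
    rw [hN]
    apply Finset.sum_eq_zero
    intro p hp
    have : (coef z p.2).coeff p.1 = 0 := by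
      by_contra hne
      have : p ∈ S := by rw [hS, Finset.mem_filter]; exact ⟨hp, hne⟩
      rw [h0] at this
      exact absurd this (Finset.notMem_empty p)
    rw [this, C_0, map_zero, zero_mul]
  obtain ⟨p, hpS, hpmax⟩ := Finset.exists_max_image S (fun p => ℓ * p.1 + g.natDegree * p.2) hSne
  rw [hS, Finset.mem_filter, Finset.mem_product, Finset.mem_range, Finset.mem_range] at hpS
  obtain ⟨⟨hp1, hp2⟩, hp3⟩ := hpS
  refine ⟨ℓ * p.1 + g.natDegree * p.2, ?_, ?_⟩
  · intro j i hlt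
    by_contra hne
    have hj : j < ℓ := by
      by_contra hcon
      exact hne (by rw [coef_of_le _ (not_lt.mp hcon), coeff_zero])
    have hi : i < N := by
      by_contra hcon
      apply hne
      have h1 : coef z j = ∑ p ∈ range N ×ˢ range ℓ, coef (of g (C ((coef z p.2).coeff p.1)) *
          mon g p.1 p.2 : CoordRing ℓ g) j := by
        conv_lhs => rw [hN]
        rw [coef_sum]
      rw [h1, finsetSum_coeff]
      apply Finset.sum_eq_zero
      intro q hq
      rw [Finset.mem_product, Finset.mem_range, Finset.mem_range] at hq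
      rw [coef_of_mul, coef_mon, Nat.mod_eq_of_lt hq.2, Nat.div_eq_of_lt hq.2, pow_zero, mul_one]
      split_ifs
      · rw [coeff_C_mul, coeff_X_pow, if_neg (by omega), mul_zero]
      · rw [mul_zero, coeff_zero]
    have hmem : (i, j) ∈ S := by
      rw [hS, Finset.mem_filter, Finset.mem_product, Finset.mem_range, Finset.mem_range]
      exact ⟨⟨hi, hj⟩, hne⟩
    have := hpmax _ hmem
    simp only at this
    omega
  · rw [lead_apply, Finset.sum_eq_single p.2]
    · rw [if_pos ⟨by omega, ⟨p.1, by omega⟩⟩]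
      have : (ℓ * p.1 + g.natDegree * p.2 - g.natDegree * p.2) / ℓ = p.1 := by
        rw [Nat.add_sub_cancel, Nat.mul_div_cancel_left _ (Nat.pos_of_ne_zero hℓ.out)]
      rw [this]
      exact hp3
    · intro j hj hjp
      rw [Finset.mem_range] at hj
      rw [if_neg]
      rintro ⟨h1, h2⟩
      apply hjp
      -- `ℓ ∣ n (p.2 - j)`
      have h3 : (ℓ : ℤ) ∣ (g.natDegree : ℤ) * ((p.2 : ℤ) - j) := by
        obtain ⟨c, hc⟩ := h2
        refine ⟨(c : ℤ) - p.1, ?_⟩
        have h4 : ((ℓ * p.1 + g.natDegree * p.2 - g.natDegree * j : ℕ) : ℤ) = (ℓ * c : ℕ) := by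
          rw [hc]
        rw [Nat.cast_sub h1] at h4
        push_cast at h4
        linear_combination h4
      have h5 : (ℓ : ℤ) ∣ (p.2 : ℤ) - j := by
        apply IsCoprime.dvd_of_dvd_mul_left _ h3
        exact Nat.isCoprime_iff_coprime.mpr hcop
      have h6 : (p.2 : ℤ) - j = 0 := by
        apply Int.eq_zero_of_abs_lt_dvd h5
        rw [abs_lt]
        constructor <;> omega
      omega
    · intro h
      exact absurd (Finset.mem_range.mpr hp2) h

omit [Nontrivial A] in
lemma Fil_zero [Nontrivial A] (hn : g.natDegree ≠ 0) {z : CoordRing ℓ g} (hz : z ∈ Fil g 0) :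
    ∃ a : A, z = of g (C a) := by
  have hℓ0 : 0 < ℓ := Nat.pos_of_ne_zero hℓ.out
  refine ⟨(coef z 0).coeff 0, ?_⟩
  apply coef_ext
  intro j _
  rw [coef_of]
  split_ifs with hj
  · subst hj
    ext i
    rw [coeff_C]
    split_ifs with hi
    · rw [hi]
    · exact hz 0 i (by rw [mul_zero, add_zero]; exact Nat.mul_pos hℓ0 (Nat.pos_of_ne_zero hi))
  · ext i
    rw [coeff_zero]
    refine hz j i ?_
    have : 0 < g.natDegree * j := Nat.mul_pos (Nat.pos_of_ne_zero hn) (Nat.pos_of_ne_zero hj)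
    omega

lemma one_mem_Fil (w : ℕ) : (1 : CoordRing ℓ g) ∈ Fil g w := by
  intro j i h
  have h1 : (1 : CoordRing ℓ g) = of g 1 := (map_one _).symm
  rw [h1, coef_of]
  split_ifs with hj
  · rw [coeff_one]
    split_ifs with hi
    · subst hj; subst hi; simp at h
    · rfl
  · rw [coeff_zero]

/-- The units are constants. -/
theorem isUnit_iff_const [NoZeroDivisors A] (hg : g.Monic) (hcop : Nat.Coprime ℓ g.natDegree)
    (hn : g.natDegree ≠ 0) {z z' : CoordRing ℓ g} (h : z * z' = 1) :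
    ∃ a : A, z = of g (C a) := by
  have hz : z ≠ 0 := by rintro rfl; rw [zero_mul] at h; exact zero_ne_one h
  have hz' : z' ≠ 0 := by rintro rfl; rw [mul_zero] at h; exact zero_ne_one h
  obtain ⟨w, hw, hw'⟩ := exists_lead hcop hz
  obtain ⟨v, hv, hv'⟩ := exists_lead hcop hz'
  have h1 := lead_mul hg hw hv
  rw [h] at h1
  have h2 : lead g (w + v) (1 : CoordRing ℓ g) ≠ 0 := by
    rw [h1]
    exact mul_ne_zero hw' hv'
  have h3 : w + v = 0 := by
    by_contra hne
    apply h2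
    have h4 : (1 : CoordRing ℓ g) = mon g 0 0 := by
      unfold mon
      rw [pow_zero, pow_zero, map_one, mul_one]
    rw [h4, lead_mon hg _ _ _ (by simp), if_neg (by simpa using Ne.symm hne)]
  have h4 : w = 0 := by omega
  rw [h4] at hw
  exact Fil_zero hn hw

lemma isDomain_of_lead [NoZeroDivisors A] (hg : g.Monic) (hcop : Nat.Coprime ℓ g.natDegree) :
    NoZeroDivisors (CoordRing ℓ g) where
  eq_zero_or_eq_zero_of_mul_eq_zero := by
    intro z z' h
    by_contra hcon
    push Not at hcon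
    obtain ⟨w, hw, hw'⟩ := exists_lead hcop hcon.1
    obtain ⟨v, hv, hv'⟩ := exists_lead hcop hcon.2
    have h1 := lead_mul hg hw hv
    rw [h, map_zero] at h1
    exact mul_ne_zero hw' hv' h1.symm

end

section Tau

variable {A : Type u} [CommRing A] [Nontrivial A] {ℓ : ℕ} [hℓ : NeZero ℓ] {g : A[X]}
  {ζ : A} (hζ : ζ ^ ℓ = 1)

lemma tau_mem_Fil {w : ℕ} {z : CoordRing ℓ g} (hz : z ∈ Fil g w) : tau hζ g z ∈ Fil g w := by
  intro j i h
  rw [coef_tau, coeff_C_mul, hz j i h, mul_zero]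

end Tau

end Pool.Agent.MP1bdb59C
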