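import Mathlib
import Pool.Agent.MP1bdb59C.Weight

/-!
# The function field of `y^ℓ = f(x)` over a field containing the `ℓ`-th roots of unity
-/

open Polynomial Finset

noncomputable section

open scoped Classical

namespace Pool.Agent.MP1bdb59C

universe u

set_option linter.unusedSectionVars false

section Iter

variable {M : Type*} [CommMonoid M] {Φ : Type*} [FunLike Φ M M] [MonoidHomClass Φ M M] (τ : Φ)

/-- The product of the first `n` iterates. -/
def nrm (n : ℕ) (z : M) : M := ∏ i ∈ range n, (τ^[i]) z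

lemma nrm_mul (n : ℕ) (z w : M) : nrm τ n (z * w) = nrm τ n z * nrm τ n w := by
  unfold nrm
  rw [← Finset.prod_mul_distrib]
  exact Finset.prod_congr rfl fun i _ => iterate_map_mul τ i z w

lemma nrm_one (n : ℕ) : nrm τ n 1 = 1 := by
  unfold nrm
  apply Finset.prod_eq_one
  intro i _
  exact iterate_map_one τ i

lemma map_nrm' (n : ℕ) (z : M) : τ (nrm τ n z) = nrm τ n (τ z) := by
  unfold nrm
  rw [map_prod]
  exact Finset.prod_congr rfl fun i _ =>
    (Function.iterate_succ_apply' (⇑τ) i z).symm.trans (Function.iterate_succ_apply (⇑τ) i z)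

lemma nrm_succ (n : ℕ) (z : M) : nrm τ (n + 1) z = z * τ (nrm τ n z) := by
  unfold nrm
  rw [Finset.prod_range_succ', map_prod, mul_comm]
  congr 1
  exact Finset.prod_congr rfl fun i _ => Function.iterate_succ_apply' _ _ _

lemma nrm_succ' (n : ℕ) (z : M) : nrm τ (n + 1) z = nrm τ n z * (τ^[n]) z :=
  Finset.prod_range_succ _ _

lemma nrm_pred {n : ℕ} (hn : n ≠ 0) (z : M) : nrm τ n z = z * τ (nrm τ (n - 1) z) := by
  obtain ⟨m, rfl⟩ := Nat.exists_eq_succ_of_ne_zero hn
  exact nrm_succ τ m z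

lemma nrm_tau {n : ℕ} {z : M} (hz : (τ^[n]) z = z) : τ (nrm τ n z) = nrm τ n z := by
  rcases Nat.eq_zero_or_pos n with rfl | hn
  · simp [nrm]
  · obtain ⟨m, rfl⟩ : ∃ m, n = m + 1 := ⟨n - 1, by omega⟩
    have h0 : τ ((τ^[m]) z) = z := (Function.iterate_succ_apply' (⇑τ) m z).symm.trans hz
    rw [nrm_succ', map_mul, h0, ← nrm_succ', nrm_succ, mul_comm]

lemma nrm_of_fixed {n : ℕ} {z : M} (hz : τ z = z) : nrm τ n z = z ^ n := by
  unfold nrm
  rw [Finset.prod_congr rfl (fun i _ => Function.iterate_fixed hz i), Finset.prod_const,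
    Finset.card_range]

end Iter

set_option linter.unusedSectionVars false

/-- Standing assumptions on the polynomial `f`. -/
class Good (ℓ : ℕ) {F : Type u} [Field F] (f : F[X]) : Prop where
  monic : f.Monic
  sep : f.Separable
  cop : ¬ ℓ ∣ f.natDegree

section

variable {F : Type u} [Field F] {ℓ : ℕ} [hp : Fact ℓ.Prime] {f : F[X]} [hf : Good ℓ f]

instance : NoZeroDivisors (CoordRing ℓ f) :=
  isDomain_of_lead hf.monic ((Nat.Prime.coprime_iff_not_dvd hp.out).mpr hf.cop)

instance : IsDomain (CoordRing ℓ f) := NoZeroDivisors.to_isDomain _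

include hf in
variable (ℓ) in
omit hp in
lemma Good.natDegree_ne : f.natDegree ≠ 0 := by
  intro h
  exact hf.cop (by rw [h]; exact dvd_zero ℓ)

include hf in
lemma Good.coprime : Nat.Coprime ℓ f.natDegree :=
  (Nat.Prime.coprime_iff_not_dvd hp.out).mpr hf.cop

/-- The units are constants. -/
lemma exists_const_of_isUnit {z : CoordRing ℓ f} (hz : IsUnit z) :
    ∃ a : F, a ≠ 0 ∧ z = of f (C a) := by
  obtain ⟨z', hz'⟩ := isUnit_iff_exists_inv.mp hz
  obtain ⟨a, rfl⟩ := isUnit_iff_const hf.monic Good.coprime (Good.natDegree_ne ℓ) hz'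
  refine ⟨a, ?_, rfl⟩
  rintro rfl
  rw [C_0, map_zero, zero_mul] at hz'
  exact zero_ne_one hz'

variable (ℓ f) in
/-- The function field. -/
abbrev FF : Type u := FractionRing (CoordRing ℓ f)

/-- The map of fraction fields. -/
def frMap {R R' : Type*} [CommRing R] [IsDomain R] [CommRing R'] [IsDomain R'] (φ : R →+* R')
    (hφ : Function.Injective φ) : FractionRing R →+* FractionRing R' :=
  IsFractionRing.map hφ

lemma frMap_algebraMap {R R' : Type*} [CommRing R] [IsDomain R] [CommRing R'] [IsDomain R']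
    (φ : R →+* R') (hφ : Function.Injective φ) (r : R) :
    frMap φ hφ (algebraMap R (FractionRing R) r) = algebraMap R' (FractionRing R') (φ r) := by
  unfold frMap IsFractionRing.map
  exact IsLocalization.map_eq _ r

/-- polynomials in the function field. -/
def pol (p : F[X]) : FF ℓ f := algebraMap (CoordRing ℓ f) (FF ℓ f) (of f p)

lemma pol_mul (p q : F[X]) : (pol (p * q) : FF ℓ f) = pol p * pol q := by
  unfold pol; rw [map_mul, map_mul]

lemma pol_one : (pol 1 : FF ℓ f) = 1 := by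
  unfold pol; rw [map_one, map_one]

lemma pol_pow (p : F[X]) (n : ℕ) : (pol (p ^ n) : FF ℓ f) = pol p ^ n := by
  unfold pol; rw [map_pow, map_pow]

lemma pol_injective : Function.Injective (pol : F[X] → FF ℓ f) := by
  intro p q h
  exact of_injective (IsFractionRing.injective (CoordRing ℓ f) (FF ℓ f) h)

lemma pol_ne_zero {p : F[X]} (h : p ≠ 0) : (pol p : FF ℓ f) ≠ 0 := by
  intro h0
  apply h
  apply pol_injective (ℓ := ℓ) (f := f)
  rw [h0]
  unfold pol
  rw [map_zero, map_zero]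

variable {ζ : F} (hζ : IsPrimitiveRoot ζ ℓ)

lemma ell_ne_zero (hζ : IsPrimitiveRoot ζ ℓ) : (ℓ : F) ≠ 0 := hζ.neZero'.out

/-- `τ` on the function field. -/
def tauM : FF ℓ f →+* FF ℓ f := frMap (tau hζ.pow_eq_one f) (tau_injective hζ.pow_eq_one)

lemma tauM_alg (r : CoordRing ℓ f) : tauM hζ (algebraMap _ (FF ℓ f) r) =
    algebraMap _ (FF ℓ f) (tau hζ.pow_eq_one f r) := frMap_algebraMap _ _ _

lemma tauM_pol (p : F[X]) : tauM hζ (pol p : FF ℓ f) = pol p := by
  unfold pol
  rw [tauM_alg, tau_of]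

lemma tauM_iterate_alg (n : ℕ) (r : CoordRing ℓ f) : (tauM hζ)^[n] (algebraMap _ (FF ℓ f) r) =
    algebraMap _ (FF ℓ f) ((tau hζ.pow_eq_one f)^[n] r) := by
  induction n with
  | zero => rfl
  | succ n ih => rw [Function.iterate_succ_apply', ih, tauM_alg, Function.iterate_succ_apply']

lemma tauM_iterate_div (n : ℕ) (z w : FF ℓ f) :
    (tauM hζ)^[n] (z / w) = (tauM hζ)^[n] z / (tauM hζ)^[n] w := by
  induction n with
  | zero => rfl
  | succ n ih =>
    rw [Function.iterate_succ_apply', Function.iterate_succ_apply', Function.iterate_succ_apply',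
      ih, map_div₀]

lemma tauM_iterate_ell (z : FF ℓ f) : (tauM hζ)^[ℓ] z = z := by
  obtain ⟨a, b, hb, rfl⟩ := IsFractionRing.div_surjective (A := CoordRing ℓ f) z
  rw [tauM_iterate_div, tauM_iterate_alg, tauM_iterate_alg, tau_iterate_ell, tau_iterate_ell]

lemma tau_fixed {r : CoordRing ℓ f} (h : tau hζ.pow_eq_one f r = r) : r = of f (coef r 0) := by
  apply coef_ext
  intro j hj
  rw [coef_of]
  split_ifs with h0
  · rw [h0]
  · have h1 := congrArg (fun t => coef t j) h
    simp only [coef_tau] at h1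
    have h2 : (C (ζ ^ j) - 1) * coef r j = 0 := by rw [sub_mul, one_mul, h1, sub_self]
    rcases mul_eq_zero.mp h2 with h3 | h3
    · exfalso
      rw [sub_eq_zero, ← C_1] at h3
      have h4 := C_injective h3
      exact hζ.pow_ne_one_of_pos_of_lt h0 hj h4
    · exact h3

lemma tauM_ne_zero {z : FF ℓ f} (hz : z ≠ 0) : tauM hζ z ≠ 0 := by rwa [Ne, map_eq_zero]

include hζ in
/-- norm of an element of the coordinate ring. -/
lemma exists_norm {r : CoordRing ℓ f} (hr : r ≠ 0) :
    ∃ (s : CoordRing ℓ f) (p : F[X]), p ≠ 0 ∧ r * s = of f p := by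
  have h1 := nrm_tau (tau hζ.pow_eq_one f) (n := ℓ) (z := r) (tau_iterate_ell hζ.pow_eq_one r)
  have h2 := tau_fixed hζ h1
  have h3 := nrm_pred (tau hζ.pow_eq_one f) hp.out.ne_zero r
  refine ⟨_, _, ?_, h3.symm.trans h2⟩
  intro h0
  rw [h0, map_zero] at h2
  have h4 : nrm (tau hζ.pow_eq_one f) ℓ r ≠ 0 := by
    unfold nrm
    rw [Finset.prod_ne_zero_iff]
    intro i _
    have : ∀ n, (tau hζ.pow_eq_one f)^[n] r ≠ 0 := by
      intro n
      induction n with
      | zero => exact hr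
      | succ n ih =>
        rw [Function.iterate_succ_apply']
        intro h
        exact ih (tau_injective hζ.pow_eq_one (by rw [h, map_zero]))
    exact this i
  exact h4 h2

include hζ in
lemma exists_den (z : FF ℓ f) : ∃ (r : CoordRing ℓ f) (p : F[X]), p ≠ 0 ∧
    z * pol p = algebraMap _ (FF ℓ f) r := by
  obtain ⟨a, b, hb, rfl⟩ := IsFractionRing.div_surjective (A := CoordRing ℓ f) z
  have hb0 : b ≠ 0 := nonZeroDivisors.ne_zero hb
  obtain ⟨s, p, hp0, hs⟩ := exists_norm hζ hb0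
  refine ⟨a * s, p, hp0, ?_⟩
  unfold pol
  rw [← hs, map_mul, map_mul]
  have : algebraMap (CoordRing ℓ f) (FF ℓ f) b ≠ 0 := by
    rwa [Ne, IsFractionRing.to_map_eq_zero_iff]
  field_simp

/-- The elements fixed by `τ` are rational functions of `x`. -/
lemma tauM_fixed {z : FF ℓ f} (h : tauM hζ z = z) : ∃ p q : F[X], q ≠ 0 ∧ z * pol q = pol p := by
  obtain ⟨r, p, hp0, hr⟩ := exists_den hζ z
  have h1 : tau hζ.pow_eq_one f r = r := by
    apply IsFractionRing.injective (CoordRing ℓ f) (FF ℓ f)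
    rw [← tauM_alg hζ, ← hr, map_mul, h, tauM_pol]
  refine ⟨coef r 0, p, hp0, ?_⟩
  rw [hr]
  conv_lhs => rw [tau_fixed hζ h1]
  rfl

variable (ℓ f) in
/-- the element `y` of the function field. -/
def yM : FF ℓ f := algebraMap (CoordRing ℓ f) (FF ℓ f) yy

lemma yM_ne_zero : yM ℓ f ≠ 0 := by
  unfold yM
  rw [Ne, IsFractionRing.to_map_eq_zero_iff]
  intro h
  have h1 := yy_pow (ℓ := ℓ) (g := f)
  rw [h, zero_pow hp.out.ne_zero] at h1
  have h2 : f = 0 := of_injective (ℓ := ℓ) (g := f) (by rw [← h1, map_zero])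
  exact hf.monic.ne_zero h2

lemma yM_pow : (yM ℓ f) ^ ℓ = pol f := by
  unfold yM pol
  rw [← map_pow, yy_pow]

lemma tauM_yM : tauM hζ (yM ℓ f) = pol (C ζ) * yM ℓ f := by
  unfold yM pol
  rw [tauM_alg, tau_yy, map_mul]

lemma tauM_iterate_yM (i n : ℕ) : (tauM hζ)^[n] (yM ℓ f ^ i) = pol (C (ζ ^ (n * i))) * yM ℓ f ^ i := by
  induction n with
  | zero => simp [pol]
  | succ n ih =>
    rw [Function.iterate_succ_apply', ih, map_mul, tauM_pol, map_pow (tauM hζ), tauM_yM, mul_pow,
      ← pol_pow, ← mul_assoc, ← pol_mul, ← C_pow, ← C_mul, ← pow_add, add_mul, one_mul]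

/-- Hilbert 90. -/
theorem hilbert90 {z : FF ℓ f} (hz : nrm (tauM hζ) ℓ z = 1) :
    ∃ b : FF ℓ f, b ≠ 0 ∧ z * tauM hζ b = b := by
  set τ : FF ℓ f →+* FF ℓ f := tauM hζ with hτ
  set B : FF ℓ f → FF ℓ f := fun c => ∑ j ∈ range ℓ, nrm τ j z * (tauM hζ)^[j] c with hB
  have key : ∀ c, z * tauM hζ (B c) = B c := by
    intro c
    have h1 : z * tauM hζ (B c) = ∑ j ∈ range ℓ, nrm τ (j + 1) z * (tauM hζ)^[j + 1] c := by
      rw [hB]
      simp only
      rw [map_sum, Finset.mul_sum]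
      apply Finset.sum_congr rfl
      intro j _
      rw [map_mul, nrm_succ, Function.iterate_succ_apply', ← mul_assoc]
    rw [h1]
    have h2 := Finset.sum_range_succ (fun j => nrm τ j z * (tauM hζ)^[j] c) ℓ
    rw [Finset.sum_range_succ'] at h2
    have h3 : nrm τ 0 z * (tauM hζ)^[0] c = c := by simp [nrm]
    have h4 : nrm τ ℓ z * (tauM hζ)^[ℓ] c = c := by rw [hz, one_mul, tauM_iterate_ell]
    rw [h3, h4] at h2
    exact add_right_cancel h2
  by_contra hcon
  push Not at hcon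
  have hzero : ∀ c, B c = 0 := by
    intro c
    by_contra hne
    exact hcon _ hne (key c)
  have h1 : ∀ i, ∑ j ∈ range ℓ, nrm τ j z * pol (C (ζ ^ (j * i))) = 0 := by
    intro i
    have h2 := hzero (yM ℓ f ^ i)
    rw [hB] at h2
    simp only [tauM_iterate_yM] at h2
    have h3 : (∑ j ∈ range ℓ, nrm τ j z * pol (C (ζ ^ (j * i)))) * yM ℓ f ^ i = 0 := by
      rw [Finset.sum_mul, ← h2]
      exact Finset.sum_congr rfl fun j _ => by ring
    exact (mul_eq_zero.mp h3).resolve_right (pow_ne_zero _ yM_ne_zero)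
  have h2 : ∑ i ∈ range ℓ, ∑ j ∈ range ℓ, nrm τ j z * (pol (C (ζ ^ (j * i))) : FF ℓ f) = 0 :=
    Finset.sum_eq_zero fun i _ => h1 i
  rw [Finset.sum_comm] at h2
  have h3 : ∀ j ∈ range ℓ, ∑ i ∈ range ℓ, nrm τ j z * (pol (C (ζ ^ (j * i))) : FF ℓ f) =
      if j = 0 then pol (C (ℓ : F)) else 0 := by
    intro j hj
    rw [Finset.mem_range] at hj
    rw [← Finset.mul_sum]
    have h4 : ∑ i ∈ range ℓ, (pol (C (ζ ^ (j * i))) : FF ℓ f) =
        pol (C (∑ i ∈ range ℓ, (ζ ^ j) ^ i)) := by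
      unfold pol
      simp only [pow_mul]
      rw [map_sum, map_sum, map_sum]
    rw [h4]
    split_ifs with h0
    · subst h0
      simp [nrm]
    · have h5 : IsPrimitiveRoot (ζ ^ j) ℓ := by
        apply hζ.pow_of_coprime
        exact (Nat.coprime_comm.mp ((Nat.Prime.coprime_iff_not_dvd hp.out).mpr
          (fun hd => absurd (Nat.le_of_dvd (Nat.pos_of_ne_zero h0) hd) (not_le.mpr hj))))
      rw [h5.geom_sum_eq_zero hp.out.one_lt]
      unfold pol
      rw [C_0, map_zero, map_zero, mul_zero]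
  rw [Finset.sum_congr rfl h3, Finset.sum_ite_eq', if_pos (Finset.mem_range.mpr hp.out.pos)] at h2
  exact pol_ne_zero (C_ne_zero.mpr (ell_ne_zero hζ)) h2

end

end Pool.Agent.MP1bdb59C
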