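import Mathlib

/-!
# Extension of invertible submodules along ring homomorphisms, and the Picard group
-/

open Submodule

noncomputable section

namespace Pool.Agent.MP1bdb59C

universe u v

section Push

variable {R : Type*} {R' : Type*} {R'' : Type*} {M : Type*} {M' : Type*} {M'' : Type*}
  [CommRing R] [CommRing R'] [CommRing R''] [CommRing M] [CommRing M'] [CommRing M'']
  [Algebra R M] [Algebra R' M'] [Algebra R'' M'']
  {φ : R →+* R'} {Φ : M →+* M'} (h : ∀ r, Φ (algebraMap R M r) = algebraMap R' M' (φ r))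
  {φ' : R' →+* R''} {Φ' : M' →+* M''} (h' : ∀ r, Φ' (algebraMap R' M' r) = algebraMap R'' M'' (φ' r))

/-- The extension of a submodule along compatible ring homomorphisms. -/
def push : Submodule R M →* Submodule R' M' where
  toFun T := span R' (Φ '' (T : Set M))
  map_one' := by
    apply le_antisymm
    · rw [span_le]
      rintro _ ⟨x, hx, rfl⟩
      obtain ⟨r, rfl⟩ := Submodule.mem_one.mp hx
      rw [h]
      exact Submodule.mem_one.mpr ⟨_, rfl⟩
    · rw [Submodule.one_le]
      apply subset_span
      exact ⟨1, Submodule.one_le.mp le_rfl, map_one Φ⟩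
  map_mul' T T' := by
    apply le_antisymm
    · rw [span_le]
      rintro _ ⟨x, hx, rfl⟩
      induction hx using Submodule.mul_induction_on' with
      | mem_mul_mem m hm n hn =>
        rw [map_mul]
        exact Submodule.mul_mem_mul (subset_span ⟨m, hm, rfl⟩) (subset_span ⟨n, hn, rfl⟩)
      | add x _ y _ hx hy => rw [map_add]; exact Submodule.add_mem _ hx hy
    · rw [span_mul_span, span_le]
      rintro _ ⟨_, ⟨a, ha, rfl⟩, _, ⟨b, hb, rfl⟩, rfl⟩
      exact subset_span ⟨a * b, Submodule.mul_mem_mul ha hb, map_mul Φ a b⟩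

lemma push_apply (T : Submodule R M) : push h T = span R' (Φ '' (T : Set M)) := rfl

lemma mem_push {T : Submodule R M} {t : M} (ht : t ∈ T) : Φ t ∈ push h T := subset_span ⟨t, ht, rfl⟩

lemma push_le {T : Submodule R M} {T' : Submodule R' M'} :
    push h T ≤ T' ↔ ∀ t ∈ T, Φ t ∈ T' := by
  rw [push_apply, span_le]
  constructor
  · intro H t ht
    exact H ⟨t, ht, rfl⟩
  · rintro H _ ⟨t, ht, rfl⟩
    exact H t ht

lemma push_mono {T₁ T₂ : Submodule R M} (hT : T₁ ≤ T₂) : push h T₁ ≤ push h T₂ :=
  (push_le h).mpr fun _ ht => mem_push h (hT ht)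

lemma push_span_singleton (z : M) : push h (span R {z}) = span R' {Φ z} := by
  apply le_antisymm
  · rw [push_le]
    intro t ht
    obtain ⟨r, rfl⟩ := mem_span_singleton.mp ht
    rw [Algebra.smul_def, map_mul, h]
    exact mem_span_singleton.mpr ⟨φ r, by rw [Algebra.smul_def]⟩
  · rw [span_le, Set.singleton_subset_iff]
    exact mem_push h (mem_span_singleton_self z)

lemma push_sup (T₁ T₂ : Submodule R M) : push h (T₁ ⊔ T₂) = push h T₁ ⊔ push h T₂ := by
  apply le_antisymm
  · rw [push_le]
    intro t ht
    obtain ⟨a, ha, b, hb, rfl⟩ := Submodule.mem_sup.mp ht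
    rw [map_add]
    exact Submodule.add_mem_sup (mem_push h ha) (mem_push h hb)
  · exact sup_le (push_mono h le_sup_left) (push_mono h le_sup_right)

include h h' in
lemma comp_compat (r : R) : (Φ'.comp Φ) (algebraMap R M r) = algebraMap R'' M'' ((φ'.comp φ) r) := by
  rw [RingHom.comp_apply, h, h', RingHom.comp_apply]

lemma push_push (T : Submodule R M) : push h' (push h T) =
    push (φ := φ'.comp φ) (Φ := Φ'.comp Φ) (comp_compat h h') T := by
  apply le_antisymm
  · rw [push_le]
    intro t ht
    rw [push_apply] at ht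
    induction ht using Submodule.span_induction with
    | mem x hx =>
      obtain ⟨y, hy, rfl⟩ := hx
      exact mem_push (comp_compat h h') hy
    | zero => rw [map_zero]; exact Submodule.zero_mem _
    | add x y _ _ hx hy => rw [map_add]; exact Submodule.add_mem _ hx hy
    | smul r x _ hx =>
      rw [Algebra.smul_def, map_mul, h', ← Algebra.smul_def]
      exact Submodule.smul_mem _ _ hx
  · rw [push_le]
    intro t ht
    exact mem_push h' (mem_push h ht)

/-- If `φ` and `Φ` are surjective then the extension is just the image. -/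
lemma mem_push_of_surjective (hφ : Function.Surjective φ) {T : Submodule R M} {x : M'} :
    x ∈ push h T ↔ ∃ t ∈ T, Φ t = x := by
  constructor
  · intro hx
    rw [push_apply] at hx
    induction hx using Submodule.span_induction with
    | mem x hx => obtain ⟨y, hy, rfl⟩ := hx; exact ⟨y, hy, rfl⟩
    | zero => exact ⟨0, T.zero_mem, map_zero _⟩
    | add x y _ _ hx hy =>
      obtain ⟨a, ha, rfl⟩ := hx
      obtain ⟨b, hb, rfl⟩ := hy
      exact ⟨a + b, T.add_mem ha hb, map_add _ _ _⟩
    | smul r x _ hx =>
      obtain ⟨a, ha, rfl⟩ := hx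
      obtain ⟨s, rfl⟩ := hφ r
      exact ⟨s • a, T.smul_mem s ha, by rw [Algebra.smul_def, map_mul, h, Algebra.smul_def]⟩
  · rintro ⟨t, ht, rfl⟩
    exact mem_push h ht

end Push

section Pic

variable {R : Type*} {R' : Type*} {M : Type*} {M' : Type*}
  [CommRing R] [CommRing R'] [CommRing M] [CommRing M']
  [Algebra R M] [Algebra R' M'] [FaithfulSMul R M] [FaithfulSMul R' M']
  {φ : R →+* R'} {Φ : M →+* M'} (h : ∀ r, Φ (algebraMap R M r) = algebraMap R' M' (φ r))

open TensorProduct in
/-- The class of the extension of an invertible submodule. -/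
theorem mapRingHom_unitsToPic (T : (Submodule R M)ˣ) :
    CommRing.Pic.mapRingHom φ (unitsToPic R M T) = unitsToPic R' M' (Units.map (push h) T) := by
  algebraize [φ]
  have h1 : CommRing.Pic.mapRingHom φ (unitsToPic R M T) =
      CommRing.Pic.mk R' (R' ⊗[R] (T.1 : Submodule R M)) := by
    change CommRing.Pic.mk R' (R' ⊗[R] (CommRing.Pic.mk R (T.1 : Submodule R M))) = _
    rw [CommRing.Pic.mk_eq_mk_iff]
    exact ⟨AlgebraTensorModule.congr (.refl ..) (CommRing.Pic.mk.linearEquiv ..)⟩
  rw [h1]
  change _ = CommRing.Pic.mk R' ((Units.map (push h) T).1 : Submodule R' M')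
  rw [CommRing.Pic.mk_eq_mk_iff]
  -- the canonical map
  let T' : Submodule R' M' := push h T.1
  let f₀ : (T.1 : Submodule R M) →+ T' :=
    { toFun := fun t => ⟨Φ t.1, mem_push h t.2⟩
      map_zero' := by ext; simp
      map_add' := fun a b => by ext; simp }
  let _ : Module R T' := Module.compHom T' φ
  have hsm : ∀ (r : R) (t : T'), r • t = φ r • t := fun r t => rfl
  have : IsScalarTower R R' T' := ⟨fun a b c => by
    rw [hsm, Algebra.smul_def, mul_smul]; rfl⟩
  let f₁ : (T.1 : Submodule R M) →ₗ[R] T' :=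
    { toFun := f₀
      map_add' := f₀.map_add
      map_smul' := fun r t => by
        apply Subtype.ext
        rw [hsm]
        change Φ (r • t.1) = φ r • Φ t.1
        rw [Algebra.smul_def, map_mul, h, Algebra.smul_def] }
  let f : R' ⊗[R] (T.1 : Submodule R M) →ₗ[R'] T' := AlgebraTensorModule.lift
    { toFun := fun r' => r' • f₁
      map_add' := fun a b => by rw [add_smul]
      map_smul' := fun a b => by
        ext t
        simp [mul_smul] }
  have hf : ∀ (r' : R') (t : (T.1 : Submodule R M)), f (r' ⊗ₜ t) = r' • f₁ t := fun r' t => rfl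
  have hsurj' : ∀ x ∈ span R' (Φ '' (T.1 : Set M)), ∃ a, ((f a : T') : M') = x := by
    intro x hx
    induction hx using Submodule.span_induction with
    | mem x hx =>
      obtain ⟨y, hy, rfl⟩ := hx
      refine ⟨1 ⊗ₜ ⟨y, hy⟩, ?_⟩
      rw [hf, one_smul]
      rfl
    | zero => exact ⟨0, by rw [map_zero]; rfl⟩
    | add x y hx hy ihx ihy =>
      obtain ⟨a, ha⟩ := ihx
      obtain ⟨b, hb⟩ := ihy
      exact ⟨a + b, by rw [map_add, ← ha, ← hb]; rfl⟩
    | smul r x hx ihx =>
      obtain ⟨a, ha⟩ := ihx
      exact ⟨r • a, by rw [map_smul, ← ha]; rfl⟩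
  have hsurj : Function.Surjective f := by
    rintro ⟨x, hx⟩
    obtain ⟨a, ha⟩ := hsurj' x hx
    exact ⟨a, Subtype.ext ha⟩
  have : Module.Invertible R' T' := inferInstanceAs (Module.Invertible R' (Units.map (push h) T).1)
  exact ⟨LinearEquiv.ofBijective f (Module.Invertible.bijective_of_surjective hsurj)⟩

end Pic

section Field

variable {R : Type*} [CommRing R] {M : Type*} [Field M] [Algebra R M] [FaithfulSMul R M]

/-- Every class of the Picard group of a ring in a field comes from an invertible submodule. -/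
lemma unitsToPic_surjective (c : CommRing.Pic R) : ∃ T : (Submodule R M)ˣ, unitsToPic R M T = c := by
  have h1 : c ∈ CommRing.relPic R M := by
    rw [CommRing.relPic_eq_top]
    trivial
  rw [← range_unitsToPic] at h1
  exact h1

lemma unitsToPic_eq_one_iff (T : (Submodule R M)ˣ) :
    unitsToPic R M T = 1 ↔ ∃ z : M, z ≠ 0 ∧ (T : Submodule R M) = span R {z} := by
  rw [← MonoidHom.mem_ker, ker_unitsToPic]
  constructor
  · rintro ⟨z, hz⟩
    refine ⟨z, z.ne_zero, ?_⟩
    rw [← hz]
    rfl
  · rintro ⟨z, hz, h⟩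
    refine ⟨Units.mk0 z hz, ?_⟩
    apply Units.ext
    rw [h]
    rfl

end Field

end Pool.Agent.MP1bdb59C
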