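import Mathlib
import Pool.Agent.MP1bdb59C.Push
import Pool.Agent.MP1bdb59C.Field

/-!
# Reduction modulo `y` and the bilinear relation attached to `φ`-torsion divisors
-/

open Polynomial Finset Submodule

noncomputable section

open scoped Classical

set_option linter.unusedSectionVars false

namespace Pool.Agent.MP1bdb59C

universe u

section Red

variable {A : Type u} [CommRing A] {ℓ : ℕ} [hℓ : NeZero ℓ] (g : A[X])

/-- Reduction modulo `y`. -/
def red : CoordRing ℓ g →+* AdjoinRoot g :=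
  AdjoinRoot.lift (AdjoinRoot.mk g) 0 (by
    rw [eval₂_sub, eval₂_pow, eval₂_X, eval₂_C, zero_pow hℓ.out, zero_sub, AdjoinRoot.mk_self,
      neg_zero])

lemma red_of (p : A[X]) : red (ℓ := ℓ) g (of g p) = AdjoinRoot.mk g p := AdjoinRoot.lift_of _

lemma red_yy : red (ℓ := ℓ) g yy = 0 := AdjoinRoot.lift_root _

lemma red_eq [Nontrivial A] (z : CoordRing ℓ g) : red g z = AdjoinRoot.mk g (coef z 0) := by
  conv_lhs => rw [eq_sum z]
  rw [map_sum, Finset.sum_eq_single 0]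
  · rw [map_mul, red_of, pow_zero, map_one, mul_one]
  · intro j _ hj
    rw [map_mul, map_pow, red_yy, zero_pow hj, mul_zero]
  · intro h
    exact absurd (Finset.mem_range.mpr (Nat.pos_of_ne_zero hℓ.out)) h

lemma red_tau [Nontrivial A] {ζ : A} (hζ : ζ ^ ℓ = 1) (z : CoordRing ℓ g) :
    red g (tau hζ g z) = red g z := by
  rw [red_eq, red_eq, coef_tau, pow_zero, C_1, one_mul]

lemma red_eq_zero [Nontrivial A] {z : CoordRing ℓ g} (h : red g z = 0) : ∃ w, z = yy * w := by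
  rw [red_eq, AdjoinRoot.mk_eq_zero] at h
  obtain ⟨q, hq⟩ := h
  obtain ⟨m, hm⟩ := Nat.exists_eq_succ_of_ne_zero hℓ.out
  have h1 := eq_sum z
  set c : ℕ → A[X] := coef z with hc
  refine ⟨of g q * yy ^ m + ∑ j ∈ range m, of g (c (j + 1)) * yy ^ j, ?_⟩
  have h2 : ∀ n, n = m + 1 → ∑ j ∈ range n, of g (c j) * yy ^ j = (∑ j ∈ range m,
      of g (c (j + 1)) * yy ^ (j + 1) : CoordRing ℓ g) + of g (c 0) * yy ^ 0 := by
    rintro _ rfl
    exact Finset.sum_range_succ' _ _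
  have h3 : (yy : CoordRing ℓ g) ^ ℓ = yy ^ (m + 1) := by rw [hm]
  have h4 : (∑ j ∈ range m, of g (c (j + 1)) * yy ^ (j + 1) : CoordRing ℓ g) =
      yy * ∑ j ∈ range m, of g (c (j + 1)) * yy ^ j := by
    rw [Finset.mul_sum]
    exact Finset.sum_congr rfl fun j _ => by rw [pow_succ]; ring
  have h5 : (of g (c 0) * yy ^ 0 : CoordRing ℓ g) = yy * (of g q * yy ^ m) := by
    rw [hq, map_mul, pow_zero, mul_one, ← yy_pow, h3, pow_succ]
    ring
  calc z = ∑ j ∈ range ℓ, of g (c j) * yy ^ j := h1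
    _ = _ := h2 ℓ hm
    _ = _ := by rw [h4, h5]; ring

lemma red_surjective [Nontrivial A] : Function.Surjective (red (ℓ := ℓ) g) := by
  intro x
  obtain ⟨p, rfl⟩ := AdjoinRoot.mk_surjective x
  exact ⟨of g p, red_of g p⟩

/-- The map `A[x]/(g) → A'[x]/(g')` -/
def lamMap {A' : Type*} [CommRing A'] (φ : A →+* A') {g : A[X]} {g' : A'[X]}
    (h : g.map φ = g') : AdjoinRoot g →+* AdjoinRoot g' :=
  AdjoinRoot.map φ _ _ (by rw [h])

lemma lamMap_mk {A' : Type*} [CommRing A'] (φ : A →+* A') {g : A[X]} {g' : A'[X]}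
    (h : g.map φ = g') (p : A[X]) : lamMap φ h (AdjoinRoot.mk g p) = AdjoinRoot.mk g' (p.map φ) := by
  have : (lamMap φ h).comp (AdjoinRoot.mk g) = (AdjoinRoot.mk g').comp (mapRingHom φ) := by
    apply Polynomial.ringHom_ext
    · intro a
      rw [RingHom.comp_apply, RingHom.comp_apply, AdjoinRoot.mk_C, coe_mapRingHom, map_C,
        AdjoinRoot.mk_C]
      unfold lamMap AdjoinRoot.map
      rw [AdjoinRoot.lift_of]
      rfl
    · rw [RingHom.comp_apply, RingHom.comp_apply, AdjoinRoot.mk_X, coe_mapRingHom, map_X,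
        AdjoinRoot.mk_X]
      unfold lamMap AdjoinRoot.map
      rw [AdjoinRoot.lift_root]
  exact RingHom.congr_fun this p

lemma red_coordMap {A' : Type*} [CommRing A'] (φ : A →+* A') {g : A[X]} {g' : A'[X]}
    (h : g.map φ = g') (z : CoordRing ℓ g) : red g' (coordMap ℓ φ h z) = lamMap φ h (red g z) := by
  have : (red g').comp (coordMap ℓ φ h) = (lamMap φ h).comp (red g) := by
    apply ringHom_ext
    · intro p
      rw [RingHom.comp_apply, RingHom.comp_apply, coordMap_of, red_of, red_of, lamMap_mk]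
    · rw [RingHom.comp_apply, RingHom.comp_apply, coordMap_yy, red_yy, red_yy, map_zero]
  exact RingHom.congr_fun this z

end Red

section

variable {F : Type u} [Field F] {ℓ : ℕ} [hp : Fact ℓ.Prime] {f : F[X]} [hf : Good ℓ f]

/-- reduction modulo `y` of the elements of the function field that lie in the ring. -/
def redM (x : FF ℓ f) : AdjoinRoot f :=
  if h : ∃ r : CoordRing ℓ f, algebraMap _ (FF ℓ f) r = x then red f h.choose else 0

lemma redM_alg (r : CoordRing ℓ f) : redM (algebraMap _ (FF ℓ f) r) = red f r := by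
  unfold redM
  have h : ∃ r' : CoordRing ℓ f, algebraMap _ (FF ℓ f) r' = algebraMap _ (FF ℓ f) r := ⟨r, rfl⟩
  rw [dif_pos h, IsFractionRing.injective (CoordRing ℓ f) (FF ℓ f) h.choose_spec]

lemma mem_one' {x : FF ℓ f} : x ∈ (1 : Submodule (CoordRing ℓ f) (FF ℓ f)) ↔
    ∃ r : CoordRing ℓ f, algebraMap _ (FF ℓ f) r = x := Submodule.mem_one

lemma alg_mem_one (r : CoordRing ℓ f) :
    algebraMap _ (FF ℓ f) r ∈ (1 : Submodule (CoordRing ℓ f) (FF ℓ f)) := mem_one'.mpr ⟨r, rfl⟩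

lemma one_mem_one : (1 : FF ℓ f) ∈ (1 : Submodule (CoordRing ℓ f) (FF ℓ f)) :=
  mem_one'.mpr ⟨1, map_one _⟩

lemma mul_mem_one {x y : FF ℓ f} (hx : x ∈ (1 : Submodule (CoordRing ℓ f) (FF ℓ f)))
    (hy : y ∈ (1 : Submodule (CoordRing ℓ f) (FF ℓ f))) :
    x * y ∈ (1 : Submodule (CoordRing ℓ f) (FF ℓ f)) := by
  obtain ⟨r, rfl⟩ := mem_one'.mp hx
  obtain ⟨s, rfl⟩ := mem_one'.mp hy
  rw [← map_mul]
  exact alg_mem_one _

lemma mul_mem_of_mem_one {T : Submodule (CoordRing ℓ f) (FF ℓ f)} {x y : FF ℓ f}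
    (hx : x ∈ (1 : Submodule (CoordRing ℓ f) (FF ℓ f))) (hy : y ∈ T) : x * y ∈ T := by
  obtain ⟨r, rfl⟩ := mem_one'.mp hx
  rw [← Algebra.smul_def]
  exact T.smul_mem r hy

lemma redM_mul {x y : FF ℓ f} (hx : x ∈ (1 : Submodule (CoordRing ℓ f) (FF ℓ f)))
    (hy : y ∈ (1 : Submodule (CoordRing ℓ f) (FF ℓ f))) : redM (x * y) = redM x * redM y := by
  obtain ⟨r, rfl⟩ := mem_one'.mp hx
  obtain ⟨s, rfl⟩ := mem_one'.mp hy
  rw [← map_mul, redM_alg, redM_alg, redM_alg, map_mul]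

lemma redM_add {x y : FF ℓ f} (hx : x ∈ (1 : Submodule (CoordRing ℓ f) (FF ℓ f)))
    (hy : y ∈ (1 : Submodule (CoordRing ℓ f) (FF ℓ f))) : redM (x + y) = redM x + redM y := by
  obtain ⟨r, rfl⟩ := mem_one'.mp hx
  obtain ⟨s, rfl⟩ := mem_one'.mp hy
  rw [← map_add, redM_alg, redM_alg, redM_alg, map_add]

lemma redM_sub {x y : FF ℓ f} (hx : x ∈ (1 : Submodule (CoordRing ℓ f) (FF ℓ f)))
    (hy : y ∈ (1 : Submodule (CoordRing ℓ f) (FF ℓ f))) : redM (x - y) = redM x - redM y := by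
  obtain ⟨r, rfl⟩ := mem_one'.mp hx
  obtain ⟨s, rfl⟩ := mem_one'.mp hy
  rw [← map_sub, redM_alg, redM_alg, redM_alg, map_sub]

lemma redM_one : redM (1 : FF ℓ f) = 1 := by
  rw [← map_one (algebraMap (CoordRing ℓ f) (FF ℓ f)), redM_alg, map_one]

lemma redM_zero : redM (0 : FF ℓ f) = 0 := by
  rw [← map_zero (algebraMap (CoordRing ℓ f) (FF ℓ f)), redM_alg, map_zero]

lemma redM_pol (p : F[X]) : redM (pol p : FF ℓ f) = AdjoinRoot.mk f p := by
  unfold pol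
  rw [redM_alg, red_of]

lemma pol_mem_one (p : F[X]) : (pol p : FF ℓ f) ∈ (1 : Submodule (CoordRing ℓ f) (FF ℓ f)) :=
  alg_mem_one _

variable {ζ : F} (hζ : IsPrimitiveRoot ζ ℓ)

lemma tauM_mem_one {x : FF ℓ f} (hx : x ∈ (1 : Submodule (CoordRing ℓ f) (FF ℓ f))) :
    tauM hζ x ∈ (1 : Submodule (CoordRing ℓ f) (FF ℓ f)) := by
  obtain ⟨r, rfl⟩ := mem_one'.mp hx
  rw [tauM_alg]
  exact alg_mem_one _

lemma redM_tau {x : FF ℓ f} (hx : x ∈ (1 : Submodule (CoordRing ℓ f) (FF ℓ f))) :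
    redM (tauM hζ x) = redM x := by
  obtain ⟨r, rfl⟩ := mem_one'.mp hx
  rw [tauM_alg, redM_alg, redM_alg, red_tau]

lemma exists_of_redM_zero {x : FF ℓ f} (hx : x ∈ (1 : Submodule (CoordRing ℓ f) (FF ℓ f)))
    (h : redM x = 0) : ∃ w ∈ (1 : Submodule (CoordRing ℓ f) (FF ℓ f)), x = yM ℓ f * w := by
  obtain ⟨r, rfl⟩ := mem_one'.mp hx
  rw [redM_alg] at h
  obtain ⟨w, rfl⟩ := red_eq_zero f h
  exact ⟨_, alg_mem_one w, by rw [map_mul]; rfl⟩

lemma redM_surjective (c : AdjoinRoot f) :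
    ∃ x ∈ (1 : Submodule (CoordRing ℓ f) (FF ℓ f)), redM x = c := by
  obtain ⟨r, hr⟩ := red_surjective (ℓ := ℓ) f c
  exact ⟨_, alg_mem_one r, by rw [redM_alg, hr]⟩

variable (ℓ f) in
/-- Invertible fractional ideals. -/
abbrev Dv : Type u := (Submodule (CoordRing ℓ f) (FF ℓ f))ˣ

lemma Dv.mul_inv_mem (T : Dv ℓ f) {g u : FF ℓ f} (hg : g ∈ T.1) (hu : u ∈ (T⁻¹).1) :
    g * u ∈ (1 : Submodule (CoordRing ℓ f) (FF ℓ f)) := by
  rw [← T.mul_inv]
  exact Submodule.mul_mem_mul hg hu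

/-- Induction on the elements of `T * T⁻¹ = 1`. -/
lemma Dv.one_induction (T : Dv ℓ f) {P : FF ℓ f → Prop}
    (h1 : ∀ g ∈ T.1, ∀ u ∈ (T⁻¹).1, P (g * u))
    (h2 : ∀ x ∈ (1 : Submodule (CoordRing ℓ f) (FF ℓ f)),
      ∀ y ∈ (1 : Submodule (CoordRing ℓ f) (FF ℓ f)), P x → P y → P (x + y))
    {x : FF ℓ f} (hx : x ∈ (1 : Submodule (CoordRing ℓ f) (FF ℓ f))) : P x := by
  have hx' : x ∈ T.1 * (T⁻¹).1 := by rwa [T.mul_inv]
  have : x ∈ (1 : Submodule (CoordRing ℓ f) (FF ℓ f)) ∧ P x := by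
    refine Submodule.mul_induction_on hx' (fun g hg u hu => ?_) (fun x y hx hy => ?_)
    · exact ⟨T.mul_inv_mem hg hu, h1 g hg u hu⟩
    · exact ⟨Submodule.add_mem _ hx.1 hy.1, h2 x hx.1 y hy.1 hx.2 hy.2⟩
  exact this.2

lemma Dv.mem_of_forall (T : Dv ℓ f) {x : FF ℓ f}
    (h : ∀ u ∈ (T⁻¹).1, x * u ∈ (1 : Submodule (CoordRing ℓ f) (FF ℓ f))) : x ∈ T.1 := by
  have key : ∀ v ∈ (1 : Submodule (CoordRing ℓ f) (FF ℓ f)), x * v ∈ T.1 := by
    intro v hv
    refine T.one_induction (P := fun v => x * v ∈ T.1) ?_ ?_ hv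
    · intro g hg u hu
      have h1 : x * (g * u) = (x * u) * g := by ring
      rw [h1]
      exact mul_mem_of_mem_one (h u hu) hg
    · intro x _ y _ hx hy
      rw [mul_add]
      exact Submodule.add_mem _ hx hy
  have := key 1 one_mem_one
  rwa [mul_one] at this

/-- `τ` on submodules. -/
def tauS : Submodule (CoordRing ℓ f) (FF ℓ f) →* Submodule (CoordRing ℓ f) (FF ℓ f) :=
  push (φ := tau hζ.pow_eq_one f) (Φ := tauM hζ) (tauM_alg hζ)

lemma tau_surjective : Function.Surjective (tau hζ.pow_eq_one f : CoordRing ℓ f →+* _) := by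
  intro z
  obtain ⟨n, hn⟩ := Nat.exists_eq_succ_of_ne_zero hp.out.ne_zero
  refine ⟨(tau hζ.pow_eq_one f)^[n] z, ?_⟩
  have h := tau_iterate_ell hζ.pow_eq_one z
  have h2 : (tau hζ.pow_eq_one f)^[ℓ] z = (tau hζ.pow_eq_one f)^[n + 1] z :=
    congrArg (fun m => (tau hζ.pow_eq_one f)^[m] z) hn
  rw [← Function.iterate_succ_apply' (⇑(tau hζ.pow_eq_one f)) n z, ← h2, h]

lemma mem_tauS {T : Submodule (CoordRing ℓ f) (FF ℓ f)} {x : FF ℓ f} :
    x ∈ tauS hζ T ↔ ∃ t ∈ T, tauM hζ t = x :=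
  mem_push_of_surjective _ (tau_surjective hζ)

lemma tauM_mem_tauS {T : Submodule (CoordRing ℓ f) (FF ℓ f)} {t : FF ℓ f} (ht : t ∈ T) :
    tauM hζ t ∈ tauS hζ T := (mem_tauS hζ).mpr ⟨t, ht, rfl⟩

lemma mem_tauS_iterate {T : Submodule (CoordRing ℓ f) (FF ℓ f)} (n : ℕ) {x : FF ℓ f} :
    x ∈ (tauS hζ)^[n] T ↔ ∃ t ∈ T, (tauM hζ)^[n] t = x := by
  induction n generalizing x with
  | zero => simp
  | succ n ih =>
    rw [Function.iterate_succ_apply', mem_tauS]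
    constructor
    · rintro ⟨t, ht, rfl⟩
      obtain ⟨s, hs, rfl⟩ := ih.mp ht
      exact ⟨s, hs, Function.iterate_succ_apply' _ _ _⟩
    · rintro ⟨s, hs, rfl⟩
      exact ⟨_, ih.mpr ⟨s, hs, rfl⟩, (Function.iterate_succ_apply' _ _ _).symm⟩

lemma tauS_iterate_ell (T : Submodule (CoordRing ℓ f) (FF ℓ f)) : (tauS hζ)^[ℓ] T = T := by
  ext x
  rw [mem_tauS_iterate]
  simp only [tauM_iterate_ell]
  simp

/-- `τ` on invertible submodules. -/
def tauU : Dv ℓ f →* Dv ℓ f := Units.map (tauS hζ)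

lemma tauU_val (T : Dv ℓ f) : (tauU hζ T).1 = tauS hζ T.1 := rfl

lemma tauU_iterate_val (n : ℕ) (T : Dv ℓ f) : ((tauU hζ)^[n] T).1 = (tauS hζ)^[n] T.1 := by
  induction n with
  | zero => rfl
  | succ n ih => rw [Function.iterate_succ_apply', Function.iterate_succ_apply', tauU_val, ih]

lemma tauU_iterate_ell (T : Dv ℓ f) : (tauU hζ)^[ℓ] T = T := by
  apply Units.ext
  rw [tauU_iterate_val, tauS_iterate_ell]

lemma mem_tauU_inv {T : Dv ℓ f} {x : FF ℓ f} :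
    x ∈ ((tauU hζ T)⁻¹).1 ↔ ∃ t ∈ (T⁻¹).1, tauM hζ t = x := by
  rw [← map_inv, tauU_val, mem_tauS]

/-- The invertible submodule generated by a nonzero element. -/
def prin (z : FF ℓ f) (hz : z ≠ 0) : Dv ℓ f where
  val := span _ {z}
  inv := span _ {z⁻¹}
  val_inv := by
    rw [span_mul_span, Set.singleton_mul_singleton, mul_inv_cancel₀ hz, Submodule.one_eq_span]
  inv_val := by
    rw [span_mul_span, Set.singleton_mul_singleton, inv_mul_cancel₀ hz, Submodule.one_eq_span]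

lemma prin_mul {z w : FF ℓ f} (hz : z ≠ 0) (hw : w ≠ 0) :
    prin z hz * prin w hw = prin (z * w) (mul_ne_zero hz hw) := by
  apply Units.ext
  change span _ {z} * span _ {w} = span _ {z * w}
  rw [span_mul_span, Set.singleton_mul_singleton]

lemma prin_one : prin (1 : FF ℓ f) one_ne_zero = 1 := by
  apply Units.ext
  change span _ {1} = 1
  exact Submodule.one_eq_span.symm

lemma prin_inv {z : FF ℓ f} (hz : z ≠ 0) : (prin z hz)⁻¹ = prin z⁻¹ (inv_ne_zero hz) :=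
  Units.ext rfl

lemma mem_prin {z : FF ℓ f} (hz : z ≠ 0) {x : FF ℓ f} : x ∈ (prin z hz).1 ↔
    z⁻¹ * x ∈ (1 : Submodule (CoordRing ℓ f) (FF ℓ f)) := by
  change x ∈ span _ {z} ↔ _
  rw [mem_span_singleton, mem_one']
  constructor
  · rintro ⟨r, rfl⟩
    exact ⟨r, by rw [Algebra.smul_def]; field_simp⟩
  · rintro ⟨r, hr⟩
    exact ⟨r, by rw [Algebra.smul_def, hr]; field_simp⟩

lemma mem_prin_mul {z : FF ℓ f} (hz : z ≠ 0) (T : Dv ℓ f) {x : FF ℓ f} :
    x ∈ (prin z hz * T).1 ↔ z⁻¹ * x ∈ T.1 := by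
  change x ∈ span _ {z} * T.1 ↔ _
  rw [mem_span_singleton_mul]
  constructor
  · rintro ⟨t, ht, rfl⟩
    rwa [inv_mul_cancel_left₀ hz]
  · intro h
    exact ⟨_, h, mul_inv_cancel_left₀ hz x⟩

lemma tauU_prin {z : FF ℓ f} (hz : z ≠ 0) : tauU hζ (prin z hz) =
    prin (tauM hζ z) (tauM_ne_zero hζ hz) := by
  apply Units.ext
  exact push_span_singleton _ z

lemma prin_eq_one_iff {z : FF ℓ f} (hz : z ≠ 0) : prin z hz = 1 ↔
    ∃ a : F, a ≠ 0 ∧ z = pol (C a) := by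
  constructor
  · intro h
    have h1 : z ∈ (prin z hz).1 := mem_span_singleton_self z
    have h2 : z⁻¹ ∈ ((prin z hz)⁻¹).1 := mem_span_singleton_self z⁻¹
    rw [h] at h1
    rw [h, inv_one] at h2
    obtain ⟨r, hr⟩ := mem_one'.mp h1
    obtain ⟨s, hs⟩ := mem_one'.mp h2
    have h3 : r * s = 1 := by
      apply IsFractionRing.injective (CoordRing ℓ f) (FF ℓ f)
      rw [map_mul, hr, hs, map_one, mul_inv_cancel₀ hz]
    obtain ⟨a, ha, rfl⟩ := exists_const_of_isUnit (IsUnit.of_mul_eq_one _ h3)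
    exact ⟨a, ha, hr.symm⟩
  · rintro ⟨a, ha, h⟩
    apply Units.ext
    change span _ {z} = 1
    rw [Submodule.one_eq_span]
    apply le_antisymm
    · rw [span_le, Set.singleton_subset_iff, SetLike.mem_coe, ← Submodule.one_eq_span, h]
      exact pol_mem_one _
    · rw [span_le, Set.singleton_subset_iff, SetLike.mem_coe, mem_span_singleton]
      refine ⟨of f (C a⁻¹), ?_⟩
      rw [Algebra.smul_def, h]
      change pol (C a⁻¹) * pol (C a) = 1
      rw [← pol_mul, ← C_mul, inv_mul_cancel₀ ha, C_1, pol_one]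

end

end Pool.Agent.MP1bdb59C
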