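import Mathlib
import Pool.Agent.MP1bdb59C.Red

/-!
# The bilinear relation attached to `φ`-torsion divisors, `φ = 1 - τ`
-/

open Polynomial Finset Submodule

noncomputable section

open scoped Classical

set_option linter.unusedSectionVars false

namespace Pool.Agent.MP1bdb59C

universe u

variable {F : Type u} [Field F] {ℓ : ℕ} [hp : Fact ℓ.Prime] {f : F[X]} [hf : Good ℓ f]
  {ζ : F} (hζ : IsPrimitiveRoot ζ ℓ)

/-- `z τ(T) = T` and `c` is the ratio of `z τ(g)` and `g` at the points with `y = 0`, `g` a local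
generator of `T`. -/
structure Rel (T : Dv ℓ f) (z : FF ℓ f) (c : AdjoinRoot f) : Prop where
  ne : z ≠ 0
  eq : prin z ne * tauU hζ T = T
  rel : ∀ g ∈ T.1, ∀ u ∈ (T⁻¹).1, redM (z * tauM hζ g * u) = c * redM (g * u)

variable {hζ}

lemma mul_tau_mem {T : Dv ℓ f} {z : FF ℓ f} {hz : z ≠ 0} (h : prin z hz * tauU hζ T = T)
    {g : FF ℓ f} (hg : g ∈ T.1) : z * tauM hζ g ∈ T.1 := by
  have h1 : z * tauM hζ g ∈ (prin z hz * tauU hζ T).1 := by
    rw [mem_prin_mul, inv_mul_cancel_left₀ hz]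
    exact tauM_mem_tauS hζ hg
  rwa [h] at h1

/-- Uniqueness principle. -/
lemma Dv.eq_of_forall (T : Dv ℓ f) {c c' : AdjoinRoot f}
    (h : ∀ g ∈ T.1, ∀ u ∈ (T⁻¹).1, c * redM (g * u) = c' * redM (g * u)) : c = c' := by
  have key : ∀ x ∈ (1 : Submodule (CoordRing ℓ f) (FF ℓ f)), c * redM x = c' * redM x := by
    intro x hx
    refine T.one_induction (P := fun x => c * redM x = c' * redM x) h ?_ hx
    intro x hx y hy h1 h2
    rw [redM_add hx hy, mul_add, mul_add, h1, h2]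
  have := key 1 one_mem_one
  rwa [redM_one, mul_one, mul_one] at this

lemma exists_rel (T : Dv ℓ f) {z : FF ℓ f} (hz : z ≠ 0) (h : prin z hz * tauU hζ T = T) :
    ∃ c, Rel hζ T z c := by
  have key : ∀ x ∈ (1 : Submodule (CoordRing ℓ f) (FF ℓ f)), ∃ c, ∀ g ∈ T.1, ∀ u ∈ (T⁻¹).1,
      redM (z * tauM hζ g * u) * redM (tauM hζ x) = c * redM (g * u) := by
    intro x hx
    refine T.one_induction (P := fun x => ∃ c, ∀ g ∈ T.1, ∀ u ∈ (T⁻¹).1,
      redM (z * tauM hζ g * u) * redM (tauM hζ x) = c * redM (g * u)) ?_ ?_ hx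
    · intro g₀ hg₀ u₀ hu₀
      refine ⟨redM (z * tauM hζ g₀ * u₀), fun g hg u hu => ?_⟩
      have m1 := T.mul_inv_mem (mul_tau_mem h hg) hu
      have m2 := T.mul_inv_mem (mul_tau_mem h hg₀) hu
      have m3 := T.mul_inv_mem (mul_tau_mem h hg₀) hu₀
      have m4 := T.mul_inv_mem hg₀ hu₀
      have m5 := T.mul_inv_mem hg hu₀
      have m6 := T.mul_inv_mem hg hu
      rw [← redM_mul m1 (tauM_mem_one hζ m4)]
      have e1 : z * tauM hζ g * u * tauM hζ (g₀ * u₀) =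
          (z * tauM hζ g₀ * u) * tauM hζ (g * u₀) := by
        rw [map_mul, map_mul]; ring
      rw [e1, redM_mul m2 (tauM_mem_one hζ m5), redM_tau hζ m5, ← redM_mul m2 m5]
      have e2 : z * tauM hζ g₀ * u * (g * u₀) = (z * tauM hζ g₀ * u₀) * (g * u) := by ring
      rw [e2, redM_mul m3 m6]
    · rintro x hx y hy ⟨c, hc⟩ ⟨c', hc'⟩
      refine ⟨c + c', fun g hg u hu => ?_⟩
      rw [map_add, redM_add (tauM_mem_one hζ hx) (tauM_mem_one hζ hy), mul_add, hc g hg u hu,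
        hc' g hg u hu, add_mul]
  obtain ⟨c, hc⟩ := key 1 one_mem_one
  refine ⟨c, hz, h, fun g hg u hu => ?_⟩
  have := hc g hg u hu
  rwa [map_one, redM_one, mul_one] at this

lemma Rel.unique {T : Dv ℓ f} {z : FF ℓ f} {c c' : AdjoinRoot f} (h : Rel hζ T z c)
    (h' : Rel hζ T z c') : c = c' :=
  T.eq_of_forall fun g hg u hu => by rw [← h.rel g hg u hu, h'.rel g hg u hu]

lemma Rel.mul {T T' : Dv ℓ f} {z z' : FF ℓ f} {c c' : AdjoinRoot f} (h : Rel hζ T z c)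
    (h' : Rel hζ T' z' c') : Rel hζ (T * T') (z * z') (c * c') := by
  have heq : prin (z * z') (mul_ne_zero h.ne h'.ne) * tauU hζ (T * T') = T * T' := by
    rw [← prin_mul h.ne h'.ne, map_mul,
      mul_mul_mul_comm (prin z h.ne) (prin z' h'.ne) (tauU hζ T) (tauU hζ T'), h.eq, h'.eq]
  obtain ⟨c'', h''⟩ := exists_rel (T * T') (mul_ne_zero h.ne h'.ne) heq
  have hc : c'' = c * c' := by
    have key : ∀ g' ∈ T'.1, ∀ u' ∈ (T'⁻¹).1,
        c'' * redM (g' * u') = (c * c') * redM (g' * u') := by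
      intro g' hg' u' hu'
      refine T.eq_of_forall fun g hg u hu => ?_
      have m1 := T.mul_inv_mem (mul_tau_mem h.eq hg) hu
      have m2 := T'.mul_inv_mem (mul_tau_mem h'.eq hg') hu'
      have m3 := T.mul_inv_mem hg hu
      have m4 := T'.mul_inv_mem hg' hu'
      have h1 := h''.rel (g * g') (Submodule.mul_mem_mul hg hg') (u * u') (by
        rw [mul_inv T T']
        exact Submodule.mul_mem_mul hu hu')
      have e1 : z * z' * tauM hζ (g * g') * (u * u') =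
          (z * tauM hζ g * u) * (z' * tauM hζ g' * u') := by
        rw [map_mul]; ring
      have e2 : g * g' * (u * u') = (g * u) * (g' * u') := by ring
      rw [e1, e2, redM_mul m1 m2, redM_mul m3 m4, h.rel g hg u hu, h'.rel g' hg' u' hu'] at h1
      linear_combination -h1
    exact T'.eq_of_forall key
  rw [← hc]
  exact h''

lemma Rel.one : Rel hζ (1 : Dv ℓ f) 1 1 where
  ne := one_ne_zero
  eq := by rw [prin_one, map_one, mul_one]
  rel g hg u hu := by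
    rw [inv_one] at hu
    have hg' : g ∈ (1 : Submodule (CoordRing ℓ f) (FF ℓ f)) := hg
    have hu' : u ∈ (1 : Submodule (CoordRing ℓ f) (FF ℓ f)) := hu
    rw [one_mul, one_mul, redM_mul (tauM_mem_one hζ hg') hu', redM_tau hζ hg', redM_mul hg' hu']

lemma Rel.prin {g : FF ℓ f} (hg : g ≠ 0) : Rel hζ (prin g hg) (g / tauM hζ g) 1 := by
  have hg' := tauM_ne_zero hζ hg
  refine ⟨div_ne_zero hg hg', ?_, ?_⟩
  · rw [tauU_prin, prin_mul]
    congr 1
    exact div_mul_cancel₀ _ hg'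
  · intro x hx u hu
    rw [mem_prin] at hx
    rw [prin_inv, mem_prin, inv_inv] at hu
    have e1 : g / tauM hζ g * tauM hζ x * u = tauM hζ (g⁻¹ * x) * (g * u) := by
      rw [map_mul, map_inv₀]
      field_simp
    have e2 : x * u = (g⁻¹ * x) * (g * u) := by field_simp
    rw [e1, e2, redM_mul (tauM_mem_one hζ hx) hu, redM_tau hζ hx, redM_mul hx hu, one_mul]

lemma Rel.const {a : F} (ha : a ≠ 0) : Rel hζ (1 : Dv ℓ f) (pol (C a)) (AdjoinRoot.of f a) := by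
  refine ⟨pol_ne_zero (C_ne_zero.mpr ha), ?_, ?_⟩
  · rw [map_one, mul_one, prin_eq_one_iff]
    exact ⟨a, ha, rfl⟩
  · intro g hg u hu
    rw [inv_one] at hu
    have hg' : g ∈ (1 : Submodule (CoordRing ℓ f) (FF ℓ f)) := hg
    have hu' : u ∈ (1 : Submodule (CoordRing ℓ f) (FF ℓ f)) := hu
    rw [redM_mul (mul_mem_one (pol_mem_one _) (tauM_mem_one hζ hg')) hu',
      redM_mul (pol_mem_one _) (tauM_mem_one hζ hg'), redM_tau hζ hg', redM_mul hg' hu',
      redM_pol, AdjoinRoot.mk_C, mul_assoc]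

lemma Rel.scale {T : Dv ℓ f} {z : FF ℓ f} {c : AdjoinRoot f} (h : Rel hζ T z c) {a : F}
    (ha : a ≠ 0) : Rel hζ T (pol (C a) * z) (AdjoinRoot.of f a * c) := by
  have := (Rel.const (hζ := hζ) ha).mul h
  rwa [one_mul] at this

lemma Rel.exists_inv {T : Dv ℓ f} {z : FF ℓ f} {c : AdjoinRoot f} (h : Rel hζ T z c) :
    ∃ c', c * c' = 1 ∧ Rel hζ T⁻¹ z⁻¹ c' := by
  have heq : MP1bdb59C.prin z⁻¹ (inv_ne_zero h.ne) * tauU hζ T⁻¹ = T⁻¹ := by
    rw [map_inv, ← prin_inv h.ne, ← mul_inv (MP1bdb59C.prin z h.ne) (tauU hζ T), h.eq]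
  obtain ⟨c', h'⟩ := exists_rel T⁻¹ (inv_ne_zero h.ne) heq
  refine ⟨c', ?_, h'⟩
  have h1 := h.mul h'
  rw [mul_inv_cancel, mul_inv_cancel₀ h.ne] at h1
  exact h1.unique Rel.one

lemma Rel.isUnit {T : Dv ℓ f} {z : FF ℓ f} {c : AdjoinRoot f} (h : Rel hζ T z c) : IsUnit c := by
  obtain ⟨c', h1, -⟩ := h.exists_inv
  exact IsUnit.of_mul_eq_one _ h1

lemma Rel.pow_rel {T : Dv ℓ f} {z : FF ℓ f} {c : AdjoinRoot f} (h : Rel hζ T z c) (n : ℕ) :
    Rel hζ (T ^ n) (z ^ n) (c ^ n) := by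
  induction n with
  | zero => simpa using Rel.one
  | succ n ih => rw [pow_succ, pow_succ, pow_succ]; exact ih.mul h

lemma Rel.iter {T : Dv ℓ f} {z : FF ℓ f} {c : AdjoinRoot f} (h : Rel hζ T z c) (n : ℕ)
    {g : FF ℓ f} (hg : g ∈ T.1) : nrm (tauM hζ) n z * (tauM hζ)^[n] g ∈ T.1 ∧
      ∀ u ∈ (T⁻¹).1, redM (nrm (tauM hζ) n z * (tauM hζ)^[n] g * u) = c ^ n * redM (g * u) := by
  induction n with
  | zero =>
    have h0 : nrm (tauM hζ) 0 z = 1 := by simp [nrm]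
    simp only [h0, Function.iterate_zero_apply, one_mul, pow_zero, implies_true, and_true]
    exact hg
  | succ n ih =>
    have e1 : nrm (tauM hζ) (n + 1) z * (tauM hζ)^[n + 1] g =
        z * tauM hζ (nrm (tauM hζ) n z * (tauM hζ)^[n] g) := by
      rw [nrm_succ, Function.iterate_succ_apply', map_mul, mul_assoc]
    rw [e1]
    refine ⟨mul_tau_mem h.eq ih.1, fun u hu => ?_⟩
    rw [h.rel _ ih.1 u hu, ih.2 u hu, pow_succ]
    ring

lemma Rel.iter_eq {T : Dv ℓ f} {z : FF ℓ f} {hz : z ≠ 0} (h : MP1bdb59C.prin z hz * tauU hζ T = T)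
    (n : ℕ) (hn : nrm (tauM hζ) n z ≠ 0) :
    MP1bdb59C.prin (nrm (tauM hζ) n z) hn * (tauU hζ)^[n] T = T := by
  induction n with
  | zero =>
    have h0 : nrm (tauM hζ) 0 z = 1 := by simp [nrm]
    have : MP1bdb59C.prin (nrm (tauM hζ) 0 z) hn = 1 := by
      rw [← prin_one]
      congr 1
    rw [this, one_mul]
    rfl
  | succ n ih =>
    have hn' : nrm (tauM hζ) n z ≠ 0 := by
      intro h0
      apply hn
      rw [nrm_succ, h0, map_zero, mul_zero]
    have h1 := ih hn'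
    have h2 := congrArg (tauU hζ) h1
    rw [map_mul, tauU_prin] at h2
    have h3 : MP1bdb59C.prin (nrm (tauM hζ) (n + 1) z) hn =
        MP1bdb59C.prin z hz * MP1bdb59C.prin (tauM hζ (nrm (tauM hζ) n z)) (tauM_ne_zero hζ hn') := by
      rw [prin_mul]
      congr 1
      exact nrm_succ _ _ _
    rw [h3, Function.iterate_succ_apply', mul_assoc, h2, h]

lemma nrm_ne_zero {z : FF ℓ f} (hz : z ≠ 0) (n : ℕ) : nrm (tauM hζ) n z ≠ 0 := by
  unfold nrm
  rw [Finset.prod_ne_zero_iff]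
  intro i _
  have : ∀ n, (tauM hζ)^[n] z ≠ 0 := by
    intro n
    induction n with
    | zero => exact hz
    | succ n ih =>
      rw [Function.iterate_succ_apply']
      exact tauM_ne_zero hζ ih
  exact this i

include hf in
variable (ℓ) in
lemma of_inj : Function.Injective (AdjoinRoot.of f) := by
  apply AdjoinRoot.of.injective_of_degree_ne_zero
  rw [degree_eq_natDegree hf.monic.ne_zero]
  exact_mod_cast Good.natDegree_ne ℓ (f := f)

/-- The norm of `z` is constant and equal to `c ^ ℓ`. -/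
lemma Rel.norm {T : Dv ℓ f} {z : FF ℓ f} {c : AdjoinRoot f} (h : Rel hζ T z c) :
    ∃ κ : F, κ ≠ 0 ∧ nrm (tauM hζ) ℓ z = pol (C κ) ∧ AdjoinRoot.of f κ = c ^ ℓ := by
  have hN := nrm_ne_zero (hζ := hζ) h.ne ℓ
  have h1 := Rel.iter_eq h.eq ℓ hN
  rw [tauU_iterate_ell] at h1
  have h2 : MP1bdb59C.prin (nrm (tauM hζ) ℓ z) hN = 1 := mul_eq_right.mp h1
  obtain ⟨κ, hκ, hκ'⟩ := (prin_eq_one_iff hN).mp h2
  refine ⟨κ, hκ, hκ', ?_⟩
  have key : ∀ g ∈ T.1, ∀ u ∈ (T⁻¹).1, AdjoinRoot.of f κ * redM (g * u) = c ^ ℓ * redM (g * u) := by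
    intro g hg u hu
    have h3 := (h.iter ℓ hg).2 u hu
    rw [tauM_iterate_ell, hκ', mul_assoc, redM_mul (pol_mem_one _) (T.mul_inv_mem hg hu), redM_pol,
      AdjoinRoot.mk_C] at h3
    exact h3
  exact T.eq_of_forall key

section Fixed

lemma exists_poly_mem (hζ : IsPrimitiveRoot ζ ℓ) (T : Dv ℓ f) :
    ∃ d : F[X], d ≠ 0 ∧ (pol d : FF ℓ f) ∈ T.1 := by
  have h1 : ∃ u ∈ T.1, u ≠ 0 := by
    by_contra hcon
    push Not at hcon
    have h0 : T.1 = ⊥ := by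
      rw [eq_bot_iff]
      intro u hu
      exact hcon u hu
    have h2 : (1 : FF ℓ f) ∈ T.1 * (T⁻¹).1 := by
      rw [T.mul_inv]; exact one_mem_one
    rw [h0, Submodule.bot_mul] at h2
    exact one_ne_zero ((Submodule.mem_bot _).mp h2)
  obtain ⟨u, hu, hu0⟩ := h1
  obtain ⟨r, p, hp0, hr⟩ := exists_den hζ u
  have hr0 : r ≠ 0 := by
    rintro rfl
    rw [map_zero] at hr
    exact (mul_ne_zero hu0 (pol_ne_zero hp0)) hr
  obtain ⟨s, p', hp', hs⟩ := exists_norm hζ hr0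
  refine ⟨p', hp', ?_⟩
  have h3 : (pol p' : FF ℓ f) = (algebraMap _ (FF ℓ f) s * pol p) * u := by
    unfold pol at hr ⊢
    rw [← hs, map_mul, ← hr]
    ring
  rw [h3]
  exact mul_mem_of_mem_one (mul_mem_one (alg_mem_one _) (pol_mem_one _)) hu

lemma tau_fixed_mem_one {x : FF ℓ f} (hx : x ∈ (1 : Submodule (CoordRing ℓ f) (FF ℓ f)))
    (h : tauM hζ x = x) : ∃ p : F[X], x = pol p := by
  obtain ⟨r, rfl⟩ := mem_one'.mp hx
  have h1 : tau hζ.pow_eq_one f r = r := by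
    apply IsFractionRing.injective (CoordRing ℓ f) (FF ℓ f)
    rw [← tauM_alg hζ, h]
  refine ⟨coef r 0, ?_⟩
  conv_lhs => rw [tau_fixed hζ h1]
  rfl

/-- Eigencomponents. -/
lemma exists_eigen (T : Submodule (CoordRing ℓ f) (FF ℓ f))
    (hT : ∀ g ∈ T, tauM hζ g ∈ T) {g : FF ℓ f} (hg : g ∈ T) :
    ∃ e : ℕ → FF ℓ f, (∀ j, e j ∈ T) ∧ (∀ j, tauM hζ (e j) = pol (C (ζ ^ j)) * e j) ∧
      g = ∑ j ∈ range ℓ, e j := by
  have hℓ : (ℓ : F) ≠ 0 := ell_ne_zero hζ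
  have hit : ∀ n, (tauM hζ)^[n] g ∈ T := by
    intro n
    induction n with
    | zero => exact hg
    | succ n ih => rw [Function.iterate_succ_apply']; exact hT _ ih
  have hζ0 : ζ ≠ 0 := hζ.ne_zero hp.out.ne_zero
  refine ⟨fun j => pol (C (ℓ : F)⁻¹) * ∑ i ∈ range ℓ, pol (C ((ζ⁻¹) ^ (i * j))) * (tauM hζ)^[i] g,
    fun j => ?_, fun j => ?_, ?_⟩
  · apply mul_mem_of_mem_one (pol_mem_one _)
    exact Submodule.sum_mem _ fun i _ => mul_mem_of_mem_one (pol_mem_one _) (hit i)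
  · rw [map_mul, tauM_pol, map_sum, mul_left_comm]
    refine congrArg (fun t => pol (C (ℓ : F)⁻¹) * t) ?_
    have h1 : ∀ i ∈ range ℓ, tauM hζ (pol (C ((ζ⁻¹) ^ (i * j))) * (tauM hζ)^[i] g) =
        pol (C (ζ ^ j)) * (pol (C ((ζ⁻¹) ^ ((i + 1) * j))) * (tauM hζ)^[i + 1] g) := by
      intro i _
      have e1 : (ζ⁻¹) ^ (i * j) = ζ ^ j * (ζ⁻¹) ^ ((i + 1) * j) := by
        rw [add_mul, one_mul, pow_add, inv_pow ζ j]
        field_simp
      rw [map_mul, tauM_pol, Function.iterate_succ_apply', ← mul_assoc, ← pol_mul, ← C_mul, ← e1]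
    rw [Finset.sum_congr rfl h1, ← Finset.mul_sum]
    refine congrArg (fun t => pol (C (ζ ^ j)) * t) ?_
    have h2 := Finset.sum_range_succ (fun i => pol (C ((ζ⁻¹) ^ (i * j))) * (tauM hζ)^[i] g) ℓ
    rw [Finset.sum_range_succ'] at h2
    have h3 : pol (C ((ζ⁻¹) ^ (0 * j))) * (tauM hζ)^[0] g = g := by
      simp [pol]
    have h4 : pol (C ((ζ⁻¹) ^ (ℓ * j))) * (tauM hζ)^[ℓ] g = g := by
      rw [tauM_iterate_ell, pow_mul, inv_pow, hζ.pow_eq_one, inv_one, one_pow, C_1, pol_one, one_mul]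
    rw [h3, h4] at h2
    exact add_right_cancel h2
  · rw [← Finset.mul_sum, Finset.sum_comm]
    have h5 : ∀ i ∈ range ℓ, ∑ j ∈ range ℓ, pol (C ((ζ⁻¹) ^ (i * j))) * (tauM hζ)^[i] g =
        if i = 0 then pol (C (ℓ : F)) * g else 0 := by
      intro i hi
      rw [Finset.mem_range] at hi
      rw [← Finset.sum_mul]
      have h6 : ∑ j ∈ range ℓ, (pol (C ((ζ⁻¹) ^ (i * j))) : FF ℓ f) =
          pol (C (∑ j ∈ range ℓ, ((ζ⁻¹) ^ i) ^ j)) := by
        unfold pol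
        simp only [pow_mul]
        rw [map_sum, map_sum, map_sum]
      rw [h6]
      split_ifs with h0
      · subst h0
        simp
      · have h7 : IsPrimitiveRoot ((ζ⁻¹) ^ i) ℓ := by
          apply hζ.inv.pow_of_coprime
          exact (Nat.coprime_comm.mp ((Nat.Prime.coprime_iff_not_dvd hp.out).mpr
            (fun hd => absurd (Nat.le_of_dvd (Nat.pos_of_ne_zero h0) hd) (not_le.mpr hi))))
        rw [h7.geom_sum_eq_zero hp.out.one_lt]
        unfold pol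
        rw [C_0, map_zero, map_zero, zero_mul]
    rw [Finset.sum_congr rfl h5, Finset.sum_ite_eq', if_pos (Finset.mem_range.mpr hp.out.pos),
      ← mul_assoc, ← pol_mul, ← C_mul, inv_mul_cancel₀ hℓ, C_1, pol_one, one_mul]

/-- A `τ`-invariant divisor with trivial ratio comes from a polynomial. -/
theorem principal_of_fixed (T : Dv ℓ f) (hT : tauU hζ T = T)
    (hred : ∀ g ∈ T.1, ∀ u ∈ (T⁻¹).1, redM (tauM hζ g * u) = redM (g * u)) :
    ∃ (a : FF ℓ f) (ha : a ≠ 0), tauM hζ a = a ∧ T = prin a ha := by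
  have hTmem : ∀ g ∈ T.1, tauM hζ g ∈ T.1 := by
    intro g hg
    have h1 : tauM hζ g ∈ (tauU hζ T).1 := tauM_mem_tauS hζ hg
    rwa [hT] at h1
  have hy0 := yM_ne_zero (ℓ := ℓ) (f := f)
  -- `τ g - g ∈ y T`
  have hdiff : ∀ g ∈ T.1, ∃ t ∈ T.1, tauM hζ g - g = yM ℓ f * t := by
    intro g hg
    refine ⟨(yM ℓ f)⁻¹ * (tauM hζ g - g), T.mem_of_forall fun u hu => ?_, ?_⟩
    · have m1 := T.mul_inv_mem (hTmem g hg) hu
      have m2 := T.mul_inv_mem hg hu
      have h1 : (tauM hζ g - g) * u ∈ (1 : Submodule (CoordRing ℓ f) (FF ℓ f)) := by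
        rw [sub_mul]; exact Submodule.sub_mem _ m1 m2
      obtain ⟨w, hw, hw'⟩ := exists_of_redM_zero h1 (by
        rw [sub_mul, redM_sub m1 m2, hred g hg u hu, sub_self])
      rw [mul_assoc, hw', inv_mul_cancel_left₀ hy0]
      exact hw
    · rw [mul_inv_cancel_left₀ hy0]
  obtain ⟨d, hd0, hd⟩ := exists_poly_mem hζ T⁻¹
  -- the ideal of polynomials
  let J : Ideal F[X] :=
    { carrier := {p | (pol p : FF ℓ f) * (pol d)⁻¹ ∈ T.1}
      zero_mem' := by
        have : (pol 0 : FF ℓ f) = 0 := by unfold pol; rw [map_zero, map_zero]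
        simp only [Set.mem_ofPred_eq, this, zero_mul]
        exact Submodule.zero_mem _
      add_mem' := by
        intro a b ha hb
        have h1 : (pol (a + b) : FF ℓ f) = pol a + pol b := by unfold pol; rw [map_add, map_add]
        simp only [Set.mem_ofPred_eq] at ha hb ⊢
        rw [h1, add_mul]
        exact Submodule.add_mem _ ha hb
      smul_mem' := by
        intro c a ha
        simp only [Set.mem_ofPred_eq, smul_eq_mul] at ha ⊢
        rw [pol_mul, mul_assoc]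
        exact mul_mem_of_mem_one (pol_mem_one _) ha }
  have hJ : ∀ p, p ∈ J ↔ (pol p : FF ℓ f) * (pol d)⁻¹ ∈ T.1 := fun p => Iff.rfl
  obtain ⟨p₀, hp₀⟩ := (IsPrincipalIdealRing.principal J).principal
  set a : FF ℓ f := pol p₀ * (pol d)⁻¹ with ha
  have haT : a ∈ T.1 := by
    rw [ha, ← hJ, hp₀]
    exact Submodule.mem_span_singleton_self p₀
  have hd0' : (pol d : FF ℓ f) ≠ 0 := pol_ne_zero hd0
  have hfix : ∀ x ∈ T.1, tauM hζ x = x → ∃ q : F[X], x = pol q * a := by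
    intro x hx hxf
    have h1 : x * pol d ∈ (1 : Submodule (CoordRing ℓ f) (FF ℓ f)) := T.mul_inv_mem hx hd
    obtain ⟨p, hp⟩ := tau_fixed_mem_one (hζ := hζ) h1 (by rw [map_mul, hxf, tauM_pol])
    have hpJ : p ∈ J := by
      rw [hJ, ← hp, mul_assoc, mul_inv_cancel₀ hd0', mul_one]
      exact hx
    rw [hp₀] at hpJ
    obtain ⟨q, hq⟩ := Submodule.mem_span_singleton.mp hpJ
    refine ⟨q, ?_⟩
    rw [ha, ← mul_assoc, ← pol_mul, ← smul_eq_mul q p₀, hq, ← hp, mul_assoc,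
      mul_inv_cancel₀ hd0', mul_one]
  -- every eigenvector is a multiple of `a`
  have heig : ∀ j, j < ℓ → ∀ x ∈ T.1, tauM hζ x = pol (C (ζ ^ j)) * x →
      ∃ r ∈ (1 : Submodule (CoordRing ℓ f) (FF ℓ f)), x = r * a := by
    intro j
    induction j with
    | zero =>
      intro _ x hx hxe
      rw [pow_zero, C_1, pol_one, one_mul] at hxe
      obtain ⟨q, hq⟩ := hfix x hx hxe
      exact ⟨_, pol_mem_one q, hq⟩
    | succ j ih =>
      intro hj x hx hxe
      obtain ⟨t, ht, ht'⟩ := hdiff x hx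
      have h1 : ζ ^ (j + 1) - 1 ≠ 0 :=
        sub_ne_zero.mpr (hζ.pow_ne_one_of_pos_of_lt (Nat.succ_ne_zero j) hj)
      set t' : FF ℓ f := pol (C (ζ ^ (j + 1) - 1)⁻¹) * t with ht'd
      have ht'T : t' ∈ T.1 := mul_mem_of_mem_one (pol_mem_one _) ht
      have hx' : x = yM ℓ f * t' := by
        have h2 : (pol (C (ζ ^ (j + 1) - 1)) : FF ℓ f) * x = yM ℓ f * t := by
          rw [← ht', hxe]
          have : (pol (C (ζ ^ (j + 1) - 1)) : FF ℓ f) = pol (C (ζ ^ (j + 1))) - 1 := by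
            unfold pol
            rw [C_sub, C_1, map_sub, map_sub, map_one, map_one]
          rw [this]; ring
        have h3 : (pol (C (ζ ^ (j + 1) - 1)⁻¹) : FF ℓ f) * pol (C (ζ ^ (j + 1) - 1)) = 1 := by
          rw [← pol_mul, ← C_mul, inv_mul_cancel₀ h1, C_1, pol_one]
        calc x = pol (C (ζ ^ (j + 1) - 1)⁻¹) * (pol (C (ζ ^ (j + 1) - 1)) * x) := by
              rw [← mul_assoc, h3, one_mul]
          _ = yM ℓ f * t' := by rw [h2, ht'd]; ring
      have hte : tauM hζ t' = pol (C (ζ ^ j)) * t' := by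
        have h4 : tauM hζ (yM ℓ f * t') = pol (C (ζ ^ (j + 1))) * (yM ℓ f * t') := by
          rw [← hx', hxe]
        rw [map_mul, tauM_yM, pow_succ, C_mul, pol_mul] at h4
        have h5 : (pol (C ζ) : FF ℓ f) * yM ℓ f ≠ 0 :=
          mul_ne_zero (pol_ne_zero (C_ne_zero.mpr (hζ.ne_zero hp.out.ne_zero))) hy0
        apply mul_left_cancel₀ h5
        rw [h4]; ring
      obtain ⟨r, hr, hr'⟩ := ih (by omega) t' ht'T hte
      refine ⟨yM ℓ f * r, mul_mem_one (alg_mem_one _) hr, ?_⟩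
      rw [hx', hr']; ring
  have hall : ∀ x ∈ T.1, ∃ r ∈ (1 : Submodule (CoordRing ℓ f) (FF ℓ f)), x = r * a := by
    intro x hx
    obtain ⟨e, he1, he2, he3⟩ := exists_eigen (hζ := hζ) T.1 hTmem hx
    have h1 : ∀ j ∈ range ℓ, ∃ r ∈ (1 : Submodule (CoordRing ℓ f) (FF ℓ f)), e j = r * a :=
      fun j hj => heig j (Finset.mem_range.mp hj) (e j) (he1 j) (he2 j)
    choose! r hr hr' using h1
    refine ⟨∑ j ∈ range ℓ, r j, Submodule.sum_mem _ hr, ?_⟩
    rw [he3, Finset.sum_mul]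
    exact Finset.sum_congr rfl hr'
  have ha0 : a ≠ 0 := by
    intro h0
    obtain ⟨d', hd', hd'T⟩ := exists_poly_mem hζ T
    obtain ⟨r, -, hr⟩ := hall _ hd'T
    rw [h0, mul_zero] at hr
    exact pol_ne_zero hd' hr
  refine ⟨a, ha0, ?_, ?_⟩
  · rw [ha, map_mul, map_inv₀, tauM_pol, tauM_pol]
  · apply Units.ext
    apply le_antisymm
    · intro x hx
      obtain ⟨r, hr, rfl⟩ := hall x hx
      rw [mem_prin, mul_comm r a, inv_mul_cancel_left₀ ha0]
      exact hr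
    · intro x hx
      rw [mem_prin] at hx
      have h1 : x = (a⁻¹ * x) * a := by field_simp
      rw [h1]
      exact mul_mem_of_mem_one hx haT

/-- A divisor with constant ratio is principal. -/
theorem principal_of_const {T : Dv ℓ f} {z : FF ℓ f} {κ : F}
    (h : Rel hζ T z (AdjoinRoot.of f κ)) : ∃ (a : FF ℓ f) (ha : a ≠ 0), T = prin a ha := by
  obtain ⟨κ', hκ', hN, hκκ⟩ := h.norm
  rw [← map_pow] at hκκ
  have h1 : κ' = κ ^ ℓ := of_inj ℓ hκκ
  have hκ0 : κ ≠ 0 := by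
    rintro rfl
    rw [zero_pow hp.out.ne_zero] at h1
    exact hκ' h1
  have h2 := h.scale (inv_ne_zero hκ0)
  rw [← map_mul, inv_mul_cancel₀ hκ0, map_one] at h2
  have h3 : nrm (tauM hζ) ℓ (pol (C κ⁻¹) * z) = 1 := by
    rw [nrm_mul, hN, nrm_of_fixed _ (tauM_pol hζ _), ← pol_pow, ← pol_mul, ← C_pow, ← C_mul, h1,
      inv_pow, inv_mul_cancel₀ (pow_ne_zero _ hκ0), C_1, pol_one]
  obtain ⟨b, hb0, hb⟩ := hilbert90 hζ h3
  have h4 := h2.mul (Rel.prin (hζ := hζ) (inv_ne_zero hb0))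
  have h5 : pol (C κ⁻¹) * z * (b⁻¹ / tauM hζ b⁻¹) = 1 := by
    rw [map_inv₀ (tauM hζ : FF ℓ f →+* FF ℓ f) b, div_inv_eq_mul]
    calc pol (C κ⁻¹) * z * (b⁻¹ * tauM hζ b) = b⁻¹ * (pol (C κ⁻¹) * z * tauM hζ b) := by ring
      _ = 1 := by rw [hb, inv_mul_cancel₀ hb0]
  rw [h5, mul_one] at h4
  have heq := h4.eq
  have h6 : MP1bdb59C.prin (1 : FF ℓ f) h4.ne = 1 := prin_one
  rw [h6, one_mul] at heq
  obtain ⟨a, ha, -, haT⟩ := principal_of_fixed _ heq (fun g hg u hu => by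
    have := h4.rel g hg u hu
    rwa [one_mul, one_mul] at this)
  refine ⟨a * b, mul_ne_zero ha hb0, ?_⟩
  rw [← prin_mul ha hb0, ← haT, mul_assoc, prin_mul]
  have : MP1bdb59C.prin (b⁻¹ * b) (mul_ne_zero (inv_ne_zero hb0) hb0) = 1 := by
    rw [← prin_one]
    congr 1
    exact inv_mul_cancel₀ hb0
  rw [this, mul_one]

lemma nrm_mem (T : Dv ℓ f) {g : FF ℓ f} (hg : g ∈ T.1) (n : ℕ) :
    nrm (tauM hζ) n g ∈ (nrm (tauU hζ) n T).1 := by
  induction n with
  | zero => simp only [nrm, Finset.range_zero, Finset.prod_empty]; exact one_mem_one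
  | succ n ih =>
    rw [nrm_succ', nrm_succ']
    refine Submodule.mul_mem_mul ih ?_
    rw [tauU_iterate_val, mem_tauS_iterate]
    exact ⟨g, hg, rfl⟩

lemma nrm_inv' (T : Dv ℓ f) (n : ℕ) : nrm (tauU hζ) n T⁻¹ = (nrm (tauU hζ) n T)⁻¹ := by
  rw [eq_inv_iff_mul_eq_one, ← nrm_mul, inv_mul_cancel, nrm_one]

lemma redM_nrm {x : FF ℓ f} (hx : x ∈ (1 : Submodule (CoordRing ℓ f) (FF ℓ f))) (n : ℕ) :
    nrm (tauM hζ) n x ∈ (1 : Submodule (CoordRing ℓ f) (FF ℓ f)) ∧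
      redM (nrm (tauM hζ) n x) = redM x ^ n := by
  induction n with
  | zero =>
    have h0 : nrm (tauM hζ) 0 x = 1 := by simp [nrm]
    rw [h0, pow_zero]
    exact ⟨one_mem_one, redM_one⟩
  | succ n ih =>
    rw [nrm_succ]
    refine ⟨mul_mem_one hx (tauM_mem_one hζ ih.1), ?_⟩
    rw [redM_mul hx (tauM_mem_one hζ ih.1), redM_tau hζ ih.1, ih.2, pow_succ]
    ring

/-- The norm of a divisor is principal. -/
theorem norm_principal (T : Dv ℓ f) :
    ∃ (a : FF ℓ f) (ha : a ≠ 0), tauM hζ a = a ∧ nrm (tauU hζ) ℓ T = prin a ha := by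
  have hfix : tauU hζ (nrm (tauU hζ) ℓ T) = nrm (tauU hζ) ℓ T := nrm_tau _ (tauU_iterate_ell hζ T)
  obtain ⟨c, hc⟩ := exists_rel (hζ := hζ) (nrm (tauU hζ) ℓ T) one_ne_zero
    (by rw [prin_one, one_mul, hfix])
  have key : ∀ g ∈ T.1, ∀ u ∈ (T⁻¹).1, (c - 1) * redM (g * u) ^ ℓ = 0 := by
    intro g hg u hu
    have m := T.mul_inv_mem hg hu
    have h1 := hc.rel _ (nrm_mem (hζ := hζ) T hg ℓ) _ (by
      rw [← nrm_inv']
      exact nrm_mem (hζ := hζ) T⁻¹ hu ℓ)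
    rw [one_mul, nrm_tau _ (tauM_iterate_ell hζ g), ← nrm_mul, (redM_nrm (hζ := hζ) m ℓ).2] at h1
    rw [sub_mul, one_mul, ← h1, sub_self]
  have hspan : Ideal.span {x : AdjoinRoot f | ∃ g ∈ T.1, ∃ u ∈ (T⁻¹).1, redM (g * u) = x} = ⊤ := by
    rw [Ideal.eq_top_iff_one, ← redM_one (ℓ := ℓ)]
    refine T.one_induction (P := fun x => redM x ∈ Ideal.span
      {x : AdjoinRoot f | ∃ g ∈ T.1, ∃ u ∈ (T⁻¹).1, redM (g * u) = x}) ?_ ?_ one_mem_one
    · intro g hg u hu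
      exact Ideal.subset_span ⟨g, hg, u, hu, rfl⟩
    · intro x hx y hy h1 h2
      rw [redM_add hx hy]
      exact Ideal.add_mem _ h1 h2
  have hspan2 := Ideal.span_pow_eq_top _ hspan ℓ
  have hc1 : c = 1 := by
    have h1 : (1 : AdjoinRoot f) ∈ Ideal.span ((fun x => x ^ ℓ) ''
        {x : AdjoinRoot f | ∃ g ∈ T.1, ∃ u ∈ (T⁻¹).1, redM (g * u) = x}) := by
      rw [hspan2]; trivial
    have h2 : ∀ x ∈ Ideal.span ((fun x => x ^ ℓ) ''
        {x : AdjoinRoot f | ∃ g ∈ T.1, ∃ u ∈ (T⁻¹).1, redM (g * u) = x}), (c - 1) * x = 0 := by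
      intro x hx
      induction hx using Submodule.span_induction with
      | mem x hx =>
        obtain ⟨_, ⟨g, hg, u, hu, rfl⟩, rfl⟩ := hx
        exact key g hg u hu
      | zero => rw [mul_zero]
      | add x y _ _ hx hy => rw [mul_add, hx, hy, add_zero]
      | smul a x _ hx => rw [smul_eq_mul, mul_left_comm, hx, mul_zero]
    have := h2 1 h1
    rwa [mul_one, sub_eq_zero] at this
  subst hc1
  exact principal_of_fixed _ hfix (fun g hg u hu => by
    have := hc.rel g hg u hu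
    rwa [one_mul, one_mul] at this)

end Fixed

end Pool.Agent.MP1bdb59C
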