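import Mathlib
import Pool.Agent.MP1bdb59C.Pair

/-!
# `F[x,y]/(y^ℓ - f)` is a Dedekind domain; divisibility of divisor classes by `φ = 1 - τ`
-/

open Polynomial Finset Submodule

noncomputable section

open scoped Classical nonZeroDivisors

set_option linter.unusedSectionVars false

namespace Pool.Agent.MP1bdb59C

universe u

variable {F : Type u} [Field F] {ℓ : ℕ} [hp : Fact ℓ.Prime] {f : F[X]} [hf : Good ℓ f]
  {ζ : F} (hζ : IsPrimitiveRoot ζ ℓ)

lemma pol_eq_algebraMap (p : F[X]) : (pol p : FF ℓ f) = algebraMap F[X] (FF ℓ f) p := by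
  rw [IsScalarTower.algebraMap_apply F[X] (CoordRing ℓ f) (FF ℓ f)]
  rfl

/-- A rational function of `x` integral over `F[x]` is a polynomial. -/
lemma exists_pol_of_integral {z : FF ℓ f} {p q : F[X]} (hq : q ≠ 0) (h : z * pol q = pol p)
    (hz : IsIntegral F[X] z) : ∃ r : F[X], z = pol r := by
  have hinj : Function.Injective (algebraMap F[X] (FF ℓ f)) := by
    intro a b hab
    rw [← pol_eq_algebraMap, ← pol_eq_algebraMap] at hab
    exact pol_injective hab
  let φ : FractionRing F[X] →ₐ[F[X]] FF ℓ f :=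
    IsFractionRing.liftAlgHom (g := Algebra.ofId F[X] (FF ℓ f)) hinj
  set x : FractionRing F[X] := algebraMap _ _ p / algebraMap _ _ q with hx
  have hφx : φ x = z := by
    rw [hx, map_div₀, AlgHom.commutes, AlgHom.commutes, ← pol_eq_algebraMap, ← pol_eq_algebraMap,
      ← h, mul_div_assoc, div_self (pol_ne_zero hq), mul_one]
  have hx' : IsIntegral F[X] x := by
    rw [← isIntegral_algHom_iff φ φ.toRingHom.injective, hφx]
    exact hz
  obtain ⟨r, hr⟩ := (isIntegrallyClosed_iff (FractionRing F[X])).mp inferInstance hx'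
  refine ⟨r, ?_⟩
  rw [← hφx, ← hr, AlgHom.commutes, pol_eq_algebraMap]

lemma isUnit_of_pow_dvd {q : F[X]} {j : ℕ} (hj : j < ℓ) (h : q ^ ℓ ∣ f ^ j) : IsUnit q := by
  by_contra hq
  have hf0 : f ≠ 0 := hf.monic.ne_zero
  have hq0 : q ≠ 0 := by
    rintro rfl
    rw [zero_pow hp.out.ne_zero, zero_dvd_iff] at h
    exact pow_ne_zero _ hf0 h
  obtain ⟨π, hπ, hπq⟩ := WfDvdMonoid.exists_irreducible_factor hq hq0
  have h1 : π ^ ℓ ∣ f ^ j := (pow_dvd_pow_of_dvd hπq ℓ).trans h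
  have h2 : emultiplicity π f ≤ 1 :=
    ((squarefree_iff_emultiplicity_le_one f).mp hf.sep.squarefree π).resolve_right hπ.not_isUnit
  have h3 : emultiplicity π (f ^ j) = j * emultiplicity π f := emultiplicity_pow hπ.prime
  have h4 : (ℓ : ℕ∞) ≤ emultiplicity π (f ^ j) := le_emultiplicity_of_pow_dvd h1
  rw [h3] at h4
  have h5 : (j : ℕ∞) * emultiplicity π f ≤ j := by
    calc (j : ℕ∞) * emultiplicity π f ≤ j * 1 := by gcongr
      _ = j := mul_one _
  have h6 : (ℓ : ℕ∞) ≤ j := h4.trans h5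
  have h7 : ℓ ≤ j := by exact_mod_cast h6
  omega

include hζ in
lemma exists_alg_of_integral {z : FF ℓ f} (hz : IsIntegral (CoordRing ℓ f) z) :
    ∃ r, algebraMap (CoordRing ℓ f) (FF ℓ f) r = z := by
  set T : Submodule (CoordRing ℓ f) (FF ℓ f) :=
    Subalgebra.toSubmodule (integralClosure (CoordRing ℓ f) (FF ℓ f)) with hT
  have hTmem : ∀ x, x ∈ T ↔ IsIntegral (CoordRing ℓ f) x := fun x => Iff.rfl
  have htau : ∀ g ∈ T, tauM hζ g ∈ T := by
    intro g hg
    rw [hTmem] at hg ⊢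
    refine hg.map_of_comp_eq (tau hζ.pow_eq_one f) (tauM hζ) ?_
    exact RingHom.ext fun r => (tauM_alg hζ r).symm
  obtain ⟨e, he1, he2, he3⟩ := exists_eigen (hζ := hζ) T htau (g := z) hz
  have key : ∀ j ∈ range ℓ, e j ∈ (1 : Submodule (CoordRing ℓ f) (FF ℓ f)) := by
    intro j hj
    rw [Finset.mem_range] at hj
    have hy0 := yM_ne_zero (ℓ := ℓ) (f := f)
    have hint : IsIntegral F[X] (e j) := isIntegral_trans (e j) ((hTmem _).mp (he1 j))
    set b : FF ℓ f := e j / yM ℓ f ^ j with hb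
    have heb : e j = b * yM ℓ f ^ j := by rw [hb, div_mul_cancel₀ _ (pow_ne_zero _ hy0)]
    have hζj : (pol (C (ζ ^ j)) : FF ℓ f) ≠ 0 :=
      pol_ne_zero (C_ne_zero.mpr (pow_ne_zero _ (hζ.ne_zero hp.out.ne_zero)))
    have hbfix : tauM hζ b = b := by
      rw [hb, map_div₀, he2, map_pow (tauM hζ), tauM_yM, mul_pow, ← pol_pow, ← C_pow,
        mul_div_mul_left _ _ hζj]
    obtain ⟨p₀, q₀, hq₀, hpq₀⟩ := tauM_fixed hζ hbfix
    -- a reduced fraction
    obtain ⟨d, p, q, hd0, hp', hq', hcop⟩ : ∃ d p q : F[X], d ≠ 0 ∧ p₀ = d * p ∧ q₀ = d * q ∧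
        IsCoprime p q := by
      obtain ⟨p, hp'⟩ := EuclideanDomain.gcd_dvd_left p₀ q₀
      obtain ⟨q, hq'⟩ := EuclideanDomain.gcd_dvd_right p₀ q₀
      have hd0 : EuclideanDomain.gcd p₀ q₀ ≠ 0 := by
        intro h0
        rw [h0, zero_mul] at hq'
        exact hq₀ hq'
      refine ⟨EuclideanDomain.gcd p₀ q₀, p, q, hd0, hp', hq',
        EuclideanDomain.gcdA p₀ q₀, EuclideanDomain.gcdB p₀ q₀, ?_⟩
      have h1 := EuclideanDomain.gcd_eq_gcd_ab p₀ q₀
      apply mul_left_cancel₀ hd0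
      set d := EuclideanDomain.gcd p₀ q₀
      set A := EuclideanDomain.gcdA p₀ q₀
      set B := EuclideanDomain.gcdB p₀ q₀
      have h2 : p₀ * A + q₀ * B = d * p * A + d * q * B := by rw [← hp', ← hq']
      calc d * (A * p + B * q) = d * p * A + d * q * B := by ring
        _ = p₀ * A + q₀ * B := h2.symm
        _ = d * 1 := by rw [mul_one]; exact h1.symm
    have hq0 : q ≠ 0 := by
      rintro rfl
      rw [mul_zero] at hq'
      exact hq₀ hq'
    have hbpq : b * pol q = pol p := by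
      have h1 : (pol d : FF ℓ f) ≠ 0 := pol_ne_zero hd0
      apply mul_left_cancel₀ h1
      rw [mul_left_comm, ← pol_mul, ← pol_mul, ← hp', ← hq', hpq₀]
    -- the `ℓ`-th power
    have heℓ : e j ^ ℓ = b ^ ℓ * pol (f ^ j) := by
      rw [heb, mul_pow, ← pow_mul, mul_comm j ℓ, pow_mul, yM_pow, pol_pow]
    obtain ⟨P, hP⟩ := exists_pol_of_integral (z := e j ^ ℓ) (p := p ^ ℓ * f ^ j) (q := q ^ ℓ)
      (pow_ne_zero _ hq0) (by
        rw [heℓ, pol_mul, pol_pow p, pol_pow q, ← hbpq, mul_pow]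
        ring) (hint.pow ℓ)
    have h1 : q ^ ℓ ∣ f ^ j := by
      have h2 : P * q ^ ℓ = p ^ ℓ * f ^ j := by
        apply pol_injective (ℓ := ℓ) (f := f)
        rw [pol_mul, ← hP, heℓ, pol_mul, pol_pow q, pol_pow p, ← hbpq, mul_pow]
        ring
      have h3 : q ^ ℓ ∣ p ^ ℓ * f ^ j := ⟨P, by rw [← h2]; ring⟩
      exact (hcop.symm.pow).dvd_of_dvd_mul_left h3
    obtain ⟨u, hu⟩ := isUnit_of_pow_dvd hj h1
    have h4 : b = pol (p * ((u⁻¹ : F[X]ˣ) : F[X])) := by
      rw [pol_mul, ← hbpq, mul_assoc, ← pol_mul, ← hu, Units.mul_inv, pol_one, mul_one]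
    rw [heb, h4]
    refine mul_mem_one (pol_mem_one _) ?_
    unfold yM
    rw [← map_pow]
    exact alg_mem_one _
  rw [he3]
  exact mem_one'.mp (Submodule.sum_mem _ key)

include hζ in
/-- The coordinate ring is a Dedekind domain. -/
theorem isDedekindDomain : IsDedekindDomain (CoordRing ℓ f) := by
  have h1 : IsNoetherianRing (CoordRing ℓ f) := IsNoetherianRing.of_finite F[X] (CoordRing ℓ f)
  have h2 : Ring.DimensionLEOne (CoordRing ℓ f) :=
    Ring.DimensionLEOne.of_isIntegral F[X] (CoordRing ℓ f)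
  have h3 : IsDedekindRing (CoordRing ℓ f) :=
    (isDedekindRing_iff (CoordRing ℓ f) (FF ℓ f)).mpr
      ⟨h1, h2, fun hx => exists_alg_of_integral hζ hx⟩
  exact { toIsDomain := inferInstance, toIsDedekindRing := h3 }

include hζ in
/-- Nonzero finitely generated submodules are invertible. -/
lemma exists_unit_of_fg {B : Submodule (CoordRing ℓ f) (FF ℓ f)} (hB : B.FG) (hB0 : B ≠ ⊥) :
    ∃ T : Dv ℓ f, T.1 = B := by
  have := isDedekindDomain (f := f) hζ
  let I : FractionalIdeal (CoordRing ℓ f)⁰ (FF ℓ f) := ⟨B, FractionalIdeal.isFractional_of_fg hB⟩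
  have hI : I ≠ 0 := by
    intro h0
    apply hB0
    have h1 : (I : Submodule (CoordRing ℓ f) (FF ℓ f)) = ⊥ := by
      rw [h0]; exact FractionalIdeal.coe_zero
    exact h1
  refine ⟨FractionalIdeal.unitsMulEquivSubmodule (Units.mk0 I hI), rfl⟩

lemma tauS_sum (n : ℕ) (S : ℕ → Submodule (CoordRing ℓ f) (FF ℓ f)) :
    tauS hζ (∑ j ∈ range n, S j) = ∑ j ∈ range n, tauS hζ (S j) := by
  induction n with
  | zero =>
    rw [Finset.sum_range_zero, Finset.sum_range_zero]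
    change tauS hζ ⊥ = ⊥
    rw [eq_bot_iff]
    intro x hx
    obtain ⟨t, ht, rfl⟩ := (mem_tauS hζ).mp hx
    rw [(Submodule.mem_bot _).mp ht, map_zero]
    exact Submodule.zero_mem _
  | succ n ih =>
    rw [Finset.sum_range_succ, Finset.sum_range_succ, ← ih]
    exact push_sup _ _ _

/-- Divisibility of the Picard group by `1 - τ`, given that rational functions are norms. -/
theorem exists_phi_div (hnorm : ∀ a : FF ℓ f, a ≠ 0 → tauM hζ a = a →
    ∃ z : FF ℓ f, z ≠ 0 ∧ nrm (tauM hζ) ℓ z = a) (T : Dv ℓ f) :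
    ∃ (B : Dv ℓ f) (z : FF ℓ f) (hz : z ≠ 0), prin z hz * B = T * tauU hζ B := by
  obtain ⟨a, ha, haf, hN⟩ := norm_principal (hζ := hζ) T
  obtain ⟨z, hz, hza⟩ := hnorm a ha haf
  set T' : Dv ℓ f := (prin z hz)⁻¹ * T with hT'
  have hprin : ∀ n, ∀ hn : nrm (tauM hζ) n z ≠ 0,
      nrm (tauU hζ) n (prin z hz) = prin (nrm (tauM hζ) n z) hn := by
    intro n hn
    apply Units.ext
    induction n with
    | zero => simp only [nrm, Finset.range_zero, Finset.prod_empty]; exact Submodule.one_eq_span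
    | succ n ih =>
      have hn' : nrm (tauM hζ) n z ≠ 0 := nrm_ne_zero (hζ := hζ) hz n
      rw [nrm_succ]
      have h1 : nrm (tauU hζ) n (prin z hz) = prin _ hn' := Units.ext (ih hn')
      rw [h1, tauU_prin, prin_mul]
      change span _ {_} = span _ {_}
      rw [nrm_succ]
  have hN' : nrm (tauU hζ) ℓ T' = 1 := by
    have h0 : nrm (tauM hζ) ℓ z ≠ 0 := by rw [hza]; exact ha
    rw [hT', nrm_mul, nrm_inv', hN, hprin ℓ h0]
    have : prin (nrm (tauM hζ) ℓ z) h0 = prin a ha := by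
      congr 1
    rw [this, inv_mul_cancel]
  set B₀ : Submodule (CoordRing ℓ f) (FF ℓ f) := ∑ j ∈ range ℓ, (nrm (tauU hζ) j T').1 with hB₀
  have hstep : T'.1 * tauS hζ B₀ = B₀ := by
    rw [hB₀, tauS_sum, Finset.mul_sum]
    have h1 : ∀ j ∈ range ℓ, T'.1 * tauS hζ (nrm (tauU hζ) j T').1 =
        (nrm (tauU hζ) (j + 1) T').1 := by
      intro j _
      rw [nrm_succ]
      rfl
    rw [Finset.sum_congr rfl h1]
    have h2 := Finset.sum_range_succ (fun j => (nrm (tauU hζ) j T').1) ℓ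
    rw [Finset.sum_range_succ'] at h2
    have h3 : (nrm (tauU hζ) 0 T').1 = (nrm (tauU hζ) ℓ T').1 := by
      rw [hN']; simp [nrm]
    obtain ⟨m, hm⟩ := Nat.exists_eq_succ_of_ne_zero hp.out.ne_zero
    have h4 : ∀ n, n = m + 1 → ∑ j ∈ range n, (nrm (tauU hζ) (j + 1) T').1 =
        ∑ j ∈ range m, (nrm (tauU hζ) (j + 1) T').1 + (nrm (tauU hζ) n T').1 := by
      rintro _ rfl
      exact Finset.sum_range_succ _ _
    have h5 : ∀ n, n = m + 1 → ∑ j ∈ range n, (nrm (tauU hζ) j T').1 =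
        ∑ j ∈ range m, (nrm (tauU hζ) (j + 1) T').1 + (nrm (tauU hζ) 0 T').1 := by
      rintro _ rfl
      exact Finset.sum_range_succ' _ _
    rw [h4 ℓ hm, h5 ℓ hm, h3]
  have hB₀1 : (1 : Submodule (CoordRing ℓ f) (FF ℓ f)) ≤ B₀ := by
    have h1 : (nrm (tauU hζ) 0 T').1 ≤ B₀ :=
      Finset.single_le_sum (f := fun j => (nrm (tauU hζ) j T').1) (fun _ _ => bot_le)
        (Finset.mem_range.mpr hp.out.pos)
    have h2 : (nrm (tauU hζ) 0 T').1 = 1 := by simp [nrm]
    rwa [h2] at h1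
  have hfg : ∀ n, (∑ j ∈ range n, (nrm (tauU hζ) j T').1).FG := by
    intro n
    induction n with
    | zero => rw [Finset.sum_range_zero]; exact Submodule.fg_bot
    | succ n ih => rw [Finset.sum_range_succ]; exact ih.sup (Submodule.fg_unit _)
  obtain ⟨B, hB⟩ := exists_unit_of_fg hζ (hfg ℓ) (by
    intro h0
    have h1 : (1 : FF ℓ f) ∈ B₀ := hB₀1 one_mem_one
    rw [hB₀, h0] at h1
    exact one_ne_zero ((Submodule.mem_bot _).mp h1))
  refine ⟨B, z, hz, ?_⟩
  have h6 : T' * tauU hζ B = B := by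
    apply Units.ext
    change T'.1 * tauS hζ B.1 = B.1
    rw [hB]
    exact hstep
  rw [hT'] at h6
  calc prin z hz * B = prin z hz * ((prin z hz)⁻¹ * T * tauU hζ B) := by rw [h6]
    _ = T * tauU hζ B := by rw [← mul_assoc, ← mul_assoc, mul_inv_cancel, one_mul]

end Pool.Agent.MP1bdb59C
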