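import Mathlib

/-!
# Common zeros of fewer equations than unknowns
-/

open MvPolynomial

noncomputable section

namespace Pool.Agent.MP1bdb59C

variable {F : Type*} [Field F] {σ : Type*}

/-- Translation by `x`. -/
def translate (x : σ → F) : MvPolynomial σ F ≃+* MvPolynomial σ F where
  toFun := aeval (R := F) (fun i => (X i + C (x i) : MvPolynomial σ F))
  invFun := aeval (R := F) (fun i => (X i - C (x i) : MvPolynomial σ F))
  left_inv p := by
    have : (aeval (R := F) (fun i => (X i - C (x i) : MvPolynomial σ F))).comp
        (aeval (R := F) (fun i => (X i + C (x i) : MvPolynomial σ F))) = AlgHom.id F _ := by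
      ext i : 1
      simp [algebraMap_eq]
    exact DFunLike.congr_fun this p
  right_inv p := by
    have : (aeval (R := F) (fun i => (X i + C (x i) : MvPolynomial σ F))).comp
        (aeval (R := F) (fun i => (X i - C (x i) : MvPolynomial σ F))) = AlgHom.id F _ := by
      ext i : 1
      simp [algebraMap_eq]
    exact DFunLike.congr_fun this p
  map_mul' := map_mul _
  map_add' := map_add _

lemma eval_translate (x : σ → F) (p : MvPolynomial σ F) :
    aeval (R := F) (0 : σ → F) (translate x p) = aeval (R := F) x p := by
  have : (aeval (R := F) (0 : σ → F)).comp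
      (aeval (R := F) (fun i => (X i + C (x i) : MvPolynomial σ F))) = aeval (R := F) x := by
    ext i : 1
    simp
  exact DFunLike.congr_fun this p

lemma height_vanishingIdeal (x : σ → F) :
    (vanishingIdeal F ({x} : Set (σ → F))).height =
      (vanishingIdeal F ({0} : Set (σ → F))).height := by
  rw [← RingEquiv.height_comap (translate x) (vanishingIdeal F ({0} : Set (σ → F)))]
  congr 1
  ext p
  rw [Ideal.mem_comap, mem_vanishingIdeal_iff, mem_vanishingIdeal_iff]
  simp only [Set.mem_singleton_iff, forall_eq]
  exact (Eq.congr_left (eval_translate x p)).symm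

/-- Fewer than `card σ` polynomials in the variables `σ` that vanish at the origin have another
common zero. -/
theorem exists_common_zero [IsAlgClosed F] [Fintype σ] {r : ℕ} (P : Fin r → MvPolynomial σ F)
    (h0 : ∀ k, aeval (R := F) (0 : σ → F) (P k) = 0) (hr : r < Fintype.card σ) :
    ∃ x : σ → F, x ≠ 0 ∧ ∀ k, aeval (R := F) x (P k) = 0 := by
  by_contra hcon
  push Not at hcon
  set I : Ideal (MvPolynomial σ F) := Ideal.span (Set.range P) with hI
  have hz : zeroLocus F I = {0} := by
    rw [hI, zeroLocus_span]
    ext x
    simp only [Set.mem_range, forall_exists_index, forall_apply_eq_imp_iff, Set.mem_singleton_iff]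
    constructor
    · intro hx
      by_contra hx0
      obtain ⟨k, hk⟩ := hcon x hx0
      exact hk (hx k)
    · rintro rfl
      exact h0
  have hrad : I.radical = vanishingIdeal F ({0} : Set (σ → F)) := by
    rw [← hz, vanishingIdeal_zeroLocus_eq_radical]
  have hmax : ∀ x : σ → F, (vanishingIdeal F ({x} : Set (σ → F))).IsMaximal := fun x =>
    isMaximal_iff_eq_vanishingIdeal_singleton.mpr ⟨x, rfl⟩
  have hprime := (hmax 0).isPrime
  have hmin : vanishingIdeal F ({0} : Set (σ → F)) ∈ I.minimalPrimes := by
    rw [← Ideal.radical_minimalPrimes, hrad, Ideal.minimalPrimes_eq_subsingleton_self]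
    rfl
  have hfin : (Set.range P).Finite := Set.finite_range P
  have h1 := Ideal.height_le_card_of_mem_minimalPrimes_span hfin hmin
  have h2 : (Set.range P).ncard ≤ r := by
    rw [← Set.image_univ]
    refine (Set.ncard_image_le Set.finite_univ).trans ?_
    rw [Set.ncard_univ, Nat.card_eq_fintype_card, Fintype.card_fin]
  have h3 : (vanishingIdeal F ({0} : Set (σ → F))).height ≤ (r : ℕ∞) :=
    h1.trans (by exact_mod_cast h2)
  have h4 : ringKrullDim (MvPolynomial σ F) ≤ ((r : ℕ∞) : WithBot ℕ∞) := by
    rw [ringKrullDim_le_iff_isMaximal_height_le]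
    intro m hm
    obtain ⟨x, rfl⟩ := isMaximal_iff_eq_vanishingIdeal_singleton.mp hm
    rw [height_vanishingIdeal]
    exact_mod_cast h3
  rw [MvPolynomial.ringKrullDim_of_isNoetherianRing, ringKrullDim_eq_zero_of_field, zero_add,
    Nat.card_eq_fintype_card] at h4
  have h5 : Fintype.card σ ≤ r := by exact_mod_cast h4
  omega

end Pool.Agent.MP1bdb59C
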