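import Mathlib
import Pool.Agent.MP1bdb59C.Ded
import Pool.Agent.MP1bdb59C.Zeros

/-!
# Rational functions are norms over a separably closed field (Tsen)
-/

open Polynomial Finset

noncomputable section

open scoped Classical

set_option linter.unusedSectionVars false

namespace Pool.Agent.MP1bdb59C

universe u v

section Maps

variable {A : Type u} [CommRing A] {A' : Type v} [CommRing A'] {ℓ : ℕ} (φ : A →+* A')
  {g : A[X]} {g' : A'[X]} (h : g.map φ = g') {ζ : A} {ζ' : A'} (hζ : ζ ^ ℓ = 1) (hζ' : ζ' ^ ℓ = 1)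
  (hφ : φ ζ = ζ')

include hφ in
lemma coordMap_tau (z : CoordRing ℓ g) :
    coordMap ℓ φ h (tau hζ g z) = tau hζ' g' (coordMap ℓ φ h z) := by
  have : (coordMap ℓ φ h).comp (tau hζ g) = (tau hζ' g').comp (coordMap ℓ φ h) := by
    apply ringHom_ext
    · intro p
      rw [RingHom.comp_apply, RingHom.comp_apply, tau_of, coordMap_of, tau_of]
    · rw [RingHom.comp_apply, RingHom.comp_apply, tau_yy, coordMap_yy, tau_yy, map_mul,
        coordMap_of, coordMap_yy, map_C, hφ]
  exact RingHom.congr_fun this z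

end Maps

lemma map_nrm_comm {M M' : Type*} [CommMonoid M] [CommMonoid M'] {Φ Φ' Ψ : Type*}
    [FunLike Φ M M] [MonoidHomClass Φ M M] [FunLike Φ' M' M'] [MonoidHomClass Φ' M' M']
    [FunLike Ψ M M'] [MonoidHomClass Ψ M M'] (τ : Φ) (τ' : Φ') (ψ : Ψ)
    (h : ∀ z, ψ (τ z) = τ' (ψ z)) (n : ℕ) (z : M) : ψ (nrm τ n z) = nrm τ' n (ψ z) := by
  induction n with
  | zero => simp [nrm]
  | succ n ih => rw [nrm_succ, nrm_succ, map_mul, h, ih]

section Filt

variable {A : Type u} [CommRing A] [Nontrivial A] {ℓ : ℕ} [hℓ : NeZero ℓ] {g : A[X]}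
  {ζ : A} (hζ : ζ ^ ℓ = 1)

lemma nrm_mem_Fil (hg : g.Monic) {w : ℕ} {z : CoordRing ℓ g} (hz : z ∈ Fil g w) (n : ℕ) :
    nrm (tau hζ g) n z ∈ Fil g (n * w) := by
  induction n with
  | zero =>
    have h0 : nrm (tau hζ g) 0 z = 1 := by simp [nrm]
    rw [h0]
    exact one_mem_Fil _
  | succ n ih =>
    rw [nrm_succ]
    refine Fil_mono ?_ (mul_mem_Fil hg hz (tau_mem_Fil hζ ih))
    exact le_of_eq (by ring)

lemma of_mul_yy_pow_mem_Fil {p : A[X]} {D j : ℕ} (hp : p.natDegree ≤ D) (hj : j < ℓ) :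
    of g p * yy ^ j ∈ (Fil g (ℓ * D + g.natDegree * j) : AddSubgroup (CoordRing ℓ g)) := by
  intro j' i hlt
  rw [coef_of_mul_yy_pow _ hj]
  split_ifs with hjj
  · apply coeff_eq_zero_of_natDegree_lt
    subst hjj
    by_contra hcon
    rw [not_lt] at hcon
    have h1 : i ≤ D := hcon.trans hp
    have h2 : ℓ * i ≤ ℓ * D := Nat.mul_le_mul_left _ h1
    omega
  · rw [coeff_zero]

end Filt

section AlgClosed

variable {F : Type u} [Field F] {ℓ : ℕ} [hp : Fact ℓ.Prime] {f : F[X]} [hf : Good ℓ f]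
  {ζ : F} (hζ : IsPrimitiveRoot ζ ℓ)

/-- The polynomial with the coefficients `c 0, …, c D`. -/
def polyOf {A : Type*} [CommRing A] (D : ℕ) (c : Fin (D + 1) → A) : A[X] :=
  ∑ i : Fin (D + 1), C (c i) * X ^ (i : ℕ)

lemma polyOf_natDegree {A : Type*} [CommRing A] (D : ℕ) (c : Fin (D + 1) → A) :
    (polyOf D c).natDegree ≤ D := by
  unfold polyOf
  apply natDegree_sum_le_of_forall_le
  intro i _
  exact (natDegree_C_mul_X_pow_le _ _).trans (by omega)

lemma polyOf_map {A A' : Type*} [CommRing A] [CommRing A'] (φ : A →+* A') (D : ℕ)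
    (c : Fin (D + 1) → A) : (polyOf D c).map φ = polyOf D (fun i => φ (c i)) := by
  unfold polyOf
  rw [Polynomial.map_sum]
  simp

lemma polyOf_coeff {A : Type*} [CommRing A] (D : ℕ) (c : Fin (D + 1) → A) (i : Fin (D + 1)) :
    (polyOf D c).coeff i = c i := by
  unfold polyOf
  rw [finsetSum_coeff]
  simp only [coeff_C_mul_X_pow]
  rw [Finset.sum_eq_single i]
  · simp
  · intro b _ hb
    rw [if_neg]
    intro h
    exact hb (Fin.ext h.symm)
  · intro h
    exact absurd (Finset.mem_univ i) h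

lemma polyOf_eq_zero {A : Type*} [CommRing A] (D : ℕ) (c : Fin (D + 1) → A)
    (h : polyOf D c = 0) : c = 0 := by
  funext i
  rw [← polyOf_coeff D c i, h, coeff_zero]
  rfl

/-- the element with given coordinates. -/
def elt {A : Type*} [CommRing A] (ℓ : ℕ) (g : A[X]) (D : ℕ)
    (c : Fin (ℓ + 1) × Fin (D + 1) → A) : CoordRing ℓ g :=
  ∑ j : Fin ℓ, of g (polyOf D (fun i => c (j.castSucc, i))) * yy ^ (j : ℕ)

lemma coordMap_elt {A A' : Type*} [CommRing A] [CommRing A'] (φ : A →+* A') {g : A[X]} {g' : A'[X]}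
    (h : g.map φ = g') (D : ℕ) (c : Fin (ℓ + 1) × Fin (D + 1) → A) :
    coordMap ℓ φ h (elt ℓ g D c) = elt ℓ g' D (fun i => φ (c i)) := by
  unfold elt
  rw [map_sum]
  refine Finset.sum_congr rfl fun j _ => ?_
  rw [map_mul, map_pow, coordMap_of, coordMap_yy, polyOf_map]

lemma elt_mem_Fil {A : Type*} [CommRing A] [Nontrivial A] (g : A[X]) (D : ℕ)
    (c : Fin (ℓ + 1) × Fin (D + 1) → A) :
    elt ℓ g D c ∈ (Fil g (ℓ * D + g.natDegree * (ℓ - 1)) : AddSubgroup (CoordRing ℓ g)) := by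
  unfold elt
  apply AddSubgroup.sum_mem
  intro j _
  refine Fil_mono ?_ (of_mul_yy_pow_mem_Fil (polyOf_natDegree D _) j.2)
  have h1 : g.natDegree * (j : ℕ) ≤ g.natDegree * (ℓ - 1) := Nat.mul_le_mul_left _ (by omega)
  omega

lemma elt_eq_zero {A : Type*} [CommRing A] [Nontrivial A] (g : A[X]) (D : ℕ)
    (c : Fin (ℓ + 1) × Fin (D + 1) → A) (h : elt ℓ g D c = 0) (j : Fin ℓ) :
    polyOf D (fun i => c (j.castSucc, i)) = 0 := by
  have h1 : elt ℓ g D c = ∑ j ∈ range ℓ, of g (if hj : j < ℓ then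
      polyOf D (fun i => c ((⟨j, hj⟩ : Fin ℓ).castSucc, i)) else 0) * yy ^ j := by
    unfold elt
    rw [Finset.sum_range]
    refine Finset.sum_congr rfl fun j _ => ?_
    rw [dif_pos j.2]
  have h2 := coef_sum_yy (g := g) (fun j => if hj : j < ℓ then
      polyOf D (fun i => c ((⟨j, hj⟩ : Fin ℓ).castSucc, i)) else 0) j.2
  rw [← h1, h, coef_zero, dif_pos j.2] at h2
  exact h2.symm

/-- Solving the norm equation over an algebraically closed field, for a polynomial. -/
theorem exists_norm_eq_of_isAlgClosed [IsAlgClosed F] (a : F[X]) :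
    ∃ (u : CoordRing ℓ f) (w : F[X]), w ≠ 0 ∧
      nrm (tau hζ.pow_eq_one f) ℓ u = of f (a * w ^ ℓ) := by
  set n := f.natDegree with hn
  set D := n * (ℓ - 1) + a.natDegree + 1 with hD
  set κ := ℓ * D + n * (ℓ - 1) + a.natDegree with hκ
  let σ := Fin (ℓ + 1) × Fin (D + 1)
  let S := MvPolynomial σ F
  let fS : S[X] := f.map MvPolynomial.C
  have hζS : (MvPolynomial.C ζ : S) ^ ℓ = 1 := by rw [← map_pow, hζ.pow_eq_one, map_one]
  have hfS : fS.Monic := hf.monic.map _
  have hfSn : fS.natDegree = n := hf.monic.natDegree_map _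
  let U : CoordRing ℓ fS := elt ℓ fS D MvPolynomial.X
  let w : S[X] := polyOf D (fun i => MvPolynomial.X (Fin.last ℓ, i))
  let Q : CoordRing ℓ fS := nrm (tau hζS fS) ℓ U - of fS (a.map MvPolynomial.C * w ^ ℓ)
  let P : Fin (κ + 1) → S := fun k => (coef Q 0).coeff k
  -- evaluation
  let ev : (σ → F) → S →+* F := fun x => MvPolynomial.eval x
  have hevC : ∀ x c, ev x (MvPolynomial.C c) = c := fun x c => MvPolynomial.eval_C c
  have hevX : ∀ x i, ev x (MvPolynomial.X i) = x i := fun x i => MvPolynomial.eval_X i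
  have hevid : ∀ x, (ev x).comp MvPolynomial.C = RingHom.id F := fun x =>
    RingHom.ext fun c => hevC x c
  have hev : ∀ x, fS.map (ev x) = f := by
    intro x
    change (f.map MvPolynomial.C).map (ev x) = f
    rw [Polynomial.map_map, hevid, Polynomial.map_id]
  have hw : ∀ x, w.map (ev x) = polyOf D (fun i => x (Fin.last ℓ, i)) := by
    intro x
    change (polyOf D _).map (ev x) = _
    rw [polyOf_map]
    congr 1
    funext i
    exact hevX _ _
  have hU : ∀ x, coordMap ℓ (ev x) (hev x) U = elt ℓ f D x := by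
    intro x
    change coordMap ℓ (ev x) (hev x) (elt ℓ fS D MvPolynomial.X) = _
    rw [coordMap_elt]
    congr 1
    funext i
    exact hevX _ _
  have hQ : ∀ x, coordMap ℓ (ev x) (hev x) Q = nrm (tau hζ.pow_eq_one f) ℓ (elt ℓ f D x) -
      of f (a * (polyOf D (fun i => x (Fin.last ℓ, i))) ^ ℓ) := by
    intro x
    change coordMap ℓ (ev x) (hev x) (nrm (tau hζS fS) ℓ U -
      of fS (a.map MvPolynomial.C * w ^ ℓ)) = _
    rw [map_sub, map_nrm_comm (tau hζS fS) (tau hζ.pow_eq_one f) (coordMap ℓ (ev x) (hev x))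
      (coordMap_tau (ev x) (hev x) hζS hζ.pow_eq_one (hevC _ _)), hU, coordMap_of,
      Polynomial.map_mul, Polynomial.map_pow, hw, Polynomial.map_map, hevid, Polynomial.map_id]
  have hcoef : ∀ x (k : ℕ), (coef (coordMap ℓ (ev x) (hev x) Q) 0).coeff k =
      ev x ((coef Q 0).coeff k) := by
    intro x k
    rw [coef_coordMap, coeff_map]
  -- the coefficients of large degree vanish
  have hlarge : ∀ k, κ < k → (coef Q 0).coeff k = 0 := by
    intro k hk
    have h1 : Q ∈ (Fil fS (ℓ * κ) : AddSubgroup (CoordRing ℓ fS)) := by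
      apply AddSubgroup.sub_mem
      · refine Fil_mono ?_ (nrm_mem_Fil hζS hfS (elt_mem_Fil fS D _) ℓ)
        apply Nat.mul_le_mul_left
        rw [hfSn]
        omega
      · have h2 := of_mul_yy_pow_mem_Fil (g := fS) (p := a.map MvPolynomial.C * w ^ ℓ)
          (D := κ) (j := 0) (by
            refine natDegree_mul_le.trans ?_
            have h3 : (a.map (MvPolynomial.C : F →+* S)).natDegree ≤ a.natDegree :=
              natDegree_map_le
            have h4 : (w ^ ℓ).natDegree ≤ ℓ * D :=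
              natDegree_pow_le.trans (Nat.mul_le_mul_left _ (polyOf_natDegree D _))
            omega) hp.out.pos
        rw [pow_zero, mul_one, mul_zero, add_zero] at h2
        exact h2
    apply h1 0 k
    rw [mul_zero, add_zero]
    exact Nat.mul_lt_mul_of_pos_left hk hp.out.pos
  obtain ⟨x, hx0, hx⟩ := exists_common_zero P (by
    intro k
    have h1 : MvPolynomial.aeval (R := F) (0 : σ → F) (P k) = ev 0 (P k) := rfl
    rw [h1]
    change ev 0 ((coef Q 0).coeff k) = 0
    rw [← hcoef, hQ]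
    have h2 : elt ℓ f D (0 : σ → F) = 0 := by
      unfold elt polyOf
      simp
    have h3 : polyOf D (fun i => (0 : σ → F) (Fin.last ℓ, i)) = 0 := by
      unfold polyOf
      simp
    have h4 : nrm (tau hζ.pow_eq_one f) ℓ (0 : CoordRing ℓ f) = 0 := by
      rw [nrm_pred _ hp.out.ne_zero, zero_mul]
    rw [h2, h3, h4, zero_pow hp.out.ne_zero, mul_zero, map_zero, sub_zero, coef_zero, coeff_zero]) (by
    rw [Fintype.card_prod, Fintype.card_fin, Fintype.card_fin, hκ]
    have : (ℓ + 1) * (D + 1) = ℓ * D + ℓ + D + 1 := by ring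
    rw [this]
    have := hp.out.pos
    omega)
  have hQ0 : coordMap ℓ (ev x) (hev x) Q = 0 := by
    have h0 : ∀ k, (coef (coordMap ℓ (ev x) (hev x) Q) 0).coeff k = 0 := by
      intro k
      rw [hcoef]
      by_cases hk : k ≤ κ
      · exact hx ⟨k, by omega⟩
      · rw [hlarge k (not_le.mp hk), map_zero]
    have h1 : tau hζ.pow_eq_one f (coordMap ℓ (ev x) (hev x) Q) =
        coordMap ℓ (ev x) (hev x) Q := by
      rw [hQ, map_sub, tau_of, nrm_tau _ (tau_iterate_ell hζ.pow_eq_one _)]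
    rw [tau_fixed hζ h1]
    have h2 : coef (coordMap ℓ (ev x) (hev x) Q) 0 = 0 := by
      ext k
      rw [h0, coeff_zero]
    rw [h2, map_zero]
  rw [hQ, sub_eq_zero] at hQ0
  refine ⟨_, _, ?_, hQ0⟩
  intro hw0
  apply hx0
  rw [hw0, zero_pow hp.out.ne_zero, mul_zero, map_zero] at hQ0
  have hu0 : elt ℓ f D x = 0 := by
    unfold nrm at hQ0
    rw [Finset.prod_eq_zero_iff] at hQ0
    obtain ⟨i, -, hi⟩ := hQ0
    have : ∀ i, (tau hζ.pow_eq_one f)^[i] (elt ℓ f D x) = 0 → elt ℓ f D x = 0 := by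
      intro i
      induction i with
      | zero => exact id
      | succ i ih =>
        intro h
        rw [Function.iterate_succ_apply'] at h
        exact ih (tau_injective hζ.pow_eq_one (by rw [h, map_zero]))
    exact this i hi
  funext ⟨j, i⟩
  refine Fin.lastCases ?_ (fun j => ?_) j
  · exact congrFun (polyOf_eq_zero D _ hw0) i
  · exact congrFun (polyOf_eq_zero D _ (elt_eq_zero f D x hu0 j)) i

end AlgClosed

section SepClosed

variable {F : Type u} [Field F] {ℓ : ℕ} [hp : Fact ℓ.Prime] {f : F[X]} [hf : Good ℓ f]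
  {ζ : F} (hζ : IsPrimitiveRoot ζ ℓ)

omit hp in
lemma Good.map' {F' : Type*} [Field F'] (φ : F →+* F') {f' : F'[X]} (h : f.map φ = f') :
    Good ℓ f' where
  monic := by rw [← h]; exact hf.monic.map φ
  sep := by rw [← h]; exact hf.sep.map
  cop := by rw [← h, natDegree_map]; exact hf.cop

/-- Everything over a purely inseparable extension becomes defined over the
ground field after raising to a power of the characteristic. -/
lemma exists_pow_eq_coordMap (p : ℕ) [ExpChar F p] {F' : Type*} [Field F'] [Algebra F F']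
    [IsPurelyInseparable F F'] (r : CoordRing ℓ (f.map (algebraMap F F'))) :
    ∃ (k : ℕ) (s : CoordRing ℓ f),
      coordMap ℓ (algebraMap F F') rfl s = r ^ p ^ k := by
  have i2 : ExpChar F' p := expChar_of_injective_algebraMap (algebraMap F F').injective p
  let c : F' →+* CoordRing ℓ (f.map (algebraMap F F')) := (of (f.map (algebraMap F F'))).comp C
  have hc : Function.Injective c := (of_injective (ℓ := ℓ)).comp C_injective
  have i3 : ExpChar (CoordRing ℓ (f.map (algebraMap F F'))) p :=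
    expChar_of_injective_ringHom hc p
  let alg : Algebra (CoordRing ℓ f) (CoordRing ℓ (f.map (algebraMap F F'))) :=
    (coordMap ℓ (algebraMap F F') rfl).toAlgebra
  have halg : ∀ s, algebraMap (CoordRing ℓ f) (CoordRing ℓ (f.map (algebraMap F F'))) s =
    coordMap ℓ (algebraMap F F') rfl s := fun s => rfl
  let S := Subalgebra.perfectClosure (CoordRing ℓ f) (CoordRing ℓ (f.map (algebraMap F F'))) p
  have hSc : ∀ x : F', of (f.map (algebraMap F F')) (C x) ∈ S := by
    intro x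
    obtain ⟨n, y, hy⟩ := IsPurelyInseparable.pow_mem F p x
    refine ⟨n, of f (C y), ?_⟩
    rw [halg, coordMap_of, map_C, hy, C_pow, map_pow]
  have hSX : of (f.map (algebraMap F F')) X ∈ S := by
    have h1 : of (f.map (algebraMap F F')) X =
        algebraMap (CoordRing ℓ f) (CoordRing ℓ (f.map (algebraMap F F'))) (of f X) := by
      rw [halg, coordMap_of, map_X]
    rw [h1]
    exact S.algebraMap_mem _
  have hSy : (yy : CoordRing ℓ (f.map (algebraMap F F'))) ∈ S := by
    have h1 : (yy : CoordRing ℓ (f.map (algebraMap F F'))) =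
        algebraMap (CoordRing ℓ f) (CoordRing ℓ (f.map (algebraMap F F'))) yy := by
      rw [halg, coordMap_yy]
    rw [h1]
    exact S.algebraMap_mem _
  have hSp : ∀ q : F'[X], of (f.map (algebraMap F F')) q ∈ S := by
    intro q
    rw [as_sum_range_C_mul_X_pow q, map_sum]
    refine S.sum_mem fun i _ => ?_
    rw [map_mul, map_pow]
    exact S.mul_mem (hSc _) (S.pow_mem hSX _)
  have hS : r ∈ S := by
    rw [eq_sum r]
    exact S.sum_mem fun j _ => S.mul_mem (hSp _) (S.pow_mem hSy _)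
  obtain ⟨k, s, hs⟩ := hS
  exact ⟨k, s, hs⟩

lemma nrm_pow {M : Type*} [CommMonoid M] {Φ : Type*} [FunLike Φ M M] [MonoidHomClass Φ M M]
    (τ : Φ) (n : ℕ) (z : M) (k : ℕ) : nrm τ n (z ^ k) = nrm τ n z ^ k := by
  induction k with
  | zero => rw [pow_zero, pow_zero, nrm_one]
  | succ k ih => rw [pow_succ, nrm_mul, ih, pow_succ]

lemma pol_zero : (pol (0 : F[X]) : FF ℓ f) = 0 := by
  unfold pol
  rw [map_zero, map_zero]

/-- Every nonzero polynomial is a norm over a separably closed field. -/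
theorem exists_norm_pol [IsSepClosed F] (a : F[X]) (ha : a ≠ 0) :
    ∃ z : FF ℓ f, z ≠ 0 ∧ nrm (tauM hζ) ℓ z = pol a := by
  obtain ⟨p, hpF⟩ := ExpChar.exists F
  let φ : F →+* AlgebraicClosure F := algebraMap F (AlgebraicClosure F)
  have : Good ℓ (f.map φ) := Good.map' (hf := hf) φ rfl
  have hζ' : IsPrimitiveRoot (φ ζ) ℓ := hζ.map_of_injective φ.injective
  obtain ⟨u', w', hw', huw⟩ := exists_norm_eq_of_isAlgClosed (f := f.map φ) hζ' (a.map φ)
  have hinj : Function.Injective (coordMap ℓ φ rfl : CoordRing ℓ f →+* CoordRing ℓ (f.map φ)) :=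
    coordMap_injective φ.injective rfl
  obtain ⟨k₁, u₁, hu₁⟩ := exists_pow_eq_coordMap (ℓ := ℓ) (f := f) p u'
  obtain ⟨k₂, v₁, hv₁⟩ := exists_pow_eq_coordMap (ℓ := ℓ) (f := f) p (of (f.map φ) w')
  set q := p ^ (k₁ + k₂) with hq
  set u : CoordRing ℓ f := u₁ ^ p ^ k₂ with hu
  set v : CoordRing ℓ f := v₁ ^ p ^ k₁ with hv
  have huq : coordMap ℓ φ rfl u = u' ^ q := by
    rw [hu, map_pow, hu₁, ← pow_mul, ← pow_add]
  have hvq : coordMap ℓ φ rfl v = (of (f.map φ) w') ^ q := by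
    rw [hv, map_pow, hv₁, ← pow_mul, ← pow_add, add_comm k₂ k₁]
  have hcomm := coordMap_tau (ℓ := ℓ) φ (rfl : f.map φ = _) hζ.pow_eq_one hζ'.pow_eq_one rfl
  have hvτ : tau hζ.pow_eq_one f v = v := by
    apply hinj
    rw [hcomm, hvq, map_pow, tau_of]
  have hv0 : v ≠ 0 := by
    intro h0
    rw [h0, map_zero] at hvq
    have hw1 : of (f.map φ) w' ≠ (0 : CoordRing ℓ (f.map φ)) := by
      intro h
      apply hw'
      apply of_injective (ℓ := ℓ) (g := f.map φ)
      rw [h, map_zero]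
    exact pow_ne_zero q hw1 hvq.symm
  have hN : nrm (tau hζ.pow_eq_one f) ℓ u = of f a ^ q * v ^ ℓ := by
    apply hinj
    rw [map_nrm_comm (tau hζ.pow_eq_one f) (tau hζ'.pow_eq_one (f.map φ)) (coordMap ℓ φ rfl) hcomm,
      huq, nrm_pow, huw, map_mul, map_mul, map_pow, map_pow, map_pow, hvq, coordMap_of]
    ring
  -- pass to the function field
  have hNM : ∀ r : CoordRing ℓ f, nrm (tauM hζ) ℓ (algebraMap _ (FF ℓ f) r) =
      algebraMap _ (FF ℓ f) (nrm (tau hζ.pow_eq_one f) ℓ r) := fun r =>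
    (map_nrm_comm (tau hζ.pow_eq_one f) (tauM hζ) (algebraMap (CoordRing ℓ f) (FF ℓ f))
      (fun z => (tauM_alg hζ z).symm) ℓ r).symm
  have hv0' : algebraMap _ (FF ℓ f) v ≠ 0 := by
    rwa [Ne, IsFractionRing.to_map_eq_zero_iff]
  have hvτ' : tauM hζ (algebraMap _ (FF ℓ f) v) = algebraMap _ (FF ℓ f) v := by
    rw [tauM_alg, hvτ]
  have hpa : (pol a : FF ℓ f) ≠ 0 := pol_ne_zero ha
  set z₁ : FF ℓ f := algebraMap _ (FF ℓ f) u / algebraMap _ (FF ℓ f) v with hz₁
  have hz₁N : nrm (tauM hζ) ℓ z₁ = pol a ^ q := by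
    have h1 : z₁ * algebraMap _ (FF ℓ f) v = algebraMap _ (FF ℓ f) u := by
      rw [hz₁, div_mul_cancel₀ _ hv0']
    have h2 := congrArg (nrm (tauM hζ) ℓ) h1
    rw [nrm_mul, hNM u, hN, nrm_of_fixed _ hvτ', map_mul, map_pow _ (of f a) q,
      map_pow _ v ℓ] at h2
    exact mul_right_cancel₀ (pow_ne_zero _ hv0') h2
  have hz₁0 : z₁ ≠ 0 := by
    intro h0
    rw [h0, nrm_pred _ hp.out.ne_zero, zero_mul] at hz₁N
    exact pow_ne_zero _ hpa hz₁N.symm
  have hqℓ : Nat.Coprime q ℓ := by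
    rw [hq]
    apply Nat.Coprime.pow_left
    rcases hpF with _ | hprime
    · exact Nat.coprime_one_left ℓ
    · rw [Nat.coprime_primes hprime hp.out]
      rintro rfl
      exact ell_ne_zero hζ (CharP.cast_eq_zero F p)
  obtain ⟨m, -, hm⟩ := Nat.exists_mul_mod_eq_one_of_coprime hqℓ hp.out.one_lt
  have hdm := Nat.div_add_mod (q * m) ℓ
  rw [hm] at hdm
  set s := q * m / ℓ with hs
  refine ⟨z₁ ^ m / pol a ^ s, div_ne_zero (pow_ne_zero _ hz₁0) (pow_ne_zero _ hpa), ?_⟩
  have h3 : (z₁ ^ m / pol a ^ s) * pol a ^ s = z₁ ^ m := div_mul_cancel₀ _ (pow_ne_zero _ hpa)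
  have h4 := congrArg (nrm (tauM hζ) ℓ) h3
  rw [nrm_mul, nrm_pow, nrm_pow, hz₁N, nrm_of_fixed _ (tauM_pol hζ a), ← pow_mul, ← pow_mul,
    ← hdm, pow_succ, mul_comm (pol a ^ (ℓ * s)) (pol a)] at h4
  exact mul_right_cancel₀ (pow_ne_zero _ hpa) h4

/-- Every rational function is a norm over a separably closed field. -/
theorem exists_norm_eq [IsSepClosed F] (a : FF ℓ f) (ha : a ≠ 0) (haτ : tauM hζ a = a) :
    ∃ z : FF ℓ f, z ≠ 0 ∧ nrm (tauM hζ) ℓ z = a := by
  obtain ⟨p, q, hq, hpq⟩ := tauM_fixed hζ haτ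
  have hq' : (pol q : FF ℓ f) ≠ 0 := pol_ne_zero hq
  have hp0 : p ≠ 0 := by
    rintro rfl
    rw [pol_zero] at hpq
    exact mul_ne_zero ha hq' hpq
  obtain ⟨z, hz, hzN⟩ := exists_norm_pol (f := f) hζ (p * q ^ (ℓ - 1)) (mul_ne_zero hp0 (pow_ne_zero _ hq))
  refine ⟨z / pol q, div_ne_zero hz hq', ?_⟩
  have h1 : (z / pol q) * pol q = z := div_mul_cancel₀ _ hq'
  have h2 := congrArg (nrm (tauM hζ) ℓ) h1
  rw [nrm_mul, hzN, nrm_of_fixed _ (tauM_pol hζ q), pol_mul, pol_pow, ← hpq] at h2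
  have h3 : a * (pol q : FF ℓ f) * (pol q : FF ℓ f) ^ (ℓ - 1) = a * (pol q : FF ℓ f) ^ ℓ := by
    rw [mul_assoc]
    congr 1
    rw [← pow_succ', Nat.sub_add_cancel hp.out.one_le]
  rw [h3] at h2
  exact mul_right_cancel₀ (pow_ne_zero _ hq') h2

/-- Divisibility of the Picard group by `1 - τ` over a separably closed field. -/
theorem exists_phi_div' [IsSepClosed F] (T : Dv ℓ f) :
    ∃ (B : Dv ℓ f) (z : FF ℓ f) (hz : z ≠ 0), prin z hz * B = T * tauU hζ B :=
  exists_phi_div hζ (fun a ha haτ => exists_norm_eq hζ a ha haτ) T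

end SepClosed

end Pool.Agent.MP1bdb59C
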