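import Mathlib
import Pool.Agent.MP1bdb59C.Tsen

/-!
# Base change, and the norm on `F[x]/(f)`
-/

open Polynomial Finset Submodule

noncomputable section

open scoped Classical

set_option linter.unusedSectionVars false

namespace Pool.Agent.MP1bdb59C

universe u v w

section Norm

variable {F : Type u} [Field F] {F' : Type v} [Field F'] (φ : F →+* F') {f : F[X]} {f' : F'[X]}
  (h : f.map φ = f')

lemma lamMap_of (a : F) : lamMap φ h (AdjoinRoot.of f a) = AdjoinRoot.of f' (φ a) := by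
  rw [← AdjoinRoot.mk_C, lamMap_mk, map_C, AdjoinRoot.mk_C]

lemma lamMap_root : lamMap φ h (AdjoinRoot.root f) = AdjoinRoot.root f' := by
  rw [← AdjoinRoot.mk_X, lamMap_mk, map_X, AdjoinRoot.mk_X]

/-- The norm of `F[x]/(f)` is compatible with extension of fields. -/
lemma norm_lamMap (hf : f.Monic) (c : AdjoinRoot f) :
    Algebra.norm F' (lamMap φ h c) = φ (Algebra.norm F c) := by
  have hf' : f'.Monic := by rw [← h]; exact hf.map φ
  have hn : f'.natDegree = f.natDegree := by rw [← h]; exact natDegree_map φ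
  let b : Module.Basis (Fin f.natDegree) F (AdjoinRoot f) := (AdjoinRoot.powerBasis' hf).basis
  let b' : Module.Basis (Fin f.natDegree) F' (AdjoinRoot f') :=
    (AdjoinRoot.powerBasis' hf').basis.reindex (finCongr hn)
  have hb : ∀ i, b i = AdjoinRoot.root f ^ (i : ℕ) := fun i => by
    have := (AdjoinRoot.powerBasis' hf).basis_eq_pow i
    exact this
  have hb' : ∀ i, b' i = AdjoinRoot.root f' ^ (i : ℕ) := fun i => by
    have := (AdjoinRoot.powerBasis' hf').basis_eq_pow ((finCongr hn).symm i)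
    rw [Module.Basis.reindex_apply]
    exact this
  have hbb : ∀ i, lamMap φ h (b i) = b' i := fun i => by
    rw [hb, hb', map_pow, lamMap_root]
  have hrepr : ∀ x i, b'.repr (lamMap φ h x) i = φ (b.repr x i) := by
    intro x i
    have h1 : lamMap φ h x = ∑ j, φ (b.repr x j) • b' j := by
      conv_lhs => rw [← b.sum_repr x]
      rw [map_sum]
      refine Finset.sum_congr rfl fun j _ => ?_
      rw [Algebra.smul_def, map_mul, hbb, Algebra.smul_def]
      congr 1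
      exact lamMap_of φ h _
    rw [h1, Module.Basis.repr_sum_self]
  rw [Algebra.norm_eq_matrix_det b, Algebra.norm_eq_matrix_det b', RingHom.map_det]
  congr 1
  ext i j
  rw [Algebra.leftMulMatrix_eq_repr_mul, RingHom.mapMatrix_apply, Matrix.map_apply,
    Algebra.leftMulMatrix_eq_repr_mul, ← hbb, ← map_mul, hrepr]

lemma norm_of (hf : f.Monic) (a : F) :
    Algebra.norm F (AdjoinRoot.of f a) = a ^ f.natDegree := by
  have h1 := Algebra.norm_algebraMap (S := AdjoinRoot f) a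
  rw [(AdjoinRoot.powerBasis' hf).finrank, AdjoinRoot.powerBasis'_dim] at h1
  exact h1

end Norm

section BaseChange

variable {F : Type u} [Field F] {F' : Type v} [Field F'] (φ : F →+* F') {ℓ : ℕ}
  [hp : Fact ℓ.Prime] {f : F[X]} {f' : F'[X]} [hf : Good ℓ f] [hf' : Good ℓ f'] (h : f.map φ = f')
  {ζ : F} {ζ' : F'} (hζ : IsPrimitiveRoot ζ ℓ) (hζ' : IsPrimitiveRoot ζ' ℓ) (hφ : φ ζ = ζ')

/-- The map of function fields. -/
def bcM : FF ℓ f →+* FF ℓ f' := frMap (coordMap ℓ φ h) (coordMap_injective φ.injective h)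

lemma bcM_alg (r : CoordRing ℓ f) : bcM φ h (algebraMap _ (FF ℓ f) r) =
    algebraMap _ (FF ℓ f') (coordMap ℓ φ h r) := frMap_algebraMap _ _ _

lemma bcM_pol (p : F[X]) : bcM φ h (pol p : FF ℓ f) = pol (p.map φ) := by
  unfold pol
  rw [bcM_alg, coordMap_of]

lemma bcM_ne_zero {z : FF ℓ f} (hz : z ≠ 0) : bcM φ h z ≠ 0 := by rwa [Ne, map_eq_zero]

include hφ in
lemma bcM_tau (z : FF ℓ f) : bcM φ h (tauM hζ z) = tauM hζ' (bcM φ h z) := by
  obtain ⟨a, b, hb, rfl⟩ := IsFractionRing.div_surjective (A := CoordRing ℓ f) z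
  rw [map_div₀, map_div₀, map_div₀, map_div₀, tauM_alg, tauM_alg, bcM_alg, bcM_alg, bcM_alg,
    bcM_alg, tauM_alg, tauM_alg, coordMap_tau φ h hζ.pow_eq_one hζ'.pow_eq_one hφ,
    coordMap_tau φ h hζ.pow_eq_one hζ'.pow_eq_one hφ]

include hφ in
lemma bcM_nrm (n : ℕ) (z : FF ℓ f) :
    bcM φ h (nrm (tauM hζ) n z) = nrm (tauM hζ') n (bcM φ h z) :=
  map_nrm_comm (tauM hζ) (tauM hζ') (bcM φ h) (bcM_tau φ h hζ hζ' hφ) n z

/-- Extension of invertible submodules. -/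
def bcU : Dv ℓ f →* Dv ℓ f' := Units.map (push (φ := coordMap ℓ φ h) (Φ := bcM φ h) (bcM_alg φ h))

lemma bcU_val (T : Dv ℓ f) : (bcU φ h T).1 =
    push (φ := coordMap ℓ φ h) (Φ := bcM φ h) (bcM_alg φ h) T.1 := rfl

lemma bcM_mem_bcU {T : Dv ℓ f} {t : FF ℓ f} (ht : t ∈ T.1) : bcM φ h t ∈ (bcU φ h T).1 :=
  mem_push _ ht

lemma bcU_prin {z : FF ℓ f} (hz : z ≠ 0) : bcU φ h (prin z hz) =
    prin (bcM φ h z) (bcM_ne_zero φ h hz) := by
  apply Units.ext
  exact push_span_singleton _ z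

lemma bcU_le {T : Dv ℓ f} {T' : Submodule (CoordRing ℓ f') (FF ℓ f')} :
    (bcU φ h T).1 ≤ T' ↔ ∀ t ∈ T.1, bcM φ h t ∈ T' := push_le _

include hφ in
lemma bcU_tau (T : Dv ℓ f) : bcU φ h (tauU hζ T) = tauU hζ' (bcU φ h T) := by
  apply Units.ext
  apply le_antisymm
  · rw [bcU_le]
    intro t ht
    obtain ⟨s, hs, rfl⟩ := (mem_tauS hζ).mp ht
    rw [bcM_tau φ h hζ hζ' hφ]
    exact tauM_mem_tauS hζ' (bcM_mem_bcU φ h hs)
  · change push _ (push _ T.1) ≤ _
    rw [push_push, push_le]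
    intro t ht
    rw [RingHom.comp_apply, ← bcM_tau φ h hζ hζ' hφ]
    exact bcM_mem_bcU φ h (tauM_mem_tauS hζ ht)

lemma bcM_mem_one {x : FF ℓ f} (hx : x ∈ (1 : Submodule (CoordRing ℓ f) (FF ℓ f))) :
    bcM φ h x ∈ (1 : Submodule (CoordRing ℓ f') (FF ℓ f')) := by
  obtain ⟨r, rfl⟩ := mem_one'.mp hx
  rw [bcM_alg]
  exact alg_mem_one _

lemma redM_bcM {x : FF ℓ f} (hx : x ∈ (1 : Submodule (CoordRing ℓ f) (FF ℓ f))) :
    redM (bcM φ h x) = lamMap φ h (redM x) := by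
  obtain ⟨r, rfl⟩ := mem_one'.mp hx
  rw [bcM_alg, redM_alg, redM_alg, red_coordMap]

include hφ in
lemma Rel.map {T : Dv ℓ f} {z : FF ℓ f} {c : AdjoinRoot f} (hr : Rel hζ T z c) :
    Rel hζ' (bcU φ h T) (bcM φ h z) (lamMap φ h c) := by
  have heq : MP1bdb59C.prin (bcM φ h z) (bcM_ne_zero φ h hr.ne) * tauU hζ' (bcU φ h T) =
      bcU φ h T := by
    rw [← bcU_prin φ h hr.ne, ← bcU_tau φ h hζ hζ' hφ, ← map_mul, hr.eq]
  obtain ⟨c', hc'⟩ := exists_rel (hζ := hζ') (bcU φ h T) (bcM_ne_zero φ h hr.ne) heq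
  have key : ∀ x ∈ (1 : Submodule (CoordRing ℓ f) (FF ℓ f)),
      c' * lamMap φ h (redM x) = lamMap φ h c * lamMap φ h (redM x) := by
    intro x hx
    refine T.one_induction (P := fun x => c' * lamMap φ h (redM x) =
      lamMap φ h c * lamMap φ h (redM x)) ?_ ?_ hx
    · intro g hg u hu
      have m1 := T.mul_inv_mem hg hu
      have m2 := T.mul_inv_mem (mul_tau_mem hr.eq hg) hu
      have h1 := hc'.rel (bcM φ h g) (bcM_mem_bcU φ h hg) (bcM φ h u) (by
        rw [← map_inv]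
        exact bcM_mem_bcU φ h hu)
      rw [← bcM_tau φ h hζ hζ' hφ, ← map_mul, ← map_mul, ← map_mul, redM_bcM φ h m2,
        redM_bcM φ h m1, hr.rel g hg u hu, map_mul] at h1
      exact h1.symm
    · intro x hx y hy h1 h2
      rw [redM_add hx hy, map_add, mul_add, mul_add, h1, h2]
  have h1 := key 1 one_mem_one
  rw [redM_one, map_one, mul_one, mul_one] at h1
  rwa [← h1]

/-- The class in the Picard group of the coordinate ring. -/
def pcl : Dv ℓ f →* CommRing.Pic (CoordRing ℓ f) := unitsToPic (CoordRing ℓ f) (FF ℓ f)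

lemma pcl_surjective (c : CommRing.Pic (CoordRing ℓ f)) : ∃ T : Dv ℓ f, pcl T = c :=
  MP1bdb59C.unitsToPic_surjective c

lemma pcl_eq_one_iff (T : Dv ℓ f) : pcl T = 1 ↔ ∃ (z : FF ℓ f) (hz : z ≠ 0), T = prin z hz := by
  unfold pcl
  rw [MP1bdb59C.unitsToPic_eq_one_iff]
  constructor
  · rintro ⟨z, hz, h⟩
    exact ⟨z, hz, Units.ext h⟩
  · rintro ⟨z, hz, rfl⟩
    exact ⟨z, hz, rfl⟩

lemma pcl_prin {z : FF ℓ f} (hz : z ≠ 0) : pcl (prin z hz) = 1 :=
  (pcl_eq_one_iff _).mpr ⟨z, hz, rfl⟩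

lemma pcl_eq_iff (T T' : Dv ℓ f) : pcl T = pcl T' ↔
    ∃ (z : FF ℓ f) (hz : z ≠ 0), T = prin z hz * T' := by
  have h1 : pcl T = pcl T' ↔ pcl (T * T'⁻¹) = 1 := by
    rw [map_mul, map_inv, mul_inv_eq_one]
  rw [h1, pcl_eq_one_iff]
  constructor
  · rintro ⟨z, hz, h⟩
    exact ⟨z, hz, by rw [← h, inv_mul_cancel_right]⟩
  · rintro ⟨z, hz, h⟩
    exact ⟨z, hz, by rw [h, mul_inv_cancel_right]⟩

lemma mapRingHom_pcl (T : Dv ℓ f) :
    CommRing.Pic.mapRingHom (coordMap ℓ φ h) (pcl T) = pcl (bcU φ h T) :=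
  mapRingHom_unitsToPic (bcM_alg φ h) T

/-- `τ` on the Picard group. -/
def tauPic : CommRing.Pic (CoordRing ℓ f) →* CommRing.Pic (CoordRing ℓ f) :=
  CommRing.Pic.mapRingHom (tau hζ.pow_eq_one f)

lemma tauPic_pcl (T : Dv ℓ f) : tauPic hζ (pcl T) = pcl (tauU hζ T) :=
  mapRingHom_unitsToPic (tauM_alg hζ) T

end BaseChange

end Pool.Agent.MP1bdb59C
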