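import Mathlib
import Pool.Agent.MP1bdb59C.Base

/-!
# The `μ_ℓ`-valued invariant of the classes killed by `1 - τ`
-/

open Polynomial Finset Submodule

noncomputable section

open scoped Classical

set_option linter.unusedSectionVars false

namespace Pool.Agent.MP1bdb59C

universe u v w

variable {F : Type u} [Field F] {ℓ : ℕ} [hp : Fact ℓ.Prime] {f : F[X]} [hf : Good ℓ f]
  {ζ : F} (hζ : IsPrimitiveRoot ζ ℓ)

/-- `c` is the normalised invariant of the class `t`. -/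
def IsEps (t : CommRing.Pic (CoordRing ℓ f)) (c : AdjoinRoot f) : Prop :=
  ∃ (T : Dv ℓ f) (z : FF ℓ f), pcl T = t ∧ Rel hζ T z c ∧ nrm (tauM hζ) ℓ z = 1 ∧
    Algebra.norm F c = 1

variable {hζ}

lemma norm_eq_pow_of_rel {T : Dv ℓ f} {z : FF ℓ f} {c : AdjoinRoot f} (h : Rel hζ T z c)
    (hN : nrm (tauM hζ) ℓ z = 1) : c ^ ℓ = 1 := by
  obtain ⟨κ, -, h1, h2⟩ := h.norm
  rw [hN, ← pol_one, ← C_1] at h1
  have h3 : κ = 1 := by
    apply C_injective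
    exact (pol_injective (ℓ := ℓ) (f := f) h1).symm
  rw [← h2, h3, map_one]

lemma IsEps.pow {t : CommRing.Pic (CoordRing ℓ f)} {c : AdjoinRoot f} (h : IsEps hζ t c) :
    c ^ ℓ = 1 := by
  obtain ⟨T, z, -, h1, h2, -⟩ := h
  exact norm_eq_pow_of_rel h1 h2

lemma IsEps.norm {t : CommRing.Pic (CoordRing ℓ f)} {c : AdjoinRoot f} (h : IsEps hζ t c) :
    Algebra.norm F c = 1 := by
  obtain ⟨T, z, -, -, -, h3⟩ := h
  exact h3

lemma IsEps.one : IsEps hζ (1 : CommRing.Pic (CoordRing ℓ f)) 1 :=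
  ⟨1, 1, map_one _, Rel.one, nrm_one _ _, map_one _⟩

lemma IsEps.mul {t t' : CommRing.Pic (CoordRing ℓ f)} {c c' : AdjoinRoot f}
    (h : IsEps hζ t c) (h' : IsEps hζ t' c') : IsEps hζ (t * t') (c * c') := by
  obtain ⟨T, z, h1, h2, h3, h4⟩ := h
  obtain ⟨T', z', h1', h2', h3', h4'⟩ := h'
  exact ⟨T * T', z * z', by rw [map_mul, h1, h1'], h2.mul h2', by rw [nrm_mul, h3, h3', one_mul],
    by rw [map_mul, h4, h4', one_mul]⟩

lemma IsEps.exists_inv {t : CommRing.Pic (CoordRing ℓ f)} {c : AdjoinRoot f}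
    (h : IsEps hζ t c) : ∃ c', c * c' = 1 ∧ IsEps hζ t⁻¹ c' := by
  obtain ⟨T, z, h1, h2, h3, h4⟩ := h
  obtain ⟨c', h5, h6⟩ := h2.exists_inv
  refine ⟨c', h5, T⁻¹, z⁻¹, by rw [map_inv, h1], h6, ?_, ?_⟩
  · have h7 : z * z⁻¹ = 1 := mul_inv_cancel₀ h2.ne
    have h8 := congrArg (nrm (tauM hζ) ℓ) h7
    rwa [nrm_mul, h3, one_mul, nrm_one] at h8
  · have h8 := congrArg (Algebra.norm F) h5
    rwa [map_mul, h4, one_mul, map_one] at h8

lemma IsEps.of_representative {T : Dv ℓ f} {t : CommRing.Pic (CoordRing ℓ f)} {c : AdjoinRoot f}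
    (h : IsEps hζ t c) (hT : pcl T = t) :
    ∃ z, Rel hζ T z c ∧ nrm (tauM hζ) ℓ z = 1 := by
  obtain ⟨T', z, h1, h2, h3, h4⟩ := h
  obtain ⟨g, hg, hgT⟩ := (pcl_eq_iff T T').mp (by rw [hT, h1])
  refine ⟨g / tauM hζ g * z, ?_, ?_⟩
  · have := (Rel.prin (hζ := hζ) hg).mul h2
    rw [one_mul, ← hgT] at this
    exact this
  · rw [nrm_mul, h3, mul_one]
    have h5 : g / tauM hζ g * tauM hζ g = g := div_mul_cancel₀ _ (tauM_ne_zero hζ hg)
    have h6 := congrArg (nrm (tauM hζ) ℓ) h5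
    have h7 : nrm (tauM hζ) ℓ (tauM hζ g) = nrm (tauM hζ) ℓ g := by
      rw [← map_nrm', nrm_tau _ (tauM_iterate_ell hζ g)]
    rw [nrm_mul, h7] at h6
    exact mul_eq_right₀ (nrm_ne_zero (hζ := hζ) hg ℓ) |>.mp h6

lemma eq_one_of_pow {a : F} (h1 : a ^ ℓ = 1) (h2 : a ^ f.natDegree = 1) : a = 1 := by
  have h3 : orderOf a ∣ ℓ := orderOf_dvd_of_pow_eq_one h1
  have h4 : orderOf a ∣ f.natDegree := orderOf_dvd_of_pow_eq_one h2
  have h5 := Nat.dvd_gcd h3 h4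
  rw [Good.coprime (ℓ := ℓ) (f := f), Nat.dvd_one, orderOf_eq_one_iff] at h5
  exact h5

/-- Uniqueness of the normalised ratio for a given divisor. -/
lemma unique_of_rel {T : Dv ℓ f} {z z' : FF ℓ f} {c c' : AdjoinRoot f} (h : Rel hζ T z c)
    (h' : Rel hζ T z' c') (hN : nrm (tauM hζ) ℓ z = 1) (hN' : nrm (tauM hζ) ℓ z' = 1)
    (hc : Algebra.norm F c = 1) (hc' : Algebra.norm F c' = 1) : z = z' ∧ c = c' := by
  have h1 : prin z h.ne * tauU hζ T = prin z' h'.ne * tauU hζ T := by rw [h.eq, h'.eq]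
  have h2 : prin z h.ne = prin z' h'.ne := mul_right_cancel h1
  have h3 : prin (z' * z⁻¹) (mul_ne_zero h'.ne (inv_ne_zero h.ne)) = 1 := by
    rw [← prin_mul h'.ne (inv_ne_zero h.ne), ← prin_inv h.ne, h2, mul_inv_cancel]
  obtain ⟨a, ha, haz⟩ := (prin_eq_one_iff _).mp h3
  have h4 : z' = pol (C a) * z := by
    rw [← haz, mul_assoc, inv_mul_cancel₀ h.ne, mul_one]
  have h5 := h.scale ha
  rw [← h4] at h5
  have h6 : c' = AdjoinRoot.of f a * c := h'.unique h5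
  have h7 : a ^ f.natDegree = 1 := by
    have := congrArg (Algebra.norm F) h6
    rw [hc', map_mul, hc, mul_one, norm_of hf.monic] at this
    exact this.symm
  have h8 : a ^ ℓ = 1 := by
    have := congrArg (nrm (tauM hζ) ℓ) h4
    rw [hN', nrm_mul, hN, mul_one, nrm_of_fixed _ (tauM_pol hζ _), ← pol_pow, ← C_pow, ← pol_one,
      ← C_1] at this
    exact (C_injective (pol_injective (ℓ := ℓ) (f := f) this)).symm
  have h9 := eq_one_of_pow (ℓ := ℓ) (f := f) h8 h7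
  rw [h9, C_1, pol_one, one_mul] at h4
  rw [h9, map_one, one_mul] at h6
  exact ⟨h4.symm, h6.symm⟩

lemma IsEps.unique {t : CommRing.Pic (CoordRing ℓ f)} {c c' : AdjoinRoot f}
    (h : IsEps hζ t c) (h' : IsEps hζ t c') : c = c' := by
  obtain ⟨T, hT⟩ := pcl_surjective t
  obtain ⟨z, h1, h2⟩ := h.of_representative hT
  obtain ⟨z', h1', h2'⟩ := h'.of_representative hT
  exact (unique_of_rel h1 h1' h2 h2' h.norm h'.norm).2

lemma IsEps.eq_one {t : CommRing.Pic (CoordRing ℓ f)} (h : IsEps hζ t 1) : t = 1 := by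
  obtain ⟨T, z, h1, h2, h3, h4⟩ := h
  have h5 : Rel hζ T z (AdjoinRoot.of f 1) := by rwa [map_one]
  obtain ⟨a, ha, hT⟩ := principal_of_const h5
  rw [← h1, hT, pcl_prin]

lemma IsEps.injective {t t' : CommRing.Pic (CoordRing ℓ f)} {c : AdjoinRoot f}
    (h : IsEps hζ t c) (h' : IsEps hζ t' c) : t = t' := by
  obtain ⟨c', h1, h2⟩ := h'.exists_inv
  have h3 := h.mul h2
  rw [h1] at h3
  exact mul_inv_eq_one.mp h3.eq_one

/-- Existence of the invariant over a separably closed field. -/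
theorem exists_isEps [IsSepClosed F] {t : CommRing.Pic (CoordRing ℓ f)}
    (ht : tauPic hζ t = t) : ∃ c, IsEps hζ t c := by
  obtain ⟨T, hT⟩ := pcl_surjective t
  obtain ⟨z, hz, hzT⟩ := (pcl_eq_iff T (tauU hζ T)).mp (by rw [← tauPic_pcl, hT, ht])
  obtain ⟨c, hc⟩ := exists_rel (hζ := hζ) T hz hzT.symm
  obtain ⟨κ, hκ, hκ1, hκ2⟩ := hc.norm
  have : NeZero (ℓ : F) := ⟨ell_ne_zero hζ⟩
  obtain ⟨μ, hμ⟩ := IsSepClosed.exists_pow_nat_eq κ ℓ
  have hμ0 : μ ≠ 0 := by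
    rintro rfl
    rw [zero_pow hp.out.ne_zero] at hμ
    exact hκ hμ.symm
  have hc1 := hc.scale (inv_ne_zero hμ0)
  have hN1 : nrm (tauM hζ) ℓ (pol (C μ⁻¹) * z) = 1 := by
    rw [nrm_mul, hκ1, nrm_of_fixed _ (tauM_pol hζ _), ← pol_pow, ← pol_mul, ← C_pow, ← C_mul, ← hμ,
      inv_pow, inv_mul_cancel₀ (pow_ne_zero _ hμ0), C_1, pol_one]
  have hpow := norm_eq_pow_of_rel hc1 hN1
  set c₁ := AdjoinRoot.of f μ⁻¹ * c with hc₁
  have hν : (Algebra.norm F c₁) ^ ℓ = 1 := by rw [← map_pow, hpow, map_one]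
  obtain ⟨j, hj, hjν⟩ := hζ.eq_pow_of_pow_eq_one hν
  -- choose `i` with `n i + j ≡ 0 mod ℓ`
  obtain ⟨i, hi⟩ : ∃ i : ℕ, ℓ ∣ i * f.natDegree + j := by
    obtain ⟨m, -, hm⟩ := Nat.exists_mul_mod_eq_one_of_coprime
      (Nat.Coprime.symm (Good.coprime (ℓ := ℓ) (f := f))) hp.out.one_lt
    refine ⟨m * (ℓ - 1) * j, ?_⟩
    have h1 : m * (ℓ - 1) * j * f.natDegree + j =
        ((f.natDegree * m) * (ℓ - 1) + 1) * j := by ring
    rw [h1]
    apply Dvd.dvd.mul_right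
    have h2 := Nat.div_add_mod (f.natDegree * m) ℓ
    rw [hm] at h2
    rw [← h2]
    refine ⟨(f.natDegree * m / ℓ) * (ℓ - 1) + 1, ?_⟩
    have h3 : ℓ - 1 + 1 = ℓ := Nat.sub_add_cancel hp.out.one_le
    calc (ℓ * (f.natDegree * m / ℓ) + 1) * (ℓ - 1) + 1 =
        ℓ * ((f.natDegree * m / ℓ) * (ℓ - 1)) + (ℓ - 1 + 1) := by ring
      _ = ℓ * (f.natDegree * m / ℓ * (ℓ - 1) + 1) := by rw [h3]; ring
  have hζ0 : ζ ^ i ≠ 0 := pow_ne_zero _ (hζ.ne_zero hp.out.ne_zero)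
  refine ⟨AdjoinRoot.of f (ζ ^ i) * c₁, T, pol (C (ζ ^ i)) * (pol (C μ⁻¹) * z), hT,
    hc1.scale hζ0, ?_, ?_⟩
  · rw [nrm_mul, hN1, mul_one, nrm_of_fixed _ (tauM_pol hζ _), ← pol_pow, ← C_pow, ← pow_mul,
      mul_comm i ℓ, pow_mul, hζ.pow_eq_one, one_pow, C_1, pol_one]
  · rw [map_mul, norm_of hf.monic, ← hjν, ← pow_mul, ← pow_add]
    exact (hζ.pow_eq_one_iff_dvd _).mpr hi

section Map

variable {F' : Type v} [Field F'] (φ : F →+* F') {f' : F'[X]} [hf' : Good ℓ f']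
  (h : f.map φ = f') {ζ' : F'} (hζ' : IsPrimitiveRoot ζ' ℓ) (hφ : φ ζ = ζ')

include hφ in
lemma IsEps.map {t : CommRing.Pic (CoordRing ℓ f)} {c : AdjoinRoot f} (ht : IsEps hζ t c) :
    IsEps hζ' (CommRing.Pic.mapRingHom (coordMap ℓ φ h) t) (lamMap φ h c) := by
  obtain ⟨T, z, h1, h2, h3, h4⟩ := ht
  refine ⟨bcU φ h T, bcM φ h z, by rw [← mapRingHom_pcl, h1], h2.map φ h hζ hζ' hφ, ?_, ?_⟩
  · rw [← bcM_nrm φ h hζ hζ' hφ, h3, map_one]
  · rw [norm_lamMap φ h hf.monic, h4, map_one]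

end Map

end Pool.Agent.MP1bdb59C
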