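import Mathlib
import Pool.Agent.MP1bdb59.Stmt

/-!
# Sums over the cosets of an open subgroup of an absolute Galois group
-/

open Finset IntermediateField

noncomputable section

open scoped Classical

namespace Pool.Agent.MP1bdb59C

open Pool.Agent.MP1bdb59 (Sep AbsGal)

universe u v

section Group

variable {G : Type*} [Group G] (U : Subgroup G) [Finite (G ⧸ U)] {X : Type*} [AddCommMonoid X]

/-- The sum over representatives of the cosets of `U`. -/
def sumQ (Φ : G → X) : X :=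
  letI := Fintype.ofFinite (G ⧸ U)
  ∑ q : G ⧸ U, Φ q.out

variable {U}

omit [Finite (G ⧸ U)] in
lemma apply_out {X : Type*} {Φ : G → X} (hΦ : ∀ σ, ∀ u ∈ U, Φ (σ * u) = Φ σ) (σ : G) :
    Φ ((σ : G ⧸ U).out) = Φ σ := by
  obtain ⟨u, hu⟩ := QuotientGroup.mk_out_eq_mul U σ
  rw [hu]
  exact hΦ σ u u.2

lemma sumQ_mul {Φ : G → X} (hΦ : ∀ σ, ∀ u ∈ U, Φ (σ * u) = Φ σ) (ρ : G) :
    sumQ U (fun σ => Φ (ρ * σ)) = sumQ U Φ := by
  unfold sumQ
  let := Fintype.ofFinite (G ⧸ U)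
  refine Fintype.sum_equiv (MulAction.toPerm ρ) _ _ (fun q => ?_)
  rw [MulAction.toPerm_apply]
  have h1 : ρ • q = ((ρ * q.out : G) : G ⧸ U) := by
    conv_lhs => rw [← q.out_eq']
    rfl
  rw [h1, apply_out hΦ]

lemma sumQ_congr {Φ Ψ : G → X} (h : ∀ σ, Φ σ = Ψ σ) : sumQ U Φ = sumQ U Ψ := by
  unfold sumQ
  exact Finset.sum_congr rfl fun q _ => h _

lemma map_sumQ {Y : Type*} [AddCommMonoid Y] {H : Type*} [FunLike H X Y] [AddMonoidHomClass H X Y]
    (f : H) (Φ : G → X) : f (sumQ U Φ) = sumQ U (fun σ => f (Φ σ)) := by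
  unfold sumQ
  exact map_sum f _ _

lemma mul_sumQ {R : Type*} [Semiring R] (a : R) (Φ : G → R) :
    a * sumQ U Φ = sumQ U (fun σ => a * Φ σ) := by
  unfold sumQ
  exact Finset.mul_sum _ _ _

lemma sumQ_mul_right {R : Type*} [Semiring R] (a : R) (Φ : G → R) :
    sumQ U Φ * a = sumQ U (fun σ => Φ σ * a) := by
  unfold sumQ
  exact Finset.sum_mul _ _ _

lemma sumQ_sum {ι : Type*} (s : Finset ι) (Φ : ι → G → X) :
    ∑ i ∈ s, sumQ U (Φ i) = sumQ U (fun σ => ∑ i ∈ s, Φ i σ) := by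
  unfold sumQ
  exact Finset.sum_comm

omit [Finite (G ⧸ U)] in
lemma out_mem_iff (q : G ⧸ U) : q.out ∈ U ↔ q = ((1 : G) : G ⧸ U) := by
  have h1 : ((q.out : G) : G ⧸ U) = q := QuotientGroup.out_eq' q
  constructor
  · intro h
    rw [← h1, QuotientGroup.eq, mul_one]
    exact U.inv_mem h
  · intro h
    rw [← h1, QuotientGroup.eq, mul_one] at h
    exact U.inv_mem_iff.mp h

lemma sumQ_ite (Φ : G → X) (hΦ : ∀ σ, ∀ u ∈ U, Φ (σ * u) = Φ σ) :
    sumQ U (fun σ => if σ ∈ U then Φ σ else 0) = Φ 1 := by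
  unfold sumQ
  let := Fintype.ofFinite (G ⧸ U)
  rw [Finset.sum_eq_single ((1 : G) : G ⧸ U)]
  · exact (if_pos ((out_mem_iff _).mpr rfl)).trans (apply_out hΦ 1)
  · intro q _ hq
    exact if_neg fun h => hq ((out_mem_iff _).mp h)
  · intro h
    exact absurd (Finset.mem_univ _) h

end Group

section Field

variable {F : Type u} [Field F]

lemma finite_quot {U : Subgroup (AbsGal F)} (hU : IsOpen (U : Set (AbsGal F))) :
    Finite (AbsGal F ⧸ U) := by
  have : CompactSpace (AbsGal F) :=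
    (inferInstance : CompactSpace (SeparableClosure F ≃ₐ[F] SeparableClosure F))
  exact Subgroup.quotient_finite_of_isOpen U hU

/-- Dual bases for the fixed field of an open subgroup. -/
theorem exists_dual {U : Subgroup (AbsGal F)} (hU : IsOpen (U : Set (AbsGal F))) :
    ∃ (s : Finset (Sep F)) (l : Sep F → Sep F), (∀ κ ∈ s, ∀ u ∈ U, u κ = κ) ∧
      ∀ σ : AbsGal F, ∑ κ ∈ s, l κ * σ κ = if σ ∈ U then 1 else 0 := by
  have := finite_quot hU
  let := Fintype.ofFinite (AbsGal F ⧸ U)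
  let E : IntermediateField F (Sep F) := fixedField U
  have hEmem : ∀ κ : Sep F, κ ∈ E ↔ ∀ u ∈ U, u κ = κ := fun κ => mem_fixedField_iff _ _
  have hclosed : IsClosed (U : Set (AbsGal F)) := Subgroup.isClosed_of_isOpen U hU
  have hfix : E.fixingSubgroup = U :=
    InfiniteGalois.fixingSubgroup_fixedField (k := F) (K := Sep F) ⟨U, hclosed⟩
  -- the characters
  let χ : AbsGal F ⧸ U → (E →* Sep F) := fun q =>
    ((q.out : AbsGal F) : Sep F →* Sep F).comp (E.val : E →* Sep F)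
  have hχ : ∀ q κ, χ q κ = q.out (κ : Sep F) := fun q κ => rfl
  have hinj : Function.Injective χ := by
    intro q q' h
    have h1 : (q.out)⁻¹ * q'.out ∈ U := by
      have h10 : (q.out)⁻¹ * q'.out ∈ E.fixingSubgroup → (q.out)⁻¹ * q'.out ∈ U := fun hh =>
        (le_of_eq hfix) hh
      apply h10
      rw [IntermediateField.mem_fixingSubgroup_iff]
      intro x hx
      have h2 := DFunLike.congr_fun h ⟨x, hx⟩
      rw [hχ, hχ] at h2
      change (q.out)⁻¹ (q'.out x) = x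
      have h3 : q'.out x = q.out x := h2.symm
      rw [h3]
      change ((q.out)⁻¹ * q.out) x = x
      rw [inv_mul_cancel]
      rfl
    have h4 : ((q.out : AbsGal F) : AbsGal F ⧸ U) = ((q'.out : AbsGal F) : AbsGal F ⧸ U) :=
      QuotientGroup.eq.mpr h1
    rwa [QuotientGroup.out_eq', QuotientGroup.out_eq'] at h4
  have hli := (linearIndependent_monoidHom E (Sep F)).comp χ hinj
  rw [Fintype.linearIndependent_iff] at hli
  let v : E → (AbsGal F ⧸ U → Sep F) := fun κ q => χ q κ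
  have htop : Submodule.span (Sep F) (Set.range v) = ⊤ := by
    by_contra hne
    obtain ⟨φ, hφ0, hφ⟩ := Submodule.exists_le_ker_of_lt_top _ (lt_top_iff_ne_top.mpr hne)
    apply hφ0
    have h1 : ∀ w : AbsGal F ⧸ U → Sep F, φ w = ∑ q, w q * φ (Pi.single q 1) := by
      intro w
      conv_lhs => rw [← Finset.univ_sum_single w]
      rw [map_sum]
      refine Finset.sum_congr rfl fun q _ => ?_
      have h2 : (Pi.single q (w q) : AbsGal F ⧸ U → Sep F) = w q • Pi.single q 1 := by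
        rw [← Pi.single_smul]
        simp
      rw [h2, map_smul, smul_eq_mul]
    have h3 := hli (fun q => φ (Pi.single q 1)) (by
      funext κ
      rw [Finset.sum_apply]
      have h4 : v κ ∈ LinearMap.ker φ := hφ (Submodule.subset_span ⟨κ, rfl⟩)
      rw [LinearMap.mem_ker, h1] at h4
      rw [Pi.zero_apply, ← h4]
      refine Finset.sum_congr rfl fun q _ => ?_
      rw [Pi.smul_apply, smul_eq_mul, mul_comm]
      rfl)
    apply LinearMap.ext
    intro w
    rw [h1, LinearMap.zero_apply]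
    exact Finset.sum_eq_zero fun q _ => by rw [h3 q, mul_zero]
  have hmem : (Pi.single ((1 : AbsGal F) : AbsGal F ⧸ U) (1 : Sep F) : AbsGal F ⧸ U → Sep F) ∈
      Submodule.span (Sep F) (Set.range v) := by rw [htop]; trivial
  obtain ⟨c, hc⟩ := Finsupp.mem_span_range_iff_exists_finsupp.mp hmem
  refine ⟨c.support.map ⟨fun κ : E => (κ : Sep F), Subtype.val_injective⟩,
    fun κ => if h : κ ∈ E then c ⟨κ, h⟩ else 0, ?_, ?_⟩
  · intro κ hκ
    rw [Finset.mem_map] at hκ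
    obtain ⟨κ', -, rfl⟩ := hκ
    exact (hEmem _).mp κ'.2
  · intro σ
    rw [Finset.sum_map]
    have h1 := congrFun hc (σ : AbsGal F ⧸ U)
    rw [Finsupp.sum, Finset.sum_apply] at h1
    have h2 : (Pi.single ((1 : AbsGal F) : AbsGal F ⧸ U) (1 : Sep F) : AbsGal F ⧸ U → Sep F)
        (σ : AbsGal F ⧸ U) = if σ ∈ U then 1 else 0 := by
      rw [Pi.single_apply]
      have h3 : ((σ : AbsGal F ⧸ U) = ((1 : AbsGal F) : AbsGal F ⧸ U)) ↔ σ ∈ U := by
        rw [QuotientGroup.eq, mul_one]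
        exact U.inv_mem_iff
      by_cases h : σ ∈ U
      · rw [if_pos h, if_pos (h3.mpr h)]
      · rw [if_neg h, if_neg (fun h' => h (h3.mp h'))]
    rw [← h2, ← h1]
    refine Finset.sum_congr rfl fun κ _ => ?_
    have h4 : ((⟨fun κ : E => (κ : Sep F), Subtype.val_injective⟩ : E ↪ Sep F) κ) = (κ : Sep F) := rfl
    rw [h4, Pi.smul_apply, smul_eq_mul]
    have h5 : (fun κ => if h : κ ∈ E then c ⟨κ, h⟩ else 0) (κ : Sep F) = c κ := dif_pos κ.2
    rw [h5]
    congr 1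
    change σ (κ : Sep F) = ((σ : AbsGal F ⧸ U).out) (κ : Sep F)
    exact (apply_out (U := U) (Φ := fun τ : AbsGal F => τ (κ : Sep F)) (fun τ u hu => by
      change τ (u (κ : Sep F)) = τ (κ : Sep F)
      rw [(hEmem _).mp κ.2 u hu]) σ).symm

/-- An element of trace one. -/
theorem exists_trace_one {U : Subgroup (AbsGal F)} (hU : IsOpen (U : Set (AbsGal F)))
    [Finite (AbsGal F ⧸ U)] :
    ∃ κ : Sep F, (∀ u ∈ U, u κ = κ) ∧ sumQ U (fun σ => σ κ) = 1 := by
  obtain ⟨s, l, hs, hl⟩ := exists_dual hU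
  have hinv : ∀ κ : Sep F, (∀ u ∈ U, u κ = κ) → ∀ ρ : AbsGal F,
      ρ (sumQ U (fun σ => σ κ)) = sumQ U (fun σ => σ κ) := by
    intro κ hκ ρ
    rw [map_sumQ]
    exact sumQ_mul (Φ := fun σ : AbsGal F => σ κ) (fun σ u hu => by
      change σ (u κ) = σ κ
      rw [hκ u hu]) ρ
  have h1 : ∑ κ ∈ s, l κ * sumQ U (fun σ : AbsGal F => σ κ) = 1 := by
    have h2 : ∀ κ ∈ s, l κ * sumQ U (fun σ : AbsGal F => σ κ) =
        sumQ U (fun σ : AbsGal F => l κ * σ κ) := fun κ _ => mul_sumQ _ _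
    rw [Finset.sum_congr rfl h2, sumQ_sum, sumQ_congr hl,
      sumQ_ite (fun _ => (1 : Sep F)) (fun _ _ _ => rfl)]
  obtain ⟨κ, hκs, hκ⟩ : ∃ κ ∈ s, sumQ U (fun σ : AbsGal F => σ κ) ≠ 0 := by
    by_contra hcon
    push Not at hcon
    rw [Finset.sum_eq_zero (fun κ hκ => by rw [hcon κ hκ, mul_zero])] at h1
    exact zero_ne_one h1
  refine ⟨κ / sumQ U (fun σ : AbsGal F => σ κ), ?_, ?_⟩
  · intro u hu
    rw [map_div₀, hs κ hκs u hu, hinv κ (hs κ hκs)]
  · have h3 : ∀ σ : AbsGal F, σ (κ / sumQ U (fun σ : AbsGal F => σ κ)) =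
        σ κ * (sumQ U (fun σ : AbsGal F => σ κ))⁻¹ := by
      intro σ
      rw [map_div₀, hinv κ (hs κ hκs), div_eq_mul_inv]
    rw [sumQ_congr h3, ← sumQ_mul_right, mul_inv_cancel₀ hκ]

end Field

end Pool.Agent.MP1bdb59C
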