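import Mathlib
import Pool.Agent.MP1bdb59C.Quot
import Pool.Agent.MP1bdb59C.Eps

/-!
# The Galois action
-/

open Polynomial Finset Submodule

noncomputable section

open scoped Classical

set_option linter.unusedSectionVars false

namespace Pool.Agent.MP1bdb59C

open Pool.Agent.MP1bdb59 (Sep AbsGal)

universe u v w

section Comp

variable {A A' A'' : Type*} [CommRing A] [CommRing A'] [CommRing A''] (φ : A →+* A')
  (φ' : A' →+* A'') {g : A[X]} {g' : A'[X]} {g'' : A''[X]} (h : g.map φ = g')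
  (h' : g'.map φ' = g'') (h'' : g.map (φ'.comp φ) = g'')

lemma lamMap_comp (x : AdjoinRoot g) : lamMap φ' h' (lamMap φ h x) = lamMap (φ'.comp φ) h'' x := by
  obtain ⟨p, rfl⟩ := AdjoinRoot.mk_surjective x
  rw [lamMap_mk, lamMap_mk, lamMap_mk, Polynomial.map_map]

lemma lamMap_id (h : g.map (RingHom.id A) = g) (x : AdjoinRoot g) :
    lamMap (RingHom.id A) h x = x := by
  obtain ⟨p, rfl⟩ := AdjoinRoot.mk_surjective x
  rw [lamMap_mk, Polynomial.map_id]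

end Comp

section CompM

variable {F : Type*} [Field F] {F' : Type*} [Field F'] {F'' : Type*} [Field F'']
  (φ : F →+* F') (φ' : F' →+* F'') {ℓ : ℕ}
  [hp : Fact ℓ.Prime] {f : F[X]} {f' : F'[X]} {f'' : F''[X]} [hf : Good ℓ f] [hf' : Good ℓ f']
  [hf'' : Good ℓ f''] (h : f.map φ = f') (h' : f'.map φ' = f'') (h'' : f.map (φ'.comp φ) = f'')

lemma coordMap_comp' (r : CoordRing ℓ f) : coordMap ℓ φ' h' (coordMap ℓ φ h r) =
    coordMap ℓ (φ'.comp φ) h'' r := RingHom.congr_fun (coordMap_comp φ φ' h h' h'') r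

lemma bcM_comp (z : FF ℓ f) : bcM φ' h' (bcM φ h z) = bcM (φ'.comp φ) h'' z := by
  obtain ⟨a, b, hb, rfl⟩ := IsFractionRing.div_surjective (A := CoordRing ℓ f) z
  rw [map_div₀, map_div₀, map_div₀, bcM_alg, bcM_alg, bcM_alg, bcM_alg, bcM_alg, bcM_alg,
    coordMap_comp' φ φ' h h' h'', coordMap_comp' φ φ' h h' h'']

lemma bcM_id (h : f.map (RingHom.id F) = f) (z : FF ℓ f) : bcM (RingHom.id F) h z = z := by
  obtain ⟨a, b, hb, rfl⟩ := IsFractionRing.div_surjective (A := CoordRing ℓ f) z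
  rw [map_div₀, bcM_alg, bcM_alg, coordMap_id]
  rfl

lemma bcU_comp (T : Dv ℓ f) : bcU φ' h' (bcU φ h T) = bcU (φ'.comp φ) h'' T := by
  apply Units.ext
  apply le_antisymm
  · change push _ (push _ T.1) ≤ _
    rw [push_push, push_le]
    intro t ht
    rw [RingHom.comp_apply, bcM_comp φ φ' h h' h'']
    exact bcM_mem_bcU _ _ ht
  · rw [bcU_le]
    intro t ht
    rw [← bcM_comp φ φ' h h' h'']
    exact bcM_mem_bcU _ _ (bcM_mem_bcU _ _ ht)

lemma bcU_id (h : f.map (RingHom.id F) = f) (T : Dv ℓ f) : bcU (RingHom.id F) h T = T := by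
  apply Units.ext
  apply le_antisymm
  · rw [bcU_le]
    intro t ht
    rwa [bcM_id]
  · intro t ht
    rw [← bcM_id h t]
    exact bcM_mem_bcU _ _ ht

end CompM

/-- The ring homomorphism underlying an automorphism. -/
abbrev gr {F : Type u} [Field F] (σ : AbsGal F) : Sep F →+* Sep F := (σ : Sep F →+* Sep F)

variable {F : Type u} [Field F] {ℓ : ℕ} [hp : Fact ℓ.Prime] {g : F[X]} {gs : (Sep F)[X]}
  [hf : Good ℓ g] [hfs : Good ℓ gs] (hgs : g.map (algebraMap F (Sep F)) = gs)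
  {ζ : F} (hζ : IsPrimitiveRoot ζ ℓ) {ζs : Sep F} (hζs : IsPrimitiveRoot ζs ℓ)
  (hζζ : algebraMap F (Sep F) ζ = ζs)

include hgs in
omit hp hf hfs in
lemma map_gal (σ : AbsGal F) : gs.map (gr σ) = gs := by
  rw [← hgs, Polynomial.map_map]
  congr 1
  exact RingHom.ext fun x => σ.commutes x

/-- action on the coordinate ring -/
def aR (σ : AbsGal F) : CoordRing ℓ gs →+* CoordRing ℓ gs := coordMap ℓ (gr σ) (map_gal hgs σ)

/-- action on the function field -/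
def aM (σ : AbsGal F) : FF ℓ gs →+* FF ℓ gs := bcM (gr σ) (map_gal hgs σ)

/-- action on divisors -/
def aU (σ : AbsGal F) : Dv ℓ gs →* Dv ℓ gs := bcU (gr σ) (map_gal hgs σ)

/-- action on `F^s[x]/(f)` -/
def aL (σ : AbsGal F) : AdjoinRoot gs →+* AdjoinRoot gs := lamMap (gr σ) (map_gal hgs σ)

lemma aR_one (r : CoordRing ℓ gs) : aR hgs 1 r = r :=
  RingHom.congr_fun (coordMap_id (map_gal hgs 1)) r

lemma aM_one (z : FF ℓ gs) : aM hgs 1 z = z := bcM_id (map_gal hgs 1) z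

lemma aU_one (T : Dv ℓ gs) : aU hgs 1 T = T := bcU_id (map_gal hgs 1) T

lemma aL_one (x : AdjoinRoot gs) : aL hgs 1 x = x := lamMap_id (map_gal hgs 1) x

lemma aR_mul (σ τ : AbsGal F) (r : CoordRing ℓ gs) : aR hgs (σ * τ) r = aR hgs σ (aR hgs τ r) :=
  (coordMap_comp' (gr τ) (gr σ) _ _ (map_gal hgs (σ * τ)) r).symm

lemma aM_mul (σ τ : AbsGal F) (z : FF ℓ gs) : aM hgs (σ * τ) z = aM hgs σ (aM hgs τ z) :=
  (bcM_comp (gr τ) (gr σ) _ _ (map_gal hgs (σ * τ)) z).symm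

lemma aU_mul (σ τ : AbsGal F) (T : Dv ℓ gs) : aU hgs (σ * τ) T = aU hgs σ (aU hgs τ T) :=
  (bcU_comp (gr τ) (gr σ) _ _ (map_gal hgs (σ * τ)) T).symm

lemma aL_mul (σ τ : AbsGal F) (x : AdjoinRoot gs) : aL hgs (σ * τ) x = aL hgs σ (aL hgs τ x) :=
  (lamMap_comp (gr τ) (gr σ) _ _ (map_gal hgs (σ * τ)) x).symm

lemma aM_alg (σ : AbsGal F) (r : CoordRing ℓ gs) : aM hgs σ (algebraMap _ (FF ℓ gs) r) =
    algebraMap _ (FF ℓ gs) (aR hgs σ r) := bcM_alg _ _ r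

lemma aM_ne_zero (σ : AbsGal F) {z : FF ℓ gs} (hz : z ≠ 0) : aM hgs σ z ≠ 0 := by
  rwa [Ne, map_eq_zero]

include hζζ in
omit hp in
lemma gr_zeta (σ : AbsGal F) : gr σ ζs = ζs := by
  rw [← hζζ]
  exact σ.commutes ζ

include hζζ in
lemma aM_tau (σ : AbsGal F) (z : FF ℓ gs) :
    aM hgs σ (tauM hζs z) = tauM hζs (aM hgs σ z) :=
  bcM_tau _ _ hζs hζs (gr_zeta hζζ σ) z

include hζζ in
lemma aM_nrm (σ : AbsGal F) (n : ℕ) (z : FF ℓ gs) :
    aM hgs σ (nrm (tauM hζs) n z) = nrm (tauM hζs) n (aM hgs σ z) :=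
  bcM_nrm _ _ hζs hζs (gr_zeta hζζ σ) n z

include hζζ in
lemma aU_tau (σ : AbsGal F) (T : Dv ℓ gs) :
    aU hgs σ (tauU hζs T) = tauU hζs (aU hgs σ T) :=
  bcU_tau _ _ hζs hζs (gr_zeta hζζ σ) T

lemma aM_mem_aU (σ : AbsGal F) {T : Dv ℓ gs} {t : FF ℓ gs} (ht : t ∈ T.1) :
    aM hgs σ t ∈ (aU hgs σ T).1 := bcM_mem_bcU _ _ ht

lemma aU_prin (σ : AbsGal F) {z : FF ℓ gs} (hz : z ≠ 0) :
    aU hgs σ (prin z hz) = prin (aM hgs σ z) (aM_ne_zero hgs σ hz) := bcU_prin _ _ hz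

lemma aM_mem_one (σ : AbsGal F) {x : FF ℓ gs}
    (hx : x ∈ (1 : Submodule (CoordRing ℓ gs) (FF ℓ gs))) :
    aM hgs σ x ∈ (1 : Submodule (CoordRing ℓ gs) (FF ℓ gs)) := bcM_mem_one _ _ hx

lemma redM_aM (σ : AbsGal F) {x : FF ℓ gs}
    (hx : x ∈ (1 : Submodule (CoordRing ℓ gs) (FF ℓ gs))) :
    redM (aM hgs σ x) = aL hgs σ (redM x) := redM_bcM _ _ hx

lemma red_aR (σ : AbsGal F) (r : CoordRing ℓ gs) : red gs (aR hgs σ r) = aL hgs σ (red gs r) :=
  red_coordMap _ _ r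

lemma coef_aR (σ : AbsGal F) (r : CoordRing ℓ gs) (j : ℕ) :
    coef (aR hgs σ r) j = (coef r j).map (gr σ) := coef_coordMap _ _ r j

lemma aR_of (σ : AbsGal F) (p : (Sep F)[X]) :
    aR hgs σ (of gs p : CoordRing ℓ gs) = (of gs (p.map (gr σ)) : CoordRing ℓ gs) :=
  coordMap_of _ _ p

lemma aM_pol (σ : AbsGal F) (p : (Sep F)[X]) :
    aM hgs σ (pol p : FF ℓ gs) = pol (p.map (gr σ)) := bcM_pol _ _ p

section Fixed

omit hp hf hfs in
lemma exists_poly_of_fixed {p : (Sep F)[X]} (h : ∀ σ : AbsGal F, p.map (gr σ) = p) :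
    ∃ q : F[X], q.map (algebraMap F (Sep F)) = p := by
  rw [← mem_lifts, lifts_iff_coeff_lifts]
  intro n
  apply (InfiniteGalois.mem_range_algebraMap_iff_fixed (k := F) (K := Sep F) (p.coeff n)).mpr
  intro σ
  have := congrArg (fun q => q.coeff n) (h σ)
  rw [coeff_map] at this
  exact this

lemma exists_of_fixed {r : CoordRing ℓ gs} (h : ∀ σ, aR hgs σ r = r) :
    ∃ r₀ : CoordRing ℓ g, coordMap ℓ (algebraMap F (Sep F)) hgs r₀ = r := by
  have h1 : ∀ j, ∃ q : F[X], q.map (algebraMap F (Sep F)) = coef r j := by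
    intro j
    apply exists_poly_of_fixed
    intro σ
    rw [← coef_aR hgs, h]
  choose q hq using h1
  refine ⟨∑ j ∈ range ℓ, of g (q j) * yy ^ j, ?_⟩
  rw [map_sum]
  conv_rhs => rw [eq_sum r]
  refine Finset.sum_congr rfl fun j _ => ?_
  rw [map_mul, map_pow, coordMap_of, coordMap_yy, hq]

include hfs in
omit hp hf in
variable (ℓ) in
/-- Canonical representatives in `F^s[x]/(f)`. -/
lemma exists_rep : ∃ rep : AdjoinRoot gs → (Sep F)[X], (∀ x, AdjoinRoot.mk gs (rep x) = x) ∧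
    ∀ (σ : AbsGal F) x, rep (aL hgs σ x) = (rep x).map (gr σ) := by
  have hm : gs.Monic := Good.monic ℓ
  refine ⟨fun x => AdjoinRoot.modByMonicHom hm x, fun x => AdjoinRoot.mk_leftInverse hm x,
    fun σ x => ?_⟩
  obtain ⟨p, rfl⟩ := AdjoinRoot.mk_surjective x
  have h3 : aL hgs σ (AdjoinRoot.mk gs p) = AdjoinRoot.mk gs (p.map (gr σ)) := lamMap_mk _ _ p
  change AdjoinRoot.modByMonicHom hm _ =
    Polynomial.map (gr σ) (AdjoinRoot.modByMonicHom hm (AdjoinRoot.mk gs p))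
  rw [h3, AdjoinRoot.modByMonicHom_mk, AdjoinRoot.modByMonicHom_mk,
    Polynomial.map_modByMonic _ hm, map_gal hgs]

include hfs in
omit hp hf in
variable (ℓ) in
lemma exists_lam_of_fixed {x : AdjoinRoot gs} (h : ∀ σ, aL hgs σ x = x) :
    ∃ x₀ : AdjoinRoot g, lamMap (algebraMap F (Sep F)) hgs x₀ = x := by
  obtain ⟨rep, hrep1, hrep2⟩ := exists_rep ℓ hgs
  obtain ⟨q, hq⟩ := exists_poly_of_fixed (p := rep x) (fun σ => by rw [← hrep2, h])
  refine ⟨AdjoinRoot.mk g q, ?_⟩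
  rw [lamMap_mk, hq, hrep1]

end Fixed

section Smooth

omit hp hf hfs in
lemma exists_open_fix (s : Finset (Sep F)) : ∃ U : Subgroup (AbsGal F),
    IsOpen (U : Set (AbsGal F)) ∧ ∀ σ ∈ U, ∀ x ∈ s, σ x = x := by
  have : FiniteDimensional F (IntermediateField.adjoin F (s : Set (Sep F))) :=
    IntermediateField.finiteDimensional_adjoin (fun x _ => Algebra.IsIntegral.isIntegral x)
  refine ⟨(IntermediateField.adjoin F (s : Set (Sep F))).fixingSubgroup,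
    IntermediateField.fixingSubgroup_isOpen _, fun σ hσ x hx => ?_⟩
  rw [IntermediateField.mem_fixingSubgroup_iff] at hσ
  exact hσ x (IntermediateField.subset_adjoin F _ hx)

lemma smR (r : CoordRing ℓ gs) : ∃ U : Subgroup (AbsGal F),
    IsOpen (U : Set (AbsGal F)) ∧ ∀ σ ∈ U, aR hgs σ r = r := by
  obtain ⟨U, hU, hU'⟩ := exists_open_fix
    ((range ℓ).biUnion (fun j => ((coef r j).support.image (coef r j).coeff)))
  refine ⟨U, hU, fun σ hσ => ?_⟩
  apply coef_ext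
  intro j hj
  rw [coef_aR]
  ext n
  rw [coeff_map]
  by_cases hn : (coef r j).coeff n = 0
  · rw [hn, map_zero]
  · apply hU' σ hσ
    rw [Finset.mem_biUnion]
    exact ⟨j, Finset.mem_range.mpr hj, Finset.mem_image.mpr
      ⟨n, mem_support_iff.mpr hn, rfl⟩⟩

lemma smM (z : FF ℓ gs) : ∃ U : Subgroup (AbsGal F),
    IsOpen (U : Set (AbsGal F)) ∧ ∀ σ ∈ U, aM hgs σ z = z := by
  obtain ⟨a, b, hb, rfl⟩ := IsFractionRing.div_surjective (A := CoordRing ℓ gs) z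
  obtain ⟨U, hU, hU'⟩ := smR hgs a
  obtain ⟨V, hV, hV'⟩ := smR hgs b
  refine ⟨U ⊓ V, hU.inter hV, fun σ hσ => ?_⟩
  rw [map_div₀, aM_alg, aM_alg, hU' σ hσ.1, hV' σ hσ.2]

lemma smU (T : Dv ℓ gs) : ∃ U : Subgroup (AbsGal F),
    IsOpen (U : Set (AbsGal F)) ∧ ∀ σ ∈ U, aU hgs σ T = T := by
  obtain ⟨S, hS⟩ := Submodule.fg_unit T
  have key : ∀ S : Finset (FF ℓ gs), ∃ U : Subgroup (AbsGal F),
      IsOpen (U : Set (AbsGal F)) ∧ ∀ σ ∈ U, ∀ t ∈ S, aM hgs σ t = t := by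
    intro S
    induction S using Finset.induction_on with
    | empty => exact ⟨⊤, isOpen_univ, fun σ _ t ht => absurd ht (Finset.notMem_empty t)⟩
    | insert t S _ ih =>
      obtain ⟨U, hU, hU'⟩ := ih
      obtain ⟨V, hV, hV'⟩ := smM hgs t
      refine ⟨U ⊓ V, hU.inter hV, fun σ hσ s hs => ?_⟩
      rcases Finset.mem_insert.mp hs with rfl | hs
      · exact hV' σ hσ.2
      · exact hU' σ hσ.1 s hs
  obtain ⟨U, hU, hU'⟩ := key S
  refine ⟨U, hU, fun σ hσ => ?_⟩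
  apply Units.ext
  apply le_antisymm
  · change push _ T.1 ≤ T.1
    rw [push_le]
    intro t ht
    rw [← hS] at ht
    induction ht using Submodule.span_induction with
    | mem x hx =>
      have h1 : aM hgs σ x = x := hU' σ hσ x hx
      change aM hgs σ x ∈ T.1
      rw [h1, ← hS]
      exact subset_span hx
    | zero => rw [map_zero]; exact Submodule.zero_mem _
    | add x y _ _ hx hy => rw [map_add]; exact Submodule.add_mem _ hx hy
    | smul r x _ hx =>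
      rw [Algebra.smul_def, map_mul, bcM_alg, ← Algebra.smul_def]
      exact Submodule.smul_mem _ _ hx
  · rw [← hS, span_le]
    intro t ht
    have h1 : aM hgs σ t = t := hU' σ hσ t ht
    rw [SetLike.mem_coe, ← h1]
    apply aM_mem_aU
    rw [← hS]
    exact subset_span ht

end Smooth

section Pic

/-- action on the Picard group. -/
def aP (σ : AbsGal F) : CommRing.Pic (CoordRing ℓ gs) →* CommRing.Pic (CoordRing ℓ gs) :=
  CommRing.Pic.mapRingHom (aR hgs σ)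

lemma aP_pcl (σ : AbsGal F) (T : Dv ℓ gs) : aP hgs σ (pcl T) = pcl (aU hgs σ T) :=
  mapRingHom_pcl _ _ T

lemma aP_one (t : CommRing.Pic (CoordRing ℓ gs)) : aP hgs 1 t = t := by
  obtain ⟨T, rfl⟩ := pcl_surjective t
  rw [aP_pcl, aU_one]

lemma aP_mul (σ τ : AbsGal F) (t : CommRing.Pic (CoordRing ℓ gs)) :
    aP hgs (σ * τ) t = aP hgs σ (aP hgs τ t) := by
  obtain ⟨T, rfl⟩ := pcl_surjective t
  rw [aP_pcl, aP_pcl, aP_pcl, aU_mul]

lemma smP (t : CommRing.Pic (CoordRing ℓ gs)) : ∃ U : Subgroup (AbsGal F),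
    IsOpen (U : Set (AbsGal F)) ∧ ∀ σ ∈ U, aP hgs σ t = t := by
  obtain ⟨T, rfl⟩ := pcl_surjective t
  obtain ⟨U, hU, hU'⟩ := smU hgs T
  exact ⟨U, hU, fun σ hσ => by rw [aP_pcl, hU' σ hσ]⟩

include hζζ in
lemma aP_tau (σ : AbsGal F) (t : CommRing.Pic (CoordRing ℓ gs)) :
    aP hgs σ (tauPic hζs t) = tauPic hζs (aP hgs σ t) := by
  obtain ⟨T, rfl⟩ := pcl_surjective t
  rw [aP_pcl, tauPic_pcl, tauPic_pcl, aP_pcl, aU_tau hgs hζs hζζ]

include hζζ in
lemma IsEps.gal {t : CommRing.Pic (CoordRing ℓ gs)} {c : AdjoinRoot gs} (h : IsEps hζs t c)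
    (σ : AbsGal F) : IsEps hζs (aP hgs σ t) (aL hgs σ c) :=
  h.map (gr σ) (map_gal hgs σ) hζs (gr_zeta hζζ σ)

end Pic

end Pool.Agent.MP1bdb59C
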