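import Mathlib
import Pool.Agent.MP1bdb59C.Gal

/-!
# Galois descent for ideals
-/

open Polynomial Finset Submodule

noncomputable section

open scoped Classical

set_option linter.unusedSectionVars false

namespace Pool.Agent.MP1bdb59C

open Pool.Agent.MP1bdb59 (Sep AbsGal)

universe u v w

section LamInj

variable {F : Type*} [Field F] {F' : Type*} [Field F'] (φ : F →+* F') {f : F[X]} {f' : F'[X]}
  (h : f.map φ = f')

lemma lamMap_injective (hf : f.Monic) : Function.Injective (lamMap φ h) := by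
  rw [injective_iff_map_eq_zero]
  intro x hx
  obtain ⟨p, rfl⟩ := AdjoinRoot.mk_surjective x
  rw [lamMap_mk, AdjoinRoot.mk_eq_zero, ← h] at hx
  rw [AdjoinRoot.mk_eq_zero]
  exact (Polynomial.map_dvd_map φ φ.injective hf).mp hx

end LamInj

variable {F : Type u} [Field F] {ℓ : ℕ} [hp : Fact ℓ.Prime] {g : F[X]} {gs : (Sep F)[X]}
  [hf : Good ℓ g] [hfs : Good ℓ gs] (hgs : g.map (algebraMap F (Sep F)) = gs)
  {ζ : F} (hζ : IsPrimitiveRoot ζ ℓ) {ζs : Sep F} (hζs : IsPrimitiveRoot ζs ℓ)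
  (hζζ : algebraMap F (Sep F) ζ = ζs)

/-- The map from the coordinate ring over `F` to the function field over `F^s`. -/
def toMs : CoordRing ℓ g →+* FF ℓ gs :=
  (algebraMap (CoordRing ℓ gs) (FF ℓ gs)).comp (coordMap ℓ (algebraMap F (Sep F)) hgs)

lemma toMs_apply (r : CoordRing ℓ g) : toMs hgs r =
    algebraMap (CoordRing ℓ gs) (FF ℓ gs) (coordMap ℓ (algebraMap F (Sep F)) hgs r) := rfl

lemma toMs_injective : Function.Injective (toMs (ℓ := ℓ) hgs) :=
  (IsFractionRing.injective (CoordRing ℓ gs) (FF ℓ gs)).comp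
    (coordMap_injective (algebraMap F (Sep F)).injective hgs)

lemma aM_toMs (σ : AbsGal F) (r : CoordRing ℓ g) : aM hgs σ (toMs hgs r) = toMs hgs r := by
  rw [toMs_apply, aM_alg]
  congr 1
  have h1 : (gr σ).comp (algebraMap F (Sep F)) = algebraMap F (Sep F) :=
    RingHom.ext fun x => σ.commutes x
  have h2 : g.map ((gr σ).comp (algebraMap F (Sep F))) = gs := by rw [h1, hgs]
  have h3 := coordMap_comp' (ℓ := ℓ) (algebraMap F (Sep F)) (gr σ) hgs (map_gal hgs σ) h2 r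
  have h4 : ∀ (φ : F →+* Sep F) (h5 : φ = algebraMap F (Sep F)) (h6 : g.map φ = gs),
      coordMap ℓ φ h6 r = coordMap ℓ (algebraMap F (Sep F)) hgs r := by
    rintro _ rfl h6
    rfl
  exact h3.trans (h4 _ h1 h2)

lemma exists_toMs_of_fixed {x : FF ℓ gs} (hx : x ∈ (1 : Submodule (CoordRing ℓ gs) (FF ℓ gs)))
    (h : ∀ σ, aM hgs σ x = x) : ∃ r : CoordRing ℓ g, toMs hgs r = x := by
  obtain ⟨s, rfl⟩ := mem_one'.mp hx
  obtain ⟨r, hr⟩ := exists_of_fixed hgs (r := s) (fun σ => by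
    apply IsFractionRing.injective (CoordRing ℓ gs) (FF ℓ gs)
    rw [← aM_alg hgs, h])
  exact ⟨r, by rw [toMs_apply, hr]⟩

/-- Averages: the element `∑ σ(κ) σ(x)`. -/
def avg (U : Subgroup (AbsGal F)) [Finite (AbsGal F ⧸ U)] (κ : Sep F) (x : FF ℓ gs) : FF ℓ gs :=
  sumQ U (fun σ => pol (C (σ κ)) * aM hgs σ x)

lemma avg_fixed {U : Subgroup (AbsGal F)} [Finite (AbsGal F ⧸ U)] {κ : Sep F}
    (hκ : ∀ u ∈ U, u κ = κ) {x : FF ℓ gs} (hx : ∀ u ∈ U, aM hgs u x = x) (τ : AbsGal F) :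
    aM hgs τ (avg hgs U κ x) = avg hgs U κ x := by
  unfold avg
  rw [map_sumQ]
  have h1 : ∀ σ : AbsGal F, aM hgs τ (pol (C (σ κ)) * aM hgs σ x) =
      pol (C ((τ * σ) κ)) * aM hgs (τ * σ) x := by
    intro σ
    rw [map_mul, aM_pol, map_C, aM_mul]
    rfl
  rw [sumQ_congr h1]
  exact sumQ_mul (Φ := fun σ : AbsGal F => pol (C (σ κ)) * aM hgs σ x) (fun σ u hu => by
    have h2 : (σ * u) κ = σ κ := by
      change σ (u κ) = σ κ
      rw [hκ u hu]
    simp only [h2, aM_mul, hx u hu]) τ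

lemma sumQ_mem {U : Subgroup (AbsGal F)} [Finite (AbsGal F ⧸ U)]
    {S : Submodule (CoordRing ℓ gs) (FF ℓ gs)} {Φ : AbsGal F → FF ℓ gs} (h : ∀ σ, Φ σ ∈ S) :
    sumQ U Φ ∈ S := by
  unfold sumQ
  exact Submodule.sum_mem _ fun q _ => h _

lemma avg_mem {U : Subgroup (AbsGal F)} [Finite (AbsGal F ⧸ U)] (κ : Sep F) {x : FF ℓ gs}
    {S : Submodule (CoordRing ℓ gs) (FF ℓ gs)} (h : ∀ σ, aM hgs σ x ∈ S) :
    avg hgs U κ x ∈ S :=
  sumQ_mem fun σ => mul_mem_of_mem_one (pol_mem_one _) (h σ)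

lemma redM_sumQ {U : Subgroup (AbsGal F)} [Finite (AbsGal F ⧸ U)] {Φ : AbsGal F → FF ℓ gs}
    (h : ∀ σ, Φ σ ∈ (1 : Submodule (CoordRing ℓ gs) (FF ℓ gs))) :
    redM (sumQ U Φ) = sumQ U (fun σ => redM (Φ σ)) := by
  unfold sumQ
  have key : ∀ s : Finset (AbsGal F ⧸ U), ∑ q ∈ s, Φ q.out ∈
      (1 : Submodule (CoordRing ℓ gs) (FF ℓ gs)) ∧
      redM (∑ q ∈ s, Φ q.out) = ∑ q ∈ s, redM (Φ q.out) := by
    intro s
    induction s using Finset.induction_on with
    | empty =>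
      rw [Finset.sum_empty, Finset.sum_empty]
      exact ⟨Submodule.zero_mem _, redM_zero⟩
    | insert q s hq ih =>
      rw [Finset.sum_insert hq, Finset.sum_insert hq, redM_add (h _) ih.1, ih.2]
      exact ⟨Submodule.add_mem _ (h _) ih.1, rfl⟩
  exact (key _).2

lemma redM_avg {U : Subgroup (AbsGal F)} [Finite (AbsGal F ⧸ U)] (κ : Sep F)
    (hκ : sumQ U (fun σ : AbsGal F => σ κ) = 1) {x : FF ℓ gs}
    (hx : x ∈ (1 : Submodule (CoordRing ℓ gs) (FF ℓ gs))) (hred : redM x = 1) :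
    redM (avg hgs U κ x) = 1 := by
  unfold avg
  rw [redM_sumQ (fun σ => mul_mem_one (pol_mem_one _) (aM_mem_one hgs σ hx))]
  have h1 : ∀ σ : AbsGal F, redM (pol (C (σ κ)) * aM hgs σ x) = AdjoinRoot.of gs (σ κ) := by
    intro σ
    rw [redM_mul (pol_mem_one _) (aM_mem_one hgs σ hx), redM_pol, AdjoinRoot.mk_C,
      redM_aM hgs σ hx, hred, map_one, mul_one]
  rw [sumQ_congr h1, ← map_sumQ (AdjoinRoot.of gs) (fun σ : AbsGal F => σ κ), hκ, map_one]

/-- extension of an ideal of the coordinate ring over `F`. -/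
def extI (J : Ideal (CoordRing ℓ g)) : Submodule (CoordRing ℓ gs) (FF ℓ gs) :=
  span _ (toMs hgs '' (J : Set (CoordRing ℓ g)))

lemma mem_extI {J : Ideal (CoordRing ℓ g)} {r : CoordRing ℓ g} (hr : r ∈ J) :
    toMs hgs r ∈ extI hgs J := subset_span ⟨r, hr, rfl⟩

lemma extI_le {J : Ideal (CoordRing ℓ g)} {S : Submodule (CoordRing ℓ gs) (FF ℓ gs)} :
    extI hgs J ≤ S ↔ ∀ r ∈ J, toMs hgs r ∈ S := by
  unfold extI
  rw [span_le]
  constructor
  · intro H t ht
    exact H ⟨t, ht, rfl⟩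
  · rintro H _ ⟨t, ht, rfl⟩
    exact H t ht

lemma toMs_smul (r : CoordRing ℓ g) (x : FF ℓ gs) :
    toMs hgs r * x = coordMap ℓ (algebraMap F (Sep F)) hgs r • x := by
  rw [Algebra.smul_def]
  rfl

lemma extI_mul (I J : Ideal (CoordRing ℓ g)) : extI hgs (I * J) = extI hgs I * extI hgs J := by
  apply le_antisymm
  · rw [extI_le]
    intro r hr
    refine Submodule.mul_induction_on hr (fun a ha b hb => ?_) (fun x y hx hy => ?_)
    · rw [map_mul]
      exact Submodule.mul_mem_mul (mem_extI hgs ha) (mem_extI hgs hb)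
    · rw [map_add]
      exact Submodule.add_mem _ hx hy
  · unfold extI
    rw [span_mul_span, span_le]
    rintro _ ⟨_, ⟨a, ha, rfl⟩, _, ⟨b, hb, rfl⟩, rfl⟩
    exact subset_span ⟨a * b, Ideal.mul_mem_mul ha hb, map_mul _ a b⟩

lemma extI_top : extI hgs (⊤ : Ideal (CoordRing ℓ g)) = 1 := by
  apply le_antisymm
  · rw [extI_le]
    intro r _
    exact alg_mem_one _
  · rw [Submodule.one_le]
    have := mem_extI hgs (J := (⊤ : Ideal (CoordRing ℓ g))) (r := 1) trivial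
    rwa [map_one] at this

omit hf in
/-- `τ` on ideals. -/
def tauI : Ideal (CoordRing ℓ g) →+* Ideal (CoordRing ℓ g) :=
  Ideal.mapHom (tau hζ.pow_eq_one g)

omit hf in
lemma tauI_apply (I : Ideal (CoordRing ℓ g)) : tauI hζ I = I.map (tau hζ.pow_eq_one g) := rfl

lemma toMs_tau (hζζ : algebraMap F (Sep F) ζ = ζs) (r : CoordRing ℓ g) :
    toMs hgs (tau hζ.pow_eq_one g r) = tauM hζs (toMs hgs r) := by
  rw [toMs_apply, toMs_apply, tauM_alg, coordMap_tau _ hgs hζ.pow_eq_one hζs.pow_eq_one hζζ]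

include hζζ in
lemma extI_tau (I : Ideal (CoordRing ℓ g)) :
    extI hgs (tauI hζ I) = tauS hζs (extI hgs I) := by
  apply le_antisymm
  · have h1 : I.map (tau hζ.pow_eq_one g) ≤
        Ideal.comap (coordMap ℓ (algebraMap F (Sep F)) hgs)
          (Submodule.comap (Algebra.linearMap (CoordRing ℓ gs) (FF ℓ gs))
            (tauS hζs (extI hgs I))) := by
      rw [Ideal.map_le_iff_le_comap]
      intro y hy
      change toMs hgs (tau hζ.pow_eq_one g y) ∈ tauS hζs (extI hgs I)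
      rw [toMs_tau hgs hζ hζs hζζ]
      exact tauM_mem_tauS hζs (mem_extI hgs hy)
    rw [extI_le]
    intro r hr
    exact h1 hr
  · intro x hx
    obtain ⟨t, ht, rfl⟩ := (mem_tauS hζs).mp hx
    clear hx
    unfold extI at ht
    induction ht using Submodule.span_induction with
    | mem x hx =>
      obtain ⟨y, hy, rfl⟩ := hx
      rw [← toMs_tau hgs hζ hζs hζζ]
      exact mem_extI hgs (Ideal.mem_map_of_mem _ hy)
    | zero => rw [map_zero]; exact Submodule.zero_mem _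
    | add x y hx' hy' hx hy =>
      rw [map_add]
      exact Submodule.add_mem _ hx hy
    | smul r x hx' hx =>
      rw [Algebra.smul_def, map_mul, tauM_alg, ← Algebra.smul_def]
      exact Submodule.smul_mem _ _ hx

include hζζ in
lemma extI_nrm (I : Ideal (CoordRing ℓ g)) (n : ℕ) :
    extI hgs (nrm (tauI hζ) n I) = nrm (tauS hζs) n (extI hgs I) := by
  induction n with
  | zero =>
    rw [nrm, nrm, Finset.range_zero, Finset.prod_empty, Finset.prod_empty, Ideal.one_eq_top]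
    exact extI_top hgs
  | succ n ih =>
    rw [nrm_succ, nrm_succ, extI_mul, extI_tau hgs hζ hζs hζζ, ih]

/-- **Descent, contraction of an extended ideal.** -/
lemma mem_of_toMs_mem_extI {J : Ideal (CoordRing ℓ g)} {r : CoordRing ℓ g}
    (h : toMs hgs r ∈ extI hgs J) : r ∈ J := by
  have key : ∀ x ∈ extI hgs J, ∀ s : CoordRing ℓ gs, ∃ U : Subgroup (AbsGal F),
      IsOpen (U : Set (AbsGal F)) ∧
      ∀ (V : Subgroup (AbsGal F)) (_ : Finite (AbsGal F ⧸ V)), V ≤ U → ∀ κ : Sep F,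
        (∀ u ∈ V, u κ = κ) →
          ∃ j ∈ J, avg hgs V κ (algebraMap _ (FF ℓ gs) s * x) = toMs hgs j := by
    intro x hx
    unfold extI at hx
    induction hx using Submodule.span_induction with
    | mem x hx =>
      intro s
      obtain ⟨j, hj, rfl⟩ := hx
      obtain ⟨U, hU, hU'⟩ := smR hgs s
      refine ⟨U, hU, fun V hV hVU κ hκ => ?_⟩
      have hs : ∀ u ∈ V, aM hgs u (algebraMap _ (FF ℓ gs) s) = algebraMap _ (FF ℓ gs) s := by
        intro u hu
        rw [aM_alg, hU' u (hVU hu)]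
      obtain ⟨t, ht⟩ := exists_toMs_of_fixed hgs
        (x := avg hgs V κ (algebraMap _ (FF ℓ gs) s))
        (avg_mem hgs κ (fun σ => aM_mem_one hgs σ (alg_mem_one s)))
        (fun σ => avg_fixed hgs hκ hs σ)
      refine ⟨t * j, J.mul_mem_left t hj, ?_⟩
      rw [map_mul, ht]
      unfold avg
      rw [sumQ_mul_right]
      refine sumQ_congr fun σ => ?_
      rw [map_mul, aM_toMs, mul_assoc]
    | zero =>
      intro s
      refine ⟨⊤, isOpen_univ, fun V _ _ κ _ => ⟨0, J.zero_mem, ?_⟩⟩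
      unfold avg sumQ
      simp only [mul_zero, map_zero, Finset.sum_const_zero]
    | add x y _ _ hx hy =>
      intro s
      obtain ⟨U, hU, hU'⟩ := hx s
      obtain ⟨U₂, hU₂, hU₂'⟩ := hy s
      refine ⟨U ⊓ U₂, hU.inter hU₂, fun V hV hVU κ hκ => ?_⟩
      obtain ⟨j, hj, hj'⟩ := hU' V hV (hVU.trans inf_le_left) κ hκ
      obtain ⟨j₂, hj₂, hj₂'⟩ := hU₂' V hV (hVU.trans inf_le_right) κ hκ
      refine ⟨j + j₂, J.add_mem hj hj₂, ?_⟩
      rw [map_add, ← hj', ← hj₂']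
      unfold avg sumQ
      rw [← Finset.sum_add_distrib]
      refine Finset.sum_congr rfl fun q _ => ?_
      simp only [mul_add, map_add]
    | smul r x _ hx =>
      intro s
      have h1 : algebraMap _ (FF ℓ gs) s * (r • x) = algebraMap _ (FF ℓ gs) (s * r) * x := by
        rw [Algebra.smul_def, map_mul, mul_assoc]
      rw [h1]
      exact hx (s * r)
  obtain ⟨U, hU, hU'⟩ := key _ h 1
  rw [map_one, one_mul] at hU'
  have hfin := finite_quot hU
  obtain ⟨κ, hκ, hκ'⟩ := exists_trace_one hU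
  obtain ⟨j, hj, hj'⟩ := hU' U hfin le_rfl κ hκ
  have h1 : avg hgs U κ (toMs hgs r) = toMs hgs r := by
    unfold avg
    have h2 : ∀ σ : AbsGal F, (pol (C (σ κ)) : FF ℓ gs) * aM hgs σ (toMs hgs r) =
        pol (C (σ κ)) * toMs hgs r := fun σ => by rw [aM_toMs]
    rw [sumQ_congr h2, ← sumQ_mul_right]
    let ψ : Sep F →+* FF ℓ gs :=
      ((algebraMap (CoordRing ℓ gs) (FF ℓ gs)).comp (of gs)).comp C
    have h3 : sumQ U (fun σ : AbsGal F => (pol (C (σ κ)) : FF ℓ gs)) = 1 := by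
      have h4 := map_sumQ (U := U) ψ (fun σ : AbsGal F => σ κ)
      rw [hκ', map_one] at h4
      exact h4.symm
    rw [h3, one_mul]
  rw [h1] at hj'
  rwa [toMs_injective hgs hj']

/-- **Descent, a Galois invariant ideal is generated by its invariants.** -/
lemma le_extI_of_invariant {A : Dv ℓ gs} (hA : A.1 ≤ 1) (hinv : ∀ σ, aU hgs σ A = A)
    (J : Ideal (CoordRing ℓ g)) (hJ : ∀ r, toMs hgs r ∈ A.1 → r ∈ J) : A.1 ≤ extI hgs J := by
  intro x hx
  obtain ⟨U, hU, hU'⟩ := smM hgs x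
  have hfin := finite_quot hU
  obtain ⟨s, l, hs, hl⟩ := exists_dual hU
  have hσx : ∀ σ, aM hgs σ x ∈ A.1 := by
    intro σ
    have h1 := aM_mem_aU hgs σ hx
    rwa [hinv] at h1
  have hx' : x = ∑ κ ∈ s, pol (C (l κ)) * avg hgs U κ x := by
    have h1 : ∀ κ ∈ s, pol (C (l κ)) * avg hgs U κ x =
        sumQ U (fun σ : AbsGal F => pol (C (l κ * σ κ)) * aM hgs σ x) := by
      intro κ _
      unfold avg
      rw [mul_sumQ]
      exact sumQ_congr fun σ => by rw [C_mul, pol_mul, mul_assoc]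
    rw [Finset.sum_congr rfl h1, sumQ_sum]
    have h2 : ∀ σ : AbsGal F, ∑ κ ∈ s, pol (C (l κ * σ κ)) * aM hgs σ x =
        if σ ∈ U then aM hgs σ x else 0 := by
      intro σ
      let ψ : Sep F →+* FF ℓ gs :=
        ((algebraMap (CoordRing ℓ gs) (FF ℓ gs)).comp (of gs)).comp C
      have h3 : ∑ κ ∈ s, (pol (C (l κ * σ κ)) : FF ℓ gs) = ψ (∑ κ ∈ s, l κ * σ κ) := by
        rw [map_sum]
        rfl
      rw [← Finset.sum_mul, h3, hl σ]
      split_ifs
      · rw [map_one, one_mul]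
      · rw [map_zero, zero_mul]
    rw [sumQ_congr h2, sumQ_ite (fun σ => aM hgs σ x) (fun σ u hu => by
      rw [aM_mul, hU' u hu]), aM_one]
  rw [hx']
  refine Submodule.sum_mem _ fun κ hκ => mul_mem_of_mem_one (pol_mem_one _) ?_
  have h4 : avg hgs U κ x ∈ A.1 := avg_mem hgs κ hσx
  obtain ⟨r, hr⟩ := exists_toMs_of_fixed hgs (hA h4) (fun σ => avg_fixed hgs (hs κ hκ) hU' σ)
  rw [← hr]
  apply mem_extI
  apply hJ
  rw [hr]
  exact h4

end Pool.Agent.MP1bdb59C
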