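import Mathlib
import Pool.Agent.MP1bdb59C.Desc

/-!
# `A[x]/(f)` and `K[x]/(f)`
-/

open Polynomial

noncomputable section

namespace Pool.Agent.MP1bdb59C

lemma lamMap_of' {A A' : Type*} [CommRing A] [CommRing A'] (φ : A →+* A') {f : A[X]} {f' : A'[X]}
    (h : f.map φ = f') (a : A) :
    lamMap φ h (AdjoinRoot.of f a) = AdjoinRoot.of f' (φ a) := by
  rw [← AdjoinRoot.mk_C, ← AdjoinRoot.mk_C, lamMap_mk, map_C]

section

variable {A K : Type*} [CommRing A] [IsDomain A] [Field K] [Algebra A K] [IsFractionRing A K]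
  {f : A[X]} {g : K[X]} (hg : f.map (algebraMap A K) = g)

omit [IsDomain A] in
lemma lamMap_inj (hf : f.Monic) : Function.Injective (lamMap (algebraMap A K) hg) := by
  rw [injective_iff_map_eq_zero]
  intro x hx
  obtain ⟨p, rfl⟩ := AdjoinRoot.mk_surjective x
  rw [lamMap_mk, AdjoinRoot.mk_eq_zero, ← hg] at hx
  rw [AdjoinRoot.mk_eq_zero]
  exact (Polynomial.map_dvd_map _ (IsFractionRing.injective A K) hf).mp hx

/-- `K[x]/(f)` is the total ring of fractions of `A[x]/(f)`. -/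
lemma isFractionRing_adjoinRoot [IsDomain (AdjoinRoot f)] (hf : f.Monic) (hirr : Irreducible g)
    [Algebra (AdjoinRoot f) (AdjoinRoot g)]
    (halg : ∀ x, algebraMap (AdjoinRoot f) (AdjoinRoot g) x = lamMap (algebraMap A K) hg x) :
    IsFractionRing (AdjoinRoot f) (AdjoinRoot g) := by
  have := Fact.mk hirr
  have hinj : Function.Injective (algebraMap (AdjoinRoot f) (AdjoinRoot g)) := by
    intro x y h
    rw [halg, halg] at h
    exact lamMap_inj hg hf h
  have htf : FaithfulSMul (AdjoinRoot f) (AdjoinRoot g) :=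
    (faithfulSMul_iff_algebraMap_injective _ _).mpr hinj
  refine IsFractionRing.of_field (AdjoinRoot f) (AdjoinRoot g) fun z => ?_
  obtain ⟨q, rfl⟩ := AdjoinRoot.mk_surjective z
  obtain ⟨b, hbm, hb⟩ := IsLocalization.integerNormalization_spec (nonZeroDivisors A) q
  have hb0 : (b : A) ≠ 0 := nonZeroDivisors.ne_zero hbm
  have hbK : algebraMap A K (b : A) ≠ 0 := by
    rwa [Ne, IsFractionRing.to_map_eq_zero_iff]
  refine ⟨AdjoinRoot.mk f (IsLocalization.integerNormalization (nonZeroDivisors A) q),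
    AdjoinRoot.of f b, ?_⟩
  have h1 : algebraMap (AdjoinRoot f) (AdjoinRoot g) (AdjoinRoot.of f b) =
      AdjoinRoot.of g (algebraMap A K b) := by
    rw [halg, ← AdjoinRoot.mk_C, lamMap_mk, map_C, AdjoinRoot.mk_C]
  have h2 : AdjoinRoot.of g (algebraMap A K b) ≠ 0 := by
    rwa [Ne, map_eq_zero]
  rw [h1, halg, lamMap_mk, hb, eq_div_iff h2, Algebra.smul_def, map_mul]
  rw [mul_comm]
  rfl

/-- irreducibility over the fraction field. -/
lemma irreducible_of_isDomain [IsIntegrallyClosed A] [IsDomain (AdjoinRoot f)] (hf : f.Monic) :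
    Irreducible (f.map (algebraMap A K)) := by
  rw [← hf.irreducible_iff_irreducible_map_fraction_map]
  have h0 : f ≠ 0 := hf.ne_zero
  have h1 : (Ideal.span {f}).IsPrime := by
    have : IsDomain (A[X] ⧸ Ideal.span {f}) := ‹IsDomain (AdjoinRoot f)›
    exact (Ideal.Quotient.isDomain_iff_prime _).mp this
  exact ((Ideal.span_singleton_prime h0).mp h1).irreducible

end

lemma of_inj' {F : Type*} [Field F] {f : F[X]} (hf : f.Monic) (hn : f.natDegree ≠ 0) :
    Function.Injective (AdjoinRoot.of f) := by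
  apply AdjoinRoot.of.injective_of_degree_ne_zero
  rw [degree_eq_natDegree hf.ne_zero]
  exact_mod_cast hn

lemma exists_pow_of_coprime {K : Type*} [Field K] {a b : K} (ha : a ≠ 0) {n ℓ : ℕ}
    (hcop : Nat.Coprime ℓ n) (h : a ^ n = b ^ ℓ) : ∃ c, a = c ^ ℓ := by
  have hb : ℓ ≠ 0 → b ≠ 0 := by
    rintro hℓ rfl
    rw [zero_pow hℓ] at h
    exact pow_ne_zero _ ha h
  rcases Nat.eq_zero_or_pos ℓ with rfl | hℓ
  · have : n = 1 := by simpa using hcop
    rw [this, pow_one, pow_zero] at h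
    exact ⟨1, by rw [h, one_pow]⟩
  · have hb' := hb hℓ.ne'
    have h1 := Nat.gcd_eq_gcd_ab ℓ n
    rw [hcop] at h1
    set x := Nat.gcdA ℓ n
    set y := Nat.gcdB ℓ n
    refine ⟨a ^ x * b ^ y, ?_⟩
    have h2 : a ^ (1 : ℤ) = a ^ ((ℓ : ℤ) * x) * a ^ ((n : ℤ) * y) := by
      rw [← zpow_add₀ ha]
      congr 1
    rw [zpow_one] at h2
    have h3 : a ^ ((n : ℤ) * y) = (b ^ y) ^ ℓ := by
      rw [zpow_mul, zpow_natCast, h, ← zpow_natCast, ← zpow_natCast, ← zpow_mul, ← zpow_mul,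
        mul_comm]
    have h4 : a ^ ((ℓ : ℤ) * x) = (a ^ x) ^ ℓ := by
      rw [mul_comm, zpow_mul, zpow_natCast]
    rw [mul_pow, ← h3, ← h4, ← h2]

end Pool.Agent.MP1bdb59C
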