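import Mathlib
import Pool.Agent.MP1bdb59C.Frac

/-!
# Scaling of roots, `F[s][x]/(f)` for constant `f`
-/

open Polynomial

noncomputable section

open scoped Classical

namespace Pool.Agent.MP1bdb59C

section Scale

variable {R : Type*} [CommRing R] {f g : R[X]} {c : R} (hg : g = f.scaleRoots c)

/-- The homomorphism `R[x]/(g) → R[x]/(f)`, `x ↦ c x`, where `g` is the polynomial whose roots
are `c` times the roots of `f`. -/
def scMap : AdjoinRoot g →+* AdjoinRoot f :=
  AdjoinRoot.lift (AdjoinRoot.of f) (AdjoinRoot.of f c * AdjoinRoot.root f) (by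
    rw [hg]
    exact scaleRoots_eval₂_eq_zero _ (AdjoinRoot.eval₂_root f))

lemma scMap_of (a : R) : scMap hg (AdjoinRoot.of g a) = AdjoinRoot.of f a := AdjoinRoot.lift_of _

lemma scMap_root : scMap hg (AdjoinRoot.root g) = AdjoinRoot.of f c * AdjoinRoot.root f :=
  AdjoinRoot.lift_root _

lemma scMap_mk (p : R[X]) : scMap hg (AdjoinRoot.mk g p) = AdjoinRoot.mk f (p.comp (C c * X)) := by
  have : (scMap hg).comp (AdjoinRoot.mk g) =
      (AdjoinRoot.mk f).comp (compRingHom (C c * X)) := by
    apply Polynomial.ringHom_ext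
    · intro a
      rw [RingHom.comp_apply, RingHom.comp_apply, AdjoinRoot.mk_C, scMap_of, coe_compRingHom_apply,
        C_comp, AdjoinRoot.mk_C]
    · rw [RingHom.comp_apply, RingHom.comp_apply, AdjoinRoot.mk_X, scMap_root,
        coe_compRingHom_apply, X_comp, map_mul, AdjoinRoot.mk_C, AdjoinRoot.mk_X]
  exact RingHom.congr_fun this p

include hg in
lemma eq_scaleRoots_inv {d : R} (hcd : c * d = 1) : f = g.scaleRoots d := by
  rw [hg, ← scaleRoots_mul, hcd, scaleRoots_one]

/-- If `c` is a unit then `x ↦ c x` is an isomorphism. -/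
def scEquiv {d : R} (hcd : c * d = 1) : AdjoinRoot g ≃+* AdjoinRoot f :=
  RingEquiv.ofRingHom (scMap hg) (scMap (eq_scaleRoots_inv hg hcd))
    (by
      apply AdjoinRoot.ringHom_ext
      · ext a
        rw [RingHom.comp_apply, RingHom.comp_apply, scMap_of, scMap_of]
        rfl
      · rw [RingHom.comp_apply, scMap_root, map_mul, scMap_of, scMap_root, ← mul_assoc,
          ← map_mul, mul_comm d c, hcd, map_one, one_mul]
        rfl)
    (by
      apply AdjoinRoot.ringHom_ext
      · ext a
        rw [RingHom.comp_apply, RingHom.comp_apply, scMap_of, scMap_of]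
        rfl
      · rw [RingHom.comp_apply, scMap_root, map_mul, scMap_of, scMap_root, ← mul_assoc,
          ← map_mul, hcd, map_one, one_mul]
        rfl)

lemma scEquiv_apply {d : R} (hcd : c * d = 1) (x : AdjoinRoot g) :
    scEquiv hg hcd x = scMap hg x := rfl

lemma lamMap_scMap {R' : Type*} [CommRing R'] (φ : R →+* R') {f' g' : R'[X]} {c' : R'}
    (hf' : f.map φ = f') (hgg' : g.map φ = g') (hg' : g' = f'.scaleRoots c') (hc : φ c = c')
    (x : AdjoinRoot g) :
    lamMap φ hf' (scMap hg x) = scMap hg' (lamMap φ hgg' x) := by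
  obtain ⟨p, rfl⟩ := AdjoinRoot.mk_surjective x
  rw [scMap_mk, lamMap_mk, lamMap_mk, scMap_mk, Polynomial.map_comp, Polynomial.map_mul, map_C,
    map_X, hc]

end Scale

section Bivariate

variable {F : Type*} [Field F] (f : F[X])

/-- `F[s][x]/(f) → (F[x]/(f))[s]`. -/
def toL : AdjoinRoot (f.map (C : F →+* F[X])) →+* (AdjoinRoot f)[X] :=
  AdjoinRoot.lift (mapRingHom (AdjoinRoot.of f)) (C (AdjoinRoot.root f)) (by
    rw [eval₂_map]
    have h1 : (mapRingHom (AdjoinRoot.of f)).comp (C : F →+* F[X]) =
        (C : AdjoinRoot f →+* (AdjoinRoot f)[X]).comp (AdjoinRoot.of f) := by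
      ext a
      simp
    rw [h1, ← hom_eval₂, AdjoinRoot.eval₂_root, map_zero])

/-- `(F[x]/(f))[s] → F[s][x]/(f)`. -/
def ofL : (AdjoinRoot f)[X] →+* AdjoinRoot (f.map (C : F →+* F[X])) :=
  eval₂RingHom (lamMap (C : F →+* F[X]) rfl) (AdjoinRoot.of _ X)

lemma toL_of (p : F[X]) : toL f (AdjoinRoot.of _ p) = p.map (AdjoinRoot.of f) :=
  AdjoinRoot.lift_of _

lemma toL_root : toL f (AdjoinRoot.root _) = C (AdjoinRoot.root f) := AdjoinRoot.lift_root _

lemma lamMap_root' {A A' : Type*} [CommRing A] [CommRing A'] (φ : A →+* A') {f : A[X]}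
    {f' : A'[X]} (h : f.map φ = f') :
    lamMap φ h (AdjoinRoot.root f) = AdjoinRoot.root f' := by
  rw [← AdjoinRoot.mk_X, lamMap_mk, map_X, AdjoinRoot.mk_X]

/-- `F[s][x]/(f) = (F[x]/(f))[s]`. -/
def equivL : AdjoinRoot (f.map (C : F →+* F[X])) ≃+* (AdjoinRoot f)[X] :=
  RingEquiv.ofRingHom (toL f) (ofL f)
    (by
      apply Polynomial.ringHom_ext
      · intro a
        obtain ⟨p, rfl⟩ := AdjoinRoot.mk_surjective a
        have h1 : ((toL f).comp (ofL f)).comp ((C : AdjoinRoot f →+* _).comp (AdjoinRoot.mk f)) =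
            (C : AdjoinRoot f →+* _).comp (AdjoinRoot.mk f) := by
          apply Polynomial.ringHom_ext
          · intro b
            simp only [RingHom.comp_apply, ofL, coe_eval₂RingHom, eval₂_C, AdjoinRoot.mk_C]
            rw [lamMap_of', toL_of, map_C]
          · simp only [RingHom.comp_apply, ofL, coe_eval₂RingHom, eval₂_C, AdjoinRoot.mk_X]
            rw [lamMap_root', toL_root]
        exact RingHom.congr_fun h1 p
      · simp only [RingHom.comp_apply, ofL, coe_eval₂RingHom, eval₂_X, RingHom.id_apply]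
        rw [toL_of, map_X])
    (by
      apply AdjoinRoot.ringHom_ext
      · apply Polynomial.ringHom_ext
        · intro b
          simp only [RingHom.comp_apply, RingHom.id_apply, toL_of, map_C, ofL, coe_eval₂RingHom,
            eval₂_C]
          rw [lamMap_of']
        · simp only [RingHom.comp_apply, RingHom.id_apply, toL_of, map_X, ofL, coe_eval₂RingHom,
            eval₂_X]
      · simp only [RingHom.comp_apply, RingHom.id_apply, toL_root, ofL, coe_eval₂RingHom,
          eval₂_C]
        rw [lamMap_root'])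

lemma equivL_of (p : F[X]) : equivL f (AdjoinRoot.of _ p) = p.map (AdjoinRoot.of f) := toL_of f p

lemma equivL_lamMap (x : AdjoinRoot f) :
    equivL f (lamMap (C : F →+* F[X]) rfl x) = C x := by
  have h1 : equivL f (equivL f |>.symm (C x)) = C x := RingEquiv.apply_symm_apply _ _
  have h2 : (equivL f).symm (C x) = lamMap (C : F →+* F[X]) rfl x := by
    change ofL f (C x) = _
    simp [ofL]
  rw [h2] at h1
  exact h1

end Bivariate

end Pool.Agent.MP1bdb59C
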