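import Mathlib
import Pool.Agent.MP1bdb59C.Scale

/-!
# The principal ideal domain `k₀(s) ⊗ F[s, 1/(s-h)]` and the constant extension `F[x]/(f)`
-/

open Polynomial

noncomputable section

open scoped Classical

namespace Pool.Agent.MP1bdb59C

lemma isPrincipalIdealRing_of_unit_mul {R S : Type*} [CommRing R] [CommRing S]
    [IsPrincipalIdealRing R] (φ : R →+* S)
    (h : ∀ x : S, ∃ u : S, IsUnit u ∧ ∃ r, φ r = u * x) : IsPrincipalIdealRing S := by
  refine ⟨fun I => ?_⟩
  obtain ⟨b, hb⟩ := (IsPrincipalIdealRing.principal (I.comap φ)).principal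
  have hb' : I.comap φ = Ideal.span {b} := hb
  refine ⟨φ b, ?_⟩
  change I = Ideal.span {φ b}
  apply le_antisymm
  · intro x hx
    obtain ⟨u, hu, r, hr⟩ := h x
    have h1 : r ∈ I.comap φ := by
      rw [Ideal.mem_comap, hr]
      exact I.mul_mem_left u hx
    rw [hb'] at h1
    obtain ⟨s, rfl⟩ := Ideal.mem_span_singleton'.mp h1
    obtain ⟨v, hv⟩ := hu.exists_left_inv
    rw [Ideal.mem_span_singleton']
    refine ⟨v * φ s, ?_⟩
    rw [mul_assoc, ← map_mul, hr, ← mul_assoc, hv, one_mul]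
  · rw [Ideal.span_le, Set.singleton_subset_iff]
    have h1 : b ∈ I.comap φ := by
      rw [hb']
      exact Ideal.mem_span_singleton_self b
    exact h1

section Factor

variable {k L : Type*} [Field k] [Field L] [Algebra k L]

/-- If `k` is algebraically closed in `L` then the factors in `L[s]` of a nonzero polynomial over
`k` are, up to constants, polynomials over `k`. -/
lemma exists_of_dvd_map (hreg : ∀ x : L, IsAlgebraic k x → x ∈ Set.range (algebraMap k L))
    {q : k[X]} (hq : q ≠ 0) {a : L[X]} (ha : a ∣ q.map (algebraMap k L)) :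
    ∃ (c : L) (q' : k[X]), c ≠ 0 ∧ q' ≠ 0 ∧ a = C c * q'.map (algebraMap k L) := by
  have hqm : q.map (algebraMap k L) ≠ 0 := (Polynomial.map_ne_zero_iff (algebraMap k L).injective).mpr hq
  have ha0 : a ≠ 0 := ne_zero_of_dvd_ne_zero hqm ha
  have hla : a.leadingCoeff ≠ 0 := leadingCoeff_ne_zero.mpr ha0
  have hlq : q.leadingCoeff ≠ 0 := leadingCoeff_ne_zero.mpr hq
  set a₁ := a * C (a.leadingCoeff)⁻¹ with ha₁
  have hmon : a₁.Monic := monic_mul_leadingCoeff_inv ha0
  set q₁ := q * C (q.leadingCoeff)⁻¹ with hq₁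
  have hqmon : q₁.Monic := monic_mul_leadingCoeff_inv hq
  have hdvd : a₁ ∣ q₁.map (algebraMap k L) := by
    rw [hq₁, Polynomial.map_mul, ha₁]
    refine Dvd.dvd.mul_right ?_ _
    refine (IsUnit.mul_right_dvd ?_).mpr ha
    rw [isUnit_C]
    exact (inv_ne_zero hla).isUnit
  have h1 := integralClosure.mem_lifts_of_monic_of_dvd_map L hqmon hmon hdvd
  rw [mem_lifts] at h1
  obtain ⟨b, hb⟩ := h1
  have h2 : a₁ ∈ lifts (algebraMap k L) := by
    rw [lifts_iff_coeff_lifts]
    intro n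
    rw [← hb, coeff_map]
    apply hreg
    exact (b.coeff n).2.isAlgebraic
  rw [mem_lifts] at h2
  obtain ⟨q', hq'⟩ := h2
  refine ⟨a.leadingCoeff, q', hla, ?_, ?_⟩
  · rintro rfl
    rw [Polynomial.map_zero] at hq'
    exact hmon.ne_zero hq'.symm
  · rw [hq', ha₁, mul_comm a, ← mul_assoc, ← C_mul, mul_inv_cancel₀ hla, C_1, one_mul]

lemma exists_of_dvd_map_mul (hreg : ∀ x : L, IsAlgebraic k x → x ∈ Set.range (algebraMap k L))
    {q : k[X]} (hq : q ≠ 0) (h : L) (i : ℕ) {a : L[X]}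
    (ha : a ∣ q.map (algebraMap k L) * (X - C h) ^ i) :
    ∃ (c : L) (q' : k[X]) (i' : ℕ), c ≠ 0 ∧ q' ≠ 0 ∧
      a = C c * (q'.map (algebraMap k L) * (X - C h) ^ i') := by
  have hqm : q.map (algebraMap k L) ≠ 0 := (Polynomial.map_ne_zero_iff (algebraMap k L).injective).mpr hq
  have h0 : q.map (algebraMap k L) * (X - C h) ^ i ≠ 0 :=
    mul_ne_zero hqm (pow_ne_zero _ (X_sub_C_ne_zero h))
  have ha0 : a ≠ 0 := ne_zero_of_dvd_ne_zero h0 ha
  obtain ⟨b, hb, hb'⟩ := exists_eq_pow_rootMultiplicity_mul_and_not_dvd a ha0 h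
  have hcop : IsCoprime b ((X - C h) ^ i) := by
    apply IsCoprime.pow_right
    exact ((irreducible_X_sub_C h).coprime_iff_not_dvd.mpr hb').symm
  have hbdvd : b ∣ q.map (algebraMap k L) := by
    have h1 : b ∣ q.map (algebraMap k L) * (X - C h) ^ i :=
      (Dvd.intro_left _ hb.symm).trans ha
    exact hcop.dvd_of_dvd_mul_right h1
  obtain ⟨c, q', hc, hq', hbq⟩ := exists_of_dvd_map hreg hq hbdvd
  refine ⟨c, q', rootMultiplicity h a, hc, hq', ?_⟩
  conv_lhs => rw [hb, hbq]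
  ring

end Factor

section Ring

variable (k₀ : Type*) {F₀ : Type*} [Field k₀] [Field F₀] [Algebra k₀ F₀]

/-- The multiplicative set of the products of a nonzero polynomial in `k₀[s]` and a power of
`s - h`. -/
def tS (h : F₀) : Submonoid F₀[X] where
  carrier := {t | ∃ (q : k₀[X]) (i : ℕ), q ≠ 0 ∧ t = q.map (algebraMap k₀ F₀) * (X - C h) ^ i}
  one_mem' := ⟨1, 0, one_ne_zero, by simp⟩
  mul_mem' := by
    rintro _ _ ⟨q, i, hq, rfl⟩ ⟨q', i', hq', rfl⟩
    refine ⟨q * q', i + i', mul_ne_zero hq hq', ?_⟩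
    rw [Polynomial.map_mul, pow_add]
    ring

lemma mem_tS {h : F₀} {t : F₀[X]} : t ∈ tS k₀ h ↔
    ∃ (q : k₀[X]) (i : ℕ), q ≠ 0 ∧ t = q.map (algebraMap k₀ F₀) * (X - C h) ^ i := Iff.rfl

lemma tS_le (h : F₀) : tS k₀ h ≤ nonZeroDivisors F₀[X] := by
  rintro _ ⟨q, i, hq, rfl⟩
  apply mem_nonZeroDivisors_of_ne_zero
  exact mul_ne_zero ((Polynomial.map_ne_zero_iff (algebraMap k₀ F₀).injective).mpr hq)
    (pow_ne_zero _ (X_sub_C_ne_zero h))

variable {k₀} {h : F₀} {A : Type*} [CommRing A] [IsDomain A] [Algebra F₀[X] A]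
  [hA : IsLocalization (tS k₀ h) A] {K : Type*} [Field K] [Algebra A K] [IsFractionRing A K]
  [Algebra F₀[X] K] [IsFractionRing F₀[X] K] [IsScalarTower F₀[X] A K] {f : F₀[X]} (hf : f.Monic)
  (hirr : Irreducible f)

include hirr in
omit [Field k₀] [Algebra k₀ F₀] in
lemma isDomain_const : IsDomain (AdjoinRoot (f.map (C : F₀ →+* F₀[X]))) := by
  have := Fact.mk hirr
  exact (equivL f).toMulEquiv.isDomain _

include hirr in
omit [Field k₀] [Algebra k₀ F₀] in
lemma isPrincipalIdealRing_const :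
    IsPrincipalIdealRing (AdjoinRoot (f.map (C : F₀ →+* F₀[X]))) := by
  have := Fact.mk hirr
  exact IsPrincipalIdealRing.of_surjective (equivL f).symm.toRingHom (equivL f).symm.surjective

include hf hirr in
omit [Field k₀] [Algebra k₀ F₀] in
lemma irreducible_const {K : Type*} [Field K] [Algebra F₀[X] K] [IsFractionRing F₀[X] K] :
    Irreducible ((f.map (C : F₀ →+* F₀[X])).map (algebraMap F₀[X] K)) := by
  have := isDomain_const hirr
  exact irreducible_of_isDomain (hf.map _)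

variable (k₀ h A f) in
omit [IsDomain A] in
lemma exists_unit_mul (x : AdjoinRoot ((f.map (C : F₀ →+* F₀[X])).map (algebraMap F₀[X] A))) :
    ∃ t ∈ tS k₀ h, ∃ b : AdjoinRoot (f.map (C : F₀ →+* F₀[X])),
      lamMap (algebraMap F₀[X] A) rfl b = AdjoinRoot.of _ (algebraMap F₀[X] A t) * x := by
  obtain ⟨p, rfl⟩ := AdjoinRoot.mk_surjective x
  obtain ⟨t, ht, h1⟩ := IsLocalization.integerNormalization_spec (tS k₀ h) p
  refine ⟨t, ht, AdjoinRoot.mk _ (IsLocalization.integerNormalization (tS k₀ h) p), ?_⟩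
  rw [lamMap_mk, h1, Algebra.smul_def, map_mul]
  rfl

include hf hirr in
omit [Field k₀] [Algebra k₀ F₀] in
lemma isDomain_loc (A : Type*) [CommRing A] [IsDomain A] [Algebra F₀[X] A]
    (K : Type*) [Field K] [Algebra A K] [IsFractionRing A K]
    [Algebra F₀[X] K] [IsFractionRing F₀[X] K] [IsScalarTower F₀[X] A K] :
    IsDomain (AdjoinRoot ((f.map (C : F₀ →+* F₀[X])).map (algebraMap F₀[X] A))) := by
  have h1 : Irreducible ((f.map (C : F₀ →+* F₀[X])).map (algebraMap F₀[X] K)) :=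
    irreducible_const hf hirr
  have := Fact.mk h1
  have h2 : ((f.map (C : F₀ →+* F₀[X])).map (algebraMap F₀[X] A)).map (algebraMap A K) =
      (f.map (C : F₀ →+* F₀[X])).map (algebraMap F₀[X] K) := by
    rw [Polynomial.map_map, ← IsScalarTower.algebraMap_eq]
  exact (lamMap_inj h2 ((hf.map _).map _)).isDomain _

include hirr hA in
variable (k₀ h A) in
omit [IsDomain A] in
lemma isPrincipalIdealRing_loc :
    IsPrincipalIdealRing (AdjoinRoot ((f.map (C : F₀ →+* F₀[X])).map (algebraMap F₀[X] A))) := by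
  have := isPrincipalIdealRing_const hirr
  refine isPrincipalIdealRing_of_unit_mul (lamMap (algebraMap F₀[X] A) rfl) fun x => ?_
  obtain ⟨t, ht, b, hb⟩ := exists_unit_mul k₀ h A f x
  exact ⟨_, (IsLocalization.map_units A (⟨t, ht⟩ : tS k₀ h)).map (AdjoinRoot.of _), b, hb⟩

include hirr hf hA in
variable (k₀ h A) in
omit [IsDomain A] in
/-- The units are products of constants and of units of `A`. -/
lemma exists_of_unit
    (hreg : ∀ x : AdjoinRoot f, IsAlgebraic k₀ x → x ∈ Set.range (algebraMap k₀ (AdjoinRoot f)))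
    (u : (AdjoinRoot ((f.map (C : F₀ →+* F₀[X])).map (algebraMap F₀[X] A)))ˣ) :
    ∃ (c : AdjoinRoot f) (a : Aˣ), c ≠ 0 ∧
      (u : AdjoinRoot ((f.map (C : F₀ →+* F₀[X])).map (algebraMap F₀[X] A))) =
        lamMap (algebraMap F₀[X] A) rfl (lamMap (C : F₀ →+* F₀[X]) rfl c) *
          AdjoinRoot.of _ (a : A) := by
  have := Fact.mk hirr
  have hinj : Function.Injective (lamMap (algebraMap F₀[X] A)
      (rfl : (f.map (C : F₀ →+* F₀[X])).map (algebraMap F₀[X] A) = _)) := by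
    rw [injective_iff_map_eq_zero]
    intro x hx
    obtain ⟨p, rfl⟩ := AdjoinRoot.mk_surjective x
    rw [lamMap_mk, AdjoinRoot.mk_eq_zero] at hx
    rw [AdjoinRoot.mk_eq_zero]
    exact (Polynomial.map_dvd_map _ (IsLocalization.injective A (tS_le k₀ h)) (hf.map _)).mp hx
  obtain ⟨t, ht, b, hb⟩ := exists_unit_mul k₀ h A f (u : AdjoinRoot _)
  obtain ⟨t', ht', b', hb'⟩ := exists_unit_mul k₀ h A f ((u⁻¹ : (AdjoinRoot _)ˣ) : AdjoinRoot _)
  have h1 : b * b' = AdjoinRoot.of _ (t * t') := by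
    apply hinj
    rw [map_mul, hb, hb', lamMap_of', map_mul, map_mul]
    have h2 := u.mul_inv
    linear_combination (AdjoinRoot.of _ (algebraMap F₀[X] A t) *
      AdjoinRoot.of _ (algebraMap F₀[X] A t')) * h2
  obtain ⟨q, i, hq, hqt⟩ := (tS k₀ h).mul_mem ht ht'
  have h3 : equivL f b ∣ q.map (algebraMap k₀ (AdjoinRoot f)) *
      (X - C (AdjoinRoot.of f h)) ^ i := by
    have h4 : equivL f b * equivL f b' = q.map (algebraMap k₀ (AdjoinRoot f)) *
      (X - C (AdjoinRoot.of f h)) ^ i := by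
      rw [← map_mul, h1, equivL_of]
      have h5 : t * t' = q.map (algebraMap k₀ F₀) * (X - C h) ^ i := hqt
      rw [h5, Polynomial.map_mul, Polynomial.map_pow, Polynomial.map_sub, map_X, map_C,
        Polynomial.map_map]
      rfl
    exact Dvd.intro _ h4
  obtain ⟨c, q', i', hc, hq', hbq⟩ := exists_of_dvd_map_mul hreg hq _ i h3
  have hb2 : b = lamMap (C : F₀ →+* F₀[X]) rfl c *
      AdjoinRoot.of _ (q'.map (algebraMap k₀ F₀) * (X - C h) ^ i') := by
    apply (equivL f).injective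
    rw [hbq, map_mul, equivL_lamMap, equivL_of, Polynomial.map_mul, Polynomial.map_pow,
      Polynomial.map_sub, map_X, map_C, Polynomial.map_map]
    rfl
  have ht2 : q'.map (algebraMap k₀ F₀) * (X - C h) ^ i' ∈ tS k₀ h := ⟨q', i', hq', rfl⟩
  have hu1 : IsUnit (algebraMap F₀[X] A t) := IsLocalization.map_units A (⟨t, ht⟩ : tS k₀ h)
  have hu2 : IsUnit (algebraMap F₀[X] A (q'.map (algebraMap k₀ F₀) * (X - C h) ^ i')) :=
    IsLocalization.map_units A (⟨_, ht2⟩ : tS k₀ h)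
  refine ⟨c, hu2.unit * hu1.unit⁻¹, hc, ?_⟩
  rw [hb2, map_mul, lamMap_of'] at hb
  have h6 : AdjoinRoot.of ((f.map (C : F₀ →+* F₀[X])).map (algebraMap F₀[X] A))
      (algebraMap F₀[X] A t) * AdjoinRoot.of _ ((hu1.unit⁻¹ : Aˣ) : A) = 1 := by
    rw [← map_mul, hu1.mul_val_inv, map_one]
  rw [Units.val_mul, map_mul, IsUnit.unit_spec]
  have h7 : ((u : AdjoinRoot ((f.map (C : F₀ →+* F₀[X])).map (algebraMap F₀[X] A)))) =
      (AdjoinRoot.of ((f.map (C : F₀ →+* F₀[X])).map (algebraMap F₀[X] A))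
        (algebraMap F₀[X] A t) * u.val) * AdjoinRoot.of _ ((hu1.unit⁻¹ : Aˣ) : A) := by
    rw [mul_right_comm, h6, one_mul]
  rw [h7, ← hb, mul_assoc]

end Ring

end Pool.Agent.MP1bdb59C
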