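import Mathlib
import Pool.Agent.MP1bdb59C.GenRing

/-!
# Extensions of the field of constants
-/

open Polynomial IntermediateField

noncomputable section

open scoped Classical

namespace Pool.Agent.MP1bdb59C

/-- Minimal polynomials do not change over an extension in which `k` is algebraically closed. -/
lemma minpoly_of_closed {k L Ω : Type*} [Field k] [Field L] [Field Ω] [Algebra k L] [Algebra L Ω]
    [Algebra k Ω] [IsScalarTower k L Ω]
    (hreg : ∀ x : L, IsAlgebraic k x → x ∈ Set.range (algebraMap k L)) {y : Ω}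
    (hy : IsIntegral k y) : minpoly L y = (minpoly k y).map (algebraMap k L) := by
  have hyL : IsIntegral L y := hy.tower_top
  have hdvd : minpoly L y ∣ (minpoly k y).map (algebraMap k L) := minpoly.dvd_map_of_isScalarTower k L y
  obtain ⟨c, q', hc, hq', h⟩ := exists_of_dvd_map hreg (minpoly.ne_zero hy) hdvd
  have h1 : aeval y q' = 0 := by
    have h2 := minpoly.aeval L y
    rw [h, map_mul, aeval_C, aeval_map_algebraMap] at h2
    exact (mul_eq_zero.mp h2).resolve_left (fun h0 => hc ((map_eq_zero _).mp h0))
  have h3 : (minpoly k y).map (algebraMap k L) ∣ minpoly L y := by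
    rw [h]
    exact ((map_dvd_map' (algebraMap k L)).mpr (minpoly.dvd k y h1)).mul_left _
  exact eq_of_monic_of_associated (minpoly.monic hyL) ((minpoly.monic hy).map _)
    (associated_of_dvd_dvd hdvd h3)

section

variable {k K K' : Type*} [Field k] [CharZero k] [Field K] [Algebra k K] [Field K'] [Algebra K K']
  [Algebra k K'] [IsScalarTower k K K'] [FiniteDimensional K K'] {ζ : K'} (hζ : IsIntegral k ζ)
  (htop : adjoin K {ζ} = ⊤) {f : K[X]} (hf : f.Monic) (hirr : Irreducible f)
  (hreg : ∀ x : AdjoinRoot f, IsAlgebraic k x → x ∈ Set.range (algebraMap k (AdjoinRoot f)))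

include hirr hreg in
lemma closed_base : ∀ x : K, IsAlgebraic k x → x ∈ Set.range (algebraMap k K) := by
  have := Fact.mk hirr
  intro x hx
  obtain ⟨c, hc⟩ := hreg (algebraMap K (AdjoinRoot f) x) ((isAlgebraic_algebraMap_iff
    (algebraMap K (AdjoinRoot f)).injective).mpr hx)
  refine ⟨c, ?_⟩
  apply (algebraMap K (AdjoinRoot f)).injective
  rw [← hc, ← IsScalarTower.algebraMap_apply]

include hζ htop in
omit [CharZero k] [FiniteDimensional K K'] in
lemma finrank_eq (hregK : ∀ x : K, IsAlgebraic k x → x ∈ Set.range (algebraMap k K)) :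
    Module.finrank K K' = (minpoly k ζ).natDegree := by
  have h1 : Module.finrank K (adjoin K {ζ}) = (minpoly K ζ).natDegree :=
    adjoin.finrank hζ.tower_top
  rw [htop, IntermediateField.finrank_top'] at h1
  rw [h1, minpoly_of_closed hregK hζ, natDegree_map]

include hζ htop hf hirr hreg in
/-- `f` stays irreducible. -/
theorem irreducible_ext : Irreducible (f.map (algebraMap K K')) := by
  have i0 := Fact.mk hirr
  have hregK := closed_base hirr hreg
  have hd := finrank_eq hζ htop hregK
  have hfm : (f.map (algebraMap K K')).Monic := hf.map _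
  have hn : (f.map (algebraMap K K')).natDegree = f.natDegree := hf.natDegree_map _
  have hnu : ¬ IsUnit (f.map (algebraMap K K')) := by
    rw [hfm.isUnit_iff]
    intro h1
    have h2 := congrArg natDegree h1
    rw [hn, natDegree_one] at h2
    exact hirr.natDegree_pos.ne' h2
  obtain ⟨g, hg, hgf⟩ := WfDvdMonoid.exists_irreducible_factor hnu hfm.ne_zero
  have i1 := Fact.mk hg
  have hg0 : g ≠ 0 := hg.ne_zero
  -- `L = K[x]/(f)` embeds into `K'[x]/(g)`
  have hroot : aeval (AdjoinRoot.root g) f = 0 := by
    obtain ⟨q, hq⟩ := hgf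
    rw [← aeval_map_algebraMap K', hq, map_mul, AdjoinRoot.aeval_eq, AdjoinRoot.mk_self, zero_mul]
  let φ : AdjoinRoot f →ₐ[K] AdjoinRoot g := AdjoinRoot.liftAlgHom f (Algebra.ofId _ _) _ hroot
  let i2 : Algebra (AdjoinRoot f) (AdjoinRoot g) := φ.toRingHom.toAlgebra
  have i3 : IsScalarTower K (AdjoinRoot f) (AdjoinRoot g) :=
    IsScalarTower.of_algebraMap_eq (fun x => (φ.commutes x).symm)
  have i4 : IsScalarTower k (AdjoinRoot f) (AdjoinRoot g) := by
    apply IsScalarTower.of_algebraMap_eq
    intro x
    rw [IsScalarTower.algebraMap_apply k K (AdjoinRoot f), ← IsScalarTower.algebraMap_apply K,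
      ← IsScalarTower.algebraMap_apply]
  have i5 : FiniteDimensional K' (AdjoinRoot g) := (AdjoinRoot.powerBasis hg0).finite
  have i6 : FiniteDimensional K (AdjoinRoot f) := (AdjoinRoot.powerBasis hirr.ne_zero).finite
  have i7 : FiniteDimensional K (AdjoinRoot g) := Module.Finite.trans K' _
  have i8 : FiniteDimensional (AdjoinRoot f) (AdjoinRoot g) :=
    Module.Finite.of_restrictScalars_finite K _ _
  have hrk1 : Module.finrank K (AdjoinRoot f) = f.natDegree := by
    rw [(AdjoinRoot.powerBasis hirr.ne_zero).finrank, AdjoinRoot.powerBasis_dim]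
  have hrk2 : Module.finrank K' (AdjoinRoot g) = g.natDegree := by
    rw [(AdjoinRoot.powerBasis hg0).finrank, AdjoinRoot.powerBasis_dim]
  have h1 := Module.finrank_mul_finrank K K' (AdjoinRoot g)
  have h2 := Module.finrank_mul_finrank K (AdjoinRoot f) (AdjoinRoot g)
  -- the degree of `ζ` over `L`
  have h3 : (minpoly k ζ).natDegree ≤ Module.finrank (AdjoinRoot f) (AdjoinRoot g) := by
    have hζ' : IsIntegral k (algebraMap K' (AdjoinRoot g) ζ) := hζ.algebraMap
    have h4 : minpoly k (algebraMap K' (AdjoinRoot g) ζ) = minpoly k ζ :=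
      minpoly.algebraMap_eq (algebraMap K' (AdjoinRoot g)).injective ζ
    have h5 := minpoly_of_closed hreg hζ'
    rw [h4] at h5
    have h6 := minpoly.natDegree_le (A := AdjoinRoot f) (algebraMap K' (AdjoinRoot g) ζ)
    rwa [h5, natDegree_map] at h6
  rw [← h2, hrk1, hrk2, hd] at h1
  have hpos : 0 < (minpoly k ζ).natDegree := minpoly.natDegree_pos hζ
  have hfpos : 0 < f.natDegree := hirr.natDegree_pos
  have h7 : f.natDegree ≤ g.natDegree := by
    by_contra hcon
    push Not at hcon
    have h8 : (minpoly k ζ).natDegree * g.natDegree < (minpoly k ζ).natDegree * f.natDegree :=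
      Nat.mul_lt_mul_of_pos_left hcon hpos
    have h9 : f.natDegree * (minpoly k ζ).natDegree ≤
        f.natDegree * Module.finrank (AdjoinRoot f) (AdjoinRoot g) := Nat.mul_le_mul_left _ h3
    nlinarith
  obtain ⟨q, hq⟩ := hgf
  have hq0 : q ≠ 0 := by
    rintro rfl
    rw [mul_zero] at hq
    exact hfm.ne_zero hq
  have h8 := congrArg natDegree hq
  rw [natDegree_mul hg0 hq0, hn] at h8
  have hqu : IsUnit q := by
    rw [isUnit_iff_degree_eq_zero, degree_eq_natDegree hq0]
    have : q.natDegree = 0 := by omega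
    rw [this]
    rfl
  rw [hq]
  exact (irreducible_mul_isUnit hqu).mpr hg

include hζ htop hf hirr hreg in
/-- The field of constants of `K'[x]/(f)` is `k(ζ)`. -/
theorem closed_ext [hirr' : Fact (Irreducible (f.map (algebraMap K K')))]
    (x : AdjoinRoot (f.map (algebraMap K K'))) (hx : IsAlgebraic (adjoin k {ζ}) x) :
    x ∈ Set.range (algebraMap (adjoin k {ζ}) (AdjoinRoot (f.map (algebraMap K K')))) := by
  have i0 := Fact.mk hirr
  have hregK := closed_base hirr hreg
  have hd := finrank_eq hζ htop hregK
  have hfm : (f.map (algebraMap K K')).Monic := hf.map _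
  have hn : (f.map (algebraMap K K')).natDegree = f.natDegree := hf.natDegree_map _
  have hroot : aeval (AdjoinRoot.root (f.map (algebraMap K K'))) f = 0 := by
    rw [← aeval_map_algebraMap K', AdjoinRoot.aeval_eq, AdjoinRoot.mk_self]
  let φ : AdjoinRoot f →ₐ[K] AdjoinRoot (f.map (algebraMap K K')) :=
    AdjoinRoot.liftAlgHom f (Algebra.ofId _ _) _ hroot
  let i2 : Algebra (AdjoinRoot f) (AdjoinRoot (f.map (algebraMap K K'))) := φ.toRingHom.toAlgebra
  have i3 : IsScalarTower K (AdjoinRoot f) (AdjoinRoot (f.map (algebraMap K K'))) :=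
    IsScalarTower.of_algebraMap_eq (fun x => (φ.commutes x).symm)
  have i4 : IsScalarTower k (AdjoinRoot f) (AdjoinRoot (f.map (algebraMap K K'))) := by
    apply IsScalarTower.of_algebraMap_eq
    intro x
    rw [IsScalarTower.algebraMap_apply k K (AdjoinRoot f), ← IsScalarTower.algebraMap_apply K,
      ← IsScalarTower.algebraMap_apply]
  have i5 : FiniteDimensional K' (AdjoinRoot (f.map (algebraMap K K'))) :=
    (AdjoinRoot.powerBasis hirr'.out.ne_zero).finite
  have i6 : FiniteDimensional K (AdjoinRoot f) := (AdjoinRoot.powerBasis hirr.ne_zero).finite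
  have i7 : FiniteDimensional K (AdjoinRoot (f.map (algebraMap K K'))) := Module.Finite.trans K' _
  have i8 : FiniteDimensional (AdjoinRoot f) (AdjoinRoot (f.map (algebraMap K K'))) :=
    Module.Finite.of_restrictScalars_finite K _ _
  have hrk1 : Module.finrank K (AdjoinRoot f) = f.natDegree := by
    rw [(AdjoinRoot.powerBasis hirr.ne_zero).finrank, AdjoinRoot.powerBasis_dim]
  have hrk2 : Module.finrank K' (AdjoinRoot (f.map (algebraMap K K'))) = f.natDegree := by
    rw [(AdjoinRoot.powerBasis hirr'.out.ne_zero).finrank, AdjoinRoot.powerBasis_dim, hn]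
  have h1 := Module.finrank_mul_finrank K K' (AdjoinRoot (f.map (algebraMap K K')))
  have h2 := Module.finrank_mul_finrank K (AdjoinRoot f) (AdjoinRoot (f.map (algebraMap K K')))
  have hfpos : 0 < f.natDegree := hirr.natDegree_pos
  have hLL : Module.finrank (AdjoinRoot f) (AdjoinRoot (f.map (algebraMap K K'))) =
      (minpoly k ζ).natDegree := by
    rw [← h2, hrk1, hrk2, hd, mul_comm] at h1
    exact (Nat.eq_of_mul_eq_mul_left hfpos h1).symm
  -- the elements
  set ζL : AdjoinRoot (f.map (algebraMap K K')) := algebraMap K' _ ζ with hζL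
  have hζLint : IsIntegral k ζL := hζ.algebraMap
  have hminζ : minpoly k ζL = minpoly k ζ :=
    minpoly.algebraMap_eq (algebraMap K' (AdjoinRoot (f.map (algebraMap K K')))).injective ζ
  have hfin1 : FiniteDimensional k (adjoin k {ζ}) := adjoin.finiteDimensional hζ
  have hxint : IsIntegral k x := by
    have h3 : IsIntegral (adjoin k {ζ}) x := hx.isIntegral
    exact isIntegral_trans (R := k) x h3
  have hfin2 : FiniteDimensional k (adjoin k ({ζL, x} : Set _)) :=
    finiteDimensional_adjoin_pair hζLint hxint
  obtain ⟨y, hy⟩ := Field.exists_primitive_element k (adjoin k ({ζL, x} : Set _))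
  have hyint : IsIntegral k y := Algebra.IsIntegral.isIntegral y
  have hrk3 : Module.finrank k (adjoin k ({ζL, x} : Set _)) = (minpoly k y).natDegree := by
    have h3 := adjoin.finrank hyint
    rwa [hy, IntermediateField.finrank_top'] at h3
  have hrk4 : Module.finrank k (adjoin k ({ζL, x} : Set _)) ≤
      Module.finrank k (adjoin k {ζL}) := by
    have h4 : IsIntegral k (y : AdjoinRoot (f.map (algebraMap K K'))) := hyint.algebraMap
    have h5 : minpoly k (y : AdjoinRoot (f.map (algebraMap K K'))) = minpoly k y :=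
      minpoly.algebraMap_eq (algebraMap (adjoin k ({ζL, x} : Set _)) _).injective y
    have h6 := minpoly_of_closed hreg h4
    have h7 := minpoly.natDegree_le (A := AdjoinRoot f)
      (y : AdjoinRoot (f.map (algebraMap K K')))
    rw [h6, h5, natDegree_map, hLL] at h7
    rw [hrk3, adjoin.finrank hζLint, hminζ]
    exact h7
  have hle : adjoin k {ζL} ≤ adjoin k ({ζL, x} : Set _) :=
    adjoin.mono _ _ _ (by simp)
  have heq := IntermediateField.eq_of_le_of_finrank_le hle hrk4
  have hxmem : x ∈ adjoin k {ζL} := by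
    rw [heq]
    exact subset_adjoin _ _ (by simp)
  have h8 : adjoin k {ζL} = (adjoin k {ζ}).map
      (IsScalarTower.toAlgHom k K' (AdjoinRoot (f.map (algebraMap K K')))) := by
    rw [adjoin_map, Set.image_singleton]
    rfl
  rw [h8] at hxmem
  obtain ⟨z, hz, hzx⟩ := hxmem
  exact ⟨⟨z, hz⟩, hzx⟩

end

end Pool.Agent.MP1bdb59C
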