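import Mathlib
import Pool.Agent.MP1bdb59C.Desc

/-!
# The local condition
-/

open Polynomial

noncomputable section

namespace Pool.Agent.MP1bdb59C

/-- The local condition on a class `m` at an extension `F` of `K`: the inverse of `m` is the value
at `x = θ` of the norm (a principal ideal generated by a polynomial) of an ideal of
`F[x,y]/(y^ℓ - f)` which is prime to `y`. -/
def LocCond {K : Type*} [Field K] {ℓ : ℕ} [Fact ℓ.Prime] {f : K[X]} {ζ : K}
    (hζ : IsPrimitiveRoot ζ ℓ) (F : Type*) [Field F] [Algebra K F] (m : AdjoinRoot f) : Prop :=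
  ∃ (𝔞 : Ideal (CoordRing ℓ (f.map (algebraMap K F)))) (a : F[X]),
    (∃ s ∈ 𝔞, red (f.map (algebraMap K F)) s = 1) ∧
    nrm (tauI (hζ.map_of_injective (algebraMap K F).injective)) ℓ 𝔞 =
      Ideal.span {of (f.map (algebraMap K F)) a} ∧
    AdjoinRoot.mk (f.map (algebraMap K F)) a * lamMap (algebraMap K F) rfl m = 1

end Pool.Agent.MP1bdb59C
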