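import Mathlib
import Pool.Agent.MP1bdb59.Comp

/-!
# Completions at a place given by a height one prime
-/

noncomputable section

open scoped Classical WithZero

namespace Pool.Agent.MP1bdb59C

open Pool.Agent.MP1bdb59 IsDedekindDomain

universe w

variable {k : Type*} {A K : Type*} [Field k] [CommRing A] [IsDedekindDomain A]
  [Field K] [Algebra A K] [IsFractionRing A K] [Algebra k K]
  {O : Type*} {L : Type w} [CommRing O] [IsDedekindDomain O] [Algebra A O]
  [Module.IsTorsionFree A O] [Field L] [Algebra K L] [Algebra A L] [IsScalarTower A K L]
  [Algebra O L] [IsFractionRing O L] [IsScalarTower A O L]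

/-- Everything needed about the completion of `L` at a prime `P` of `O` above `p`, for a place `v`
of `K` whose valuation ring is the local ring of `p`. -/
theorem exists_completion' (v : Place k K) (p : HeightOneSpectrum A)
    (hv : v.ring = (p.valuation K).valuationSubring) (P : HeightOneSpectrum O)
    [P.asIdeal.LiesOver p.asIdeal] :
    ∃ (M : Type w) (_ : Field M) (_ : Algebra K M) (_ : Algebra (Completion v) M)
      (l : L →ₐ[K] M) (w : Valuation M ℤᵐ⁰),
      (∀ x : K, algebraMap K M x = algebraMap (Completion v) M (algebraMap K _ x)) ∧
      (∀ x : L, w (l x) = P.valuation L x) ∧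
      (∀ (z : (Completion v)) (d : M), d ≠ 0 →
        ∃ x : K, w (algebraMap K M x - algebraMap (Completion v) M z) < w d) := by
  have h : v.ring.valuation.IsEquiv ((P.valuation L).comap (algebraMap K L)) := by
    rw [hv]
    exact isEquiv_of_liesOver (K := K) (L := L) p P
  have hc := coinitial_of_liesOver (K := K) (L := L) p P
  let φ := compMap v.ring.valuation (P.valuation L) h hc
  let l₀ : L →+* (P.valuation L).Completion :=
    (UniformSpace.Completion.coeRingHom (α := WithVal (P.valuation L))).comp
      (WithVal.equiv (P.valuation L)).symm.toRingHom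
  let i1 : Algebra K (P.valuation L).Completion := (l₀.comp (algebraMap K L)).toAlgebra
  let i2 : Algebra (Completion v) (P.valuation L).Completion := φ.toAlgebra
  refine ⟨(P.valuation L).Completion, inferInstance, i1, i2, ⟨l₀, fun _ => rfl⟩, Valued.v,
    ?_, ?_, ?_⟩
  · intro x
    exact (compMap_coe _ _ h hc (WithVal.toVal _ x)).symm
  · intro x
    exact Valued.valuedCompletion_apply _
  · intro z d hd
    exact compMap_approx _ _ h hc z d hd

end Pool.Agent.MP1bdb59C
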