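import Mathlib
import Pool.Agent.MP1bdb59C.Comp2

/-!
# The valuation ring of a completion is a discrete valuation ring
-/

noncomputable section

open scoped Classical WithZero

namespace Pool.Agent.MP1bdb59C

open Pool.Agent.MP1bdb59 IsDedekindDomain

section

variable {F : Type*} [Field F] {v : Valuation F ℤᵐ⁰}

lemma isUnit_iff_val_eq_one (r : v.valuationSubring) : IsUnit r ↔ v (r : F) = 1 := by
  constructor
  · intro hr
    obtain ⟨s, hs⟩ := hr.exists_right_inv
    have h1 : v (r : F) * v (s : F) = 1 := by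
      rw [← map_mul]
      have : (r : F) * (s : F) = 1 := congrArg Subtype.val hs
      rw [this, map_one]
    have h2 : v (r : F) ≤ 1 := r.2
    have h3 : v (s : F) ≤ 1 := s.2
    apply le_antisymm h2
    rw [← h1]
    exact mul_le_of_le_one_right' h3
  · intro hr
    have h0 : (r : F) ≠ 0 := by
      intro h0
      rw [h0, map_zero] at hr
      exact zero_ne_one hr
    have h1 : v ((r : F)⁻¹) ≤ 1 := by rw [map_inv₀, hr, inv_one]
    refine IsUnit.of_mul_eq_one ⟨(r : F)⁻¹, h1⟩ ?_
    apply Subtype.ext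
    exact mul_inv_cancel₀ h0

lemma irreducible_of_exp_neg_one {π : v.valuationSubring}
    (hϖ : v (π : F) = WithZero.exp (-1 : ℤ)) : Irreducible π := by
  constructor
  · intro hu
    have := (isUnit_iff_val_eq_one π).mp hu
    rw [hϖ] at this
    have h1 : WithZero.exp (-1 : ℤ) = WithZero.exp (0 : ℤ) := this
    rw [WithZero.exp_inj] at h1
    norm_num at h1
  · intro a b hab
    by_contra hcon
    push Not at hcon
    obtain ⟨ha, hb⟩ := hcon
    have hv : v (a : F) * v (b : F) = WithZero.exp (-1 : ℤ) := by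
      rw [← map_mul, ← hϖ]
      exact congrArg v (congrArg Subtype.val hab).symm
    have ha0 : v (a : F) ≠ 0 := by
      intro h0
      rw [h0, zero_mul] at hv
      exact WithZero.exp_ne_zero hv.symm
    have hb0 : v (b : F) ≠ 0 := by
      intro h0
      rw [h0, mul_zero] at hv
      exact WithZero.exp_ne_zero hv.symm
    have key : ∀ r : v.valuationSubring, ¬ IsUnit r → v (r : F) ≠ 0 →
        WithZero.log (v (r : F)) ≤ -1 := by
      intro r hr hr0
      have h1 : v (r : F) ≤ 1 := r.2
      have h2 : v (r : F) ≠ 1 := fun h => hr ((isUnit_iff_val_eq_one r).mpr h)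
      have h3 : v (r : F) < 1 := lt_of_le_of_ne h1 h2
      rw [← WithZero.exp_log hr0] at h3
      change _ < WithZero.exp (0 : ℤ) at h3
      rw [WithZero.exp_lt_exp] at h3
      omega
    have h1 := key a ha ha0
    have h2 := key b hb hb0
    rw [← WithZero.exp_log ha0, ← WithZero.exp_log hb0, ← WithZero.exp_add,
      WithZero.exp_inj] at hv
    omega

end

/-- The valuation subring of a valuation with values in `ℤᵐ⁰` that takes the value `exp (-1)` is
a discrete valuation ring. -/
theorem isDVR_of_exp_neg_one {F : Type*} [Field F] (v : Valuation F ℤᵐ⁰) {ϖ : F}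
    (hϖ : v ϖ = WithZero.exp (-1 : ℤ)) : IsDiscreteValuationRing v.valuationSubring := by
  have hϖ1 : v ϖ ≤ 1 := by
    rw [hϖ]
    change WithZero.exp (-1 : ℤ) ≤ WithZero.exp (0 : ℤ)
    rw [WithZero.exp_le_exp]
    norm_num
  have hϖ0 : ϖ ≠ 0 := by
    rintro rfl
    rw [map_zero] at hϖ
    exact WithZero.exp_ne_zero hϖ.symm
  set π : v.valuationSubring := ⟨ϖ, hϖ1⟩ with hπ
  have hirr : Irreducible π := irreducible_of_exp_neg_one hϖ
  apply IsDiscreteValuationRing.ofHasUnitMulPowIrreducibleFactorization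
  refine ⟨π, hirr, fun {x} hx => ?_⟩
  have hx0 : (x : F) ≠ 0 := fun h => hx (Subtype.ext h)
  have hvx0 : v (x : F) ≠ 0 := by rwa [Ne, map_eq_zero]
  have hvx1 : v (x : F) ≤ 1 := x.2
  set n : ℤ := WithZero.log (v (x : F)) with hn
  have hn0 : n ≤ 0 := by
    rw [← WithZero.exp_log hvx0] at hvx1
    change _ ≤ WithZero.exp (0 : ℤ) at hvx1
    rwa [WithZero.exp_le_exp] at hvx1
  refine ⟨(-n).toNat, ?_⟩
  have hvu : v ((x : F) / ϖ ^ (-n).toNat) = 1 := by
    rw [map_div₀, map_pow, hϖ, ← WithZero.exp_nsmul, ← WithZero.exp_log hvx0, ← hn,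
      ← WithZero.exp_sub, nsmul_eq_mul, Int.toNat_of_nonneg (by omega)]
    change _ = WithZero.exp (0 : ℤ)
    congr 1
    ring
  obtain ⟨u, hu⟩ := (isUnit_iff_val_eq_one ⟨(x : F) / ϖ ^ (-n).toNat, hvu.le⟩).mpr hvu
  refine ⟨u, ?_⟩
  rw [hu]
  apply Subtype.ext
  change ϖ ^ (-n).toNat * ((x : F) / ϖ ^ (-n).toNat) = x
  exact mul_div_cancel₀ _ (pow_ne_zero _ hϖ0)

/-- The valuation of the completion at a height one prime, and its valuation ring. -/
theorem exists_dvr {k : Type*} {A K : Type*} [Field k] [CommRing A] [IsDedekindDomain A]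
    [Field K] [Algebra A K] [IsFractionRing A K] [Algebra k K] (p : HeightOneSpectrum A)
    (v : Place k K) (hv : v.ring = (p.valuation K).valuationSubring) :
    ∃ vF : Valuation (Completion v) ℤᵐ⁰,
      (∀ x : K, vF (algebraMap K (Completion v) x) = p.valuation K x) ∧
      (∀ z d : Completion v, d ≠ 0 → ∃ x : K, vF (algebraMap K (Completion v) x - z) < vF d) ∧
      IsDiscreteValuationRing vF.valuationSubring := by
  have hlo : p.asIdeal.LiesOver p.asIdeal := ⟨by
    change p.asIdeal = Ideal.comap (RingHom.id A) p.asIdeal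
    rw [Ideal.comap_id]⟩
  obtain ⟨M, _, _, _, l, w, h1, h2, h3⟩ := exists_completion' (O := A) (L := K) v p hv p
  have hx : ∀ x : K, w.comap (algebraMap (Completion v) M) (algebraMap K (Completion v) x) =
      p.valuation K x := by
    intro x
    rw [Valuation.comap_apply, ← h1, ← h2 x]
    congr 1
    exact (l.commutes x).symm
  refine ⟨w.comap (algebraMap (Completion v) M), hx, ?_, ?_⟩
  · intro z d hd
    obtain ⟨x, hx⟩ := h3 z (algebraMap (Completion v) M d) (by rwa [Ne, map_eq_zero])
    refine ⟨x, ?_⟩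
    rw [Valuation.comap_apply, Valuation.comap_apply, map_sub, ← h1]
    exact hx
  · obtain ⟨π, hπ⟩ := p.valuation_exists_uniformizer K
    exact isDVR_of_exp_neg_one _ (ϖ := algebraMap K (Completion v) π) (by rw [hx, hπ])

end Pool.Agent.MP1bdb59C
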