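import Mathlib
import Pool.Agent.MP1bdb59C.Desc

/-!
# Valuations of norms of ideals prime to `y` are multiples of `ℓ`: the algebraic part
-/

open Polynomial Finset

noncomputable section

open scoped Classical WithZero

set_option linter.unusedSectionVars false

namespace Pool.Agent.MP1bdb59C

/-! ### A form of Nakayama's lemma -/

section Nak

variable {B : Type*} [CommRing B] (𝔫 : Ideal B) [h𝔫 : 𝔫.IsPrime]

lemma eval_notMem {y U : B} (hy : y ∈ 𝔫) (hU : U ∉ 𝔫) {p : B[X]} (hp : p.Monic)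
    (hc : ∀ k, p.coeff k ∈ Ideal.span {y} ^ (p.natDegree - k)) : p.eval U ∉ 𝔫 := by
  have h1 : p.map (Ideal.Quotient.mk 𝔫) = X ^ p.natDegree := by
    ext k
    rw [coeff_map, coeff_X_pow]
    split_ifs with hk
    · rw [hk, hp.coeff_natDegree, map_one]
    · rcases lt_or_ge k p.natDegree with hlt | hge
      · rw [Ideal.Quotient.eq_zero_iff_mem]
        have h2 := hc k
        have h3 : Ideal.span {y} ^ (p.natDegree - k) ≤ 𝔫 :=
          (Ideal.pow_le_self (by omega)).trans ((Ideal.span_singleton_le_iff_mem _).mpr hy)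
        exact h3 h2
      · rw [coeff_eq_zero_of_natDegree_lt (by omega), map_zero]
  intro h
  rw [← Ideal.Quotient.eq_zero_iff_mem, ← eval₂_at_apply, ← eval_map, h1, eval_pow, eval_X,
    ← map_pow, Ideal.Quotient.eq_zero_iff_mem] at h
  exact hU (h𝔫.mem_of_pow_mem _ h)

lemma exists_det {y : B} (hy : y ∈ 𝔫) (d : Ideal B) (hd : d.FG) {z : B} (hz : z ∈ d)
    (h : ∀ b ∈ d, ∃ u, u ∉ 𝔫 ∧ ∃ c, ∃ b' ∈ d, u * b = c * z + y * b') :
    ∃ D, D ∉ 𝔫 ∧ ∀ b ∈ d, ∃ c, D * b = z * c := by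
  obtain ⟨s, hs⟩ := hd
  have hsd : ∀ b ∈ s, b ∈ d := fun b hb => by rw [← hs]; exact Ideal.subset_span hb
  choose! u hu c b' hb' hub using fun b (hb : b ∈ s) => h b (hsd b hb)
  set U : B := ∏ b ∈ s, u b with hU
  have hU𝔫 : U ∉ 𝔫 := by
    intro hm
    obtain ⟨b, hb, hb2⟩ := (h𝔫.prod_mem_iff).mp hm
    exact hu b hb hb2
  have hUb : ∀ b ∈ d, ∃ c, ∃ b' ∈ d, U * b = c * z + y * b' := by
    intro b hb
    rw [← hs] at hb
    refine Submodule.span_induction (p := fun b _ => ∃ c, ∃ b' ∈ d, U * b = c * z + y * b')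
      ?_ ?_ ?_ ?_ hb
    · intro x hx
      have hx' : x ∈ s := hx
      refine ⟨(∏ t ∈ s.erase x, u t) * c x, (∏ t ∈ s.erase x, u t) * b' x,
        d.mul_mem_left _ (hb' x hx'), ?_⟩
      rw [hU, ← Finset.prod_erase_mul _ _ hx', mul_assoc, hub x hx']
      ring
    · exact ⟨0, 0, d.zero_mem, by ring⟩
    · rintro x x' _ _ ⟨c1, b1, hb1, h1⟩ ⟨c2, b2, hb2, h2⟩
      exact ⟨c1 + c2, b1 + b2, d.add_mem hb1 hb2, by rw [mul_add, h1, h2]; ring⟩
    · rintro a x _ ⟨c1, b1, hb1, h1⟩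
      exact ⟨a * c1, a * b1, d.mul_mem_left _ hb1, by
        rw [smul_eq_mul, mul_left_comm, h1]; ring⟩
  have hfin : Module.Finite B d := Module.Finite.iff_fg.mpr ⟨s, hs⟩
  let N : Submodule B d := Submodule.span B {⟨z, hz⟩}
  let φ : Module.End B (d ⧸ N) := algebraMap B (Module.End B (d ⧸ N)) U
  have hφ : LinearMap.range φ ≤ Ideal.span {y} • (⊤ : Submodule B (d ⧸ N)) := by
    rintro _ ⟨q, rfl⟩
    obtain ⟨⟨b, hb⟩, rfl⟩ := N.mkQ_surjective q
    obtain ⟨c1, b1, hb1, h1⟩ := hUb b hb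
    have h2 : φ (N.mkQ ⟨b, hb⟩) = y • N.mkQ ⟨b1, hb1⟩ := by
      change U • N.mkQ ⟨b, hb⟩ = y • N.mkQ ⟨b1, hb1⟩
      rw [← map_smul, ← map_smul, ← sub_eq_zero, ← map_sub, Submodule.mkQ_apply,
        Submodule.Quotient.mk_eq_zero, Submodule.mem_span_singleton]
      refine ⟨c1, Subtype.ext ?_⟩
      change c1 * z = U * b - y * b1
      rw [h1]
      ring
    rw [h2]
    exact Submodule.smul_mem_smul (Ideal.mem_span_singleton_self y) trivial
  obtain ⟨p, hp1, _, hp3, hp4⟩ :=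
    LinearMap.exists_monic_and_natDegree_eq_and_coeff_mem_pow_and_aeval_eq_zero B φ
      (Ideal.span {y}) hφ
  refine ⟨p.eval U, eval_notMem 𝔫 hy hU𝔫 hp1 hp3, ?_⟩
  intro b hb
  rw [aeval_algebraMap_apply] at hp4
  have h5 : (p.eval U) • N.mkQ ⟨b, hb⟩ = 0 := by
    have := LinearMap.congr_fun hp4 (N.mkQ ⟨b, hb⟩)
    exact this
  rw [← map_smul, Submodule.mkQ_apply, Submodule.Quotient.mk_eq_zero,
    Submodule.mem_span_singleton] at h5
  obtain ⟨c1, hc1⟩ := h5
  refine ⟨c1, ?_⟩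
  have := congrArg Subtype.val hc1
  change c1 * z = p.eval U * b at this
  rw [← this]
  ring

end Nak

/-! ### Gauss' lemma over a discrete valuation ring -/

section Gauss

variable {R : Type*} [CommRing R] [IsDomain R] [IsDiscreteValuationRing R]

lemma gauss {a : R[X]} (ha : ∃ i, IsUnit (a.coeff i)) {r : R} (hr : r ≠ 0) {c q : R[X]}
    (h : a * c = C r * q) : ∃ c', c = C r * c' := by
  obtain ⟨p, hp⟩ := IsDiscreteValuationRing.exists_irreducible R
  have hpp : Prime (C p : R[X]) := prime_C_iff.mpr hp.prime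
  have hna : ¬ C p ∣ a := by
    rw [C_dvd_iff_dvd_coeff]
    intro hd
    obtain ⟨i, hi⟩ := ha
    exact hp.not_isUnit (isUnit_of_dvd_unit (hd i) hi)
  have key : ∀ (n : ℕ) (c q : R[X]), a * c = C (p ^ n) * q → ∃ c', c = C (p ^ n) * c' := by
    intro n
    induction n with
    | zero =>
      intro c q _
      exact ⟨c, by rw [pow_zero, C_1, one_mul]⟩
    | succ n ih =>
      intro c q hcq
      have h1 : C p ∣ a * c := by
        rw [hcq, pow_succ', C_mul, mul_assoc]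
        exact dvd_mul_right _ _
      obtain ⟨c1, hc1⟩ := (hpp.dvd_or_dvd h1).resolve_left hna
      have h2 : a * c1 = C (p ^ n) * q := by
        apply mul_left_cancel₀ hpp.ne_zero
        rw [mul_left_comm, ← hc1, hcq, pow_succ', C_mul, mul_assoc]
      obtain ⟨c2, hc2⟩ := ih c1 q h2
      exact ⟨c2, by rw [hc1, hc2, pow_succ', C_mul, mul_assoc]⟩
  obtain ⟨n, u, hu⟩ := IsDiscreteValuationRing.eq_unit_mul_pow_irreducible hr hp
  obtain ⟨c', hc'⟩ := key n c (C (u : R) * q) (by rw [h, hu, C_mul]; ring)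
  refine ⟨C (↑(u⁻¹) : R) * c', ?_⟩
  rw [hu, hc', C_mul, mul_assoc, mul_left_comm (C (p ^ n)), ← mul_assoc (C (u : R)), ← C_mul,
    Units.mul_inv, C_1, one_mul]

variable {F : Type*} [Field F] [Algebra R F] [IsFractionRing R F]

lemma exists_mul_map (q : F[X]) : ∃ r : R, r ≠ 0 ∧ ∃ q' : R[X],
    q'.map (algebraMap R F) = C (algebraMap R F r) * q := by
  obtain ⟨b, hb, h⟩ := IsLocalization.integerNormalization_spec (nonZeroDivisors R) q
  refine ⟨b, nonZeroDivisors.ne_zero hb, _, h.trans ?_⟩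
  rw [← algebraMap_smul F b q, smul_eq_C_mul]

lemma exists_of_mul {a : R[X]} (ha : ∃ i, IsUnit (a.coeff i)) {c : F[X]} {q : R[X]}
    (h : a.map (algebraMap R F) * c = q.map (algebraMap R F)) :
    ∃ c' : R[X], c'.map (algebraMap R F) = c := by
  obtain ⟨r, hr, c1, hc1⟩ := exists_mul_map (R := R) c
  have hinj := IsFractionRing.injective R F
  have h1 : a * c1 = C r * q := by
    apply Polynomial.map_injective _ hinj
    rw [Polynomial.map_mul, Polynomial.map_mul, hc1, map_C, mul_left_comm, h]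
  obtain ⟨c', hc'⟩ := gauss ha hr h1
  refine ⟨c', ?_⟩
  have h2 : (C (algebraMap R F r) : F[X]) ≠ 0 := by
    rw [Ne, C_eq_zero, map_eq_zero_iff _ hinj]
    exact hr
  apply mul_left_cancel₀ h2
  rw [← hc1, hc', Polynomial.map_mul, map_C]

end Gauss

/-! ### The coordinate ring over `R` inside the one over `F` -/

section Main

variable {R : Type*} [CommRing R] [IsDomain R] [IsDiscreteValuationRing R] {F : Type*}
  [Field F] [Algebra R F] [IsFractionRing R F] {ℓ : ℕ} [hp : Fact ℓ.Prime] {f : R[X]}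

/-- the inclusion. -/
abbrev jj (F : Type*) [Field F] [Algebra R F] (ℓ : ℕ) (f : R[X]) :
    CoordRing ℓ f →+* CoordRing ℓ (f.map (algebraMap R F)) :=
  coordMap ℓ (algebraMap R F) rfl

/-- constants. -/
abbrev cst (f : R[X]) (r : R) : CoordRing ℓ f := of f (C r)

lemma cst_mul (r r' : R) : (cst f (r * r') : CoordRing ℓ f) = cst f r * cst f r' := by
  unfold cst
  rw [C_mul, map_mul]

lemma jj_injective : Function.Injective (jj F ℓ f) :=
  coordMap_injective (IsFractionRing.injective R F) rfl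

lemma jj_cst (r : R) : jj F ℓ f (cst f r) = of _ (C (algebraMap R F r)) := by
  unfold jj cst
  rw [coordMap_of, map_C]

lemma exists_mul_jj (x : CoordRing ℓ (f.map (algebraMap R F))) :
    ∃ r : R, r ≠ 0 ∧ ∃ b : CoordRing ℓ f, jj F ℓ f b = jj F ℓ f (cst f r) * x := by
  rw [eq_sum x]
  refine Finset.sum_induction _ (fun x => ∃ r : R, r ≠ 0 ∧ ∃ b : CoordRing ℓ f,
    jj F ℓ f b = jj F ℓ f (cst f r) * x) ?_ ?_ ?_
  · rintro x y ⟨r, hr, b, hb⟩ ⟨r', hr', b', hb'⟩
    refine ⟨r * r', mul_ne_zero hr hr', cst f r' * b + cst f r * b', ?_⟩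
    rw [map_add, map_mul, map_mul, hb, hb', cst_mul, map_mul]
    ring
  · exact ⟨1, one_ne_zero, 0, by rw [map_zero, mul_zero]⟩
  · intro k _
    obtain ⟨r, hr, q', hq'⟩ := exists_mul_map (R := R) (coef x k)
    refine ⟨r, hr, of f q' * yy ^ k, ?_⟩
    rw [map_mul, map_pow, coordMap_of, coordMap_yy, hq', jj_cst, map_mul]
    ring

/-- divisibility by a primitive polynomial descends. -/
lemma exists_jj_of_mul {a : R[X]} (ha : ∃ i, IsUnit (a.coeff i))
    {c : CoordRing ℓ (f.map (algebraMap R F))} {n : CoordRing ℓ f}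
    (h : of _ (a.map (algebraMap R F)) * c = jj F ℓ f n) : ∃ b, jj F ℓ f b = c := by
  have h1 : ∀ k, ∃ q : R[X], q.map (algebraMap R F) = coef c k := by
    intro k
    apply exists_of_mul ha (q := coef n k)
    rw [← coef_of_mul, h, coef_coordMap]
  choose q hq using h1
  refine ⟨∑ k ∈ range ℓ, of f (q k) * yy ^ k, ?_⟩
  rw [map_sum]
  conv_rhs => rw [eq_sum c]
  apply Finset.sum_congr rfl
  intro k _
  rw [map_mul, map_pow, coordMap_of, coordMap_yy, hq]

lemma cst_ne_zero {r : R} (hr : r ≠ 0) : (cst f r : CoordRing ℓ f) ≠ 0 := by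
  intro h
  apply hr
  have : (of f (C r) : CoordRing ℓ f) = of f (C 0) := by rw [C_0, map_zero]; exact h
  exact C_injective (of_injective this)

/-- the `p`-saturation property of the contraction of an ideal. -/
lemma mem_comap_of_cst_mul {𝔞 : Ideal (CoordRing ℓ (f.map (algebraMap R F)))} {r : R}
    (hr : r ≠ 0) {b : CoordRing ℓ f} (h : cst f r * b ∈ 𝔞.comap (jj F ℓ f)) :
    b ∈ 𝔞.comap (jj F ℓ f) := by
  rw [Ideal.mem_comap] at h ⊢
  have h1 : (jj F ℓ f b) = of _ (C (algebraMap R F r)⁻¹) * jj F ℓ f (cst f r * b) := by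
    rw [map_mul, jj_cst, ← mul_assoc, ← map_mul, ← C_mul, inv_mul_cancel₀, C_1, map_one, one_mul]
    rwa [Ne, map_eq_zero_iff _ (IsFractionRing.injective R F)]
  rw [h1]
  exact 𝔞.mul_mem_left _ h

lemma yy_mul_mem {A : Type*} [CommRing A] [Nontrivial A] {g : A[X]} {𝔞 : Ideal (CoordRing ℓ g)}
    (hs : ∃ s ∈ 𝔞, red g s = 1) {b : CoordRing ℓ g} (h : yy * b ∈ 𝔞) : b ∈ 𝔞 := by
  obtain ⟨s, hs, hs1⟩ := hs
  obtain ⟨t, ht⟩ := red_eq_zero (g := g) (z := 1 - s) (by rw [map_sub, map_one, hs1, sub_self])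
  have h1 : b = b * s + t * (yy * b) := by
    have : b = b * (1 - s) + b * s := by ring
    calc b = b * (1 - s) + b * s := this
      _ = _ := by rw [ht]; ring
  rw [h1]
  exact 𝔞.add_mem (𝔞.mul_mem_left _ hs) (𝔞.mul_mem_left _ h)

section Props

variable {ζ : R} (hζ : IsPrimitiveRoot (algebraMap R F ζ) ℓ) (hζ1 : ζ ^ ℓ = 1)

lemma jj_tau (b : CoordRing ℓ f) :
    jj F ℓ f (tau hζ1 f b) = tau hζ.pow_eq_one _ (jj F ℓ f b) :=
  coordMap_tau (algebraMap R F) rfl hζ1 hζ.pow_eq_one rfl b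

lemma tau_surj {A : Type*} [CommRing A] [Nontrivial A] {g : A[X]} {ξ : A}
    (hξ : ξ ^ ℓ = 1) : Function.Surjective (tau hξ g : CoordRing ℓ g →+* CoordRing ℓ g) := by
  intro z
  obtain ⟨n, hn⟩ := Nat.exists_eq_succ_of_ne_zero hp.out.ne_zero
  refine ⟨(tau hξ g)^[n] z, ?_⟩
  rw [← Function.iterate_succ_apply' (tau hξ g), ← hn, tau_iterate_ell]

lemma tau_cst (r : R) : tau hζ1 f (cst f r) = cst f r := tau_of _ _

/-- `D I ⊆ (z)` up to denominators in `R`. -/
def Pr (I : Ideal (CoordRing ℓ (f.map (algebraMap R F)))) (D z : CoordRing ℓ f) : Prop :=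
  ∀ x ∈ I, ∃ r : R, r ≠ 0 ∧ ∃ c : CoordRing ℓ f, jj F ℓ f (cst f r * D) * x = jj F ℓ f (z * c)

lemma pr_mul {I I' : Ideal (CoordRing ℓ (f.map (algebraMap R F)))} {D D' z z' : CoordRing ℓ f}
    (h : Pr I D z) (h' : Pr I' D' z') : Pr (I * I') (D * D') (z * z') := by
  intro x hx
  refine Submodule.mul_induction_on hx ?_ ?_
  · intro m hm n hn
    obtain ⟨r, hr, c, hc⟩ := h m hm
    obtain ⟨r', hr', c', hc'⟩ := h' n hn
    refine ⟨r * r', mul_ne_zero hr hr', c * c', ?_⟩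
    have e1 : cst f (r * r') * (D * D') = (cst f r * D) * (cst f r' * D') := by
      rw [cst_mul]
      ring
    have e2 : z * z' * (c * c') = (z * c) * (z' * c') := by ring
    rw [e1, e2, map_mul (jj F ℓ f) (cst f r * D), map_mul (jj F ℓ f) (z * c), ← hc, ← hc']
    ring
  · rintro x y ⟨r, hr, c, hc⟩ ⟨r', hr', c', hc'⟩
    refine ⟨r * r', mul_ne_zero hr hr', cst f r' * c + cst f r * c', ?_⟩
    have e1 : jj F ℓ f (cst f (r * r') * (D * D')) * (x + y) =
        jj F ℓ f (cst f r') * (jj F ℓ f (cst f r * (D * D')) * x) +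
        jj F ℓ f (cst f r) * (jj F ℓ f (cst f r' * (D * D')) * y) := by
      rw [cst_mul]
      simp only [map_mul]
      ring
    rw [e1, hc, hc', ← map_mul, ← map_mul, ← map_add]
    congr 1
    ring

lemma pr_tau {I : Ideal (CoordRing ℓ (f.map (algebraMap R F)))} {D z : CoordRing ℓ f}
    (h : Pr I D z) : Pr (tauI hζ I) (tau hζ1 f D) (tau hζ1 f z) := by
  intro x hx
  rw [tauI_apply, Ideal.mem_map_iff_of_surjective _ (tau_surj _)] at hx
  obtain ⟨x', hx', rfl⟩ := hx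
  obtain ⟨r, hr, c, hc⟩ := h x' hx'
  refine ⟨r, hr, tau hζ1 f c, ?_⟩
  rw [← tau_cst hζ1 r, ← map_mul, ← map_mul, jj_tau hζ hζ1, jj_tau hζ hζ1, ← map_mul, hc]

lemma pr_one : Pr (1 : Ideal (CoordRing ℓ (f.map (algebraMap R F)))) 1 1 := by
  intro x _
  obtain ⟨r, hr, b, hb⟩ := exists_mul_jj x
  exact ⟨r, hr, b, by rw [mul_one, one_mul, hb]⟩

lemma pr_iterate {I : Ideal (CoordRing ℓ (f.map (algebraMap R F)))} {D z : CoordRing ℓ f}
    (h : Pr I D z) (n : ℕ) :
    Pr ((tauI hζ)^[n] I) ((tau hζ1 f)^[n] D)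
      ((tau hζ1 f)^[n] z) := by
  induction n with
  | zero => exact h
  | succ n ih =>
    rw [Function.iterate_succ_apply', Function.iterate_succ_apply', Function.iterate_succ_apply']
    exact pr_tau hζ hζ1 ih

lemma pr_nrm {I : Ideal (CoordRing ℓ (f.map (algebraMap R F)))} {D z : CoordRing ℓ f}
    (h : Pr I D z) (n : ℕ) :
    Pr (nrm (tauI hζ) n I) (nrm (tau hζ1 f) n D)
      (nrm (tau hζ1 f) n z) := by
  induction n with
  | zero =>
    unfold nrm
    rw [Finset.range_zero, Finset.prod_empty, Finset.prod_empty, Finset.prod_empty]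
    exact pr_one
  | succ n ih =>
    rw [nrm_succ', nrm_succ', nrm_succ']
    exact pr_mul ih (pr_iterate hζ hζ1 h n)

/-- `z c ∈ p B` implies `D c ∈ p B`. -/
def Qr (p : R) (D z : CoordRing ℓ f) : Prop :=
  ∀ c e : CoordRing ℓ f, z * c = cst f p * e → ∃ e', D * c = cst f p * e'

lemma qr_mul {p : R} {D D' z z' : CoordRing ℓ f} (h : Qr p D z) (h' : Qr p D' z') :
    Qr p (D * D') (z * z') := by
  intro c e he
  obtain ⟨e1, he1⟩ := h (z' * c) e (by rw [← he]; ring)
  obtain ⟨e2, he2⟩ := h' (D * c) e1 (by rw [← he1]; ring)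
  exact ⟨e2, by rw [← he2]; ring⟩

lemma qr_tau {p : R} {D z : CoordRing ℓ f} (h : Qr p D z) :
    Qr p (tau hζ1 f D) (tau hζ1 f z) := by
  intro c e he
  obtain ⟨c, rfl⟩ := tau_surj hζ1 c
  obtain ⟨e, rfl⟩ := tau_surj hζ1 e
  rw [← tau_cst hζ1 p, ← map_mul, ← map_mul] at he
  obtain ⟨e', he'⟩ := h c e (tau_injective hζ1 he)
  exact ⟨tau hζ1 f e', by
    rw [← map_mul, he', map_mul, tau_cst]⟩

lemma qr_iterate {p : R} {D z : CoordRing ℓ f} (h : Qr p D z) (n : ℕ) :
    Qr p ((tau hζ1 f)^[n] D) ((tau hζ1 f)^[n] z) := by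
  induction n with
  | zero => exact h
  | succ n ih =>
    rw [Function.iterate_succ_apply', Function.iterate_succ_apply']
    exact qr_tau hζ1 ih

lemma qr_nrm {p : R} {D z : CoordRing ℓ f} (h : Qr p D z) (n : ℕ) :
    Qr p (nrm (tau hζ1 f) n D)
      (nrm (tau hζ1 f) n z) := by
  induction n with
  | zero =>
    unfold nrm
    rw [Finset.range_zero, Finset.prod_empty, Finset.prod_empty]
    exact fun c e he => ⟨e, he⟩
  | succ n ih =>
    rw [nrm_succ', nrm_succ']
    exact qr_mul ih (qr_iterate hζ1 h n)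

lemma nrm_mem_nrm {x : CoordRing ℓ (f.map (algebraMap R F))}
    {I : Ideal (CoordRing ℓ (f.map (algebraMap R F)))} (hx : x ∈ I) (n : ℕ) :
    nrm (tau hζ.pow_eq_one _) n x ∈ nrm (tauI hζ) n I := by
  have hit : ∀ n, (tau hζ.pow_eq_one _)^[n] x ∈ (tauI hζ)^[n] I := by
    intro n
    induction n with
    | zero => exact hx
    | succ n ih =>
      rw [Function.iterate_succ_apply', Function.iterate_succ_apply', tauI_apply]
      exact Ideal.mem_map_of_mem _ ih
  induction n with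
  | zero =>
    unfold nrm
    rw [Finset.range_zero, Finset.prod_empty, Finset.prod_empty, Ideal.one_eq_top]
    trivial
  | succ n ih =>
    rw [nrm_succ', nrm_succ']
    exact Ideal.mul_mem_mul ih (hit n)

lemma jj_nrm (n : ℕ) (z : CoordRing ℓ f) :
    jj F ℓ f (nrm (tau hζ1 f) n z) = nrm (tau hζ.pow_eq_one _) n (jj F ℓ f z) := by
  have hit : ∀ n, jj F ℓ f ((tau hζ1 f)^[n] z) = (tau hζ.pow_eq_one _)^[n] (jj F ℓ f z) := by
    intro n
    induction n with
    | zero => rfl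
    | succ n ih =>
      rw [Function.iterate_succ_apply', Function.iterate_succ_apply', jj_tau hζ hζ1, ih]
  unfold nrm
  rw [map_prod]
  exact Finset.prod_congr rfl fun i _ => hit i

end Props

section Val

variable {M : Type*} [Field M] (w : Valuation M ℤᵐ⁰)
  (ev : AdjoinRoot (f.map (algebraMap R F)) →+* M)

/-- the value of an element of the curve at the point `y = 0`. -/
def psi : CoordRing ℓ f →+* M := (ev.comp (red (f.map (algebraMap R F)))).comp (jj F ℓ f)

lemma psi_eq (b : CoordRing ℓ f) :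
    psi (F := F) ev b = ev (AdjoinRoot.mk _ ((coef b 0).map (algebraMap R F))) := by
  unfold psi
  rw [RingHom.comp_apply, RingHom.comp_apply, red_eq, coef_coordMap]

lemma psi_of (q : R[X]) :
    psi (F := F) (ℓ := ℓ) (f := f) ev (of f q) = ev (AdjoinRoot.mk _ (q.map (algebraMap R F))) := by
  rw [psi_eq, coef_of, if_pos rfl]

lemma psi_yy : psi (F := F) (ℓ := ℓ) (f := f) ev yy = 0 := by
  unfold psi
  rw [RingHom.comp_apply, RingHom.comp_apply, coordMap_yy, red_yy, map_zero]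

lemma psi_tau {ζ : R} (hζ1 : ζ ^ ℓ = 1) (b : CoordRing ℓ f) :
    psi (F := F) ev (tau hζ1 f b) = psi (F := F) ev b := by
  rw [psi_eq, psi_eq, coef_tau, pow_zero, C_1, one_mul]

lemma psi_nrm {ζ : R} (hζ1 : ζ ^ ℓ = 1) (n : ℕ) (b : CoordRing ℓ f) :
    psi (F := F) ev (nrm (tau hζ1 f) n b) = psi (F := F) ev b ^ n := by
  have hit : ∀ n, psi (F := F) ev ((tau hζ1 f)^[n] b) = psi (F := F) ev b := by
    intro n
    induction n with
    | zero => rfl
    | succ n ih => rw [Function.iterate_succ_apply', psi_tau, ih]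
  unfold nrm
  rw [map_prod, Finset.prod_congr rfl (fun i _ => hit i), Finset.prod_const, Finset.card_range]

variable (hev : ∀ q : R[X], w (ev (AdjoinRoot.mk _ (q.map (algebraMap R F)))) ≤ 1)

include hev in
lemma psi_le (b : CoordRing ℓ f) : w (psi (F := F) ev b) ≤ 1 := by
  rw [psi_eq]
  exact hev _

/-- the prime ideal of elements of positive valuation. -/
def nn : Ideal (CoordRing ℓ f) where
  carrier := {b | w (psi (F := F) ev b) < 1}
  zero_mem' := by
    change w (psi (F := F) ev 0) < 1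
    rw [map_zero, map_zero]
    exact zero_lt_one
  add_mem' := by
    intro a b ha hb
    change w (psi (F := F) ev (a + b)) < 1
    rw [map_add]
    exact w.map_add_lt ha hb
  smul_mem' := by
    intro c b hb
    change w (psi (F := F) ev (c * b)) < 1
    rw [map_mul, map_mul]
    exact mul_lt_one_of_nonneg_of_lt_one_right (psi_le w ev hev c) zero_le hb

lemma mem_nn {b : CoordRing ℓ f} : b ∈ nn w ev hev ↔ w (psi (F := F) ev b) < 1 := Iff.rfl

lemma notMem_nn {b : CoordRing ℓ f} : b ∉ nn w ev hev ↔ w (psi (F := F) ev b) = 1 := by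
  rw [mem_nn, not_lt]
  exact ⟨fun h => le_antisymm (psi_le w ev hev b) h, fun h => h.ge⟩

instance : (nn (ℓ := ℓ) w ev hev).IsPrime := by
  refine ⟨?_, ?_⟩
  · rw [Ne, Ideal.eq_top_iff_one, mem_nn, map_one, map_one]
    exact lt_irrefl _
  · intro a b hab
    by_contra hcon
    push Not at hcon
    have h1 := (notMem_nn w ev hev).mp hcon.1
    have h2 := (notMem_nn w ev hev).mp hcon.2
    rw [mem_nn, map_mul, map_mul, h1, h2, one_mul] at hab
    exact lt_irrefl _ hab

end Val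

end Main

/-- E1 without superfluous hypotheses. -/
theorem norm_val0 {R : Type*} [CommRing R] [IsDomain R] [IsDiscreteValuationRing R] {F : Type*}
    [Field F] [Algebra R F] [IsFractionRing R F] {ℓ : ℕ} [hp : Fact ℓ.Prime] {f : R[X]}
    [hg : Good ℓ (f.map (algebraMap R F))]
    {ζ : R} (hζ : IsPrimitiveRoot (algebraMap R F ζ) ℓ) {M : Type*} [Field M]
    (w : Valuation M ℤᵐ⁰) (ev : AdjoinRoot (f.map (algebraMap R F)) →+* M)
    (hev : ∀ q : R[X], w (ev (AdjoinRoot.mk _ (q.map (algebraMap R F)))) ≤ 1)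
    (hreg : ∀ q₁ q₂ : R[X], w (ev (AdjoinRoot.mk _ (q₁.map (algebraMap R F)))) ≤
        w (ev (AdjoinRoot.mk _ (q₂.map (algebraMap R F)))) →
      ev (AdjoinRoot.mk _ (q₂.map (algebraMap R F))) ≠ 0 →
      ∃ u q₃ q₄ : R[X], w (ev (AdjoinRoot.mk _ (u.map (algebraMap R F)))) = 1 ∧
        u * q₁ = q₃ * q₂ + q₄ * f)
    (𝔞 : Ideal (CoordRing ℓ (f.map (algebraMap R F)))) (a : R[X])
    (ha : ∃ i, IsUnit (a.coeff i)) (hs : ∃ s ∈ 𝔞, red (f.map (algebraMap R F)) s = 1)
    (hN : nrm (tauI hζ) ℓ 𝔞 =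
      Ideal.span {of (f.map (algebraMap R F)) (a.map (algebraMap R F))}) :
    ∃ z : M, z ≠ 0 ∧ w (ev (AdjoinRoot.mk _ (a.map (algebraMap R F)))) = w z ^ ℓ := by
  have hinj := IsFractionRing.injective R F
  have hζ1 : ζ ^ ℓ = 1 := by
    apply hinj
    rw [map_pow, hζ.pow_eq_one, map_one]
  have hjj : Function.Injective (jj F ℓ f) := jj_injective
  have hdom : IsDomain (CoordRing ℓ f) := hjj.isDomain _
  have hnoeth : IsNoetherianRing (CoordRing ℓ f) := IsNoetherianRing.of_finite R[X] _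
  set d : Ideal (CoordRing ℓ f) := 𝔞.comap (jj F ℓ f) with hd
  have hmemd : ∀ b, b ∈ d ↔ jj F ℓ f b ∈ 𝔞 := fun b => Iff.rfl
  -- an element of `d` with nonzero value
  have hex : ∃ n : ℕ, ∃ z ∈ d, psi (F := F) ev z ≠ 0 ∧ w (psi (F := F) ev z) = WithZero.exp (-(n : ℤ)) := by
    obtain ⟨s, hs, hs1⟩ := hs
    obtain ⟨r, hr, b, hb⟩ := exists_mul_jj (R := R) s
    have hbd : b ∈ d := by
      rw [hmemd, hb]
      exact 𝔞.mul_mem_left _ hs
    have hb0 : psi (F := F) ev b ≠ 0 := by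
      unfold psi
      rw [RingHom.comp_apply, RingHom.comp_apply, hb, map_mul, hs1, mul_one, jj_cst, red_of,
        AdjoinRoot.mk_C]
      have h1 : ev (AdjoinRoot.of _ (algebraMap R F r)) = (ev.comp (AdjoinRoot.of _))
        (algebraMap R F r) := rfl
      rw [h1, Ne, map_eq_zero, map_eq_zero_iff _ hinj]
      exact hr
    have hle := psi_le w ev hev b
    have hne : w (psi (F := F) ev b) ≠ 0 := by rwa [Ne, map_eq_zero]
    refine ⟨(-(WithZero.log (w (psi (F := F) ev b)))).toNat, b, hbd, hb0, ?_⟩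
    have hlog : WithZero.log (w (psi (F := F) ev b)) ≤ 0 := by
      rw [← WithZero.log_one (M := ℤ)]
      exact (WithZero.log_le_log hne one_ne_zero).mpr hle
    rw [Int.toNat_of_nonneg (by omega), neg_neg, WithZero.exp_log hne]
  obtain ⟨z, hz, hz0, hzn⟩ := Nat.find_spec hex
  have hmax : ∀ b ∈ d, w (psi (F := F) ev b) ≤ w (psi (F := F) ev z) := by
    intro b hb
    by_cases hb0 : psi (F := F) ev b = 0
    · rw [hb0, map_zero]
      exact zero_le
    have hne : w (psi (F := F) ev b) ≠ 0 := by rwa [Ne, map_eq_zero]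
    have hlog : WithZero.log (w (psi (F := F) ev b)) ≤ 0 := by
      rw [← WithZero.log_one (M := ℤ)]
      exact (WithZero.log_le_log hne one_ne_zero).mpr (psi_le w ev hev b)
    have h2 : Nat.find hex ≤ (-(WithZero.log (w (psi (F := F) ev b)))).toNat := by
      apply Nat.find_min' hex
      refine ⟨b, hb, hb0, ?_⟩
      rw [Int.toNat_of_nonneg (by omega), neg_neg, WithZero.exp_log hne]
    rw [hzn, ← WithZero.exp_log hne, WithZero.exp_le_exp]
    omega
  -- `u b ∈ (z) + y d`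
  obtain ⟨D, hD, hDd⟩ := exists_det (nn w ev hev) (y := yy)
    ((mem_nn w ev hev).mpr (by rw [psi_yy, map_zero]; exact zero_lt_one)) d
    (IsNoetherian.noetherian d) hz (by
      intro b hb
      obtain ⟨u, q₃, q₄, hu, hq⟩ := hreg (coef b 0) (coef z 0)
        (by rw [← psi_eq, ← psi_eq]; exact hmax b hb) (by rw [← psi_eq]; exact hz0)
      refine ⟨of f u, ?_, of f q₃, ?_⟩
      · rw [notMem_nn, psi_of]
        exact hu
      · obtain ⟨b', hb'⟩ := red_eq_zero (g := f) (z := of f u * b - of f q₃ * z) (by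
          rw [map_sub, map_mul, map_mul, red_of, red_of, red_eq, red_eq, ← map_mul, ← map_mul,
            ← map_sub, hq, AdjoinRoot.mk_eq_zero]
          exact ⟨q₄, by ring⟩)
        refine ⟨b', ?_, by rw [← hb']; ring⟩
        rw [hmemd]
        apply yy_mul_mem hs
        have h3 : yy * jj F ℓ f b' = jj F ℓ f (of f u * b - of f q₃ * z) := by
          rw [hb', map_mul, coordMap_yy]
        rw [h3, ← hmemd]
        exact d.sub_mem (d.mul_mem_left _ hb) (d.mul_mem_left _ hz))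
  have hz0' : z ≠ 0 := by
    rintro rfl
    exact hz0 (map_zero _)
  -- the two properties
  have hPr : Pr 𝔞 D z := by
    intro x hx
    obtain ⟨r, hr, b, hb⟩ := exists_mul_jj (R := R) x
    have hbd : b ∈ d := by
      rw [hmemd, hb]
      exact 𝔞.mul_mem_left _ hx
    obtain ⟨c, hc⟩ := hDd b hbd
    refine ⟨r, hr, c, ?_⟩
    rw [← hc, map_mul, map_mul, hb]
    ring
  have hQr : ∀ p : R, p ≠ 0 → Qr p D z := by
    intro p hp0 c e he
    have hed : e ∈ d := by
      apply mem_comap_of_cst_mul hp0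
      rw [← he]
      exact d.mul_mem_right _ hz
    obtain ⟨g, hg⟩ := hDd e hed
    refine ⟨g, ?_⟩
    apply mul_left_cancel₀ hz0'
    calc z * (D * c) = D * (z * c) := by ring
      _ = cst f p * (D * e) := by rw [he]; ring
      _ = z * (cst f p * g) := by rw [hg]; ring
  set U : CoordRing ℓ f := nrm (tau hζ1 f) ℓ D with hU
  set N : CoordRing ℓ f := nrm (tau hζ1 f) ℓ z with hNdef
  have hPU := pr_nrm hζ hζ1 hPr ℓ
  have hQU : ∀ p : R, p ≠ 0 → Qr p U N := fun p hp0 => qr_nrm hζ1 (hQr p hp0) ℓ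
  obtain ⟨r, hr, c, hc⟩ := hPU (of _ (a.map (algebraMap R F))) (by
    rw [hN]
    exact Ideal.mem_span_singleton_self _)
  rw [← hU, ← hNdef] at hc
  have h1 : cst f r * U * of f a = N * c := by
    apply hjj
    rw [← hc, map_mul, coordMap_of (algebraMap R F) rfl a]
  obtain ⟨b, hb⟩ : ∃ b, N = of f a * b := by
    have h2 : jj F ℓ f N ∈ nrm (tauI hζ) ℓ 𝔞 := by
      rw [hNdef, jj_nrm hζ hζ1]
      exact nrm_mem_nrm hζ ((hmemd z).mp hz) ℓ
    rw [hN, Ideal.mem_span_singleton'] at h2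
    obtain ⟨c0, hc0⟩ := h2
    obtain ⟨b, hb⟩ := exists_jj_of_mul ha (c := c0) (n := N) (by rw [← hc0, mul_comm])
    refine ⟨b, ?_⟩
    apply hjj
    rw [map_mul, hb, coordMap_of, ← hc0, mul_comm]
  have ha0 : (of f a : CoordRing ℓ f) ≠ 0 := by
    intro h
    have h2 : a = 0 := of_injective (h.trans (map_zero _).symm)
    obtain ⟨i, hi⟩ := ha
    rw [h2, coeff_zero] at hi
    exact not_isUnit_zero hi
  have h2 : cst f r * U = b * c := by
    apply mul_left_cancel₀ ha0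
    calc of f a * (cst f r * U) = cst f r * U * of f a := by ring
      _ = N * c := h1
      _ = of f a * (b * c) := by rw [hb]; ring
  obtain ⟨p, hpi⟩ := IsDiscreteValuationRing.exists_irreducible R
  obtain ⟨n, v, hv⟩ := IsDiscreteValuationRing.eq_unit_mul_pow_irreducible hr hpi
  have hp0 : p ≠ 0 := hpi.ne_zero
  have hbQ : ∀ c e, b * c = cst f p * e → ∃ e', U * c = cst f p * e' := by
    intro c e he
    exact hQU p hp0 c (of f a * e) (by rw [hb, mul_assoc, he]; ring)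
  have key : ∀ (n : ℕ) (U' c : CoordRing ℓ f), cst f (p ^ n) * U' = b * c →
      ∃ c', U' * U ^ n = b * c' := by
    intro n
    induction n with
    | zero =>
      intro U' c h
      refine ⟨c, ?_⟩
      rw [pow_zero, mul_one, ← h, pow_zero, cst, C_1, map_one, one_mul]
    | succ n ih =>
      intro U' c h
      rw [pow_succ', cst_mul, mul_assoc] at h
      obtain ⟨e, he⟩ := hbQ c _ h.symm
      obtain ⟨c', hc'⟩ := ih (U' * U) e (by
        apply mul_left_cancel₀ (cst_ne_zero (f := f) (ℓ := ℓ) hp0)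
        calc cst f p * (cst f (p ^ n) * (U' * U)) = (cst f p * (cst f (p ^ n) * U')) * U := by ring
          _ = b * (U * c) := by rw [h]; ring
          _ = cst f p * (b * e) := by rw [he]; ring)
      exact ⟨c', by rw [← hc', pow_succ']; ring⟩
  obtain ⟨c', hc'⟩ := key n U (cst f (↑(v⁻¹) : R) * c) (by
    have h3 : cst f (p ^ n) = cst f (↑(v⁻¹) : R) * (cst f r : CoordRing ℓ f) := by
      rw [← cst_mul, hv, ← mul_assoc, Units.inv_mul, one_mul]
    rw [h3, mul_assoc, h2]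
    ring)
  have hUv : w (psi (F := F) ev U) = 1 := by
    rw [hU, psi_nrm, map_pow, (notMem_nn w ev hev).mp hD, one_pow]
  have hbv : w (psi (F := F) ev b) = 1 := by
    apply le_antisymm (psi_le w ev hev b)
    by_contra hlt
    rw [not_le] at hlt
    have h4 : w (psi (F := F) ev (U * U ^ n)) < 1 := by
      rw [hc', map_mul, map_mul]
      exact mul_lt_one_of_nonneg_of_lt_one_left zero_le hlt (psi_le w ev hev c')
    rw [map_mul, map_pow, map_mul, map_pow, hUv, one_pow, one_mul] at h4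
    exact lt_irrefl _ h4
  refine ⟨psi (F := F) ev z, hz0, ?_⟩
  have h5 : w (psi (F := F) ev N) = w (psi (F := F) ev (of f a * b)) := by rw [hb]
  rw [map_mul, map_mul, hbv, mul_one, hNdef, psi_nrm, map_pow, psi_of] at h5
  exact h5.symm

/-- E1: pure commutative algebra. -/
theorem norm_val {R : Type*} [CommRing R] [IsDomain R] [IsDiscreteValuationRing R] {F : Type*}
    [Field F] [Algebra R F] [IsFractionRing R F] {ℓ : ℕ} [hp : Fact ℓ.Prime] {f : R[X]}
    (hf : f.Monic) [hg : Good ℓ (f.map (algebraMap R F))]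
    {ζ : R} (hζ : IsPrimitiveRoot (algebraMap R F ζ) ℓ) {M : Type*} [Field M]
    (w : Valuation M ℤᵐ⁰) (ev : AdjoinRoot (f.map (algebraMap R F)) →+* M)
    (hev : ∀ q : R[X], w (ev (AdjoinRoot.mk _ (q.map (algebraMap R F)))) ≤ 1)
    (hϖ : ∀ r : R, ¬ IsUnit r → w (ev (AdjoinRoot.of _ (algebraMap R F r))) < 1)
    (hreg : ∀ q₁ q₂ : R[X], w (ev (AdjoinRoot.mk _ (q₁.map (algebraMap R F)))) ≤
        w (ev (AdjoinRoot.mk _ (q₂.map (algebraMap R F)))) →
      ev (AdjoinRoot.mk _ (q₂.map (algebraMap R F))) ≠ 0 →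
      ∃ u q₃ q₄ : R[X], w (ev (AdjoinRoot.mk _ (u.map (algebraMap R F)))) = 1 ∧
        u * q₁ = q₃ * q₂ + q₄ * f)
    (𝔞 : Ideal (CoordRing ℓ (f.map (algebraMap R F)))) (a : R[X])
    (ha : ∃ i, IsUnit (a.coeff i)) (hs : ∃ s ∈ 𝔞, red (f.map (algebraMap R F)) s = 1)
    (hN : nrm (tauI hζ) ℓ 𝔞 =
      Ideal.span {of (f.map (algebraMap R F)) (a.map (algebraMap R F))}) :
    ∃ z : M, z ≠ 0 ∧ w (ev (AdjoinRoot.mk _ (a.map (algebraMap R F)))) = w z ^ ℓ :=
  norm_val0 hζ w ev hev hreg 𝔞 a ha hs hN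

/-- The same over a polynomial `g` over `F` that is only equal to the image of `f`. -/
theorem norm_val' {R : Type*} [CommRing R] [IsDomain R] [IsDiscreteValuationRing R] {F : Type*}
    [Field F] [Algebra R F] [IsFractionRing R F] {ℓ : ℕ} [hp : Fact ℓ.Prime] {f : R[X]}
    {g : F[X]} (hgf : f.map (algebraMap R F) = g) [hg : Good ℓ g]
    {ζ : R} {ζF : F} (hζF : algebraMap R F ζ = ζF) (hζ : IsPrimitiveRoot ζF ℓ)
    {M : Type*} [Field M] (w : Valuation M ℤᵐ⁰) (ev : AdjoinRoot g →+* M)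
    (hev : ∀ q : R[X], w (ev (AdjoinRoot.mk _ (q.map (algebraMap R F)))) ≤ 1)
    (hreg : ∀ q₁ q₂ : R[X], w (ev (AdjoinRoot.mk _ (q₁.map (algebraMap R F)))) ≤
        w (ev (AdjoinRoot.mk _ (q₂.map (algebraMap R F)))) →
      ev (AdjoinRoot.mk _ (q₂.map (algebraMap R F))) ≠ 0 →
      ∃ u q₃ q₄ : R[X], w (ev (AdjoinRoot.mk _ (u.map (algebraMap R F)))) = 1 ∧
        u * q₁ = q₃ * q₂ + q₄ * f)
    (𝔞 : Ideal (CoordRing ℓ g)) (a : R[X])
    (ha : ∃ i, IsUnit (a.coeff i)) (hs : ∃ s ∈ 𝔞, red g s = 1)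
    (hN : nrm (tauI hζ) ℓ 𝔞 = Ideal.span {of g (a.map (algebraMap R F))}) :
    ∃ z : M, z ≠ 0 ∧ w (ev (AdjoinRoot.mk _ (a.map (algebraMap R F)))) = w z ^ ℓ := by
  subst hgf
  subst hζF
  exact norm_val0 hζ w ev hev hreg 𝔞 a ha hs hN

end Pool.Agent.MP1bdb59C
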