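import Mathlib
import Pool.Agent.MP1bdb59C.Even1
import Pool.Agent.MP1bdb59C.Dvr
import Pool.Agent.MP1bdb59C.Stmt

/-!
# Valuations of norms of ideals prime to `y` are multiples of `ℓ`: completions
-/

open Polynomial IsDedekindDomain Topology

noncomputable section

open scoped Classical WithZero

set_option linter.unusedSectionVars false

namespace Pool.Agent.MP1bdb59C

open Pool.Agent.MP1bdb59 (Place Completion compMap compMap_coe compMap_approx continuous_map
  ball_mem_nhds isEquiv_of_liesOver coinitial_of_liesOver)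

universe w

section Ext

variable {K L : Type*} [Field K] [Field L] [Algebra K L] {Γ₁ Γ₂ : Type*}
  [LinearOrderedCommGroupWithZero Γ₁] [LinearOrderedCommGroupWithZero Γ₂]
  (v₁ : Valuation K Γ₁) (v₂ : Valuation L Γ₂)

lemma val_eq_of_sub_lt {R Γ₀ : Type*} [Ring R] [LinearOrderedCommMonoidWithZero Γ₀]
    (v : Valuation R Γ₀) {x y : R} (h : v (x - y) < v y) : v x = v y := by
  have : x = (x - y) + y := by abel
  rw [this]
  exact v.map_add_eq_of_lt_right h

lemma compMap_isEquiv (h : v₁.IsEquiv (v₂.comap (algebraMap K L)))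
    (hc : ∀ d : L, d ≠ 0 → ∃ e : K, e ≠ 0 ∧ v₂ (algebraMap K L e) ≤ v₂ d) :
    (Valued.v : Valuation v₁.Completion Γ₁).IsEquiv
      ((Valued.v : Valuation v₂.Completion Γ₂).comap (compMap v₁ v₂ h hc)) := by
  apply Valuation.isEquiv_of_val_le_one
  intro z
  by_cases hz : z = 0
  · rw [hz, map_zero, map_zero]
    exact ⟨fun _ => zero_le_one, fun _ => zero_le_one⟩
  have hφz : compMap v₁ v₂ h hc z ≠ 0 := by rwa [Ne, map_eq_zero]
  have h1 := ball_mem_nhds z z hz
  have h2 := ball_mem_nhds (compMap v₁ v₂ h hc z) _ hφz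
  have hcont : Continuous (compMap v₁ v₂ h hc) := by
    change Continuous (UniformSpace.Completion.map _)
    exact UniformSpace.Completion.continuous_map
  have h3 := hcont.continuousAt.preimage_mem_nhds h2
  obtain ⟨y, hy⟩ := (UniformSpace.Completion.denseRange_coe (α := WithVal v₁)).exists_mem_open
    isOpen_interior ⟨z, mem_interior_iff_mem_nhds.mpr (Filter.inter_mem h1 h3)⟩
  obtain ⟨hy1, hy2⟩ := interior_subset hy
  have e1 : Valued.v (y : v₁.Completion) = (Valued.v z : Γ₁) := val_eq_of_sub_lt _ hy1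
  have e2 : Valued.v (compMap v₁ v₂ h hc (y : v₁.Completion)) =
      (Valued.v (compMap v₁ v₂ h hc z) : Γ₂) := val_eq_of_sub_lt _ hy2
  rw [Valuation.comap_apply, ← e1, ← e2, compMap_coe]
  have e3 : (Valued.v (y : v₁.Completion) : Γ₁) = v₁ y.ofVal := Valued.valuedCompletion_apply _
  have e4 : (Valued.v ((WithVal.map v₁ v₂ (algebraMap K L) y : WithVal v₂) : v₂.Completion) : Γ₂) =
      v₂ (algebraMap K L y.ofVal) := Valued.valuedCompletion_apply _
  rw [e3, e4]
  exact h.le_one_iff_le_one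

end Ext

section Places

variable {k : Type*} {A K : Type*} [Field k] [CommRing A] [IsDedekindDomain A]
  [Field K] [Algebra A K] [IsFractionRing A K] [Algebra k K]

/-- the valuation of the completion. -/
def vC (v : Place k K) : Valuation (Completion v) v.ring.ValueGroup :=
  (Valued.v : Valuation v.ring.valuation.Completion v.ring.ValueGroup)

section

variable {O : Type*} {L : Type w} [CommRing O] [IsDedekindDomain O] [Algebra A O]
  [Module.IsTorsionFree A O] [Field L] [Algebra K L] [Algebra A L] [IsScalarTower A K L]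
  [Algebra O L] [IsFractionRing O L] [IsScalarTower A O L]

/-- Everything needed about the completion of `L` at a prime `P` of `O` above `p`. -/
theorem exists_completion2 (v : Place k K) (p : HeightOneSpectrum A)
    (hv : v.ring = (p.valuation K).valuationSubring) (P : HeightOneSpectrum O)
    [P.asIdeal.LiesOver p.asIdeal] :
    ∃ (M : Type w) (_ : Field M) (_ : Algebra K M) (_ : Algebra (Completion v) M)
      (l : L →ₐ[K] M) (w : Valuation M ℤᵐ⁰),
      (∀ x : K, algebraMap K M x = algebraMap (Completion v) M (algebraMap K _ x)) ∧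
      (∀ x : L, w (l x) = P.valuation L x) ∧
      (∀ (z : (Completion v)) (d : M), d ≠ 0 →
        ∃ x : K, w (algebraMap K M x - algebraMap (Completion v) M z) < w d) ∧
      (vC v).IsEquiv (w.comap (algebraMap (Completion v) M)) := by
  have h : v.ring.valuation.IsEquiv ((P.valuation L).comap (algebraMap K L)) := by
    rw [hv]
    exact isEquiv_of_liesOver (K := K) (L := L) p P
  have hc := coinitial_of_liesOver (K := K) (L := L) p P
  let φ := compMap v.ring.valuation (P.valuation L) h hc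
  let l₀ : L →+* (P.valuation L).Completion :=
    (UniformSpace.Completion.coeRingHom (α := WithVal (P.valuation L))).comp
      (WithVal.equiv (P.valuation L)).symm.toRingHom
  let i1 : Algebra K (P.valuation L).Completion := (l₀.comp (algebraMap K L)).toAlgebra
  let i2 : Algebra (Completion v) (P.valuation L).Completion := φ.toAlgebra
  refine ⟨(P.valuation L).Completion, inferInstance, i1, i2, ⟨l₀, fun _ => rfl⟩, Valued.v,
    ?_, ?_, ?_, ?_⟩
  · intro x
    exact (compMap_coe _ _ h hc (WithVal.toVal _ x)).symm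
  · intro x
    exact Valued.valuedCompletion_apply _
  · intro z d hd
    exact compMap_approx _ _ h hc z d hd
  · exact compMap_isEquiv v.ring.valuation (P.valuation L) h hc

end

/-- The valuation of the completion at a height one prime. -/
theorem exists_dvr2 (p : HeightOneSpectrum A) (v : Place k K)
    (hv : v.ring = (p.valuation K).valuationSubring) :
    ∃ vF : Valuation (Completion v) ℤᵐ⁰, (vC v).IsEquiv vF ∧
      (∀ x : K, vF (algebraMap K (Completion v) x) = p.valuation K x) ∧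
      (∀ z d : Completion v, d ≠ 0 → ∃ x : K, vF (algebraMap K (Completion v) x - z) < vF d) ∧
      IsDiscreteValuationRing vF.valuationSubring := by
  have hlo : p.asIdeal.LiesOver p.asIdeal := ⟨by
    change p.asIdeal = Ideal.comap (RingHom.id A) p.asIdeal
    rw [Ideal.comap_id]⟩
  obtain ⟨M, _, _, _, l, w, h1, h2, h3, h4⟩ := exists_completion2 (O := A) (L := K) v p hv p
  have hx : ∀ x : K, w.comap (algebraMap (Completion v) M) (algebraMap K (Completion v) x) =
      p.valuation K x := by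
    intro x
    rw [Valuation.comap_apply, ← h1, ← h2 x]
    congr 1
    exact (l.commutes x).symm
  refine ⟨w.comap (algebraMap (Completion v) M), h4, hx, ?_, ?_⟩
  · intro z d hd
    obtain ⟨x, hx⟩ := h3 z (algebraMap (Completion v) M d) (by rwa [Ne, map_eq_zero])
    refine ⟨x, ?_⟩
    rw [Valuation.comap_apply, Valuation.comap_apply, map_sub, ← h1]
    exact hx
  · obtain ⟨π, hπ⟩ := p.valuation_exists_uniformizer K
    exact isDVR_of_exp_neg_one _ (ϖ := algebraMap K (Completion v) π) (by rw [hx, hπ])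

end Places

/-! ### The regularity condition -/

section Reg

variable {O Λ M : Type*} [CommRing O] [CommRing Λ] [Field M] (α : O →+* Λ) (ψ : Λ →+* M)
  (w : Valuation M ℤᵐ⁰)

lemma abs_reg (hO : ∀ y₁ y₂ : O, w (ψ (α y₁)) ≤ w (ψ (α y₂)) → ψ (α y₂) ≠ 0 →
      ∃ u y₃, w (ψ (α u)) = 1 ∧ u * y₁ = y₃ * y₂)
    (π : O) (hπ : w (ψ (α π)) < 1) (hΛ : ∀ x : Λ, w (ψ x) ≤ 1)
    (happ : ∀ (x : Λ) (N : ℕ), ∃ (y : O) (e : Λ), x = α y + α π ^ N * e)
    (x₁ x₂ : Λ) (h : w (ψ x₁) ≤ w (ψ x₂)) (h2 : ψ x₂ ≠ 0) :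
    ∃ u x₃, w (ψ u) = 1 ∧ u * x₁ = x₃ * x₂ := by
  have hw2 : w (ψ x₂) ≠ 0 := by rwa [Ne, map_eq_zero]
  obtain ⟨N, hN⟩ : ∃ N : ℕ, w (ψ (α π)) ^ N < w (ψ x₂) := by
    have := exists_pow_lt₀ hπ (Units.mk0 _ hw2)
    simpa using this
  obtain ⟨y₁, e₁, h₁⟩ := happ x₁ N
  obtain ⟨y₂, e₂, h₂⟩ := happ x₂ N
  have hπN : ∀ e : Λ, w (ψ (α π ^ N * e)) < w (ψ x₂) := by
    intro e
    rw [map_mul, map_mul, map_pow, map_pow]
    calc w (ψ (α π)) ^ N * w (ψ e) ≤ w (ψ (α π)) ^ N * 1 := by gcongr; exact hΛ e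
      _ < w (ψ x₂) := by rwa [mul_one]
  have hy₂ : w (ψ (α y₂)) = w (ψ x₂) := by
    apply val_eq_of_sub_lt
    have : ψ (α y₂) - ψ x₂ = - ψ (α π ^ N * e₂) := by
      rw [h₂, map_add]
      ring
    rw [this, Valuation.map_neg]
    exact hπN e₂
  have hy₁ : w (ψ (α y₁)) ≤ w (ψ (α y₂)) := by
    have : ψ (α y₁) = ψ x₁ - ψ (α π ^ N * e₁) := by
      rw [h₁, map_add]
      ring
    rw [this, hy₂]
    exact (w.map_sub _ _).trans (max_le h (hπN e₁).le)
  have hy₂0 : ψ (α y₂) ≠ 0 := by
    intro h0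
    rw [h0, map_zero] at hy₂
    exact hw2 hy₂.symm
  obtain ⟨u, y₃, hu, huy⟩ := hO y₁ y₂ hy₁ hy₂0
  obtain ⟨u₂, y₅, hu₂, huy₂⟩ := hO (π ^ N) y₂ (by
    rw [hy₂, map_pow, map_pow, map_pow]
    exact hN.le) hy₂0
  have hy₅ : w (ψ (α y₅)) < 1 := by
    by_contra hcon
    rw [not_lt] at hcon
    have h5 : w (ψ (α (u₂ * π ^ N))) = w (ψ (α (y₅ * y₂))) := by rw [huy₂]
    rw [map_mul, map_mul, map_mul, map_mul, map_mul, map_mul, hu₂, one_mul, hy₂, map_pow,
      map_pow, map_pow] at h5
    have h6 : w (ψ x₂) ≤ w (ψ (α y₅)) * w (ψ x₂) := by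
      calc w (ψ x₂) = 1 * w (ψ x₂) := (one_mul _).symm
        _ ≤ _ := by gcongr
    rw [← h5] at h6
    exact absurd hN (not_lt_of_ge h6)
  have hU : w (ψ (α u₂ + e₂ * α y₅)) = 1 := by
    rw [map_add, ← hu₂]
    apply w.map_add_eq_of_lt_left
    rw [hu₂, map_mul, map_mul]
    exact mul_lt_one_of_nonneg_of_lt_one_right (hΛ e₂) zero_le hy₅
  refine ⟨(α u₂ + e₂ * α y₅) * (α u * α u₂), (α u₂ * α y₃ + α u * e₁ * α y₅) * α u₂, ?_, ?_⟩
  · rw [map_mul, map_mul, hU, one_mul, map_mul, map_mul, hu, hu₂, one_mul]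
  · have e1 : α u * α y₁ = α y₃ * α y₂ := by rw [← map_mul, huy, map_mul]
    have e2 : α u₂ * α π ^ N = α y₅ * α y₂ := by rw [← map_pow, ← map_mul, huy₂, map_mul]
    have e3 : α u * α u₂ * x₁ = (α u₂ * α y₃ + α u * e₁ * α y₅) * α y₂ := by
      rw [h₁]
      linear_combination α u₂ * e1 + α u * e₁ * e2
    have e4 : α u₂ * x₂ = (α u₂ + e₂ * α y₅) * α y₂ := by
      rw [h₂]
      linear_combination e₂ * e2
    linear_combination (α u₂ + e₂ * α y₅) * e3 - (α u₂ * α y₃ + α u * e₁ * α y₅) * e4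

end Reg

end Pool.Agent.MP1bdb59C
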