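import Mathlib
import Pool.Agent.MP1bdb59C.Even2
import Pool.Agent.MP1bdb59C.Cond

/-!
# Valuations of norms of ideals prime to `y` are multiples of `ℓ`: the application
-/

open Polynomial IsDedekindDomain Topology

noncomputable section

open scoped Classical WithZero

set_option linter.unusedSectionVars false

namespace Pool.Agent.MP1bdb59C

open Pool.Agent.MP1bdb59 (Place Completion)

section Abs

variable {A K : Type*} [CommRing A] [IsDedekindDomain A]
  [Field K] [Algebra A K] [IsFractionRing A K] {f : A[X]}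
  [IsDedekindDomain (AdjoinRoot f)] {L : Type*} [Field L] [Algebra K L] [Algebra A L]
  [IsScalarTower A K L] [Algebra (AdjoinRoot f) L] [IsFractionRing (AdjoinRoot f) L]
  [IsScalarTower A (AdjoinRoot f) L]
  (p : HeightOneSpectrum A) (P : HeightOneSpectrum (AdjoinRoot f))
  {F : Type*} [Field F] [Algebra K F] (vF : Valuation F ℤᵐ⁰)
  (hvK : ∀ x : K, vF (algebraMap K F x) = p.valuation K x)

/-- The map of `A` to the valuation ring. -/
def phiR : A →+* vF.valuationSubring :=
  ((algebraMap K F).comp (algebraMap A K)).codRestrict vF.valuationSubring.toSubring (fun x => by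
    change vF (algebraMap K F (algebraMap A K x)) ≤ 1
    rw [hvK]
    exact p.valuation_le_one x)

lemma algebraMap_phiR (x : A) :
    algebraMap vF.valuationSubring F (phiR p vF hvK x) = algebraMap K F (algebraMap A K x) := rfl

lemma map_phiR {g : F[X]} (hgf : (f.map (algebraMap A K)).map (algebraMap K F) = g) :
    (f.map (phiR p vF hvK)).map (algebraMap vF.valuationSubring F) = g := by
  rw [← hgf, Polynomial.map_map, Polynomial.map_map]
  rfl

lemma exists_approx_R (hdense : ∀ z d : F, d ≠ 0 → ∃ x : K, vF (algebraMap K F x - z) < vF d)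
    (π : A) (hπ0 : π ≠ 0) (N : ℕ) (r : vF.valuationSubring) :
    ∃ (a : A) (s : vF.valuationSubring),
      r = phiR p vF hvK a + phiR p vF hvK π ^ N * s := by
  have hπK : algebraMap A K π ≠ 0 := by
    rwa [Ne, FaithfulSMul.algebraMap_eq_zero_iff]
  have hπF : algebraMap K F (algebraMap A K π) ^ N ≠ 0 := by
    apply pow_ne_zero
    rwa [Ne, map_eq_zero]
  obtain ⟨x, hx⟩ := hdense (r : F) _ hπF
  have hle : vF (algebraMap K F (algebraMap A K π) ^ N) ≤ 1 := by
    rw [map_pow, hvK]
    exact pow_le_one₀ zero_le (p.valuation_le_one π)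
  have hr : vF (r : F) ≤ 1 := r.2
  have hx1 : p.valuation K x ≤ 1 := by
    rw [← hvK]
    have : algebraMap K F x = (algebraMap K F x - r) + r := by ring
    rw [this]
    exact (vF.map_add _ _).trans (max_le (hx.le.trans hle) hr)
  obtain ⟨a, ha⟩ := p.exists_valuation_sub_lt_of_integer hx1
    (Units.mk0 (vF (algebraMap K F (algebraMap A K π) ^ N)) (by rwa [Ne, map_eq_zero]))
  rw [Units.val_mk0] at ha
  have h3 : vF ((r : F) - algebraMap K F (algebraMap A K a)) <
      vF (algebraMap K F (algebraMap A K π) ^ N) := by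
    have : (r : F) - algebraMap K F (algebraMap A K a) =
        -(algebraMap K F (algebraMap A K a - x)) - (algebraMap K F x - r) := by
      rw [map_sub]
      ring
    rw [this]
    refine (vF.map_sub _ _).trans_lt (max_lt ?_ hx)
    rw [Valuation.map_neg, hvK]
    exact ha
  refine ⟨a, ⟨((r : F) - algebraMap K F (algebraMap A K a)) /
    algebraMap K F (algebraMap A K π) ^ N, ?_⟩, ?_⟩
  · change vF _ ≤ 1
    rw [map_div₀]
    exact div_le_one_of_le₀ h3.le zero_le
  · apply Subtype.ext
    change (r : F) = algebraMap K F (algebraMap A K a) + algebraMap K F (algebraMap A K π) ^ N * _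
    field_simp
    ring

variable {M : Type*} [Field M] [Algebra K M] [Algebra F M] (l : L →ₐ[K] M) (w : Valuation M ℤᵐ⁰)
  (h1 : ∀ x : K, algebraMap K M x = algebraMap F M (algebraMap K F x))
  (h2 : ∀ x : L, w (l x) = P.valuation L x)
  (h4 : vF.IsEquiv (w.comap (algebraMap F M)))
  {g : F[X]} (hgf : (f.map (algebraMap A K)).map (algebraMap K F) = g)
  (ev : AdjoinRoot g →+* M)
  (hev1 : ∀ x : F, ev (AdjoinRoot.of g x) = algebraMap F M x)
  (hev2 : ev (AdjoinRoot.root g) = l (algebraMap (AdjoinRoot f) L (AdjoinRoot.root f)))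

include h2 h4 hev1 hev2 in
lemma ev_le_one (q : vF.valuationSubring[X]) :
    w (ev (AdjoinRoot.mk g (q.map (algebraMap vF.valuationSubring F)))) ≤ 1 := by
  induction q using Polynomial.induction_on' with
  | add q₁ q₂ hq₁ hq₂ =>
    rw [Polynomial.map_add, map_add, map_add]
    exact (w.map_add _ _).trans (max_le hq₁ hq₂)
  | monomial n r =>
    rw [Polynomial.map_monomial, ← C_mul_X_pow_eq_monomial, map_mul, map_pow, AdjoinRoot.mk_C,
      AdjoinRoot.mk_X, map_mul, map_pow, hev1, hev2, map_mul, map_pow, h2]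
    refine mul_le_one₀ ?_ zero_le (pow_le_one₀ zero_le (P.valuation_le_one _))
    exact h4.le_one_iff_le_one.mp r.2

include h1 hev1 hev2 in
lemma ev_alpha (y : AdjoinRoot f) :
    ev (lamMap (algebraMap vF.valuationSubring F) (map_phiR p vF hvK hgf)
      (lamMap (phiR p vF hvK) rfl y)) = l (algebraMap (AdjoinRoot f) L y) := by
  obtain ⟨q, rfl⟩ := AdjoinRoot.mk_surjective y
  rw [lamMap_mk, lamMap_mk]
  induction q using Polynomial.induction_on' with
  | add q₁ q₂ hq₁ hq₂ =>
    rw [Polynomial.map_add, Polynomial.map_add, map_add, map_add, hq₁, hq₂, map_add, map_add,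
      map_add]
  | monomial n r =>
    rw [Polynomial.map_monomial, Polynomial.map_monomial, ← C_mul_X_pow_eq_monomial,
      ← C_mul_X_pow_eq_monomial, map_mul, map_pow, map_mul, map_pow, AdjoinRoot.mk_C,
      AdjoinRoot.mk_X, map_mul, map_pow, hev1, hev2, map_mul, map_pow, map_mul, map_pow]
    congr 1
    rw [algebraMap_phiR, ← h1, AdjoinRoot.mk_C, ← AdjoinRoot.algebraMap_eq,
      ← IsScalarTower.algebraMap_apply A (AdjoinRoot f) L, IsScalarTower.algebraMap_apply A K L,
      l.commutes]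

include h1 hev1 hev2 in
lemma ev_iota (ι : AdjoinRoot (f.map (algebraMap A K)) →+* L)
    (hι : ∀ q : A[X], ι (AdjoinRoot.mk _ (q.map (algebraMap A K))) =
      algebraMap (AdjoinRoot f) L (AdjoinRoot.mk f q))
    (hιK : ∀ x : K, ι (AdjoinRoot.of _ x) = algebraMap K L x)
    (y : AdjoinRoot (f.map (algebraMap A K))) :
    ev (lamMap (algebraMap K F) hgf y) = l (ι y) := by
  obtain ⟨q, rfl⟩ := AdjoinRoot.mk_surjective y
  rw [lamMap_mk]
  have hX := hι X
  rw [Polynomial.map_X, AdjoinRoot.mk_X, AdjoinRoot.mk_X] at hX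
  induction q using Polynomial.induction_on' with
  | add q₁ q₂ hq₁ hq₂ =>
    rw [Polynomial.map_add, map_add, map_add, hq₁, hq₂, map_add, map_add, map_add]
  | monomial n r =>
    rw [Polynomial.map_monomial, ← C_mul_X_pow_eq_monomial,
      ← C_mul_X_pow_eq_monomial, map_mul, map_pow, map_mul, map_pow, AdjoinRoot.mk_C,
      AdjoinRoot.mk_X, map_mul, map_pow, hev1, hev2, map_mul, map_pow, map_mul, map_pow,
      AdjoinRoot.mk_X, hX, AdjoinRoot.mk_C, hιK, l.commutes, h1]

omit [IsDedekindDomain (AdjoinRoot f)] in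
lemma exists_approx_Lam
    (hdense : ∀ z d : F, d ≠ 0 → ∃ x : K, vF (algebraMap K F x - z) < vF d)
    (π : A) (hπ0 : π ≠ 0) (x : AdjoinRoot (f.map (phiR p vF hvK))) (N : ℕ) :
    ∃ (y : AdjoinRoot f) (e : AdjoinRoot (f.map (phiR p vF hvK))),
      x = lamMap (phiR p vF hvK) rfl y +
        (lamMap (phiR p vF hvK) rfl (AdjoinRoot.of f π)) ^ N * e := by
  have hαπ : lamMap (phiR p vF hvK) (rfl : f.map (phiR p vF hvK) = f.map (phiR p vF hvK))
      (AdjoinRoot.of f π) = AdjoinRoot.mk _ (C (phiR p vF hvK π)) := by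
    rw [← AdjoinRoot.mk_C, lamMap_mk, Polynomial.map_C]
  rw [hαπ]
  obtain ⟨q, rfl⟩ := AdjoinRoot.mk_surjective x
  induction q using Polynomial.induction_on' with
  | add q₁ q₂ hq₁ hq₂ =>
    obtain ⟨y₁, e₁, h₁⟩ := hq₁
    obtain ⟨y₂, e₂, h₂⟩ := hq₂
    refine ⟨y₁ + y₂, e₁ + e₂, ?_⟩
    rw [map_add, h₁, h₂, map_add, mul_add]
    abel
  | monomial n r =>
    obtain ⟨a', s, hr⟩ := exists_approx_R p vF hvK hdense π hπ0 N r
    refine ⟨AdjoinRoot.mk f (monomial n a'), AdjoinRoot.mk _ (monomial n s), ?_⟩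
    rw [lamMap_mk, Polynomial.map_monomial, ← map_pow, ← map_pow, ← map_mul, ← map_add,
      C_mul_monomial, ← map_add, ← hr]

include hvK hgf h1 h2 h4 hev1 hev2 in
theorem abs_content {ℓ : ℕ} [hp : Fact ℓ.Prime] {ζ : A} (hP : P.asIdeal.LiesOver p.asIdeal)
    (hdense : ∀ z d : F, d ≠ 0 → ∃ x : K, vF (algebraMap K F x - z) < vF d)
    [IsDiscreteValuationRing vF.valuationSubring] [Good ℓ g]
    {ζF : F} (hζF : algebraMap K F (algebraMap A K ζ) = ζF) (hζ : IsPrimitiveRoot ζF ℓ)
    (𝔞 : Ideal (CoordRing ℓ g)) (a : vF.valuationSubring[X]) (ha : ∃ i, IsUnit (a.coeff i))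
    (hs : ∃ s ∈ 𝔞, red g s = 1)
    (hN : nrm (tauI hζ) ℓ 𝔞 = Ideal.span {of g (a.map (algebraMap vF.valuationSubring F))}) :
    ∃ z : M, z ≠ 0 ∧
      w (ev (AdjoinRoot.mk g (a.map (algebraMap vF.valuationSubring F)))) = w z ^ ℓ := by
  refine norm_val' (f := f.map (phiR p vF hvK)) (map_phiR p vF hvK hgf) (ζ := phiR p vF hvK ζ)
    hζF hζ w ev (ev_le_one P vF l w h2 h4 ev hev1 hev2) ?_ 𝔞 a ha hs hN
  obtain ⟨π, hπ⟩ := p.intValuation_exists_uniformizer
  have hπ0 : π ≠ 0 := by
    rintro rfl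
    rw [map_zero] at hπ
    exact WithZero.exp_ne_zero hπ.symm
  have hπp : π ∈ p.asIdeal := by
    rw [← p.intValuation_lt_one_iff_mem, hπ, ← WithZero.exp_zero, WithZero.exp_lt_exp]
    norm_num
  set α := lamMap (phiR p vF hvK) (rfl : f.map (phiR p vF hvK) = f.map (phiR p vF hvK)) with hα
  set ψ := ev.comp (lamMap (algebraMap vF.valuationSubring F) (map_phiR p vF hvK hgf)) with hψ
  have hψα : ∀ y, ψ (α y) = l (algebraMap (AdjoinRoot f) L y) := fun y =>
    ev_alpha p vF hvK l h1 hgf ev hev1 hev2 y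
  have hψm : ∀ q, ψ (AdjoinRoot.mk _ q) =
      ev (AdjoinRoot.mk g (q.map (algebraMap vF.valuationSubring F))) := by
    intro q
    rw [hψ, RingHom.comp_apply, lamMap_mk]
  have hreg := abs_reg α ψ w ?_ (AdjoinRoot.of f π) ?_ ?_ ?_
  · intro q₁ q₂ hle hne
    rw [← hψm, ← hψm] at hle
    rw [← hψm] at hne
    obtain ⟨u, x₃, hu, hux⟩ := hreg _ _ hle hne
    obtain ⟨U, rfl⟩ := AdjoinRoot.mk_surjective u
    obtain ⟨q₃, rfl⟩ := AdjoinRoot.mk_surjective x₃
    rw [← map_mul, ← map_mul, AdjoinRoot.mk_eq_mk] at hux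
    obtain ⟨q₄, hq₄⟩ := hux
    refine ⟨U, q₃, q₄, ?_, ?_⟩
    · rw [← hψm]
      exact hu
    · linear_combination hq₄
  · intro y₁ y₂ hle hne
    rw [hψα, hψα, h2, h2] at hle
    rw [hψα] at hne
    have hy₂ : algebraMap (AdjoinRoot f) L y₂ ≠ 0 := fun h => hne (by rw [h, map_zero])
    obtain ⟨n, d, hnd⟩ := P.exists_primeCompl_mul_eq_of_integer
      (algebraMap (AdjoinRoot f) L y₁ / algebraMap (AdjoinRoot f) L y₂) (by
        rw [map_div₀]
        exact div_le_one_of_le₀ hle zero_le)
    refine ⟨d, n, ?_, ?_⟩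
    · rw [hψα, h2, P.valuation_eq_one_iff_notMem]
      exact d.2
    · apply IsFractionRing.injective (AdjoinRoot f) L
      rw [map_mul, map_mul, ← hnd]
      field_simp
  · rw [hψα, h2, P.valuation_lt_one_iff_mem]
    have := hP.over
    rw [this] at hπp
    exact hπp
  · intro x
    obtain ⟨q, rfl⟩ := AdjoinRoot.mk_surjective x
    rw [hψm]
    exact ev_le_one P vF l w h2 h4 ev hev1 hev2 q
  · intro x N
    exact exists_approx_Lam p vF hvK hdense π hπ0 x N

end Abs

lemma nrm_span_unit {F : Type*} [Field F] {ℓ : ℕ} [hp : Fact ℓ.Prime] {g : F[X]} (c : F)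
    (hc : c ≠ 0) (q : F[X]) :
    (Ideal.span {of g (C c * q)} : Ideal (CoordRing ℓ g)) = Ideal.span {of g q} := by
  rw [map_mul]
  apply Ideal.span_singleton_mul_left_unit
  exact ((isUnit_iff_ne_zero.mpr hc).map C).map (of g)

/-- A nonzero polynomial over `F` is a constant times a primitive polynomial over the valuation
ring. -/
lemma exists_prim {F : Type*} [Field F] (vF : Valuation F ℤᵐ⁰) (a : F[X]) (ha : a ≠ 0) :
    ∃ (c : F) (a₀ : vF.valuationSubring[X]), c ≠ 0 ∧ (∃ i, IsUnit (a₀.coeff i)) ∧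
      a = C c * a₀.map (algebraMap vF.valuationSubring F) := by
  obtain ⟨i, hi, hmax⟩ := Finset.exists_max_image a.support (fun j => vF (a.coeff j))
    (by rwa [Polynomial.support_nonempty])
  have hc : a.coeff i ≠ 0 := by rwa [Polynomial.mem_support_iff] at hi
  have hle : ∀ j, vF (a.coeff j) ≤ vF (a.coeff i) := by
    intro j
    by_cases hj : a.coeff j = 0
    · rw [hj, map_zero]
      exact zero_le
    · exact hmax j (Polynomial.mem_support_iff.mpr hj)
  have hl : (C (a.coeff i)⁻¹ * a) ∈ Polynomial.lifts (algebraMap vF.valuationSubring F) := by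
    rw [Polynomial.lifts_iff_coeff_lifts]
    intro j
    rw [coeff_C_mul]
    refine ⟨⟨(a.coeff i)⁻¹ * a.coeff j, ?_⟩, rfl⟩
    change vF _ ≤ 1
    rw [map_mul, map_inv₀, mul_comm, ← div_eq_mul_inv]
    exact div_le_one_of_le₀ (hle j) zero_le
  rw [Polynomial.lifts_iff_set_range] at hl
  obtain ⟨a₀, ha₀⟩ := hl
  have ha₁ : a₀.map (algebraMap vF.valuationSubring F) = C (a.coeff i)⁻¹ * a := ha₀
  refine ⟨a.coeff i, a₀, hc, ⟨i, ?_⟩, ?_⟩
  · have h1 : a₀.coeff i = 1 := by
      apply Subtype.ext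
      have := congrArg (fun q => coeff q i) ha₁
      simp only [coeff_map, coeff_C_mul] at this
      rw [inv_mul_cancel₀ hc] at this
      exact this
    rw [h1]
    exact isUnit_one
  · rw [ha₁, ← mul_assoc, ← C_mul, mul_inv_cancel₀ hc, C_1, one_mul]

/-- The content: away from a constant `κ`, the valuations of a class satisfying the local
condition are multiples of `ℓ`. -/
theorem exists_content {k : Type*} {A K : Type*} [Field k] [CommRing A] [IsDedekindDomain A]
    [Field K] [Algebra A K] [IsFractionRing A K] [Algebra k K]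
    {ℓ : ℕ} [hp : Fact ℓ.Prime] {ζ : A} (hζ : IsPrimitiveRoot (algebraMap A K ζ) ℓ)
    (f : A[X]) (hf : f.Monic) [hg : Good ℓ (f.map (algebraMap A K))]
    [IsDedekindDomain (AdjoinRoot f)] {L : Type*} [Field L] [Algebra K L] [Algebra A L]
    [IsScalarTower A K L] [Algebra (AdjoinRoot f) L] [IsFractionRing (AdjoinRoot f) L]
    [IsScalarTower A (AdjoinRoot f) L]
    (ι : AdjoinRoot (f.map (algebraMap A K)) →+* L)
    (hι : ∀ q : A[X], ι (AdjoinRoot.mk _ (q.map (algebraMap A K))) =
      algebraMap (AdjoinRoot f) L (AdjoinRoot.mk f q))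
    (hιK : ∀ x : K, ι (AdjoinRoot.of _ x) = algebraMap K L x)
    (p : HeightOneSpectrum A) (v : Place k K) (hv : v.ring = (p.valuation K).valuationSubring)
    (m : AdjoinRoot (f.map (algebraMap A K))) (hm : LocCond hζ (Completion v) m) :
    ∃ κ : K, κ ≠ 0 ∧ ∀ P : HeightOneSpectrum (AdjoinRoot f), P.asIdeal.LiesOver p.asIdeal →
      ∃ z : ℤᵐ⁰, P.valuation L (ι m) = P.valuation L (algebraMap K L κ) * z ^ ℓ := by
  obtain ⟨vF, hvF, hvK, hdense, hdvr⟩ := exists_dvr2 p v hv
  obtain ⟨𝔞, a, hs, hN, hma⟩ := hm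
  have htf : Module.IsTorsionFree A (AdjoinRoot f) := by
    have hinj : Function.Injective (algebraMap A (AdjoinRoot f)) := by
      have h3 : Function.Injective (algebraMap A L) := by
        rw [IsScalarTower.algebraMap_eq A K L]
        exact (algebraMap K L).injective.comp (IsFractionRing.injective A K)
      rw [IsScalarTower.algebraMap_eq A (AdjoinRoot f) L] at h3
      exact Function.Injective.of_comp h3
    exact Module.isTorsionFree_iff_algebraMap_injective.mpr hinj
  have hg2 : Good ℓ ((f.map (algebraMap A K)).map (algebraMap K (Completion v))) :=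
    ⟨hg.monic.map _, hg.sep.map, by rw [natDegree_map]; exact hg.cop⟩
  have ha : a ≠ 0 := by
    rintro rfl
    rw [map_zero, zero_mul] at hma
    have hnt : Nontrivial (AdjoinRoot ((f.map (algebraMap A K)).map
        (algebraMap K (Completion v)))) := by
      apply AdjoinRoot.nontrivial
      intro hdeg
      have := hg2.cop
      rw [natDegree_eq_of_degree_eq_some hdeg] at this
      exact this (dvd_zero _)
    exact zero_ne_one hma
  obtain ⟨c, a₀, hc, ha₀, hac⟩ := exists_prim vF a ha
  obtain ⟨κ, hκ⟩ := hdense c⁻¹ c⁻¹ (inv_ne_zero hc)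
  have hκc : vF (algebraMap K (Completion v) κ) = vF c⁻¹ := val_eq_of_sub_lt _ hκ
  refine ⟨κ, ?_, ?_⟩
  · rintro rfl
    rw [map_zero, map_zero] at hκc
    exact inv_ne_zero hc ((map_eq_zero vF).mp hκc.symm)
  · intro P hP
    obtain ⟨M, _, _, _, l, w, h1, h2, h3, h4⟩ := exists_completion2 (L := L) v p hv P
    have h4' : vF.IsEquiv (w.comap (algebraMap (Completion v) M)) := hvF.symm.trans h4
    have hroot : eval₂ (algebraMap (Completion v) M)
        (l (algebraMap (AdjoinRoot f) L (AdjoinRoot.root f)))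
        ((f.map (algebraMap A K)).map (algebraMap K (Completion v))) = 0 := by
      rw [eval₂_map, eval₂_map]
      have e : ((algebraMap (Completion v) M).comp (algebraMap K (Completion v))).comp
          (algebraMap A K) = (l : L →+* M).comp
            ((algebraMap (AdjoinRoot f) L).comp (AdjoinRoot.of f)) := by
        ext x
        rw [RingHom.comp_apply, RingHom.comp_apply, RingHom.comp_apply, RingHom.comp_apply, ← h1,
          ← l.commutes, ← IsScalarTower.algebraMap_apply A K L,
          IsScalarTower.algebraMap_apply A (AdjoinRoot f) L]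
        rfl
      rw [e]
      have e2 := Polynomial.hom_eval₂ f (AdjoinRoot.of f)
        ((l : L →+* M).comp (algebraMap (AdjoinRoot f) L)) (AdjoinRoot.root f)
      rw [AdjoinRoot.eval₂_root, map_zero] at e2
      exact e2.symm
    let ev : AdjoinRoot ((f.map (algebraMap A K)).map (algebraMap K (Completion v))) →+* M :=
      AdjoinRoot.lift (algebraMap (Completion v) M)
        (l (algebraMap (AdjoinRoot f) L (AdjoinRoot.root f))) hroot
    have hev1 : ∀ x : Completion v, ev (AdjoinRoot.of _ x) = algebraMap (Completion v) M x :=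
      fun x => AdjoinRoot.lift_of _
    have hev2 : ev (AdjoinRoot.root _) = l (algebraMap (AdjoinRoot f) L (AdjoinRoot.root f)) :=
      AdjoinRoot.lift_root _
    have hN' : nrm (tauI (hζ.map_of_injective (algebraMap K (Completion v)).injective)) ℓ 𝔞 =
        Ideal.span {of _ (a₀.map (algebraMap vF.valuationSubring (Completion v)))} := by
      rw [hN, hac, nrm_span_unit c hc]
    obtain ⟨z, hz, hwz⟩ := abs_content p P vF hvK l w h1 h2 h4' rfl ev hev1 hev2 (ζ := ζ) hP
      hdense rfl (hζ.map_of_injective (algebraMap K (Completion v)).injective) 𝔞 a₀ ha₀ hs hN'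
    have hι' := ev_iota l h1 rfl ev hev1 hev2 ι hι hιK m
    have hprod : w (ev (AdjoinRoot.mk _ a)) * P.valuation L (ι m) = 1 := by
      rw [← h2, ← hι', ← map_mul, ← map_mul, hma, map_one, map_one]
    have hwa : w (ev (AdjoinRoot.mk _ a)) =
        w (algebraMap (Completion v) M c) * w z ^ ℓ := by
      conv_lhs => rw [hac]
      rw [map_mul, map_mul, AdjoinRoot.mk_C, hev1, map_mul, hwz]
    have hwκ : P.valuation L (algebraMap K L κ) = (w (algebraMap (Completion v) M c))⁻¹ := by
      rw [← h2, l.commutes, h1, ← map_inv₀, ← map_inv₀]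
      exact h4'.val_eq.mp hκc
    have hc' : w (algebraMap (Completion v) M c) ≠ 0 := by
      rw [Ne, map_eq_zero, map_eq_zero]
      exact hc
    have hz' : w z ≠ 0 := by
      rw [Ne, map_eq_zero]
      exact hz
    refine ⟨(w z)⁻¹, ?_⟩
    rw [hwa] at hprod
    rw [hwκ, inv_pow, ← mul_inv]
    exact eq_inv_of_mul_eq_one_right hprod

end Pool.Agent.MP1bdb59C
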