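import Mathlib
import Pool.Agent.MP1bdb59C.Cond
import Pool.Agent.MP1bdb59C.Stmt
import Pool.Agent.MP1bdb59.Defs

/-!
# The endomorphism `τ` of the Jacobian and the passage from `ℓ` to `1 - τ`
-/

open Polynomial Finset

noncomputable section

open scoped Classical

set_option linter.unusedSectionVars false

namespace Pool.Agent.MP1bdb59C

open Pool.Agent.MP1bdb59 (Sep AbsGal emb resGal emb_resGal Place Completion)

universe u v

/-- `(1 - X)^(ℓ-1) = ∑ X^i + ℓ B`. -/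
lemma exists_poly_identity (ℓ : ℕ) [hp : Fact ℓ.Prime] :
    ∃ B : ℤ[X], (1 - X) ^ (ℓ - 1) = ∑ i ∈ range ℓ, X ^ i + C (ℓ : ℤ) * B := by
  have h1 : ((1 - X) ^ (ℓ - 1) - ∑ i ∈ range ℓ, X ^ i : ℤ[X]).map
      (Int.castRingHom (ZMod ℓ)) = 0 := by
    rw [Polynomial.map_sub, Polynomial.map_pow, Polynomial.map_sub, Polynomial.map_one, map_X,
      Polynomial.map_sum, sub_eq_zero]
    simp only [Polynomial.map_pow, map_X]
    have h2 : (1 - X : (ZMod ℓ)[X]) ≠ 0 := by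
      rw [Ne, sub_eq_zero]
      intro h
      have := congrArg natDegree h
      rw [natDegree_one, natDegree_X] at this
      exact zero_ne_one this
    apply mul_left_cancel₀ h2
    rw [← pow_succ', Nat.sub_add_cancel hp.out.one_le, mul_neg_geom_sum, sub_pow_char, one_pow]
  have h2 : C (ℓ : ℤ) ∣ ((1 - X) ^ (ℓ - 1) - ∑ i ∈ range ℓ, X ^ i : ℤ[X]) := by
    rw [C_dvd_iff_dvd_coeff]
    intro i
    have h3 := congrArg (fun p => coeff p i) h1
    simp only [coeff_map, coeff_zero, eq_intCast] at h3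
    exact (ZMod.intCast_zmod_eq_zero_iff_dvd _ _).mp h3
  obtain ⟨B, hB⟩ := h2
  exact ⟨B, by rw [← hB]; ring⟩

lemma commute_aeval {E : Type*} [Ring E] {a τ : E} (h : Commute a τ) (B : ℤ[X]) :
    Commute a (aeval τ B) := by
  induction B using Polynomial.induction_on' with
  | add p q hp hq => rw [map_add]; exact hp.add_right hq
  | monomial n c =>
    rw [aeval_monomial]
    refine Commute.mul_right ?_ (h.pow_right n)
    rw [eq_intCast]
    exact (Int.commute_cast a c)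

lemma end_sum_apply {J : Type*} [AddCommGroup J] {ι : Type*} (s : Finset ι)
    (g : ι → AddMonoid.End J) (t : J) : (∑ i ∈ s, g i) t = ∑ i ∈ s, g i t := by
  induction s using Finset.induction_on with
  | empty => rfl
  | insert a s ha ih =>
    rw [Finset.sum_insert ha, Finset.sum_insert ha, ← ih]
    rfl

lemma end_pow_succ_apply {J : Type*} [AddCommGroup J] (τ : AddMonoid.End J) (n : ℕ) (x : J) :
    ((1 - τ) ^ (n + 1) : AddMonoid.End J) x = ((1 - τ) ^ n : AddMonoid.End J) (x - τ x) := by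
  rw [pow_succ]
  rfl

lemma end_natCast_mul_apply {J : Type*} [AddCommGroup J] (B : AddMonoid.End J) (n : ℕ) (x : J) :
    ((n : AddMonoid.End J) * B) x = n • B x := rfl

lemma end_natCast_mul_apply' {J : Type*} [AddCommGroup J] (B : AddMonoid.End J) (n : ℕ) (x : J) :
    ((n : AddMonoid.End J) * B) x = B (n • x) := by
  rw [map_nsmul]
  rfl

/-- The same identity for an endomorphism whose norm vanishes. -/
lemma exists_phi_pow_eq {J : Type*} [AddCommGroup J] {ℓ : ℕ} [hp : Fact ℓ.Prime]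
    (τ : AddMonoid.End J) (hN : ∑ i ∈ range ℓ, τ ^ i = 0) :
    ∃ B : AddMonoid.End J, (1 - τ) ^ (ℓ - 1) = (ℓ : AddMonoid.End J) * B ∧
      ∀ a : AddMonoid.End J, Commute a τ → Commute a B := by
  obtain ⟨B, hB⟩ := exists_poly_identity ℓ
  refine ⟨aeval τ B, ?_, fun a ha => commute_aeval ha B⟩
  have h1 := congrArg (aeval τ) hB
  simp only [map_pow, map_sub, map_one, aeval_X, map_add, map_sum, map_mul, aeval_C, hN,
    zero_add] at h1
  rw [h1]
  simp

section Tau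

variable {ℓ : ℕ} [hp : Fact ℓ.Prime] {K : Type u} [Field K] (f : K[X]) [hf : Good ℓ f]
  (F : Type v) [Field F] [Algebra K F] {ζ : K} (hζ : IsPrimitiveRoot ζ ℓ)

instance instGoodMap : Good ℓ (f.map (algebraMap K F)) := Good.map' (hf := hf) _ rfl

include hζ in
lemma prim_map : IsPrimitiveRoot (algebraMap K F ζ) ℓ :=
  hζ.map_of_injective (algebraMap K F).injective

/-- The automorphism `τ` of the Jacobian. -/
def tauJ : AddMonoid.End (Jac ℓ f F) :=
  (tauPic (prim_map (Sep F) hζ) :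
    CommRing.Pic (CoordRing ℓ (f.map (algebraMap K (Sep F)))) →* _).toAdditive

lemma tauJ_apply (t : Jac ℓ f F) :
    (tauJ f F hζ t).toMul = tauPic (prim_map (Sep F) hζ) t.toMul := rfl

lemma tower : (f.map (algebraMap K F)).map (algebraMap F (Sep F)) =
    f.map (algebraMap K (Sep F)) := by
  rw [Polynomial.map_map, ← IsScalarTower.algebraMap_eq]

lemma act_eq (σ : AbsGal F) (t : Jac ℓ f F) :
    (act ℓ f F σ t).toMul = aP (tower f F) σ t.toMul := rfl

lemma act_eq' (σ : AbsGal K) (t : Jac ℓ f K) :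
    (act ℓ f K σ t).toMul = aP (g := f) rfl σ t.toMul := rfl

lemma act_one (t : Jac ℓ f F) : act ℓ f F 1 t = t := aP_one (tower f F) t.toMul

lemma act_mul (σ ρ : AbsGal F) (t : Jac ℓ f F) :
    act ℓ f F (σ * ρ) t = act ℓ f F σ (act ℓ f F ρ t) := aP_mul (tower f F) σ ρ t.toMul

lemma act_tauJ (σ : AbsGal F) (t : Jac ℓ f F) :
    act ℓ f F σ (tauJ f F hζ t) = tauJ f F hζ (act ℓ f F σ t) :=
  aP_tau (tower f F) (prim_map (Sep F) hζ)
    (IsScalarTower.algebraMap_apply K F (Sep F) ζ).symm σ t.toMul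

lemma tauJ_iterate (n : ℕ) (t : Jac ℓ f F) :
    ((tauJ f F hζ)^[n] t).toMul = (tauPic (prim_map (Sep F) hζ))^[n] t.toMul := by
  induction n with
  | zero => rfl
  | succ n ih => rw [Function.iterate_succ_apply', Function.iterate_succ_apply', ← ih, tauJ_apply]

lemma sum_tauJ : ∑ i ∈ range ℓ, (tauJ f F hζ) ^ i = 0 := by
  refine DFunLike.ext _ _ fun t => ?_
  rw [end_sum_apply]
  obtain ⟨T, hT⟩ := pcl_surjective t.toMul
  obtain ⟨a, ha, -, hN⟩ := norm_principal (hζ := prim_map (Sep F) hζ) T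
  have h1 := map_nrm_comm (tauU (prim_map (Sep F) hζ)) (tauPic (prim_map (Sep F) hζ))
    (pcl : Dv ℓ (f.map (algebraMap K (Sep F))) →* _) (fun z => (tauPic_pcl _ z).symm) ℓ T
  rw [hN, pcl_prin, hT] at h1
  have h2 : (∑ i ∈ range ℓ, ((tauJ f F hζ) ^ i) t).toMul = 1 := by
    rw [h1, toMul_sum]
    unfold nrm
    refine Finset.prod_congr rfl fun i _ => ?_
    rw [← tauJ_iterate]
    rfl
  exact h2

lemma exists_phi (t : Jac ℓ f F) : ∃ b : Jac ℓ f F, b - tauJ f F hζ b = t := by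
  obtain ⟨T, hT⟩ := pcl_surjective t.toMul
  obtain ⟨B, z, hz, h⟩ := exists_phi_div' (prim_map (Sep F) hζ) T
  have h1 := congrArg pcl h
  rw [map_mul, map_mul, pcl_prin, one_mul, ← tauPic_pcl, hT] at h1
  refine ⟨Additive.ofMul (pcl B), ?_⟩
  rw [sub_eq_iff_eq_add]
  exact h1

lemma picMap_apply {A : Type*} {A' : Type*} [CommRing A] [CommRing A'] (φ : A →+* A') {g : A[X]}
    {g' : A'[X]} (h : g.map φ = g') (t : Additive (CommRing.Pic (CoordRing ℓ g))) :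
    (picMap ℓ φ h t).toMul = CommRing.Pic.mapRingHom (coordMap ℓ φ h) t.toMul := rfl

lemma embJac_apply (t : Jac ℓ f K) : (embJac ℓ f F t).toMul =
    CommRing.Pic.mapRingHom (coordMap ℓ (emb K F : Sep K →+* Sep F) (map_emb f F)) t.toMul := by
  unfold embJac
  rw [picMap_apply]

lemma embJac_tauJ (t : Jac ℓ f K) :
    embJac ℓ f F (tauJ f K hζ t) = tauJ f F hζ (embJac ℓ f F t) := by
  apply Additive.toMul.injective
  obtain ⟨T, hT⟩ := pcl_surjective t.toMul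
  have hφ : (emb K F : Sep K →+* Sep F) (algebraMap K (Sep K) ζ) = algebraMap K (Sep F) ζ :=
    (emb K F).commutes ζ
  rw [embJac_apply, tauJ_apply, tauJ_apply, embJac_apply, ← hT, tauPic_pcl, mapRingHom_pcl,
    mapRingHom_pcl, tauPic_pcl,
    bcU_tau _ _ (prim_map (Sep K) hζ) (prim_map (Sep F) hζ) hφ]

lemma isLocallyConstant_act (t : Jac ℓ f F) :
    IsLocallyConstant (fun σ : AbsGal F => act ℓ f F σ t) := by
  obtain ⟨U, hU, hU'⟩ := smP (tower f F) t.toMul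
  rw [IsLocallyConstant.iff_eventually_eq]
  intro σ
  have h1 : Continuous (fun τ : AbsGal F => σ⁻¹ * τ) := continuous_const_mul σ⁻¹
  have h2 := h1.continuousAt (x := σ)
  rw [ContinuousAt, inv_mul_cancel] at h2
  filter_upwards [h2 (hU.mem_nhds U.one_mem)] with τ hτ
  have h3 : act ℓ f F (σ⁻¹ * τ) t = t := hU' _ hτ
  have h4 : act ℓ f F τ t = act ℓ f F (σ * (σ⁻¹ * τ)) t := by rw [mul_inv_cancel_left]
  rw [h4, act_mul, h3]

/-- The coboundary of `t` is a cocycle. -/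
lemma isCocycle_bdry (t : Jac ℓ f F) : IsCocycle ℓ f F (fun σ => act ℓ f F σ t - t) := by
  refine ⟨(isLocallyConstant_act f F t).sub (IsLocallyConstant.const t), fun σ τ => ?_⟩
  change act ℓ f F (σ * τ) t - t = (act ℓ f F σ t - t) + act ℓ f F σ (act ℓ f F τ t - t)
  rw [act_mul, map_sub]
  abel

lemma isCocycle_sub {c c' : AbsGal F → Jac ℓ f F} (hc : IsCocycle ℓ f F c)
    (hc' : IsCocycle ℓ f F c') : IsCocycle ℓ f F (fun σ => c σ - c' σ) := by
  refine ⟨hc.1.sub hc'.1, fun σ τ => ?_⟩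
  change c (σ * τ) - c' (σ * τ) = (c σ - c' σ) + act ℓ f F σ (c τ - c' τ)
  rw [hc.2, hc'.2, map_sub]
  abel

end Tau

section Descent

variable (k : Type u) {ℓ : ℕ} [hp : Fact ℓ.Prime] {K : Type v} [Field k] [Field K] [Algebra k K]
  (f : K[X]) [hf : Good ℓ f] {ζ : K} (hζ : IsPrimitiveRoot ζ ℓ)

/-- A cocycle that is everywhere locally a coboundary. -/
def ShaC (c : AbsGal K → Jac ℓ f K) : Prop :=
  IsCocycle ℓ f K c ∧ ∀ v : Place k K, ∃ R : Jac ℓ f (Completion v), ∀ σ,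
    embJac ℓ f (Completion v) (c (resGal K (Completion v) σ)) = act ℓ f (Completion v) σ R - R

variable {k f}

lemma ShaC.sub {c c' : AbsGal K → Jac ℓ f K} (h : ShaC k f c) (h' : ShaC k f c') :
    ShaC k f (fun σ => c σ - c' σ) := by
  refine ⟨isCocycle_sub f K h.1 h'.1, fun v => ?_⟩
  obtain ⟨R, hR⟩ := h.2 v
  obtain ⟨R', hR'⟩ := h'.2 v
  refine ⟨R - R', fun σ => ?_⟩
  rw [map_sub, hR, hR', map_sub]
  abel

lemma ShaC.bdry (t : Jac ℓ f K) : ShaC k f (fun σ => act ℓ f K σ t - t) := by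
  refine ⟨isCocycle_bdry f K t, fun v => ⟨embJac ℓ f (Completion v) t, fun σ => ?_⟩⟩
  rw [map_sub, act_embJac]

lemma ShaC.tau {c : AbsGal K → Jac ℓ f K} (h : ShaC k f c) :
    ShaC k f (fun σ => tauJ f K hζ (c σ)) := by
  refine ⟨⟨h.1.1.comp _, fun σ τ => ?_⟩, fun v => ?_⟩
  · change tauJ f K hζ (c (σ * τ)) = tauJ f K hζ (c σ) + act ℓ f K σ (tauJ f K hζ (c τ))
    rw [h.1.2, map_add, act_tauJ]
  · obtain ⟨R, hR⟩ := h.2 v
    refine ⟨tauJ f (Completion v) hζ R, fun σ => ?_⟩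
    rw [embJac_tauJ, hR, map_sub, act_tauJ]

variable (k f) in
/-- The main step, to be proved by the descent map. -/
def Core : Prop := ∀ c : AbsGal K → Jac ℓ f K, ShaC k f c → (∀ σ, tauJ f K hζ (c σ) = c σ) →
  ∃ t : Jac ℓ f K, tauJ f K hζ t = t ∧ ∀ σ, c σ = act ℓ f K σ t - t

variable {hζ}

lemma Core.step (H : Core k f hζ) {c : AbsGal K → Jac ℓ f K} (hc : ShaC k f c)
    (h : ∃ P : Jac ℓ f K, ∀ σ, c σ - tauJ f K hζ (c σ) = act ℓ f K σ P - P) :
    ∃ P : Jac ℓ f K, ∀ σ, c σ = act ℓ f K σ P - P := by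
  obtain ⟨P, hP⟩ := h
  obtain ⟨b, hb⟩ := exists_phi f K hζ P
  obtain ⟨t, -, ht⟩ := H (fun σ => c σ - (act ℓ f K σ b - b)) (hc.sub (ShaC.bdry b)) (fun σ => by
    have h1 := hP σ
    rw [← hb, map_sub, act_tauJ] at h1
    rw [map_sub, map_sub]
    have h2 : tauJ f K hζ (c σ) = c σ - (act ℓ f K σ b - tauJ f K hζ (act ℓ f K σ b) -
      (b - tauJ f K hζ b)) := by rw [← h1]; abel
    rw [h2]
    abel)
  refine ⟨t + b, fun σ => ?_⟩
  have h1 := ht σ
  rw [map_add, sub_eq_iff_eq_add.mp h1]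
  abel

lemma Core.steps (H : Core k f hζ) (n : ℕ) : ∀ {c : AbsGal K → Jac ℓ f K}, ShaC k f c →
    (∃ P : Jac ℓ f K, ∀ σ, ((1 - tauJ f K hζ) ^ n : AddMonoid.End (Jac ℓ f K)) (c σ) =
      act ℓ f K σ P - P) → ∃ P : Jac ℓ f K, ∀ σ, c σ = act ℓ f K σ P - P := by
  induction n with
  | zero => intro c _ h; exact h
  | succ n ih =>
    intro c hc h
    apply H.step hc
    apply ih (hc.sub (hc.tau hζ))
    obtain ⟨P, hP⟩ := h
    exact ⟨P, fun σ => by rw [← hP, end_pow_succ_apply]⟩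

lemma Core.torsion (H : Core k f hζ) {c : AbsGal K → Jac ℓ f K} (hc : ShaC k f c)
    (h : ∃ P : Jac ℓ f K, ∀ σ, ℓ • c σ = act ℓ f K σ P - P) :
    ∃ P : Jac ℓ f K, ∀ σ, c σ = act ℓ f K σ P - P := by
  obtain ⟨B, hB, hB'⟩ := exists_phi_pow_eq (tauJ f K hζ) (sum_tauJ f K hζ)
  have hBact : ∀ σ t, act ℓ f K σ (B t) = B (act ℓ f K σ t) := fun σ t =>
    DFunLike.congr_fun (hB' (show AddMonoid.End (Jac ℓ f K) from act ℓ f K σ)
      (DFunLike.ext _ _ fun t => act_tauJ f K hζ σ t)) t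
  apply H.steps (ℓ - 1) hc
  obtain ⟨P, hP⟩ := h
  exact ⟨B P, fun σ => by rw [hBact, ← map_sub, ← hP, hB, end_natCast_mul_apply']⟩

lemma Core.div_step (H : Core k f hζ) (t : Jac ℓ f K) (ht : ∀ σ, act ℓ f K σ t = t) :
    ∃ s : Jac ℓ f K, (∀ σ, act ℓ f K σ s = s) ∧ s - tauJ f K hζ s = t := by
  obtain ⟨b, hb⟩ := exists_phi f K hζ t
  obtain ⟨t', ht1, ht'⟩ := H (fun σ => act ℓ f K σ b - b) (ShaC.bdry b) (fun σ => by
    have h1 := ht σ
    rw [← hb, map_sub, act_tauJ] at h1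
    have h2 : tauJ f K hζ (act ℓ f K σ b) = act ℓ f K σ b - (b - tauJ f K hζ b) := by
      rw [← h1]; abel
    rw [map_sub, h2]
    abel)
  refine ⟨b - t', fun σ => ?_, ?_⟩
  · have h1 := ht' σ
    rw [map_sub, sub_eq_sub_iff_sub_eq_sub]
    exact h1
  · rw [map_sub, ht1, ← hb]
    abel

lemma Core.div_steps (H : Core k f hζ) (n : ℕ) : ∀ (t : Jac ℓ f K), (∀ σ, act ℓ f K σ t = t) →
    ∃ s : Jac ℓ f K, (∀ σ, act ℓ f K σ s = s) ∧
      ((1 - tauJ f K hζ) ^ n : AddMonoid.End (Jac ℓ f K)) s = t := by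
  induction n with
  | zero => intro t ht; exact ⟨t, ht, rfl⟩
  | succ n ih =>
    intro t ht
    obtain ⟨s, hs, hs'⟩ := ih t ht
    obtain ⟨s', hs1, hs1'⟩ := H.div_step s hs
    exact ⟨s', hs1, by rw [end_pow_succ_apply, hs1', hs']⟩

lemma Core.div (H : Core k f hζ) (t : Jac ℓ f K) (ht : ∀ σ, act ℓ f K σ t = t) :
    ∃ s : Jac ℓ f K, (∀ σ, act ℓ f K σ s = s) ∧ ℓ • s = t := by
  obtain ⟨B, hB, hB'⟩ := exists_phi_pow_eq (tauJ f K hζ) (sum_tauJ f K hζ)
  have hBact : ∀ σ t, act ℓ f K σ (B t) = B (act ℓ f K σ t) := fun σ t =>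
    DFunLike.congr_fun (hB' (show AddMonoid.End (Jac ℓ f K) from act ℓ f K σ)
      (DFunLike.ext _ _ fun t => act_tauJ f K hζ σ t)) t
  obtain ⟨s, hs, hs'⟩ := H.div_steps (ℓ - 1) t ht
  exact ⟨B s, fun σ => by rw [hBact, hs], by rw [← hs', hB, end_natCast_mul_apply]⟩

theorem Core.main (H : Core k f hζ) :
    (∀ ξ ∈ Sha k ℓ f, ℓ • ξ = 0 → ξ = 0) ∧
      (∀ t : Jac ℓ f K, (∀ σ, act ℓ f K σ t = t) →
        ∃ s : Jac ℓ f K, (∀ σ, act ℓ f K σ s = s) ∧ ℓ • s = t) := by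
  refine ⟨?_, H.div⟩
  rintro ξ ⟨⟨c, hc, rfl⟩, hloc⟩ hℓ
  rw [cls_eq_zero_iff]
  have hS : ShaC k f c := by
    refine ⟨hc, fun v => ?_⟩
    have h1 : cls ℓ f K c ∈ (res ℓ f (Completion v)).ker := AddSubgroup.mem_iInf.mp hloc v
    rwa [AddMonoidHom.mem_ker, res_cls, cls_eq_zero_iff] at h1
  apply H.torsion hS
  have h2 : cls ℓ f K (ℓ • c) = 0 := by
    rw [← hℓ]
    rfl
  rw [cls_eq_zero_iff] at h2
  exact h2

end Descent

end Pool.Agent.MP1bdb59C
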