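import Mathlib
import Pool.Agent.MP1bdb59C.Eps

/-!
# Every normalised `μ_ℓ`-valued function on the roots is an invariant
-/

open Polynomial Finset Submodule

noncomputable section

open scoped Classical

set_option linter.unusedSectionVars false

namespace Pool.Agent.MP1bdb59C

universe u v w

variable {F : Type u} [Field F] {ℓ : ℕ} [hp : Fact ℓ.Prime] {f : F[X]} [hf : Good ℓ f]
  {ζ : F} (hζ : IsPrimitiveRoot ζ ℓ)

/-- Evaluation at a root. -/
def lamEv (f : F[X]) (α : F) (hα : f.eval α = 0) : AdjoinRoot f →+* F :=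
  AdjoinRoot.lift (RingHom.id F) α (by rw [← hα]; rfl)

omit hp hf in
lemma lamEv_mk (α : F) (hα : f.eval α = 0) (p : F[X]) :
    lamEv f α hα (AdjoinRoot.mk f p) = p.eval α := by
  unfold lamEv
  rw [AdjoinRoot.lift_mk]
  rfl

lemma lamEv_of (α : F) (hα : f.eval α = 0) (a : F) :
    lamEv f α hα (AdjoinRoot.of f a) = a := by
  rw [← AdjoinRoot.mk_C, lamEv_mk, eval_C]

variable (ℓ) in
include hf in
/-- The evaluations at the roots are jointly injective if `f` splits. -/
lemma lam_ext (hs : f.Splits) {x y : AdjoinRoot f}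
    (h : ∀ α (hα : f.eval α = 0), lamEv f α hα x = lamEv f α hα y) : x = y := by
  obtain ⟨p, rfl⟩ := AdjoinRoot.mk_surjective x
  obtain ⟨q, rfl⟩ := AdjoinRoot.mk_surjective y
  rw [AdjoinRoot.mk_eq_mk]
  by_cases hpq : p - q = 0
  · rw [hpq]; exact dvd_zero f
  have h1 : f.roots ≤ (p - q).roots := by
    rw [Multiset.le_iff_subset (nodup_roots hf.sep)]
    intro α hα
    rw [mem_roots hf.monic.ne_zero, IsRoot.def] at hα
    rw [mem_roots hpq, IsRoot.def, eval_sub, sub_eq_zero]
    have := h α hα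
    rwa [lamEv_mk, lamEv_mk] at this
  have h2 := hs.eq_prod_roots
  rw [hf.monic.leadingCoeff, C_1, one_mul] at h2
  rw [h2]
  exact (Multiset.prod_X_sub_C_dvd_iff_le_roots hpq _).mpr h1

/-- The divisor of the point `(α, 0)`. -/
lemma exists_rel_root (α : F) (hα : f.eval α = 0) :
    ∃ (T : Dv ℓ f) (c : AdjoinRoot f), Rel hζ T 1 c ∧ lamEv f α hα c = ζ ∧
      ∀ β (hβ : f.eval β = 0), β ≠ α → lamEv f β hβ c = 1 := by
  obtain ⟨g, hg⟩ := dvd_iff_isRoot.mpr hα
  have hcop : IsCoprime (X - C α) g := by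
    have := hf.sep
    rw [hg] at this
    exact this.isCoprime
  obtain ⟨a, b, hab⟩ := hcop
  have hy0 := yM_ne_zero (ℓ := ℓ) (f := f)
  set P : FF ℓ f := pol (X - C α) with hP
  have hP0 : P ≠ 0 := pol_ne_zero (X_sub_C_ne_zero α)
  set u : FF ℓ f := yM ℓ f ^ (ℓ - 1) / P with hu
  have hPu : P * u = yM ℓ f ^ (ℓ - 1) := by rw [hu, mul_div_cancel₀ _ hP0]
  have hyu : yM ℓ f * u = pol g := by
    apply mul_left_cancel₀ hP0
    rw [mul_left_comm, hPu, ← pow_succ', Nat.sub_add_cancel hp.out.one_le, yM_pow, hP, ← pol_mul,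
      ← hg]
  have hpoladd : ∀ p q : F[X], (pol (p + q) : FF ℓ f) = pol p + pol q := fun p q => by
    unfold pol; rw [map_add, map_add]
  have h1eq : pol a * P + pol b * (yM ℓ f * u) = 1 := by
    rw [hyu, hP, ← pol_mul, ← pol_mul, ← hpoladd, hab, pol_one]
  have hyM1 : yM ℓ f ∈ (1 : Submodule (CoordRing ℓ f) (FF ℓ f)) := alg_mem_one _
  have hyM2 : ∀ n, yM ℓ f ^ n ∈ (1 : Submodule (CoordRing ℓ f) (FF ℓ f)) := fun n => by
    unfold yM
    rw [← map_pow]
    exact alg_mem_one _
  have hmul : span (CoordRing ℓ f) {P, yM ℓ f} * span (CoordRing ℓ f) {(1 : FF ℓ f), u} = 1 := by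
    apply le_antisymm
    · rw [span_mul_span, span_le]
      rintro _ ⟨x, hx, z, hz, rfl⟩
      simp only [Set.mem_insert_iff, Set.mem_singleton_iff] at hx hz
      rcases hx with rfl | rfl <;> rcases hz with rfl | rfl
      · change P * 1 ∈ _
        rw [mul_one]; exact pol_mem_one _
      · change P * u ∈ _
        rw [hPu]; exact hyM2 _
      · change yM ℓ f * 1 ∈ _
        rw [mul_one]; exact hyM1
      · change yM ℓ f * u ∈ _
        rw [hyu]; exact pol_mem_one _
    · rw [Submodule.one_le]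
      have hmem : pol a * P + pol b * (yM ℓ f * u) ∈
          span (CoordRing ℓ f) {P, yM ℓ f} * span (CoordRing ℓ f) {(1 : FF ℓ f), u} := by
        refine Submodule.add_mem _ ?_ ?_
        · apply mul_mem_of_mem_one (pol_mem_one _)
          rw [← mul_one P]
          exact Submodule.mul_mem_mul (subset_span (by simp)) (subset_span (by simp))
        · apply mul_mem_of_mem_one (pol_mem_one _)
          exact Submodule.mul_mem_mul (subset_span (by simp)) (subset_span (by simp))
      rwa [h1eq] at hmem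
  let T : Dv ℓ f := ⟨span _ {P, yM ℓ f}, span _ {1, u}, hmul, by rw [mul_comm, hmul]⟩
  have hTP : P ∈ T.1 := subset_span (by simp)
  have hTy : yM ℓ f ∈ T.1 := subset_span (by simp)
  have hT1 : (1 : FF ℓ f) ∈ (T⁻¹).1 := subset_span (by simp)
  have hTu : u ∈ (T⁻¹).1 := subset_span (by simp)
  have hle : ∀ S : Submodule (CoordRing ℓ f) (FF ℓ f), P ∈ S → yM ℓ f ∈ S → T.1 ≤ S := by
    intro S h1 h2
    change span _ {P, yM ℓ f} ≤ S
    rw [span_le]
    rintro x hx
    simp only [Set.mem_insert_iff, Set.mem_singleton_iff] at hx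
    rcases hx with rfl | rfl
    · exact h1
    · exact h2
  have hTτ : tauU hζ T = T := by
    apply Units.ext
    apply le_antisymm
    · change push _ T.1 ≤ T.1
      rw [push_le]
      have h2 : T.1 ≤ (T.1.comap (R := CoordRing ℓ f) LinearMap.id : Submodule _ _) := le_rfl
      intro t ht
      have h3 : t ∈ span (CoordRing ℓ f) {P, yM ℓ f} := ht
      induction h3 using Submodule.span_induction with
      | mem x hx =>
        simp only [Set.mem_insert_iff, Set.mem_singleton_iff] at hx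
        rcases hx with rfl | rfl
        · rw [hP, tauM_pol]; exact hTP
        · rw [tauM_yM]; exact mul_mem_of_mem_one (pol_mem_one _) hTy
      | zero => rw [map_zero]; exact Submodule.zero_mem _
      | add x y hx' hy' hx hy => rw [map_add]; exact Submodule.add_mem _ (hx hx') (hy hy')
      | smul r x hx' hx =>
        rw [Algebra.smul_def, map_mul, tauM_alg, ← Algebra.smul_def]
        exact Submodule.smul_mem _ _ (hx hx')
    · apply hle
      · have := tauM_mem_tauS hζ hTP
        rwa [hP, tauM_pol] at this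
      · have h2 := tauM_mem_tauS hζ hTy
        rw [tauM_yM] at h2
        have hζ0 := hζ.ne_zero hp.out.ne_zero
        have h3 : yM ℓ f = pol (C ζ⁻¹) * (pol (C ζ) * yM ℓ f) := by
          rw [← mul_assoc, ← pol_mul, ← C_mul, inv_mul_cancel₀ hζ0, C_1, pol_one, one_mul]
        rw [h3]
        exact mul_mem_of_mem_one (pol_mem_one _) h2
  obtain ⟨c, hc⟩ := exists_rel (hζ := hζ) T one_ne_zero (by rw [prin_one, one_mul, hTτ])
  -- compute `c`
  have hca : pol a ∈ (T⁻¹).1 := by
    rw [← mul_one (pol a)]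
    exact mul_mem_of_mem_one (pol_mem_one _) hT1
  have hcb : pol b * u ∈ (T⁻¹).1 := mul_mem_of_mem_one (pol_mem_one _) hTu
  have e1 := hc.rel P hTP _ hca
  have e2 := hc.rel _ hTy _ hcb
  have e3 : redM (P * pol a) + redM (yM ℓ f * (pol b * u)) = 1 := by
    rw [← redM_add (T.mul_inv_mem hTP hca) (T.mul_inv_mem hTy hcb), ← redM_one (ℓ := ℓ), ← h1eq]
    congr 1
    ring
  rw [one_mul, hP, tauM_pol, ← hP] at e1
  rw [one_mul, tauM_yM] at e2
  have e4 : pol (C ζ) * yM ℓ f * (pol b * u) = pol (C ζ * (b * g)) := by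
    rw [pol_mul, pol_mul, ← hyu]; ring
  have e5 : P * pol a = pol ((X - C α) * a) := by rw [pol_mul]
  have hcval : c = AdjoinRoot.mk f ((X - C α) * a + C ζ * (b * g)) := by
    rw [map_add, ← redM_pol (ℓ := ℓ), ← redM_pol (ℓ := ℓ), ← e5, ← e4, e1, e2, ← mul_add, e3,
      mul_one]
  have hsum := congrArg (fun p : F[X] => p.eval) hab
  refine ⟨T, c, hc, ?_, ?_⟩
  · rw [hcval, lamEv_mk]
    have h2 := congrArg (eval α) hab
    simp only [eval_add, eval_mul, eval_sub, eval_X, eval_C, sub_self, mul_zero, zero_add,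
      eval_one, zero_mul] at h2 ⊢
    rw [h2, mul_one]
  · intro β hβ hne
    have h3 : g.eval β = 0 := by
      have := hβ
      rw [hg, eval_mul, eval_sub, eval_X, eval_C] at this
      exact (mul_eq_zero.mp this).resolve_left (sub_ne_zero.mpr hne)
    rw [hcval, lamEv_mk]
    have h2 := congrArg (eval β) hab
    simp only [eval_add, eval_mul, eval_sub, eval_X, eval_C, eval_one, h3, mul_zero,
      add_zero] at h2 ⊢
    rw [mul_comm]
    exact h2

/-- Surjectivity of the invariant. -/
theorem exists_of_isEps (hs : f.Splits) {η : AdjoinRoot f} (h1 : η ^ ℓ = 1)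
    (h2 : Algebra.norm F η = 1) : ∃ t, IsEps hζ t η := by
  have hev : ∀ α, ∃ i : ℕ, ∀ hα : f.eval α = 0, lamEv f α hα η = ζ ^ i := by
    intro α
    by_cases hα : f.eval α = 0
    · have h3 : (lamEv f α hα η) ^ ℓ = 1 := by rw [← map_pow, h1, map_one]
      obtain ⟨i, -, hi⟩ := hζ.eq_pow_of_pow_eq_one h3
      exact ⟨i, fun _ => hi.symm⟩
    · exact ⟨0, fun h => absurd h hα⟩
  choose i hi using hev
  have key : ∀ s : Finset F, (∀ α ∈ s, f.eval α = 0) →
      ∃ (T : Dv ℓ f) (c : AdjoinRoot f), Rel hζ T 1 c ∧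
        ∀ β (hβ : f.eval β = 0), lamEv f β hβ c = if β ∈ s then ζ ^ i β else 1 := by
    intro s
    induction s using Finset.induction_on with
    | empty =>
      intro _
      exact ⟨1, 1, Rel.one, fun β hβ => by simp⟩
    | insert α s hαs ih =>
      intro hsα
      obtain ⟨T, c, hTc, hc⟩ := ih (fun β hβ => hsα β (Finset.mem_insert_of_mem hβ))
      have hα := hsα α (Finset.mem_insert_self _ _)
      obtain ⟨T', c', hTc', hc', hc''⟩ := exists_rel_root (ℓ := ℓ) hζ α hα
      refine ⟨T * T' ^ i α, c * c' ^ i α, ?_, ?_⟩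
      · have := hTc.mul (hTc'.pow_rel (i α))
        rwa [one_pow, one_mul] at this
      · intro β hβ
        rw [map_mul, map_pow, hc β hβ]
        by_cases hβα : β = α
        · subst hβα
          rw [if_neg hαs, one_mul, hc', if_pos (Finset.mem_insert_self _ _)]
        · rw [hc'' β hβ hβα, one_pow, mul_one]
          simp only [Finset.mem_insert, hβα, false_or]
  have hmem : ∀ α, α ∈ f.roots.toFinset ↔ f.eval α = 0 := by
    intro α
    rw [Multiset.mem_toFinset, mem_roots (Good.monic ℓ (f := f)).ne_zero]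
    rfl
  obtain ⟨T, c, hTc, hc⟩ := key f.roots.toFinset (fun α hα => (hmem α).mp hα)
  have hcη : c = η := by
    apply lam_ext ℓ hs
    intro α hα
    rw [hc α hα, if_pos ((hmem α).mpr hα), hi α hα]
  subst hcη
  exact ⟨pcl T, T, 1, rfl, hTc, nrm_one _ _, h2⟩

end Pool.Agent.MP1bdb59C
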