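import Mathlib
import Pool.Agent.MP1bdb59C.Gal
import Pool.Agent.MP1bdb59C.Surj
import Pool.Agent.MP1bdb59.Defs

/-!
# Hilbert 90 for `F^s[x]/(f)`
-/

open Polynomial Finset

noncomputable section

open scoped Classical

set_option linter.unusedSectionVars false

namespace Pool.Agent.MP1bdb59C

open Pool.Agent.MP1bdb59 (Sep AbsGal)

universe u v

lemma isUnit_of_ne_zero_irr {F : Type*} [Field F] {g : F[X]} (hirr : Irreducible g)
    {x : AdjoinRoot g} (hx : x ≠ 0) : IsUnit x := by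
  have : Fact (Irreducible g) := ⟨hirr⟩
  exact IsUnit.mk0 x hx

variable {F : Type u} [Field F] {ℓ : ℕ} [hp : Fact ℓ.Prime] {g : F[X]} {gs : (Sep F)[X]}
  [hf : Good ℓ g] [hfs : Good ℓ gs] (hgs : g.map (algebraMap F (Sep F)) = gs)

lemma aL_of (σ : AbsGal F) (x : Sep F) :
    aL hgs σ (AdjoinRoot.of gs x) = AdjoinRoot.of gs (σ x) := lamMap_of _ _ x

lemma aL_lamMap (σ : AbsGal F) (x : AdjoinRoot g) :
    aL hgs σ (lamMap (algebraMap F (Sep F)) hgs x) = lamMap (algebraMap F (Sep F)) hgs x := by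
  obtain ⟨p, rfl⟩ := AdjoinRoot.mk_surjective x
  have h1 : (gr σ).comp (algebraMap F (Sep F)) = algebraMap F (Sep F) :=
    RingHom.ext fun x => σ.commutes x
  have h2 : aL hgs σ (lamMap (algebraMap F (Sep F)) hgs (AdjoinRoot.mk g p)) =
      AdjoinRoot.mk gs ((p.map (algebraMap F (Sep F))).map (gr σ)) := by
    rw [lamMap_mk]
    exact lamMap_mk _ _ _
  rw [h2, Polynomial.map_map, h1, lamMap_mk]

include hfs in
variable (ℓ) in
lemma gs_splits : gs.Splits := IsSepClosed.splits_of_separable gs (Good.sep ℓ)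

include hfs in
variable (ℓ) in
lemma gs_nontrivial : Nontrivial (AdjoinRoot gs) := by
  apply AdjoinRoot.nontrivial
  rw [degree_eq_natDegree (Good.monic ℓ (f := gs)).ne_zero]
  exact_mod_cast Good.natDegree_ne ℓ (f := gs)

include hfs in
variable (ℓ) in
lemma gs_reduced {x : AdjoinRoot gs} {n : ℕ} (hx : x ^ n = 0) : x = 0 := by
  apply lam_ext ℓ (gs_splits ℓ)
  intro α hα
  rw [map_zero]
  have := congrArg (lamEv gs α hα) hx
  rw [map_pow, map_zero] at this
  exact eq_zero_of_pow_eq_zero this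

/-- **Hilbert 90** for a cocycle with values in the `ℓ`-th roots of unity of `F^s[x]/(f)`. -/
theorem hilbert90_lam (hirr : Irreducible g) (eps : AbsGal F → AdjoinRoot gs)
    (hlc : IsLocallyConstant eps)
    (hcoc : ∀ σ τ, eps (σ * τ) = eps σ * aL hgs σ (eps τ)) (hpow : ∀ σ, eps σ ^ ℓ = 1) :
    ∃ (ρ : AdjoinRoot gs) (m : AdjoinRoot g), IsUnit ρ ∧ IsUnit m ∧
      (∀ σ, aL hgs σ ρ = eps σ * ρ) ∧ lamMap (algebraMap F (Sep F)) hgs m = ρ ^ ℓ := by
  have hunit : ∀ σ, IsUnit (eps σ) := fun σ =>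
    IsUnit.of_pow_eq_one (hpow σ) hp.out.ne_zero
  have h1 : eps 1 = 1 := by
    have h2 := hcoc 1 1
    rw [mul_one, aL_one] at h2
    exact (hunit 1).mul_left_cancel (by rw [← h2, mul_one])
  have hopen : {σ | eps σ = 1} ∈ nhds (1 : AbsGal F) :=
    (hlc.isOpen_fiber 1).mem_nhds h1
  rw [krullTopology_mem_nhds_one_iff] at hopen
  obtain ⟨E, hE, hEU⟩ := hopen
  set U : Subgroup (AbsGal F) := E.fixingSubgroup with hUdef
  have hU : IsOpen (U : Set (AbsGal F)) := IntermediateField.fixingSubgroup_isOpen E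
  have hfin := finite_quot hU
  have hinv : ∀ σ, ∀ u ∈ U, eps (σ * u) = eps σ := by
    intro σ u hu
    have h2 : eps u = 1 := hEU hu
    rw [hcoc, h2, map_one, mul_one]
  set b : Sep F → AdjoinRoot gs := fun κ =>
    sumQ U (fun σ : AbsGal F => eps σ * AdjoinRoot.of gs (σ κ)) with hb
  have hbact : ∀ κ : Sep F, (∀ u ∈ U, u κ = κ) → ∀ τ, eps τ * aL hgs τ (b κ) = b κ := by
    intro κ hκ τ
    rw [hb]
    simp only
    rw [map_sumQ, mul_sumQ]
    have h3 : ∀ σ : AbsGal F, eps τ * aL hgs τ (eps σ * AdjoinRoot.of gs (σ κ)) =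
        eps (τ * σ) * AdjoinRoot.of gs ((τ * σ) κ) := by
      intro σ
      rw [map_mul, aL_of, hcoc, mul_assoc]
      rfl
    rw [sumQ_congr h3]
    exact sumQ_mul (Φ := fun σ : AbsGal F => eps σ * AdjoinRoot.of gs (σ κ)) (fun σ u hu => by
      have h4 : (σ * u) κ = σ κ := by
        change σ (u κ) = σ κ
        rw [hκ u hu]
      simp only [h4, hinv σ u hu]) τ
  obtain ⟨κ, hκ, hκ0⟩ : ∃ κ : Sep F, (∀ u ∈ U, u κ = κ) ∧ b κ ≠ 0 := by
    by_contra hcon
    push Not at hcon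
    obtain ⟨s, l, hs, hl⟩ := exists_dual hU
    have h5 : ∑ κ ∈ s, AdjoinRoot.of gs (l κ) * b κ = 1 := by
      have h6 : ∀ κ ∈ s, AdjoinRoot.of gs (l κ) * b κ =
          sumQ U (fun σ : AbsGal F => AdjoinRoot.of gs (l κ) * (eps σ * AdjoinRoot.of gs (σ κ))) :=
        fun κ _ => mul_sumQ _ _
      rw [Finset.sum_congr rfl h6, sumQ_sum]
      have h7 : ∀ σ : AbsGal F,
          ∑ κ ∈ s, AdjoinRoot.of gs (l κ) * (eps σ * AdjoinRoot.of gs (σ κ)) =
            if σ ∈ U then eps σ else 0 := by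
        intro σ
        have h8 : ∑ κ ∈ s, AdjoinRoot.of gs (l κ) * (eps σ * AdjoinRoot.of gs (σ κ)) =
            eps σ * AdjoinRoot.of gs (∑ κ ∈ s, l κ * σ κ) := by
          rw [map_sum, Finset.mul_sum]
          refine Finset.sum_congr rfl fun κ _ => ?_
          rw [map_mul]
          ring
        rw [h8, hl σ]
        split_ifs
        · rw [map_one, mul_one]
        · rw [map_zero, mul_zero]
      rw [sumQ_congr h7, sumQ_ite eps hinv, h1]
    rw [Finset.sum_eq_zero (fun κ hκ => by rw [hcon κ (hs κ hκ), mul_zero])] at h5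
    have := gs_nontrivial (gs := gs) ℓ
    exact zero_ne_one h5
  have hbκ := hbact κ hκ
  have hfix : ∀ σ, aL hgs σ (b κ ^ ℓ) = b κ ^ ℓ := by
    intro σ
    have h9 := congrArg (fun x => x ^ ℓ) (hbκ σ)
    simp only [mul_pow, hpow, one_mul] at h9
    rw [map_pow, h9]
  obtain ⟨x₀, hx₀⟩ := exists_lam_of_fixed ℓ hgs hfix
  have hx₀0 : x₀ ≠ 0 := by
    rintro rfl
    rw [map_zero] at hx₀
    exact hκ0 (gs_reduced ℓ hx₀.symm)
  have hx₀u := isUnit_of_ne_zero_irr hirr hx₀0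
  have hbu : IsUnit (b κ) := by
    have h10 : IsUnit (b κ ^ ℓ) := by
      rw [← hx₀]
      exact hx₀u.map _
    exact (isUnit_pow_iff hp.out.ne_zero).mp h10
  obtain ⟨ρ, hρ⟩ := hbu.exists_right_inv
  obtain ⟨m, hm⟩ := hx₀u.exists_right_inv
  refine ⟨ρ, m, IsUnit.of_mul_eq_one _ (by rw [mul_comm]; exact hρ),
    IsUnit.of_mul_eq_one _ (by rw [mul_comm]; exact hm), fun σ => ?_, ?_⟩
  · have h11 : IsUnit (aL hgs σ (b κ)) := hbu.map _
    apply h11.mul_left_cancel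
    rw [← map_mul, hρ, map_one, mul_left_comm, ← mul_assoc, hbκ, hρ]
  · have h12 : IsUnit (b κ ^ ℓ) := hbu.pow ℓ
    apply h12.mul_left_cancel
    rw [← hx₀, ← map_mul, hm, map_one, hx₀, ← mul_pow, hρ, one_pow]

include hfs in
variable (ℓ) in
/-- The norm of `ρ` is rational. -/
lemma exists_norm_rational {eps : AbsGal F → AdjoinRoot gs} {ρ : AdjoinRoot gs}
    (h : ∀ σ, aL hgs σ ρ = eps σ * ρ) (hN : ∀ σ, Algebra.norm (Sep F) (eps σ) = 1) :
    ∃ r : F, algebraMap F (Sep F) r = Algebra.norm (Sep F) ρ := by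
  apply (InfiniteGalois.mem_range_algebraMap_iff_fixed (k := F) (K := Sep F) _).mpr
  intro σ
  have h1 := norm_lamMap (gr σ) (map_gal hgs σ) (Good.monic ℓ (f := gs)) ρ
  have h2 : Algebra.norm (Sep F) (aL hgs σ ρ) = Algebra.norm (Sep F) ρ := by
    rw [h, map_mul, hN, one_mul]
  exact h1.symm.trans h2

lemma exists_norm_pow {eps : AbsGal F → AdjoinRoot gs} {ρ : AdjoinRoot gs}
    (h : ∀ σ, aL hgs σ ρ = eps σ * ρ) (hN : ∀ σ, Algebra.norm (Sep F) (eps σ) = 1)
    {m : AdjoinRoot g} (hm : lamMap (algebraMap F (Sep F)) hgs m = ρ ^ ℓ) :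
    ∃ r : F, Algebra.norm F m = r ^ ℓ := by
  obtain ⟨r, hr⟩ := exists_norm_rational ℓ hgs h hN
  refine ⟨r, ?_⟩
  apply (algebraMap F (Sep F)).injective
  have h1 := norm_lamMap (algebraMap F (Sep F)) hgs (Good.monic ℓ (f := g)) m
  rw [← h1, hm, map_pow, ← hr, map_pow]

end Pool.Agent.MP1bdb59C
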