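import Mathlib
import Pool.Agent.MP1bdb59.Stmt
import Pool.Agent.MP1bdb59C.Surj

/-!
# Elements regular along `y = 0`
-/

open Polynomial Finset Submodule

noncomputable section

open scoped Classical

set_option linter.unusedSectionVars false

namespace Pool.Agent.MP1bdb59C

open Pool.Agent.MP1bdb59 (Sep AbsGal)

universe u

section InW

variable {F : Type u} [Field F] {ℓ : ℕ} [hp : Fact ℓ.Prime] {f : F[X]} [hf : Good ℓ f]

/-- `x` is regular along `y = 0`, with restriction `c`. -/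
def InW (x : FF ℓ f) (c : AdjoinRoot f) : Prop :=
  ∃ t ∈ (1 : Submodule (CoordRing ℓ f) (FF ℓ f)), redM t = 1 ∧
    t * x ∈ (1 : Submodule (CoordRing ℓ f) (FF ℓ f)) ∧ redM (t * x) = c

lemma InW.of_mem {x : FF ℓ f} (hx : x ∈ (1 : Submodule (CoordRing ℓ f) (FF ℓ f))) :
    InW x (redM x) := by
  refine ⟨1, one_mem_one, redM_one, ?_, ?_⟩
  · rwa [one_mul]
  · rw [one_mul]

lemma InW.mul {x y : FF ℓ f} {c d : AdjoinRoot f} (hx : InW x c) (hy : InW y d) :
    InW (x * y) (c * d) := by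
  obtain ⟨t, ht, ht1, htx, htx'⟩ := hx
  obtain ⟨s, hs, hs1, hsy, hsy'⟩ := hy
  have h1 : t * s * (x * y) = t * x * (s * y) := by ring
  refine ⟨t * s, mul_mem_one ht hs, ?_, ?_, ?_⟩
  · rw [redM_mul ht hs, ht1, hs1, one_mul]
  · rw [h1]
    exact mul_mem_one htx hsy
  · rw [h1, redM_mul htx hsy, htx', hsy']

lemma InW.add {x y : FF ℓ f} {c d : AdjoinRoot f} (hx : InW x c) (hy : InW y d) :
    InW (x + y) (c + d) := by
  obtain ⟨t, ht, ht1, htx, htx'⟩ := hx
  obtain ⟨s, hs, hs1, hsy, hsy'⟩ := hy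
  have h1 : t * s * (x + y) = s * (t * x) + t * (s * y) := by ring
  have h2 := mul_mem_one hs htx
  have h3 := mul_mem_one ht hsy
  refine ⟨t * s, mul_mem_one ht hs, ?_, ?_, ?_⟩
  · rw [redM_mul ht hs, ht1, hs1, one_mul]
  · rw [h1]
    exact Submodule.add_mem _ h2 h3
  · rw [h1, redM_add h2 h3, redM_mul hs htx, redM_mul ht hsy, htx', hsy', ht1, hs1, one_mul,
      one_mul]

lemma InW.zero : InW (0 : FF ℓ f) 0 := by
  have := InW.of_mem (ℓ := ℓ) (f := f) (Submodule.zero_mem (1 : Submodule (CoordRing ℓ f) (FF ℓ f)))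
  rwa [redM_zero] at this

lemma InW.one : InW (1 : FF ℓ f) 1 := by
  have := InW.of_mem (ℓ := ℓ) (f := f) one_mem_one
  rwa [redM_one] at this

lemma InW.unique {x : FF ℓ f} {c d : AdjoinRoot f} (hx : InW x c) (hy : InW x d) : c = d := by
  obtain ⟨t, ht, ht1, htx, htx'⟩ := hx
  obtain ⟨s, hs, hs1, hsy, hsy'⟩ := hy
  rw [← htx', ← hsy', ← one_mul (redM (t * x)), ← one_mul (redM (s * x)), ← ht1]
  conv_lhs => rw [ht1, ← hs1]
  rw [← redM_mul hs htx, ← redM_mul ht hsy]
  congr 1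
  ring

lemma InW.redM_eq {x : FF ℓ f} {c : AdjoinRoot f} (h : InW x c)
    (hx : x ∈ (1 : Submodule (CoordRing ℓ f) (FF ℓ f))) : redM x = c :=
  (InW.of_mem hx).unique h

lemma InW.inv {x : FF ℓ f} {c d : AdjoinRoot f} (h : InW x c) (hx : x ≠ 0) (hcd : c * d = 1) :
    InW x⁻¹ d := by
  obtain ⟨t, ht, ht1, htx, htx'⟩ := h
  obtain ⟨e, he, he'⟩ := redM_surjective (ℓ := ℓ) d
  have h1 : e * (t * x) * x⁻¹ = e * t := by
    rw [mul_assoc, mul_assoc, mul_inv_cancel₀ hx, mul_one]
  refine ⟨e * (t * x), mul_mem_one he htx, ?_, ?_, ?_⟩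
  · rw [redM_mul he htx, he', htx', mul_comm, hcd]
  · rw [h1]
    exact mul_mem_one he ht
  · rw [h1, redM_mul he ht, he', ht1, mul_one]

lemma InW.ne_zero {x : FF ℓ f} {c : AdjoinRoot f} (h : InW x c) (hc : c ≠ 0) : x ≠ 0 := by
  rintro rfl
  exact hc (h.unique InW.zero)

lemma InW.tau {ζ : F} (hζ : IsPrimitiveRoot ζ ℓ) {x : FF ℓ f} {c : AdjoinRoot f}
    (h : InW x c) : InW (tauM hζ x) c := by
  obtain ⟨t, ht, ht1, htx, htx'⟩ := h
  refine ⟨tauM hζ t, tauM_mem_one hζ ht, ?_, ?_, ?_⟩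
  · rw [redM_tau hζ ht, ht1]
  · rw [← map_mul]
    exact tauM_mem_one hζ htx
  · rw [← map_mul, redM_tau hζ htx, htx']

lemma InW.nrm {ζ : F} (hζ : IsPrimitiveRoot ζ ℓ) {x : FF ℓ f} {c : AdjoinRoot f}
    (h : InW x c) (n : ℕ) : InW (nrm (tauM hζ) n x) (c ^ n) := by
  induction n with
  | zero =>
    rw [MP1bdb59C.nrm, Finset.range_zero, Finset.prod_empty, pow_zero]
    exact InW.one
  | succ n ih =>
    rw [nrm_succ, pow_succ']
    exact h.mul (ih.tau hζ)

lemma InW.finset_sum {ι : Type*} (s : Finset ι) {Φ : ι → FF ℓ f} {c : ι → AdjoinRoot f}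
    (h : ∀ i, InW (Φ i) (c i)) : InW (∑ i ∈ s, Φ i) (∑ i ∈ s, c i) := by
  induction s using Finset.induction_on with
  | empty => rw [Finset.sum_empty, Finset.sum_empty]; exact InW.zero
  | insert i s hi ih =>
    rw [Finset.sum_insert hi, Finset.sum_insert hi]
    exact (h i).add ih

end InW

section Triv

variable {F : Type u} [Field F] {ℓ : ℕ} [hp : Fact ℓ.Prime] {f : F[X]} [hf : Good ℓ f]

omit hp hf in
/-- Interpolation in `F[x]/(f)` when `f` splits. -/
lemma exists_lagrange (hf0 : f ≠ 0) (v : F → F) :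
    ∃ c : AdjoinRoot f, ∀ α (hα : f.eval α = 0), lamEv f α hα c = v α := by
  refine ⟨AdjoinRoot.mk f (Lagrange.interpolate f.roots.toFinset id v), fun α hα => ?_⟩
  rw [lamEv_mk]
  have hα' : α ∈ f.roots.toFinset := by
    rw [Multiset.mem_toFinset, mem_roots hf0]
    exact hα
  have := Lagrange.eval_interpolate_at_node (s := f.roots.toFinset) v (v := id)
    Function.injective_id.injOn hα'
  exact this

/-- Every divisor class contains an ideal which is prime to `y`. -/
theorem exists_trivial (hs : f.Splits) (Q : Dv ℓ f) :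
    ∃ u ∈ (Q⁻¹).1, ∃ q ∈ Q.1, redM (q * u) = 1 := by
  -- local generators
  have h1 : ∀ α (hα : f.eval α = 0), ∃ q ∈ Q.1, ∃ u ∈ (Q⁻¹).1,
      lamEv f α hα (redM (q * u)) ≠ 0 := by
    intro α hα
    by_contra hcon
    push Not at hcon
    have h2 : lamEv f α hα (redM (1 : FF ℓ f)) = 0 := by
      refine Q.one_induction (P := fun x => lamEv f α hα (redM x) = 0) ?_ ?_ one_mem_one
      · intro g hg u hu
        exact hcon g hg u hu
      · intro x hx y hy h3 h4
        rw [redM_add hx hy, map_add, h3, h4, add_zero]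
    rw [redM_one, map_one] at h2
    exact one_ne_zero h2
  choose q hq u hu hqu using h1
  -- extend to all of `F`
  let q' : F → FF ℓ f := fun α => if hα : f.eval α = 0 then q α hα else 0
  let u' : F → FF ℓ f := fun α => if hα : f.eval α = 0 then u α hα else 0
  have hq' : ∀ α, q' α ∈ Q.1 := by
    intro α
    simp only [q']
    split_ifs with hα
    · exact hq α hα
    · exact Submodule.zero_mem _
  have hu' : ∀ α, u' α ∈ (Q⁻¹).1 := by
    intro α
    simp only [u']
    split_ifs with hα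
    · exact hu α hα
    · exact Submodule.zero_mem _
  -- idempotents
  have h2 : ∀ α : F, ∃ e ∈ (1 : Submodule (CoordRing ℓ f) (FF ℓ f)),
      ∀ β (hβ : f.eval β = 0), lamEv f β hβ (redM e) = if β = α then 1 else 0 := by
    intro α
    obtain ⟨c, hc⟩ := exists_lagrange hf.monic.ne_zero (fun β => if β = α then 1 else 0)
    obtain ⟨e, he, he'⟩ := redM_surjective (ℓ := ℓ) c
    exact ⟨e, he, fun β hβ => by rw [he', hc β hβ]⟩
  choose e he he' using h2
  set U : FF ℓ f := ∑ α ∈ f.roots.toFinset, e α * u' α with hU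
  have hUm : U ∈ (Q⁻¹).1 := by
    rw [hU]
    exact Submodule.sum_mem _ fun α _ => mul_mem_of_mem_one (he α) (hu' α)
  have hev : ∀ g ∈ Q.1, ∀ β (hβ : f.eval β = 0),
      lamEv f β hβ (redM (g * U)) = lamEv f β hβ (redM (g * u β hβ)) := by
    intro g hg β hβ
    have h3 : ∀ α, e α * (g * u' α) ∈ (1 : Submodule (CoordRing ℓ f) (FF ℓ f)) := fun α =>
      mul_mem_one (he α) (Q.mul_inv_mem hg (hu' α))
    have h4 : g * U = ∑ α ∈ f.roots.toFinset, e α * (g * u' α) := by
      rw [hU, Finset.mul_sum]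
      exact Finset.sum_congr rfl fun α _ => by ring
    have h5 : ∀ s : Finset F, (∑ α ∈ s, e α * (g * u' α)) ∈
        (1 : Submodule (CoordRing ℓ f) (FF ℓ f)) ∧
        lamEv f β hβ (redM (∑ α ∈ s, e α * (g * u' α))) =
          ∑ α ∈ s, lamEv f β hβ (redM (e α * (g * u' α))) := by
      intro s
      induction s using Finset.induction_on with
      | empty =>
        rw [Finset.sum_empty, Finset.sum_empty, redM_zero, map_zero]
        exact ⟨Submodule.zero_mem _, rfl⟩
      | insert α s hα ih =>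
        rw [Finset.sum_insert hα, Finset.sum_insert hα, redM_add (h3 α) ih.1, map_add, ih.2]
        exact ⟨Submodule.add_mem _ (h3 α) ih.1, rfl⟩
    rw [h4, (h5 _).2]
    have hβ' : β ∈ f.roots.toFinset := by
      rw [Multiset.mem_toFinset, mem_roots hf.monic.ne_zero]
      exact hβ
    rw [Finset.sum_eq_single β]
    · rw [redM_mul (he β) (Q.mul_inv_mem hg (hu' β)), map_mul, he' β β hβ, if_pos rfl, one_mul]
      have : u' β = u β hβ := dif_pos hβ
      rw [this]
    · intro α _ hαβ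
      rw [redM_mul (he α) (Q.mul_inv_mem hg (hu' α)), map_mul, he' α β hβ,
        if_neg (Ne.symm hαβ), zero_mul]
    · intro h
      exact absurd hβ' h
  -- the element of `Q`
  set c : F → F := fun α => if hα : f.eval α = 0 then
    (lamEv f α hα (redM (q α hα * u α hα)))⁻¹ else 0 with hc
  set G : FF ℓ f := ∑ α ∈ f.roots.toFinset, (pol (C (c α)) * e α) * q' α with hG
  have hGm : G ∈ Q.1 := by
    rw [hG]
    exact Submodule.sum_mem _ fun α _ =>
      mul_mem_of_mem_one (mul_mem_one (pol_mem_one _) (he α)) (hq' α)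
  refine ⟨U, hUm, G, hGm, ?_⟩
  apply lam_ext ℓ hs
  intro β hβ
  rw [map_one]
  have h3 : ∀ α, (pol (C (c α)) * e α) * (q' α * U) ∈
      (1 : Submodule (CoordRing ℓ f) (FF ℓ f)) := fun α =>
    mul_mem_one (mul_mem_one (pol_mem_one _) (he α)) (Q.mul_inv_mem (hq' α) hUm)
  have h4 : G * U = ∑ α ∈ f.roots.toFinset, (pol (C (c α)) * e α) * (q' α * U) := by
    rw [hG, Finset.sum_mul]
    exact Finset.sum_congr rfl fun α _ => by ring
  have h5 : ∀ s : Finset F, (∑ α ∈ s, (pol (C (c α)) * e α) * (q' α * U)) ∈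
      (1 : Submodule (CoordRing ℓ f) (FF ℓ f)) ∧
      lamEv f β hβ (redM (∑ α ∈ s, (pol (C (c α)) * e α) * (q' α * U))) =
        ∑ α ∈ s, lamEv f β hβ (redM ((pol (C (c α)) * e α) * (q' α * U))) := by
    intro s
    induction s using Finset.induction_on with
    | empty =>
      rw [Finset.sum_empty, Finset.sum_empty, redM_zero, map_zero]
      exact ⟨Submodule.zero_mem _, rfl⟩
    | insert α s hα ih =>
      rw [Finset.sum_insert hα, Finset.sum_insert hα, redM_add (h3 α) ih.1, map_add, ih.2]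
      exact ⟨Submodule.add_mem _ (h3 α) ih.1, rfl⟩
  rw [h4, (h5 _).2]
  have hβ' : β ∈ f.roots.toFinset := by
    rw [Multiset.mem_toFinset, mem_roots hf.monic.ne_zero]
    exact hβ
  have h6 : ∀ α, lamEv f β hβ (redM ((pol (C (c α)) * e α) * (q' α * U))) =
      c α * (if β = α then 1 else 0) * lamEv f β hβ (redM (q' α * U)) := by
    intro α
    rw [redM_mul (mul_mem_one (pol_mem_one _) (he α)) (Q.mul_inv_mem (hq' α) hUm),
      redM_mul (pol_mem_one _) (he α), redM_pol, map_mul, map_mul, he' α β hβ, lamEv_mk, eval_C]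
  rw [Finset.sum_eq_single β]
  · rw [h6, if_pos rfl, mul_one, hev _ (hq' β) β hβ]
    have h7 : q' β = q β hβ := dif_pos hβ
    have h8 : c β = (lamEv f β hβ (redM (q β hβ * u β hβ)))⁻¹ := dif_pos hβ
    rw [h7, h8]
    exact inv_mul_cancel₀ (hqu β hβ)
  · intro α _ hαβ
    rw [h6, if_neg (Ne.symm hαβ), mul_zero, zero_mul]
  · intro h
    exact absurd hβ' h

end Triv

end Pool.Agent.MP1bdb59C
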