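import Mathlib
import Pool.Agent.MP1bdb59C.Desc
import Pool.Agent.MP1bdb59C.InW

/-!
# The local theorem: descent of an invariant class to an ideal prime to `y`
-/

open Polynomial Finset Submodule

noncomputable section

open scoped Classical

set_option linter.unusedSectionVars false

namespace Pool.Agent.MP1bdb59C

open Pool.Agent.MP1bdb59 (Sep AbsGal)

universe u

section Grp

variable {G : Type*} [CommGroup G]

lemma grp1 {p a b c d : G} (h : p * (c * d⁻¹) = a * b⁻¹) : a * c⁻¹ = p * (b * d⁻¹) := by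
  have h1 : a = p * (c * d⁻¹) * b := by rw [h, inv_mul_cancel_right]
  calc a * c⁻¹ = p * (b * d⁻¹) * (c * c⁻¹) := by rw [h1]; ac_rfl
    _ = p * (b * d⁻¹) := by rw [mul_inv_cancel, mul_one]

lemma grp2 (a b i : G) : b * i⁻¹ = (a * i⁻¹) * (b * a⁻¹) := by
  calc b * i⁻¹ = b * i⁻¹ * (a * a⁻¹) := by rw [mul_inv_cancel, mul_one]
    _ = _ := by ac_rfl

lemma grp3 (i t p : G) : (i * t⁻¹ * p)⁻¹ = t * i⁻¹ * p⁻¹ := by
  rw [mul_inv, mul_inv, inv_inv, mul_comm i⁻¹ t]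

lemma grp4 (s i p : G) : s * (i * i⁻¹ * p) = s * p := by
  rw [mul_inv_cancel, one_mul]

end Grp

section Gen

variable {F : Type u} [Field F] {ℓ : ℕ} [hp : Fact ℓ.Prime] {f : F[X]} [hf : Good ℓ f]
  {ζ : F} (hζ : IsPrimitiveRoot ζ ℓ)

lemma prin_congr {z w : FF ℓ f} (h : z = w) (hz : z ≠ 0) (hw : w ≠ 0) :
    prin z hz = prin w hw := by
  subst h
  rfl

lemma self_mem_prin {z : FF ℓ f} (hz : z ≠ 0) : z ∈ (prin z hz).1 := mem_span_singleton_self z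

lemma one_mem_inv {T : Dv ℓ f} (hT : T.1 ≤ 1) : (1 : FF ℓ f) ∈ (T⁻¹).1 := by
  apply Dv.mem_of_forall
  intro u hu
  rw [inv_inv] at hu
  rw [one_mul]
  exact hT hu

lemma nrm_prin {z : FF ℓ f} (hz : z ≠ 0) (n : ℕ) :
    nrm (tauU hζ) n (prin z hz) = prin (nrm (tauM hζ) n z) (nrm_ne_zero (hζ := hζ) hz n) := by
  induction n with
  | zero =>
    have h1 : nrm (tauU hζ) 0 (prin z hz) = 1 := by
      rw [nrm, Finset.range_zero, Finset.prod_empty]
    have h2 : nrm (tauM hζ) 0 z = 1 := by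
      rw [nrm, Finset.range_zero, Finset.prod_empty]
    rw [h1, prin_congr h2 _ one_ne_zero, prin_one]
  | succ n ih =>
    rw [nrm_succ, ih, tauU_prin, prin_mul]
    exact prin_congr (nrm_succ _ _ _).symm _ _

lemma val_nrm (n : ℕ) (T : Dv ℓ f) : (nrm (tauU hζ) n T).1 = nrm (tauS hζ) n T.1 :=
  map_nrm_comm (tauU hζ) (tauS hζ) (Units.coeHom _) (fun _ => rfl) n T

lemma nrm_tauU_le_one {T : Dv ℓ f} (hT : T.1 ≤ 1) (n : ℕ) : (nrm (tauU hζ) n T).1 ≤ 1 := by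
  induction n with
  | zero =>
    have h1 : nrm (tauU hζ) 0 T = 1 := by
      rw [nrm, Finset.range_zero, Finset.prod_empty]
    rw [h1]
    exact le_rfl
  | succ n ih =>
    rw [nrm_succ]
    change T.1 * (tauU hζ (nrm (tauU hζ) n T)).1 ≤ 1
    rw [Submodule.mul_le]
    intro x hx y hy
    rw [tauU_val] at hy
    obtain ⟨t, ht, rfl⟩ := (mem_tauS hζ).mp hy
    exact mul_mem_one (hT hx) (tauM_mem_one hζ (ih ht))

end Gen

variable {F : Type u} [Field F] {ℓ : ℕ} [hp : Fact ℓ.Prime] {g : F[X]} {gs : (Sep F)[X]}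
  [hf : Good ℓ g] [hfs : Good ℓ gs] (hgs : g.map (algebraMap F (Sep F)) = gs)
  {ζ : F} (hζ : IsPrimitiveRoot ζ ℓ) {ζs : Sep F} (hζs : IsPrimitiveRoot ζs ℓ)
  (hζζ : algebraMap F (Sep F) ζ = ζs)

lemma InW.aM (σ : AbsGal F) {x : FF ℓ gs} {c : AdjoinRoot gs} (h : InW x c) :
    InW (aM hgs σ x) (aL hgs σ c) := by
  obtain ⟨t, ht, ht1, htx, htx'⟩ := h
  refine ⟨MP1bdb59C.aM hgs σ t, aM_mem_one hgs σ ht, ?_, ?_, ?_⟩
  · rw [redM_aM hgs σ ht, ht1, map_one]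
  · rw [← map_mul]
    exact aM_mem_one hgs σ htx
  · rw [← map_mul, redM_aM hgs σ htx, htx']

lemma InW.sumQ {U : Subgroup (AbsGal F)} [Finite (AbsGal F ⧸ U)] {Φ : AbsGal F → FF ℓ gs}
    {c : AbsGal F → AdjoinRoot gs} (h : ∀ σ, InW (Φ σ) (c σ)) :
    InW (sumQ U Φ) (sumQ U c) := by
  unfold MP1bdb59C.sumQ
  exact InW.finset_sum _ fun q => h q.out

include hζζ in
lemma exists_z (I : Dv ℓ gs) (eps : AbsGal F → AdjoinRoot gs)
    (heps : ∀ σ, IsEps hζs (pcl (aU hgs σ I * I⁻¹)) (eps σ)) :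
    ∃ z : AbsGal F → FF ℓ gs, (∀ σ, Rel hζs (aU hgs σ I * I⁻¹) (z σ) (eps σ)) ∧
      (∀ σ, nrm (tauM hζs) ℓ (z σ) = 1) ∧
      (∀ σ τ, z (σ * τ) = z σ * aM hgs σ (z τ) ∧ eps (σ * τ) = eps σ * aL hgs σ (eps τ)) ∧
      (∀ u, aU hgs u I = I → z u = 1 ∧ eps u = 1) := by
  have h1 : ∀ σ, ∃ z, Rel hζs (aU hgs σ I * I⁻¹) z (eps σ) ∧ nrm (tauM hζs) ℓ z = 1 :=
    fun σ => (heps σ).of_representative rfl
  choose z hz hz1 using h1
  refine ⟨z, hz, hz1, fun σ τ => ?_, fun u hu => ?_⟩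
  · have h2 : aU hgs (σ * τ) I * I⁻¹ =
        (aU hgs σ I * I⁻¹) * aU hgs σ (aU hgs τ I * I⁻¹) := by
      rw [map_mul, map_inv, aU_mul]
      exact grp2 (aU hgs σ I) (aU hgs σ (aU hgs τ I)) I
    have h3 : Rel hζs (aU hgs σ (aU hgs τ I * I⁻¹)) (aM hgs σ (z τ)) (aL hgs σ (eps τ)) :=
      (hz τ).map (gr σ) (map_gal hgs σ) hζs hζs (gr_zeta hζζ σ)
    have h4 := (hz σ).mul h3
    rw [← h2] at h4
    refine unique_of_rel (hz (σ * τ)) h4 (hz1 _) ?_ (heps _).norm ?_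
    · rw [nrm_mul, hz1, ← aM_nrm hgs hζs hζζ, hz1, map_one, one_mul]
    · rw [map_mul, (heps σ).norm, one_mul]
      exact (norm_lamMap (gr σ) (map_gal hgs σ) hfs.monic _).trans
        (by rw [(heps τ).norm, map_one])
  · have h2 : aU hgs u I * I⁻¹ = 1 := by rw [hu, mul_inv_cancel]
    have h3 := hz u
    rw [h2] at h3
    exact unique_of_rel h3 Rel.one (hz1 u) (nrm_one _ _) (heps u).norm (map_one _)

include hζζ in
lemma aU_D {I : Dv ℓ gs} {σ : AbsGal F} {z : FF ℓ gs} {c : AdjoinRoot gs}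
    (h : Rel hζs (aU hgs σ I * I⁻¹) z c) :
    aU hgs σ (I * (tauU hζs I)⁻¹) = prin z h.ne * (I * (tauU hζs I)⁻¹) := by
  have h1 := h.eq
  rw [map_mul (tauU hζs), map_inv] at h1
  rw [map_mul, map_inv, aU_tau hgs hζs hζζ]
  exact grp1 h1

lemma aU_le_one {I : Dv ℓ gs} (hI : I.1 ≤ 1) (σ : AbsGal F) : (aU hgs σ I).1 ≤ 1 :=
  (bcU_le _ _).mpr fun _ ht => aM_mem_one hgs σ (hI ht)

/-- The value of `z_σ` along `y = 0`. -/
lemma inW_z {I : Dv ℓ gs} (hI : I.1 ≤ 1) {s : FF ℓ gs} (hs : s ∈ I.1) (hs1 : redM s = 1)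
    {σ : AbsGal F} {z : FF ℓ gs} {c : AdjoinRoot gs}
    (h : Rel hζs (aU hgs σ I * I⁻¹) z c) : InW z c := by
  have hσI := aU_le_one hgs hI σ
  have hg : aM hgs σ s ∈ (aU hgs σ I * I⁻¹).1 := by
    have := Submodule.mul_mem_mul (aM_mem_aU hgs σ hs) (one_mem_inv hI)
    rwa [mul_one] at this
  have hu : s ∈ ((aU hgs σ I * I⁻¹)⁻¹).1 := by
    have h1 : (aU hgs σ I * I⁻¹)⁻¹ = (aU hgs σ I)⁻¹ * I := by
      rw [mul_inv (aU hgs σ I) I⁻¹, inv_inv]
    rw [h1]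
    have := Submodule.mul_mem_mul (one_mem_inv hσI) hs
    rwa [one_mul] at this
  have hs' := hI hs
  have hσs := aM_mem_one hgs σ hs'
  have hτ := tauM_mem_one hζs hσs
  have h2 := h.rel _ hg _ hu
  have h3 : z * tauM hζs (aM hgs σ s) * s = tauM hζs (aM hgs σ s) * s * z := by ring
  have h4 : redM (aM hgs σ s) = 1 := by rw [redM_aM hgs σ hs', hs1, map_one]
  refine ⟨tauM hζs (aM hgs σ s) * s, mul_mem_one hτ hs', ?_, ?_, ?_⟩
  · rw [redM_mul hτ hs', redM_tau hζs hσs, h4, hs1, one_mul]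
  · rw [← h3]
    exact Dv.mul_inv_mem _ (mul_tau_mem h.eq hg) hu
  · rw [← h3, h2, redM_mul hσs hs', h4, hs1, one_mul, mul_one]

/-- The twisting element `b`. -/
lemma exists_b {I : Dv ℓ gs} {eps : AbsGal F → AdjoinRoot gs} {z : AbsGal F → FF ℓ gs}
    (hW : ∀ σ, InW (z σ) (eps σ))
    (hcoc : ∀ σ τ, z (σ * τ) = z σ * aM hgs σ (z τ))
    (hstab : ∀ u, aU hgs u I = I → z u = 1 ∧ eps u = 1)
    {ρ ρ' : AdjoinRoot gs} (hρ : ρ * ρ' = 1) (h : ∀ σ, aL hgs σ ρ = eps σ * ρ) :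
    ∃ b : FF ℓ gs, InW b ρ' ∧ ∀ σ, z σ * aM hgs σ b = b := by
  have hρ' : ∀ σ, eps σ * aL hgs σ ρ' = ρ' := by
    intro σ
    have h1 : aL hgs σ ρ * aL hgs σ ρ' = 1 := by rw [← map_mul, hρ, map_one]
    rw [h] at h1
    calc eps σ * aL hgs σ ρ' = (eps σ * ρ * aL hgs σ ρ') * ρ' := by
          linear_combination (-(eps σ * aL hgs σ ρ')) * hρ
      _ = ρ' := by rw [h1, one_mul]
  obtain ⟨U, hU, hU'⟩ := smU hgs I
  have hfin := finite_quot hU
  obtain ⟨κ, hκ, hκ'⟩ := exists_trace_one hU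
  obtain ⟨rep, hrep1, hrep2⟩ := exists_rep ℓ hgs
  set x : FF ℓ gs := pol (C κ) * pol (rep ρ') with hx
  have hxU : ∀ u ∈ U, aM hgs u x = x := by
    intro u hu
    obtain ⟨-, h2⟩ := hstab u (hU' u hu)
    have h3 : aL hgs u ρ' = ρ' := by
      have := hρ' u
      rwa [h2, one_mul] at this
    rw [hx, map_mul, aM_pol, aM_pol, map_C, ← hrep2, h3]
    have h4 : gr u κ = κ := hκ u hu
    rw [h4]
  have hx1 : x ∈ (1 : Submodule (CoordRing ℓ gs) (FF ℓ gs)) :=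
    mul_mem_one (pol_mem_one _) (pol_mem_one _)
  have hx2 : redM x = AdjoinRoot.of gs κ * ρ' := by
    rw [hx, redM_mul (pol_mem_one _) (pol_mem_one _), redM_pol, redM_pol, hrep1, AdjoinRoot.mk_C]
  set Φ : AbsGal F → FF ℓ gs := fun σ => z σ * aM hgs σ x with hΦ
  have hΦU : ∀ σ, ∀ u ∈ U, Φ (σ * u) = Φ σ := by
    intro σ u hu
    simp only [hΦ]
    rw [hcoc, (hstab u (hU' u hu)).1, map_one, mul_one, aM_mul, hxU u hu]
  refine ⟨sumQ U Φ, ?_, ?_⟩
  · have h1 : ∀ σ, InW (Φ σ) (AdjoinRoot.of gs (σ κ) * ρ') := by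
      intro σ
      have h2 := (hW σ).mul ((InW.of_mem hx1).aM hgs σ)
      have h3 : eps σ * aL hgs σ (redM x) = AdjoinRoot.of gs (σ κ) * ρ' := by
        have h4 : aL hgs σ (AdjoinRoot.of gs κ) = AdjoinRoot.of gs (σ κ) :=
          lamMap_of (gr σ) (map_gal hgs σ) κ
        rw [hx2, map_mul, h4, mul_left_comm, hρ']
      rwa [h3] at h2
    have h5 := InW.sumQ (U := U) h1
    rw [← sumQ_mul_right, ← map_sumQ (AdjoinRoot.of gs) (fun σ : AbsGal F => σ κ), hκ', map_one,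
      one_mul] at h5
    exact h5
  · intro τ
    rw [map_sumQ, mul_sumQ]
    have h1 : ∀ σ, z τ * aM hgs τ (Φ σ) = Φ (τ * σ) := by
      intro σ
      simp only [hΦ]
      rw [map_mul, hcoc, aM_mul]
      ring
    rw [sumQ_congr h1]
    exact sumQ_mul hΦU τ

/-- Averaging an element of an invariant divisor. -/
lemma exists_avg {T : Dv ℓ gs} (hT : ∀ σ, aU hgs σ T = T) {x : FF ℓ gs} (hx : x ∈ T.1)
    (hx1 : x ∈ (1 : Submodule (CoordRing ℓ gs) (FF ℓ gs))) (hred : redM x = 1) :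
    ∃ y ∈ T.1, y ∈ (1 : Submodule (CoordRing ℓ gs) (FF ℓ gs)) ∧ redM y = 1 ∧
      ∀ σ, aM hgs σ y = y := by
  obtain ⟨U, hU, hU'⟩ := smM hgs x
  have hfin := finite_quot hU
  obtain ⟨κ, hκ, hκ'⟩ := exists_trace_one hU
  refine ⟨avg hgs U κ x, avg_mem hgs κ fun σ => ?_, avg_mem hgs κ fun σ => aM_mem_one hgs σ hx1,
    redM_avg hgs κ hκ' hx1 hred, fun σ => avg_fixed hgs hκ hU' σ⟩
  have := aM_mem_aU hgs σ hx
  rwa [hT σ] at this

lemma extI_span_singleton (r : CoordRing ℓ g) :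
    extI hgs (Ideal.span {r}) = Submodule.span (CoordRing ℓ gs) {toMs hgs r} := by
  apply le_antisymm
  · rw [extI_le]
    intro s hs
    obtain ⟨t, rfl⟩ := Ideal.mem_span_singleton'.mp hs
    rw [map_mul, toMs_smul]
    exact Submodule.smul_mem _ _ (mem_span_singleton_self _)
  · rw [span_le, Set.singleton_subset_iff]
    exact mem_extI hgs (Ideal.mem_span_singleton_self r)

include hζζ hζs in
theorem local_ideal (R : CommRing.Pic (CoordRing ℓ gs))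
    (eps : AbsGal F → AdjoinRoot gs)
    (heps : ∀ σ, IsEps hζs (aP hgs σ R * R⁻¹) (eps σ)) (ρ : AdjoinRoot gs) (hρ : IsUnit ρ)
    (h : ∀ σ, aL hgs σ ρ = eps σ * ρ) (m : AdjoinRoot g)
    (hm : lamMap (algebraMap F (Sep F)) hgs m = ρ ^ ℓ) :
    ∃ (𝔞 : Ideal (CoordRing ℓ g)) (a : F[X]), (∃ s ∈ 𝔞, red g s = 1) ∧
      nrm (tauI hζ) ℓ 𝔞 = Ideal.span {of g a} ∧ AdjoinRoot.mk g a * m = 1 := by
  have hsc : IsSepClosed (Sep F) := (inferInstance : IsSepClosed (SeparableClosure F))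
  have hsplit : gs.Splits := IsSepClosed.splits_of_separable gs hfs.sep
  obtain ⟨ρ', hρ'⟩ := hρ.exists_right_inv
  -- a representative prime to `y`
  obtain ⟨Q, hQ⟩ := pcl_surjective R
  obtain ⟨u, hu, q, hq, hqu⟩ := exists_trivial hsplit Q
  have hnt : (1 : AdjoinRoot gs) ≠ 0 := by
    intro h0
    have h1 : AdjoinRoot.of gs (1 : Sep F) = AdjoinRoot.of gs 0 := by rw [map_one, map_zero, h0]
    exact one_ne_zero (of_inj ℓ h1)
  have hu0 : u ≠ 0 := by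
    rintro rfl
    rw [mul_zero, redM_zero] at hqu
    exact hnt hqu.symm
  set I : Dv ℓ gs := prin u hu0 * Q with hI
  have hIR : pcl I = R := by rw [hI, map_mul, pcl_prin, one_mul, hQ]
  have hI1 : I.1 ≤ 1 := by
    intro x hx
    rw [hI, mem_prin_mul] at hx
    have h1 : x = u⁻¹ * x * u := by rw [mul_comm, ← mul_assoc, mul_inv_cancel₀ hu0, one_mul]
    rw [h1]
    exact Q.mul_inv_mem hx hu
  set s : FF ℓ gs := q * u with hs
  have hsI : s ∈ I.1 := by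
    rw [hI, mem_prin_mul, hs, mul_comm q u, inv_mul_cancel_left₀ hu0]
    exact hq
  have hs1 := hI1 hsI
  -- the cocycle `z`
  have heps' : ∀ σ, IsEps hζs (pcl (aU hgs σ I * I⁻¹)) (eps σ) := by
    intro σ
    rw [map_mul, map_inv, ← aP_pcl, hIR]
    exact heps σ
  obtain ⟨z, hz, hz1, hz2, hz3⟩ := exists_z hgs hζs hζζ I eps heps'
  have hW : ∀ σ, InW (z σ) (eps σ) := fun σ => inW_z hgs hζs hI1 hsI hqu (hz σ)
  obtain ⟨b, hb, hb'⟩ := exists_b hgs hW (fun σ τ => (hz2 σ τ).1) hz3 hρ' h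
  have hρ'0 : ρ' ≠ 0 := by
    rintro rfl
    rw [mul_zero] at hρ'
    exact hnt hρ'.symm
  have hb0 : b ≠ 0 := hb.ne_zero hρ'0
  -- the invariant divisor `D'`
  set D : Dv ℓ gs := I * (tauU hζs I)⁻¹ * prin b hb0 with hD
  have hDinv : ∀ σ, aU hgs σ D = D := by
    intro σ
    have h2 : prin (z σ) (hz σ).ne * prin (aM hgs σ b) (aM_ne_zero hgs σ hb0) = prin b hb0 := by
      rw [prin_mul]
      exact prin_congr (hb' σ) _ _
    rw [hD, map_mul, aU_D hgs hζs hζζ (hz σ), aU_prin]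
    calc prin (z σ) (hz σ).ne * (I * (tauU hζs I)⁻¹) *
          prin (aM hgs σ b) (aM_ne_zero hgs σ hb0) =
        I * (tauU hζs I)⁻¹ *
          (prin (z σ) (hz σ).ne * prin (aM hgs σ b) (aM_ne_zero hgs σ hb0)) := by
          rw [mul_comm (prin (z σ) (hz σ).ne) (I * (tauU hζs I)⁻¹), mul_assoc]
      _ = _ := by rw [h2]
  -- the element `S`
  obtain ⟨t, ht, ht1, htb, htb'⟩ := id hb
  have hτs : tauM hζs s ∈ (tauU hζs I).1 := tauM_mem_tauS hζs hsI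
  have hDi : D⁻¹ = tauU hζs I * I⁻¹ * (prin b hb0)⁻¹ := grp3 I (tauU hζs I) (prin b hb0)
  have ht' : t ∈ ((prin b hb0)⁻¹).1 := by
    rw [prin_inv, mem_prin, inv_inv, mul_comm]
    exact htb
  have hSD : tauM hζs s * 1 * t ∈ (D⁻¹).1 := by
    rw [hDi]
    exact Submodule.mul_mem_mul (Submodule.mul_mem_mul hτs (one_mem_inv hI1)) ht'
  rw [mul_one] at hSD
  have hτs1 := tauM_mem_one hζs hs1
  obtain ⟨S, hS, hS1, hS2, hS3⟩ := exists_avg hgs (T := D⁻¹)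
    (fun σ => by rw [map_inv, hDinv]) hSD (mul_mem_one hτs1 ht)
    (by rw [redM_mul hτs1 ht, redM_tau hζs hs1, hqu, ht1, one_mul])
  have hS0 : S ≠ 0 := by
    rintro rfl
    rw [redM_zero] at hS2
    exact hnt hS2.symm
  -- the invariant integral divisor `A`
  set A : Dv ℓ gs := prin S hS0 * D with hA
  have hA1 : A.1 ≤ 1 := by
    intro x hx
    rw [hA, mem_prin_mul] at hx
    have h1 : x = S⁻¹ * x * S := by rw [mul_comm, ← mul_assoc, mul_inv_cancel₀ hS0, one_mul]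
    rw [h1]
    exact D.mul_inv_mem hx hS
  have hAinv : ∀ σ, aU hgs σ A = A := by
    intro σ
    rw [hA, map_mul, hDinv, aU_prin]
    congr 1
    exact prin_congr (hS3 σ) _ _
  -- an element of `A` with value 1
  have hτI1 : (tauU hζs I).1 ≤ 1 := by
    intro x hx
    rw [tauU_val] at hx
    obtain ⟨y, hy, rfl⟩ := (mem_tauS hζs).mp hx
    exact tauM_mem_one hζs (hI1 hy)
  have hsD : s * 1 * b ∈ D.1 :=
    Submodule.mul_mem_mul (Submodule.mul_mem_mul hsI (one_mem_inv hτI1)) (self_mem_prin hb0)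
  rw [mul_one] at hsD
  have hSA : S * (s * b) ∈ A.1 := by
    rw [hA, mem_prin_mul, inv_mul_cancel_left₀ hS0]
    exact hsD
  have hredA : redM (S * (s * b)) = ρ' := by
    have h1 : InW S 1 := by
      have := InW.of_mem hS1
      rwa [hS2] at this
    have h2 : InW s 1 := by
      have := InW.of_mem hs1
      rwa [hqu] at this
    have h3 := (h1.mul (h2.mul hb)).redM_eq (hA1 hSA)
    rwa [one_mul, one_mul] at h3
  obtain ⟨r, hr, hr'⟩ := redM_surjective (ℓ := ℓ) ρ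
  have ha0 : r * (S * (s * b)) ∈ A.1 := mul_mem_of_mem_one hr hSA
  obtain ⟨a₁, ha1, ha1', ha2, ha3⟩ := exists_avg hgs (T := A) hAinv ha0 (hA1 ha0)
    (by rw [redM_mul hr (hA1 hSA), hr', hredA, hρ'])
  -- the norm of `A`
  have hSb0 : S * b ≠ 0 := mul_ne_zero hS0 hb0
  set aM' : FF ℓ gs := nrm (tauM hζs) ℓ (S * b) with haM
  have haM0 : aM' ≠ 0 := nrm_ne_zero (hζ := hζs) hSb0 ℓ
  have hnA : nrm (tauU hζs) ℓ A = prin aM' haM0 := by
    have h1 : nrm (tauU hζs) ℓ (tauU hζs I) = nrm (tauU hζs) ℓ I := by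
      rw [← map_nrm', nrm_tau (tauU hζs) (tauU_iterate_ell hζs I)]
    rw [hA, hD, nrm_mul, nrm_mul, nrm_mul, nrm_inv', h1, mul_inv_cancel, one_mul, nrm_prin,
      nrm_prin, prin_mul]
    exact prin_congr (nrm_mul _ _ _ _).symm _ _
  have haM1 : aM' ∈ (1 : Submodule (CoordRing ℓ gs) (FF ℓ gs)) := by
    apply nrm_tauU_le_one hζs hA1 ℓ
    rw [hnA]
    exact self_mem_prin haM0
  have haMτ : tauM hζs aM' = aM' := nrm_tau _ (tauM_iterate_ell hζs _)
  obtain ⟨p, hp'⟩ := tau_fixed_mem_one haM1 haMτ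
  have hSW : InW S 1 := by
    have := InW.of_mem hS1
    rwa [hS2] at this
  have hmkp : AdjoinRoot.mk gs p = ρ' ^ ℓ := by
    have h1 := ((hSW.mul hb).nrm hζs ℓ).redM_eq haM1
    rw [← haM, hp', redM_pol, one_mul] at h1
    exact h1
  have hpσ : ∀ σ : AbsGal F, p.map (gr σ) = p := by
    intro σ
    apply pol_injective (ℓ := ℓ) (f := gs)
    have h1 : aM hgs σ aM' = aM' := by
      have h2 : nrm (tauM hζs) ℓ (z σ * (S * aM hgs σ b)) = aM' := by
        rw [haM]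
        congr 1
        rw [mul_left_comm, hb']
      rw [nrm_mul, hz1, one_mul] at h2
      rw [haM, aM_nrm hgs hζs hζζ, map_mul, hS3, h2]
    rw [← aM_pol hgs, ← hp', h1]
  obtain ⟨a, ha⟩ := exists_poly_of_fixed hpσ
  -- descent
  let Js : Ideal (CoordRing ℓ gs) :=
    Submodule.comap (Algebra.linearMap (CoordRing ℓ gs) (FF ℓ gs)) A.1
  let 𝔞 : Ideal (CoordRing ℓ g) := Js.comap (coordMap ℓ (algebraMap F (Sep F)) hgs)
  have hmem : ∀ r, r ∈ 𝔞 ↔ toMs hgs r ∈ A.1 := fun r => Iff.rfl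
  have hext : extI hgs 𝔞 = A.1 := by
    apply le_antisymm
    · rw [extI_le]
      intro r hr
      exact hr
    · exact le_extI_of_invariant hgs hA1 hAinv 𝔞 fun r hr => hr
  have hnext : extI hgs (nrm (tauI hζ) ℓ 𝔞) = extI hgs (Ideal.span {of g a}) := by
    rw [extI_nrm hgs hζ hζs hζζ, hext, ← val_nrm, hnA, extI_span_singleton]
    have h1 : toMs hgs (of g a : CoordRing ℓ g) = aM' := by
      rw [hp', toMs_apply, coordMap_of, ha]
      rfl
    rw [h1]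
    rfl
  refine ⟨𝔞, a, ?_, ?_, ?_⟩
  · obtain ⟨r, hr⟩ := exists_toMs_of_fixed hgs (hA1 ha1) ha3
    refine ⟨r, ?_, ?_⟩
    · rw [hmem, hr]
      exact ha1
    · apply lamMap_injective (algebraMap F (Sep F)) hgs hf.monic
      rw [← red_coordMap (algebraMap F (Sep F)) hgs, ← redM_alg, map_one]
      have h1 : algebraMap (CoordRing ℓ gs) (FF ℓ gs)
        (coordMap ℓ (algebraMap F (Sep F)) hgs r) = a₁ := hr
      rw [h1, ha2]
  · apply le_antisymm
    · intro r hr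
      apply mem_of_toMs_mem_extI hgs
      rw [← hnext]
      exact mem_extI hgs hr
    · intro r hr
      apply mem_of_toMs_mem_extI hgs
      rw [hnext]
      exact mem_extI hgs hr
  · apply lamMap_injective (algebraMap F (Sep F)) hgs hf.monic
    rw [map_mul, map_one, lamMap_mk, ha, hmkp, hm, ← mul_pow, mul_comm, hρ', one_pow]

end Pool.Agent.MP1bdb59C
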