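import Mathlib
import Pool.Agent.MP1bdb59C.Coh
import Pool.Agent.MP1bdb59C.H90
import Pool.Agent.MP1bdb59C.Local

/-!
# The descent theorem
-/

open Polynomial Finset

noncomputable section

open scoped Classical

set_option linter.unusedSectionVars false

namespace Pool.Agent.MP1bdb59C

open Pool.Agent.MP1bdb59 (Sep AbsGal emb resGal emb_resGal Place Completion)

universe u v

section Eps

variable {F : Type u} [Field F] {ℓ : ℕ} [hp : Fact ℓ.Prime] {f : F[X]} [hf : Good ℓ f]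
  {ζ : F} {hζ : IsPrimitiveRoot ζ ℓ}

lemma IsEps.tau_fixed {t : CommRing.Pic (CoordRing ℓ f)} {c : AdjoinRoot f}
    (h : IsEps hζ t c) : tauPic hζ t = t := by
  obtain ⟨T, z, h1, h2, -, -⟩ := h
  have h3 := congrArg pcl h2.eq
  rw [map_mul, pcl_prin, one_mul, ← tauPic_pcl, h1] at h3
  exact h3

end Eps

section Global

variable {F : Type u} [Field F] {ℓ : ℕ} [hp : Fact ℓ.Prime] {g : F[X]} {gs : (Sep F)[X]}
  [hf : Good ℓ g] [hfs : Good ℓ gs] (hgs : g.map (algebraMap F (Sep F)) = gs)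
  {ζ : F} (hζ : IsPrimitiveRoot ζ ℓ) {ζs : Sep F} (hζs : IsPrimitiveRoot ζs ℓ)
  (hζζ : algebraMap F (Sep F) ζ = ζs)

include hfs hζs hζζ in
/-- If `m` is an `ℓ`-th power then the cocycle `eps` is a coboundary. -/
lemma exists_eta {eps : AbsGal F → AdjoinRoot gs} {ρ : AdjoinRoot gs}
    (h : ∀ σ, aL hgs σ ρ = eps σ * ρ) {m y : AdjoinRoot g} (hmu : IsUnit m)
    (hm : lamMap (algebraMap F (Sep F)) hgs m = ρ ^ ℓ) (hy : m = y ^ ℓ) :
    ∃ η : AdjoinRoot gs, η ^ ℓ = 1 ∧ Algebra.norm (Sep F) η = 1 ∧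
      ∀ σ, aL hgs σ η = eps σ * η := by
  have hyu : IsUnit y := by
    rw [hy] at hmu
    exact (isUnit_pow_iff hp.out.ne_zero).mp hmu
  obtain ⟨y', hy'⟩ := hyu.exists_right_inv
  set Y' := lamMap (algebraMap F (Sep F)) hgs y' with hY'
  have hYfix : ∀ σ, aL hgs σ Y' = Y' := fun σ => aL_lamMap hgs σ y'
  set η₀ := ρ * Y' with hη₀
  have h1 : η₀ ^ ℓ = 1 := by
    rw [hη₀, mul_pow, ← hm, hY', ← map_pow, ← map_mul, hy, ← mul_pow, hy', one_pow, map_one]
  have h2 : ∀ σ, aL hgs σ η₀ = eps σ * η₀ := by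
    intro σ
    rw [hη₀, map_mul, h, hYfix, mul_assoc]
  have h3 : (Algebra.norm (Sep F) η₀) ^ ℓ = 1 := by rw [← map_pow, h1, map_one]
  obtain ⟨j, -, hj⟩ := hζs.eq_pow_of_pow_eq_one h3
  obtain ⟨i, hi⟩ : ∃ i : ℕ, ℓ ∣ i * gs.natDegree + j := by
    obtain ⟨m, -, hm⟩ := Nat.exists_mul_mod_eq_one_of_coprime
      (Nat.Coprime.symm (Good.coprime (ℓ := ℓ) (f := gs))) hp.out.one_lt
    refine ⟨m * (ℓ - 1) * j, ?_⟩
    have h1 : m * (ℓ - 1) * j * gs.natDegree + j =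
        ((gs.natDegree * m) * (ℓ - 1) + 1) * j := by ring
    rw [h1]
    apply Dvd.dvd.mul_right
    have h2 := Nat.div_add_mod (gs.natDegree * m) ℓ
    rw [hm] at h2
    rw [← h2]
    refine ⟨(gs.natDegree * m / ℓ) * (ℓ - 1) + 1, ?_⟩
    have h3 : ℓ - 1 + 1 = ℓ := Nat.sub_add_cancel hp.out.one_le
    calc (ℓ * (gs.natDegree * m / ℓ) + 1) * (ℓ - 1) + 1 =
        ℓ * ((gs.natDegree * m / ℓ) * (ℓ - 1)) + (ℓ - 1 + 1) := by ring
      _ = ℓ * (gs.natDegree * m / ℓ * (ℓ - 1) + 1) := by rw [h3]; ring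
  refine ⟨AdjoinRoot.of gs (ζs ^ i) * η₀, ?_, ?_, fun σ => ?_⟩
  · rw [mul_pow, h1, mul_one, ← map_pow, ← pow_mul, mul_comm i ℓ, pow_mul, hζs.pow_eq_one,
      one_pow, map_one]
  · rw [map_mul, norm_of (Good.monic ℓ (f := gs)), ← hj, ← pow_mul, ← pow_add]
    exact (hζs.pow_eq_one_iff_dvd _).mpr hi
  · have h4 : σ (ζs ^ i) = ζs ^ i := by
      rw [← hζζ, ← map_pow]
      exact σ.commutes _
    rw [map_mul, aL_of, h4, h2]
    ring

include hζζ in
/-- The class of the cocycle is trivial if `eps` is the coboundary of `η`. -/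
lemma exists_bdry {c : AbsGal F → CommRing.Pic (CoordRing ℓ gs)} {eps : AbsGal F → AdjoinRoot gs}
    (hc : ∀ σ, IsEps hζs (c σ) (eps σ)) {η : AdjoinRoot gs} (h1 : η ^ ℓ = 1)
    (h2 : Algebra.norm (Sep F) η = 1) (h3 : ∀ σ, aL hgs σ η = eps σ * η) :
    ∃ t, tauPic hζs t = t ∧ ∀ σ, c σ = aP hgs σ t * t⁻¹ := by
  obtain ⟨t, ht⟩ := exists_of_isEps hζs (gs_splits ℓ) h1 h2
  refine ⟨t, ht.tau_fixed, fun σ => ?_⟩
  obtain ⟨η', h4, h5⟩ := ht.exists_inv
  have h6 := (ht.gal hgs hζs hζζ σ).mul h5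
  rw [h3, mul_assoc, h4, mul_one] at h6
  exact (hc σ).injective h6

end Global

section LocalCond

variable {ℓ : ℕ} [hp : Fact ℓ.Prime] {K : Type u} [Field K] {f : K[X]} [hf : Good ℓ f]
  (F : Type v) [Field F] [Algebra K F] {ζ : K} (hζ : IsPrimitiveRoot ζ ℓ)

lemma lamMap_gal_emb (σ : AbsGal F) (x : AdjoinRoot (f.map (algebraMap K (Sep K)))) :
    aL (tower f F) σ (lamMap (emb K F : Sep K →+* Sep F) (map_emb f F) x) =
      lamMap (emb K F : Sep K →+* Sep F) (map_emb f F)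
        (aL (g := f) rfl (resGal K F σ) x) := by
  obtain ⟨p, rfl⟩ := AdjoinRoot.mk_surjective x
  have h : (gr σ).comp (emb K F : Sep K →+* Sep F) =
      (emb K F : Sep K →+* Sep F).comp (gr (resGal K F σ)) :=
    RingHom.ext fun x => (emb_resGal K F σ x).symm
  have h1 : aL (tower f F) σ (lamMap (emb K F : Sep K →+* Sep F) (map_emb f F)
      (AdjoinRoot.mk _ p)) = AdjoinRoot.mk (f.map (algebraMap K (Sep F)))
        ((p.map (emb K F : Sep K →+* Sep F)).map (gr σ)) := by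
    rw [lamMap_mk]
    exact lamMap_mk _ _ _
  have h2 : aL (g := f) rfl (resGal K F σ) (AdjoinRoot.mk (f.map (algebraMap K (Sep K))) p) =
      AdjoinRoot.mk _ (p.map (gr (resGal K F σ))) := lamMap_mk _ _ _
  rw [h1, h2, lamMap_mk, Polynomial.map_map, Polynomial.map_map, h]

lemma lamMap_emb (m : AdjoinRoot f) :
    lamMap (algebraMap F (Sep F)) (tower f F) (lamMap (algebraMap K F) rfl m) =
      lamMap (emb K F : Sep K →+* Sep F) (map_emb f F)
        (lamMap (algebraMap K (Sep K)) rfl m) := by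
  obtain ⟨p, rfl⟩ := AdjoinRoot.mk_surjective m
  have h : (algebraMap F (Sep F)).comp (algebraMap K F) =
      (emb K F : Sep K →+* Sep F).comp (algebraMap K (Sep K)) := by
    rw [← IsScalarTower.algebraMap_eq]
    exact RingHom.ext fun x => ((emb K F).commutes x).symm
  rw [lamMap_mk, lamMap_mk, lamMap_mk, lamMap_mk, Polynomial.map_map, Polynomial.map_map, h]

/-- The local condition at an extension `F` of `K` over which the cocycle becomes trivial. -/
theorem locCond_of_local (c : AbsGal K → Jac ℓ f K)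
    (eps : AbsGal K → AdjoinRoot (f.map (algebraMap K (Sep K))))
    (heps : ∀ σ, IsEps (prim_map (Sep K) hζ) (c σ).toMul (eps σ))
    (ρ : AdjoinRoot (f.map (algebraMap K (Sep K)))) (hρ : IsUnit ρ)
    (h : ∀ σ, aL (g := f) rfl σ ρ = eps σ * ρ) (m : AdjoinRoot f)
    (hm : lamMap (algebraMap K (Sep K)) rfl m = ρ ^ ℓ) (R : Jac ℓ f F)
    (hR : ∀ σ, embJac ℓ f F (c (resGal K F σ)) = act ℓ f F σ R - R) : LocCond hζ F m := by
  have hφ : (emb K F : Sep K →+* Sep F) (algebraMap K (Sep K) ζ) = algebraMap K (Sep F) ζ :=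
    (emb K F).commutes ζ
  refine local_ideal (tower f F) (hζ.map_of_injective (algebraMap K F).injective)
    (prim_map (Sep F) hζ) (IsScalarTower.algebraMap_apply K F (Sep F) ζ).symm R.toMul
    (fun σ => lamMap (emb K F : Sep K →+* Sep F) (map_emb f F) (eps (resGal K F σ)))
    (fun σ => ?_) (lamMap (emb K F : Sep K →+* Sep F) (map_emb f F) ρ) (hρ.map _) (fun σ => ?_)
    (lamMap (algebraMap K F) rfl m) ?_
  · have h1 := (heps (resGal K F σ)).map (emb K F : Sep K →+* Sep F) (map_emb f F)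
      (prim_map (Sep F) hζ) hφ
    have h2 := congrArg Additive.toMul (hR σ)
    rw [embJac_apply, toMul_sub, act_eq, div_eq_mul_inv] at h2
    rw [← h2]
    exact h1
  · rw [lamMap_gal_emb, h, map_mul]
  · rw [lamMap_emb, hm, map_pow]

end LocalCond

section Main

variable (k : Type u) {K : Type v} [Field k] [Field K] [Algebra k K] {ℓ : ℕ}
    [hp : Fact ℓ.Prime] {ζ : K} (hζ : IsPrimitiveRoot ζ ℓ) (f : K[X]) [hf : Good ℓ f]

theorem core (hirr : Irreducible f)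
    (hsel : ∀ m : AdjoinRoot f, IsUnit m → (∃ r : K, Algebra.norm K m = r ^ ℓ) →
      (∀ v : Place k K, LocCond hζ (Completion v) m) → ∃ l, m = l ^ ℓ) : Core k f hζ := by
  intro c hc hτ
  have hζs := prim_map (Sep K) hζ
  -- the cocycle `eps`
  have hex : ∀ t : Jac ℓ f K, tauJ f K hζ t = t →
      ∃ e, IsEps (prim_map (Sep K) hζ) t.toMul e := fun t ht =>
    exists_isEps (congrArg Additive.toMul ht)
  let E : Jac ℓ f K → AdjoinRoot (f.map (algebraMap K (Sep K))) := fun t =>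
    if h : tauJ f K hζ t = t then (hex t h).choose else 1
  have hE : ∀ t, tauJ f K hζ t = t → IsEps (prim_map (Sep K) hζ) t.toMul (E t) := by
    intro t ht
    have h1 : E t = (hex t ht).choose := dif_pos ht
    rw [h1]
    exact (hex t ht).choose_spec
  let eps : AbsGal K → AdjoinRoot (f.map (algebraMap K (Sep K))) := fun σ => E (c σ)
  have heps : ∀ σ, IsEps (prim_map (Sep K) hζ) (c σ).toMul (eps σ) := fun σ => hE _ (hτ σ)
  have hlc : IsLocallyConstant eps := hc.1.1.comp E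
  have hcoc : ∀ σ ρ, eps (σ * ρ) = eps σ * aL (g := f) rfl σ (eps ρ) := by
    intro σ ρ
    have h1 := (heps σ).mul ((heps ρ).gal (g := f) rfl (prim_map (Sep K) hζ) rfl σ)
    have h2 := congrArg Additive.toMul (hc.1.2 σ ρ)
    rw [toMul_add, act_eq'] at h2
    rw [← h2] at h1
    exact (heps (σ * ρ)).unique h1
  obtain ⟨ρ, m, hρ, hmu, hρ1, hm⟩ := hilbert90_lam (g := f) rfl hirr eps hlc hcoc
    (fun σ => (heps σ).pow)
  have hN : ∀ σ, Algebra.norm (Sep K) (eps σ) = 1 := fun σ => (heps σ).norm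
  obtain ⟨y, hy⟩ := hsel m hmu (exists_norm_pow (g := f) rfl hρ1 hN hm) (fun v => by
    obtain ⟨R, hR⟩ := hc.2 v
    exact locCond_of_local (Completion v) hζ c eps heps ρ hρ hρ1 m hm R hR)
  obtain ⟨η, h1, h2, h3⟩ := exists_eta (g := f) rfl (prim_map (Sep K) hζ) rfl hρ1 hmu hm hy
  obtain ⟨t, ht, ht'⟩ := exists_bdry (g := f) rfl (prim_map (Sep K) hζ) rfl heps h1 h2 h3
  refine ⟨Additive.ofMul t, ht, fun σ => ?_⟩
  apply Additive.toMul.injective
  rw [ht' σ, toMul_sub, act_eq', div_eq_mul_inv]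
  rfl

theorem sha_ell_torsion (hirr : Irreducible f)
    (hsel : ∀ m : AdjoinRoot f, IsUnit m → (∃ r : K, Algebra.norm K m = r ^ ℓ) →
      (∀ v : Place k K, LocCond hζ (Completion v) m) → ∃ l, m = l ^ ℓ) :
    (∀ ξ ∈ Sha k ℓ f, ℓ • ξ = 0 → ξ = 0) ∧
      (∀ t : Jac ℓ f K, (∀ σ, act ℓ f K σ t = t) →
        ∃ s : Jac ℓ f K, (∀ σ, act ℓ f K σ s = s) ∧ ℓ • s = t) :=
  (core k hζ f hirr hsel).main

end Main

end Pool.Agent.MP1bdb59C
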