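import Mathlib

/-!
# Elements whose valuations are, modulo `ℓ`, those of an element of the base field
-/

open IsDedekindDomain

noncomputable section

open scoped Classical WithZero

namespace Pool.Agent.MP1bdb59C

section Ideal

variable {O : Type*} [CommRing O] [IsDedekindDomain O]

lemma dvd_of_exp_eq_pow {ℓ : ℕ} {c : ℕ} {z : ℤᵐ⁰} (h : WithZero.exp (-(c : ℤ)) = z ^ ℓ) :
    ℓ ∣ c := by
  rcases Nat.eq_zero_or_pos ℓ with rfl | hℓ
  · rw [pow_zero] at h
    have h1 : WithZero.exp (-(c : ℤ)) = WithZero.exp (0 : ℤ) := h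
    rw [WithZero.exp_inj] at h1
    have : c = 0 := by omega
    rw [this]
  · have hz : z ≠ 0 := by
      rintro rfl
      rw [zero_pow hℓ.ne'] at h
      exact WithZero.exp_ne_zero h
    rw [← WithZero.exp_log hz, ← WithZero.exp_nsmul, WithZero.exp_inj, nsmul_eq_mul] at h
    have h2 : (ℓ : ℤ) ∣ c := ⟨-(WithZero.log z), by linear_combination -h⟩
    exact_mod_cast h2

/-- A nonzero element all of whose valuations are divisible by `ℓ` generates the `ℓ`-th power of
an ideal. -/
lemma exists_ideal_pow {ℓ : ℕ} (hℓ : ℓ ≠ 0) {x : O} (hx : x ≠ 0)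
    (h : ∀ P : HeightOneSpectrum O, ∃ z : ℤᵐ⁰, P.intValuation x = z ^ ℓ) :
    ∃ I : Ideal O, I ≠ ⊥ ∧ Ideal.span {x} = I ^ ℓ := by
  have hI : Ideal.span {x} ≠ 0 := by
    rw [Ideal.zero_eq_bot, Ne, Ideal.span_singleton_eq_bot]
    exact hx
  set c : HeightOneSpectrum O → ℕ := fun P =>
    (Associates.mk P.asIdeal).count (Associates.mk (Ideal.span {x})).factors with hc
  have hdvd : ∀ P, ℓ ∣ c P := by
    intro P
    obtain ⟨z, hz⟩ := h P
    rw [HeightOneSpectrum.intValuation_if_neg P hx] at hz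
    exact dvd_of_exp_eq_pow hz
  have hcfin : {P | c P ≠ 0}.Finite := by
    have := Associates.finite_factors hI
    rw [Filter.eventually_cofinite] at this
    refine this.subset fun P hP => ?_
    simp only [Set.mem_ofPred_eq] at hP ⊢
    exact_mod_cast hP
  have hfin : Function.HasFiniteMulSupport (fun P : HeightOneSpectrum O =>
      P.asIdeal ^ (c P / ℓ)) := by
    refine hcfin.subset fun P hP => ?_
    simp only [Function.mem_mulSupport] at hP
    intro h0
    apply hP
    rw [h0, Nat.zero_div, pow_zero]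
  refine ⟨∏ᶠ P : HeightOneSpectrum O, P.asIdeal ^ (c P / ℓ), ?_, ?_⟩
  · intro h0
    have h1 := finprod_pow hfin ℓ
    rw [h0] at h1
    have h2 : ∀ P : HeightOneSpectrum O, (P.asIdeal ^ (c P / ℓ)) ^ ℓ =
        P.maxPowDividing (Ideal.span {x}) := by
      intro P
      rw [← pow_mul, Nat.div_mul_cancel (hdvd P)]
      rfl
    rw [finprod_congr h2, Ideal.finprod_heightOneSpectrum_factorization hI,
      ← Ideal.zero_eq_bot, zero_pow hℓ] at h1
    exact hI h1.symm
  · rw [finprod_pow hfin ℓ]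
    have h2 : ∀ P : HeightOneSpectrum O, (P.asIdeal ^ (c P / ℓ)) ^ ℓ =
        P.maxPowDividing (Ideal.span {x}) := by
      intro P
      rw [← pow_mul, Nat.div_mul_cancel (hdvd P)]
      rfl
    rw [finprod_congr h2, Ideal.finprod_heightOneSpectrum_factorization hI]

variable {L : Type*} [Field L] [Algebra O L] [IsFractionRing O L]

/-- An element of the fraction field all of whose valuations are divisible by `ℓ` is a unit times
an `ℓ`-th power, if the ideals whose `ℓ`-th power is principal are principal. -/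
lemma exists_unit_mul_pow {ℓ : ℕ} (hℓ : ℓ ≠ 0)
    (H1 : ∀ I : Ideal O, (I ^ ℓ).IsPrincipal → I.IsPrincipal)
    (m : L) (hm : m ≠ 0)
    (h : ∀ P : HeightOneSpectrum O, ∃ z : ℤᵐ⁰, P.valuation L m = z ^ ℓ) :
    ∃ (u : Oˣ) (z : L), m = algebraMap O L u * z ^ ℓ := by
  obtain ⟨a, b, hb, rfl⟩ := IsFractionRing.div_surjective (A := O) m
  have hb0 : b ≠ 0 := nonZeroDivisors.ne_zero hb
  have hb' : algebraMap O L b ≠ 0 := by
    rwa [Ne, IsFractionRing.to_map_eq_zero_iff]
  have ha0 : a ≠ 0 := by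
    rintro rfl
    rw [map_zero, zero_div] at hm
    exact hm rfl
  set x : O := a * b ^ (ℓ - 1) with hx
  have hx0 : x ≠ 0 := mul_ne_zero ha0 (pow_ne_zero _ hb0)
  have hxm : algebraMap O L x = algebraMap O L a / algebraMap O L b * (algebraMap O L b) ^ ℓ := by
    obtain ⟨n, rfl⟩ := Nat.exists_eq_succ_of_ne_zero hℓ
    rw [hx, Nat.succ_sub_one, map_mul, map_pow, Nat.succ_eq_add_one, pow_succ]
    field_simp
  obtain ⟨I, hI0, hI⟩ := exists_ideal_pow hℓ hx0 (fun P => by
    obtain ⟨z, hz⟩ := h P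
    refine ⟨z * P.valuation L (algebraMap O L b), ?_⟩
    have h5 := congrArg (P.valuation L) hxm
    rw [map_mul (P.valuation L), map_pow (P.valuation L), hz] at h5
    rw [← P.valuation_of_algebraMap (K := L) x, h5, mul_pow])
  obtain ⟨y, hy⟩ := (H1 I (by rw [← hI]; exact ⟨⟨x, rfl⟩⟩)).principal
  have hy' : I = Ideal.span {y} := hy
  rw [hy', Ideal.span_singleton_pow, Ideal.span_singleton_eq_span_singleton] at hI
  obtain ⟨u, hu⟩ := hI.symm
  refine ⟨u, algebraMap O L y / algebraMap O L b, ?_⟩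
  have h1 : algebraMap O L x = algebraMap O L y ^ ℓ * algebraMap O L u := by
    rw [← map_pow, ← map_mul, hu]
  rw [div_pow, mul_div_assoc', eq_div_iff (pow_ne_zero _ hb'), ← hxm, h1, mul_comm]

end Ideal

section Base

variable {A K : Type*} [CommRing A] [IsDomain A] [IsPrincipalIdealRing A] [Field K] [Algebra A K]
  [IsFractionRing A K]

/-- Elements with prescribed valuations modulo `ℓ` at finitely many primes, and valuation 1
elsewhere. -/
lemma exists_of_finset {ℓ : ℕ} (hℓ : ℓ ≠ 0) (T : Finset (HeightOneSpectrum A))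
    (κ : HeightOneSpectrum A → K) (hκ : ∀ p, κ p ≠ 0) :
    ∃ x : K, x ≠ 0 ∧ (∀ p ∈ T, ∃ z : ℤᵐ⁰, p.valuation K x = p.valuation K (κ p) * z ^ ℓ) ∧
      ∀ p ∉ T, p.valuation K x = 1 := by
  -- generators
  have hgen : ∀ p : HeightOneSpectrum A, ∃ π : A, π ≠ 0 ∧ p.valuation K (algebraMap A K π) =
      WithZero.exp (-1 : ℤ) ∧ ∀ q : HeightOneSpectrum A, q ≠ p →
        q.valuation K (algebraMap A K π) = 1 := by
    intro p
    obtain ⟨π, hπ⟩ := (IsPrincipalIdealRing.principal p.asIdeal).principal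
    have hπ' : p.asIdeal = Ideal.span {π} := hπ
    have hπ0 : π ≠ 0 := by
      rintro rfl
      apply p.ne_bot
      rw [hπ', Ideal.span_singleton_eq_bot]
    refine ⟨π, hπ0, ?_, fun q hq => ?_⟩
    · rw [HeightOneSpectrum.valuation_of_algebraMap]
      exact HeightOneSpectrum.intValuation_singleton p hπ0 hπ'
    · rw [HeightOneSpectrum.valuation_of_algebraMap, HeightOneSpectrum.intValuation_eq_one_iff]
      intro hmem
      have h1 : p.asIdeal ≤ q.asIdeal := by
        rw [hπ', Ideal.span_le, Set.singleton_subset_iff]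
        exact hmem
      have hpm : p.asIdeal.IsMaximal := p.isPrime.isMaximal p.ne_bot
      exact hq (HeightOneSpectrum.ext (hpm.eq_of_le q.isPrime.ne_top h1).symm)
  choose π hπ0 hπ1 hπ2 using hgen
  -- exponents
  have hexp : ∀ p : HeightOneSpectrum A, ∃ (n : ℕ) (z : ℤᵐ⁰),
      WithZero.exp (-(n : ℤ)) = p.valuation K (κ p) * z ^ ℓ := by
    intro p
    have h0 : p.valuation K (κ p) ≠ 0 := by
      rw [Ne, map_eq_zero]
      exact hκ p
    set a : ℤ := WithZero.log (p.valuation K (κ p)) with ha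
    refine ⟨((-a) % ℓ).toNat, WithZero.exp ((-a) / ℓ), ?_⟩
    have hℓ' : (ℓ : ℤ) ≠ 0 := by exact_mod_cast hℓ
    have h1 : 0 ≤ (-a) % ℓ := Int.emod_nonneg _ hℓ'
    rw [← WithZero.exp_log h0, ← ha, ← WithZero.exp_nsmul, ← WithZero.exp_add, WithZero.exp_inj,
      Int.toNat_of_nonneg h1, nsmul_eq_mul]
    have h2 := Int.emod_add_mul_ediv (-a) ℓ
    linear_combination -h2
  choose n z hnz using hexp
  refine ⟨∏ p ∈ T, algebraMap A K (π p) ^ n p, ?_, ?_, ?_⟩
  · rw [Finset.prod_ne_zero_iff]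
    intro p _
    apply pow_ne_zero
    rw [Ne, IsFractionRing.to_map_eq_zero_iff]
    exact hπ0 p
  · intro p hp
    refine ⟨z p, ?_⟩
    rw [map_prod, Finset.prod_eq_single_of_mem p hp, map_pow, hπ1, ← WithZero.exp_nsmul, ← hnz]
    · congr 1
      rw [nsmul_eq_mul]
      ring
    · intro q _ hq
      rw [map_pow, hπ2 q p (Ne.symm hq), one_pow]
  · intro p hp
    rw [map_prod]
    apply Finset.prod_eq_one
    intro q hq
    rw [map_pow, hπ2 q p (fun h => hp (h ▸ hq)), one_pow]

variable {O L : Type*} [CommRing O] [IsDedekindDomain O] [Algebra A O] [Algebra.IsIntegral A O]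
  [Module.IsTorsionFree A O] [Field L] [Algebra K L] [Algebra A L] [IsScalarTower A K L]
  [Algebra O L] [IsFractionRing O L] [IsScalarTower A O L]

/-- **Consequence of the local conditions.** If at each prime `p` of the principal ideal domain `A`
the valuations of `m` at the primes above `p` are congruent modulo `ℓ` to those of an element of
`K`, then `m` is, up to an `ℓ`-th power, the product of an element of `K` and a unit of `O`. -/
theorem exists_unit_of_val {ℓ : ℕ} (hℓ : ℓ ≠ 0)
    (H1 : ∀ I : Ideal O, (I ^ ℓ).IsPrincipal → I.IsPrincipal)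
    (m : L) (hm : m ≠ 0)
    (hloc : ∀ p : HeightOneSpectrum A, ∃ κ : K, κ ≠ 0 ∧ ∀ P : HeightOneSpectrum O,
      P.asIdeal.LiesOver p.asIdeal →
        ∃ z : ℤᵐ⁰, P.valuation L m = P.valuation L (algebraMap K L κ) * z ^ ℓ) :
    ∃ (κ : K) (u : Oˣ) (z : L), κ ≠ 0 ∧ m = algebraMap K L κ * algebraMap O L u * z ^ ℓ := by
  choose κ hκ0 hκ using hloc
  have hS : {P : HeightOneSpectrum O | P.valuation L m ≠ 1}.Finite := by
    refine ((HeightOneSpectrum.Support.finite O m).union
      (HeightOneSpectrum.Support.finite O m⁻¹)).subset fun P hP => ?_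
    rcases lt_or_gt_of_ne hP with h | h
    · right
      change 1 < P.valuation L m⁻¹
      have h0 : P.valuation L m ≠ 0 := by rwa [Ne, map_eq_zero]
      rw [map_inv₀]
      exact (one_lt_inv₀ (zero_lt_iff.mpr h0)).mpr h
    · left
      exact h
  set T : Finset (HeightOneSpectrum A) :=
    hS.toFinset.image (fun P => HeightOneSpectrum.under A P) with hT
  obtain ⟨x, hx0, hx1, hx2⟩ := exists_of_finset hℓ T κ hκ0
  have hxL : algebraMap K L x ≠ 0 := by rwa [Ne, map_eq_zero]
  have hval : ∀ P : HeightOneSpectrum O, ∃ z : ℤᵐ⁰,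
      P.valuation L (m / algebraMap K L x) = z ^ ℓ := by
    intro P
    set p := HeightOneSpectrum.under A P with hp
    have hlo : P.asIdeal.LiesOver p.asIdeal := ⟨rfl⟩
    have hvx : P.valuation L (algebraMap K L x) ≠ 0 := by rwa [Ne, map_eq_zero]
    by_cases hpT : p ∈ T
    · obtain ⟨z₁, hz₁⟩ := hκ p P hlo
      obtain ⟨z₂, hz₂⟩ := hx1 p hpT
      have h2 : P.valuation L (algebraMap K L x) = P.valuation L (algebraMap K L (κ p)) *
          (z₂ ^ (p.asIdeal.ramificationIdx' P.asIdeal)) ^ ℓ := by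
        rw [← HeightOneSpectrum.valuation_liesOver L p P,
          ← HeightOneSpectrum.valuation_liesOver L p P, hz₂, mul_pow, ← pow_mul, ← pow_mul,
          mul_comm ℓ]
      refine ⟨z₁ / (z₂ ^ (p.asIdeal.ramificationIdx' P.asIdeal)), ?_⟩
      rw [h2] at hvx
      have hz20 : (z₂ ^ (p.asIdeal.ramificationIdx' P.asIdeal)) ^ ℓ ≠ 0 := right_ne_zero_of_mul hvx
      have hk0 : P.valuation L (algebraMap K L (κ p)) ≠ 0 := left_ne_zero_of_mul hvx
      rw [map_div₀, hz₁, h2, div_pow]
      exact mul_div_mul_left _ _ hk0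
    · have h1 : P.valuation L m = 1 := by
        by_contra hcon
        apply hpT
        rw [hT, Finset.mem_image]
        exact ⟨P, hS.mem_toFinset.mpr hcon, rfl⟩
      refine ⟨1, ?_⟩
      rw [map_div₀, h1, ← HeightOneSpectrum.valuation_liesOver L p P, hx2 p hpT, one_pow, one_pow,
        div_one]
  obtain ⟨u, z, huz⟩ := exists_unit_mul_pow hℓ H1 (m / algebraMap K L x)
    (div_ne_zero hm hxL) hval
  refine ⟨x, u, z, hx0, ?_⟩
  rw [div_eq_iff hxL] at huz
  rw [huz]
  ring

end Base

end Pool.Agent.MP1bdb59C
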