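import Mathlib
import Pool.Agent.MP1bdb59C.Main
import Pool.Agent.MP1bdb59C.Even3
import Pool.Agent.MP1bdb59C.Val
import Pool.Agent.MP1bdb59C.Frac

/-!
# The criterion
-/

open Polynomial IsDedekindDomain

noncomputable section

open scoped Classical WithZero

namespace Pool.Agent.MP1bdb59C

open Pool.Agent.MP1bdb59 (Sep AbsGal emb resGal Place Completion placeOf TateModule)

universe u v

/-- If a group has no element of order `ℓ` then its `ℓ`-adic Tate module vanishes. -/
lemma tateModule_eq_bot {ℓ : ℕ} {G : Type*} [AddCommGroup G] (h : ∀ x : G, ℓ • x = 0 → x = 0) :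
    TateModule ℓ G = ⊥ := by
  rw [eq_bot_iff]
  intro s hs
  obtain ⟨h0, hstep⟩ := hs
  rw [AddSubgroup.mem_bot]
  funext n
  induction n with
  | zero => exact h0
  | succ n ih => exact h _ (by rw [hstep n, ih]; rfl)

section

variable {A : Type*} {K : Type v} [CommRing A] [IsDomain A]
  [IsPrincipalIdealRing A] [Field K] [Algebra A K] [IsFractionRing A K]
  {ℓ : ℕ} [hp : Fact ℓ.Prime]

/-- The classes satisfying the local conditions at the places of `A` (all belonging to a set of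
places of `K` trivial on `k`) are products of elements of `K`, units of `O = A[x]/(f)` and `ℓ`-th
powers. -/
theorem exists_unit_of_locCond {k : Type u} [Field k] [Algebra k K] {ζ : A}
    (hζ : IsPrimitiveRoot (algebraMap A K ζ) ℓ) (f : A[X]) (hf : f.Monic)
    [hg : Good ℓ (f.map (algebraMap A K))] [IsDedekindDomain (AdjoinRoot f)]
    (H1 : ∀ I : Ideal (AdjoinRoot f), (I ^ ℓ).IsPrincipal → I.IsPrincipal)
    (hplace : ∀ p : HeightOneSpectrum A, ∃ v : Place k K,
      v.ring = (p.valuation K).valuationSubring)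
    (m : AdjoinRoot (f.map (algebraMap A K))) (hm : IsUnit m)
    (hloc : ∀ v : Place k K, LocCond hζ (Completion v) m) :
    ∃ (κ : K) (u : (AdjoinRoot f)ˣ) (z : AdjoinRoot (f.map (algebraMap A K))), κ ≠ 0 ∧
      m = AdjoinRoot.of _ κ * lamMap (algebraMap A K) rfl (u : AdjoinRoot f) * z ^ ℓ := by
  have hirr : Irreducible (f.map (algebraMap A K)) := irreducible_of_isDomain hf
  have := Fact.mk hirr
  let i1 : Algebra (AdjoinRoot f) (AdjoinRoot (f.map (algebraMap A K))) :=
    (lamMap (algebraMap A K) rfl).toAlgebra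
  have i2 : IsFractionRing (AdjoinRoot f) (AdjoinRoot (f.map (algebraMap A K))) :=
    isFractionRing_adjoinRoot rfl hf hirr (fun _ => rfl)
  have i3 : IsScalarTower A (AdjoinRoot f) (AdjoinRoot (f.map (algebraMap A K))) := by
    apply IsScalarTower.of_algebraMap_eq
    intro a
    change AdjoinRoot.of _ (algebraMap A K a) = lamMap (algebraMap A K) rfl (AdjoinRoot.of f a)
    rw [lamMap_of']
  have i4 : Algebra.IsIntegral A (AdjoinRoot f) := by
    have := (AdjoinRoot.powerBasis' hf).finite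
    infer_instance
  have i5 : Module.Free A (AdjoinRoot f) := Module.Free.of_basis (AdjoinRoot.powerBasis' hf).basis
  have i6 : Module.IsTorsionFree A (AdjoinRoot f) := inferInstance
  have hloc' : ∀ p : HeightOneSpectrum A, ∃ κ : K, κ ≠ 0 ∧ ∀ P : HeightOneSpectrum (AdjoinRoot f),
      P.asIdeal.LiesOver p.asIdeal → ∃ z : ℤᵐ⁰,
        P.valuation (AdjoinRoot (f.map (algebraMap A K))) m =
        P.valuation (AdjoinRoot (f.map (algebraMap A K))) (algebraMap K _ κ) * z ^ ℓ := by
    intro p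
    obtain ⟨v, hv⟩ := hplace p
    exact exists_content hζ f hf (RingHom.id _) (fun q => by
      change _ = lamMap (algebraMap A K) rfl (AdjoinRoot.mk f q)
      rw [lamMap_mk]
      rfl) (fun _ => rfl) p v hv m (hloc v)
  obtain ⟨κ, u, z, hκ, h⟩ := exists_unit_of_val hp.out.ne_zero H1 m hm.ne_zero hloc'
  exact ⟨κ, u, z, hκ, h⟩

end

section

variable (k : Type u) {A : Type*} {K : Type v} [Field k] [CommRing A] [IsDomain A]
  [IsPrincipalIdealRing A] [Algebra k A] [Field K] [Algebra A K] [IsFractionRing A K]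
  [Algebra k K] [IsScalarTower k A K] {ℓ : ℕ} [hp : Fact ℓ.Prime]

/-- **The criterion.** -/
theorem criterion {ζ : k} (hζ : IsPrimitiveRoot ζ ℓ) (f : A[X]) (hf : f.Monic)
    (hsep : (f.map (algebraMap A K)).Separable) (hcop : ¬ ℓ ∣ f.natDegree)
    [IsDedekindDomain (AdjoinRoot f)]
    (H1 : ∀ I : Ideal (AdjoinRoot f), (I ^ ℓ).IsPrincipal → I.IsPrincipal)
    (H2 : ∀ u : (AdjoinRoot f)ˣ, ∃ (c : Aˣ) (v : (AdjoinRoot f)ˣ),
      (u : AdjoinRoot f) = AdjoinRoot.of f c * v ^ ℓ) :
    (∀ ξ ∈ Sha k ℓ (f.map (algebraMap A K)), ℓ • ξ = 0 → ξ = 0) ∧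
      (∀ t : Jac ℓ (f.map (algebraMap A K)) K,
        (∀ σ, act ℓ (f.map (algebraMap A K)) K σ t = t) →
        ∃ s : Jac ℓ (f.map (algebraMap A K)) K,
          (∀ σ, act ℓ (f.map (algebraMap A K)) K σ s = s) ∧ ℓ • s = t) := by
  have hζA : IsPrimitiveRoot (algebraMap A K (algebraMap k A ζ)) ℓ := by
    rw [← IsScalarTower.algebraMap_apply]
    exact hζ.map_of_injective (algebraMap k K).injective
  have hgood : Good ℓ (f.map (algebraMap A K)) :=
    ⟨hf.map _, hsep, by rwa [hf.natDegree_map]⟩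
  have hirr : Irreducible (f.map (algebraMap A K)) := irreducible_of_isDomain hf
  have := Fact.mk hirr
  refine sha_ell_torsion k hζA (f.map (algebraMap A K)) hirr fun m hm ⟨r, hr⟩ hloc => ?_
  obtain ⟨κ, u, z, hκ, h⟩ := exists_unit_of_locCond hζA f hf H1
    (fun p => ⟨placeOf k K p, rfl⟩) m hm hloc
  obtain ⟨c, v, hcv⟩ := H2 u
  set a : K := κ * algebraMap A K c with ha
  have hc0 : algebraMap A K c ≠ 0 := (c.isUnit.map (algebraMap A K)).ne_zero
  have ha0 : a ≠ 0 := mul_ne_zero hκ hc0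
  obtain ⟨y, hy⟩ : ∃ y, y = lamMap (algebraMap A K) (rfl : f.map (algebraMap A K) = _)
    (v : AdjoinRoot f) * z := ⟨_, rfl⟩
  have hm' : m = AdjoinRoot.of _ a * y ^ ℓ := by
    rw [h, hcv, map_mul, map_pow, lamMap_of', ha, map_mul, hy]
    ring
  have hy0 : y ≠ 0 := by
    rintro h0
    rw [h0, zero_pow hp.out.ne_zero, mul_zero] at hm'
    exact hm.ne_zero hm'
  have hN : a ^ (f.map (algebraMap A K)).natDegree * (Algebra.norm K y) ^ ℓ = r ^ ℓ := by
    rw [← hr, hm', map_mul, map_pow, norm_of (hf.map _)]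
  have hNy : Algebra.norm K y ≠ 0 := by
    have := (AdjoinRoot.powerBasis' (hf.map (algebraMap A K))).finite
    rw [Ne, Algebra.norm_eq_zero_iff]
    exact hy0
  obtain ⟨b, hb⟩ := exists_pow_of_coprime ha0 ((Nat.Prime.coprime_iff_not_dvd hp.out).mpr hgood.cop)
    (b := r / Algebra.norm K y) (by
      rw [div_pow, eq_div_iff (pow_ne_zero _ hNy), hN])
  refine ⟨AdjoinRoot.of _ b * y, ?_⟩
  rw [hm', hb, map_pow, mul_pow]

end

end Pool.Agent.MP1bdb59C
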