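import Mathlib
import Pool.Agent.MP1bdb59C.Desc

/-!
# Norms of ideals prime to `y` on a ramified twist
-/

open Polynomial Finset

noncomputable section

open scoped Classical

set_option linter.unusedSectionVars false

namespace Pool.Agent.MP1bdb59C

namespace Twist

section Sg

variable {F : Type*} [Field F]

/-- the substitution `x ↦ c x`. -/
def sg (c : F) : F[X] →+* F[X] := compRingHom (C c * X)

lemma sg_apply (c : F) (p : F[X]) : sg c p = p.comp (C c * X) := rfl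

lemma sg_C (c a : F) : sg c (C a) = C a := by rw [sg_apply, C_comp]

lemma sg_sg {c d : F} (h : c * d = 1) (p : F[X]) : sg c (sg d p) = p := by
  rw [sg_apply, sg_apply, comp_assoc, mul_comp, C_comp, X_comp, ← mul_assoc, ← C_mul,
    mul_comm d c, h, C_1, one_mul, comp_X]

lemma sg_injective {c : F} (hc : c ≠ 0) : Function.Injective (sg c) := by
  intro p q h
  have := congrArg (sg c⁻¹) h
  rwa [sg_sg (inv_mul_cancel₀ hc), sg_sg (inv_mul_cancel₀ hc)] at this

end Sg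

section CoefMon

variable {A : Type*} [CommRing A] [Nontrivial A] {ℓ : ℕ} [hℓ : NeZero ℓ] {g : A[X]}

lemma coef_of_mul_yy_pow' (p : A[X]) (t i : ℕ) : coef (of g p * yy ^ t : CoordRing ℓ g) i =
    if i = t % ℓ then p * g ^ (t / ℓ) else 0 := by
  have h1 : (of g p * yy ^ t : CoordRing ℓ g) = of g (p * g ^ (t / ℓ)) * yy ^ (t % ℓ) := by
    conv_lhs => rw [← Nat.div_add_mod t ℓ]
    rw [pow_add, pow_mul, yy_pow, map_mul, map_pow]
    ring
  rw [h1, coef_of_mul_yy_pow _ (Nat.mod_lt _ (Nat.pos_of_ne_zero hℓ.out))]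

end CoefMon

variable {R : Type*} [CommRing R] [IsDomain R] [IsDiscreteValuationRing R]
  {F : Type*} [Field F] [Algebra R F] [IsFractionRing R F] {ℓ : ℕ} [hp : Fact ℓ.Prime]

open IsLocalRing

/-- the relation: `z` has order at least `k`, and `w` is its term of order `k`, for the
valuation with `v(π) = ℓ`, `v(y) = N`, in the coordinate `x = c X`. -/
def In (π : R) (c : F) (N : ℕ) {g : F[X]} {fb : (ResidueField R)[X]} (k : ℤ)
    (z : CoordRing ℓ g) (w : CoordRing ℓ fb) : Prop :=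
  ∀ i < ℓ, ∃ (m : ℤ) (q : R[X]), k - i * N ≤ ℓ * m ∧
    sg c (coef z i) = C (algebraMap R F π ^ m) * q.map (algebraMap R F) ∧
    coef w i = if (ℓ : ℤ) * m = k - i * N then q.map (residue R) else 0

section

variable {π : R} (hπ : Irreducible π) {c : F} (hc : c ≠ 0) {N : ℕ} {g : F[X]} {f : R[X]}
  {fb : (ResidueField R)[X]}

include hπ in
lemma ne0 : algebraMap R F π ≠ 0 := by
  rw [Ne, IsFractionRing.to_map_eq_zero_iff]
  exact hπ.ne_zero

include hπ in
lemma residue_pi : residue R π = 0 := by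
  rw [residue_eq_zero_iff, mem_maximalIdeal]
  exact hπ.not_isUnit

include hπ in
lemma map_residue_pi_pow_mul {n : ℕ} (hn : n ≠ 0) (q : R[X]) :
    (C (π ^ n) * q).map (residue R) = 0 := by
  rw [Polynomial.map_mul, map_C, map_pow, residue_pi hπ, zero_pow hn, C_0, zero_mul]

lemma map_alg_inj {q q' : R[X]} (h : q.map (algebraMap R F) = q'.map (algebraMap R F)) :
    q = q' := Polynomial.map_injective _ (IsFractionRing.injective R F) h

include hπ in
/-- comparison of two representations. -/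
lemma rep_cmp {m m' : ℤ} {q q' : R[X]} (hm : m ≤ m')
    (h : C (algebraMap R F π ^ m) * q.map (algebraMap R F) =
      C (algebraMap R F π ^ m') * q'.map (algebraMap R F)) :
    q = C (π ^ (m' - m).toNat) * q' := by
  apply map_alg_inj (F := F)
  have h0 := ne0 (F := F) hπ
  have h1 : C (algebraMap R F π ^ (-m)) * (C (algebraMap R F π ^ m) * q.map (algebraMap R F)) =
      C (algebraMap R F π ^ (-m)) * (C (algebraMap R F π ^ m') * q'.map (algebraMap R F)) := by
    rw [h]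
  rw [← mul_assoc, ← mul_assoc, ← C_mul, ← C_mul, ← zpow_add₀ h0, ← zpow_add₀ h0,
    neg_add_cancel, zpow_zero, C_1, one_mul] at h1
  rw [h1, Polynomial.map_mul, map_C, map_pow]
  congr 2
  have h2 : -m + m' = (((m' - m).toNat : ℕ) : ℤ) := by omega
  rw [h2, zpow_natCast]

include hπ in
lemma In.unique {k : ℤ} {z : CoordRing ℓ g} {w w' : CoordRing ℓ fb} (h : In π c N k z w)
    (h' : In π c N k z w') : w = w' := by
  apply coef_ext
  intro i hi
  obtain ⟨m, q, h1, h2, h3⟩ := h i hi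
  obtain ⟨m', q', h1', h2', h3'⟩ := h' i hi
  have key : ∀ (m m' : ℤ) (q q' : R[X]), k - i * N ≤ ℓ * m → k - i * N ≤ ℓ * m' → m ≤ m' →
      C (algebraMap R F π ^ m) * q.map (algebraMap R F) =
        C (algebraMap R F π ^ m') * q'.map (algebraMap R F) →
      (if (ℓ : ℤ) * m = k - i * N then q.map (residue R) else 0) =
        (if (ℓ : ℤ) * m' = k - i * N then q'.map (residue R) else 0) := by
    intro m m' q q' hm hm' hmm h
    have hℓ : (0 : ℤ) < ℓ := by exact_mod_cast hp.out.pos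
    have hq := rep_cmp hπ hmm h
    rcases eq_or_lt_of_le hmm with he | hlt
    · subst he
      rw [hq, sub_self, Int.toNat_zero, pow_zero, C_1, one_mul]
    · have hne : (ℓ : ℤ) * m' ≠ k - i * N := by
        have := mul_lt_mul_of_pos_left hlt hℓ
        omega
      rw [if_neg hne]
      split_ifs
      · rw [hq]
        exact map_residue_pi_pow_mul hπ (by omega) q'
      · rfl
  rw [h3, h3']
  rcases le_total m m' with hmm | hmm
  · exact key m m' q q' h1 h1' hmm (by rw [← h2, ← h2'])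
  · exact (key m' m q' q h1' h1 hmm (by rw [← h2, ← h2'])).symm

lemma In.zero (k : ℤ) : In π c N k (0 : CoordRing ℓ g) (0 : CoordRing ℓ fb) := by
  intro i _
  have hℓ : (1 : ℤ) ≤ ℓ := by exact_mod_cast hp.out.pos
  refine ⟨max 0 (k - i * N), 0, ?_, ?_, ?_⟩
  · have h0 : (0 : ℤ) ≤ max 0 (k - i * N) := le_max_left _ _
    calc k - i * N ≤ max 0 (k - i * N) := le_max_right _ _
      _ = 1 * max 0 (k - i * N) := (one_mul _).symm
      _ ≤ ℓ * max 0 (k - i * N) := mul_le_mul_of_nonneg_right hℓ h0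
  · rw [coef_zero, map_zero, Polynomial.map_zero, mul_zero]
  · rw [coef_zero, Polynomial.map_zero, ite_self]

include hπ in
lemma In.add {k : ℤ} {z z' : CoordRing ℓ g} {w w' : CoordRing ℓ fb} (h : In π c N k z w)
    (h' : In π c N k z' w') : In π c N k (z + z') (w + w') := by
  intro i hi
  obtain ⟨m, q, h1, h2, h3⟩ := h i hi
  obtain ⟨m', q', h1', h2', h3'⟩ := h' i hi
  have hℓ : (0 : ℤ) < ℓ := by exact_mod_cast hp.out.pos
  have key : ∀ (m m' : ℤ) (q q' : R[X]), k - i * N ≤ ℓ * m → k - i * N ≤ ℓ * m' → m ≤ m' →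
      C (algebraMap R F π ^ m) * q.map (algebraMap R F) +
        C (algebraMap R F π ^ m') * q'.map (algebraMap R F) =
        C (algebraMap R F π ^ m) * (q + C (π ^ (m' - m).toNat) * q').map (algebraMap R F) ∧
      (if (ℓ : ℤ) * m = k - i * N then q.map (residue R) else 0) +
        (if (ℓ : ℤ) * m' = k - i * N then q'.map (residue R) else 0) =
      (if (ℓ : ℤ) * m = k - i * N then (q + C (π ^ (m' - m).toNat) * q').map (residue R)
        else 0) := by
    intro m m' q q' hm hm' hmm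
    constructor
    · rw [Polynomial.map_add, Polynomial.map_mul, map_C, mul_add, ← mul_assoc, ← C_mul, map_pow,
        ← zpow_natCast, ← zpow_add₀ (ne0 hπ)]
      congr 4
      omega
    · rcases eq_or_lt_of_le hmm with he | hlt
      · subst he
        rw [sub_self, Int.toNat_zero, pow_zero, C_1, one_mul, Polynomial.map_add]
        split_ifs
        · rfl
        · rw [add_zero]
      · have hne : (ℓ : ℤ) * m' ≠ k - i * N := by
          have := mul_lt_mul_of_pos_left hlt hℓ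
          omega
        rw [if_neg hne, add_zero]
        split_ifs
        · rw [Polynomial.map_add, map_residue_pi_pow_mul hπ (by omega), add_zero]
        · rfl
  rcases le_total m m' with hmm | hmm
  · obtain ⟨k1, k2⟩ := key m m' q q' h1 h1' hmm
    refine ⟨m, q + C (π ^ (m' - m).toNat) * q', h1, ?_, ?_⟩
    · rw [coef_add, map_add, h2, h2']
      exact k1
    · rw [coef_add, h3, h3']
      exact k2
  · obtain ⟨k1, k2⟩ := key m' m q' q h1' h1 hmm
    refine ⟨m', q' + C (π ^ (m - m').toNat) * q, h1', ?_, ?_⟩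
    · rw [coef_add, map_add, h2, h2', add_comm]
      exact k1
    · rw [coef_add, h3, h3', add_comm]
      exact k2

include hπ in
lemma In.sum {ι : Type*} (s : Finset ι) {k : ℤ} {z : ι → CoordRing ℓ g}
    {w : ι → CoordRing ℓ fb} (h : ∀ i ∈ s, In π c N k (z i) (w i)) :
    In π c N k (∑ i ∈ s, z i) (∑ i ∈ s, w i) := by
  induction s using Finset.induction_on with
  | empty => rw [Finset.sum_empty, Finset.sum_empty]; exact In.zero k
  | insert i s hi ih =>
    rw [Finset.sum_insert hi, Finset.sum_insert hi]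
    exact (h i (Finset.mem_insert_self _ _)).add hπ
      (ih fun j hj => h j (Finset.mem_insert_of_mem hj))

lemma In.mono {k k' : ℤ} (hk : k' < k) {z : CoordRing ℓ g} {w : CoordRing ℓ fb}
    (h : In π c N k z w) : In π c N k' z (0 : CoordRing ℓ fb) := by
  intro i hi
  obtain ⟨m, q, h1, h2, h3⟩ := h i hi
  refine ⟨m, q, by omega, h2, ?_⟩
  rw [coef_zero, if_neg (by omega)]

/-- scaling by a power of `π`. -/
lemma In.scale (hπ : Irreducible π) {k : ℤ} (s : ℤ) {z : CoordRing ℓ g} {w : CoordRing ℓ fb}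
    (h : In π c N k z w) :
    In π c N (k + ℓ * s) (of g (C (algebraMap R F π ^ s)) * z) w := by
  intro i hi
  obtain ⟨m, q, h1, h2, h3⟩ := h i hi
  refine ⟨m + s, q, ?_, ?_, ?_⟩
  · rw [mul_add]; omega
  · rw [coef_of_mul, map_mul, sg_C, h2, ← mul_assoc, ← C_mul, ← zpow_add₀ (ne0 hπ), add_comm]
  · rw [h3]
    have : ((ℓ : ℤ) * m = k - i * N) = ((ℓ : ℤ) * (m + s) = k + ℓ * s - i * N) := by
      rw [mul_add]
      apply propext
      constructor <;> intro h <;> omega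
    simp only [this]

/-- a homogeneous element. -/
lemma In.mon (hπ : Irreducible π)
    (hg : sg c g = C (algebraMap R F π ^ (N : ℤ)) * f.map (algebraMap R F))
    (hf : f.map (residue R) = fb) {k m : ℤ} {t : ℕ} {q : R[X]} {p : F[X]}
    (hk : k - t * N ≤ ℓ * m)
    (hpq : sg c p = C (algebraMap R F π ^ m) * q.map (algebraMap R F)) :
    In π c N k (of g p * yy ^ t : CoordRing ℓ g)
      (if (ℓ : ℤ) * m = k - t * N then of fb (q.map (residue R)) * yy ^ t else 0 :
        CoordRing ℓ fb) := by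
  intro i hi
  have hdiv := Nat.div_add_mod t ℓ
  by_cases hit : i = t % ℓ
  · have hcast : (t : ℤ) * N = i * N + ℓ * (N * (t / ℓ : ℕ)) := by
      have : (t : ℤ) = ℓ * ((t / ℓ : ℕ) : ℤ) + (i : ℤ) := by
        rw [hit]; exact_mod_cast hdiv.symm
      rw [this]; ring
    refine ⟨m + N * ((t / ℓ : ℕ) : ℤ), q * f ^ (t / ℓ), ?_, ?_, ?_⟩
    · rw [mul_add]; omega
    · rw [coef_of_mul_yy_pow', if_pos hit, map_mul, map_pow, hpq, hg, Polynomial.map_mul,
        Polynomial.map_pow, mul_pow, ← C_pow, ← zpow_natCast (algebraMap R F π ^ (N : ℤ)),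
        ← zpow_mul, zpow_add₀ (ne0 hπ), C_mul]
      ring
    · have hiff : ((ℓ : ℤ) * m = k - t * N) ↔
          ((ℓ : ℤ) * (m + N * ((t / ℓ : ℕ) : ℤ)) = k - i * N) := by
        rw [mul_add]
        constructor <;> intro h <;> omega
      by_cases he : (ℓ : ℤ) * m = k - t * N
      · rw [if_pos he, if_pos (hiff.mp he), coef_of_mul_yy_pow', if_pos hit, Polynomial.map_mul,
          Polynomial.map_pow, hf]
      · rw [if_neg he, if_neg (fun h => he (hiff.mpr h)), coef_zero]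
  · obtain ⟨m', q', h1, h2, h3⟩ := In.zero (R := R) (π := π) (c := c) (N := N) (g := g) (fb := fb)
      (ℓ := ℓ) k i hi
    refine ⟨m', q', h1, ?_, ?_⟩
    · rw [coef_of_mul_yy_pow', if_neg hit, ← h2, coef_zero]
    · rw [← h3, coef_zero]
      split_ifs
      · rw [coef_of_mul_yy_pow', if_neg hit]
      · rw [coef_zero]

include hπ in
lemma In.mul (hg : sg c g = C (algebraMap R F π ^ (N : ℤ)) * f.map (algebraMap R F))
    (hf : f.map (residue R) = fb) {k k' : ℤ} {z z' : CoordRing ℓ g} {w w' : CoordRing ℓ fb}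
    (h : In π c N k z w) (h' : In π c N k' z' w') : In π c N (k + k') (z * z') (w * w') := by
  choose! m q h1 h2 h3 using h
  choose! m' q' h1' h2' h3' using h'
  have hz : z * z' = ∑ i ∈ range ℓ, ∑ j ∈ range ℓ,
      of g (coef z i * coef z' j) * yy ^ (i + j) := by
    conv_lhs => rw [eq_sum z, eq_sum z']
    rw [Finset.sum_mul_sum]
    refine Finset.sum_congr rfl fun i _ => Finset.sum_congr rfl fun j _ => ?_
    rw [map_mul, pow_add]; ring
  have hw : w * w' = ∑ i ∈ range ℓ, ∑ j ∈ range ℓ,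
      of fb (coef w i * coef w' j) * yy ^ (i + j) := by
    conv_lhs => rw [eq_sum w, eq_sum w']
    rw [Finset.sum_mul_sum]
    refine Finset.sum_congr rfl fun i _ => Finset.sum_congr rfl fun j _ => ?_
    rw [map_mul, pow_add]; ring
  rw [hz, hw]
  apply In.sum hπ
  intro i hi
  apply In.sum hπ
  intro j hj
  rw [Finset.mem_range] at hi hj
  have hpq : sg c (coef z i * coef z' j) =
      C (algebraMap R F π ^ (m i + m' j)) * (q i * q' j).map (algebraMap R F) := by
    rw [map_mul, h2 i hi, h2' j hj, Polynomial.map_mul, zpow_add₀ (ne0 hπ), C_mul]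
    ring
  have hk : k + k' - ((i + j : ℕ) : ℤ) * N ≤ ℓ * (m i + m' j) := by
    have a1 := h1 i hi
    have a2 := h1' j hj
    push_cast
    rw [mul_add, add_mul]
    omega
  have := In.mon (ℓ := ℓ) hπ hg hf hk hpq
  convert this using 1
  have a1 := h1 i hi
  have a2 := h1' j hj
  by_cases e1 : (ℓ : ℤ) * m i = k - i * N
  · by_cases e2 : (ℓ : ℤ) * m' j = k' - j * N
    · rw [if_pos (by push_cast; rw [mul_add, add_mul]; omega), h3 i hi, h3' j hj, if_pos e1,
        if_pos e2, Polynomial.map_mul]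
    · rw [if_neg (by push_cast; rw [mul_add, add_mul]; omega), h3' j hj, if_neg e2, mul_zero,
        map_zero, zero_mul]
  · rw [if_neg (by push_cast; rw [mul_add, add_mul]; omega), h3 i hi, if_neg e1, zero_mul,
      map_zero, zero_mul]

lemma coef_neg' {A : Type*} [CommRing A] {g : A[X]} (z : CoordRing ℓ g) (j : ℕ) :
    coef (-z) j = -coef z j := by
  unfold coef
  rw [map_neg, coeff_neg]

lemma In.neg {k : ℤ} {z : CoordRing ℓ g} {w : CoordRing ℓ fb} (h : In π c N k z w) :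
    In π c N k (-z) (-w) := by
  intro i hi
  obtain ⟨m, q, h1, h2, h3⟩ := h i hi
  refine ⟨m, -q, h1, ?_, ?_⟩
  · rw [coef_neg', map_neg, h2, Polynomial.map_neg, mul_neg]
  · rw [coef_neg', h3]
    split_ifs
    · rw [Polynomial.map_neg]
    · rw [neg_zero]

include hπ in
lemma In.sub {k : ℤ} {z z' : CoordRing ℓ g} {w w' : CoordRing ℓ fb} (h : In π c N k z w)
    (h' : In π c N k z' w') : In π c N k (z - z') (w - w') := by
  convert h.add hπ h'.neg using 1
  · exact sub_eq_add_neg z z'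
  · exact sub_eq_add_neg w w'

/-- order at least `k`. -/
def Ge (π : R) (c : F) (N : ℕ) {g : F[X]} (k : ℤ) (z : CoordRing ℓ g) : Prop :=
  ∀ i < ℓ, ∃ (m : ℤ) (q : R[X]), k - i * N ≤ ℓ * m ∧
    sg c (coef z i) = C (algebraMap R F π ^ m) * q.map (algebraMap R F)

lemma In.ge {k : ℤ} {z : CoordRing ℓ g} {w : CoordRing ℓ fb} (h : In π c N k z w) :
    Ge π c N k z := by
  intro i hi
  obtain ⟨m, q, h1, h2, _⟩ := h i hi
  exact ⟨m, q, h1, h2⟩

variable (fb) in
lemma Ge.exists_In {k : ℤ} {z : CoordRing ℓ g} (h : Ge π c N k z) :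
    ∃ w : CoordRing ℓ fb, In π c N k z w := by
  choose! m q h1 h2 using h
  refine ⟨∑ i ∈ range ℓ, of fb (if (ℓ : ℤ) * m i = k - i * N then (q i).map (residue R) else 0) *
    yy ^ i, ?_⟩
  intro i hi
  refine ⟨m i, q i, h1 i hi, h2 i hi, ?_⟩
  exact coef_sum_yy (fun i => if (ℓ : ℤ) * m i = k - i * N then (q i).map (residue R) else 0) hi

lemma Ge.mono {k k' : ℤ} (hk : k' ≤ k) {z : CoordRing ℓ g} (h : Ge π c N k z) :
    Ge π c N k' z := by
  intro i hi
  obtain ⟨m, q, h1, h2⟩ := h i hi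
  exact ⟨m, q, by omega, h2⟩

lemma Ge.in_zero {k k' : ℤ} (hk : k' < k) {z : CoordRing ℓ g} (h : Ge π c N k z) :
    In π c N k' z (0 : CoordRing ℓ fb) := by
  obtain ⟨w, hw⟩ := h.exists_In fb
  exact hw.mono hk

include hπ in
lemma exists_of_map_residue_eq_zero {q : R[X]} (h : q.map (residue R) = 0) :
    ∃ q', q = C π * q' := by
  have : C π ∣ q := by
    rw [C_dvd_iff_dvd_coeff]
    intro i
    have h1 : residue R (q.coeff i) = 0 := by rw [← coeff_map, h, coeff_zero]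
    rw [residue_eq_zero_iff, hπ.maximalIdeal_eq, Ideal.mem_span_singleton] at h1
    exact h1
  exact this

include hπ in
lemma In.succ {k : ℤ} {z : CoordRing ℓ g} (h : In π c N k z (0 : CoordRing ℓ fb)) :
    Ge π c N (k + 1) z := by
  intro i hi
  obtain ⟨m, q, h1, h2, h3⟩ := h i hi
  have hℓ : (0 : ℤ) < ℓ := by exact_mod_cast hp.out.pos
  by_cases hm : (ℓ : ℤ) * m = k - i * N
  · rw [coef_zero, if_pos hm] at h3
    obtain ⟨q', rfl⟩ := exists_of_map_residue_eq_zero hπ h3.symm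
    refine ⟨m + 1, q', ?_, ?_⟩
    · rw [mul_add, mul_one]; omega
    · rw [h2, Polynomial.map_mul, map_C, ← mul_assoc, ← C_mul, zpow_add_one₀ (ne0 hπ)]
  · exact ⟨m, q, by omega, h2⟩

include hπ in
lemma exists_rep (P : F[X]) : ∃ (m : ℤ) (q : R[X]),
    P = C (algebraMap R F π ^ m) * q.map (algebraMap R F) := by
  induction P using Polynomial.induction_on' with
  | add p q hp hq =>
    obtain ⟨m, p', rfl⟩ := hp
    obtain ⟨n, q', rfl⟩ := hq
    have key : ∀ (m n : ℤ) (p' q' : R[X]), m ≤ n → ∃ (m' : ℤ) (r : R[X]),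
        C (algebraMap R F π ^ m) * p'.map (algebraMap R F) +
          C (algebraMap R F π ^ n) * q'.map (algebraMap R F) =
        C (algebraMap R F π ^ m') * r.map (algebraMap R F) := by
      intro m n p' q' hmn
      refine ⟨m, p' + C (π ^ (n - m).toNat) * q', ?_⟩
      rw [Polynomial.map_add, Polynomial.map_mul, map_C, mul_add, ← mul_assoc, ← C_mul, map_pow,
        ← zpow_natCast, ← zpow_add₀ (ne0 hπ)]
      congr 4
      omega
    rcases le_total m n with h | h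
    · exact key m n p' q' h
    · rw [add_comm]
      exact key n m q' p' h
  | monomial n a =>
    obtain ⟨r, s, hs, rfl⟩ := IsFractionRing.div_surjective (A := R) a
    have hs0 : s ≠ 0 := nonZeroDivisors.ne_zero hs
    obtain ⟨t, u, hu⟩ := IsDiscreteValuationRing.eq_unit_mul_pow_irreducible hs0 hπ
    refine ⟨-(t : ℤ), monomial n (r * (u⁻¹ : Rˣ)), ?_⟩
    rw [map_monomial, C_mul_monomial]
    congr 1
    rw [hu, map_mul (algebraMap R F), map_mul (algebraMap R F), map_pow, zpow_neg, zpow_natCast]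
    have h1 : algebraMap R F (u : R) * algebraMap R F ((u⁻¹ : Rˣ) : R) = 1 := by
      rw [← map_mul, Units.mul_inv, map_one]
    have h2 : algebraMap R F (u : R) ≠ 0 := left_ne_zero_of_mul_eq_one h1
    have h3 : algebraMap R F π ^ t ≠ 0 := pow_ne_zero _ (ne0 hπ)
    field_simp
    linear_combination (algebraMap R F r) * (-1) * h1

include hπ in
lemma exists_prim {P : F[X]} (hP : P ≠ 0) : ∃ (m : ℤ) (q : R[X]),
    P = C (algebraMap R F π ^ m) * q.map (algebraMap R F) ∧ q.map (residue R) ≠ 0 := by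
  obtain ⟨m, q, rfl⟩ := exists_rep hπ P
  have hq : q ≠ 0 := by
    rintro rfl
    exact hP (by rw [Polynomial.map_zero, mul_zero])
  have hnu : ¬ IsUnit (C π : R[X]) := by
    rw [isUnit_C]
    exact hπ.not_isUnit
  have hfin : FiniteMultiplicity (C π : R[X]) q := FiniteMultiplicity.of_not_isUnit hnu hq
  obtain ⟨q', hq', hnd⟩ := hfin.exists_eq_pow_mul_and_not_dvd
  refine ⟨m + (multiplicity (C π) q : ℕ), q', ?_, ?_⟩
  · conv_lhs => rw [hq']
    rw [Polynomial.map_mul, Polynomial.map_pow, map_C, zpow_add₀ (ne0 hπ), C_mul, zpow_natCast,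
      C_pow, mul_assoc]
  · intro h
    exact hnd (exists_of_map_residue_eq_zero hπ h)

variable (fb) in
include hπ hc in
lemma exists_In {z : CoordRing ℓ g} (hz : z ≠ 0) :
    ∃ (k : ℤ) (w : CoordRing ℓ fb), In π c N k z w ∧ w ≠ 0 := by
  have h0 : ∀ i, ∃ (m : ℤ) (q : R[X]), coef z i ≠ 0 →
      sg c (coef z i) = C (algebraMap R F π ^ m) * q.map (algebraMap R F) ∧
        q.map (residue R) ≠ 0 := by
    intro i
    by_cases hi : coef z i = 0
    · exact ⟨0, 0, fun h => absurd hi h⟩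
    · obtain ⟨m, q, h⟩ := exists_prim hπ (P := sg c (coef z i))
        ((map_ne_zero_iff _ (sg_injective hc)).mpr hi)
      exact ⟨m, q, fun _ => h⟩
  choose m q h using h0
  let S := (range ℓ).filter fun i => coef z i ≠ 0
  have hS : S.Nonempty := by
    by_contra hne
    rw [Finset.not_nonempty_iff_eq_empty] at hne
    apply hz
    apply coef_ext
    intro i hi
    by_contra hi'
    rw [coef_zero] at hi'
    have : i ∈ S := Finset.mem_filter.mpr ⟨Finset.mem_range.mpr hi, hi'⟩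
    rw [hne] at this
    simp at this
  obtain ⟨i₀, hi₀, hmin⟩ := Finset.exists_min_image S (fun i => (ℓ : ℤ) * m i + i * N) hS
  have hi₀' := Finset.mem_filter.mp hi₀
  refine ⟨ℓ * m i₀ + i₀ * N, ∑ i ∈ range ℓ, of fb (if coef z i ≠ 0 ∧
    (ℓ : ℤ) * m i = ℓ * m i₀ + i₀ * N - i * N then (q i).map (residue R) else 0) * yy ^ i, ?_, ?_⟩
  · intro i hi
    by_cases hi' : coef z i = 0
    · obtain ⟨m', q', h1, h2, h3⟩ := In.zero (R := R) (π := π) (c := c) (N := N) (g := g)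
        (fb := fb) (ℓ := ℓ) (ℓ * m i₀ + i₀ * N) i hi
      refine ⟨m', q', h1, ?_, ?_⟩
      · rw [hi', ← h2, coef_zero]
      · rw [← h3, coef_zero]
        refine (coef_sum_yy (fun i => if coef z i ≠ 0 ∧
          (ℓ : ℤ) * m i = ℓ * m i₀ + i₀ * N - i * N then (q i).map (residue R) else 0) hi).trans ?_
        exact if_neg (fun h => h.1 hi')
    · refine ⟨m i, q i, ?_, (h i hi').1, ?_⟩
      · have := hmin i (Finset.mem_filter.mpr ⟨Finset.mem_range.mpr hi, hi'⟩)
        omega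
      · refine (coef_sum_yy (fun i => if coef z i ≠ 0 ∧
          (ℓ : ℤ) * m i = ℓ * m i₀ + i₀ * N - i * N then (q i).map (residue R) else 0) hi).trans ?_
        simp only [hi', ne_eq, not_false_eq_true, true_and]
  · intro hw
    have h1 : coef (∑ i ∈ range ℓ, of fb (if coef z i ≠ 0 ∧
        (ℓ : ℤ) * m i = ℓ * m i₀ + i₀ * N - i * N then (q i).map (residue R) else 0) * yy ^ i :
        CoordRing ℓ fb) i₀ = 0 := by rw [hw, coef_zero]
    have h2 := (coef_sum_yy (g := fb) (fun i => if coef z i ≠ 0 ∧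
        (ℓ : ℤ) * m i = ℓ * m i₀ + i₀ * N - i * N then (q i).map (residue R) else 0)
        (Finset.mem_range.mp hi₀'.1)).symm.trans h1
    rw [if_pos ⟨hi₀'.2, by ring⟩] at h2
    exact (h i₀ hi₀'.2).2 h2

include hπ in
/-- order and initial form are unique. -/
lemma In.eq_of_ne {k k' : ℤ} {z : CoordRing ℓ g} {w w' : CoordRing ℓ fb} (h : In π c N k z w)
    (h' : In π c N k' z w') (hw : w ≠ 0) (hw' : w' ≠ 0) : k = k' ∧ w = w' := by
  rcases lt_trichotomy k k' with hlt | rfl | hlt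
  · exact absurd (h.unique hπ (h'.mono hlt)) hw
  · exact ⟨rfl, h.unique hπ h'⟩
  · exact absurd (h'.unique hπ (h.mono hlt)) hw'

include hπ hc in
lemma exists_ge (z : CoordRing ℓ g) : ∃ k, Ge π c N k z := by
  by_cases hz : z = 0
  · exact ⟨0, hz ▸ (In.zero (fb := (0 : (ResidueField R)[X])) 0).ge⟩
  · obtain ⟨k, w, h, _⟩ := exists_In (N := N) hπ hc (0 : (ResidueField R)[X]) hz
    exact ⟨k, h.ge⟩

/-! ### the automorphism and norms -/

section Tau

variable {ζ : R} (hζ : algebraMap R F ζ ^ ℓ = 1) (hζ' : residue R ζ ^ ℓ = 1)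

lemma In.tau' {k : ℤ} {z : CoordRing ℓ g} {w : CoordRing ℓ fb} (h : In π c N k z w) :
    In π c N k (tau hζ g z) (tau hζ' fb w) := by
  intro i hi
  obtain ⟨m, q, h1, h2, h3⟩ := h i hi
  refine ⟨m, C (ζ ^ i) * q, h1, ?_, ?_⟩
  · rw [coef_tau, map_mul, sg_C, h2, Polynomial.map_mul, map_C]
    simp only [map_pow]
    ring
  · rw [coef_tau, h3]
    split_ifs
    · rw [Polynomial.map_mul, map_C]
      simp only [map_pow]
    · rw [mul_zero]

include hπ in
lemma In.one (hg : sg c g = C (algebraMap R F π ^ (N : ℤ)) * f.map (algebraMap R F))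
    (hf : f.map (residue R) = fb) : In π c N 0 (1 : CoordRing ℓ g) (1 : CoordRing ℓ fb) := by
  have h := In.mon (ℓ := ℓ) (c := c) (g := g) (k := 0) (m := 0) (t := 0) (q := (1 : R[X]))
    (p := (1 : F[X])) hπ hg hf
    (by simp) (by rw [map_one, zpow_zero, C_1, Polynomial.map_one, one_mul])
  rw [if_pos (by simp), Polynomial.map_one, map_one, map_one, pow_zero, pow_zero, one_mul,
    one_mul] at h
  exact h

include hπ in
lemma In.nrm' (hg : sg c g = C (algebraMap R F π ^ (N : ℤ)) * f.map (algebraMap R F))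
    (hf : f.map (residue R) = fb) {k : ℤ} {z : CoordRing ℓ g} {w : CoordRing ℓ fb}
    (h : In π c N k z w) (r : ℕ) :
    In π c N (r * k) (nrm (tau hζ g) r z) (nrm (tau hζ' fb) r w) := by
  induction r with
  | zero =>
    have h0 := In.one (ℓ := ℓ) hπ hg hf
    have e1 : nrm (tau hζ g) 0 z = 1 := rfl
    have e2 : nrm (tau hζ' fb) 0 w = 1 := rfl
    rw [e1, e2]
    convert h0 using 1
    simp
  | succ r ih =>
    rw [nrm_succ, nrm_succ]
    have h1 := h.mul hπ hg hf (ih.tau' hζ hζ')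
    convert h1 using 1
    push_cast; ring

end Tau

end

/-! ### initial forms -/

section Initial

variable {π : R} (hπ : Irreducible π) {c : F} (hc : c ≠ 0) {N : ℕ} (hN : Nat.Coprime ℓ N)
  {g : F[X]} {f : R[X]} {fb : (ResidueField R)[X]}
  (hg : sg c g = C (algebraMap R F π ^ (N : ℤ)) * f.map (algebraMap R F))
  (hf : f.map (residue R) = fb)

include hπ hc hg hf in
lemma In.lift (q : R[X]) (s : ℤ) (t : ℕ) : In π c N (ℓ * s + t * N)
    (of g (C (algebraMap R F π ^ s) * sg c⁻¹ (q.map (algebraMap R F))) * yy ^ t : CoordRing ℓ g)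
    (of fb (q.map (residue R)) * yy ^ t : CoordRing ℓ fb) := by
  have h := In.mon (ℓ := ℓ) (c := c) (g := g) (k := ℓ * s + t * N) (m := s) (t := t) (q := q)
    (p := C (algebraMap R F π ^ s) * sg c⁻¹ (q.map (algebraMap R F))) hπ hg hf
    (by omega) (by rw [map_mul, sg_C, sg_sg (mul_inv_cancel₀ hc)])
  rwa [if_pos (by ring)] at h

include hπ hc hg hf in
lemma In.yy : In π c N N (MP1bdb59C.yy : CoordRing ℓ g) (MP1bdb59C.yy : CoordRing ℓ fb) := by
  have h := In.lift (ℓ := ℓ) hπ hc hg hf 1 0 1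
  simpa using h

include hN in
lemma exists_idx (k : ℤ) : ∃ i < ℓ, ∃ s : ℤ, k = i * N + ℓ * s := by
  have hℓ : (0 : ℤ) < ℓ := by exact_mod_cast hp.out.pos
  have h1 : IsCoprime (ℓ : ℤ) (N : ℤ) := Nat.isCoprime_iff_coprime.mpr hN
  obtain ⟨u, v, huv⟩ := h1
  have h2 := Int.emod_nonneg (k * v) hℓ.ne'
  have h3 := Int.emod_lt_of_pos (k * v) hℓ
  have h4 := Int.emod_add_mul_ediv (k * v) ℓ
  refine ⟨((k * v) % ℓ).toNat, by omega, (k * v) / ℓ * N + k * u, ?_⟩
  rw [Int.toNat_of_nonneg h2]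
  linear_combination (-k) * huv + (-(N : ℤ)) * h4

include hN in
lemma idx_unique {i i' : ℕ} (hi : i < ℓ) (hi' : i' < ℓ) {s s' : ℤ}
    (h : (i : ℤ) * N + ℓ * s = i' * N + ℓ * s') : i = i' := by
  have h1 : IsCoprime (ℓ : ℤ) (N : ℤ) := Nat.isCoprime_iff_coprime.mpr hN
  have h2 : (ℓ : ℤ) ∣ ((i : ℤ) - i') * N := ⟨s' - s, by linear_combination h⟩
  have h3 : (ℓ : ℤ) ∣ (i : ℤ) - i' := h1.dvd_of_dvd_mul_right h2
  obtain ⟨t, ht⟩ := h3
  have h4 : t = 0 := by
    have a1 : (i : ℤ) - i' < ℓ := by omega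
    have a2 : -(ℓ : ℤ) < (i : ℤ) - i' := by omega
    rw [ht] at a1 a2
    have hℓ : (0 : ℤ) < ℓ := by exact_mod_cast hp.out.pos
    have b1 : t < 1 := by
      by_contra h
      have := mul_le_mul_of_nonneg_left (not_lt.mp h) hℓ.le
      omega
    have b2 : -1 < t := by
      by_contra h
      have := mul_le_mul_of_nonneg_left (not_lt.mp h) hℓ.le
      omega
    omega
  rw [h4, mul_zero] at ht
  omega

include hN in
lemma In.single {k : ℤ} {z : CoordRing ℓ g} {w : CoordRing ℓ fb} (h : In π c N k z w) {i : ℕ}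
    (hi : i < ℓ) {s : ℤ} (hk : k = i * N + ℓ * s) : w = of fb (coef w i) * MP1bdb59C.yy ^ i := by
  apply coef_ext
  intro i' hi'
  rw [coef_of_mul_yy_pow _ hi]
  split_ifs with hii
  · rw [hii]
  · obtain ⟨m, q, h1, h2, h3⟩ := h i' hi'
    rw [h3, if_neg]
    intro h4
    exact hii (idx_unique hN hi' hi (s := m) (s' := s) (by omega))

/-- the ideal of the initial coefficients in degree `i` -/
def ini (𝔞 : Ideal (CoordRing ℓ g)) (i : ℕ) : Ideal (ResidueField R)[X] where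
  carrier := {p | ∃ z ∈ 𝔞, In π c N (i * N) z (of fb p * MP1bdb59C.yy ^ i : CoordRing ℓ fb)}
  add_mem' := by
    rintro p q ⟨z, hz, hz'⟩ ⟨w, hw, hw'⟩
    refine ⟨z + w, 𝔞.add_mem hz hw, ?_⟩
    rw [map_add, add_mul]
    exact hz'.add hπ hw'
  zero_mem' := by
    refine ⟨0, 𝔞.zero_mem, ?_⟩
    rw [map_zero, zero_mul]
    exact In.zero _
  smul_mem' := by
    rintro r p ⟨z, hz, hz'⟩
    obtain ⟨r', rfl⟩ := Polynomial.map_surjective _ residue_surjective r
    have h1 := In.lift (ℓ := ℓ) hπ hc hg hf r' 0 0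
    refine ⟨of g (C (algebraMap R F π ^ (0 : ℤ)) * sg c⁻¹ (r'.map (algebraMap R F))) *
        MP1bdb59C.yy ^ 0 * z, 𝔞.mul_mem_left _ hz, ?_⟩
    have h2 := h1.mul hπ hg hf hz'
    rw [smul_eq_mul]
    convert h2 using 1
    · simp
    · rw [map_mul, pow_zero, mul_one, mul_assoc]

lemma mem_ini {𝔞 : Ideal (CoordRing ℓ g)} {i : ℕ} {p : (ResidueField R)[X]} :
    p ∈ ini hπ hc hg hf 𝔞 i ↔
      ∃ z ∈ 𝔞, In π c N (i * N) z (of fb p * MP1bdb59C.yy ^ i : CoordRing ℓ fb) := Iff.rfl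

lemma ini_succ (𝔞 : Ideal (CoordRing ℓ g)) (i : ℕ) :
    ini hπ hc hg hf 𝔞 i ≤ ini hπ hc hg hf 𝔞 (i + 1) := by
  rintro p ⟨z, hz, hz'⟩
  refine ⟨MP1bdb59C.yy * z, 𝔞.mul_mem_left _ hz, ?_⟩
  have h := (In.yy (ℓ := ℓ) hπ hc hg hf).mul hπ hg hf hz'
  convert h using 1
  · push_cast; ring
  · rw [pow_succ]; ring

lemma ini_mono (𝔞 : Ideal (CoordRing ℓ g)) {i i' : ℕ} (h : i ≤ i') :
    ini hπ hc hg hf 𝔞 i ≤ ini hπ hc hg hf 𝔞 i' := by
  induction i', h using Nat.le_induction with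
  | base => exact le_rfl
  | succ n _ ih => exact ih.trans (ini_succ hπ hc hg hf 𝔞 n)

lemma ini_wrap (𝔞 : Ideal (CoordRing ℓ g)) {p : (ResidueField R)[X]}
    (h : p ∈ ini hπ hc hg hf 𝔞 (ℓ - 1)) : fb * p ∈ ini hπ hc hg hf 𝔞 0 := by
  obtain ⟨z, hz, hz'⟩ := h
  have h1 := (In.yy (ℓ := ℓ) hπ hc hg hf).mul hπ hg hf hz'
  have h2 := h1.scale hπ (-(N : ℤ))
  refine ⟨of g (C (algebraMap R F π ^ (-(N : ℤ)))) * (MP1bdb59C.yy * z),
    𝔞.mul_mem_left _ (𝔞.mul_mem_left _ hz), ?_⟩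
  convert h2 using 1
  · have := hp.out.pos
    push_cast [Nat.cast_sub this]
    ring
  · have h3 : (MP1bdb59C.yy : CoordRing ℓ fb) * MP1bdb59C.yy ^ (ℓ - 1) = of fb fb := by
      rw [← yy_pow, ← pow_succ', Nat.sub_add_cancel hp.out.pos]
    rw [pow_zero, mul_one, map_mul, ← h3]
    ring

include hN in
lemma coef_mem_ini (𝔞 : Ideal (CoordRing ℓ g)) {k : ℤ} {z : CoordRing ℓ g}
    {w : CoordRing ℓ fb} (hz : z ∈ 𝔞) (h : In π c N k z w) {i : ℕ}
    (hi : i < ℓ) {s : ℤ} (hk : k = i * N + ℓ * s) : coef w i ∈ ini hπ hc hg hf 𝔞 i := by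
  refine ⟨_, 𝔞.mul_mem_left (of g (C (algebraMap R F π ^ (-s)))) hz, ?_⟩
  rw [← h.single hN hi hk]
  have h2 := h.scale hπ (-s)
  convert h2 using 1
  rw [hk]; ring

include hπ hc hN hg hf in
lemma exists_gen (hirr : Irreducible fb) (𝔞 : Ideal (CoordRing ℓ g)) (h𝔞 : ∃ z ∈ 𝔞, z ≠ 0) :
    ∃ (k₀ : ℤ), ∃ z₀ ∈ 𝔞, ∃ w₀ : CoordRing ℓ fb, w₀ ≠ 0 ∧ In π c N k₀ z₀ w₀ ∧
      ∀ z ∈ 𝔞, ∀ (k : ℤ) (w : CoordRing ℓ fb), In π c N k z w →
        ∃ (v : CoordRing ℓ g) (v' : CoordRing ℓ fb), In π c N (k - k₀) v v' ∧ w = w₀ * v' := by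
  have hℓ := hp.out.pos
  obtain ⟨G, hG⟩ := (IsPrincipalIdealRing.principal (ini hπ hc hg hf 𝔞 (ℓ - 1))).principal
  have hG' : ∀ p, p ∈ ini hπ hc hg hf 𝔞 (ℓ - 1) ↔ G ∣ p := by
    intro p
    rw [hG]
    exact Ideal.mem_span_singleton
  have hGmem : G ∈ ini hπ hc hg hf 𝔞 (ℓ - 1) := (hG' G).mpr dvd_rfl
  have hG0 : G ≠ 0 := by
    rintro rfl
    obtain ⟨z, hz, hz0⟩ := h𝔞
    obtain ⟨k, w, h, hw⟩ := exists_In (N := N) hπ hc fb hz0
    obtain ⟨i, hi, s, hk⟩ := exists_idx hN k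
    have h1 := ini_mono hπ hc hg hf 𝔞 (show i ≤ ℓ - 1 by omega)
      (coef_mem_ini hπ hc hN hg hf 𝔞 hz h hi hk)
    rw [hG', zero_dvd_iff] at h1
    apply hw
    rw [h.single hN hi hk, h1, map_zero, zero_mul]
  have hdich : ∀ i < ℓ, G ∉ ini hπ hc hg hf 𝔞 i → ∀ p ∈ ini hπ hc hg hf 𝔞 i, fb * G ∣ p := by
    intro i hi hGi p hpi
    obtain ⟨D, hD⟩ := (IsPrincipalIdealRing.principal (ini hπ hc hg hf 𝔞 i)).principal
    have hD' : ∀ p, p ∈ ini hπ hc hg hf 𝔞 i ↔ D ∣ p := by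
      intro p
      rw [hD]
      exact Ideal.mem_span_singleton
    have h1 : G ∣ D := (hG' D).mp (ini_mono hπ hc hg hf 𝔞 (show i ≤ ℓ - 1 by omega)
      ((hD' D).mpr dvd_rfl))
    obtain ⟨E, rfl⟩ := h1
    have h2 : G * E ∣ fb * G := (hD' _).mp (ini_mono hπ hc hg hf 𝔞 (Nat.zero_le i)
      (ini_wrap hπ hc hg hf 𝔞 hGmem))
    rw [mul_comm fb G] at h2
    have h3 : E ∣ fb := (mul_dvd_mul_iff_left hG0).mp h2
    obtain ⟨E', hE'⟩ := h3
    rcases hirr.isUnit_or_isUnit hE' with hu | hu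
    · exfalso
      apply hGi
      rw [hD']
      exact (associated_mul_unit_left G E hu).dvd
    · have h4 : fb * G ∣ G * E := by
        rw [hE', mul_comm G E]
        exact mul_dvd_mul (associated_mul_unit_left E E' hu).dvd dvd_rfl
      exact h4.trans ((hD' p).mp hpi)
  let e := Nat.find (p := fun i => G ∈ ini hπ hc hg hf 𝔞 i) ⟨ℓ - 1, hGmem⟩
  have he : G ∈ ini hπ hc hg hf 𝔞 e :=
    Nat.find_spec (p := fun i => G ∈ ini hπ hc hg hf 𝔞 i) ⟨ℓ - 1, hGmem⟩
  have he' : e ≤ ℓ - 1 :=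
    Nat.find_min' (p := fun i => G ∈ ini hπ hc hg hf 𝔞 i) ⟨ℓ - 1, hGmem⟩ hGmem
  have hmin : ∀ i < e, G ∉ ini hπ hc hg hf 𝔞 i := fun i hi =>
    Nat.find_min (p := fun i => G ∈ ini hπ hc hg hf 𝔞 i) ⟨ℓ - 1, hGmem⟩ hi
  obtain ⟨z₀, hz₀, hz₀'⟩ := he
  refine ⟨e * N, z₀, hz₀, of fb G * MP1bdb59C.yy ^ e, ?_, hz₀', ?_⟩
  · intro h0
    have h1 : coef (of fb G * MP1bdb59C.yy ^ e : CoordRing ℓ fb) e = 0 := by
      rw [h0, coef_zero]
    rw [coef_of_mul_yy_pow _ (by omega), if_pos rfl] at h1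
    exact hG0 h1
  · intro z hz k w h
    obtain ⟨i, hi, s, hk⟩ := exists_idx hN k
    have hw := h.single hN hi hk
    have hmem := coef_mem_ini hπ hc hN hg hf 𝔞 hz h hi hk
    by_cases hie : e ≤ i
    · obtain ⟨u, hu⟩ := (hG' _).mp (ini_mono hπ hc hg hf 𝔞 (show i ≤ ℓ - 1 by omega) hmem)
      obtain ⟨u', rfl⟩ := Polynomial.map_surjective _ residue_surjective u
      have h1 := In.lift (ℓ := ℓ) hπ hc hg hf u' s (i - e)
      refine ⟨of g (C (algebraMap R F π ^ s) * sg c⁻¹ (u'.map (algebraMap R F))) *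
          MP1bdb59C.yy ^ (i - e), of fb (u'.map (residue R)) * MP1bdb59C.yy ^ (i - e), ?_, ?_⟩
      · convert h1 using 1
        rw [hk]
        push_cast [Nat.cast_sub hie]
        ring
      · rw [hw, hu, map_mul]
        have : (MP1bdb59C.yy : CoordRing ℓ fb) ^ i =
            MP1bdb59C.yy ^ e * MP1bdb59C.yy ^ (i - e) := by
          rw [← pow_add]
          congr 1
          omega
        rw [this]
        ring
    · obtain ⟨u, hu⟩ := hdich i hi (hmin i (not_le.mp hie)) _ hmem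
      obtain ⟨u', rfl⟩ := Polynomial.map_surjective _ residue_surjective u
      have h1 := In.lift (ℓ := ℓ) hπ hc hg hf u' (s - N) (ℓ + i - e)
      refine ⟨of g (C (algebraMap R F π ^ (s - N)) * sg c⁻¹ (u'.map (algebraMap R F))) *
          MP1bdb59C.yy ^ (ℓ + i - e),
        of fb (u'.map (residue R)) * MP1bdb59C.yy ^ (ℓ + i - e), ?_, ?_⟩
      · convert h1 using 1
        rw [hk]
        push_cast [Nat.cast_sub (show e ≤ ℓ + i by omega)]
        ring
      · rw [hw, hu, map_mul, map_mul]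
        have h3 : (of fb fb : CoordRing ℓ fb) * MP1bdb59C.yy ^ i =
            MP1bdb59C.yy ^ e * MP1bdb59C.yy ^ (ℓ + i - e) := by
          rw [← yy_pow, ← pow_add, ← pow_add]
          congr 1
          omega
        calc of fb fb * of fb G * of fb (u'.map (residue R)) * MP1bdb59C.yy ^ i =
            of fb G * of fb (u'.map (residue R)) * (of fb fb * MP1bdb59C.yy ^ i) := by ring
          _ = _ := by rw [h3]; ring

include hπ hg in
lemma Ge.mul {k k' : ℤ} {z z' : CoordRing ℓ g} (h : Ge π c N k z) (h' : Ge π c N k' z') :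
    Ge π c N (k + k') (z * z') := by
  obtain ⟨w, hw⟩ := h.exists_In (f.map (residue R))
  obtain ⟨w', hw'⟩ := h'.exists_In (f.map (residue R))
  exact (hw.mul hπ hg rfl hw').ge

include hπ in
lemma Ge.add {k : ℤ} {z z' : CoordRing ℓ g} (h : Ge π c N k z) (h' : Ge π c N k z') :
    Ge π c N k (z + z') := by
  obtain ⟨w, hw⟩ := h.exists_In (0 : (ResidueField R)[X])
  obtain ⟨w', hw'⟩ := h'.exists_In (0 : (ResidueField R)[X])
  exact (hw.add hπ hw').ge

lemma Ge.zero (k : ℤ) : Ge π c N k (0 : CoordRing ℓ g) :=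
  (In.zero (fb := (0 : (ResidueField R)[X])) k).ge

/-- the elements that are divisible by `n` up to elements of arbitrarily high order. -/
def App (n : CoordRing ℓ g) : Ideal (CoordRing ℓ g) where
  carrier := {x | ∀ M : ℤ, ∃ v, Ge π c N M (x - n * v)}
  add_mem' := by
    intro x y hx hy M
    obtain ⟨v, hv⟩ := hx M
    obtain ⟨v', hv'⟩ := hy M
    refine ⟨v + v', ?_⟩
    have := hv.add hπ hv'
    convert this using 1
    ring
  zero_mem' := by
    intro M
    refine ⟨0, ?_⟩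
    rw [mul_zero, sub_zero]
    exact Ge.zero M
  smul_mem' := by
    intro s x hx M
    obtain ⟨k, hk⟩ := exists_ge (N := N) hπ hc s
    obtain ⟨v, hv⟩ := hx (M - k)
    refine ⟨s * v, ?_⟩
    have := hk.mul hπ hg hv
    rw [smul_eq_mul]
    convert this using 1
    · ring
    · ring

lemma mem_App {n x : CoordRing ℓ g} :
    x ∈ App hπ hc hg n ↔ ∀ M : ℤ, ∃ v, Ge π c N M (x - n * v) := Iff.rfl

lemma App_mul {I J : Ideal (CoordRing ℓ g)} {n n' : CoordRing ℓ g} (hI : I ≤ App hπ hc hg n)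
    (hJ : J ≤ App hπ hc hg n') : I * J ≤ App hπ hc hg (n * n') := by
  rw [Ideal.mul_le]
  intro a ha b hb M
  obtain ⟨k, hk⟩ := exists_ge (N := N) hπ hc a
  obtain ⟨v', hv'⟩ := hJ hb (M - k)
  obtain ⟨k', hk'⟩ := exists_ge (N := N) hπ hc (n' * v')
  obtain ⟨v, hv⟩ := hI ha (M - k')
  refine ⟨v * v', ?_⟩
  have h1 := hk.mul hπ hg hv'
  have h2 := hk'.mul hπ hg hv
  rw [add_sub_cancel] at h1 h2
  have := h1.add hπ h2
  convert this using 1
  ring

section

variable {ζ : R} (hζ : algebraMap R F ζ ^ ℓ = 1)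

lemma Ge.tau' {k : ℤ} {z : CoordRing ℓ g} (h : Ge π c N k z) : Ge π c N k (tau hζ g z) := by
  intro i hi
  obtain ⟨m, q, h1, h2⟩ := h i hi
  refine ⟨m, C (ζ ^ i) * q, h1, ?_⟩
  rw [coef_tau, map_mul, sg_C, h2, Polynomial.map_mul, map_C]
  simp only [map_pow]
  ring

lemma App_tau {I : Ideal (CoordRing ℓ g)} {n : CoordRing ℓ g} (hI : I ≤ App hπ hc hg n) :
    I.map (tau hζ g) ≤ App hπ hc hg (tau hζ g n) := by
  rw [Ideal.map_le_iff_le_comap]
  intro x hx
  rw [Ideal.mem_comap]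
  intro M
  obtain ⟨v, hv⟩ := hI hx M
  refine ⟨tau hζ g v, ?_⟩
  have := hv.tau' hζ
  rwa [map_sub, map_mul] at this

end

lemma App_nrm {ζ : F} {ζ₀ : R} (hζ₀ : algebraMap R F ζ₀ = ζ) (hζ : IsPrimitiveRoot ζ ℓ)
    {I : Ideal (CoordRing ℓ g)}
    {n : CoordRing ℓ g} (hI : I ≤ App hπ hc hg n) (r : ℕ) :
    nrm (tauI hζ) r I ≤ App hπ hc hg (nrm (tau hζ.pow_eq_one g) r n) := by
  subst hζ₀
  induction r with
  | zero =>
    have e1 : nrm (tau hζ.pow_eq_one g) 0 n = 1 := rfl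
    rw [e1]
    intro x _ M
    refine ⟨x, ?_⟩
    rw [one_mul, sub_self]
    exact Ge.zero M
  | succ r ih =>
    rw [nrm_succ, nrm_succ]
    exact App_mul hπ hc hg hI (App_tau hπ hc hg hζ.pow_eq_one ih)

include hπ hc hN hg hf in
/-- Approximation by multiples of `z₀`. -/
lemma le_App (hirr : Irreducible fb) (𝔞 : Ideal (CoordRing ℓ g)) (h𝔞 : ∃ z ∈ 𝔞, z ≠ 0) :
    ∃ (k₀ : ℤ), ∃ z₀ ∈ 𝔞, ∃ w₀ : CoordRing ℓ fb, w₀ ≠ 0 ∧ In π c N k₀ z₀ w₀ ∧
      𝔞 ≤ App hπ hc hg z₀ := by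
  obtain ⟨k₀, z₀, hz₀, w₀, hw₀, h₀, H⟩ := exists_gen hπ hc hN hg hf hirr 𝔞 h𝔞
  refine ⟨k₀, z₀, hz₀, w₀, hw₀, h₀, ?_⟩
  intro x hx
  rw [mem_App]
  obtain ⟨k, hk⟩ := exists_ge (N := N) hπ hc x
  have key : ∀ d : ℕ, ∃ v, Ge π c N (k + d) (x - z₀ * v) := by
    intro d
    induction d with
    | zero =>
      refine ⟨0, ?_⟩
      rw [mul_zero, sub_zero, Nat.cast_zero, add_zero]
      exact hk
    | succ d ih =>
      obtain ⟨v, hv⟩ := ih
      obtain ⟨w, hw⟩ := hv.exists_In fb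
      obtain ⟨v₁, v₁', hv₁, hv₁'⟩ := H _ (𝔞.sub_mem hx (𝔞.mul_mem_right v hz₀)) _ _ hw
      refine ⟨v + v₁, ?_⟩
      have h1 := h₀.mul hπ hg hf hv₁
      rw [add_sub_cancel] at h1
      have h2 := hw.sub hπ h1
      rw [hv₁', sub_self] at h2
      have h3 := h2.succ hπ
      convert h3 using 1
      · push_cast; ring
      · ring
  intro M
  obtain ⟨v, hv⟩ := key (M - k).toNat
  exact ⟨v, hv.mono (by omega)⟩

lemma nrm_mem' {ζ : F} (hζ : IsPrimitiveRoot ζ ℓ) {I : Ideal (CoordRing ℓ g)}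
    {z : CoordRing ℓ g} (hz : z ∈ I) (r : ℕ) :
    nrm (tau hζ.pow_eq_one g) r z ∈ nrm (tauI hζ) r I := by
  induction r with
  | zero =>
    have e1 : nrm (tauI hζ) 0 I = 1 := rfl
    rw [e1, Ideal.one_eq_top]
    trivial
  | succ r ih =>
    rw [nrm_succ, nrm_succ]
    exact Ideal.mul_mem_mul hz (Ideal.mem_map_of_mem _ ih)

lemma nrm_ne_zero' [Good ℓ g] {ζ : F} (hζ : IsPrimitiveRoot ζ ℓ) {z : CoordRing ℓ g} (hz : z ≠ 0)
    (r : ℕ) : nrm (tau hζ.pow_eq_one g) r z ≠ 0 := by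
  induction r with
  | zero => exact one_ne_zero
  | succ r ih =>
    rw [nrm_succ]
    exact mul_ne_zero hz ((map_ne_zero_iff _ (tau_injective hζ.pow_eq_one)).mpr ih)

lemma red_nrm {ζ : F} (hζ : IsPrimitiveRoot ζ ℓ) (z : CoordRing ℓ g)
    (r : ℕ) : red g (nrm (tau hζ.pow_eq_one g) r z) = red g z ^ r := by
  induction r with
  | zero => rw [pow_zero]; exact map_one _
  | succ r ih => rw [nrm_succ, map_mul, red_tau, ih, pow_succ']

include hπ hc hN hg hf in
/-- the norm of `z₀`. -/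
lemma exists_norm_eq [Good ℓ g] [Good ℓ fb] (hirr : Irreducible fb) {ζ₀ : R}
    (hζ : IsPrimitiveRoot (algebraMap R F ζ₀) ℓ) (hζ' : IsPrimitiveRoot (residue R ζ₀) ℓ)
    (𝔞 : Ideal (CoordRing ℓ g)) (a : F[X])
    (hs : ∃ s ∈ 𝔞, red g s = 1) (hNa : MP1bdb59C.nrm (tauI hζ) ℓ 𝔞 = Ideal.span {of g a}) :
    ∃ (p b : F[X]) (m : ℤ) (q : R[X]) (ε : ResidueField R), ε ≠ 0 ∧
      AdjoinRoot.mk g (a * b) = AdjoinRoot.mk g p ^ ℓ ∧ IsUnit (AdjoinRoot.mk g a) ∧
      sg c b = C (algebraMap R F π ^ m) * q.map (algebraMap R F) ∧ q.map (residue R) = C ε := by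
  have hℓ := hp.out.pos
  -- the value of `a` is a unit
  have hau : IsUnit (AdjoinRoot.mk g a) := by
    obtain ⟨s, hs, hs1⟩ := hs
    have h1 := nrm_mem' hζ hs ℓ
    rw [hNa, Ideal.mem_span_singleton] at h1
    obtain ⟨t, ht⟩ := h1
    have h2 := congrArg (red g) ht
    rw [red_nrm hζ, hs1, one_pow, map_mul, red_of] at h2
    exact IsUnit.of_mul_eq_one _ h2.symm
  have h𝔞 : ∃ z ∈ 𝔞, z ≠ 0 := by
    obtain ⟨s, hs, hs1⟩ := hs
    refine ⟨s, hs, ?_⟩
    rintro rfl
    rw [map_zero] at hs1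
    have hn : (AdjoinRoot.mk g (0 : F[X])) = AdjoinRoot.mk g 1 := by
      rw [map_zero, map_one, hs1]
    have h2 : g ∣ 1 := by
      rw [← AdjoinRoot.mk_eq_zero, ← hn, map_zero]
    have h3 := Good.natDegree_ne ℓ (f := g)
    exact h3 (natDegree_eq_zero_of_isUnit (isUnit_of_dvd_one h2))
  obtain ⟨k₀, z₀, hz₀, w₀, hw₀, h₀, H⟩ := le_App hπ hc hN hg hf hirr 𝔞 h𝔞
  have hz₀0 : z₀ ≠ 0 := by
    rintro rfl
    exact hw₀ (h₀.unique hπ (In.zero k₀))
  have hA := App_nrm hπ hc hg rfl hζ H ℓ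
  rw [hNa] at hA
  have hB := nrm_mem' hζ hz₀ ℓ
  rw [hNa, Ideal.mem_span_singleton] at hB
  obtain ⟨b, hb⟩ := hB
  set n₀ := MP1bdb59C.nrm (tau hζ.pow_eq_one g) ℓ z₀ with hn₀
  set nw := MP1bdb59C.nrm (tau hζ'.pow_eq_one fb) ℓ w₀ with hnw
  have hn₀0 : n₀ ≠ 0 := nrm_ne_zero' hζ hz₀0 ℓ
  have hnw0 : nw ≠ 0 := nrm_ne_zero' hζ' hw₀ ℓ
  have hIn : In π c N (ℓ * k₀) n₀ nw := h₀.nrm' hπ hζ.pow_eq_one hζ'.pow_eq_one hg hf ℓ
  have ha0 : (of g a : CoordRing ℓ g) ≠ 0 := by
    intro h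
    rw [h, zero_mul] at hb
    exact hn₀0 hb
  have hb0 : b ≠ 0 := by
    rintro rfl
    rw [mul_zero] at hb
    exact hn₀0 hb
  obtain ⟨ka, wa, hwa, hwa0⟩ := exists_In (N := N) hπ hc fb ha0
  obtain ⟨kb, wb, hwb, hwb0⟩ := exists_In (N := N) hπ hc fb hb0
  have h1 := hwa.mul hπ hg hf hwb
  rw [← hb] at h1
  obtain ⟨e1, e2⟩ := hIn.eq_of_ne hπ h1 hnw0 (mul_ne_zero hwa0 hwb0)
  obtain ⟨v, hv⟩ := hA (Ideal.mem_span_singleton_self _) (ka + 1)
  have h2 : In π c N ka (n₀ * v) wa := by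
    have := hwa.sub hπ (hv.in_zero (fb := fb) (lt_add_one ka))
    convert this using 1
    · ring
    · ring
  have hv0 : v ≠ 0 := by
    rintro rfl
    rw [mul_zero] at h2
    exact hwa0 (h2.unique hπ (In.zero ka))
  obtain ⟨kv, wv, hwv, hwv0⟩ := exists_In (N := N) hπ hc fb hv0
  obtain ⟨e3, e4⟩ := h2.eq_of_ne hπ (hIn.mul hπ hg hf hwv) hwa0 (mul_ne_zero hnw0 hwv0)
  have hunit : IsUnit wb := by
    rw [e2, mul_assoc] at e4
    have : wa * (wb * wv) = wa * 1 := by rw [← e4, mul_one]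
    exact IsUnit.of_mul_eq_one _ (mul_left_cancel₀ hwa0 this)
  obtain ⟨ε, hε, rfl⟩ := exists_const_of_isUnit hunit
  obtain ⟨m, q, hq1, hq2, hq3⟩ := hwb 0 hℓ
  rw [coef_of, if_pos rfl] at hq3
  refine ⟨coef z₀ 0, coef b 0, m, q, ε, hε, ?_, hau, hq2, ?_⟩
  · rw [← red_eq, ← red_nrm hζ, ← hn₀, hb, map_mul, map_mul, red_of, red_eq]
  · split_ifs at hq3 with hm
    · exact hq3.symm
    · exfalso
      exact hε (C_eq_zero.mp hq3)

end Initial

end Twist

open Twist in
/-- B1 (lemma beta). `R` a discrete valuation ring with uniformizer `π` and residue field `κ`,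
`f` in `R[x]` monic with irreducible reduction; the superelliptic curve is
`y^ℓ = π^(jn) f(x/π^j)`, `ℓ ∤ j`. -/
theorem twisted_norm {R : Type*} [CommRing R] [IsDomain R] [IsDiscreteValuationRing R]
    {F : Type*} [Field F] [Algebra R F] [IsFractionRing R F] {ℓ : ℕ} [hp : Fact ℓ.Prime]
    {π : R} (hπ : Irreducible π) {f : R[X]} (hf : f.Monic)
    [hgood : Good ℓ (f.map (IsLocalRing.residue R))]
    (hirr : Irreducible (f.map (IsLocalRing.residue R)))
    {ζ : R} (hζ : IsPrimitiveRoot (algebraMap R F ζ) ℓ)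
    (hζ' : IsPrimitiveRoot (IsLocalRing.residue R ζ) ℓ)
    {j : ℕ} (hj : ¬ ℓ ∣ j) {g : F[X]} [hg : Good ℓ g]
    (hgf : g = (f.scaleRoots (π ^ j)).map (algebraMap R F))
    (𝔞 : Ideal (CoordRing ℓ g)) (a : F[X]) (hs : ∃ s ∈ 𝔞, red g s = 1)
    (hN : nrm (tauI hζ) ℓ 𝔞 = Ideal.span {of g a}) :
    ∃ (c : F) (q : R[X]) (e : IsLocalRing.ResidueField R)
      (b : AdjoinRoot (f.map (IsLocalRing.residue R))),
      c ≠ 0 ∧ e ≠ 0 ∧ b ≠ 0 ∧
      f.map (algebraMap R F) ∣
        a.comp (C (algebraMap R F (π ^ j)) * X) - C c * q.map (algebraMap R F) ∧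
      AdjoinRoot.mk (f.map (IsLocalRing.residue R)) (q.map (IsLocalRing.residue R)) =
        AdjoinRoot.of _ e * b ^ ℓ := by
  have hπ0 : algebraMap R F π ≠ 0 := ne0 hπ
  set c : F := algebraMap R F (π ^ j) with hcdef
  have hc : c ≠ 0 := by
    rw [hcdef, map_pow]
    exact pow_ne_zero _ hπ0
  set n := f.natDegree with hn
  have hnb : (f.map (IsLocalRing.residue R)).natDegree = n := hf.natDegree_map _
  have hnF : (f.map (algebraMap R F)).natDegree = n := hf.natDegree_map _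
  have hfF : (f.map (algebraMap R F)).Monic := hf.map _
  have hcop : Nat.Coprime ℓ (j * n) := by
    rw [Nat.coprime_mul_iff_right]
    refine ⟨(Nat.Prime.coprime_iff_not_dvd hp.out).mpr hj, ?_⟩
    rw [← hnb]
    exact Good.coprime
  have hsg : sg c g = C (algebraMap R F π ^ ((j * n : ℕ) : ℤ)) * f.map (algebraMap R F) := by
    rw [sg_apply, hgf]
    ext i
    rw [comp_C_mul_X_coeff, coeff_map, coeff_scaleRoots, coeff_C_mul, coeff_map, map_mul,
      zpow_natCast, hcdef, map_pow, map_pow]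
    by_cases hi : i ≤ n
    · rw [mul_assoc, ← pow_mul, ← pow_mul, ← pow_add, ← mul_add, Nat.sub_add_cancel hi, mul_comm]
    · rw [coeff_eq_zero_of_natDegree_lt (not_le.mp hi), map_zero, zero_mul, zero_mul, mul_zero]
  obtain ⟨p, b, mb, qb, ε, hε, hmk, hau, hb, hqb⟩ := Twist.exists_norm_eq hπ hc hcop hsg rfl hirr hζ hζ'
    𝔞 a hs hN
  have hn0 : n ≠ 0 := by
    rw [← hnb]
    exact Good.natDegree_ne ℓ
  have hinj : Function.Injective (algebraMap R F) := IsFractionRing.injective R F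
  have hfg : f.map (algebraMap R F) ∣ sg c g := by
    rw [hsg]
    exact dvd_mul_left _ _
  -- the congruence
  have hdiv : f.map (algebraMap R F) ∣ sg c a * sg c b - sg c p ^ ℓ := by
    rw [← map_pow (AdjoinRoot.mk g), AdjoinRoot.mk_eq_mk] at hmk
    have := hfg.trans (map_dvd (sg c) hmk)
    rwa [map_sub, map_mul, map_pow] at this
  -- representatives
  have hrep : ∀ P : F[X], ¬ f.map (algebraMap R F) ∣ P → ∃ (m : ℤ) (Q : R[X]),
      f.map (algebraMap R F) ∣ P - C (algebraMap R F π ^ m) * Q.map (algebraMap R F) ∧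
        ¬ f.map (IsLocalRing.residue R) ∣ Q.map (IsLocalRing.residue R) := by
    intro P hP
    have h0 : P %ₘ f.map (algebraMap R F) ≠ 0 := fun h =>
      hP ((modByMonic_eq_zero_iff_dvd hfF).mp h)
    obtain ⟨m, Q, hQ, hQ0⟩ := exists_prim hπ h0
    refine ⟨m, Q, ?_, ?_⟩
    · rw [← hQ]
      exact ⟨P /ₘ f.map (algebraMap R F), by
        linear_combination (-1 : F[X]) * modByMonic_add_div P (f.map (algebraMap R F))⟩
    · have h1 : natDegree (P %ₘ f.map (algebraMap R F)) < n := by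
        rw [← hnF]
        exact natDegree_modByMonic_lt _ hfF (fun h => hn0 (by rw [← hnF, h, natDegree_one]))
      rw [hQ, natDegree_C_mul (zpow_ne_zero _ hπ0), natDegree_map_eq_of_injective hinj] at h1
      apply not_dvd_of_natDegree_lt hQ0
      rw [hnb]
      exact natDegree_map_le.trans_lt h1
  -- comparison
  have hcmp : ∀ (X Y : R[X]) (m m' : ℤ), m ≤ m' →
      f.map (algebraMap R F) ∣ C (algebraMap R F π ^ m) * X.map (algebraMap R F) -
        C (algebraMap R F π ^ m') * Y.map (algebraMap R F) →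
      f ∣ X - C (π ^ (m' - m).toNat) * Y := by
    intro X Y m m' hm h
    rw [← map_dvd_map (algebraMap R F) hinj hf]
    have h1 := h.mul_left (C (algebraMap R F π ^ (-m)))
    convert h1 using 1
    rw [mul_sub, ← mul_assoc, ← mul_assoc, ← C_mul, ← C_mul, ← zpow_add₀ hπ0, ← zpow_add₀ hπ0,
      neg_add_cancel, zpow_zero, C_1, one_mul, Polynomial.map_sub, Polynomial.map_mul, map_C,
      map_pow]
    congr 3
    have h2 : -m + m' = (((m' - m).toNat : ℕ) : ℤ) := by omega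
    rw [h2, zpow_natCast]
  have hna : ¬ f.map (algebraMap R F) ∣ sg c a := by
    intro h
    obtain ⟨a', ha'⟩ := isUnit_iff_exists_inv.mp hau
    obtain ⟨a', rfl⟩ := AdjoinRoot.mk_surjective a'
    rw [← map_mul, ← map_one (AdjoinRoot.mk g), AdjoinRoot.mk_eq_mk] at ha'
    have h1 := hfg.trans (map_dvd (sg c) ha')
    rw [map_sub, map_mul, map_one] at h1
    have h2 : f.map (algebraMap R F) ∣ 1 := by
      have := dvd_sub (h.mul_right (sg c a')) h1
      rwa [sub_sub_cancel] at this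
    apply hn0
    rw [← hnF]
    exact natDegree_eq_zero_of_isUnit (isUnit_of_dvd_one h2)
  obtain ⟨s, A, hA, hA0⟩ := hrep _ hna
  have hAq : ¬ f.map (IsLocalRing.residue R) ∣ (A * qb).map (IsLocalRing.residue R) := by
    rw [Polynomial.map_mul, hqb]
    intro h
    apply hA0
    have := h.mul_right (C ε⁻¹)
    rwa [mul_assoc, ← C_mul, mul_inv_cancel₀ hε, C_1, mul_one] at this
  have hab : f.map (algebraMap R F) ∣ sg c a * sg c b -
      C (algebraMap R F π ^ (s + mb)) * (A * qb).map (algebraMap R F) := by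
    have h1 := hA.mul_right (sg c b)
    convert h1 using 1
    rw [hb, zpow_add₀ hπ0, C_mul, Polynomial.map_mul]
    ring
  have hnp : ¬ f.map (algebraMap R F) ∣ sg c p := by
    intro h
    have h1 : f.map (algebraMap R F) ∣ sg c a * sg c b := by
      have := dvd_add hdiv (dvd_pow h hp.out.ne_zero)
      rwa [sub_add_cancel] at this
    have h2 := dvd_sub h1 hab
    rw [sub_sub_cancel] at h2
    have h3 := hcmp (A * qb) 0 (s + mb) (s + mb) le_rfl (by
      rw [Polynomial.map_zero, mul_zero, sub_zero]; exact h2)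
    rw [mul_zero, sub_zero] at h3
    exact hAq (Polynomial.map_dvd _ h3)
  obtain ⟨r, P, hP, hP0⟩ := hrep _ hnp
  have hpp : f.map (algebraMap R F) ∣ sg c p ^ ℓ -
      C (algebraMap R F π ^ (r * ℓ)) * (P ^ ℓ).map (algebraMap R F) := by
    have h1 := hP.trans (sub_dvd_pow_sub_pow _ _ ℓ)
    convert h1 using 1
    rw [mul_pow, ← C_pow, zpow_mul, zpow_natCast, Polynomial.map_pow]
  have hmain : f.map (algebraMap R F) ∣
      C (algebraMap R F π ^ (s + mb)) * (A * qb).map (algebraMap R F) -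
        C (algebraMap R F π ^ (r * ℓ)) * (P ^ ℓ).map (algebraMap R F) := by
    have h1 := dvd_sub (dvd_add hpp hdiv) hab
    convert h1 using 1
    ring
  have hprime : Prime (f.map (IsLocalRing.residue R)) := hirr.prime
  have hPP : ¬ f.map (IsLocalRing.residue R) ∣ (P ^ ℓ).map (IsLocalRing.residue R) := by
    rw [Polynomial.map_pow]
    exact fun h => hP0 (hprime.dvd_of_dvd_pow h)
  have heq : s + mb = r * ℓ := by
    rcases lt_trichotomy (s + mb) (r * ℓ) with h | h | h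
    · exfalso
      have h1 := Polynomial.map_dvd (IsLocalRing.residue R) (hcmp _ _ _ _ h.le hmain)
      rw [Polynomial.map_sub, map_residue_pi_pow_mul hπ (by omega), sub_zero] at h1
      exact hAq h1
    · exact h
    · exfalso
      have h1 := Polynomial.map_dvd (IsLocalRing.residue R) (hcmp _ _ _ _ h.le
        ((dvd_sub_comm).mp hmain))
      rw [Polynomial.map_sub, map_residue_pi_pow_mul hπ (by omega), sub_zero] at h1
      exact hPP h1
  have hfin := Polynomial.map_dvd (IsLocalRing.residue R) (hcmp _ _ _ _ heq.le hmain)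
  rw [heq, sub_self, Int.toNat_zero, pow_zero, C_1, one_mul, Polynomial.map_sub,
    ← AdjoinRoot.mk_eq_mk, Polynomial.map_mul, map_mul, hqb, AdjoinRoot.mk_C,
    Polynomial.map_pow, map_pow] at hfin
  refine ⟨algebraMap R F π ^ s, A, ε⁻¹, AdjoinRoot.mk _ (P.map (IsLocalRing.residue R)),
    zpow_ne_zero _ hπ0, inv_ne_zero hε, ?_, hA, ?_⟩
  · rw [Ne, AdjoinRoot.mk_eq_zero]
    exact hP0
  · rw [← hfin, mul_comm (AdjoinRoot.mk _ _), ← mul_assoc, ← map_mul, inv_mul_cancel₀ hε,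
      map_one, one_mul]

end Pool.Agent.MP1bdb59C
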