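import Mathlib
import Pool.Agent.MP1bdb59C.Twist
import Pool.Agent.MP1bdb59C.Scale
import Pool.Agent.MP1bdb59C.Dvr

/-!
# Constant classes at a place where the twist ramifies
-/

open Polynomial

noncomputable section

open scoped Classical WithZero

namespace Pool.Agent.MP1bdb59C

section UnitPart

variable {F : Type*} [Field F] {v : Valuation F ℤᵐ⁰}

/-- Nonzero elements of `F[x]/(f)` have a 'unit part' when the reduction of `f` is irreducible
of the same degree. -/
lemma exists_unit_part {f : (v.valuationSubring)[X]} (hf : f.Monic) {f' : F[X]}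
    (hf' : f.map (algebraMap v.valuationSubring F) = f')
    {fb : (IsLocalRing.ResidueField v.valuationSubring)[X]}
    (hfb : f.map (IsLocalRing.residue v.valuationSubring) = fb)
    (Z : AdjoinRoot f') (hZ : Z ≠ 0) :
    ∃ (γ : F) (Z₀ : AdjoinRoot f), γ ≠ 0 ∧
      Z = AdjoinRoot.of _ γ * lamMap (algebraMap v.valuationSubring F) hf' Z₀ ∧
      lamMap (IsLocalRing.residue v.valuationSubring) hfb Z₀ ≠ 0 := by
  subst hf'
  subst hfb
  have hfm : (f.map (algebraMap v.valuationSubring F)).Monic := hf.map _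
  have hnt : Nontrivial (v.valuationSubring) := inferInstance
  obtain ⟨P', rfl⟩ := AdjoinRoot.mk_surjective Z
  set P := P' %ₘ (f.map (algebraMap v.valuationSubring F)) with hP
  have hPP : AdjoinRoot.mk (f.map (algebraMap v.valuationSubring F)) P' =
      AdjoinRoot.mk (f.map (algebraMap v.valuationSubring F)) P := by
    rw [AdjoinRoot.mk_eq_mk]
    have := modByMonic_add_div P' (f.map (algebraMap v.valuationSubring F))
    exact ⟨P' /ₘ (f.map (algebraMap v.valuationSubring F)), by rw [hP]; linear_combination -this⟩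
  rw [hPP] at hZ ⊢
  have hP0 : P ≠ 0 := by
    intro h0
    rw [h0, map_zero] at hZ
    exact hZ rfl
  have hdeg : P.degree < (f.map (algebraMap v.valuationSubring F)).degree :=
    degree_modByMonic_lt _ hfm
  -- the coefficient of largest valuation
  obtain ⟨i, hi, hmax⟩ := Finset.exists_max_image P.support (fun i => v (P.coeff i))
    (support_nonempty.mpr hP0)
  set γ := P.coeff i with hγ
  have hγ0 : γ ≠ 0 := mem_support_iff.mp hi
  have hmax' : ∀ n, v (P.coeff n) ≤ v γ := by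
    intro n
    by_cases hn : n ∈ P.support
    · exact hmax n hn
    · rw [notMem_support_iff.mp hn, map_zero]
      exact zero_le
  have hvγ : v γ ≠ 0 := by rwa [Ne, map_eq_zero]
  have hlift : C γ⁻¹ * P ∈ lifts (algebraMap v.valuationSubring F) := by
    rw [lifts_iff_coeff_lifts]
    intro n
    rw [coeff_C_mul]
    refine ⟨⟨γ⁻¹ * P.coeff n, ?_⟩, rfl⟩
    rw [Valuation.mem_valuationSubring_iff, map_mul, map_inv₀, mul_comm]
    exact mul_inv_le_one_of_le₀ (hmax' n) zero_le
  rw [mem_lifts] at hlift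
  obtain ⟨P₀, hP₀⟩ := hlift
  have hci : P₀.coeff i = 1 := by
    apply IsFractionRing.injective v.valuationSubring F
    rw [← coeff_map, hP₀, coeff_C_mul, ← hγ, inv_mul_cancel₀ hγ0, map_one]
  refine ⟨γ, AdjoinRoot.mk f P₀, hγ0, ?_, ?_⟩
  · rw [lamMap_mk, hP₀, map_mul, ← mul_assoc, AdjoinRoot.mk_C, ← map_mul, mul_inv_cancel₀ hγ0,
      map_one, one_mul]
  · rw [lamMap_mk, Ne, AdjoinRoot.mk_eq_zero]
    intro hdvd
    have h1 : P₀.map (IsLocalRing.residue v.valuationSubring) ≠ 0 := by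
      intro h0
      have h2 := congrArg (fun q => q.coeff i) h0
      simp only [coeff_map, hci, map_one, coeff_zero] at h2
      exact one_ne_zero h2
    have h2 := degree_le_of_dvd hdvd h1
    have h3 : (f.map (IsLocalRing.residue v.valuationSubring)).degree = f.degree :=
      hf.degree_map _
    have h4 : (P₀.map (IsLocalRing.residue v.valuationSubring)).degree ≤ P₀.degree :=
      degree_map_le
    have h5 : P₀.degree = P.degree := by
      rw [← degree_map_eq_of_injective (IsFractionRing.injective v.valuationSubring F), hP₀,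
        degree_C_mul (inv_ne_zero hγ0)]
    have h6 : (f.map (algebraMap v.valuationSubring F)).degree = f.degree := hf.degree_map _
    rw [h6] at hdeg
    rw [h3] at h2
    exact absurd (h2.trans (h4.trans h5.le)) (not_le_of_gt hdeg)

end UnitPart

section Const

variable {F₀ F : Type*} [Field F₀] [Field F] {v : Valuation F ℤᵐ⁰}
  [IsDiscreteValuationRing v.valuationSubring] (ι : F₀ →+* F) (hι : ∀ x, v (ι x) ≤ 1)
  (hres : ∀ r : F, v r ≤ 1 → ∃ x : F₀, v (r - ι x) < 1) {ϖ : F}
  (hϖ : v ϖ = WithZero.exp (-1 : ℤ)) {ℓ : ℕ} [hp : Fact ℓ.Prime] {f : F₀[X]} (hf : f.Monic)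
  (hirr : Irreducible f) (hsep : f.Separable) (hcop : ¬ ℓ ∣ f.natDegree) {ζ : F₀}
  (hζ : IsPrimitiveRoot ζ ℓ)

include hι hres hϖ hf hirr hsep hcop hζ in
/-- **Constant classes.** Let `F` be a field with a discrete valuation, with coefficient field
`F₀`. If `m = κ c z^ℓ`, with `c` in `F₀[x]/(f)`, satisfies the local condition for the twist
`y^ℓ = ϖ^(jn) f(x/ϖ^j)`, then `c` is the product of an element of `F₀` and an `ℓ`-th power. -/
theorem const_of_locCond {j : ℕ} (hj : ¬ ℓ ∣ j) {g : F[X]} [hg : Good ℓ g]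
    (hgf : g = (f.map ι).scaleRoots (ϖ ^ j))
    (𝔞 : Ideal (CoordRing ℓ g)) (a : F[X]) (hs : ∃ s ∈ 𝔞, red g s = 1)
    {ζF : F} (hζF : IsPrimitiveRoot ζF ℓ) (hζζ : ζF = ι ζ)
    (hN : nrm (tauI hζF) ℓ 𝔞 = Ideal.span {of g a})
    (m : AdjoinRoot g) (hm : AdjoinRoot.mk g a * m = 1)
    (c₀ : AdjoinRoot f) (κ : F) (Z : AdjoinRoot (f.map ι))
    (hmc : scMap hgf m = AdjoinRoot.of _ κ * lamMap ι rfl c₀ * Z ^ ℓ) :
    ∃ (e : F₀) (b : AdjoinRoot f), c₀ = AdjoinRoot.of f e * b ^ ℓ := by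
  have hℓ := hp.out
  -- the coefficient field in the valuation ring
  let ιR : F₀ →+* v.valuationSubring := ι.codRestrict v.valuationSubring.toSubring hι
  have hιR : (algebraMap v.valuationSubring F).comp ιR = ι := rfl
  have hϖ1 : v ϖ ≤ 1 := by
    rw [hϖ]
    change WithZero.exp (-1 : ℤ) ≤ WithZero.exp (0 : ℤ)
    rw [WithZero.exp_le_exp]
    norm_num
  set π : v.valuationSubring := ⟨ϖ, hϖ1⟩ with hπ
  have hπirr : Irreducible π := irreducible_of_exp_neg_one hϖ
  let res := IsLocalRing.residue v.valuationSubring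
  let σ : F₀ →+* IsLocalRing.ResidueField v.valuationSubring := res.comp ιR
  have hσinj : Function.Injective σ := σ.injective
  have hσsurj : Function.Surjective σ := by
    intro y
    obtain ⟨r, rfl⟩ := IsLocalRing.residue_surjective y
    obtain ⟨x, hx⟩ := hres r r.2
    refine ⟨x, ?_⟩
    change res (ιR x) = res r
    rw [← sub_eq_zero, ← map_sub]
    change IsLocalRing.residue _ (ιR x - r) = 0
    rw [IsLocalRing.residue_eq_zero_iff, IsLocalRing.mem_maximalIdeal, mem_nonunits_iff,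
      isUnit_iff_val_eq_one]
    intro h1
    have h2 : v ((ιR x - r : v.valuationSubring) : F) = v (r - ι x) := by
      rw [← Valuation.map_neg]
      congr 1
      change -(ι x - (r : F)) = _
      ring
    rw [h2] at h1
    rw [h1] at hx
    exact lt_irrefl _ hx
  set fR : (v.valuationSubring)[X] := f.map ιR with hfR
  have hfRm : fR.Monic := hf.map _
  have hfRF : fR.map (algebraMap v.valuationSubring F) = f.map ι := by
    rw [hfR, Polynomial.map_map, hιR]
  have hfbar : fR.map res = f.map σ := by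
    rw [hfR, Polynomial.map_map]
  have hgood : Good ℓ (fR.map res) := by
    rw [hfbar]
    refine ⟨hf.map _, hsep.map, ?_⟩
    rwa [natDegree_map]
  have hirr' : Irreducible (fR.map res) := by
    rw [hfbar]
    have h1 := (MulEquiv.irreducible_iff (Polynomial.mapEquiv
      (RingEquiv.ofBijective σ ⟨hσinj, hσsurj⟩))).mpr hirr
    exact h1
  have hgf' : g = (fR.scaleRoots (π ^ j)).map (algebraMap v.valuationSubring F) := by
    rw [map_scaleRoots _ _ _ (by rw [hfRm.leadingCoeff, map_one]; exact one_ne_zero), hfRF, hgf]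
    rfl
  have hζR : IsPrimitiveRoot (algebraMap v.valuationSubring F (ιR ζ)) ℓ := by
    have h1 : algebraMap v.valuationSubring F (ιR ζ) = ζF := by rw [hζζ]; rfl
    rw [h1]
    exact hζF
  have hζbar : IsPrimitiveRoot (res (ιR ζ)) ℓ := hζ.map_of_injective (f := σ) hσinj
  have hN' : nrm (tauI hζR) ℓ 𝔞 = Ideal.span {of g a} := by
    have h1 : algebraMap v.valuationSubring F (ιR ζ) = ζF := by rw [hζζ]; rfl
    rw [← hN]
    congr 2
  obtain ⟨c, q, e, b, hc, he, hb, hdvd, hq⟩ := twisted_norm hπirr hfRm hirr' hζR hζbar hj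
    hgf' 𝔞 a hs hN'
  -- transport to `F[x]/(f)`
  have hfield := Fact.mk hirr'
  have h1 : scMap hgf (AdjoinRoot.mk g a) =
      AdjoinRoot.of _ c * AdjoinRoot.mk (f.map ι) (q.map (algebraMap v.valuationSubring F)) := by
    rw [scMap_mk, ← AdjoinRoot.mk_C, ← map_mul, AdjoinRoot.mk_eq_mk]
    rw [hfRF] at hdvd
    exact hdvd
  have h2 : AdjoinRoot.of (f.map ι) c *
      AdjoinRoot.mk (f.map ι) (q.map (algebraMap v.valuationSubring F)) *
      (AdjoinRoot.of _ κ * lamMap ι rfl c₀ * Z ^ ℓ) = 1 := by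
    rw [← h1, ← hmc, ← map_mul, hm, map_one]
  have hnt : (1 : AdjoinRoot (f.map ι)) ≠ 0 := by
    intro h0
    have h3 := of_inj' (f := f.map ι) (hf.map ι) (by
      rw [natDegree_map]
      intro h4
      exact hcop (by rw [h4]; exact dvd_zero ℓ))
    have h4 : AdjoinRoot.of (f.map ι) (1 : F) = AdjoinRoot.of (f.map ι) 0 := by
      rw [map_one, map_zero, h0]
    exact one_ne_zero (h3 h4)
  have hZ : Z ≠ 0 := by
    rintro rfl
    rw [zero_pow hℓ.ne_zero, mul_zero, mul_zero] at h2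
    exact hnt h2.symm
  have hc₀ : c₀ ≠ 0 := by
    rintro rfl
    rw [map_zero, mul_zero, zero_mul, mul_zero] at h2
    exact hnt h2.symm
  obtain ⟨γ, Z₀, hγ, hZγ, hZ₀⟩ := exists_unit_part hfRm hfRF rfl Z hZ
  have hlinj : Function.Injective (lamMap (algebraMap v.valuationSubring F) hfRF) :=
    lamMap_inj hfRF hfRm
  -- the constant class
  set c₁ : AdjoinRoot fR := lamMap ιR rfl c₀ with hc₁
  have hc₁F : lamMap (algebraMap v.valuationSubring F) hfRF c₁ = lamMap ι rfl c₀ :=
    lamMap_comp ιR (algebraMap v.valuationSubring F) rfl hfRF rfl c₀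
  have hfσ : f.map σ = fR.map res := hfbar.symm
  have hc₁R : lamMap res rfl c₁ = lamMap σ hfσ c₀ := lamMap_comp ιR res rfl rfl hfσ c₀
  have hF₀ := Fact.mk hirr
  have hσlinj : Function.Injective (lamMap σ hfσ) := (lamMap σ hfσ).injective
  have hc₁0 : lamMap res rfl c₁ ≠ 0 := by
    rw [hc₁R, Ne, map_eq_zero]
    exact hc₀
  -- the unit `Y`
  set Y : AdjoinRoot fR := AdjoinRoot.mk fR q * c₁ * Z₀ ^ ℓ with hY
  set δ : F := c * κ * γ ^ ℓ with hδ
  have hYF : lamMap (algebraMap v.valuationSubring F) hfRF Y =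
      AdjoinRoot.mk (f.map ι) (q.map (algebraMap v.valuationSubring F)) * lamMap ι rfl c₀ *
        (lamMap (algebraMap v.valuationSubring F) hfRF Z₀) ^ ℓ := by
    rw [hY, map_mul (lamMap (algebraMap v.valuationSubring F) hfRF),
      map_mul (lamMap (algebraMap v.valuationSubring F) hfRF),
      map_pow (lamMap (algebraMap v.valuationSubring F) hfRF), lamMap_mk, hc₁F]
  have hδF : AdjoinRoot.of (f.map ι) δ = AdjoinRoot.of (f.map ι) c * AdjoinRoot.of (f.map ι) κ *
      (AdjoinRoot.of (f.map ι) γ) ^ ℓ := by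
    rw [hδ, map_mul (AdjoinRoot.of (f.map ι)), map_mul (AdjoinRoot.of (f.map ι)),
      map_pow (AdjoinRoot.of (f.map ι))]
  have hδY : AdjoinRoot.of (f.map ι) δ * lamMap (algebraMap v.valuationSubring F) hfRF Y = 1 := by
    rw [hYF, hδF, ← h2, hZγ]
    ring
  have hYR : lamMap res rfl Y = AdjoinRoot.of _ e * b ^ ℓ * lamMap σ hfσ c₀ *
      (lamMap res rfl Z₀) ^ ℓ := by
    rw [hY, map_mul, map_mul, map_pow, lamMap_mk, hc₁R, hq]
  have hYR0 : lamMap res rfl Y ≠ 0 := by
    rw [hYR]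
    refine mul_ne_zero (mul_ne_zero (mul_ne_zero ?_ (pow_ne_zero _ hb)) ?_) (pow_ne_zero _ hZ₀)
    · rwa [Ne, map_eq_zero]
    · rwa [← hc₁R]
  have hδ0 : δ ≠ 0 := by
    rintro h0
    rw [h0, map_zero, zero_mul] at hδY
    exact hnt hδY.symm
  have hd : ∃ d : IsLocalRing.ResidueField v.valuationSubring, lamMap res rfl Y =
      AdjoinRoot.of (fR.map res) d := by
    by_cases hv : v δ ≤ 1
    · have h3 : AdjoinRoot.of fR (⟨δ, hv⟩ : v.valuationSubring) * Y = 1 := by
        apply hlinj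
        rw [map_mul, lamMap_of', map_one]
        exact hδY
      have h4 := congrArg (lamMap res (rfl : fR.map res = _)) h3
      rw [map_mul, lamMap_of', map_one] at h4
      refine ⟨(res ⟨δ, hv⟩)⁻¹, ?_⟩
      rw [map_inv₀]
      exact eq_inv_of_mul_eq_one_right h4
    · have hv' : v δ⁻¹ ≤ 1 := by
        rw [map_inv₀]
        exact inv_le_one_of_one_le₀ (not_le.mp hv).le
      have h3 : Y = AdjoinRoot.of fR (⟨δ⁻¹, hv'⟩ : v.valuationSubring) := by
        apply hlinj
        rw [lamMap_of']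
        have h4 : AdjoinRoot.of (f.map ι) δ * AdjoinRoot.of (f.map ι) δ⁻¹ = 1 := by
          rw [← map_mul, mul_inv_cancel₀ hδ0, map_one]
        calc lamMap (algebraMap v.valuationSubring F) hfRF Y =
            (AdjoinRoot.of (f.map ι) δ * AdjoinRoot.of (f.map ι) δ⁻¹) *
              lamMap (algebraMap v.valuationSubring F) hfRF Y := by rw [h4, one_mul]
          _ = (AdjoinRoot.of (f.map ι) δ * lamMap (algebraMap v.valuationSubring F) hfRF Y) *
              AdjoinRoot.of (f.map ι) δ⁻¹ := by ring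
          _ = _ := by rw [hδY, one_mul]; rfl
      exact ⟨res ⟨δ⁻¹, hv'⟩, by rw [h3, lamMap_of']⟩
  obtain ⟨d, hd⟩ := hd
  -- pull back along the isomorphism `σ`
  have hsurjL : Function.Surjective (lamMap σ hfσ) := by
    intro y
    obtain ⟨p, rfl⟩ := AdjoinRoot.mk_surjective y
    obtain ⟨p', rfl⟩ := Polynomial.map_surjective σ hσsurj p
    exact ⟨AdjoinRoot.mk f p', lamMap_mk σ hfσ p'⟩
  obtain ⟨b₁, hb₁⟩ := hsurjL (b * lamMap res rfl Z₀)⁻¹
  obtain ⟨e₁, he₁⟩ := hσsurj (d / e)
  refine ⟨e₁, b₁, hσlinj ?_⟩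
  rw [map_mul, map_pow, lamMap_of', he₁, hb₁]
  have hoe : AdjoinRoot.of (fR.map res) e ≠ 0 := by rwa [Ne, map_eq_zero]
  rw [hd] at hYR
  have key : ∀ (E B W U D : AdjoinRoot (fR.map res)), E ≠ 0 → B ≠ 0 → W ≠ 0 →
      D = E * B ^ ℓ * U * W ^ ℓ → U = D / E * ((B * W)⁻¹) ^ ℓ := by
    intro E B W U D hE hB hW hD
    have hB' : B ^ ℓ ≠ 0 := pow_ne_zero _ hB
    have hW' : W ^ ℓ ≠ 0 := pow_ne_zero _ hW
    rw [hD, inv_pow, mul_pow, mul_inv, div_eq_mul_inv]
    calc U = U * (E * E⁻¹) * (B ^ ℓ * (B ^ ℓ)⁻¹) * (W ^ ℓ * (W ^ ℓ)⁻¹) := by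
          rw [mul_inv_cancel₀ hE, mul_inv_cancel₀ hB', mul_inv_cancel₀ hW', mul_one, mul_one,
            mul_one]
      _ = _ := by ring
  rw [map_div₀]
  exact key _ _ _ _ _ hoe hb hZ₀ hYR

end Const

end Pool.Agent.MP1bdb59C
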