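import Mathlib
import Pool.Agent.MP1bdb59C.Dvr
import Pool.Agent.MP1bdb59C.GenRing

/-!
# Places for the generic twist
-/

open Polynomial IsDedekindDomain

noncomputable section

open scoped Classical WithZero

namespace Pool.Agent.MP1bdb59C

open Pool.Agent.MP1bdb59 (Place Completion)

section

variable {k A K : Type*} [Field k] [CommRing A] [IsDedekindDomain A]
  [Field K] [Algebra A K] [IsFractionRing A K] [Algebra k K]

/-- The place of `K` attached to a height one prime of `A`, if its valuation is trivial on `k`. -/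
def placeOfLe (p : HeightOneSpectrum A) (h : ∀ c : k, p.valuation K (algebraMap k K c) ≤ 1) :
    Place k K where
  ring := (p.valuation K).valuationSubring
  algebraMap_mem c := by
    rw [Valuation.mem_valuationSubring_iff]
    exact h c
  ne_top := by
    intro h
    obtain ⟨π, hπ⟩ := p.valuation_exists_uniformizer K
    have hπ0 : π ≠ 0 := by
      rintro rfl
      rw [map_zero] at hπ
      exact (WithZero.exp_ne_zero) hπ.symm
    have h1 : π⁻¹ ∈ (p.valuation K).valuationSubring := by rw [h]; trivial
    rw [Valuation.mem_valuationSubring_iff, map_inv₀, hπ, ← WithZero.exp_neg, neg_neg] at h1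
    have h2 : WithZero.exp (1 : ℤ) ≤ WithZero.exp (0 : ℤ) := h1
    rw [WithZero.exp_le_exp] at h2
    exact absurd h2 (by norm_num)

end

section

variable {k₀ F₀ k K : Type*} [Field k₀] [Field F₀] [Algebra k₀ F₀] [Field k] [Field K]
  [Algebra k₀[X] k] [IsFractionRing k₀[X] k] [Algebra F₀[X] K] [IsFractionRing F₀[X] K]
  [Algebra k K]
  (hcomp : ∀ q : k₀[X], algebraMap k K (algebraMap k₀[X] k q) =
    algebraMap F₀[X] K (q.map (algebraMap k₀ F₀)))

/-- The height one prime of `F₀[s]` generated by `s - h`. -/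
def hPrime (h : F₀) : HeightOneSpectrum F₀[X] where
  asIdeal := Ideal.span {X - C h}
  isPrime := (Ideal.span_singleton_prime (X_sub_C_ne_zero h)).mpr (prime_X_sub_C h)
  ne_bot := by
    rw [Ne, Ideal.span_singleton_eq_bot]
    exact X_sub_C_ne_zero h

lemma hPrime_lt_one (h : F₀) (q : F₀[X]) (hq : q.eval h = 0) :
    (hPrime h).valuation K (algebraMap F₀[X] K q) < 1 := by
  rw [HeightOneSpectrum.valuation_lt_one_iff_mem]
  change q ∈ Ideal.span {X - C h}
  rw [Ideal.mem_span_singleton, dvd_iff_isRoot]
  exact hq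

lemma hPrime_eq_one (h : F₀) (q : F₀[X]) (hq : q.eval h ≠ 0) :
    (hPrime h).valuation K (algebraMap F₀[X] K q) = 1 := by
  apply le_antisymm ((hPrime h).valuation_le_one q)
  by_contra hcon
  have h1 := not_le.mp hcon
  rw [HeightOneSpectrum.valuation_lt_one_iff_mem] at h1
  change q ∈ Ideal.span {X - C h} at h1
  rw [Ideal.mem_span_singleton, dvd_iff_isRoot] at h1
  exact hq h1

lemma hPrime_uniformizer (h : F₀) :
    (hPrime h).valuation K (algebraMap F₀[X] K (X - C h)) = WithZero.exp (-1 : ℤ) := by
  rw [HeightOneSpectrum.valuation_of_algebraMap]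
  exact HeightOneSpectrum.intValuation_singleton _ (X_sub_C_ne_zero h) rfl

include hcomp in
lemma hPrime_le_one {h : F₀} (htr : Transcendental k₀ h) (c : k) :
    (hPrime h).valuation K (algebraMap k K c) ≤ 1 := by
  obtain ⟨q₁, q₂, hq₂, rfl⟩ := IsFractionRing.div_surjective k₀[X] c
  have h0 : q₂ ≠ 0 := nonZeroDivisors.ne_zero hq₂
  rw [map_div₀, hcomp, hcomp, map_div₀]
  have h1 : (hPrime h).valuation K (algebraMap F₀[X] K (q₂.map (algebraMap k₀ F₀))) = 1 := by
    apply hPrime_eq_one
    rw [eval_map_algebraMap]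
    exact fun h2 => htr ⟨q₂, h0, h2⟩
  rw [h1, div_one]
  exact (hPrime h).valuation_le_one _

lemma hPrime_residue (h : F₀) (x : K) (hx : (hPrime h).valuation K x ≤ 1) :
    ∃ c : F₀, (hPrime h).valuation K (algebraMap F₀[X] K (C c) - x) < 1 := by
  obtain ⟨q, hq⟩ := (hPrime h).exists_valuation_sub_lt_of_integer hx 1
  refine ⟨q.eval h, ?_⟩
  have h1 : algebraMap F₀[X] K (C (q.eval h)) - x =
      (algebraMap F₀[X] K (C (q.eval h) - q)) + (algebraMap F₀[X] K q - x) := by
    rw [map_sub]
    ring
  rw [h1]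
  refine Valuation.map_add_lt _ ?_ hq
  apply hPrime_lt_one
  simp

include hcomp in
/-- The completion at the place `s = h`. -/
theorem exists_completion_h {h : F₀} (htr : Transcendental k₀ h) :
    ∃ (v : Place k K) (vF : Valuation (Completion v) ℤᵐ⁰),
      vF (algebraMap K (Completion v) (algebraMap F₀[X] K (X - C h))) = WithZero.exp (-1 : ℤ) ∧
      (∀ x : F₀, vF (algebraMap K (Completion v) (algebraMap F₀[X] K (C x))) ≤ 1) ∧
      (∀ r : Completion v, vF r ≤ 1 → ∃ x : F₀,
        vF (r - algebraMap K (Completion v) (algebraMap F₀[X] K (C x))) < 1) ∧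
      IsDiscreteValuationRing vF.valuationSubring := by
  refine ⟨placeOfLe (hPrime h) (hPrime_le_one hcomp htr), ?_⟩
  obtain ⟨vF, h1, h2, h3⟩ := exists_dvr (k := k) (K := K) (hPrime h)
    (placeOfLe (hPrime h) (hPrime_le_one hcomp htr)) rfl
  refine ⟨vF, ?_, fun x => ?_, fun r hr => ?_, h3⟩
  · rw [h1, hPrime_uniformizer]
  · rw [h1]
    exact (hPrime h).valuation_le_one _
  · obtain ⟨x, hx⟩ := h2 r 1 one_ne_zero
    rw [map_one] at hx
    have h4 : (hPrime h).valuation K x ≤ 1 := by
      rw [← h1]
      have h5 : algebraMap K (Completion (placeOfLe (hPrime h) (hPrime_le_one hcomp htr))) x =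
          (algebraMap K (Completion (placeOfLe (hPrime h) (hPrime_le_one hcomp htr))) x - r) +
            r := by ring
      rw [h5]
      exact Valuation.map_add_le _ hx.le hr
    obtain ⟨c, hc⟩ := hPrime_residue h x h4
    refine ⟨c, ?_⟩
    rw [← h1, map_sub] at hc
    have h6 : r - algebraMap K (Completion (placeOfLe (hPrime h) (hPrime_le_one hcomp htr)))
          (algebraMap F₀[X] K (C c)) =
        -((algebraMap K _ x - r) + (algebraMap K _ (algebraMap F₀[X] K (C c)) -
          algebraMap K _ x)) := by ring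
    rw [h6, Valuation.map_neg]
    exact Valuation.map_add_lt _ hx hc

end

end Pool.Agent.MP1bdb59C
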