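import Mathlib
import Pool.Agent.MP1bdb59C.Crit
import Pool.Agent.MP1bdb59C.GenLoc
import Pool.Agent.MP1bdb59C.GenPlace

/-!
# The generic twist
-/

open Polynomial IsDedekindDomain

noncomputable section

open scoped Classical WithZero

namespace Pool.Agent.MP1bdb59C

open Pool.Agent.MP1bdb59 (Sep AbsGal emb resGal Place Completion placeOf TateModule)

universe u v

section Aux

lemma separable_scaleRoots {K : Type*} [Field K] {f : K[X]} (hf : f.Separable) {c : K} (hc : c ≠ 0)
    (hirr : Irreducible f) (hirr' : Irreducible (f.scaleRoots c)) :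
    (f.scaleRoots c).Separable := by
  rw [separable_iff_derivative_ne_zero hirr']
  rw [separable_iff_derivative_ne_zero hirr] at hf
  intro h0
  apply hf
  ext i
  have h1 := congrArg (fun q => q.coeff i) h0
  simp only [coeff_derivative, coeff_zero, coeff_scaleRoots] at h1 ⊢
  have h2 : f.coeff (i + 1) * (↑i + 1) * c ^ (f.natDegree - (i + 1)) = 0 := by
    linear_combination h1
  exact (mul_eq_zero.mp h2).resolve_right (pow_ne_zero _ hc)

/-- An element of `K^* L^{*ℓ}` whose norm is an `ℓ`-th power is an `ℓ`-th power. -/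
lemma exists_pow_of_norm {K : Type*} [Field K] {ℓ : ℕ} [hp : Fact ℓ.Prime] {g : K[X]}
    (hg : g.Monic) (hirr : Irreducible g) (hcop : ¬ ℓ ∣ g.natDegree) (m : AdjoinRoot g)
    (hm : IsUnit m) {r : K} (hr : Algebra.norm K m = r ^ ℓ) {a : K} {y : AdjoinRoot g}
    (hm' : m = AdjoinRoot.of g a * y ^ ℓ) : ∃ l, m = l ^ ℓ := by
  have := Fact.mk hirr
  have ha0 : a ≠ 0 := by
    rintro rfl
    rw [map_zero, zero_mul] at hm'
    exact hm.ne_zero hm'
  have hy0 : y ≠ 0 := by
    rintro h0
    rw [h0, zero_pow hp.out.ne_zero, mul_zero] at hm'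
    exact hm.ne_zero hm'
  have hN : a ^ g.natDegree * (Algebra.norm K y) ^ ℓ = r ^ ℓ := by
    rw [← hr, hm', map_mul, map_pow, norm_of hg]
  have hNy : Algebra.norm K y ≠ 0 := by
    have := (AdjoinRoot.powerBasis' hg).finite
    rw [Ne, Algebra.norm_eq_zero_iff]
    exact hy0
  obtain ⟨b, hb⟩ := exists_pow_of_coprime ha0 ((Nat.Prime.coprime_iff_not_dvd hp.out).mpr hcop)
    (b := r / Algebra.norm K y) (by
      rw [div_pow, eq_div_iff (pow_ne_zero _ hNy), hN])
  refine ⟨AdjoinRoot.of _ b * y, ?_⟩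
  rw [hm', hb, map_pow, mul_pow]

end Aux

section Twist

variable {k₀ F₀ : Type*} {k : Type u} {K : Type v} [Field k₀] [Field F₀] [Algebra k₀ F₀]
  [Field k] [Field K] [Algebra k₀[X] k] [IsFractionRing k₀[X] k] [Algebra F₀[X] K]
  [IsFractionRing F₀[X] K] [Algebra k K] {ℓ : ℕ} [hp : Fact ℓ.Prime]
  (hcomp : ∀ q : k₀[X], algebraMap k K (algebraMap k₀[X] k q) =
    algebraMap F₀[X] K (q.map (algebraMap k₀ F₀)))
  {ζ : k₀} (hζ : IsPrimitiveRoot ζ ℓ) {f : F₀[X]} (hf : f.Monic) (hirr : Irreducible f)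
  (hsep : f.Separable) (hcop : ¬ ℓ ∣ f.natDegree)
  (hreg : ∀ x : AdjoinRoot f, IsAlgebraic k₀ x → x ∈ Set.range (algebraMap k₀ (AdjoinRoot f)))
  {h : F₀} (htr : Transcendental k₀ h) {j : ℕ} (hj : ¬ ℓ ∣ j)

/-- A localisation of a principal ideal domain. -/
lemma isPrincipalIdealRing_localization {R A : Type*} [CommRing R] [IsPrincipalIdealRing R]
    [CommRing A] [Algebra R A] (M : Submonoid R) [IsLocalization M A] :
    IsPrincipalIdealRing A := by
  refine isPrincipalIdealRing_of_unit_mul (algebraMap R A) fun x => ?_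
  obtain ⟨⟨r, s⟩, hrs⟩ := IsLocalization.surj M x
  exact ⟨algebraMap R A s, IsLocalization.map_units A s, r, by rw [mul_comm]; exact hrs.symm⟩

include hcomp hζ hf hirr hsep hcop hreg htr hj in
/-- The generic twist: the Selmer condition. -/
theorem selmer_generic (A : Type*) [CommRing A] [IsDomain A] [Algebra F₀[X] A]
    [IsLocalization (tS k₀ h) A] [Algebra A K] [IsFractionRing A K] [IsScalarTower F₀[X] A K]
    {wA : A} (hwA : wA = algebraMap F₀[X] A (X - C h)) {gA : A[X]}
    (hgA : gA = ((f.map (C : F₀ →+* F₀[X])).map (algebraMap F₀[X] A)).scaleRoots (wA ^ j))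
    {ζA : A} (hζζ : ζA = algebraMap F₀[X] A (C (algebraMap k₀ F₀ ζ)))
    (hζK : IsPrimitiveRoot (algebraMap A K ζA) ℓ)
    (hirrg : Irreducible (gA.map (algebraMap A K))) [hgood : Good ℓ (gA.map (algebraMap A K))]
    (m : AdjoinRoot (gA.map (algebraMap A K))) (hm : IsUnit m)
    (hnorm : ∃ r : K, Algebra.norm K m = r ^ ℓ)
    (hloc : ∀ v : Place k K, LocCond hζK (Completion v) m) : ∃ l, m = l ^ ℓ := by
  have hw : IsUnit wA := by
    rw [hwA]
    exact IsLocalization.map_units A (⟨X - C h, 1, 1, one_ne_zero, by simp⟩ : tS k₀ h)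
  obtain ⟨wi, hwi⟩ := hw.exists_right_inv
  have hcd : wA ^ j * wi ^ j = 1 := by rw [← mul_pow, hwi, one_pow]
  have : IsPrincipalIdealRing A := isPrincipalIdealRing_localization (tS k₀ h)
  -- the ring `A[x]/(gA)` is a principal ideal domain
  have hfm : (f.map (C : F₀ →+* F₀[X])).Monic := hf.map _
  have hfAm : ((f.map (C : F₀ →+* F₀[X])).map (algebraMap F₀[X] A)).Monic := hfm.map _
  have hgAm : gA.Monic := by
    rw [hgA, monic_scaleRoots_iff]
    exact hfAm
  have hdom₀ := isDomain_loc hf hirr A K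
  have hpir₀ := isPrincipalIdealRing_loc k₀ h A hirr
  have hdom : IsDomain (AdjoinRoot gA) := (scEquiv hgA hcd).toMulEquiv.isDomain _
  have hpir : IsPrincipalIdealRing (AdjoinRoot gA) :=
    IsPrincipalIdealRing.of_surjective (scEquiv hgA hcd).symm.toRingHom
      (scEquiv hgA hcd).symm.surjective
  have hded : IsDedekindDomain (AdjoinRoot gA) := inferInstance
  -- the descent over `A`
  have hkA : ∀ c : k, ∃ a : A, algebraMap k K c = algebraMap A K a := by
    intro c
    obtain ⟨q₁, q₂, hq₂, rfl⟩ := IsFractionRing.div_surjective k₀[X] c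
    have h0 : q₂ ≠ 0 := nonZeroDivisors.ne_zero hq₂
    have h1 : IsUnit (algebraMap F₀[X] A (q₂.map (algebraMap k₀ F₀))) :=
      IsLocalization.map_units A (⟨q₂.map (algebraMap k₀ F₀), q₂, 0, h0, by simp⟩ : tS k₀ h)
    obtain ⟨b, hb⟩ := h1.exists_right_inv
    refine ⟨algebraMap F₀[X] A (q₁.map (algebraMap k₀ F₀)) * b, ?_⟩
    have h2 : algebraMap F₀[X] K (q₂.map (algebraMap k₀ F₀)) * algebraMap A K b = 1 := by
      rw [IsScalarTower.algebraMap_apply F₀[X] A K, ← map_mul, hb, map_one]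
    rw [map_div₀, hcomp, hcomp, map_mul, ← IsScalarTower.algebraMap_apply,
      div_eq_iff (left_ne_zero_of_mul_eq_one h2), mul_assoc, mul_comm (algebraMap A K b), h2,
      mul_one]
  have hplace : ∀ p : HeightOneSpectrum A, ∃ v : Place k K,
      v.ring = (p.valuation K).valuationSubring := by
    intro p
    refine ⟨placeOfLe p fun c => ?_, rfl⟩
    obtain ⟨a, ha⟩ := hkA c
    rw [ha]
    exact p.valuation_le_one a
  obtain ⟨κ, u, z, hκ, hmu⟩ := exists_unit_of_locCond (k := k) (ζ := ζA) hζK gA hgAm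
    (fun I _ => IsPrincipalIdealRing.principal I) hplace m hm hloc
  -- pass to `K[x]/(f)`
  set ι : F₀ →+* K := (algebraMap F₀[X] K).comp C with hι
  have hfAK : ((f.map (C : F₀ →+* F₀[X])).map (algebraMap F₀[X] A)).map (algebraMap A K) =
      f.map ι := by
    rw [Polynomial.map_map, ← IsScalarTower.algebraMap_eq, Polynomial.map_map]
  have hwA0 : algebraMap A K (wA ^ j) ≠ 0 := by
    rw [map_pow]
    exact pow_ne_zero _ (hw.map (algebraMap A K)).ne_zero
  have hgK : gA.map (algebraMap A K) = (f.map ι).scaleRoots (algebraMap A K (wA ^ j)) := by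
    rw [hgA, map_scaleRoots _ _ _ (by rw [hfAm.leadingCoeff, map_one]; exact one_ne_zero), hfAK]
  have hm1 : scMap hgK m = AdjoinRoot.of _ κ *
      lamMap (algebraMap A K) hfAK (scMap hgA (u : AdjoinRoot gA)) * (scMap hgK z) ^ ℓ := by
    rw [hmu, map_mul (scMap hgK), map_mul (scMap hgK), map_pow (scMap hgK), scMap_of,
      lamMap_scMap hgA (algebraMap A K) hfAK rfl hgK rfl]
  obtain ⟨c₀, a, hc₀, hca⟩ := exists_of_unit k₀ h A hf hirr hreg
    (Units.map (scMap hgA : AdjoinRoot gA →* _) u)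
  have hca' : scMap hgA (u : AdjoinRoot gA) =
      lamMap (algebraMap F₀[X] A) rfl (lamMap (C : F₀ →+* F₀[X]) rfl c₀) *
        AdjoinRoot.of _ (a : A) := hca
  have hm2 : scMap hgK m = AdjoinRoot.of _ (κ * algebraMap A K a) *
      lamMap ι rfl c₀ * (scMap hgK z) ^ ℓ := by
    have h1 : lamMap (algebraMap A K) hfAK (lamMap (algebraMap F₀[X] A) rfl
        (lamMap (C : F₀ →+* F₀[X]) (rfl : f.map C = _) c₀)) = lamMap ι rfl c₀ := by
      obtain ⟨p, rfl⟩ := AdjoinRoot.mk_surjective c₀
      rw [lamMap_mk, lamMap_mk, lamMap_mk, lamMap_mk, Polynomial.map_map, Polynomial.map_map,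
        ← IsScalarTower.algebraMap_eq]
    rw [hm1, hca', map_mul (lamMap (algebraMap A K) hfAK), h1, lamMap_of',
      map_mul (AdjoinRoot.of (f.map ι))]
    ring
  -- the place `s = h`
  obtain ⟨v, vF, hv1, hv2, hv3, hv4⟩ := exists_completion_h (k := k) (K := K) hcomp htr
  obtain ⟨𝔞, a', hs, hN, hm'⟩ := hloc v
  set ιF : F₀ →+* Completion v := (algebraMap K (Completion v)).comp ι with hιF
  set ϖ : Completion v := algebraMap K (Completion v) (algebraMap F₀[X] K (X - C h)) with hϖ
  have hwK : algebraMap K (Completion v) (algebraMap A K (wA ^ j)) = ϖ ^ j := by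
    rw [hwA, map_pow, map_pow, ← IsScalarTower.algebraMap_apply F₀[X] A K]
  have hgF : (gA.map (algebraMap A K)).map (algebraMap K (Completion v)) =
      (f.map ιF).scaleRoots (ϖ ^ j) := by
    rw [hgK, map_scaleRoots _ _ _ (by
      rw [(hf.map ι).leadingCoeff, map_one]; exact one_ne_zero), hwK, Polynomial.map_map]
  have hgoodF : Good ℓ ((gA.map (algebraMap A K)).map (algebraMap K (Completion v))) :=
    ⟨hgood.monic.map _, hgood.sep.map, by rw [natDegree_map]; exact hgood.cop⟩
  have hmF : scMap hgF (lamMap (algebraMap K (Completion v)) rfl m) =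
      AdjoinRoot.of _ (algebraMap K (Completion v) (κ * algebraMap A K a)) *
      lamMap ιF rfl c₀ * (lamMap (algebraMap K (Completion v)) (by rw [Polynomial.map_map])
        (scMap hgK z)) ^ ℓ := by
    rw [← lamMap_scMap hgK (algebraMap K (Completion v)) (by rw [Polynomial.map_map]) rfl hgF hwK,
      hm2, map_mul (lamMap (algebraMap K (Completion v)) _),
      map_mul (lamMap (algebraMap K (Completion v)) _),
      map_pow (lamMap (algebraMap K (Completion v)) _), lamMap_of',
      lamMap_comp ι (algebraMap K (Completion v)) rfl _ rfl]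
  obtain ⟨e, b, heb⟩ := const_of_locCond (v := vF) ιF hv2 hv3 hv1 hf hirr hsep hcop
    (hζ.map_of_injective (algebraMap k₀ F₀).injective) hj hgF 𝔞 a' hs
    (hζK.map_of_injective (algebraMap K (Completion v)).injective)
    (by rw [hζζ, ← IsScalarTower.algebraMap_apply F₀[X] A K]; rfl) hN _ hm' c₀ _ _ hmF
  -- conclusion
  have hcdK : algebraMap A K (wA ^ j) * algebraMap A K (wi ^ j) = 1 := by
    rw [← map_mul, hcd, map_one]
  obtain ⟨Y, hY⟩ := (scEquiv hgK hcdK).surjective (lamMap ι rfl b * scMap hgK z)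
  have hm3 : m = AdjoinRoot.of _ (κ * algebraMap A K a * ι e) * Y ^ ℓ := by
    apply (scEquiv hgK hcdK).injective
    rw [scEquiv_apply] at hY
    rw [scEquiv_apply, scEquiv_apply, hm2, heb, map_mul (scMap hgK), map_pow (scMap hgK), hY,
      scMap_of, map_mul (lamMap ι rfl), map_pow (lamMap ι rfl), lamMap_of',
      map_mul (AdjoinRoot.of (f.map ι)) _ (ι e)]
    ring
  obtain ⟨r, hr⟩ := hnorm
  exact exists_pow_of_norm hgood.monic hirrg hgood.cop m hm hr hm3

include hcomp hζ hf hirr hsep hcop hreg htr hj in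
/-- **The generic twist.** -/
theorem generic_twist (g : K[X])
    (hg : g = (f.map ((algebraMap F₀[X] K).comp C)).scaleRoots
      (algebraMap F₀[X] K (X - C h) ^ j)) :
    (∀ ξ ∈ Sha k ℓ g, ℓ • ξ = 0 → ξ = 0) ∧
      (∀ t : Jac ℓ g K, (∀ σ, act ℓ g K σ t = t) →
        ∃ s : Jac ℓ g K, (∀ σ, act ℓ g K σ s = s) ∧ ℓ • s = t) := by
  have i1 : IsLocalization (tS k₀ h)
      (Localization.subalgebra.ofField K (tS k₀ h) (tS_le k₀ h)) := inferInstance
  set A := Localization.subalgebra.ofField K (tS k₀ h) (tS_le k₀ h) with hA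
  have i2 : IsFractionRing A K := inferInstance
  have i3 : IsScalarTower F₀[X] A K := inferInstance
  set wA : A := algebraMap F₀[X] A (X - C h) with hwA
  have hw : IsUnit wA :=
    IsLocalization.map_units A (⟨X - C h, 1, 1, one_ne_zero, by simp⟩ : tS k₀ h)
  obtain ⟨wi, hwi⟩ := hw.exists_right_inv
  have hcd : wA ^ j * wi ^ j = 1 := by rw [← mul_pow, hwi, one_pow]
  obtain ⟨gA, hgA⟩ : ∃ gA, gA = ((f.map (C : F₀ →+* F₀[X])).map
    (algebraMap F₀[X] A)).scaleRoots (wA ^ j) := ⟨_, rfl⟩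
  have hfAm : ((f.map (C : F₀ →+* F₀[X])).map (algebraMap F₀[X] A)).Monic := (hf.map _).map _
  have hgAm : gA.Monic := by
    rw [hgA, monic_scaleRoots_iff]
    exact hfAm
  have hfAK : ((f.map (C : F₀ →+* F₀[X])).map (algebraMap F₀[X] A)).map (algebraMap A K) =
      f.map ((algebraMap F₀[X] K).comp C) := by
    rw [Polynomial.map_map, ← IsScalarTower.algebraMap_eq, Polynomial.map_map]
  have hwK : algebraMap A K (wA ^ j) = algebraMap F₀[X] K (X - C h) ^ j := by
    rw [map_pow, hwA, ← IsScalarTower.algebraMap_apply]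
  have hgK : gA.map (algebraMap A K) = g := by
    rw [hgA, map_scaleRoots _ _ _ (by rw [hfAm.leadingCoeff, map_one]; exact one_ne_zero), hfAK,
      hwK, hg]
  have : IsPrincipalIdealRing A := isPrincipalIdealRing_localization (tS k₀ h)
  have hdom₀ := isDomain_loc hf hirr A K
  have hdom : IsDomain (AdjoinRoot gA) := (scEquiv hgA hcd).toMulEquiv.isDomain _
  have hirrg : Irreducible (gA.map (algebraMap A K)) := irreducible_of_isDomain hgAm
  have hirrf : Irreducible (f.map ((algebraMap F₀[X] K).comp C)) := by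
    rw [← Polynomial.map_map]
    exact irreducible_const hf hirr
  have hwK0 : algebraMap F₀[X] K (X - C h) ^ j ≠ 0 := by
    rw [← hwK]
    exact ((hw.pow j).map (algebraMap A K)).ne_zero
  have hgood : Good ℓ (gA.map (algebraMap A K)) := by
    refine ⟨hgAm.map _, ?_, ?_⟩
    · rw [hgK, hg]
      refine separable_scaleRoots hsep.map hwK0 hirrf ?_
      rw [← hg, ← hgK]
      exact hirrg
    · rw [hgK, hg, natDegree_scaleRoots, natDegree_map]
      exact hcop
  set ζA : A := algebraMap F₀[X] A (C (algebraMap k₀ F₀ ζ)) with hζA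
  have hζK : IsPrimitiveRoot (algebraMap A K ζA) ℓ := by
    have h1 : Function.Injective (((algebraMap F₀[X] K).comp C).comp (algebraMap k₀ F₀)) :=
      RingHom.injective _
    have h2 := hζ.map_of_injective h1
    have h3 : algebraMap A K ζA = (((algebraMap F₀[X] K).comp C).comp (algebraMap k₀ F₀)) ζ := by
      rw [hζA, ← IsScalarTower.algebraMap_apply]
      rfl
    rw [h3]
    exact h2
  rw [← hgK]
  exact sha_ell_torsion k hζK (gA.map (algebraMap A K)) hirrg fun m hm hnorm hloc =>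
    selmer_generic hcomp hζ hf hirr hsep hcop hreg htr hj A hwA hgA hζA hζK hirrg m hm hnorm hloc

end Twist

end Pool.Agent.MP1bdb59C
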