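import Mathlib
import Pool.Agent.MP1bdb59C.Frac

/-!
# `A[x]/(f)` for a separable polynomial `f` over a Dedekind domain `A`
-/

open Polynomial IsDedekindDomain

noncomputable section

open scoped Classical WithZero

namespace Pool.Agent.MP1bdb59C

section Ded

variable {A K : Type*} [CommRing A] [IsDedekindDomain A] [Field K] [Algebra A K]
  [IsFractionRing A K] {f : A[X]}

omit [IsDedekindDomain A] in
lemma isDomain_adjoinRoot_of_irr [IsDomain A] (hf : f.Monic)
    (hirr : Irreducible (f.map (algebraMap A K))) : IsDomain (AdjoinRoot f) := by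
  have := Fact.mk hirr
  exact (lamMap_inj (g := f.map (algebraMap A K)) rfl hf).isDomain _

variable (K) in
/-- `A[x]/(f)` is a Dedekind domain if `A` is one and `f` is monic, separable, and irreducible over
the fraction field. -/
theorem isDedekind_adjoinRoot (hf : f.Monic) (hsep : f.Separable)
    (hirr : Irreducible (f.map (algebraMap A K))) : IsDedekindDomain (AdjoinRoot f) := by
  have i0 := Fact.mk hirr
  have hdom : IsDomain (AdjoinRoot f) := isDomain_adjoinRoot_of_irr (K := K) hf hirr
  set g := f.map (algebraMap A K) with hg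
  have hgm : g.Monic := hf.map _
  let i1 : Algebra (AdjoinRoot f) (AdjoinRoot g) := (lamMap (algebraMap A K) rfl).toAlgebra
  have i2 : IsFractionRing (AdjoinRoot f) (AdjoinRoot g) :=
    isFractionRing_adjoinRoot rfl hf hirr (fun _ => rfl)
  have i3 : IsScalarTower A (AdjoinRoot f) (AdjoinRoot g) := by
    apply IsScalarTower.of_algebraMap_eq
    intro a
    change AdjoinRoot.of _ (algebraMap A K a) = lamMap (algebraMap A K) rfl (AdjoinRoot.of f a)
    rw [lamMap_of']
  have hgsep : g.Separable := hsep.map
  have i4 : Module.Finite K (AdjoinRoot g) := (AdjoinRoot.powerBasis' hgm).finite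
  have i5 : Algebra.IsSeparable K (AdjoinRoot g) := by
    have h1 : IsSeparable K (AdjoinRoot.root g) := by
      rw [IsSeparable, AdjoinRoot.minpoly_root hgm.ne_zero, hgm.leadingCoeff, inv_one, C_1,
        mul_one]
      exact hgsep
    have h2 := (IntermediateField.isSeparable_adjoin_simple_iff_isSeparable K
      (AdjoinRoot g)).mpr h1
    rw [IntermediateField.adjoin_root_eq_top] at h2
    exact AlgEquiv.Algebra.isSeparable IntermediateField.topEquiv
  set pb : PowerBasis K (AdjoinRoot g) := AdjoinRoot.powerBasis hgm.ne_zero with hpb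
  have hgen : pb.gen = AdjoinRoot.root g := rfl
  have hroot : AdjoinRoot.root g = algebraMap (AdjoinRoot f) (AdjoinRoot g) (AdjoinRoot.root f) := by
    change _ = lamMap (algebraMap A K) rfl (AdjoinRoot.root f)
    rw [← AdjoinRoot.mk_X (f := f), lamMap_mk, map_X, AdjoinRoot.mk_X]
  have hintO : ∀ x : AdjoinRoot f, IsIntegral A (algebraMap (AdjoinRoot f) (AdjoinRoot g) x) := by
    have := (AdjoinRoot.powerBasis' hf).finite
    intro x
    exact (Algebra.IsIntegral.isIntegral x).algebraMap
  have hint : IsIntegral A pb.gen := by rw [hgen, hroot]; exact hintO _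
  have hder : derivative g = (derivative f).map (algebraMap A K) := by rw [hg, derivative_map]
  -- the inverse of the discriminant
  obtain ⟨a, b, hab⟩ := hsep
  have hδ : algebraMap (AdjoinRoot f) (AdjoinRoot g) (AdjoinRoot.mk f b) *
      aeval (AdjoinRoot.root g) (derivative g) = 1 := by
    have h1 : aeval (AdjoinRoot.root g) (derivative g) =
        algebraMap (AdjoinRoot f) (AdjoinRoot g) (AdjoinRoot.mk f (derivative f)) := by
      change _ = lamMap (algebraMap A K) rfl (AdjoinRoot.mk f (derivative f))
      rw [lamMap_mk, AdjoinRoot.aeval_eq, hder]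
    rw [h1, ← map_mul, ← map_mul]
    have h2 : AdjoinRoot.mk f (b * derivative f) = 1 := by
      have h3 := congrArg (AdjoinRoot.mk f) hab
      rw [map_add, map_mul (AdjoinRoot.mk f) a f, AdjoinRoot.mk_self, mul_zero, zero_add,
        map_one] at h3
      exact h3
    rw [h2, map_one]
  obtain ⟨d, hd⟩ : ∃ d : A, Algebra.norm K (algebraMap (AdjoinRoot f) (AdjoinRoot g)
      (AdjoinRoot.mk f b)) = algebraMap A K d := by
    have h1 : IsIntegral A (Algebra.norm K (algebraMap (AdjoinRoot f) (AdjoinRoot g)
      (AdjoinRoot.mk f b))) := Algebra.isIntegral_norm K (hintO _)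
    obtain ⟨d, hd⟩ := IsIntegrallyClosed.isIntegral_iff.mp h1
    exact ⟨d, hd.symm⟩
  have hdisc : ∃ e : A, algebraMap A K e * Algebra.discr K pb.basis = 1 := by
    have h1 := Algebra.discr_powerBasis_eq_norm (K := K) pb
    rw [hgen, AdjoinRoot.minpoly_root hgm.ne_zero, hgm.leadingCoeff, inv_one, C_1, mul_one] at h1
    set N : ℕ := Module.finrank K (AdjoinRoot g) * (Module.finrank K (AdjoinRoot g) - 1) / 2
    refine ⟨(-1) ^ N * d, ?_⟩
    have h2 := congrArg (Algebra.norm K) hδ
    rw [map_mul, map_one, hd] at h2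
    rw [h1, map_mul, map_pow, map_neg, map_one]
    have h3 : ((-1 : K) ^ N) * (-1 : K) ^ N = 1 := by
      rw [← mul_pow, neg_one_mul, neg_neg, one_pow]
    linear_combination (algebraMap A K d *
      Algebra.norm K (aeval (AdjoinRoot.root g) (derivative g))) * h3 + h2
  obtain ⟨e, he⟩ := hdisc
  have i6 : IsIntegralClosure (AdjoinRoot f) A (AdjoinRoot g) := by
    refine ⟨IsFractionRing.injective _ _, fun {x} => ⟨fun hx => ?_, ?_⟩⟩
    · have h1 := Algebra.discr_mul_isIntegral_mem_adjoin K hint hx
      have h2 : Algebra.adjoin A ({pb.gen} : Set (AdjoinRoot g)) ≤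
          (IsScalarTower.toAlgHom A (AdjoinRoot f) (AdjoinRoot g)).range := by
        rw [Algebra.adjoin_le_iff, Set.singleton_subset_iff]
        exact ⟨AdjoinRoot.root f, by rw [hgen, hroot]; rfl⟩
      obtain ⟨y, hy⟩ := h2 h1
      refine ⟨AdjoinRoot.of f e * y, ?_⟩
      have h3 : algebraMap (AdjoinRoot f) (AdjoinRoot g) y = Algebra.discr K pb.basis • x := hy
      have h4 : algebraMap (AdjoinRoot f) (AdjoinRoot g) (AdjoinRoot.of f e) =
          algebraMap K (AdjoinRoot g) (algebraMap A K e) := by
        change lamMap (algebraMap A K) rfl (AdjoinRoot.of f e) = _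
        rw [lamMap_of']
        rfl
      rw [map_mul, h3, h4, ← Algebra.smul_def, ← mul_smul, he, one_smul]
    · rintro ⟨y, rfl⟩
      exact hintO y
  exact IsIntegralClosure.isDedekindDomain A K (AdjoinRoot g) (AdjoinRoot f)

end Ded

section Semilocal

variable {A K : Type*} [CommRing A] [IsDomain A] [IsDiscreteValuationRing A]

/-- A Dedekind domain integral over a discrete valuation ring is a principal ideal domain. -/
theorem isPrincipal_of_semilocal {O : Type*} [CommRing O] [IsDedekindDomain O] [Algebra A O]
    [Algebra.IsIntegral A O] [Module.IsTorsionFree A O] : IsPrincipalIdealRing O := by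
  obtain ⟨π, hπ⟩ := IsDiscreteValuationRing.exists_irreducible A
  have hinj : Function.Injective (algebraMap A O) := FaithfulSMul.algebraMap_injective A O
  have hπ0 : algebraMap A O π ≠ 0 := by
    rw [Ne, map_eq_zero_iff _ hinj]
    exact hπ.ne_zero
  apply IsPrincipalIdealRing.of_finite_primes
  have h1 : {v : HeightOneSpectrum O | v.asIdeal ∣ Ideal.span {algebraMap A O π}}.Finite := by
    apply Ideal.finite_factors
    simpa only [Submodule.zero_eq_bot, ne_eq, Ideal.span_singleton_eq_bot]
  refine ((h1.image (fun v => v.asIdeal)).union (Set.finite_singleton ⊥)).subset ?_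
  intro I hI
  have hI' : I.IsPrime := hI
  by_cases h0 : I = ⊥
  · right
    exact h0
  · left
    refine ⟨⟨I, hI', h0⟩, ?_, rfl⟩
    change I ∣ _
    rw [Ideal.dvd_span_singleton]
    have h2 : I.comap (algebraMap A O) ≠ ⊥ := mt Ideal.eq_bot_of_comap_eq_bot h0
    have h3 : (I.comap (algebraMap A O)).IsPrime := Ideal.comap_isPrime _ _
    have h4 : (I.comap (algebraMap A O)).IsMaximal := h3.isMaximal h2
    have h5 := IsLocalRing.eq_maximalIdeal h4
    have h6 : π ∈ I.comap (algebraMap A O) := by
      rw [h5, IsLocalRing.mem_maximalIdeal]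
      exact hπ.not_isUnit
    exact h6

end Semilocal

end Pool.Agent.MP1bdb59C
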