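import Mathlib

/-!
# Hilbertian fields
-/

open Polynomial

namespace Pool.Agent.MP1bdb59C

/-- A field `k` is Hilbertian if for finitely many polynomials `F_i(X,Y)`, irreducible and separable
over `k(X)`, there are infinitely many `c` in `k` such that all `F_i(c,Y)` are irreducible. -/
def IsHilbertian (k : Type*) [Field k] : Prop :=
  ∀ S : Finset (k[X])[X],
    (∀ F ∈ S, Irreducible (F.map (algebraMap k[X] (RatFunc k))) ∧
      (F.map (algebraMap k[X] (RatFunc k))).Separable) →
    {c : k | ∀ F ∈ S, Irreducible (F.map (evalRingHom c))}.Infinite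

end Pool.Agent.MP1bdb59C
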