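import Mathlib
import Pool.Agent.MP1bdb59C.HilbDef

/-!
# Hilbert's irreducibility theorem: definitions

`g : R[X][X]` is a polynomial `g(x, Y)`: the inner variable is `x`, the outer one is `Y`.
`g(c, Y)` is `g.map (evalRingHom c)`.
-/

open Polynomial

noncomputable section

namespace Pool.Agent.MP1bdb59C

variable (R K : Type*) [CommRing R] [IsDomain R] [Field K] [Algebra R K] [IsFractionRing R K]

/-- `g(x, Y)`, with coefficients in `R`, is irreducible over `K(x)`. -/
def IrrOver (g : R[X][X]) : Prop :=
  Irreducible (g.map ((algebraMap K[X] (RatFunc K)).comp (mapRingHom (algebraMap R K))))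

/-- For finitely many monic `g(x, Y)` of degree at least 2, irreducible over `K(x)`, there are
infinitely many `c` such that no `g(c, Y)` has a root. -/
def NoRootInf : Prop :=
  ∀ S : Finset R[X][X], (∀ g ∈ S, g.Monic ∧ 2 ≤ g.natDegree ∧ IrrOver R K g) →
    {c : R | ∀ g ∈ S, ∀ y : R, (g.map (evalRingHom c)).eval y ≠ 0}.Infinite

end Pool.Agent.MP1bdb59C
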