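import Mathlib
import Pool.Agent.MP1bdb59C.HitDef

/-!
# Hilbert's irreducibility theorem: from roots to factors
-/

open Polynomial

noncomputable section

open scoped Classical

namespace Pool.Agent.MP1bdb59C

namespace HitRed

/-- A homomorphism to an algebraically closed field extends to an integral extension. -/
theorem exists_extension {A B M : Type*} [CommRing A] [CommRing B] [IsDomain B] [Algebra A B]
    [Algebra.IsIntegral A B] (hinj : Function.Injective (algebraMap A B)) [Field M] [IsAlgClosed M]
    (f : A →+* M) : ∃ φ : B →+* M, φ.comp (algebraMap A B) = f := by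
  have hP : (RingHom.ker f).IsPrime := RingHom.ker_isPrime f
  obtain ⟨Q, hQ, hQP⟩ := Ideal.exists_ideal_over_prime_of_isIntegral_of_isDomain (S := B)
    (RingHom.ker f) (by rw [(RingHom.injective_iff_ker_eq_bot _).1 hinj]; exact bot_le)
  let f' : (A ⧸ RingHom.ker f) →+* M := Ideal.Quotient.lift _ f (fun a ha => ha)
  have hf'mk : ∀ a, f' (Ideal.Quotient.mk _ a) = f a := fun a => Ideal.Quotient.lift_mk _ _ _
  have hf' : Function.Injective f' := by
    rw [injective_iff_map_eq_zero]
    intro a ha
    obtain ⟨a, rfl⟩ := Ideal.Quotient.mk_surjective a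
    rw [hf'mk] at ha
    exact Ideal.Quotient.eq_zero_iff_mem.2 ha
  let ι : (A ⧸ RingHom.ker f) →+* (B ⧸ Q) := Ideal.quotientMap Q (algebraMap A B) (by rw [hQP])
  have hιmk : ∀ a, ι (Ideal.Quotient.mk _ a) = Ideal.Quotient.mk Q (algebraMap A B a) :=
    fun a => Ideal.quotientMap_mk
  have hι : Function.Injective ι := Ideal.quotientMap_injective' (by rw [hQP])
  have hint : ι.IsIntegral := by
    intro b
    obtain ⟨b, rfl⟩ := Ideal.Quotient.mk_surjective b
    obtain ⟨p, hp, hpb⟩ := Algebra.IsIntegral.isIntegral (R := A) b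
    refine ⟨p.map (Ideal.Quotient.mk _), hp.map _, ?_⟩
    rw [eval₂_map]
    have h1 : ι.comp (Ideal.Quotient.mk (RingHom.ker f)) =
        (Ideal.Quotient.mk Q).comp (algebraMap A B) := RingHom.ext hιmk
    rw [h1, ← hom_eval₂, hpb, map_zero]
  clear_value f' ι
  have key : ∀ (A' B' : Type _) [CommRing A'] [CommRing B'] [IsDomain A'] [IsDomain B']
      (f' : A' →+* M) (ι : A' →+* B'), Function.Injective f' → Function.Injective ι →
      ι.IsIntegral → ∃ g : B' →+* M, g.comp ι = f' := by
    intro A' B' _ _ _ _ f' ι hf' hι hint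
    letI : Algebra A' M := f'.toAlgebra
    letI : Algebra A' B' := ι.toAlgebra
    haveI : Module.IsTorsionFree A' B' := Module.isTorsionFree_iff_algebraMap_injective.2 hι
    haveI : Module.IsTorsionFree A' M := Module.isTorsionFree_iff_algebraMap_injective.2 hf'
    haveI : Algebra.IsIntegral A' B' := ⟨hint⟩
    let g : B' →ₐ[A'] M := IsAlgClosed.lift
    exact ⟨g, RingHom.ext g.commutes⟩
  haveI : IsDomain (A ⧸ RingHom.ker f) := Ideal.Quotient.isDomain _
  haveI : IsDomain (B ⧸ Q) := Ideal.Quotient.isDomain _
  obtain ⟨g, hg⟩ := key _ _ f' ι hf' hι hint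
  refine ⟨g.comp (Ideal.Quotient.mk Q), RingHom.ext fun a => ?_⟩
  rw [RingHom.comp_apply, RingHom.comp_apply, ← hιmk, ← hf'mk, ← hg, RingHom.comp_apply]

/-- A monic divisor of a product of linear factors is a product of some of them. -/
theorem exists_subset_of_dvd_prod {ι M : Type*} [Field M] (f : ι → M) (s : Finset ι) :
    ∀ G : M[X], G.Monic → G ∣ ∏ i ∈ s, (X - C (f i)) → ∃ T ⊆ s, G = ∏ i ∈ T, (X - C (f i)) := by
  induction s using Finset.induction_on with
  | empty =>
    intro G hG hd
    refine ⟨∅, le_rfl, ?_⟩
    rw [Finset.prod_empty] at hd ⊢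
    exact hG.isUnit_iff.1 (isUnit_of_dvd_one hd)
  | insert a s ha ih =>
    intro G hG hd
    rw [Finset.prod_insert ha] at hd
    by_cases h : (X - C (f a)) ∣ G
    · obtain ⟨G', rfl⟩ := h
      have hG' : G'.Monic := (monic_X_sub_C (f a)).of_mul_monic_left hG
      obtain ⟨T, hT, rfl⟩ := ih G' hG' ((mul_dvd_mul_iff_left (X_sub_C_ne_zero (f a))).1 hd)
      exact ⟨insert a T, Finset.insert_subset_insert a hT,
        (Finset.prod_insert (fun h => ha (hT h))).symm⟩
    · have hcop : IsCoprime G (X - C (f a)) :=
        ((irreducible_X_sub_C (f a)).coprime_iff_not_dvd.2 h).symm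
      obtain ⟨T, hT, rfl⟩ := ih G hG (hcop.dvd_of_dvd_mul_left hd)
      exact ⟨T, hT.trans (Finset.subset_insert a s), rfl⟩

/-- The abstract form of the reduction. -/
theorem exists_finset {A E R K : Type*} [CommRing A] [IsDomain A] [IsIntegrallyClosed A] [Field E]
    [CharZero E] [Algebra A E] [IsFractionRing A E] [CommRing R] [IsDomain R] [IsIntegrallyClosed R]
    [Field K] [Algebra R K] [IsFractionRing R K] (F : A[X]) (hF : F.Monic)
    (hirr : Irreducible (F.map (algebraMap A E))) :
    ∃ S : Finset A[X], (∀ g ∈ S, g.Monic ∧ 2 ≤ g.natDegree ∧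
        Irreducible (g.map (algebraMap A E))) ∧
      ∀ e : A →+* R, (∀ g ∈ S, ∀ y : R, (g.map e).eval y ≠ 0) →
        Irreducible ((F.map e).map (algebraMap R K)) := by
  let L := AlgebraicClosure E
  set F₀ : E[X] := F.map (algebraMap A E) with hF₀
  have hF₀m : F₀.Monic := hF.map _
  set s : Finset L := (F₀.aroots L).toFinset with hs
  have hmap : F.map (algebraMap A L) = F₀.map (algebraMap E L) := by
    rw [hF₀, Polynomial.map_map, ← IsScalarTower.algebraMap_eq]
  have hprod : F.map (algebraMap A L) = ∏ r ∈ s, (X - C r) := by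
    have hnd : (F₀.aroots L).Nodup := nodup_roots (hirr.separable.map)
    rw [hmap, hs, Finset.prod, Multiset.toFinset_val, hnd.dedup]
    exact (IsAlgClosed.splits (F₀.map (algebraMap E L))).eq_prod_roots_of_monic (hF₀m.map _)
  have hint : ∀ r ∈ s, IsIntegral A r := by
    intro r hr
    refine ⟨F, hF, ?_⟩
    rw [← eval_map, hprod, eval_prod]
    exact Finset.prod_eq_zero hr (by simp)
  let B := integralClosure A L
  have hAE : Function.Injective (algebraMap A E) := IsFractionRing.injective A E
  have hBL : Function.Injective (algebraMap B L) := Subtype.val_injective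
  have hAB : Function.Injective (algebraMap A B) := by
    have h : Function.Injective (algebraMap A L) := by
      rw [IsScalarTower.algebraMap_eq A E L]
      exact (algebraMap E L).injective.comp hAE
    rw [IsScalarTower.algebraMap_eq A B L, RingHom.coe_comp] at h
    exact Function.Injective.of_comp h
  obtain ⟨s', hs'⟩ : ∃ s' : Finset B, F.map (algebraMap A B) = ∏ r ∈ s', (X - C r) := by
    let ι : s ↪ B := ⟨fun r => ⟨r.1, hint r.1 r.2⟩, fun a b h => Subtype.ext
      (congrArg (fun x : B => (x : L)) h)⟩
    refine ⟨s.attach.map ι, ?_⟩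
    apply Polynomial.map_injective _ hBL
    rw [Polynomial.map_map, ← IsScalarTower.algebraMap_eq, hprod, Finset.prod_map,
      Polynomial.map_prod, ← Finset.prod_attach]
    refine Finset.prod_congr rfl fun r _ => ?_
    rw [Polynomial.map_sub, map_X, map_C]
    rfl
  have hcard : s'.card = F.natDegree := by
    have h := congrArg natDegree hs'
    rw [natDegree_map_eq_of_injective hAB, natDegree_prod_of_monic _ _
      fun r _ => monic_X_sub_C r] at h
    simpa using h.symm
  let P : Finset B → B[X] := fun T => ∏ r ∈ T, (X - C r)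
  have hPdeg : ∀ T, (P T).natDegree = T.card := fun T => by
    rw [natDegree_prod_of_monic _ _ fun r _ => monic_X_sub_C r]
    simp
  have hPm : ∀ T, (P T).Monic := fun T => monic_prod_of_monic _ _ fun r _ => monic_X_sub_C r
  have hex : ∀ T : Finset B, T ⊆ s' → T.Nonempty → T ≠ s' →
      ∃ j, ((P T).coeff j : L) ∉ (algebraMap E L).range := by
    intro T hT hne hTs
    by_contra hcon
    push Not at hcon
    have hl : (P T).map (algebraMap B L) ∈ lifts (algebraMap E L) := by
      rw [lifts_iff_coeff_lifts]
      intro j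
      rw [coeff_map]
      exact hcon j
    obtain ⟨q, hq⟩ := (mem_lifts _).1 hl
    have hdvd : q ∣ F₀ := by
      rw [← Polynomial.map_dvd_map' (algebraMap E L), hq, ← hmap,
        IsScalarTower.algebraMap_eq A B L, ← Polynomial.map_map, hs']
      exact (Polynomial.map_dvd _ (Finset.prod_dvd_prod_of_subset _ _ _ hT))
    have hqdeg : q.natDegree = T.card := by
      rw [← natDegree_map (algebraMap E L), hq, natDegree_map_eq_of_injective hBL, hPdeg]
    have hlt : T.card < s'.card := Finset.card_lt_card (Finset.ssubset_iff_subset_ne.2 ⟨hT, hTs⟩)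
    rcases (irreducible_iff.1 hirr).2 (hdvd.choose_spec) with h | h
    · have := natDegree_eq_zero_of_isUnit h
      rw [hqdeg] at this
      exact hne.card_pos.ne' this
    · have h0 := natDegree_eq_zero_of_isUnit h
      have h1 := congrArg natDegree hdvd.choose_spec
      have hne0 : q * hdvd.choose ≠ 0 := by rw [← hdvd.choose_spec]; exact hirr.ne_zero
      rw [natDegree_mul (left_ne_zero_of_mul hne0) (right_ne_zero_of_mul hne0), h0, hqdeg,
        hF.natDegree_map, ← hcard] at h1
      omega
  choose! j hj using hex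
  let z : Finset B → B := fun T => (P T).coeff (j T)
  have hzint : ∀ T, IsIntegral A (z T) := fun T => Algebra.IsIntegral.isIntegral _
  have hmin : ∀ T, minpoly E (z T : L) = (minpoly A (z T)).map (algebraMap A E) := fun T =>
    minpoly.isIntegrallyClosed_eq_field_fractions E L (hzint T)
  refine ⟨(s'.powerset.filter fun T => T.Nonempty ∧ T ≠ s').image fun T => minpoly A (z T),
    ?_, ?_⟩
  · intro g hg
    obtain ⟨T, hT, rfl⟩ := Finset.mem_image.1 hg
    rw [Finset.mem_filter, Finset.mem_powerset] at hT
    have hzE : IsIntegral E (z T : L) := Algebra.IsIntegral.isIntegral _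
    refine ⟨minpoly.monic (hzint T), ?_, ?_⟩
    · rw [← (minpoly.monic (hzint T)).natDegree_map (algebraMap A E), ← hmin,
        minpoly.two_le_natDegree_iff hzE]
      exact hj T hT.1 hT.2.1 hT.2.2
    · rw [← hmin]
      exact minpoly.irreducible hzE
  · intro e he
    let M := AlgebraicClosure K
    obtain ⟨φ, hφ⟩ := exists_extension hAB ((algebraMap R M).comp e)
    have hRM : Function.Injective (algebraMap R M) := by
      rw [IsScalarTower.algebraMap_eq R K M]
      exact (algebraMap K M).injective.comp (IsFractionRing.injective R K)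
    have hFm : ((F.map e).map (algebraMap R K)).Monic := (hF.map _).map _
    have hFdeg : ((F.map e).map (algebraMap R K)).natDegree = s'.card := by
      rw [(hF.map e).natDegree_map, hF.natDegree_map, hcard]
    have hspos : 0 < s'.card := by
      rw [hcard, ← hF.natDegree_map (algebraMap A E)]
      exact hirr.natDegree_pos
    rw [hFm.irreducible_iff_natDegree']
    refine ⟨fun h => ?_, ?_⟩
    · rw [h, natDegree_one] at hFdeg
      omega
    · intro G' G hG' hG hmul hmem
      rw [Finset.mem_Ioc, hFdeg] at hmem
      have hGd : G ∣ (F.map e).map (algebraMap R K) := ⟨G', by rw [← hmul, mul_comm]⟩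
      obtain ⟨G₁, hG₁⟩ := IsIntegrallyClosed.eq_map_mul_C_of_dvd K (hF.map e) hGd
      rw [hG.leadingCoeff, C_1, mul_one] at hG₁
      have hFM : ((F.map e).map (algebraMap R K)).map (algebraMap K M) =
          ∏ r ∈ s', (X - C (φ r)) := by
        rw [Polynomial.map_map, ← IsScalarTower.algebraMap_eq, Polynomial.map_map, ← hφ,
          ← Polynomial.map_map, hs', Polynomial.map_prod]
        exact Finset.prod_congr rfl fun r _ => by rw [Polynomial.map_sub, map_X, map_C]
      obtain ⟨T, hT, hGT⟩ := exists_subset_of_dvd_prod φ s' (G.map (algebraMap K M)) (hG.map _)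
        (by rw [← hFM]; exact Polynomial.map_dvd _ hGd)
      have hTdeg : T.card = G.natDegree := by
        have h := congrArg natDegree hGT
        rw [natDegree_map, natDegree_prod_of_monic _ _ fun r _ => monic_X_sub_C _] at h
        simpa using h.symm
      have hTne : T.Nonempty := by
        rw [← Finset.card_pos, hTdeg]; exact hmem.1
      have hTs : T ≠ s' := by
        rintro rfl
        omega
      have hφz : φ (z T) = algebraMap R M (G₁.coeff (j T)) := by
        have h1 : (P T).map φ = G.map (algebraMap K M) := by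
          rw [hGT, Polynomial.map_prod]
          exact Finset.prod_congr rfl fun r _ => by rw [Polynomial.map_sub, map_X, map_C]
        have h2 := congrArg (fun p => p.coeff (j T)) h1
        simp only [coeff_map] at h2
        rw [h2, ← hG₁, coeff_map, ← IsScalarTower.algebraMap_apply]
      refine he (minpoly A (z T)) (Finset.mem_image.2 ⟨T, Finset.mem_filter.2
        ⟨Finset.mem_powerset.2 hT, hTne, hTs⟩, rfl⟩) (G₁.coeff (j T)) ?_
      apply hRM
      rw [map_zero, ← eval₂_at_apply, eval₂_map, ← hφ, ← hφz, ← hom_eval₂]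
      have h3 : eval₂ (algebraMap A B) (z T) (minpoly A (z T)) = 0 := minpoly.aeval A (z T)
      rw [h3, map_zero]

/-- `K(x)` is the field of fractions of `R[x]`. -/
theorem isFractionRing_ratFunc (R K : Type*) [CommRing R] [IsDomain R] [Field K] [Algebra R K]
    [IsFractionRing R K] :
    letI : Algebra R[X] (RatFunc K) :=
      ((algebraMap K[X] (RatFunc K)).comp (mapRingHom (algebraMap R K))).toAlgebra
    IsFractionRing R[X] (RatFunc K) := by
  letI : Algebra R[X] (RatFunc K) :=
    ((algebraMap K[X] (RatFunc K)).comp (mapRingHom (algebraMap R K))).toAlgebra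
  have hinj : Function.Injective (algebraMap R[X] (RatFunc K)) :=
    (RatFunc.algebraMap_injective K).comp (map_injective _ (IsFractionRing.injective R K))
  haveI : FaithfulSMul R[X] (RatFunc K) := (faithfulSMul_iff_algebraMap_injective _ _).2 hinj
  have key : ∀ p : K[X], ∃ (b : R) (q : R[X]), b ≠ 0 ∧
      q.map (algebraMap R K) = C (algebraMap R K b) * p := by
    intro p
    obtain ⟨b, hb', hb⟩ := IsLocalization.integerNormalization_spec (nonZeroDivisors R) p
    refine ⟨b, IsLocalization.integerNormalization (nonZeroDivisors R) p,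
      nonZeroDivisors.ne_zero hb', ?_⟩
    rw [hb, ← Polynomial.smul_eq_C_mul, algebraMap_smul]
  refine IsFractionRing.of_field _ _ fun x => ?_
  obtain ⟨b, q, hb, hq⟩ := key x.num
  obtain ⟨b', q', hb', hq'⟩ := key x.denom
  refine ⟨C b' * q, C b * q', ?_⟩
  have h1 : algebraMap R[X] (RatFunc K) (C b' * q) =
      algebraMap K[X] (RatFunc K) (C (algebraMap R K b') * C (algebraMap R K b) * x.num) := by
    change algebraMap K[X] (RatFunc K) ((C b' * q).map (algebraMap R K)) = _
    rw [Polynomial.map_mul, hq, map_C, mul_assoc]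
  have h2 : algebraMap R[X] (RatFunc K) (C b * q') =
      algebraMap K[X] (RatFunc K) (C (algebraMap R K b') * C (algebraMap R K b) * x.denom) := by
    change algebraMap K[X] (RatFunc K) ((C b * q').map (algebraMap R K)) = _
    rw [Polynomial.map_mul, hq', map_C]
    congr 1
    ring
  have h3 : algebraMap K[X] (RatFunc K) (C (algebraMap R K b') * C (algebraMap R K b)) ≠ 0 := by
    rw [Ne, map_eq_zero_iff _ (RatFunc.algebraMap_injective K), ← C_mul, C_eq_zero, mul_eq_zero,
      not_or]
    exact ⟨fun h => hb' (IsFractionRing.injective R K (by rw [h, map_zero])),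
      fun h => hb (IsFractionRing.injective R K (by rw [h, map_zero]))⟩
  rw [h1, h2, map_mul, map_mul _ _ x.denom, mul_div_mul_left _ _ h3, RatFunc.num_div_denom]

end HitRed

/-- Finitely many auxiliary polynomials without roots at `c` force the irreducibility of
`F(c, Y)`. -/
theorem exists_irreducible_of_noRoot {R K : Type*} [CommRing R] [IsDomain R] [IsIntegrallyClosed R]
    [CharZero R] [Field K] [Algebra R K] [IsFractionRing R K] (F : R[X][X]) (hF : F.Monic)
    (hirr : IrrOver R K F) :
    ∃ S : Finset R[X][X], (∀ g ∈ S, g.Monic ∧ 2 ≤ g.natDegree ∧ IrrOver R K g) ∧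
      ∀ c : R, (∀ g ∈ S, ∀ y : R, (g.map (evalRingHom c)).eval y ≠ 0) →
        Irreducible ((F.map (evalRingHom c)).map (algebraMap R K)) := by
  letI : Algebra R[X] (RatFunc K) :=
    ((algebraMap K[X] (RatFunc K)).comp (mapRingHom (algebraMap R K))).toAlgebra
  haveI : IsFractionRing R[X] (RatFunc K) := HitRed.isFractionRing_ratFunc R K
  haveI : CharZero K := charZero_of_injective_algebraMap (IsFractionRing.injective R K)
  obtain ⟨S, hS, h⟩ := HitRed.exists_finset (E := RatFunc K) (R := R) (K := K) F hF hirr
  exact ⟨S, hS, fun c hc => h (evalRingHom c) hc⟩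

end Pool.Agent.MP1bdb59C
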