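import Mathlib
import Pool.Agent.MP1bdb59C.HitRed

/-!
# Hilbertian fields: reduction to monic polynomials without roots
-/

open Polynomial

noncomputable section

open scoped Classical

namespace Pool.Agent.MP1bdb59C

lemma irreducible_scaleRoots {K : Type*} [Field K] {p : K[X]} {a : K} (ha : a ≠ 0)
    (hp : Irreducible p) : Irreducible (p.scaleRoots a) := by
  have hinv : ∀ q : K[X], (q.scaleRoots a).scaleRoots a⁻¹ = q := fun q => by
    rw [← scaleRoots_mul, mul_inv_cancel₀ ha, scaleRoots_one]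
  have hunit : ∀ q : K[X], q ≠ 0 → IsUnit (q.scaleRoots a⁻¹) → IsUnit q := by
    intro q hq hu
    rw [isUnit_iff_degree_eq_zero, degree_scaleRoots] at hu
    exact isUnit_iff_degree_eq_zero.mpr hu
  refine ⟨fun hu => hp.not_isUnit ?_, fun G H hGH => ?_⟩
  · rw [isUnit_iff_degree_eq_zero, degree_scaleRoots] at hu
    exact isUnit_iff_degree_eq_zero.mpr hu
  · have h1 : p = G.scaleRoots a⁻¹ * H.scaleRoots a⁻¹ := by
      rw [← mul_scaleRoots_of_noZeroDivisors, ← hGH, hinv]
    have hne : p.scaleRoots a ≠ 0 := scaleRoots_ne_zero hp.ne_zero a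
    rw [hGH] at hne
    rcases hp.isUnit_or_isUnit h1 with h | h
    · exact Or.inl (hunit G (left_ne_zero_of_mul hne) h)
    · exact Or.inr (hunit H (right_ne_zero_of_mul hne) h)

lemma irreducible_scaleRoots_iff {K : Type*} [Field K] {p : K[X]} {a : K} (ha : a ≠ 0) :
    Irreducible (p.scaleRoots a) ↔ Irreducible p := by
  refine ⟨fun h => ?_, irreducible_scaleRoots ha⟩
  have h1 := irreducible_scaleRoots (inv_ne_zero ha) h
  rwa [← scaleRoots_mul, mul_inv_cancel₀ ha, scaleRoots_one] at h1

/-- A monic polynomial with the same splitting behaviour. -/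
lemma exists_monic {K : Type*} [Field K] (F : K[X][X]) (hF0 : F ≠ 0) :
    ∃ F₁ : K[X][X], F₁.Monic ∧ F₁.natDegree = F.natDegree ∧
      ∀ (E : Type _) [Field E] (φ : K[X] →+* E), φ F.leadingCoeff ≠ 0 →
        (Irreducible (F₁.map φ) ↔ Irreducible (F.map φ)) := by
  refine ⟨F.integralNormalization, monic_integralNormalization hF0,
    natDegree_integralNormalization, fun E _ φ hφ => ?_⟩
  have h1 := congrArg (Polynomial.map φ) (integralNormalization_mul_C_leadingCoeff F)
  rw [Polynomial.map_mul, map_C, map_scaleRoots _ _ _ hφ] at h1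
  rw [← irreducible_scaleRoots_iff hφ (p := F.map φ), ← h1]
  exact (irreducible_mul_isUnit (isUnit_C.mpr (IsUnit.mk0 _ hφ))).symm

/-- Clearing denominators. -/
lemma exists_integral (R : Type*) {K : Type*} [CommRing R] [IsDomain R] [Field K] [Algebra R K]
    [IsFractionRing R K] (F₁ : K[X][X]) (hF₁ : F₁.Monic) :
    ∃ (r : R) (F₂ : R[X][X]), r ≠ 0 ∧ F₂.Monic ∧
      F₂.map (mapRingHom (algebraMap R K)) = F₁.scaleRoots (C (algebraMap R K r)) := by
  obtain ⟨r, hr⟩ := IsLocalization.exist_integer_multiples_of_finset (nonZeroDivisors R)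
    ((Finset.range (F₁.natDegree + 1)).biUnion fun i => (F₁.coeff i).coeffs)
  have hr0 : (r : R) ≠ 0 := nonZeroDivisors.ne_zero r.2
  have hlift : F₁.scaleRoots (C (algebraMap R K r)) ∈ lifts (mapRingHom (algebraMap R K)) := by
    rw [lifts_iff_coeff_lifts]
    intro i
    rw [coeff_scaleRoots]
    rcases lt_trichotomy i F₁.natDegree with h | h | h
    · obtain ⟨j, hj⟩ := Nat.exists_eq_add_of_lt h
      have h2 : F₁.natDegree - i = j + 1 := by omega
      rw [h2, pow_succ', ← mul_assoc]
      have h3 : F₁.coeff i * C (algebraMap R K r) ∈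
          (mapRingHom (algebraMap R K)).range := by
        change F₁.coeff i * C (algebraMap R K r) ∈ lifts (algebraMap R K)
        rw [lifts_iff_coeff_lifts]
        intro l
        rw [coeff_mul_C]
        by_cases h0 : (F₁.coeff i).coeff l = 0
        · rw [h0, zero_mul]
          exact ⟨0, map_zero _⟩
        · obtain ⟨y, hy⟩ := hr ((F₁.coeff i).coeff l) (by
            rw [Finset.mem_biUnion]
            exact ⟨i, Finset.mem_range.mpr (by omega), coeff_mem_coeffs h0⟩)
          refine ⟨y, ?_⟩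
          rw [hy, Algebra.smul_def, mul_comm]
      obtain ⟨y, hy⟩ := h3
      refine ⟨y * C (r : R) ^ j, ?_⟩
      rw [map_mul, hy, map_pow, coe_mapRingHom, map_C]
    · rw [h, Nat.sub_self, pow_zero, mul_one, hF₁.coeff_natDegree]
      exact ⟨1, map_one _⟩
    · rw [coeff_eq_zero_of_natDegree_lt h, zero_mul]
      exact ⟨0, map_zero _⟩
  obtain ⟨F₂, hF₂⟩ := (mem_lifts _).mp hlift
  refine ⟨r, F₂, hr0, ?_, hF₂⟩
  have hinj : Function.Injective (mapRingHom (algebraMap R K)) :=
    map_injective _ (IsFractionRing.injective R K)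
  apply monic_of_injective hinj
  rw [hF₂, monic_scaleRoots_iff]
  exact hF₁

theorem isHilbertian_of_noRootInf {R K : Type*} [CommRing R] [IsDomain R] [IsIntegrallyClosed R]
    [CharZero R] [Field K] [Algebra R K] [IsFractionRing R K] (h : NoRootInf R K) :
    IsHilbertian K := by
  intro S hS
  have key : ∀ F : S, ∃ T : Finset R[X][X], (∀ g ∈ T, g.Monic ∧ 2 ≤ g.natDegree ∧ IrrOver R K g) ∧
      ∀ c : R, (F.1.leadingCoeff).eval (algebraMap R K c) ≠ 0 →
        (∀ g ∈ T, ∀ y : R, (g.map (evalRingHom c)).eval y ≠ 0) →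
        Irreducible (F.1.map (evalRingHom (algebraMap R K c))) := by
    rintro ⟨F, hF⟩
    obtain ⟨hirr, -⟩ := hS F hF
    have hF0 : F ≠ 0 := by
      rintro rfl
      rw [Polynomial.map_zero] at hirr
      exact hirr.ne_zero rfl
    have hlc : F.leadingCoeff ≠ 0 := leadingCoeff_ne_zero.mpr hF0
    obtain ⟨F₁, hF₁m, hF₁n, hF₁⟩ := exists_monic F hF0
    obtain ⟨r, F₂, hr, hF₂m, hF₂⟩ := exists_integral R F₁ hF₁m
    have hrK : algebraMap R K r ≠ 0 := by rwa [Ne, IsFractionRing.to_map_eq_zero_iff]
    have hφ : ∀ (E : Type _) [Field E] (φ : K[X] →+* E),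
        (Irreducible ((F₂.map (mapRingHom (algebraMap R K))).map φ) ↔ Irreducible (F₁.map φ)) := by
      intro E _ φ
      have h1 : φ (C (algebraMap R K r)) ≠ 0 := by
        have h2 := (φ.comp C).injective.ne hrK
        rwa [map_zero] at h2
      rw [hF₂, map_scaleRoots _ _ _ (by rw [hF₁m.leadingCoeff, map_one]; exact one_ne_zero)]
      exact irreducible_scaleRoots_iff h1
    have hirr₂ : IrrOver R K F₂ := by
      unfold IrrOver
      rw [← Polynomial.map_map, hφ, hF₁]
      · exact hirr
      · rwa [Ne, map_eq_zero_iff _ (IsFractionRing.injective K[X] (RatFunc K))]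
    obtain ⟨T, hT1, hT2⟩ := exists_irreducible_of_noRoot F₂ hF₂m hirr₂
    refine ⟨T, hT1, fun c hc hcT => ?_⟩
    have h3 := hT2 c hcT
    have h4 : (F₂.map (evalRingHom c)).map (algebraMap R K) =
        (F₂.map (mapRingHom (algebraMap R K))).map (evalRingHom (algebraMap R K c)) := by
      rw [Polynomial.map_map, Polynomial.map_map]
      congr 1
      apply Polynomial.ringHom_ext
      · intro a
        simp
      · simp
    rw [h4, hφ, hF₁] at h3
    · exact h3
    · exact hc
  choose T hT1 hT2 using key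
  have hinf := h (Finset.univ.biUnion T) (by
    intro g hg
    rw [Finset.mem_biUnion] at hg
    obtain ⟨F, -, hg⟩ := hg
    exact hT1 F g hg)
  have hinj : Function.Injective (algebraMap R K) := IsFractionRing.injective R K
  have hbad : {c : R | ∃ F ∈ S, F.leadingCoeff.eval (algebraMap R K c) = 0}.Finite := by
    have h1 : {x : K | ∃ F ∈ S, F.leadingCoeff.eval x = 0}.Finite := by
      have h2 : {x : K | ∃ F ∈ S, F.leadingCoeff.eval x = 0} =
          ⋃ F ∈ S, {x : K | F.leadingCoeff.eval x = 0} := by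
        ext x
        simp
      rw [h2]
      refine Set.Finite.biUnion S.finite_toSet fun F hF => ?_
      obtain ⟨hirr, -⟩ := hS F hF
      have hF0 : F ≠ 0 := by
        rintro rfl
        rw [Polynomial.map_zero] at hirr
        exact hirr.ne_zero rfl
      have hlc : F.leadingCoeff ≠ 0 := leadingCoeff_ne_zero.mpr hF0
      refine (F.leadingCoeff.roots.toFinset.finite_toSet).subset fun c hc => ?_
      rw [Finset.mem_coe, Multiset.mem_toFinset, mem_roots hlc]
      exact hc
    exact Set.Finite.preimage (f := algebraMap R K) hinj.injOn h1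
  have h5 := ((hinf.sdiff hbad).image hinj.injOn)
  refine h5.mono ?_
  rintro _ ⟨c, ⟨hc1, hc2⟩, rfl⟩ F hF
  refine hT2 ⟨F, hF⟩ c ?_ ?_
  · intro h0
    exact hc2 ⟨F, hF, h0⟩
  · intro g hg
    exact hc1 g (Finset.mem_biUnion.mpr ⟨_, Finset.mem_univ _, hg⟩)

end Pool.Agent.MP1bdb59C
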