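import Mathlib
import Pool.Agent.MP1bdb59C.HilbDef

/-!
# Hilbert specialisation of a function field and of its Kummer extensions
-/

open Polynomial

noncomputable section

open scoped Classical IntermediateField

set_option linter.unusedSectionVars false
set_option linter.unusedVariables false

namespace Pool.Agent.MP1bdb59C

namespace Hilb

lemma inj_L (k L : Type*) [Field k] [Field L] [Algebra k[X] L] [Algebra (RatFunc k) L]
    [IsScalarTower k[X] (RatFunc k) L] : Function.Injective (algebraMap k[X] L) := by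
  rw [IsScalarTower.algebraMap_eq k[X] (RatFunc k) L]
  exact (algebraMap (RatFunc k) L).injective.comp (IsFractionRing.injective k[X] (RatFunc k))

section

variable {k O L : Type*} [Field k] [CommRing O] [IsDomain O] [Field L] [Algebra O L]
  [IsFractionRing O L] [Algebra k[X] O] [Algebra k[X] L] [IsScalarTower k[X] O L]
  [Algebra k O] [IsScalarTower k k[X] O] [Algebra k L] [IsScalarTower k k[X] L]
  [Algebra (RatFunc k) L] [IsScalarTower k[X] (RatFunc k) L] [FiniteDimensional (RatFunc k) L]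
  [Algebra.IsSeparable (RatFunc k) L]

include L in
variable (k O L) in
lemma inj_O : Function.Injective (algebraMap k[X] O) := by
  have h := inj_L k L
  rw [IsScalarTower.algebraMap_eq k[X] O L] at h
  exact Function.Injective.of_comp h

lemma mk_algebraMap (I : Ideal O) (c : k) (hc : algebraMap k[X] O (X - C c) ∈ I) (p : k[X]) :
    Ideal.Quotient.mk I (algebraMap k[X] O p) = algebraMap k (O ⧸ I) (p.eval c) := by
  obtain ⟨q, hq⟩ := X_sub_C_dvd_sub_C_eval (a := c) (p := p)
  have h1 : algebraMap k (O ⧸ I) (p.eval c) = Ideal.Quotient.mk I (algebraMap k[X] O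
      (C (p.eval c))) := by
    rw [IsScalarTower.algebraMap_apply k O (O ⧸ I), IsScalarTower.algebraMap_apply k k[X] O]
    rfl
  rw [h1, ← sub_eq_zero, ← map_sub, ← map_sub, hq, map_mul, Ideal.Quotient.eq_zero_iff_mem]
  exact I.mul_mem_right _ hc

include L in
variable (L) in
lemma exists_rel {ι : Type*} [Fintype ι] (x : ι → O) (c : k)
    (hx : ¬ LinearIndependent k[X] x) :
    ∃ a : ι → k[X], ∑ i, a i • x i = 0 ∧ ∃ i, ¬ (X - C c) ∣ a i := by
  rw [Fintype.not_linearIndependent_iff] at hx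
  obtain ⟨g, hg, i₀, hi₀⟩ := hx
  have key : ∀ (n : ℕ) (g : ι → k[X]), (g i₀).natDegree = n → ∑ i, g i • x i = 0 → g i₀ ≠ 0 →
      ∃ a : ι → k[X], ∑ i, a i • x i = 0 ∧ ∃ i, ¬ (X - C c) ∣ a i := by
    intro n
    induction n using Nat.strong_induction_on with
    | _ n ih =>
      intro g hn hg hg0
      by_cases hd : ∀ i, (X - C c) ∣ g i
      · choose h hh using hd
        have h0 : h i₀ ≠ 0 := by
          intro h0
          apply hg0
          rw [hh, h0, mul_zero]
        have h1 : ∑ i, h i • x i = 0 := by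
          have h2 : algebraMap k[X] O (X - C c) * ∑ i, h i • x i = 0 := by
            rw [← hg, Finset.mul_sum]
            refine Finset.sum_congr rfl fun i _ => ?_
            rw [hh i, mul_smul, Algebra.smul_def (X - C c)]
          rcases mul_eq_zero.mp h2 with h3 | h3
          · exfalso
            exact X_sub_C_ne_zero c ((map_eq_zero_iff _ (inj_O k O L)).mp h3)
          · exact h3
        refine ih (h i₀).natDegree ?_ h rfl h1 h0
        rw [← hn, hh i₀, natDegree_mul (X_sub_C_ne_zero c) h0, natDegree_X_sub_C]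
        omega
      · push Not at hd
        exact ⟨g, hg, hd⟩
  exact key _ g rfl hg hi₀

include L in
variable (L) in
lemma card_le (I : Ideal O) (c : k) (hc : algebraMap k[X] O (X - C c) ∈ I)
    (s : Finset (O ⧸ I)) (hs : LinearIndependent k fun i : s => (i : O ⧸ I)) :
    s.card ≤ Module.finrank (RatFunc k) L := by
  by_contra hcard
  choose x hx using fun i : s => Ideal.Quotient.mk_surjective (I := I) (i : O ⧸ I)
  have h1 : ¬ LinearIndependent k[X] x := by
    intro h
    have h2 : LinearIndependent k[X] (fun i => algebraMap O L (x i)) := by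
      have := h.map' (IsScalarTower.toAlgHom k[X] O L).toLinearMap
        (LinearMap.ker_eq_bot.mpr (IsFractionRing.injective O L))
      exact this
    have h3 : LinearIndependent (RatFunc k) (fun i => algebraMap O L (x i)) :=
      (LinearIndependent.iff_fractionRing k[X] (RatFunc k)).mp h2
    have h4 := h3.fintype_card_le_finrank
    rw [Fintype.card_coe] at h4
    exact hcard h4
  obtain ⟨a, ha, i₀, hi₀⟩ := exists_rel L x c h1
  have h2 : ∑ i, (a i).eval c • (i : O ⧸ I) = 0 := by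
    have h3 := congrArg (Ideal.Quotient.mk I) ha
    rw [map_zero, map_sum] at h3
    rw [← h3]
    refine Finset.sum_congr rfl fun i _ => ?_
    rw [Algebra.smul_def (a i), map_mul, mk_algebraMap I c hc, hx, Algebra.smul_def]
  have h4 := Fintype.linearIndependent_iff.mp hs (fun i => (a i).eval c) h2 i₀
  exact hi₀ (dvd_iff_isRoot.mpr h4)

end

end Hilb

open Hilb

section

variable {k O L : Type*} [Field k] [CommRing O] [IsDomain O] [Field L] [Algebra O L]
  [IsFractionRing O L] [Algebra k[X] O] [Algebra k[X] L] [IsScalarTower k[X] O L]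
  [Algebra k O] [IsScalarTower k k[X] O] [Algebra k L] [IsScalarTower k k[X] L]
  [Algebra (RatFunc k) L] [IsScalarTower k[X] (RatFunc k) L] [FiniteDimensional (RatFunc k) L]
  [Algebra.IsSeparable (RatFunc k) L]

/-- T2a: dimension bound (no maximality needed). -/
theorem finrank_quotient_le (I : Ideal O) (c : k) (hc : algebraMap k[X] O (X - C c) ∈ I) :
    Module.Finite k (O ⧸ I) ∧
      Module.finrank k (O ⧸ I) ≤ Module.finrank (RatFunc k) L := by
  have h1 : Module.rank k (O ⧸ I) ≤ Module.finrank (RatFunc k) L :=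
    rank_le (card_le L I c hc)
  have h2 : Module.Finite k (O ⧸ I) := by
    rw [← Module.rank_lt_aleph0_iff]
    exact h1.trans_lt (Cardinal.natCast_lt_aleph0)
  refine ⟨h2, ?_⟩
  rw [← Module.finrank_eq_rank] at h1
  exact_mod_cast h1

namespace Hilb

include O in
variable (O) in
lemma exists_mul_eq (e : L) : ∃ (p : k[X]) (d : O), p ≠ 0 ∧
    algebraMap k[X] L p * e = algebraMap O L d := by
  obtain ⟨a, b, hb, rfl⟩ := IsFractionRing.div_surjective (A := O) e
  have hb0 : algebraMap O L b ≠ 0 :=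
    (map_ne_zero_iff _ (IsFractionRing.injective O L)).mpr (nonZeroDivisors.ne_zero hb)
  have halg : IsAlgebraic k[X] b := by
    rw [← isAlgebraic_algebraMap_iff (IsFractionRing.injective O L)]
    have h1 : IsAlgebraic (RatFunc k) (algebraMap O L b) := Algebra.IsAlgebraic.isAlgebraic _
    exact (IsFractionRing.isAlgebraic_iff k[X] (RatFunc k) L).mpr h1
  obtain ⟨p, hp, d, hd⟩ := halg.exists_nonzero_dvd hb
  refine ⟨p, d * a, hp, ?_⟩
  rw [IsScalarTower.algebraMap_apply k[X] O L, hd, map_mul, map_mul]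
  field_simp

/-- a primitive element in the image of `D`, and its minimal polynomial. -/
lemma exists_prim {D E : Type*} [CommRing D] [Field E] [Algebra k[X] E] [Algebra (RatFunc k) E]
    [IsScalarTower k[X] (RatFunc k) E] [FiniteDimensional (RatFunc k) E]
    [Algebra.IsSeparable (RatFunc k) E] (j : k[X] →+* D) (ψ : D →+* E)
    (hj : ∀ p, ψ (j p) = algebraMap k[X] E p)
    (hψ : ∀ e : E, ∃ (p : k[X]) (d : D), p ≠ 0 ∧ algebraMap k[X] E p * e = ψ d) :
    ∃ (G : k[X][X]) (d : D), Irreducible (G.map (algebraMap k[X] (RatFunc k))) ∧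
      (G.map (algebraMap k[X] (RatFunc k))).Separable ∧ G.Monic ∧
      G.natDegree = Module.finrank (RatFunc k) E ∧ ψ (eval₂ j d G) = 0 := by
  obtain ⟨α₀, hα₀⟩ := Field.exists_primitive_element (RatFunc k) E
  obtain ⟨p, d, hp, hd⟩ := hψ α₀
  have halg : IsAlgebraic k[X] (ψ d) :=
    (IsFractionRing.isAlgebraic_iff k[X] (RatFunc k) E).mpr (Algebra.IsAlgebraic.isAlgebraic _)
  obtain ⟨y, hy, hint⟩ := halg.exists_integral_multiple
  have hinj : Function.Injective (algebraMap k[X] E) := inj_L k E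
  set α : E := y • ψ d with hα
  have hαψ : α = ψ (j y * d) := by rw [hα, Algebra.smul_def, map_mul, hj]
  have hmin : minpoly (RatFunc k) α = (minpoly k[X] α).map (algebraMap k[X] (RatFunc k)) :=
    minpoly.isIntegrallyClosed_eq_field_fractions' _ hint
  have htop : (RatFunc k)⟮α⟯ = ⊤ := by
    rw [eq_top_iff, ← hα₀, IntermediateField.adjoin_simple_le_iff]
    have h1 : algebraMap k[X] E (y * p) ≠ 0 :=
      (map_ne_zero_iff _ hinj).mpr (mul_ne_zero hy hp)
    have h2 : α₀ = algebraMap (RatFunc k) E (algebraMap k[X] (RatFunc k) (y * p))⁻¹ * α := by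
      rw [map_inv₀, ← IsScalarTower.algebraMap_apply, hα, ← hd, Algebra.smul_def, ← mul_assoc
        (algebraMap k[X] E y), ← map_mul, ← mul_assoc, inv_mul_cancel₀ h1, one_mul]
    rw [h2]
    exact mul_mem (algebraMap_mem _ _) (IntermediateField.mem_adjoin_simple_self _ _)
  refine ⟨minpoly k[X] α, j y * d, ?_, ?_, minpoly.monic hint, ?_, ?_⟩
  · rw [← hmin]
    exact minpoly.irreducible (Algebra.IsIntegral.isIntegral _)
  · rw [← hmin]
    exact Algebra.IsSeparable.isSeparable _ _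
  · rw [← (minpoly.monic hint).natDegree_map (algebraMap k[X] (RatFunc k)), ← hmin]
    exact (Field.primitive_element_iff_minpoly_natDegree_eq _ _).mp htop
  · rw [hom_eval₂, ← hαψ]
    have h1 : ψ.comp j = algebraMap k[X] E := RingHom.ext hj
    rw [h1]
    exact minpoly.aeval k[X] α

lemma spec_le {D κ : Type*} [CommRing D] [CommRing κ] [Nontrivial κ] [Algebra k κ]
    [Module.Finite k κ]
    (j : k[X] →+* D) (θ : D →+* κ) (c : k) (hθ : ∀ p, θ (j p) = algebraMap k κ (p.eval c))
    {G : k[X][X]} (hG : G.Monic) (hirr : Irreducible (G.map (evalRingHom c))) {d : D}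
    (h : θ (eval₂ j d G) = 0) : G.natDegree ≤ Module.finrank k κ := by
  have h1 : aeval (θ d) (G.map (evalRingHom c)) = 0 := by
    rw [hom_eval₂] at h
    rw [aeval_def, eval₂_map]
    have h2 : θ.comp j = (algebraMap k κ).comp (evalRingHom c) := RingHom.ext hθ
    rw [← h2]
    exact h
  have h2 : G.map (evalRingHom c) = minpoly k (θ d) :=
    minpoly.eq_of_irreducible_of_monic hirr h1 (hG.map _)
  have h3 : (G.map (evalRingHom c)).natDegree = G.natDegree := hG.natDegree_map _
  rw [← h3, h2]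
  exact minpoly.natDegree_le (θ d)

variable (k O L) in
lemma base_case : ∃ G : k[X][X], Irreducible (G.map (algebraMap k[X] (RatFunc k))) ∧
    (G.map (algebraMap k[X] (RatFunc k))).Separable ∧
    ∀ c : k, Irreducible (G.map (evalRingHom c)) → ∀ 𝔪 : Ideal O, 𝔪.IsMaximal →
      algebraMap k[X] O (X - C c) ∈ 𝔪 →
        Module.finrank (RatFunc k) L ≤ Module.finrank k (O ⧸ 𝔪) := by
  obtain ⟨G, d, h1, h2, h3, h4, h5⟩ := exists_prim (k := k) (algebraMap k[X] O) (algebraMap O L)
    (fun p => (IsScalarTower.algebraMap_apply k[X] O L p).symm) (exists_mul_eq O)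
  refine ⟨G, h1, h2, fun c hc 𝔪 h𝔪 hX => ?_⟩
  have hfin := (finrank_quotient_le (L := L) 𝔪 c hX).1
  have hnt : Nontrivial (O ⧸ 𝔪) := Ideal.Quotient.nontrivial_iff.mpr h𝔪.ne_top
  rw [← h4]
  refine spec_le (algebraMap k[X] O) (Ideal.Quotient.mk 𝔪) c (mk_algebraMap 𝔪 c hX) h3 hc
    (d := d) ?_
  rw [(map_eq_zero_iff _ (IsFractionRing.injective O L)).mp h5, map_zero]

lemma kummer_case {ℓ : ℕ} (hp : ℓ.Prime) (hℓ : (ℓ : k) ≠ 0) (m : O)
    (hm : ¬ ∃ z : L, algebraMap O L m = z ^ ℓ) :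
    ∃ G : k[X][X], Irreducible (G.map (algebraMap k[X] (RatFunc k))) ∧
      (G.map (algebraMap k[X] (RatFunc k))).Separable ∧
      ∀ c : k, Irreducible (G.map (evalRingHom c)) → ∀ 𝔪 : Ideal O, 𝔪.IsMaximal →
        algebraMap k[X] O (X - C c) ∈ 𝔪 → ¬ ∃ b : O, m - b ^ ℓ ∈ 𝔪 := by
  set f : L[X] := X ^ ℓ - C (algebraMap O L m) with hf
  have hirr : Irreducible f :=
    X_pow_sub_C_irreducible_of_prime hp (fun b hb => hm ⟨b, hb.symm⟩)
  have : Fact (Irreducible f) := ⟨hirr⟩
  have hf0 : f ≠ 0 := hirr.ne_zero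
  have hℓL : (ℓ : L) ≠ 0 := by
    have h1 : algebraMap k L (ℓ : k) ≠ 0 := (_root_.map_ne_zero _).mpr hℓ
    rwa [map_natCast] at h1
  have hmL : algebraMap O L m ≠ 0 := by
    intro h0
    exact hm ⟨0, by rw [h0, zero_pow hp.ne_zero]⟩
  have hsep : f.Separable := separable_X_pow_sub_C _ hℓL hmL
  have hfinE : Module.Finite L (AdjoinRoot f) := (AdjoinRoot.powerBasis hf0).finite
  have hfinE' : FiniteDimensional (RatFunc k) (AdjoinRoot f) :=
    Module.Finite.trans L (AdjoinRoot f)
  have hsepE : Algebra.IsSeparable L (AdjoinRoot f) := by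
    have h1 : IsSeparable L (AdjoinRoot.root f) := by
      rw [IsSeparable, AdjoinRoot.minpoly_root hf0]
      exact hsep.mul_unit (Units.isUnit ((Units.mk0 _ (inv_ne_zero
        (leadingCoeff_ne_zero.mpr hf0))).map C.toMonoidHom))
    have h2 := (IntermediateField.isSeparable_adjoin_simple_iff_isSeparable L
      (AdjoinRoot f)).mpr h1
    rw [IntermediateField.adjoin_root_eq_top] at h2
    exact AlgEquiv.Algebra.isSeparable IntermediateField.topEquiv
  have hsepE' : Algebra.IsSeparable (RatFunc k) (AdjoinRoot f) :=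
    Algebra.IsSeparable.trans (RatFunc k) L (AdjoinRoot f)
  have hdeg : Module.finrank (RatFunc k) (AdjoinRoot f) =
      Module.finrank (RatFunc k) L * ℓ := by
    rw [← Module.finrank_mul_finrank (RatFunc k) L (AdjoinRoot f),
      (AdjoinRoot.powerBasis hf0).finrank, AdjoinRoot.powerBasis_dim, hf, natDegree_X_pow_sub_C]
  let j : k[X] →+* O[X] := (C : O →+* O[X]).comp (algebraMap k[X] O)
  let ψ : O[X] →+* AdjoinRoot f := (AdjoinRoot.mk f).comp (mapRingHom (algebraMap O L))
  have hj : ∀ p, ψ (j p) = algebraMap k[X] (AdjoinRoot f) p := by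
    intro p
    have h1 : ψ (j p) = AdjoinRoot.mk f (((C (algebraMap k[X] O p) : O[X])).map
      (algebraMap O L)) := rfl
    rw [h1, map_C, ← IsScalarTower.algebraMap_apply k[X] O L, AdjoinRoot.mk_C,
      IsScalarTower.algebraMap_apply k[X] L (AdjoinRoot f)]
    rfl
  have hψ : ∀ e : AdjoinRoot f, ∃ (p : k[X]) (d : O[X]), p ≠ 0 ∧
      algebraMap k[X] (AdjoinRoot f) p * e = ψ d := by
    intro e
    obtain ⟨P, rfl⟩ := AdjoinRoot.mk_surjective e
    induction P using Polynomial.induction_on' with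
    | add P Q hP hQ =>
      obtain ⟨p, d, hp0, hd⟩ := hP
      obtain ⟨q, e, hq0, he⟩ := hQ
      refine ⟨p * q, j q * d + j p * e, mul_ne_zero hp0 hq0, ?_⟩
      rw [map_add, map_add, map_mul, map_mul, map_mul, hj, hj, ← hd, ← he]
      ring
    | monomial n a =>
      obtain ⟨p, d, hp0, hd⟩ := exists_mul_eq (k := k) O a
      refine ⟨p, monomial n d, hp0, ?_⟩
      have h1 : ψ (monomial n d) = AdjoinRoot.mk f ((monomial n d).map (algebraMap O L)) := rfl
      rw [h1, map_monomial, ← hd, IsScalarTower.algebraMap_apply k[X] L (AdjoinRoot f),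
        ← C_mul_monomial, map_mul]
      rfl
  obtain ⟨G, d, h1, h2, h3, h4, h5⟩ := exists_prim (k := k) j ψ hj hψ
  refine ⟨G, h1, h2, fun c hc 𝔪 h𝔪 hX => ?_⟩
  rintro ⟨b, hb⟩
  obtain ⟨hfin, hle⟩ := finrank_quotient_le (L := L) 𝔪 c hX
  have hnt : Nontrivial (O ⧸ 𝔪) := Ideal.Quotient.nontrivial_iff.mpr h𝔪.ne_top
  let θ : O[X] →+* O ⧸ 𝔪 := eval₂RingHom (Ideal.Quotient.mk 𝔪) (Ideal.Quotient.mk 𝔪 b)
  have hθ : ∀ p, θ (j p) = algebraMap k (O ⧸ 𝔪) (p.eval c) := by
    intro p
    have h1 : θ (j p) = eval₂ (Ideal.Quotient.mk 𝔪) (Ideal.Quotient.mk 𝔪 b)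
      (C (algebraMap k[X] O p)) := rfl
    rw [h1, eval₂_C, mk_algebraMap 𝔪 c hX]
  have hker : ∀ Q : O[X], ψ Q = 0 → θ Q = 0 := by
    intro Q hQ
    have h1 : AdjoinRoot.mk f (Q.map (algebraMap O L)) = 0 := hQ
    rw [AdjoinRoot.mk_eq_zero] at h1
    have h2 : f = (X ^ ℓ - C m : O[X]).map (algebraMap O L) := by
      rw [Polynomial.map_sub, Polynomial.map_pow, map_X, map_C]
    rw [h2, map_dvd_map _ (IsFractionRing.injective O L) (monic_X_pow_sub_C m hp.ne_zero)] at h1
    obtain ⟨S, rfl⟩ := h1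
    have h3 : θ (X ^ ℓ - C m) = 0 := by
      have h4 : θ (X ^ ℓ - C m) = eval₂ (Ideal.Quotient.mk 𝔪) (Ideal.Quotient.mk 𝔪 b)
        (X ^ ℓ - C m) := rfl
      rw [h4, eval₂_sub, eval₂_pow, eval₂_X, eval₂_C, ← map_pow, ← map_sub,
        Ideal.Quotient.eq_zero_iff_mem, ← neg_mem_iff, neg_sub]
      exact hb
    rw [map_mul, h3, zero_mul]
  have h6 := spec_le j θ c hθ h3 hc (hker _ h5)
  rw [h4, hdeg] at h6
  have hN : 0 < Module.finrank (RatFunc k) L := Module.finrank_pos
  have hℓ2 := hp.two_le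
  have := Nat.mul_le_mul_left (Module.finrank (RatFunc k) L) hℓ2
  omega

end Hilb

/-- T2b: Hilbert specialisation of `O` and of the Kummer extensions of `L`. -/
theorem hilbert_spec (hk : IsHilbertian k) {ℓ : ℕ} [hp : Fact ℓ.Prime] (hℓ : (ℓ : k) ≠ 0)
    (s : k[X]) (hs : s ≠ 0)
    (hint : ∀ a : O, ∃ N : ℕ, IsIntegral k[X] (algebraMap k[X] O s ^ N * a))
    (M : Finset O) (hM : ∀ m ∈ M, ¬ ∃ z : L, algebraMap O L m = z ^ ℓ) (bad : Set k)
    (hbad : bad.Finite) :
    {c : k | c ∉ bad ∧ ∀ 𝔪 : Ideal O, 𝔪.IsMaximal → algebraMap k[X] O (X - C c) ∈ 𝔪 →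
      Module.finrank (RatFunc k) L ≤ Module.finrank k (O ⧸ 𝔪) ∧
        ∀ m ∈ M, ¬ ∃ b : O, m - b ^ ℓ ∈ 𝔪}.Infinite := by
  obtain ⟨G₀, h1, h2, h3⟩ := base_case k O L
  choose G g1 g2 g3 using fun m : M => kummer_case (k := k) hp.out hℓ m.1 (hM m.1 m.2)
  have h := hk (insert G₀ (Finset.univ.image G)) (by
    intro F hF
    rw [Finset.mem_insert, Finset.mem_image] at hF
    rcases hF with rfl | ⟨m, _, rfl⟩
    · exact ⟨h1, h2⟩
    · exact ⟨g1 m, g2 m⟩)
  refine (h.sdiff hbad).mono ?_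
  rintro c ⟨hc, hcb⟩
  refine ⟨hcb, fun 𝔪 h𝔪 hX => ⟨h3 c (hc G₀ (Finset.mem_insert_self _ _)) 𝔪 h𝔪 hX,
    fun m hm => ?_⟩⟩
  exact g3 ⟨m, hm⟩ c (hc _ (Finset.mem_insert_of_mem (Finset.mem_image_of_mem _
    (Finset.mem_univ _)))) 𝔪 h𝔪 hX

end

end Pool.Agent.MP1bdb59C
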