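import Mathlib
import Pool.Agent.MP1bdb59C.Crit
import Pool.Agent.MP1bdb59C.Scale
import Pool.Agent.MP1bdb59C.Hilb

/-!
# Specialisation at a prime `h - c`
-/

open Polynomial IsDedekindDomain

noncomputable section

open scoped Classical WithZero

namespace Pool.Agent.MP1bdb59C

/-- The norm of `A[x]/(f)` is compatible with base change. -/
lemma norm_lamMap' {A A' : Type*} [CommRing A] [Nontrivial A] [CommRing A'] [Nontrivial A']
    (φ : A →+* A') {f : A[X]} {f' : A'[X]} (h : f.map φ = f') (hf : f.Monic) (c : AdjoinRoot f) :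
    Algebra.norm A' (lamMap φ h c) = φ (Algebra.norm A c) := by
  have hf' : f'.Monic := by rw [← h]; exact hf.map φ
  have hn : f'.natDegree = f.natDegree := by rw [← h]; exact hf.natDegree_map φ
  let b : Module.Basis (Fin f.natDegree) A (AdjoinRoot f) := (AdjoinRoot.powerBasis' hf).basis
  let b' : Module.Basis (Fin f.natDegree) A' (AdjoinRoot f') :=
    (AdjoinRoot.powerBasis' hf').basis.reindex (finCongr hn)
  have hb : ∀ i, b i = AdjoinRoot.root f ^ (i : ℕ) := fun i => by
    have := (AdjoinRoot.powerBasis' hf).basis_eq_pow i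
    exact this
  have hb' : ∀ i, b' i = AdjoinRoot.root f' ^ (i : ℕ) := fun i => by
    have := (AdjoinRoot.powerBasis' hf').basis_eq_pow ((finCongr hn).symm i)
    rw [Module.Basis.reindex_apply]
    exact this
  have hbb : ∀ i, lamMap φ h (b i) = b' i := fun i => by
    rw [hb, hb', map_pow, lamMap_root']
  have hrepr : ∀ x i, b'.repr (lamMap φ h x) i = φ (b.repr x i) := by
    intro x i
    have h1 : lamMap φ h x = ∑ j, φ (b.repr x j) • b' j := by
      conv_lhs => rw [← b.sum_repr x]
      rw [map_sum]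
      refine Finset.sum_congr rfl fun j _ => ?_
      rw [Algebra.smul_def, map_mul, hbb, Algebra.smul_def]
      congr 1
      exact lamMap_of' φ h _
    rw [h1, Module.Basis.repr_sum_self]
  rw [Algebra.norm_eq_matrix_det b, Algebra.norm_eq_matrix_det b', RingHom.map_det]
  congr 1
  ext i j
  rw [Algebra.leftMulMatrix_eq_repr_mul, RingHom.mapMatrix_apply, Matrix.map_apply,
    Algebra.leftMulMatrix_eq_repr_mul, ← hbb, ← map_mul, hrepr]

lemma lamMap_surjective {A A' : Type*} [CommRing A] [CommRing A'] (φ : A →+* A')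
    (hφ : Function.Surjective φ) {f : A[X]} {f' : A'[X]} (h : f.map φ = f') :
    Function.Surjective (lamMap φ h) := by
  intro y
  obtain ⟨q, rfl⟩ := AdjoinRoot.mk_surjective y
  obtain ⟨p, rfl⟩ := Polynomial.map_surjective φ hφ q
  exact ⟨AdjoinRoot.mk f p, lamMap_mk _ _ _⟩

/-- If the residue of `m₀` is a constant times an `ℓ`-th power and the norm of `m₀` is an `ℓ`-th
power, then the residue of `m₀` is an `ℓ`-th power. -/
theorem exists_pow_mod {A K κ : Type*} [CommRing A] [IsDomain A] [IsIntegrallyClosed A] [Field K]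
    [Algebra A K] [IsFractionRing A K] [Field κ] (σ : A →+* κ) (hσ : Function.Surjective σ)
    {f : A[X]} (hf : f.Monic) {ℓ : ℕ} [hp : Fact ℓ.Prime] (hcop : ¬ ℓ ∣ f.natDegree)
    (hirr : Irreducible (f.map σ)) (m₀ : AdjoinRoot f)
    (h0 : lamMap σ (rfl : f.map σ = f.map σ) m₀ ≠ 0) {y : K}
    (hy : Algebra.norm K (lamMap (algebraMap A K) (rfl : f.map (algebraMap A K) = _) m₀) = y ^ ℓ)
    {e : κ} {b : AdjoinRoot (f.map σ)}
    (h : lamMap σ (rfl : f.map σ = f.map σ) m₀ = AdjoinRoot.of _ e * b ^ ℓ) :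
    ∃ o : AdjoinRoot f, lamMap σ (rfl : f.map σ = f.map σ) (m₀ - o ^ ℓ) = 0 := by
  have hℓ := hp.out
  have := Fact.mk hirr
  have hfσ : (f.map σ).Monic := hf.map _
  have he : e ≠ 0 := by
    rintro rfl
    rw [map_zero, zero_mul] at h
    exact h0 h
  have hb : b ≠ 0 := by
    rintro rfl
    rw [zero_pow hℓ.ne_zero, mul_zero] at h
    exact h0 h
  -- the norm is an `ℓ`-th power in `A`
  rw [norm_lamMap' (algebraMap A K) rfl hf] at hy
  have hyint : IsIntegral A y := by
    refine ⟨X ^ ℓ - C (Algebra.norm A m₀), monic_X_pow_sub_C _ hℓ.ne_zero, ?_⟩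
    rw [eval₂_sub, eval₂_pow, eval₂_X, eval₂_C, hy, sub_self]
  obtain ⟨y₀, hy₀⟩ := IsIntegrallyClosed.isIntegral_iff.mp hyint
  have hN : Algebra.norm A m₀ = y₀ ^ ℓ := by
    apply IsFractionRing.injective A K
    rw [hy, map_pow, hy₀]
  have hNσ : e ^ f.natDegree * (Algebra.norm κ b) ^ ℓ = σ y₀ ^ ℓ := by
    have h1 := congrArg (Algebra.norm κ) h
    rw [norm_lamMap' σ rfl hf, hN, map_pow, map_mul, map_pow, norm_of hfσ,
      hf.natDegree_map] at h1
    exact h1.symm
  have hNb : Algebra.norm κ b ≠ 0 := by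
    have := (AdjoinRoot.powerBasis' hfσ).finite
    rw [Ne, Algebra.norm_eq_zero_iff]
    exact hb
  obtain ⟨e', he'⟩ := exists_pow_of_coprime he ((Nat.Prime.coprime_iff_not_dvd hℓ).mpr hcop)
    (b := σ y₀ / Algebra.norm κ b) (by
      rw [div_pow, eq_div_iff (pow_ne_zero _ hNb), hNσ])
  obtain ⟨o, ho⟩ := lamMap_surjective σ hσ (rfl : f.map σ = f.map σ) (AdjoinRoot.of _ e' * b)
  refine ⟨o, ?_⟩
  rw [map_sub, map_pow, ho, h, he', map_pow, mul_pow, sub_self]

/-- Irreducibility modulo a prime which stays prime. -/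
theorem irreducible_map_of_isMaximal {A κ : Type*} [CommRing A] [Field κ] (σ : A →+* κ)
    (hσ : Function.Surjective σ) {f : A[X]} (hf : f.Monic) (hn : f.natDegree ≠ 0) {w : A}
    (hw : σ w = 0) (hmax : (Ideal.span {AdjoinRoot.of f w}).IsMaximal) :
    Irreducible (f.map σ) ∧
      RingHom.ker (lamMap σ (rfl : f.map σ = f.map σ)) = Ideal.span {AdjoinRoot.of f w} := by
  have hfσ : (f.map σ).Monic := hf.map _
  have hnσ : (f.map σ).natDegree ≠ 0 := by rwa [hf.natDegree_map]
  have hnt : Nontrivial (AdjoinRoot (f.map σ)) := by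
    apply AdjoinRoot.nontrivial
    rw [degree_eq_natDegree hfσ.ne_zero]
    exact_mod_cast hnσ
  set φ := lamMap σ (rfl : f.map σ = f.map σ) with hφ
  have hker : RingHom.ker φ = Ideal.span {AdjoinRoot.of f w} := by
    symm
    apply hmax.eq_of_le (RingHom.ker_ne_top φ)
    rw [Ideal.span_le, Set.singleton_subset_iff]
    change φ (AdjoinRoot.of f w) = 0
    rw [hφ, lamMap_of', hw, map_zero]
  refine ⟨?_, hker⟩
  have hfield : (RingHom.ker φ).IsPrime := by rw [hker]; exact hmax.isPrime
  have hdom : IsDomain (AdjoinRoot (f.map σ)) := by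
    have hsurj : Function.Surjective φ := lamMap_surjective σ hσ rfl
    have h1 : IsDomain (AdjoinRoot f ⧸ RingHom.ker φ) := Ideal.Quotient.isDomain _
    exact (RingHom.quotientKerEquivOfSurjective hsurj).symm.toMulEquiv.isDomain _
  have h1 : (Ideal.span {f.map σ}).IsPrime := by
    have : IsDomain (κ[X] ⧸ Ideal.span {f.map σ}) := ‹IsDomain (AdjoinRoot (f.map σ))›
    exact (Ideal.Quotient.isDomain_iff_prime _).mp this
  exact ((Ideal.span_singleton_prime hfσ.ne_zero).mp h1).irreducible

section Hint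

variable {R A : Type*} [CommRing R] [CommRing A] [IsDomain A] [Algebra R A]

/-- Integrality up to powers of `s` passes to `A[x]/(f)`. -/
theorem exists_pow_mul_isIntegral (s : A) (hs : IsIntegral R s)
    (hint : ∀ a : A, ∃ N : ℕ, IsIntegral R (s ^ N * a)) {f : A[X]} (hf : f.Monic)
    (hn : f.natDegree ≠ 0) (x : AdjoinRoot f) :
    ∃ N : ℕ, IsIntegral R (AdjoinRoot.of f s ^ N * x) := by
  have hof : ∀ a : A, IsIntegral R a → IsIntegral R (AdjoinRoot.of f a) := by
    intro a ha
    exact ha.map (IsScalarTower.toAlgHom R A (AdjoinRoot f))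
  have hS : IsIntegral R (AdjoinRoot.of f s) := hof s hs
  have hadd : ∀ x y : AdjoinRoot f, (∃ N : ℕ, IsIntegral R (AdjoinRoot.of f s ^ N * x)) →
      (∃ N : ℕ, IsIntegral R (AdjoinRoot.of f s ^ N * y)) →
      ∃ N : ℕ, IsIntegral R (AdjoinRoot.of f s ^ N * (x + y)) := by
    rintro x y ⟨N, hN⟩ ⟨M, hM⟩
    refine ⟨N + M, ?_⟩
    have h1 : AdjoinRoot.of f s ^ (N + M) * (x + y) =
        AdjoinRoot.of f s ^ M * (AdjoinRoot.of f s ^ N * x) +
          AdjoinRoot.of f s ^ N * (AdjoinRoot.of f s ^ M * y) := by ring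
    rw [h1]
    exact ((hS.pow M).mul hN).add ((hS.pow N).mul hM)
  have hmul : ∀ x y : AdjoinRoot f, (∃ N : ℕ, IsIntegral R (AdjoinRoot.of f s ^ N * x)) →
      (∃ N : ℕ, IsIntegral R (AdjoinRoot.of f s ^ N * y)) →
      ∃ N : ℕ, IsIntegral R (AdjoinRoot.of f s ^ N * (x * y)) := by
    rintro x y ⟨N, hN⟩ ⟨M, hM⟩
    refine ⟨N + M, ?_⟩
    have h1 : AdjoinRoot.of f s ^ (N + M) * (x * y) =
        (AdjoinRoot.of f s ^ N * x) * (AdjoinRoot.of f s ^ M * y) := by ring
    rw [h1]
    exact hN.mul hM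
  have hA : ∀ a : A, ∃ N : ℕ, IsIntegral R (AdjoinRoot.of f s ^ N * AdjoinRoot.of f a) := by
    intro a
    obtain ⟨N, hN⟩ := hint a
    refine ⟨N, ?_⟩
    rw [← map_pow, ← map_mul]
    exact hof _ hN
  have hroot : ∃ N : ℕ, IsIntegral R (AdjoinRoot.of f s ^ N * AdjoinRoot.root f) := by
    choose N hN using hint
    set M := ∑ i ∈ Finset.range (f.natDegree + 1), N (f.coeff i) with hM
    have hMi : ∀ i, IsIntegral R (s ^ M * f.coeff i) := by
      intro i
      by_cases hi : i ∈ Finset.range (f.natDegree + 1)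
      · have h1 : N (f.coeff i) ≤ M :=
          Finset.single_le_sum (f := fun i => N (f.coeff i)) (fun _ _ => Nat.zero_le _) hi
        obtain ⟨r, hr⟩ := Nat.exists_eq_add_of_le h1
        have h2 : s ^ M * f.coeff i = s ^ r * (s ^ N (f.coeff i) * f.coeff i) := by
          rw [hr]
          ring
        rw [h2]
        exact (hs.pow r).mul (hN _)
      · rw [Finset.mem_range, not_lt] at hi
        rw [coeff_eq_zero_of_natDegree_lt (by omega), mul_zero]
        exact isIntegral_zero
    refine ⟨M, ?_⟩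
    have hq : ∀ i, IsIntegral R ((f.scaleRoots (s ^ M)).coeff i) := by
      intro i
      rw [coeff_scaleRoots]
      rcases lt_trichotomy i f.natDegree with h | h | h
      · obtain ⟨r, hr⟩ := Nat.exists_eq_add_of_lt h
        have h2 : f.natDegree - i = r + 1 := by omega
        have h3 : f.coeff i * (s ^ M) ^ (f.natDegree - i) =
            (s ^ M) ^ r * (s ^ M * f.coeff i) := by
          rw [h2]
          ring
        rw [h3]
        exact ((hs.pow M).pow r).mul (hMi i)
      · rw [h, Nat.sub_self, pow_zero, mul_one, hf.coeff_natDegree]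
        exact isIntegral_one
      · rw [coeff_eq_zero_of_natDegree_lt h, zero_mul]
        exact isIntegral_zero
    have hqm : (f.scaleRoots (s ^ M)).Monic := by
      rw [monic_scaleRoots_iff]
      exact hf
    refine IsIntegral.of_aeval_monic_of_isIntegral_coeff
      (p := (f.scaleRoots (s ^ M)).map (AdjoinRoot.of f)) (hqm.map _) ?_ ?_ ?_
    · rcases subsingleton_or_nontrivial (AdjoinRoot f) with h | h
      · exfalso
        have h2 : Nontrivial (AdjoinRoot f) := by
          apply AdjoinRoot.nontrivial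
          rw [degree_eq_natDegree hf.ne_zero]
          exact_mod_cast hn
        exact not_subsingleton _ h
      · rw [hqm.natDegree_map, natDegree_scaleRoots]
        exact hn
    · rw [eval_map, ← map_pow, scaleRoots_eval₂_eq_zero _ (AdjoinRoot.eval₂_root f)]
      exact isIntegral_zero
    · intro i
      rw [coeff_map]
      exact hof _ (hq i)
  obtain ⟨q, rfl⟩ := AdjoinRoot.mk_surjective x
  induction q using Polynomial.induction_on' with
  | add p q hp hq =>
    rw [map_add]
    exact hadd _ _ hp hq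
  | monomial n a =>
    rw [← C_mul_X_pow_eq_monomial, map_mul, AdjoinRoot.mk_C, map_pow, AdjoinRoot.mk_X]
    refine hmul _ _ (hA a) ?_
    induction n with
    | zero => exact ⟨0, by rw [pow_zero, pow_zero, one_mul]; exact isIntegral_one⟩
    | succ n ih => rw [pow_succ]; exact hmul _ _ ih hroot

end Hint

section Unit

variable {k O L : Type*} [Field k] [CommRing O] [IsDomain O] [Field L] [Algebra O L]
  [IsFractionRing O L] [Algebra k[X] O] [Algebra k[X] L] [IsScalarTower k[X] O L]
  [Algebra (RatFunc k) L] [IsScalarTower k[X] (RatFunc k) L]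

include L in
variable (L) in
lemma not_isUnit_of_eval (s : k[X])
    (hint : ∀ a : O, ∃ N : ℕ, IsIntegral k[X] (algebraMap k[X] O s ^ N * a)) {c : k}
    (hc : s.eval c ≠ 0) : ¬ IsUnit (algebraMap k[X] O (X - C c)) := by
  intro hu
  obtain ⟨b, hb⟩ := hu.exists_right_inv
  obtain ⟨N, hN⟩ := hint b
  have hXc : (X - C c : k[X]) ≠ 0 := X_sub_C_ne_zero c
  set y : RatFunc k := algebraMap k[X] (RatFunc k) (s ^ N) /
    algebraMap k[X] (RatFunc k) (X - C c) with hy
  have hXc' : algebraMap k[X] (RatFunc k) (X - C c) ≠ 0 := by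
    rwa [Ne, map_eq_zero_iff _ (IsFractionRing.injective k[X] (RatFunc k))]
  have h1 : algebraMap (RatFunc k) L y = algebraMap O L (algebraMap k[X] O s ^ N * b) := by
    have h2 : algebraMap k[X] L (X - C c) ≠ 0 := by
      rw [IsScalarTower.algebraMap_apply k[X] (RatFunc k) L]
      rwa [Ne, map_eq_zero]
    rw [hy, map_div₀, ← IsScalarTower.algebraMap_apply, ← IsScalarTower.algebraMap_apply,
      div_eq_iff h2, IsScalarTower.algebraMap_apply k[X] O L,
      IsScalarTower.algebraMap_apply k[X] O L, ← map_mul, map_pow]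
    congr 1
    linear_combination (-algebraMap k[X] O s ^ N) * hb
  have h3 : IsIntegral k[X] (algebraMap (RatFunc k) L y) := by
    rw [h1]
    exact hN.map (IsScalarTower.toAlgHom k[X] O L)
  rw [isIntegral_algebraMap_iff (algebraMap (RatFunc k) L).injective] at h3
  obtain ⟨q, hq⟩ := IsIntegrallyClosed.isIntegral_iff.mp h3
  have h4 : q * (X - C c) = s ^ N := by
    apply IsFractionRing.injective k[X] (RatFunc k)
    rw [map_mul, hq, hy, div_mul_cancel₀ _ hXc']
  have h5 := congrArg (eval c) h4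
  rw [eval_mul, eval_sub, eval_X, eval_C, sub_self, mul_zero, eval_pow] at h5
  exact pow_ne_zero N hc h5.symm

variable [Algebra k O] [IsScalarTower k k[X] O] [Algebra k L] [IsScalarTower k k[X] L]
  [FiniteDimensional (RatFunc k) L] [Algebra.IsSeparable (RatFunc k) L]

include L in
variable (L) in
/-- The ideal `(h - c)` is maximal. -/
lemma isMaximal_span (s : k[X])
    (hint : ∀ a : O, ∃ N : ℕ, IsIntegral k[X] (algebraMap k[X] O s ^ N * a)) {c : k}
    (hc : s.eval c ≠ 0) (h : ∀ 𝔪 : Ideal O, 𝔪.IsMaximal → algebraMap k[X] O (X - C c) ∈ 𝔪 →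
      Module.finrank (RatFunc k) L ≤ Module.finrank k (O ⧸ 𝔪)) :
    (Ideal.span {algebraMap k[X] O (X - C c)}).IsMaximal := by
  have hnu := not_isUnit_of_eval L s hint hc
  have hne : Ideal.span {algebraMap k[X] O (X - C c)} ≠ ⊤ := by
    rwa [Ne, Ideal.span_singleton_eq_top]
  obtain ⟨𝔪, h𝔪, hle⟩ := Ideal.exists_le_maximal _ hne
  have hmem : algebraMap k[X] O (X - C c) ∈ 𝔪 := hle (Ideal.mem_span_singleton_self _)
  obtain ⟨hfin, hrk⟩ := finrank_quotient_le (L := L) (Ideal.span {algebraMap k[X] O (X - C c)}) c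
    (Ideal.mem_span_singleton_self _)
  let φ : (O ⧸ Ideal.span {algebraMap k[X] O (X - C c)}) →ₐ[k] O ⧸ 𝔪 :=
    Ideal.Quotient.factorₐ k hle
  have hφ : Function.Surjective φ := Ideal.Quotient.factor_surjective hle
  have hfin' : Module.Finite k (O ⧸ 𝔪) := Module.Finite.of_surjective φ.toLinearMap hφ
  have hle2 := (h 𝔪 h𝔪 hmem)
  have hinj : Function.Injective φ.toLinearMap := by
    have h1 : Module.finrank k (O ⧸ 𝔪) =
        Module.finrank k (O ⧸ Ideal.span {algebraMap k[X] O (X - C c)}) :=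
      le_antisymm (LinearMap.finrank_le_finrank_of_surjective (f := φ.toLinearMap) hφ) (hrk.trans hle2)
    exact (LinearMap.injective_iff_surjective_of_finrank_eq_finrank h1.symm).mpr hφ
  have heq : Ideal.span {algebraMap k[X] O (X - C c)} = 𝔪 := by
    apply le_antisymm hle
    intro x hx
    rw [← Ideal.Quotient.eq_zero_iff_mem] at hx ⊢
    apply hinj
    rw [map_zero]
    exact hx
  rw [heq]
  exact h𝔪

end Unit

end Pool.Agent.MP1bdb59C
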