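import Mathlib
import Pool.Agent.MP1bdb59C.HitRed2
import Pool.Agent.MP1bdb59C.Spec
import Pool.Agent.MP1bdb59C.EtDed

/-!
# Finite extensions of Hilbertian fields
-/

open Polynomial

noncomputable section

open scoped Classical

namespace Pool.Agent.MP1bdb59C

section

variable {k₀ : Type*} [Field k₀] {O L : Type*} [CommRing O] [IsDomain O] [Field L] [Algebra O L]
  [IsFractionRing O L] [Algebra k₀[X] O] [Algebra k₀[X] L] [IsScalarTower k₀[X] O L]
  [Algebra (RatFunc k₀) L] [IsScalarTower k₀[X] (RatFunc k₀) L] [Module.Finite k₀[X] O]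

include O in
variable (O) in
lemma finiteDimensional_of_finite : FiniteDimensional (RatFunc k₀) L := by
  obtain ⟨S, hS⟩ := (Module.finite_def (R := k₀[X]) (M := O)).mp inferInstance
  refine ⟨S.image (algebraMap O L), ?_⟩
  rw [eq_top_iff]
  have hO : ∀ a : O, algebraMap O L a ∈
      Submodule.span (RatFunc k₀) ((S.image (algebraMap O L) : Finset L) : Set L) := by
    intro a
    have ha : a ∈ Submodule.span k₀[X] (S : Set O) := by rw [hS]; trivial
    induction ha using Submodule.span_induction with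
    | mem x hx =>
      apply Submodule.subset_span
      rw [Finset.coe_image]
      exact ⟨x, hx, rfl⟩
    | zero => rw [map_zero]; exact Submodule.zero_mem _
    | add x y _ _ hx hy => rw [map_add]; exact Submodule.add_mem _ hx hy
    | smul r x _ hx =>
      rw [Algebra.smul_def, map_mul, ← IsScalarTower.algebraMap_apply,
        IsScalarTower.algebraMap_apply k₀[X] (RatFunc k₀) L, ← Algebra.smul_def]
      exact Submodule.smul_mem _ _ hx
  rintro x -
  obtain ⟨a, b, hb, rfl⟩ := IsFractionRing.div_surjective (A := O) x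
  have hb0 : algebraMap O L b ≠ 0 :=
    (map_ne_zero_iff _ (IsFractionRing.injective O L)).mpr (nonZeroDivisors.ne_zero hb)
  have hinj : Function.Injective (algebraMap k₀[X] L) := by
    rw [IsScalarTower.algebraMap_eq k₀[X] (RatFunc k₀) L]
    exact (algebraMap (RatFunc k₀) L).injective.comp (IsFractionRing.injective k₀[X] (RatFunc k₀))
  have halg : IsAlgebraic k₀[X] b := (Algebra.IsIntegral.isIntegral b).isAlgebraic
  obtain ⟨p, hp, d, hd⟩ := halg.exists_nonzero_dvd hb
  have hp0 : algebraMap k₀[X] L p ≠ 0 := by rwa [Ne, map_eq_zero_iff _ hinj]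
  have h1 : algebraMap O L a / algebraMap O L b =
      (algebraMap k₀[X] (RatFunc k₀) p)⁻¹ • algebraMap O L (a * d) := by
    rw [Algebra.smul_def, map_inv₀, ← IsScalarTower.algebraMap_apply, div_eq_iff hb0, map_mul]
    have h2 : algebraMap k₀[X] L p = algebraMap O L b * algebraMap O L d := by
      rw [IsScalarTower.algebraMap_apply k₀[X] O L, hd, map_mul]
    field_simp
    rw [h2]
    ring
  rw [h1]
  exact Submodule.smul_mem _ _ (hO _)

end

section Pol

variable {k₀ k : Type*} [Field k₀] [Field k] [Algebra k₀ k]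

/-- The `k₀[X]`-algebra `k[X]`. -/
abbrev polAlg (k₀ k : Type*) [Field k₀] [Field k] [Algebra k₀ k] : Algebra k₀[X] k[X] :=
  (mapRingHom (algebraMap k₀ k)).toAlgebra

lemma finite_polAlg [FiniteDimensional k₀ k] :
    letI := polAlg k₀ k
    Module.Finite k₀[X] k[X] := by
  letI := polAlg k₀ k
  set b := Module.finBasis k₀ k with hb
  refine ⟨Finset.univ.image (fun i => C (b i)), ?_⟩
  rw [eq_top_iff]
  rintro p -
  induction p using Polynomial.induction_on' with
  | add p q hp hq => exact Submodule.add_mem _ hp hq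
  | monomial n a =>
    have h1 : monomial n a = ∑ i, (monomial n (b.repr a i) : k₀[X]) • (C (b i) : k[X]) := by
      have h2 : ∀ i, (monomial n (b.repr a i) : k₀[X]) • (C (b i) : k[X]) =
          monomial n (b.repr a i • b i) := by
        intro i
        rw [Algebra.smul_def]
        change (monomial n (b.repr a i) : k₀[X]).map (algebraMap k₀ k) * C (b i) = _
        rw [map_monomial, monomial_mul_C, Algebra.smul_def]
      simp_rw [h2]
      rw [← map_sum, b.sum_repr]
    rw [h1]
    refine Submodule.sum_mem _ fun i _ => Submodule.smul_mem _ _ (Submodule.subset_span ?_)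
    rw [Finset.coe_image]
    exact ⟨i, Finset.mem_coe.mpr (Finset.mem_univ _), rfl⟩

end Pol

/-- The field `k` is Hilbertian, with specialisations in the subfield `k₀`. -/
def HilbOver (k₀ k : Type*) [Field k₀] [Field k] [Algebra k₀ k] : Prop :=
  ∀ S : Finset (k[X])[X],
    (∀ F ∈ S, Irreducible (F.map (algebraMap k[X] (RatFunc k))) ∧
      (F.map (algebraMap k[X] (RatFunc k))).Separable) →
    {c : k₀ | ∀ F ∈ S, Irreducible (F.map (evalRingHom (algebraMap k₀ k c)))}.Infinite

lemma hilbOver_self {k : Type*} [Field k] (h : IsHilbertian k) : HilbOver k k := h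

theorem hilbOver_of_finite {k₀ k : Type*} [Field k₀] [CharZero k₀] [Field k] [Algebra k₀ k]
    [FiniteDimensional k₀ k] (h : IsHilbertian k₀) : HilbOver k₀ k := by
  have hc0 : CharZero (RatFunc k₀) :=
    charZero_of_injective_algebraMap (algebraMap k₀ (RatFunc k₀)).injective
  intro S hS
  have key : ∀ F : S, ∃ G : k₀[X][X], Irreducible (G.map (algebraMap k₀[X] (RatFunc k₀))) ∧
      (G.map (algebraMap k₀[X] (RatFunc k₀))).Separable ∧
      ∀ c : k₀, (F.1.leadingCoeff).eval (algebraMap k₀ k c) ≠ 0 →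
        Irreducible (G.map (evalRingHom c)) →
        Irreducible (F.1.map (evalRingHom (algebraMap k₀ k c))) := by
    rintro ⟨F, hF⟩
    obtain ⟨hirr, -⟩ := hS F hF
    have hF0 : F ≠ 0 := by
      rintro rfl
      rw [Polynomial.map_zero] at hirr
      exact hirr.ne_zero rfl
    have hlc : F.leadingCoeff ≠ 0 := leadingCoeff_ne_zero.mpr hF0
    obtain ⟨F₁, hF₁m, hF₁n, hF₁⟩ := exists_monic F hF0
    have hirr₁ : Irreducible (F₁.map (algebraMap k[X] (RatFunc k))) := by
      rw [hF₁]
      · exact hirr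
      · rwa [Ne, map_eq_zero_iff _ (IsFractionRing.injective k[X] (RatFunc k))]
    have hn : F₁.natDegree ≠ 0 := by
      rw [← hF₁m.natDegree_map (algebraMap k[X] (RatFunc k))]
      exact hirr₁.natDegree_pos.ne'
    have := Fact.mk hirr₁
    have hdom : IsDomain (AdjoinRoot F₁) := isDomain_adjoinRoot_of_irr (K := RatFunc k) hF₁m hirr₁
    let i1 : Algebra (AdjoinRoot F₁) (AdjoinRoot (F₁.map (algebraMap k[X] (RatFunc k)))) :=
      (lamMap (algebraMap k[X] (RatFunc k)) rfl).toAlgebra
    have i2 : IsFractionRing (AdjoinRoot F₁) (AdjoinRoot (F₁.map (algebraMap k[X] (RatFunc k)))) :=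
      isFractionRing_adjoinRoot rfl hF₁m hirr₁ (fun _ => rfl)
    have i3 : Module.Finite k[X] (AdjoinRoot F₁) := (AdjoinRoot.powerBasis' hF₁m).finite
    let j1 : Algebra k₀[X] k[X] := polAlg k₀ k
    have i4 : Module.Finite k₀[X] k[X] := finite_polAlg
    have i6 : IsScalarTower k₀[X] k[X] (AdjoinRoot F₁) := inferInstance
    have i5 : Module.Finite k₀[X] (AdjoinRoot F₁) := Module.Finite.trans k[X] _
    have i7 : IsScalarTower k₀ k₀[X] k[X] := IsScalarTower.of_algebraMap_eq (fun c => by
      change C (algebraMap k₀ k c) = (C c).map (algebraMap k₀ k)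
      rw [map_C])
    have i8 : IsScalarTower k₀ k₀[X] (AdjoinRoot F₁) := inferInstance
    have i9 : IsScalarTower k₀[X] k[X] (RatFunc k) := inferInstance
    have i10 : IsScalarTower k₀[X] (RatFunc k)
        (AdjoinRoot (F₁.map (algebraMap k[X] (RatFunc k)))) := inferInstance
    have hinjL : Function.Injective
        (algebraMap k₀[X] (AdjoinRoot (F₁.map (algebraMap k[X] (RatFunc k))))) := by
      rw [IsScalarTower.algebraMap_eq k₀[X] (RatFunc k), IsScalarTower.algebraMap_eq k₀[X] k[X]]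
      refine (algebraMap (RatFunc k) _).injective.comp
        ((IsFractionRing.injective k[X] (RatFunc k)).comp ?_)
      exact map_injective _ (algebraMap k₀ k).injective
    let j2 : Algebra (RatFunc k₀) (AdjoinRoot (F₁.map (algebraMap k[X] (RatFunc k)))) :=
      (IsFractionRing.lift (K := RatFunc k₀) hinjL).toAlgebra
    have i11 : IsScalarTower k₀[X] (RatFunc k₀)
        (AdjoinRoot (F₁.map (algebraMap k[X] (RatFunc k)))) :=
      IsScalarTower.of_algebraMap_eq (fun p => (IsFractionRing.lift_algebraMap hinjL p).symm)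
    have i12 : IsScalarTower k₀[X] (AdjoinRoot F₁)
        (AdjoinRoot (F₁.map (algebraMap k[X] (RatFunc k)))) := by
      apply IsScalarTower.of_algebraMap_eq
      intro p
      change AdjoinRoot.of _ (algebraMap k₀[X] (RatFunc k) p) =
        lamMap (algebraMap k[X] (RatFunc k)) rfl (AdjoinRoot.of F₁ (algebraMap k₀[X] k[X] p))
      rw [lamMap_of', ← IsScalarTower.algebraMap_apply]
    have i13 : FiniteDimensional (RatFunc k₀)
        (AdjoinRoot (F₁.map (algebraMap k[X] (RatFunc k)))) :=
      finiteDimensional_of_finite (AdjoinRoot F₁)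
    have i14 : Algebra.IsSeparable (RatFunc k₀)
        (AdjoinRoot (F₁.map (algebraMap k[X] (RatFunc k)))) := inferInstance
    have i15 : IsScalarTower k₀ k₀[X] (AdjoinRoot (F₁.map (algebraMap k[X] (RatFunc k)))) :=
      inferInstance
    obtain ⟨G, g1, g2, g3⟩ := Hilb.base_case k₀ (AdjoinRoot F₁)
      (AdjoinRoot (F₁.map (algebraMap k[X] (RatFunc k))))
    refine ⟨G, g1, g2, fun c hc hG => ?_⟩
    have hmax := isMaximal_span (AdjoinRoot (F₁.map (algebraMap k[X] (RatFunc k)))) (1 : k₀[X])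
      (fun a => ⟨0, by rw [pow_zero, one_mul]; exact Algebra.IsIntegral.isIntegral a⟩) (c := c)
      (by rw [eval_one]; exact one_ne_zero) (fun 𝔪 h𝔪 hX => g3 c hG 𝔪 h𝔪 hX)
    have hw : algebraMap k₀[X] (AdjoinRoot F₁) (X - C c) =
        AdjoinRoot.of F₁ (X - C (algebraMap k₀ k c)) := by
      change AdjoinRoot.of F₁ ((X - C c : k₀[X]).map (algebraMap k₀ k)) = _
      rw [Polynomial.map_sub, map_X, map_C]
    rw [hw] at hmax
    have h1 := (irreducible_map_of_isMaximal (evalRingHom (algebraMap k₀ k c))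
      (fun a => ⟨C a, by simp⟩) hF₁m hn (w := X - C (algebraMap k₀ k c)) (by simp) hmax).1
    rw [hF₁ _ _ hc] at h1
    exact h1
  choose G g1 g2 g3 using key
  have hinf := h (Finset.univ.image G) (by
    intro g hg
    rw [Finset.mem_image] at hg
    obtain ⟨F, -, rfl⟩ := hg
    exact ⟨g1 F, g2 F⟩)
  have hinj : Function.Injective (algebraMap k₀ k) := (algebraMap k₀ k).injective
  have hbad : {c : k₀ | ∃ F ∈ S, F.leadingCoeff.eval (algebraMap k₀ k c) = 0}.Finite := by
    have h1 : {x : k | ∃ F ∈ S, F.leadingCoeff.eval x = 0}.Finite := by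
      have h2 : {x : k | ∃ F ∈ S, F.leadingCoeff.eval x = 0} =
          ⋃ F ∈ S, {x : k | F.leadingCoeff.eval x = 0} := by
        ext x
        simp
      rw [h2]
      refine Set.Finite.biUnion S.finite_toSet fun F hF => ?_
      obtain ⟨hirr, -⟩ := hS F hF
      have hF0 : F ≠ 0 := by
        rintro rfl
        rw [Polynomial.map_zero] at hirr
        exact hirr.ne_zero rfl
      have hlc : F.leadingCoeff ≠ 0 := leadingCoeff_ne_zero.mpr hF0
      refine (F.leadingCoeff.roots.toFinset.finite_toSet).subset fun c hc => ?_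
      rw [Finset.mem_coe, Multiset.mem_toFinset, mem_roots hlc]
      exact hc
    exact Set.Finite.preimage (f := algebraMap k₀ k) hinj.injOn h1
  refine (hinf.sdiff hbad).mono ?_
  rintro c ⟨hc1, hc2⟩ F hF
  refine g3 ⟨F, hF⟩ c ?_ ?_
  · intro h0
    exact hc2 ⟨F, hF, h0⟩
  · exact hc1 _ (Finset.mem_image.mpr ⟨⟨F, hF⟩, Finset.mem_univ _, rfl⟩)

theorem isHilbertian_of_finite {k₀ k : Type*} [Field k₀] [CharZero k₀] [Field k] [Algebra k₀ k]
    [FiniteDimensional k₀ k] (h : IsHilbertian k₀) : IsHilbertian k := by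
  intro S hS
  have h1 := hilbOver_of_finite (k := k) h S hS
  refine (h1.image (algebraMap k₀ k).injective.injOn).mono ?_
  rintro _ ⟨c, hc, rfl⟩ F hF
  exact hc F hF

section

variable {k₀ k O L : Type*} [Field k₀] [Field k] [Algebra k₀ k] [CommRing O] [IsDomain O] [Field L]
  [Algebra O L] [IsFractionRing O L] [Algebra k[X] O] [Algebra k[X] L] [IsScalarTower k[X] O L]
  [Algebra k O] [IsScalarTower k k[X] O] [Algebra k L] [IsScalarTower k k[X] L]
  [Algebra (RatFunc k) L] [IsScalarTower k[X] (RatFunc k) L] [FiniteDimensional (RatFunc k) L]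
  [Algebra.IsSeparable (RatFunc k) L]

/-- Hilbert specialisation of `O` and of the Kummer extensions of `L`, at elements of `k₀`. -/
theorem hilbert_spec_over (hk : HilbOver k₀ k) {ℓ : ℕ} [hp : Fact ℓ.Prime] (hℓ : (ℓ : k) ≠ 0)
    (M : Finset O) (hM : ∀ m ∈ M, ¬ ∃ z : L, algebraMap O L m = z ^ ℓ) (bad : Set k)
    (hbad : bad.Finite) :
    {c : k₀ | algebraMap k₀ k c ∉ bad ∧ ∀ 𝔪 : Ideal O, 𝔪.IsMaximal →
      algebraMap k[X] O (X - C (algebraMap k₀ k c)) ∈ 𝔪 →
      Module.finrank (RatFunc k) L ≤ Module.finrank k (O ⧸ 𝔪) ∧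
        ∀ m ∈ M, ¬ ∃ b : O, m - b ^ ℓ ∈ 𝔪}.Infinite := by
  obtain ⟨G₀, h1, h2, h3⟩ := Hilb.base_case k O L
  choose G g1 g2 g3 using fun m : M => Hilb.kummer_case (k := k) hp.out hℓ m.1 (hM m.1 m.2)
  have h := hk (insert G₀ (Finset.univ.image G)) (by
    intro F hF
    rw [Finset.mem_insert, Finset.mem_image] at hF
    rcases hF with rfl | ⟨m, _, rfl⟩
    · exact ⟨h1, h2⟩
    · exact ⟨g1 m, g2 m⟩)
  have hbad' : (algebraMap k₀ k ⁻¹' bad).Finite :=
    hbad.preimage (algebraMap k₀ k).injective.injOn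
  refine (h.sdiff hbad').mono ?_
  rintro c ⟨hc, hcb⟩
  refine ⟨hcb, fun 𝔪 h𝔪 hX => ⟨h3 _ (hc G₀ (Finset.mem_insert_self _ _)) 𝔪 h𝔪 hX,
    fun m hm => ?_⟩⟩
  exact g3 ⟨m, hm⟩ _ (hc _ (Finset.mem_insert_of_mem (Finset.mem_image_of_mem _
    (Finset.mem_univ _)))) 𝔪 h𝔪 hX

end

end Pool.Agent.MP1bdb59C
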