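import Mathlib

/-!
# Two Dedekind domains with the same fraction field
-/

open IsDedekindDomain

open scoped WithZero

namespace Pool.Agent.MP1bdb59C

variable {O O' L : Type*} [CommRing O] [IsDedekindDomain O] [CommRing O'] [IsDedekindDomain O']
  [Field L] [Algebra O L] [IsFractionRing O L] [Algebra O' L] [IsFractionRing O' L] [Algebra O O']
  [IsScalarTower O O' L]

/-- T4a: two Dedekind domains with the same fraction field. -/
theorem valuation_eq_of_sameField (Q : HeightOneSpectrum O') (P : HeightOneSpectrum O)
    (h : P.asIdeal = Q.asIdeal.comap (algebraMap O O')) (x : L) :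
    P.valuation L x = Q.valuation L x := by
  have : Q.asIdeal.LiesOver P.asIdeal := ⟨h⟩
  have hinj : Function.Injective (algebraMap O O') := by
    have h1 : Function.Injective (algebraMap O L) := IsFractionRing.injective O L
    rw [IsScalarTower.algebraMap_eq O O' L] at h1
    exact Function.Injective.of_comp h1
  have : FaithfulSMul O O' := (faithfulSMul_iff_algebraMap_injective O O').mpr hinj
  have : Module.IsTorsionFree O O' := inferInstance
  set e := P.asIdeal.ramificationIdx' Q.asIdeal with he
  have key : ∀ y : L, P.valuation L y ^ e = Q.valuation L y := fun y =>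
    HeightOneSpectrum.valuation_liesOver L P Q y
  obtain ⟨π, hπ⟩ := Q.valuation_exists_uniformizer L
  have h1 := key π
  rw [hπ] at h1
  have h2 : P.valuation L π ≠ 0 := by
    intro h0
    rw [h0] at h1
    rcases Nat.eq_zero_or_pos e with h3 | h3
    · rw [h3, pow_zero] at h1
      have h4 : WithZero.exp (0 : ℤ) = WithZero.exp (-1 : ℤ) := h1
      rw [WithZero.exp_inj] at h4
      omega
    · rw [zero_pow h3.ne'] at h1
      exact WithZero.exp_ne_zero h1.symm
  have h5 : (e : ℤ) * WithZero.log (P.valuation L π) = -1 := by
    rw [← WithZero.exp_log h2, ← WithZero.exp_nsmul] at h1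
    rw [← nsmul_eq_mul]
    exact WithZero.exp_inj.mp h1
  have h6 : e = 1 := by
    have h7 : (e : ℤ) ∣ 1 := ⟨-WithZero.log (P.valuation L π), by linear_combination h5⟩
    have h8 : (e : ℤ) ∣ ((1 : ℕ) : ℤ) := by exact_mod_cast h7
    exact Nat.dvd_one.mp (Int.natCast_dvd_natCast.mp h8)
  have h9 := key x
  rwa [h6, pow_one] at h9

end Pool.Agent.MP1bdb59C
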