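import Mathlib

/-! # T4a': valuations that are powers, for a valuation of an algebraic extension -/

open Polynomial IsDedekindDomain

noncomputable section

open scoped Classical WithZero

namespace Pool.Agent.MP1bdb59C

/-- `O` Dedekind with fraction field `L`, `L'/L` algebraic, `O'` Dedekind with
fraction field `L'`, `Q` a prime of `O'` whose valuation ring contains `O`. If all valuations of `O`
at `m` are `ℓ`-th powers, so is the valuation of `m` at `Q`. -/
theorem isPow_of_valuation_le {O L O' L' : Type*} [CommRing O] [IsDedekindDomain O] [Field L]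
    [Algebra O L] [IsFractionRing O L] [CommRing O'] [IsDedekindDomain O'] [Field L']
    [Algebra O' L'] [IsFractionRing O' L'] [Algebra L L'] [Algebra.IsAlgebraic L L']
    (Q : HeightOneSpectrum O')
    (hQ : ∀ a : O, Q.valuation L' (algebraMap L L' (algebraMap O L a)) ≤ 1) (ℓ : ℕ) (m : L)
    (hm : m ≠ 0) (h : ∀ P : HeightOneSpectrum O, ∃ z : ℤᵐ⁰, P.valuation L m = z ^ ℓ) :
    ∃ z : ℤᵐ⁰, Q.valuation L' (algebraMap L L' m) = z ^ ℓ := by
  -- the restriction of the valuation to `L`
  set v : Valuation L ℤᵐ⁰ := (Q.valuation L').comap (algebraMap L L') with hv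
  have hv1 : ∀ a : O, v (algebraMap O L a) ≤ 1 := hQ
  -- the prime ideal
  let P : Ideal O :=
    { carrier := {a | v (algebraMap O L a) < 1}
      add_mem' := by
        intro a b ha hb
        simp only [Set.mem_ofPred_eq, map_add] at ha hb ⊢
        exact v.map_add_lt ha hb
      zero_mem' := by simp
      smul_mem' := by
        intro c a ha
        simp only [Set.mem_ofPred_eq, smul_eq_mul, map_mul] at ha ⊢
        exact (mul_le_of_le_one_left' (hv1 c)).trans_lt ha }
  have hPmem : ∀ a : O, a ∈ P ↔ v (algebraMap O L a) < 1 := fun a => Iff.rfl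
  have hPprime : P.IsPrime := by
    refine Ideal.isPrime_iff.2 ⟨?_, ?_⟩
    · rw [Ideal.ne_top_iff_one, hPmem]
      simp
    · intro a b hab
      rw [hPmem, map_mul, map_mul] at hab
      rw [hPmem, hPmem]
      by_contra hcon
      push Not at hcon
      have ha := le_antisymm (hv1 a) hcon.1
      have hb := le_antisymm (hv1 b) hcon.2
      rw [ha, hb, one_mul] at hab
      exact lt_irrefl _ hab
  have hPne : P ≠ ⊥ := by
    intro hbot
    -- then `v` is trivial on `L`
    have htriv : ∀ a : O, a ≠ 0 → v (algebraMap O L a) = 1 := by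
      intro a ha
      refine le_antisymm (hv1 a) (not_lt.1 fun hlt => ha ?_)
      have : a ∈ P := (hPmem a).2 hlt
      rw [hbot] at this
      simpa using this
    have htrivL : ∀ x : L, v x ≤ 1 := by
      intro x
      obtain ⟨a, b, hb, rfl⟩ := IsFractionRing.div_surjective (A := O) x
      have hb0 : b ≠ 0 := nonZeroDivisors.ne_zero hb
      rw [map_div₀, htriv b hb0, div_one]
      exact hv1 a
    -- every element of `L'` is integral over `L`, hence in the valuation ring
    obtain ⟨π, hπ⟩ := Q.valuation_exists_uniformizer L'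
    have hint : IsIntegral L π⁻¹ := Algebra.IsIntegral.isIntegral _
    have hle : Q.valuation L' π⁻¹ ≤ 1 := by
      let f : L →+* (Q.valuation L').integer :=
        { toFun := fun x => ⟨algebraMap L L' x, htrivL x⟩
          map_one' := by ext; simp
          map_mul' := by intro x y; ext; simp
          map_zero' := by ext; simp
          map_add' := by intro x y; ext; simp }
      have h2 : IsIntegral (Q.valuation L').integer π⁻¹ := by
        obtain ⟨p, hp, hp0⟩ := hint
        refine ⟨p.map f, hp.map f, ?_⟩
        rw [eval₂_map]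
        have : (algebraMap (Q.valuation L').integer L').comp f = algebraMap L L' := by
          ext x; rfl
        rw [this]
        exact hp0
      exact (Valuation.integer.integers (Q.valuation L')).mem_of_integral h2
    rw [map_inv₀, hπ] at hle
    have : (1 : ℤᵐ⁰) < (WithZero.exp (-1 : ℤ))⁻¹ := by
      rw [← WithZero.exp_neg, neg_neg, ← WithZero.exp_zero, WithZero.exp_lt_exp]
      norm_num
    exact absurd hle (not_le.2 this)
  let P' : HeightOneSpectrum O := ⟨P, hPprime, hPne⟩
  obtain ⟨z, hz⟩ := h P'
  -- choose `y` with `v_P y = z` (or `y = 1` if `ℓ = 0`)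
  obtain ⟨y, hy0, hy⟩ : ∃ y : L, y ≠ 0 ∧ P'.valuation L y ^ ℓ = z ^ ℓ := by
    by_cases hl : ℓ = 0
    · exact ⟨1, one_ne_zero, by simp [hl]⟩
    · obtain ⟨y, hy⟩ := P'.valuation_surjective L z
      refine ⟨y, ?_, by rw [hy]⟩
      intro h0
      rw [h0, map_zero] at hy
      rw [← hy, zero_pow hl, map_eq_zero] at hz
      exact hm hz
  -- `w = m / y ^ ℓ` is a unit at `P`
  have hw : P'.valuation L (m / y ^ ℓ) = 1 := by
    rw [map_div₀, map_pow, hy, hz]
    refine div_self ?_
    rw [← hz]
    exact (Valuation.ne_zero_iff _).2 hm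
  obtain ⟨b, d, hbd⟩ := P'.exists_primeCompl_mul_eq_of_integer (m / y ^ ℓ) hw.le
  have hd : (d : O) ∉ P := d.2
  have hb : b ∉ P := by
    intro hb
    have h1 : P'.valuation L (algebraMap O L b) < 1 := (P'.valuation_lt_one_iff_mem b).2 hb
    have h2 : P'.valuation L (algebraMap O L d) = 1 := P'.valuation_eq_one_iff_notMem.2 hd
    rw [← hbd, map_mul, hw, h2, one_mul] at h1
    exact lt_irrefl _ h1
  have hvd : v (algebraMap O L d) = 1 := le_antisymm (hv1 _) (not_lt.1 fun hlt => hd hlt)
  have hvb : v (algebraMap O L b) = 1 := le_antisymm (hv1 _) (not_lt.1 fun hlt => hb hlt)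
  have hvw : v (m / y ^ ℓ) = 1 := by
    have := congrArg v hbd
    rwa [map_mul, hvd, hvb, mul_one] at this
  refine ⟨v y, ?_⟩
  have hvy : v y ≠ 0 := (Valuation.ne_zero_iff _).2 hy0
  rw [map_div₀, map_pow, div_eq_one_iff_eq (pow_ne_zero _ hvy)] at hvw
  exact hvw

end Pool.Agent.MP1bdb59C
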