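import Mathlib
import Pool.Agent.MP1bdb59.Stmt
import Pool.Agent.MP1bdb59C.EtDed
import Pool.Agent.MP1bdb59C.Scale
import Pool.Agent.MP1bdb59C.SameField
import Pool.Agent.MP1bdb59C.SameField2
import Pool.Agent.MP1bdb59C.Val

/-!
# Valuations of the classes satisfying the local conditions
-/

open Polynomial IsDedekindDomain

noncomputable section

open scoped Classical WithZero

namespace Pool.Agent.MP1bdb59C

open Pool.Agent.MP1bdb59 (Sep AbsGal emb resGal Place Completion TateModule)

lemma exists_pow_of_coprime_gz {G : Type*} [CommGroupWithZero G] {a b : G} (ha : a ≠ 0) {n ℓ : ℕ}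
    (hcop : Nat.Coprime ℓ n) (h : a ^ n = b ^ ℓ) : ∃ c, a = c ^ ℓ := by
  have hb : ℓ ≠ 0 → b ≠ 0 := by
    rintro hℓ rfl
    rw [zero_pow hℓ] at h
    exact pow_ne_zero _ ha h
  rcases Nat.eq_zero_or_pos ℓ with rfl | hℓ
  · have : n = 1 := by simpa using hcop
    rw [this, pow_one, pow_zero] at h
    exact ⟨1, by rw [h, one_pow]⟩
  · have hb' := hb hℓ.ne'
    have h1 := Nat.gcd_eq_gcd_ab ℓ n
    rw [hcop] at h1
    set x := Nat.gcdA ℓ n
    set y := Nat.gcdB ℓ n
    refine ⟨a ^ x * b ^ y, ?_⟩
    have h2 : a ^ (1 : ℤ) = a ^ ((ℓ : ℤ) * x) * a ^ ((n : ℤ) * y) := by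
      rw [← zpow_add₀ ha]
      congr 1
    rw [zpow_one] at h2
    have h3 : a ^ ((n : ℤ) * y) = (b ^ y) ^ ℓ := by
      rw [zpow_mul, zpow_natCast, h, ← zpow_natCast, ← zpow_natCast, ← zpow_mul, ← zpow_mul,
        mul_comm]
    have h4 : a ^ ((ℓ : ℤ) * x) = (a ^ x) ^ ℓ := by
      rw [mul_comm, zpow_mul, zpow_natCast]
    rw [mul_pow, ← h3, ← h4, ← h2]

section Norm

variable {A K O L : Type*} [CommRing A] [IsDedekindDomain A] [Field K] [Algebra A K]
  [IsFractionRing A K] [CommRing O] [IsDedekindDomain O] [Algebra A O] [Algebra.IsIntegral A O]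
  [Module.IsTorsionFree A O] [Field L] [Algebra K L] [FiniteDimensional K L] [Algebra A L]
  [IsScalarTower A K L] [Algebra O L] [IsFractionRing O L] [IsScalarTower A O L]

include A in
variable (A) in
/-- If `m = κ u z^ℓ` has norm an `ℓ`-th power, then all its valuations are `ℓ`-th powers. -/
theorem isPow_of_norm {ℓ : ℕ} (hp : ℓ.Prime) (hcop : ¬ ℓ ∣ Module.finrank K L) {κ : K} (u : Oˣ)
    {z m : L} (hm0 : m ≠ 0) (hm : m = algebraMap K L κ * algebraMap O L u * z ^ ℓ) {r : K}
    (hr : Algebra.norm K m = r ^ ℓ) (Q : HeightOneSpectrum O) :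
    ∃ t : ℤᵐ⁰, Q.valuation L m = t ^ ℓ := by
  have hz : z ≠ 0 := by
    rintro rfl
    rw [zero_pow hp.ne_zero, mul_zero] at hm
    exact hm0 hm
  have hκ : κ ≠ 0 := by
    rintro rfl
    rw [map_zero, zero_mul, zero_mul] at hm
    exact hm0 hm
  set p := HeightOneSpectrum.under A Q with hpdef
  have hlo : Q.asIdeal.LiesOver p.asIdeal := ⟨rfl⟩
  have hle : ∀ x : O, p.valuation K (Algebra.norm K (algebraMap O L x)) ≤ 1 := by
    intro x
    have h1 : IsIntegral A (Algebra.norm K (algebraMap O L x)) :=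
      Algebra.isIntegral_norm K (Algebra.IsIntegral.isIntegral x).algebraMap
    obtain ⟨d, hd⟩ := IsIntegrallyClosed.isIntegral_iff.mp h1
    rw [← hd]
    exact p.valuation_le_one d
  have hu : p.valuation K (Algebra.norm K (algebraMap O L u)) = 1 := by
    have h1 : p.valuation K (Algebra.norm K (algebraMap O L u)) *
        p.valuation K (Algebra.norm K (algebraMap O L ((u⁻¹ : Oˣ) : O))) = 1 := by
      rw [← map_mul, ← map_mul, ← map_mul, Units.mul_inv, map_one, map_one, map_one]
    apply le_antisymm (hle u)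
    rw [← h1]
    exact mul_le_of_le_one_right' (hle _)
  have hNz : Algebra.norm K z ≠ 0 := by
    rw [Ne, Algebra.norm_eq_zero_iff]
    exact hz
  have hvNz : p.valuation K (Algebra.norm K z) ≠ 0 := by
    rwa [Ne, map_eq_zero]
  have hvκ : p.valuation K κ ≠ 0 := by rwa [Ne, map_eq_zero]
  have h1 : p.valuation K κ ^ Module.finrank K L * p.valuation K (Algebra.norm K z) ^ ℓ =
      p.valuation K r ^ ℓ := by
    have h2 := congrArg (p.valuation K) hr
    rw [hm, map_mul (Algebra.norm K), map_mul (Algebra.norm K), map_pow (Algebra.norm K),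
      Algebra.norm_algebraMap, map_mul, map_mul, map_pow, map_pow, map_pow, hu, mul_one] at h2
    exact h2
  obtain ⟨t, ht⟩ := exists_pow_of_coprime_gz hvκ ((Nat.Prime.coprime_iff_not_dvd hp).mpr hcop)
    (b := p.valuation K r / p.valuation K (Algebra.norm K z)) (by
      rw [div_pow, eq_div_iff (pow_ne_zero _ hvNz), h1])
  have h3 : Q.valuation L (algebraMap O L u) = 1 := by
    rw [HeightOneSpectrum.valuation_of_algebraMap, HeightOneSpectrum.intValuation_eq_one_iff]
    intro h
    exact Q.isPrime.ne_top (Ideal.eq_top_of_isUnit_mem _ h u.isUnit)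
  refine ⟨t ^ (p.asIdeal.ramificationIdx' Q.asIdeal) * Q.valuation L z, ?_⟩
  rw [hm, map_mul, map_mul, map_pow, h3, mul_one, ← HeightOneSpectrum.valuation_liesOver L p Q, ht,
    mul_pow]
  congr 1
  rw [← pow_mul, ← pow_mul, mul_comm]

end Norm

lemma norm_scMap {K : Type*} [Field K] {f g : K[X]} {c : K} (hc : c ≠ 0) (hg : g = f.scaleRoots c)
    (m : AdjoinRoot g) : Algebra.norm K (scMap hg m) = Algebra.norm K m := by
  let e : AdjoinRoot g ≃ₐ[K] AdjoinRoot f :=
    AlgEquiv.ofRingEquiv (f := scEquiv hg (mul_inv_cancel₀ hc)) (fun a => scMap_of hg a)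
  exact Algebra.norm_eq_of_algEquiv e m

section Local

variable {A K : Type*} [CommRing A] [IsDedekindDomain A] [Field K] [Algebra A K]
  [IsFractionRing A K]

lemma valuation_le_one_of_atPrime (p : HeightOneSpectrum A) {A' : Type*} [CommRing A']
    [Algebra A A'] [IsLocalization.AtPrime A' p.asIdeal] [Algebra A' K] [IsScalarTower A A' K]
    (x : A') : p.valuation K (algebraMap A' K x) ≤ 1 := by
  obtain ⟨⟨a, b⟩, hab⟩ := IsLocalization.surj p.asIdeal.primeCompl x
  have h1 : p.valuation K (algebraMap A K b) = 1 := by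
    rw [HeightOneSpectrum.valuation_of_algebraMap, HeightOneSpectrum.intValuation_eq_one_iff]
    exact b.2
  have h2 := congrArg (fun y => p.valuation K (algebraMap A' K y)) hab
  simp only [map_mul] at h2
  rw [← IsScalarTower.algebraMap_apply, ← IsScalarTower.algebraMap_apply, h1, mul_one] at h2
  rw [h2]
  exact p.valuation_le_one a

lemma valuation_le_one_adjoinRoot {A' L : Type*} [CommRing A'] [Field L] (v : Valuation L ℤᵐ⁰)
    {G : A'[X]} (ψ : AdjoinRoot G →+* L) (h1 : ∀ a, v (ψ (AdjoinRoot.of G a)) ≤ 1)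
    (h2 : v (ψ (AdjoinRoot.root G)) ≤ 1) (x : AdjoinRoot G) : v (ψ x) ≤ 1 := by
  obtain ⟨q, rfl⟩ := AdjoinRoot.mk_surjective x
  induction q using Polynomial.induction_on' with
  | add p q hp hq =>
    rw [map_add, map_add]
    exact Valuation.map_add_le _ hp hq
  | monomial n c =>
    rw [← C_mul_X_pow_eq_monomial, map_mul, map_mul, map_mul, map_pow, map_pow, map_pow,
      AdjoinRoot.mk_C, AdjoinRoot.mk_X]
    exact mul_le_one' (h1 c) (pow_le_one' h2 n)

end Local

section Away

variable {k K : Type*} [Field k] [Field K] [Algebra k K] {A : Type*} [CommRing A]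
  [IsDedekindDomain A] [Algebra A K] [IsFractionRing A K] {ℓ : ℕ} [hp : Fact ℓ.Prime]
  {f : A[X]} [hirr : Fact (Irreducible (f.map (algebraMap A K)))]
  [IsDedekindDomain (AdjoinRoot f)] [Algebra (AdjoinRoot f) (AdjoinRoot (f.map (algebraMap A K)))]
  [IsFractionRing (AdjoinRoot f) (AdjoinRoot (f.map (algebraMap A K)))]
  [IsScalarTower A (AdjoinRoot f) (AdjoinRoot (f.map (algebraMap A K)))]
  (halg : ∀ x, algebraMap (AdjoinRoot f) (AdjoinRoot (f.map (algebraMap A K))) x =
    lamMap (algebraMap A K) rfl x)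
  (hf : f.Monic) (hsep : f.Separable) (hcop : ¬ ℓ ∣ f.natDegree)

include halg hf hsep hcop in
omit [Algebra k K] in
/-- The valuation at a prime `w O`, where `w A` is a prime. -/
theorem isPow_at (p : HeightOneSpectrum A) {w : A} (hw : p.asIdeal = Ideal.span {w})
    (m : AdjoinRoot (f.map (algebraMap A K))) (hm : m ≠ 0) {r : K}
    (hr : Algebra.norm K m = r ^ ℓ)
    (P : HeightOneSpectrum (AdjoinRoot f))
    (hP : P.asIdeal = Ideal.span {algebraMap A (AdjoinRoot f) w}) :
    ∃ t : ℤᵐ⁰, P.valuation (AdjoinRoot (f.map (algebraMap A K))) m = t ^ ℓ := by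
  have hℓ := hp.out
  have hle := p.asIdeal.primeCompl_le_nonZeroDivisors
  set A' := Localization.subalgebra.ofField K p.asIdeal.primeCompl hle with hA'
  have i1 : IsLocalization.AtPrime A' p.asIdeal :=
    inferInstanceAs (IsLocalization p.asIdeal.primeCompl A')
  have i2 : IsFractionRing A' K := inferInstance
  have i3 : IsScalarTower A A' K := inferInstance
  have i4 : IsDiscreteValuationRing A' :=
    IsLocalization.AtPrime.isDiscreteValuationRing_of_dedekind_domain A p.ne_bot A'
  -- the polynomial over `A'`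
  obtain ⟨F, hF⟩ : ∃ F, F = f.map (algebraMap A A') := ⟨_, rfl⟩
  have hFm : F.Monic := by rw [hF]; exact hf.map _
  have hFK : F.map (algebraMap A' K) = f.map (algebraMap A K) := by
    rw [hF, Polynomial.map_map, ← IsScalarTower.algebraMap_eq]
  have hFded : IsDedekindDomain (AdjoinRoot F) :=
    isDedekind_adjoinRoot K hFm (by rw [hF]; exact hsep.map) (by rw [hFK]; exact hirr.out)
  have j1 : Module.Finite A' (AdjoinRoot F) := (AdjoinRoot.powerBasis' hFm).finite
  have j2 : Module.Free A' (AdjoinRoot F) := Module.Free.of_basis (AdjoinRoot.powerBasis' hFm).basis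
  have j3 : Module.IsTorsionFree A' (AdjoinRoot F) := inferInstance
  have hFpid : IsPrincipalIdealRing (AdjoinRoot F) := isPrincipal_of_semilocal (A := A')
  let l1 : Algebra (AdjoinRoot F) (AdjoinRoot (f.map (algebraMap A K))) := (lamMap (algebraMap A' K) hFK).toAlgebra
  have l2 : IsFractionRing (AdjoinRoot F) (AdjoinRoot (f.map (algebraMap A K))) :=
    isFractionRing_adjoinRoot hFK hFm hirr.out (fun _ => rfl)
  have l3 : IsScalarTower A' (AdjoinRoot F) (AdjoinRoot (f.map (algebraMap A K))) := by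
    apply IsScalarTower.of_algebraMap_eq
    intro a
    change AdjoinRoot.of _ (algebraMap A' K a) = lamMap (algebraMap A' K) hFK (AdjoinRoot.of F a)
    rw [lamMap_of']
  have l4 : Algebra.IsIntegral A' (AdjoinRoot F) := inferInstance
  have hfKm : (f.map (algebraMap A K)).Monic := hf.map _
  have l7 : FiniteDimensional K (AdjoinRoot (f.map (algebraMap A K))) := (AdjoinRoot.powerBasis' hfKm).finite
  have hrank : Module.finrank K (AdjoinRoot (f.map (algebraMap A K))) = f.natDegree := by
    rw [(AdjoinRoot.powerBasis' hfKm).finrank, AdjoinRoot.powerBasis'_dim, hf.natDegree_map]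
  -- the algebra `A[x]/(f) → A'[x]/(f)`
  let l8 : Algebra (AdjoinRoot f) (AdjoinRoot F) := (lamMap (algebraMap A A') hF.symm).toAlgebra
  have l9 : IsScalarTower (AdjoinRoot f) (AdjoinRoot F) (AdjoinRoot (f.map (algebraMap A K))) := by
    apply IsScalarTower.of_algebraMap_eq
    intro x
    rw [halg]
    change _ = lamMap (algebraMap A' K) hFK (lamMap (algebraMap A A') hF.symm x)
    obtain ⟨q, rfl⟩ := AdjoinRoot.mk_surjective x
    rw [lamMap_mk, lamMap_mk, lamMap_mk, Polynomial.map_map, ← IsScalarTower.algebraMap_eq]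
  have hPm : P.asIdeal.IsMaximal := P.isPrime.isMaximal P.ne_bot
  -- all primes of `A'[x]/(f)` lie over `P`
  have hval : ∀ Q : HeightOneSpectrum (AdjoinRoot F), ∀ x : (AdjoinRoot (f.map (algebraMap A K))), P.valuation (AdjoinRoot (f.map (algebraMap A K))) x = Q.valuation (AdjoinRoot (f.map (algebraMap A K))) x := by
    intro Q x
    apply valuation_eq_of_sameField
    apply hPm.eq_of_le (Ideal.comap_ne_top _ Q.isPrime.ne_top)
    rw [hP, Ideal.span_le, Set.singleton_subset_iff]
    change lamMap (algebraMap A A') hF.symm (AdjoinRoot.of f w) ∈ Q.asIdeal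
    rw [lamMap_of']
    have h2 : Q.asIdeal.comap (algebraMap A' (AdjoinRoot F)) ≠ ⊥ :=
      mt Ideal.eq_bot_of_comap_eq_bot Q.ne_bot
    have h3 : (Q.asIdeal.comap (algebraMap A' (AdjoinRoot F))).IsPrime := Ideal.comap_isPrime _ _
    have h5 := IsLocalRing.eq_maximalIdeal (h3.isMaximal h2)
    have h6 : algebraMap A A' w ∈ Q.asIdeal.comap (algebraMap A' (AdjoinRoot F)) := by
      rw [h5, IsLocalization.AtPrime.to_map_mem_maximal_iff A' p.asIdeal, hw]
      exact Ideal.mem_span_singleton_self w
    exact h6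
  -- the exponent of `w`
  have hPw : P.valuation (AdjoinRoot (f.map (algebraMap A K))) (algebraMap K (AdjoinRoot (f.map (algebraMap A K))) (algebraMap A K w)) = WithZero.exp (-1 : ℤ) := by
    have h1 : algebraMap K (AdjoinRoot (f.map (algebraMap A K))) (algebraMap A K w) =
        algebraMap (AdjoinRoot f) (AdjoinRoot (f.map (algebraMap A K))) (algebraMap A (AdjoinRoot f) w) := by
      rw [← IsScalarTower.algebraMap_apply A (AdjoinRoot f) (AdjoinRoot (f.map (algebraMap A K)))]
      rfl
    have hw0 : algebraMap A (AdjoinRoot f) w ≠ 0 := by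
      intro h0
      apply P.ne_bot
      rw [hP, h0, Ideal.span_singleton_eq_bot]
    rw [h1, HeightOneSpectrum.valuation_of_algebraMap]
    exact HeightOneSpectrum.intValuation_singleton P hw0 hP
  have hw0 : algebraMap A K w ≠ 0 := by
    intro h0
    rw [h0, map_zero, map_zero] at hPw
    exact WithZero.exp_ne_zero hPw.symm
  set a : ℤ := WithZero.log (P.valuation (AdjoinRoot (f.map (algebraMap A K))) m) with ha
  have hvm : P.valuation (AdjoinRoot (f.map (algebraMap A K))) m ≠ 0 := by rwa [Ne, map_eq_zero]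
  obtain ⟨κ, u, z, hκ, h⟩ := exists_unit_of_val (A := A') (K := K) (O := AdjoinRoot F) (L := AdjoinRoot (f.map (algebraMap A K)))
    hℓ.ne_zero (fun I _ => IsPrincipalIdealRing.principal I) m hm (fun p' => by
      refine ⟨algebraMap A K w ^ (-a), zpow_ne_zero _ hw0, fun Q _ => ⟨1, ?_⟩⟩
      rw [one_pow, mul_one, ← hval, ← hval, map_zpow₀, map_zpow₀, hPw, ← WithZero.exp_log hvm,
        ← ha, ← WithZero.exp_zsmul]
      congr 1
      simp)
  have hQ : ∀ Q : HeightOneSpectrum (AdjoinRoot F), ∃ t : ℤᵐ⁰, Q.valuation (AdjoinRoot (f.map (algebraMap A K))) m = t ^ ℓ := fun Q =>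
    isPow_of_norm A' hℓ (by rw [hrank]; exact hcop) u hm h hr Q
  -- valuations over `p`
  have m1 : Algebra.IsIntegral A (AdjoinRoot f) := by
    have := (AdjoinRoot.powerBasis' hf).finite
    infer_instance
  have m2 : Module.Free A (AdjoinRoot f) := Module.Free.of_basis (AdjoinRoot.powerBasis' hf).basis
  have m3 : Module.IsTorsionFree A (AdjoinRoot f) := inferInstance
  have hlo : P.asIdeal.LiesOver p.asIdeal := by
    refine ⟨?_⟩
    have hpm : p.asIdeal.IsMaximal := p.isPrime.isMaximal p.ne_bot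
    apply hpm.eq_of_le (Ideal.comap_ne_top _ P.isPrime.ne_top)
    rw [hw, Ideal.span_le, Set.singleton_subset_iff]
    change algebraMap A (AdjoinRoot f) w ∈ P.asIdeal
    rw [hP]
    exact Ideal.mem_span_singleton_self _
  exact isPow_of_valuation_le (O := AdjoinRoot F) (L := AdjoinRoot (f.map (algebraMap A K))) (O' := AdjoinRoot f) (L' := AdjoinRoot (f.map (algebraMap A K))) P
    (valuation_le_one_adjoinRoot (P.valuation (AdjoinRoot (f.map (algebraMap A K)))) (lamMap (algebraMap A' K) hFK) (fun a => by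
        rw [lamMap_of']
        have h1 := HeightOneSpectrum.valuation_liesOver (AdjoinRoot (f.map (algebraMap A K))) p P (algebraMap A' K a)
        have h2 : AdjoinRoot.of (f.map (algebraMap A K)) (algebraMap A' K a) =
          algebraMap K _ (algebraMap A' K a) := rfl
        rw [h2, ← h1]
        exact pow_le_one' (valuation_le_one_of_atPrime p a) _) (by
        rw [lamMap_root']
        have h1 : AdjoinRoot.root (f.map (algebraMap A K)) = algebraMap (AdjoinRoot f)
              (AdjoinRoot (f.map (algebraMap A K))) (AdjoinRoot.root f) := by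
          rw [halg, lamMap_root']
        rw [h1]
        exact P.valuation_le_one _)) ℓ m hm hQ

end Away

end Pool.Agent.MP1bdb59C
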