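import Mathlib
import Pool.Agent.MP1bdb59C.Crit
import Pool.Agent.MP1bdb59C.LocSelA
import Pool.Agent.MP1bdb59C.GenPlace

/-!
# Valuations of the classes satisfying the local conditions
-/

open Polynomial IsDedekindDomain

noncomputable section

open scoped Classical WithZero

namespace Pool.Agent.MP1bdb59C

open Pool.Agent.MP1bdb59 (Sep AbsGal emb resGal Place Completion placeOf TateModule)

section Away

variable {k K : Type*} [Field k] [Field K] [Algebra k K] {A : Type*} [CommRing A]
  [IsDedekindDomain A] [Algebra A K] [IsFractionRing A K] {ℓ : ℕ} [hp : Fact ℓ.Prime]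
  {f : A[X]} [hirr : Fact (Irreducible (f.map (algebraMap A K)))]
  [IsDedekindDomain (AdjoinRoot f)] [Algebra (AdjoinRoot f) (AdjoinRoot (f.map (algebraMap A K)))]
  [IsFractionRing (AdjoinRoot f) (AdjoinRoot (f.map (algebraMap A K)))]
  [IsScalarTower A (AdjoinRoot f) (AdjoinRoot (f.map (algebraMap A K)))]
  (halg : ∀ x, algebraMap (AdjoinRoot f) (AdjoinRoot (f.map (algebraMap A K))) x =
    lamMap (algebraMap A K) rfl x)
  (hf : f.Monic) (hsep : f.Separable) (hcop : ¬ ℓ ∣ f.natDegree)

include halg hf hsep hcop in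
/-- The valuations at the primes not containing `w`. -/
theorem isPow_away {ζK : K} (hζK : IsPrimitiveRoot ζK ℓ) {ζ : A} (hζ : algebraMap A K ζ = ζK)
    (p : HeightOneSpectrum A) {w : A} (hw : w ∉ p.asIdeal) {j : ℕ} {g : K[X]}
    (hg : g = (f.map (algebraMap A K)).scaleRoots (algebraMap A K w ^ j)) [hgood : Good ℓ g]
    (v : Place k K) (hv : v.ring = (p.valuation K).valuationSubring)
    (m : AdjoinRoot g) (hm : IsUnit m) {r : K} (hr : Algebra.norm K m = r ^ ℓ)
    (hloc : ∀ v : Place k K, LocCond hζK (Completion v) m)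
    (P : HeightOneSpectrum (AdjoinRoot f)) (hP : P.asIdeal.LiesOver p.asIdeal) :
    ∃ t : ℤᵐ⁰, P.valuation (AdjoinRoot (f.map (algebraMap A K))) (scMap hg m) = t ^ ℓ := by
  have hℓ := hp.out
  have hle := p.asIdeal.primeCompl_le_nonZeroDivisors
  set A' := Localization.subalgebra.ofField K p.asIdeal.primeCompl hle with hA'
  have i1 : IsLocalization.AtPrime A' p.asIdeal :=
    inferInstanceAs (IsLocalization p.asIdeal.primeCompl A')
  have i2 : IsFractionRing A' K := inferInstance
  have i3 : IsScalarTower A A' K := inferInstance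
  have i4 : IsDiscreteValuationRing A' :=
    IsLocalization.AtPrime.isDiscreteValuationRing_of_dedekind_domain A p.ne_bot A'
  -- the polynomials over `A'`
  have hwu : IsUnit (algebraMap A A' w) :=
    IsLocalization.map_units A' (⟨w, hw⟩ : p.asIdeal.primeCompl)
  obtain ⟨wi, hwi⟩ := hwu.exists_right_inv
  have hcd : (algebraMap A A' w) ^ j * wi ^ j = 1 := by rw [← mul_pow, hwi, one_pow]
  obtain ⟨F, hF⟩ : ∃ F, F = f.map (algebraMap A A') := ⟨_, rfl⟩
  obtain ⟨G, hG⟩ : ∃ G, G = F.scaleRoots ((algebraMap A A' w) ^ j) := ⟨_, rfl⟩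
  have hFm : F.Monic := by rw [hF]; exact hf.map _
  have hGm : G.Monic := by
    rw [hG, monic_scaleRoots_iff]
    exact hFm
  have hFK : F.map (algebraMap A' K) = f.map (algebraMap A K) := by
    rw [hF, Polynomial.map_map, ← IsScalarTower.algebraMap_eq]
  have hGK : G.map (algebraMap A' K) = g := by
    rw [hG, map_scaleRoots _ _ _ (by rw [hFm.leadingCoeff, map_one]; exact one_ne_zero), hFK, hg,
      map_pow, ← IsScalarTower.algebraMap_apply]
  have hFded : IsDedekindDomain (AdjoinRoot F) :=
    isDedekind_adjoinRoot K hFm (by rw [hF]; exact hsep.map) (by rw [hFK]; exact hirr.out)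
  have j1 : Module.Finite A' (AdjoinRoot F) := (AdjoinRoot.powerBasis' hFm).finite
  have j2 : Module.Free A' (AdjoinRoot F) := Module.Free.of_basis (AdjoinRoot.powerBasis' hFm).basis
  have j3 : Module.IsTorsionFree A' (AdjoinRoot F) := inferInstance
  have hFpid : IsPrincipalIdealRing (AdjoinRoot F) := isPrincipal_of_semilocal (A := A')
  have hGdom : IsDomain (AdjoinRoot G) := (scEquiv hG hcd).toMulEquiv.isDomain _
  have hGpid : IsPrincipalIdealRing (AdjoinRoot G) :=
    IsPrincipalIdealRing.of_surjective (scEquiv hG hcd).symm.toRingHom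
      (scEquiv hG hcd).symm.surjective
  have hGded : IsDedekindDomain (AdjoinRoot G) := inferInstance
  -- the places
  have hplace : ∀ p' : HeightOneSpectrum A', ∃ v : Place k K,
      v.ring = (p'.valuation K).valuationSubring := by
    intro p'
    refine ⟨v, ?_⟩
    rw [hv]
    have h1 : p.asIdeal = p'.asIdeal.comap (algebraMap A A') := by
      have h2 : p'.asIdeal.IsMaximal := p'.isPrime.isMaximal p'.ne_bot
      rw [IsLocalRing.eq_maximalIdeal h2]
      exact (IsLocalization.AtPrime.under_maximalIdeal A' p.asIdeal).symm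
    have h3 : p.valuation K = p'.valuation K := by
      ext x
      exact valuation_eq_of_sameField p' p h1 x
    rw [h3]
  have hζ' : algebraMap A' K (algebraMap A A' ζ) = ζK := by
    rw [← IsScalarTower.algebraMap_apply, hζ]
  subst hζ'
  subst hGK
  obtain ⟨κ, u, z, hκ, h⟩ := exists_unit_of_locCond hζK G hGm
    (fun I _ => IsPrincipalIdealRing.principal I) hplace m hm hloc
  have hGirr : Irreducible (G.map (algebraMap A' K)) := irreducible_of_isDomain hGm
  have := Fact.mk hGirr
  let l1 : Algebra (AdjoinRoot G) (AdjoinRoot (G.map (algebraMap A' K))) :=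
    (lamMap (algebraMap A' K) rfl).toAlgebra
  have l2 : IsFractionRing (AdjoinRoot G) (AdjoinRoot (G.map (algebraMap A' K))) :=
    isFractionRing_adjoinRoot rfl hGm hGirr (fun _ => rfl)
  have l3 : IsScalarTower A' (AdjoinRoot G) (AdjoinRoot (G.map (algebraMap A' K))) := by
    apply IsScalarTower.of_algebraMap_eq
    intro a
    change AdjoinRoot.of _ (algebraMap A' K a) = lamMap (algebraMap A' K) rfl (AdjoinRoot.of G a)
    rw [lamMap_of']
  have l4 : Algebra.IsIntegral A' (AdjoinRoot G) := by
    have := (AdjoinRoot.powerBasis' hGm).finite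
    infer_instance
  have l5 : Module.Free A' (AdjoinRoot G) := Module.Free.of_basis (AdjoinRoot.powerBasis' hGm).basis
  have l6 : Module.IsTorsionFree A' (AdjoinRoot G) := inferInstance
  have hGKm : (G.map (algebraMap A' K)).Monic := hGm.map _
  have l7 : FiniteDimensional K (AdjoinRoot (G.map (algebraMap A' K))) :=
    (AdjoinRoot.powerBasis' hGKm).finite
  have hrank : Module.finrank K (AdjoinRoot (G.map (algebraMap A' K))) = f.natDegree := by
    rw [(AdjoinRoot.powerBasis' hGKm).finrank, AdjoinRoot.powerBasis'_dim, hGm.natDegree_map, hG,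
      natDegree_scaleRoots, hF, hf.natDegree_map]
  have hQ : ∀ Q : HeightOneSpectrum (AdjoinRoot G), ∃ t : ℤᵐ⁰,
      Q.valuation (AdjoinRoot (G.map (algebraMap A' K))) m = t ^ ℓ := fun Q =>
    isPow_of_norm A' hℓ (by rw [hrank]; exact hcop) u hm.ne_zero h hr Q
  let l8 : Algebra (AdjoinRoot (G.map (algebraMap A' K))) (AdjoinRoot (f.map (algebraMap A K))) :=
    (scMap hg).toAlgebra
  have hcdK : algebraMap A K w ^ j * algebraMap A' K (wi ^ j) = 1 := by
    rw [IsScalarTower.algebraMap_apply A A' K, ← map_pow, ← map_mul, hcd, map_one]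
  have l9 : Algebra.IsAlgebraic (AdjoinRoot (G.map (algebraMap A' K)))
      (AdjoinRoot (f.map (algebraMap A K))) := by
    refine ⟨fun x => ?_⟩
    obtain ⟨y, rfl⟩ := (scEquiv hg hcdK).surjective x
    exact isAlgebraic_algebraMap y
  -- valuations over `p`
  have m1 : Algebra.IsIntegral A (AdjoinRoot f) := by
    have := (AdjoinRoot.powerBasis' hf).finite
    infer_instance
  have m2 : Module.Free A (AdjoinRoot f) := Module.Free.of_basis (AdjoinRoot.powerBasis' hf).basis
  have m3 : Module.IsTorsionFree A (AdjoinRoot f) := inferInstance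
  exact isPow_of_valuation_le (O := AdjoinRoot G) (L := AdjoinRoot (G.map (algebraMap A' K)))
    (O' := AdjoinRoot f) (L' := AdjoinRoot (f.map (algebraMap A K))) P
    (valuation_le_one_adjoinRoot (P.valuation (AdjoinRoot (f.map (algebraMap A K))))
      ((scMap hg).comp (lamMap (algebraMap A' K) rfl)) (fun a => by
        rw [RingHom.comp_apply, lamMap_of', scMap_of]
        have h1 := HeightOneSpectrum.valuation_liesOver (AdjoinRoot (f.map (algebraMap A K))) p P
          (algebraMap A' K a)
        have h2 : AdjoinRoot.of (f.map (algebraMap A K)) (algebraMap A' K a) =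
          algebraMap K _ (algebraMap A' K a) := rfl
        rw [h2, ← h1]
        exact pow_le_one' (valuation_le_one_of_atPrime p a) _) (by
        rw [RingHom.comp_apply, lamMap_root', scMap_root]
        have h1 : AdjoinRoot.of (f.map (algebraMap A K)) (algebraMap A K w ^ j) *
            AdjoinRoot.root (f.map (algebraMap A K)) = algebraMap (AdjoinRoot f)
              (AdjoinRoot (f.map (algebraMap A K))) (AdjoinRoot.of f (w ^ j) *
                AdjoinRoot.root f) := by
          rw [halg, map_mul (lamMap _ _), lamMap_of', lamMap_root', map_pow (algebraMap A K)]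
        rw [h1]
        exact P.valuation_le_one _)) ℓ m hm.ne_zero hQ

end Away

end Pool.Agent.MP1bdb59C
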