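import Mathlib

/-! # T4b: finitely many representatives, from finiteness modulo constants -/

open Polynomial IsDedekindDomain

noncomputable section

open scoped Classical WithZero

namespace Pool.Agent.MP1bdb59C

/-- if `x ^ n` is an `ℓ`-th power and `ℓ ∤ n` then `x` is an `ℓ`-th power -/
theorem isPow_of_pow_isPow {K : Type*} [Field K] {ℓ n : ℕ} (hℓ : ℓ.Prime) (hn : ¬ ℓ ∣ n)
    {x s : K} (hx : x ≠ 0) (h : x ^ n = s ^ ℓ) : ∃ y : K, x = y ^ ℓ := by
  have hs : s ≠ 0 := by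
    intro hs
    rw [hs, zero_pow hℓ.ne_zero] at h
    exact pow_ne_zero n hx h
  have hco : IsCoprime (n : ℤ) (ℓ : ℤ) := by
    rw [Nat.isCoprime_iff_coprime]
    exact ((Nat.Prime.coprime_iff_not_dvd hℓ).2 hn).symm
  obtain ⟨u, v, huv⟩ := hco
  refine ⟨s ^ u * x ^ v, ?_⟩
  have h1 : (s ^ u * x ^ v) ^ ℓ = (s ^ ℓ) ^ u * (x ^ ℓ) ^ v := by
    rw [mul_pow, ← zpow_natCast, ← zpow_natCast, ← zpow_natCast, ← zpow_natCast, ← zpow_mul,
      ← zpow_mul, ← zpow_mul, ← zpow_mul]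
    congr 2 <;> ring
  rw [h1, ← h, ← zpow_natCast, ← zpow_natCast, ← zpow_mul, ← zpow_mul, ← zpow_add₀ hx]
  have : (n : ℤ) * u + ℓ * v = 1 := by linarith [huv]
  rw [this, zpow_one]

section

variable {k O L K : Type*} [Field k] [CommRing O] [IsDedekindDomain O] [Field L] [Algebra O L]
  [IsFractionRing O L] [Algebra k O] [Algebra k L] [IsScalarTower k O L] [Field K] [Algebra k K]

/-- T4b (Reps2.lean): finitely many representatives. `Nm` is the norm `L → K`. -/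
theorem exists_reps_sel {ℓ : ℕ} [hp : Fact ℓ.Prime]
    (hfin : ∃ M : Finset L, ∀ m : L, m ≠ 0 →
      (∀ P : HeightOneSpectrum O, ∃ z : ℤᵐ⁰, P.valuation L m = z ^ ℓ) →
      ∃ m₀ ∈ M, ∃ (c : k) (z : L), c ≠ 0 ∧ z ≠ 0 ∧ m = algebraMap k L c * m₀ * z ^ ℓ)
    (Nm : L →* K) {n : ℕ} (hn : ¬ ℓ ∣ n) (hNm0 : ∀ x, Nm x = 0 → x = 0)
    (hNm : ∀ c : k, Nm (algebraMap k L c) = algebraMap k K c ^ n)
    (hkK : ∀ (c : k) (y : K), algebraMap k K c = y ^ ℓ → ∃ b : k, c = b ^ ℓ) :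
    ∃ M : Finset O, (∀ m ∈ M, ¬ ∃ z : L, algebraMap O L m = z ^ ℓ) ∧
      ∀ m : L, m ≠ 0 → (∀ P : HeightOneSpectrum O, ∃ z : ℤᵐ⁰, P.valuation L m = z ^ ℓ) →
        (∃ r : K, Nm m = r ^ ℓ) →
        (∃ z : L, m = z ^ ℓ) ∨ ∃ m₀ ∈ M, ∃ z : L, z ≠ 0 ∧ m = algebraMap O L m₀ * z ^ ℓ := by
  have hℓ := hp.out
  obtain ⟨M, hM⟩ := hfin
  -- a good constant for `m₀`
  let good : L → k → Prop := fun m₀ c => c ≠ 0 ∧ ∃ r : K, Nm (algebraMap k L c * m₀) = r ^ ℓ
  let cc : L → k := fun m₀ => if h : ∃ c, good m₀ c then h.choose else 1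
  have hcc : ∀ m₀, (∃ c, good m₀ c) → good m₀ (cc m₀) := by
    intro m₀ h
    simp only [cc, dif_pos h]
    exact h.choose_spec
  have hcc0 : ∀ m₀, cc m₀ ≠ 0 := by
    intro m₀
    by_cases h : ∃ c, good m₀ c
    · exact (hcc m₀ h).1
    · simp only [cc, dif_neg h]; exact one_ne_zero
  -- clearing denominators
  have hden : ∀ x : L, ∃ (a d : O), d ≠ 0 ∧ x = algebraMap O L a / algebraMap O L d := by
    intro x
    obtain ⟨a, b, hb, rfl⟩ := IsFractionRing.div_surjective (A := O) x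
    exact ⟨a, b, nonZeroDivisors.ne_zero hb, rfl⟩
  choose num den hden0 hfrac using hden
  let rep : L → O := fun m₀ =>
    num (algebraMap k L (cc m₀) * m₀) * den (algebraMap k L (cc m₀) * m₀) ^ (ℓ - 1)
  have hinj : ∀ d : O, d ≠ 0 → algebraMap O L d ≠ 0 := fun d hd h =>
    hd ((IsFractionRing.injective O L) (by rw [h, map_zero]))
  have hrep : ∀ m₀, algebraMap O L (rep m₀) = algebraMap k L (cc m₀) * m₀ *
      algebraMap O L (den (algebraMap k L (cc m₀) * m₀)) ^ ℓ := by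
    intro m₀
    have h1 := hfrac (algebraMap k L (cc m₀) * m₀)
    have h2 := hinj _ (hden0 (algebraMap k L (cc m₀) * m₀))
    rw [eq_div_iff h2] at h1
    simp only [rep, map_mul, map_pow]
    rw [← h1]
    have h3 : ∀ D : L, D ^ ℓ = D ^ (ℓ - 1) * D := by
      intro D
      rw [← pow_succ, Nat.sub_add_cancel hℓ.pos]
    rw [h3]
    ring
  refine ⟨(M.image rep).filter (fun m => ¬ ∃ z : L, algebraMap O L m = z ^ ℓ), ?_, ?_⟩
  · intro m hm
    exact (Finset.mem_filter.1 hm).2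
  · intro m hm hval hNr
    obtain ⟨r, hr⟩ := hNr
    obtain ⟨m₀, hm₀, c, z, hc, hz, hmeq⟩ := hM m hm hval
    have hm₀0 : m₀ ≠ 0 := by
      rintro rfl
      rw [mul_zero, zero_mul] at hmeq
      exact hm hmeq
    have hNz : Nm z ≠ 0 := fun h => hz (hNm0 z h)
    -- `c` is good for `m₀`
    have hgc : good m₀ c := by
      refine ⟨hc, r / Nm z, ?_⟩
      rw [hmeq, map_mul, map_pow] at hr
      rw [div_pow, ← hr, mul_div_assoc, div_self (pow_ne_zero _ hNz), mul_one]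
    obtain ⟨hc1, r1, hr1⟩ := hcc m₀ ⟨c, hgc⟩
    obtain ⟨_, r2, hr2⟩ := hgc
    -- the ratio of the constants is an `ℓ`-th power
    have hNm₀ : Nm m₀ ≠ 0 := fun h => hm₀0 (hNm0 _ h)
    have hcK : ∀ c : k, c ≠ 0 → algebraMap k K c ≠ 0 := fun c hc h =>
      hc ((algebraMap k K).injective (by rw [h, map_zero]))
    have hratio : (algebraMap k K (c / cc m₀)) ^ n = (r2 / r1) ^ ℓ := by
      rw [map_mul, hNm] at hr1 hr2
      rw [map_div₀, div_pow, div_pow, ← hr1, ← hr2, mul_div_mul_right _ _ hNm₀]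
    obtain ⟨y, hy⟩ := isPow_of_pow_isPow hℓ hn (hcK _ (div_ne_zero hc hc1)) hratio
    obtain ⟨b, hb⟩ := hkK _ _ hy
    have hb0 : b ≠ 0 := by
      rintro rfl
      rw [zero_pow hℓ.ne_zero] at hb
      exact div_ne_zero hc hc1 hb
    have hcb : c = cc m₀ * b ^ ℓ := by
      rw [← hb, mul_div_cancel₀ _ hc1]
    set d := den (algebraMap k L (cc m₀) * m₀) with hd
    have hd0 : algebraMap O L d ≠ 0 := hinj _ (hden0 _)
    have hbL : algebraMap k L b ≠ 0 := fun h =>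
      hb0 ((algebraMap k L).injective (by rw [h, map_zero]))
    have hfinal : m = algebraMap O L (rep m₀) * (algebraMap k L b * z / algebraMap O L d) ^ ℓ := by
      have e1 : algebraMap k L c = algebraMap k L (cc m₀) * algebraMap k L b ^ ℓ := by
        rw [← map_pow, ← map_mul, ← hcb]
      rw [hrep, hmeq, e1, ← hd, div_pow, mul_pow]
      have hdl : (algebraMap O L d) ^ ℓ ≠ 0 := pow_ne_zero _ hd0
      generalize algebraMap k L (cc m₀) = A
      generalize (algebraMap O L d) ^ ℓ = D at hdl ⊢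
      generalize algebraMap k L b ^ ℓ = B
      generalize z ^ ℓ = Z
      rw [mul_assoc (A * m₀) D, mul_div_cancel₀ _ hdl]
      ring
    by_cases hpow : ∃ z : L, algebraMap O L (rep m₀) = z ^ ℓ
    · left
      obtain ⟨w, hw⟩ := hpow
      exact ⟨w * (algebraMap k L b * z / algebraMap O L d), by rw [mul_pow, ← hw]; exact hfinal⟩
    · right
      refine ⟨rep m₀, Finset.mem_filter.2 ⟨Finset.mem_image_of_mem _ hm₀, hpow⟩,
        algebraMap k L b * z / algebraMap O L d, div_ne_zero (mul_ne_zero hbL hz) hd0, hfinal⟩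

end

end Pool.Agent.MP1bdb59C
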