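import Mathlib

/-!
# Rings of functions with poles only at one point: the degree function
-/

open Polynomial

noncomputable section

open scoped Classical

namespace Pool.Agent.MP1bdb59C

/-- The properties of the pole order at a point `∞` of a complete curve over `k`, on the ring `O`
of functions regular outside `∞`. -/
structure DegFun (k O : Type*) [Field k] [CommRing O] [Algebra k O] (deg : O → ℕ) : Prop where
  mul : ∀ x y, x ≠ 0 → y ≠ 0 → deg (x * y) = deg x + deg y
  add : ∀ x y, deg (x + y) ≤ max (deg x) (deg y)
  zero : deg 0 = 0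
  const : ∀ c : k, deg (algebraMap k O c) = 0
  sub : ∀ x y, x ≠ 0 → y ≠ 0 → deg x = deg y →
    ∃ c : k, x = algebraMap k O c * y ∨ deg (x - algebraMap k O c * y) < deg x
  gaps : ∃ N₀, ∀ N, N₀ ≤ N → ∃ x, x ≠ 0 ∧ deg x = N

/-- The relations of a certificate for `E^ℓ = (m)`, where `E = (α, β)`. -/
structure CertRel {R : Type*} [CommRing R] (ℓ : ℕ) (m α β f₁ f₂ u₁ u₂ h₁ h₂ y₁ y₂ : R) : Prop where
  f : f₁ + f₂ = 1
  a : α ^ ℓ = m * u₁
  b : β ^ ℓ = m * u₂
  fa : f₁ ^ ℓ = u₁ * h₁
  fb : f₂ ^ ℓ = u₂ * h₂
  ab : f₁ * β = α * y₁
  ba : f₂ * α = β * y₂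

/-- `m` has a certificate of degree at most `N`. -/
def Cert {O : Type*} [CommRing O] (deg : O → ℕ) (ℓ N : ℕ) (m : O) : Prop :=
  m ≠ 0 ∧ deg m ≤ N ∧ ∃ α β f₁ f₂ u₁ u₂ h₁ h₂ y₁ y₂ : O, α ≠ 0 ∧
    (deg α ≤ N ∧ deg β ≤ N ∧ deg f₁ ≤ N ∧ deg f₂ ≤ N ∧ deg u₁ ≤ N ∧ deg u₂ ≤ N ∧ deg h₁ ≤ N ∧
      deg h₂ ≤ N ∧ deg y₁ ≤ N ∧ deg y₂ ≤ N) ∧ CertRel ℓ m α β f₁ f₂ u₁ u₂ h₁ h₂ y₁ y₂

namespace DegFun

variable {k O : Type*} [Field k] [CommRing O] [Algebra k O] {deg : O → ℕ} (h : DegFun k O deg)

include h in
lemma smul_le (c : k) (x : O) : deg (c • x) ≤ deg x := by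
  rw [Algebra.smul_def]
  by_cases hx : x = 0
  · rw [hx, mul_zero]
  by_cases hc : algebraMap k O c = 0
  · rw [hc, zero_mul, h.zero]
    exact Nat.zero_le _
  · rw [h.mul _ _ hc hx, h.const, zero_add]

/-- The space of elements of degree at most `N`. -/
def B (N : ℕ) : Submodule k O where
  carrier := {x | deg x ≤ N}
  zero_mem' := by
    change deg 0 ≤ N
    rw [h.zero]
    exact Nat.zero_le _
  add_mem' := fun {x y} hx hy => (h.add x y).trans (max_le hx hy)
  smul_mem' := fun c x hx => (h.smul_le c x).trans hx

lemma mem_B {N : ℕ} {x : O} : x ∈ h.B N ↔ deg x ≤ N := Iff.rfl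

lemma B_mono {N N' : ℕ} (hN : N ≤ N') : h.B N ≤ h.B N' := fun _ hx => le_trans hx hN

lemma finite_B [Nontrivial O] (N : ℕ) : Module.Finite k (h.B N) := by
  have key : ∀ N, (h.B N).FG := by
    intro N
    induction N with
    | zero =>
      have h1 : h.B 0 = Submodule.span k {1} := by
        apply le_antisymm
        · intro x hx
          have hx' : deg x ≤ 0 := hx
          by_cases hx0 : x = 0
          · rw [hx0]
            exact Submodule.zero_mem _
          have hd1 : deg (1 : O) = 0 := by
            have := h.const 1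
            rwa [map_one] at this
          obtain ⟨c, hc⟩ := h.sub x 1 hx0 one_ne_zero (by omega)
          rw [Submodule.mem_span_singleton]
          rcases hc with hc | hc
          · exact ⟨c, by rw [Algebra.smul_def, hc]⟩
          · omega
        · rw [Submodule.span_le, Set.singleton_subset_iff]
          change deg 1 ≤ 0
          have := h.const 1
          rw [map_one] at this
          omega
      rw [h1]
      exact Submodule.fg_span_singleton 1
    | succ N ih =>
      by_cases hy : ∃ y, y ≠ 0 ∧ deg y = N + 1
      · obtain ⟨y, hy0, hy⟩ := hy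
        have h1 : h.B (N + 1) = h.B N ⊔ Submodule.span k {y} := by
          apply le_antisymm
          · intro x hx
            have hx' : deg x ≤ N + 1 := hx
            by_cases hxN : deg x ≤ N
            · exact Submodule.mem_sup_left hxN
            have hx0 : x ≠ 0 := by
              rintro rfl
              rw [h.zero] at hxN
              omega
            obtain ⟨c, hc⟩ := h.sub x y hx0 hy0 (by omega)
            rw [Submodule.mem_sup]
            refine ⟨x - algebraMap k O c * y, ?_, algebraMap k O c * y, ?_, by ring⟩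
            · rcases hc with hc | hc
              · rw [← hc, sub_self]
                exact Submodule.zero_mem _
              · change deg _ ≤ N
                omega
            · rw [← Algebra.smul_def]
              exact Submodule.smul_mem _ c (Submodule.mem_span_singleton_self y)
          · apply sup_le (h.B_mono (Nat.le_succ N))
            rw [Submodule.span_le, Set.singleton_subset_iff]
            exact hy.le
        rw [h1]
        exact ih.sup (Submodule.fg_span_singleton y)
      · have h1 : h.B (N + 1) = h.B N := by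
          apply le_antisymm
          · intro x hx
            have hx' : deg x ≤ N + 1 := hx
            by_contra hxN
            have hxN' : ¬ deg x ≤ N := hxN
            apply hy
            refine ⟨x, ?_, by omega⟩
            rintro rfl
            rw [h.zero] at hxN'
            omega
          · exact h.B_mono (Nat.le_succ N)
        rw [h1]
        exact ih
  exact Module.Finite.iff_fg.mpr (key N)

end DegFun

end Pool.Agent.MP1bdb59C
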