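import Mathlib
import Pool.Agent.MP1bdb59C.DegDef

/-!
# Rings of functions with poles only at one point: quotients, points, the Dedekind property
-/

open Polynomial

noncomputable section

open scoped Classical

namespace Pool.Agent.MP1bdb59C

namespace DegFun

variable {k O : Type*} [Field k] [CommRing O] [IsDomain O] [Algebra k O] {deg : O → ℕ}

lemma deg_one (h : DegFun k O deg) : deg (1 : O) = 0 := by
  have := h.const 1
  rwa [map_one] at this

/-- one more element in each large degree -/
lemma finrank_B_succ (h : DegFun k O deg) {N : ℕ} (hN : ∃ y : O, y ≠ 0 ∧ deg y = N + 1) :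
    Module.finrank k (h.B (N + 1)) = Module.finrank k (h.B N) + 1 := by
  obtain ⟨y, hy0, hy⟩ := hN
  have h1 : h.B (N + 1) = h.B N ⊔ Submodule.span k {y} := by
    apply le_antisymm
    · intro x hx
      have hx' : deg x ≤ N + 1 := hx
      by_cases hxN : deg x ≤ N
      · exact Submodule.mem_sup_left hxN
      have hx0 : x ≠ 0 := by
        rintro rfl
        rw [h.zero] at hxN
        omega
      obtain ⟨c, hc⟩ := h.sub x y hx0 hy0 (by omega)
      rw [Submodule.mem_sup]
      refine ⟨x - algebraMap k O c * y, ?_, algebraMap k O c * y, ?_, by ring⟩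
      · rcases hc with hc | hc
        · rw [← hc, sub_self]
          exact Submodule.zero_mem _
        · change deg _ ≤ N
          omega
      · rw [← Algebra.smul_def]
        exact Submodule.smul_mem _ c (Submodule.mem_span_singleton_self y)
    · apply sup_le (h.B_mono (Nat.le_succ N))
      rw [Submodule.span_le, Set.singleton_subset_iff]
      exact hy.le
  have hd : h.B N ⊓ Submodule.span k {y} = ⊥ := by
    rw [eq_bot_iff]
    intro z hz
    obtain ⟨hz1, hz2⟩ := Submodule.mem_inf.1 hz
    obtain ⟨c, rfl⟩ := Submodule.mem_span_singleton.1 hz2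
    rw [Submodule.mem_bot]
    by_contra hne
    have hc : c ≠ 0 := by
      rintro rfl
      exact hne (zero_smul _ _)
    have hy' : y ∈ h.B N := by
      have := Submodule.smul_mem (h.B N) c⁻¹ hz1
      rwa [smul_smul, inv_mul_cancel₀ hc, one_smul] at this
    rw [h.mem_B] at hy'
    omega
  have := h.finite_B N
  have h2 := Submodule.finrank_sup_add_finrank_inf_eq (h.B N) (Submodule.span k {y})
  rw [hd, finrank_bot, ← h1, add_zero, finrank_span_singleton hy0] at h2
  exact h2

lemma finrank_B_add (h : DegFun k O deg) {N₀ : ℕ} (hN₀ : ∀ N, N₀ ≤ N → ∃ x : O, x ≠ 0 ∧ deg x = N)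
    (i : ℕ) : Module.finrank k (h.B (N₀ + i)) = Module.finrank k (h.B N₀) + i := by
  induction i with
  | zero => rfl
  | succ i ih =>
    rw [← add_assoc, h.finrank_B_succ (hN₀ _ (by omega)), ih, add_assoc]

/-- every element is congruent modulo `x` to one of bounded degree -/
lemma exists_sub_mem (h : DegFun k O deg) {N₀ : ℕ}
    (hN₀ : ∀ N, N₀ ≤ N → ∃ x : O, x ≠ 0 ∧ deg x = N) {x : O} (hx : x ≠ 0) (y : O) :
    ∃ z, deg (y - x * z) ≤ deg x + N₀ := by
  induction hn : deg y using Nat.strong_induction_on generalizing y with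
  | _ n ih =>
    subst hn
    by_cases hy : deg y ≤ deg x + N₀
    · exact ⟨0, by rwa [mul_zero, sub_zero]⟩
    have hy0 : y ≠ 0 := by
      rintro rfl
      rw [h.zero] at hy
      omega
    obtain ⟨w, hw0, hw⟩ := hN₀ (deg y - deg x) (by omega)
    obtain ⟨c, hc⟩ := h.sub y (x * w) hy0 (mul_ne_zero hx hw0) (by rw [h.mul _ _ hx hw0, hw]; omega)
    rcases hc with hc | hc
    · refine ⟨algebraMap k O c * w, ?_⟩
      have : y - x * (algebraMap k O c * w) = 0 := by
        rw [sub_eq_zero]
        calc y = algebraMap k O c * (x * w) := hc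
          _ = _ := by ring
      rw [this, h.zero]
      exact Nat.zero_le _
    · obtain ⟨z, hz⟩ := ih _ hc (y - algebraMap k O c * (x * w)) rfl
      refine ⟨algebraMap k O c * w + z, ?_⟩
      have : y - x * (algebraMap k O c * w + z) = y - algebraMap k O c * (x * w) - x * z := by ring
      rw [this]
      exact hz

/-- M2 (DegBasic.lean). -/
theorem finrank_quotient (h : DegFun k O deg) (x : O) (hx : x ≠ 0) :
    Module.Finite k (O ⧸ Ideal.span {x}) ∧ Module.finrank k (O ⧸ Ideal.span {x}) = deg x := by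
  obtain ⟨N₀, hN₀⟩ := h.gaps
  set I : Ideal O := Ideal.span {x} with hI
  let φ : h.B (N₀ + deg x) →ₗ[k] O ⧸ I :=
    (Ideal.Quotient.mkₐ k I).toLinearMap.comp (h.B (N₀ + deg x)).subtype
  have hφ : ∀ y, φ y = Ideal.Quotient.mk I y.1 := fun y => rfl
  have hsurj : Function.Surjective φ := by
    intro q
    obtain ⟨y, rfl⟩ := Ideal.Quotient.mk_surjective q
    obtain ⟨z, hz⟩ := h.exists_sub_mem hN₀ hx y
    refine ⟨⟨y - x * z, by rw [h.mem_B]; omega⟩, ?_⟩
    rw [hφ, Ideal.Quotient.eq]
    have : y - x * z - y = x * (-z) := by ring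
    rw [this, hI]
    exact Ideal.mul_mem_right _ _ (Ideal.mem_span_singleton_self x)
  have := h.finite_B (N₀ + deg x)
  have := h.finite_B N₀
  have hfin : Module.Finite k (O ⧸ I) := Module.Finite.of_surjective φ hsurj
  refine ⟨hfin, ?_⟩
  let ψ : h.B N₀ →ₗ[k] h.B (N₀ + deg x) :=
    { toFun := fun z => ⟨x * z.1, by
        rw [h.mem_B]
        by_cases hz : z.1 = 0
        · rw [hz, mul_zero, h.zero]; exact Nat.zero_le _
        · rw [h.mul _ _ hx hz]
          have := z.2
          rw [h.mem_B] at this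
          omega⟩
      map_add' := fun a b => Subtype.ext (by simp [mul_add])
      map_smul' := fun c a => Subtype.ext (by simp) }
  have hψ : ∀ z, (ψ z).1 = x * z.1 := fun z => rfl
  have hψinj : Function.Injective ψ := by
    intro a b hab
    have : x * a.1 = x * b.1 := by rw [← hψ, ← hψ, hab]
    exact Subtype.ext (mul_left_cancel₀ hx this)
  have hker : LinearMap.ker φ = LinearMap.range ψ := by
    ext y
    rw [LinearMap.mem_ker, LinearMap.mem_range, hφ, Ideal.Quotient.eq_zero_iff_mem, hI,
      Ideal.mem_span_singleton]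
    constructor
    · rintro ⟨z, hz⟩
      have hzB : z ∈ h.B N₀ := by
        rw [h.mem_B]
        by_cases hz0 : z = 0
        · rw [hz0, h.zero]; exact Nat.zero_le _
        · have h1 := y.2
          rw [h.mem_B, hz, h.mul _ _ hx hz0] at h1
          omega
      exact ⟨⟨z, hzB⟩, Subtype.ext (by rw [hψ, hz])⟩
    · rintro ⟨z, rfl⟩
      exact ⟨z.1, hψ z⟩
  have h1 := LinearMap.finrank_range_add_finrank_ker φ
  rw [LinearMap.range_eq_top.2 hsurj, finrank_top, hker, LinearMap.finrank_range_of_inj hψinj,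
    h.finrank_B_add hN₀] at h1
  omega

lemma deg_eq_zero_of_isUnit (h : DegFun k O deg) {x : O} (hx : IsUnit x) : deg x = 0 := by
  obtain ⟨y, hy⟩ := hx.exists_right_inv
  have hx0 : x ≠ 0 := hx.ne_zero
  have hy0 : y ≠ 0 := by
    rintro rfl
    rw [mul_zero] at hy
    exact zero_ne_one hy
  have := h.mul x y hx0 hy0
  rw [hy, h.deg_one] at this
  omega

/-- a nonunit vanishes at a point -/
lemma exists_point_of_not_isUnit (h : DegFun k O deg) [IsAlgClosed k] {x : O} (hx : x ≠ 0)
    (hu : ¬ IsUnit x) : ∃ φ : O →ₐ[k] k, φ x = 0 := by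
  obtain ⟨P, hP, hxP⟩ := exists_max_ideal_of_mem_nonunits hu
  have hfin := (h.finrank_quotient x hx).1
  have hle : Ideal.span {x} ≤ P := (Ideal.span_singleton_le_iff_mem P).2 hxP
  have hfinP : Module.Finite k (O ⧸ P) :=
    Module.Finite.of_surjective (Ideal.Quotient.factorₐ k hle).toLinearMap
      (Ideal.Quotient.factor_surjective hle)
  let _ : Field (O ⧸ P) := Ideal.Quotient.field P
  have hbij : Function.Bijective (algebraMap k (O ⧸ P)) :=
    IsAlgClosed.algebraMap_bijective_of_isIntegral
  let e : k ≃ₐ[k] (O ⧸ P) := AlgEquiv.ofBijective (Algebra.ofId k (O ⧸ P)) hbij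
  refine ⟨(e.symm : (O ⧸ P) →ₐ[k] k).comp (Ideal.Quotient.mkₐ k P), ?_⟩
  have h1 : Ideal.Quotient.mk P x = 0 := Ideal.Quotient.eq_zero_iff_mem.2 hxP
  change e.symm (Ideal.Quotient.mk P x) = 0
  rw [h1, map_zero]

theorem exists_points (h : DegFun k O deg) [IsAlgClosed k] :
    ∃ φ : ℕ → (O →ₐ[k] k), Function.Injective φ := by
  obtain ⟨N₀, hN₀⟩ := h.gaps
  obtain ⟨t, ht0, ht⟩ := hN₀ (N₀ + 1) (by omega)
  have key : ∀ c : k, ∃ φ : O →ₐ[k] k, φ t = c := by
    intro c
    have hd : deg (t - algebraMap k O c) ≠ 0 := by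
      intro h0
      have h1 := h.add (t - algebraMap k O c) (algebraMap k O c)
      rw [sub_add_cancel, h0, h.const] at h1
      omega
    have hne : t - algebraMap k O c ≠ 0 := by
      intro h0
      rw [h0, h.zero] at hd
      exact hd rfl
    obtain ⟨φ, hφ⟩ := h.exists_point_of_not_isUnit hne fun hu => hd (h.deg_eq_zero_of_isUnit hu)
    refine ⟨φ, ?_⟩
    rw [map_sub, AlgHom.commutes, sub_eq_zero] at hφ
    exact hφ
  choose Φ hΦ using key
  have hinf : Infinite k := IsAlgClosed.instInfinite
  refine ⟨fun n => Φ (Infinite.natEmbedding k n), fun a b hab => ?_⟩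
  apply (Infinite.natEmbedding k).injective
  rw [← hΦ (Infinite.natEmbedding k a), ← hΦ (Infinite.natEmbedding k b)]
  exact congrArg (fun φ : O →ₐ[k] k => φ t) hab

theorem card_zeros (h : DegFun k O deg) (x : O) (hx : x ≠ 0) (s : Finset (O →ₐ[k] k))
    (hs : ∀ φ ∈ s, φ x = 0) : s.card ≤ deg x := by
  obtain ⟨hfin, hrank⟩ := h.finrank_quotient x hx
  set I : Ideal O := Ideal.span {x} with hI
  have hle : ∀ φ ∈ s, ∀ a ∈ I, φ a = 0 := by
    intro φ hφ a ha
    rw [hI, Ideal.mem_span_singleton] at ha
    obtain ⟨b, rfl⟩ := ha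
    rw [map_mul, hs φ hφ, zero_mul]
  let v : s → (O ⧸ I →ₗ[k] k) := fun φ =>
    (Ideal.Quotient.liftₐ I φ.1 (hle φ.1 φ.2)).toLinearMap
  have hv : ∀ (φ : s) (a : O), v φ (Ideal.Quotient.mk I a) = φ.1 a := fun φ a => rfl
  have hlin : LinearIndependent k v := by
    let T : (O ⧸ I →ₗ[k] k) →ₗ[k] (O → k) :=
      { toFun := fun f a => f (Ideal.Quotient.mk I a)
        map_add' := fun _ _ => rfl
        map_smul' := fun _ _ => rfl }
    apply LinearIndependent.of_comp T
    have h1 : LinearIndependent k (fun f : O →* k => (f : O → k)) :=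
      linearIndependent_monoidHom O k
    have h2 : T ∘ v = (fun f : O →* k => (f : O → k)) ∘ (fun φ : s => (φ.1 : O →* k)) := by
      funext φ a
      rfl
    rw [h2]
    refine h1.comp _ ?_
    intro a b hab
    apply Subtype.ext
    ext y
    exact DFunLike.congr_fun hab y
  have h3 := hlin.fintype_card_le_finrank
  rw [Fintype.card_coe] at h3
  rw [← hrank]
  refine h3.trans (le_of_eq ?_)
  exact Subspace.dual_finrank_eq

theorem isDedekindDomain (h : DegFun k O deg) [IsIntegrallyClosed O] : IsDedekindDomain O := by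
  have hnoeth : IsNoetherianRing O := by
    constructor
    intro I
    by_cases hI : I = ⊥
    · rw [hI]
      exact Submodule.fg_bot
    obtain ⟨x, hxI, hx⟩ := Submodule.exists_mem_ne_zero_of_ne_bot hI
    have hfin := (h.finrank_quotient x hx).1
    have hN : IsNoetherian O (O ⧸ Ideal.span {x}) := isNoetherian_of_tower k inferInstance
    refine Submodule.fg_of_fg_map_of_fg_inf_ker (Submodule.mkQ (Ideal.span {x})) ?_ ?_
    · exact hN.noetherian _
    · rw [Submodule.ker_mkQ]
      have : I ⊓ Ideal.span {x} = Ideal.span {x} :=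
        inf_eq_right.2 ((Ideal.span_singleton_le_iff_mem I).2 hxI)
      rw [this]
      exact ⟨{x}, by simp [Ideal.span]⟩
  have hdim : Ring.DimensionLEOne O := by
    refine ⟨fun {P} hP hprime => ?_⟩
    obtain ⟨x, hxP, hx⟩ := Submodule.exists_mem_ne_zero_of_ne_bot hP
    have hfin := (h.finrank_quotient x hx).1
    have hle : Ideal.span {x} ≤ P := (Ideal.span_singleton_le_iff_mem P).2 hxP
    have hfinP : Module.Finite k (O ⧸ P) :=
      Module.Finite.of_surjective (Ideal.Quotient.factorₐ k hle).toLinearMap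
        (Ideal.Quotient.factor_surjective hle)
    have : IsDomain (O ⧸ P) := Ideal.Quotient.isDomain P
    exact Ideal.Quotient.maximal_of_isField P
      (isField_of_isIntegral_of_isField' (R := k) (Field.toIsField k))
  exact { }

end DegFun

end Pool.Agent.MP1bdb59C
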