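import Mathlib
import Pool.Agent.MP1bdb59C.DegDef
import Pool.Agent.MP1bdb59C.DegBasic

/-!
# Bounded representatives and certificates
-/

open Polynomial

noncomputable section

open scoped Classical

namespace Pool.Agent.MP1bdb59C

namespace DegFun

section

variable {k O : Type*} [Field k] [CommRing O] [IsDomain O] [Algebra k O] {deg : O → ℕ}

lemma le_deg_mul (h : DegFun k O deg) {x : O} (hx : x ≠ 0) (y : O) : deg y ≤ deg (x * y) := by
  by_cases hy : y = 0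
  · rw [hy, h.zero]
    exact Nat.zero_le _
  · rw [h.mul _ _ hx hy]
    omega

lemma deg_mul_le (h : DegFun k O deg) (x y : O) : deg (x * y) ≤ deg x + deg y := by
  by_cases hx : x = 0
  · rw [hx, zero_mul, h.zero]
    exact Nat.zero_le _
  by_cases hy : y = 0
  · rw [hy, mul_zero, h.zero]
    exact Nat.zero_le _
  · rw [h.mul _ _ hx hy]

lemma deg_pow_le (h : DegFun k O deg) (x : O) (n : ℕ) : deg (x ^ n) ≤ n * deg x := by
  induction n with
  | zero => rw [pow_zero, h.deg_one]; exact Nat.zero_le _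
  | succ n ih =>
    rw [pow_succ]
    refine (h.deg_mul_le _ _).trans ?_
    rw [Nat.succ_mul]
    omega

lemma finite_quot (h : DegFun k O deg) {I : Ideal O} (hI : I ≠ ⊥) : Module.Finite k (O ⧸ I) := by
  obtain ⟨x, hxI, hx⟩ := Submodule.exists_mem_ne_zero_of_ne_bot hI
  have hfin := (h.finrank_quotient x hx).1
  have hle : Ideal.span {x} ≤ I := (Ideal.span_singleton_le_iff_mem I).2 hxI
  exact Module.Finite.of_surjective (Ideal.Quotient.factorₐ k hle).toLinearMap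
    (Ideal.Quotient.factor_surjective hle)

/-- small elements of an ideal -/
lemma exists_small (h : DegFun k O deg) {N₀ : ℕ}
    (hN₀ : ∀ N, N₀ ≤ N → ∃ x : O, x ≠ 0 ∧ deg x = N) {I : Ideal O} (hI : I ≠ ⊥) :
    ∃ x ∈ I, x ≠ 0 ∧ deg x ≤ Module.finrank k (O ⧸ I) + N₀ := by
  set d := Module.finrank k (O ⧸ I) with hd
  have hfin := h.finite_quot hI
  have hfB := h.finite_B (N₀ + d)
  have hfB0 := h.finite_B N₀
  let φ : h.B (N₀ + d) →ₗ[k] O ⧸ I :=
    (Ideal.Quotient.mkₐ k I).toLinearMap.comp (h.B (N₀ + d)).subtype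
  have hφ : ∀ y, φ y = Ideal.Quotient.mk I y.1 := fun y => rfl
  have h1 : 1 ≤ Module.finrank k (h.B N₀) := by
    have hnt : Nontrivial (h.B N₀) := by
      refine ⟨⟨⟨1, ?_⟩, 0, ?_⟩⟩
      · rw [h.mem_B, h.deg_one]
        exact Nat.zero_le _
      · intro h0
        have := congrArg Subtype.val h0
        exact one_ne_zero (α := O) this
    exact Module.finrank_pos
  have hlt : Module.finrank k (O ⧸ I) < Module.finrank k (h.B (N₀ + d)) := by
    rw [h.finrank_B_add hN₀]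
    omega
  obtain ⟨x, hx, hx0⟩ := Submodule.exists_mem_ne_zero_of_ne_bot
    (LinearMap.ker_ne_bot_of_finrank_lt (f := φ) hlt)
  rw [LinearMap.mem_ker, hφ, Ideal.Quotient.eq_zero_iff_mem] at hx
  refine ⟨x.1, hx, fun h0 => hx0 (Subtype.ext h0), ?_⟩
  have := x.2
  rw [h.mem_B] at this
  omega

/-- bounded representatives modulo an ideal -/
lemma exists_sub_mem_ideal (h : DegFun k O deg) {N₀ : ℕ}
    (hN₀ : ∀ N, N₀ ≤ N → ∃ x : O, x ≠ 0 ∧ deg x = N) {I : Ideal O} (hI : I ≠ ⊥) (y : O) :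
    ∃ z ∈ I, deg (y - z) ≤ Module.finrank k (O ⧸ I) + 2 * N₀ := by
  obtain ⟨x, hxI, hx, hdx⟩ := h.exists_small hN₀ hI
  obtain ⟨z, hz⟩ := h.exists_sub_mem hN₀ hx y
  exact ⟨x * z, I.mul_mem_right _ hxI, by omega⟩

end

variable {k O : Type*} [Field k] [CommRing O] [IsDedekindDomain O] [Algebra k O] {deg : O → ℕ}

/-- the coprime-cofactor generator -/
lemma exists_cofactor {I J : Ideal O} (hI : I ≠ ⊥) (hJ : J ≠ ⊥) :
    ∃ a ∈ I, I * J ⊔ Ideal.span {a} = I := by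
  obtain ⟨a, ha⟩ := IsDedekindDomain.exists_sup_span_eq (I := I * J) (J := I) Ideal.mul_le_left
    (mul_ne_zero hI hJ)
  refine ⟨a, ?_, ha⟩
  have : a ∈ I * J ⊔ Ideal.span {a} := Submodule.mem_sup_right (Ideal.mem_span_singleton_self a)
  rwa [ha] at this

lemma sup_of_cofactor {I J A : Ideal O} (hI : I ≠ ⊥) {a : O} (ha : I * J ⊔ Ideal.span {a} = I)
    (hA : Ideal.span {a} = I * A) : J ⊔ A = ⊤ := by
  rw [hA, ← Ideal.mul_sup] at ha
  have h1 : I * (J ⊔ A) = I * ⊤ := by rw [ha, Ideal.mul_top]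
  exact mul_left_cancel₀ (show I ≠ 0 from hI) h1

/-- additivity of the degree of ideals -/
lemma finrank_mul (h : DegFun k O deg) {I J : Ideal O} (hI : I ≠ ⊥) (hJ : J ≠ ⊥) :
    Module.finrank k (O ⧸ I * J) = Module.finrank k (O ⧸ I) + Module.finrank k (O ⧸ J) := by
  have hIJ : I * J ≠ ⊥ := mul_ne_zero hI hJ
  have hf1 := h.finite_quot hI
  have hf2 := h.finite_quot hJ
  have hf3 := h.finite_quot hIJ
  obtain ⟨a, haI, ha⟩ := exists_cofactor hI hJ
  obtain ⟨A, hA⟩ := Ideal.dvd_span_singleton.2 haI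
  have hcop := sup_of_cofactor hI ha hA
  have key : ∀ r : O, r * a ∈ I * J ↔ r ∈ J := by
    intro r
    constructor
    · intro hr
      rw [← Ideal.dvd_span_singleton, ← Ideal.span_singleton_mul_span_singleton, hA,
        mul_left_comm] at hr
      have h1 : J ∣ Ideal.span {r} * A :=
        (mul_dvd_mul_iff_left (show I ≠ 0 from hI)).1 hr
      have h2 : J ∣ Ideal.span {r} :=
        IsCoprime.dvd_of_dvd_mul_right (Ideal.isCoprime_iff_sup_eq.2 hcop) h1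
      exact Ideal.dvd_span_singleton.1 h2
    · intro hr
      rw [mul_comm r a]
      exact Ideal.mul_mem_mul haI hr
  let G : (O ⧸ J) →ₗ[O] (O ⧸ I * J) :=
    Submodule.liftQ J (LinearMap.toSpanSingleton O (O ⧸ I * J) (Ideal.Quotient.mk (I * J) a)) (by
      intro r hr
      rw [LinearMap.mem_ker, LinearMap.toSpanSingleton_apply, Algebra.smul_def]
      exact Ideal.Quotient.eq_zero_iff_mem.2 ((key r).2 hr))
  have hG : ∀ r : O, G (Ideal.Quotient.mk J r) = Ideal.Quotient.mk (I * J) (r * a) := fun r => rfl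
  have hGinj : Function.Injective (G.restrictScalars k) := by
    rw [← LinearMap.ker_eq_bot, eq_bot_iff]
    intro x hx
    obtain ⟨r, rfl⟩ := Ideal.Quotient.mk_surjective x
    rw [LinearMap.mem_ker] at hx
    have hx' : Ideal.Quotient.mk (I * J) (r * a) = 0 := hx
    rw [Ideal.Quotient.eq_zero_iff_mem, key] at hx'
    rw [Submodule.mem_bot]
    exact Ideal.Quotient.eq_zero_iff_mem.2 hx'
  let π : (O ⧸ I * J) →ₗ[k] (O ⧸ I) := (Ideal.Quotient.factorₐ k Ideal.mul_le_left).toLinearMap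
  have hπ : ∀ b : O, π (Ideal.Quotient.mk (I * J) b) = Ideal.Quotient.mk I b := fun b => rfl
  have hπsurj : Function.Surjective π := Ideal.Quotient.factor_surjective Ideal.mul_le_left
  have hker : LinearMap.ker π = LinearMap.range (G.restrictScalars k) := by
    ext x
    obtain ⟨b, rfl⟩ := Ideal.Quotient.mk_surjective x
    rw [LinearMap.mem_ker, hπ, Ideal.Quotient.eq_zero_iff_mem, LinearMap.mem_range]
    constructor
    · intro hb
      rw [← ha, Submodule.mem_sup] at hb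
      obtain ⟨c, hc, e, he, rfl⟩ := hb
      obtain ⟨r, rfl⟩ := Ideal.mem_span_singleton'.1 he
      refine ⟨Ideal.Quotient.mk J r, ?_⟩
      change Ideal.Quotient.mk (I * J) (r * a) = _
      rw [map_add, Ideal.Quotient.eq_zero_iff_mem.2 hc, zero_add]
    · rintro ⟨y, hy⟩
      obtain ⟨r, rfl⟩ := Ideal.Quotient.mk_surjective y
      have hy' : Ideal.Quotient.mk (I * J) (r * a) = Ideal.Quotient.mk (I * J) b := hy
      rw [Ideal.Quotient.eq] at hy'
      have h1 : r * a ∈ I := I.mul_mem_left _ haI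
      have h2 : r * a - b ∈ I := Ideal.mul_le_left hy'
      have : b = r * a - (r * a - b) := by ring
      rw [this]
      exact I.sub_mem h1 h2
  have h1 := LinearMap.finrank_range_add_finrank_ker π
  rw [LinearMap.range_eq_top.2 hπsurj, finrank_top, hker,
    LinearMap.finrank_range_of_inj hGinj] at h1
  exact h1.symm

/-- a certificate for `m` when `(m) = E ^ ℓ` with `E` of bounded degree -/
lemma cert_of_small (h : DegFun k O deg) {N₀ : ℕ}
    (hN₀ : ∀ N, N₀ ≤ N → ∃ x : O, x ≠ 0 ∧ deg x = N) {ℓ : ℕ} (hℓ : ℓ ≠ 0) {m : O} (hm : m ≠ 0)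
    {E : Ideal O} (hE : Ideal.span {m} = E ^ ℓ) (hd : Module.finrank k (O ⧸ E) ≤ N₀)
    (hdm : deg m ≤ ℓ * N₀) : Cert deg ℓ ((ℓ + 1) * (12 * N₀)) m := by
  have hE0 : E ≠ ⊥ := by
    rintro rfl
    rw [← Ideal.zero_eq_bot, zero_pow hℓ, Ideal.zero_eq_bot, Ideal.span_singleton_eq_bot] at hE
    exact hm hE
  -- the bound
  have hbd : ∀ c : ℕ, c ≤ 12 * N₀ → c ≤ (ℓ + 1) * (12 * N₀) := fun c hc =>
    hc.trans (Nat.le_mul_of_pos_left _ (Nat.succ_pos _))
  have hbd2 : ∀ c : ℕ, c ≤ ℓ * (12 * N₀) → c ≤ (ℓ + 1) * (12 * N₀) := fun c hc =>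
    hc.trans (Nat.mul_le_mul_right _ (Nat.le_succ _))
  obtain ⟨α, hαE, hα, hdα⟩ := h.exists_small hN₀ hE0
  obtain ⟨J₁, hJ₁⟩ := Ideal.dvd_span_singleton.2 hαE
  have hJ₁0 : J₁ ≠ ⊥ := by
    rintro rfl
    rw [Ideal.mul_bot, Ideal.span_singleton_eq_bot] at hJ₁
    exact hα hJ₁
  have hdiv : ∀ (x : O) (J : Ideal O), Ideal.span {x} = E * J →
      ∃ u, x ^ ℓ = m * u ∧ Ideal.span {u} = J ^ ℓ := by
    intro x J hx
    have h1 : Ideal.span {x ^ ℓ} = Ideal.span {m} * J ^ ℓ := by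
      rw [← Ideal.span_singleton_pow, hx, mul_pow, hE]
    have h2 : x ^ ℓ ∈ Ideal.span {m} := by
      have : x ^ ℓ ∈ Ideal.span {x ^ ℓ} := Ideal.mem_span_singleton_self _
      rw [h1] at this
      exact Ideal.mul_le_left this
    obtain ⟨u, hu⟩ := Ideal.mem_span_singleton.1 h2
    refine ⟨u, hu, ?_⟩
    rw [hu, ← Ideal.span_singleton_mul_span_singleton] at h1
    exact mul_left_cancel₀ (show Ideal.span {m} ≠ 0 from by
      rw [Ideal.zero_eq_bot, Ne, Ideal.span_singleton_eq_bot]; exact hm) h1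
  obtain ⟨u₁, hu₁, hu₁J⟩ := hdiv α J₁ hJ₁
  have hdu₁ : deg u₁ ≤ ℓ * (2 * N₀) := by
    have h1 := h.le_deg_mul hm u₁
    rw [← hu₁] at h1
    refine h1.trans ((h.deg_pow_le α ℓ).trans (Nat.mul_le_mul_left _ ?_))
    omega
  have hdα' : deg α ≤ 2 * N₀ := by omega
  have hdm' : deg m ≤ ℓ * (12 * N₀) := hdm.trans (Nat.mul_le_mul_left _ (by omega))
  refine ⟨hm, hbd2 _ hdm', ?_⟩
  by_cases hJ₁top : J₁ = ⊤
  · -- `E` is principal
    have hu : IsUnit u₁ := by
      rw [hJ₁top, Ideal.top_pow] at hu₁J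
      exact Ideal.span_singleton_eq_top.1 hu₁J
    obtain ⟨h₁, hh₁⟩ := hu.exists_right_inv
    have hdh₁ : deg h₁ = 0 := h.deg_eq_zero_of_isUnit (IsUnit.of_mul_eq_one u₁ (by rw [mul_comm]; exact hh₁))
    refine ⟨α, α, 1, 0, u₁, u₁, h₁, 0, 1, 0, hα, ?_, ?_⟩
    · rw [h.deg_one, h.zero, hdh₁]
      exact ⟨hbd _ (by omega), hbd _ (by omega), Nat.zero_le _, Nat.zero_le _,
        hbd2 _ (hdu₁.trans (Nat.mul_le_mul_left _ (by omega))),
        hbd2 _ (hdu₁.trans (Nat.mul_le_mul_left _ (by omega))), Nat.zero_le _, Nat.zero_le _,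
        Nat.zero_le _, Nat.zero_le _⟩
    · exact ⟨by ring, hu₁, hu₁, by rw [one_pow, hh₁], by rw [zero_pow hℓ, mul_zero],
        by ring, by ring⟩
  · -- the second generator
    obtain ⟨e, heE, he⟩ := exists_cofactor hE0 hJ₁0
    have hEJ : E * J₁ ≠ ⊥ := mul_ne_zero hE0 hJ₁0
    obtain ⟨z, hz, hdz⟩ := h.exists_sub_mem_ideal hN₀ hEJ e
    have hdEJ : Module.finrank k (O ⧸ E * J₁) = deg α := by
      rw [← hJ₁]
      exact (h.finrank_quotient α hα).2
    rw [hdEJ] at hdz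
    set β := e - z with hβ
    have hβE : β ∈ E := E.sub_mem heE (Ideal.mul_le_left hz)
    have hβ' : E * J₁ ⊔ Ideal.span {β} = E := by
      apply le_antisymm
      · exact sup_le Ideal.mul_le_left ((Ideal.span_singleton_le_iff_mem _).2 hβE)
      · rw [← he]
        refine sup_le (by rw [he]; exact le_sup_left) ?_
        rw [Ideal.span_singleton_le_iff_mem, he]
        have h1 : e = z + β := by rw [hβ]; ring
        rw [h1]
        exact Submodule.add_mem_sup hz (Ideal.mem_span_singleton_self β)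
    obtain ⟨J₂, hJ₂⟩ := Ideal.dvd_span_singleton.2 hβE
    have hcop := sup_of_cofactor hE0 hβ' hJ₂
    have hJ₂0 : J₂ ≠ ⊥ := by
      rintro rfl
      rw [sup_bot_eq] at hcop
      exact hJ₁top hcop
    have hβ0 : β ≠ 0 := by
      intro h0
      rw [h0, Ideal.span_singleton_zero] at hJ₂
      exact mul_ne_zero (show E ≠ 0 from hE0) (show J₂ ≠ 0 from hJ₂0) hJ₂.symm
    obtain ⟨u₂, hu₂, hu₂J⟩ := hdiv β J₂ hJ₂
    have hdβ : deg β ≤ 4 * N₀ := by omega
    have hdJ₁ : Module.finrank k (O ⧸ J₁) ≤ 2 * N₀ := by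
      have := h.finrank_mul hE0 hJ₁0
      omega
    have hdJ₂ : Module.finrank k (O ⧸ J₂) ≤ 4 * N₀ := by
      have h1 := h.finrank_mul hE0 hJ₂0
      rw [← hJ₂, (h.finrank_quotient β hβ0).2] at h1
      omega
    obtain ⟨j₁, hj₁, j₂, hj₂, hj⟩ := Submodule.mem_sup.1 (show (1 : O) ∈ J₁ ⊔ J₂ by
      rw [hcop]; exact Submodule.mem_top)
    have hJJ : J₁ * J₂ ≠ ⊥ := mul_ne_zero hJ₁0 hJ₂0
    obtain ⟨y, hy, hdy⟩ := h.exists_sub_mem_ideal hN₀ hJJ j₁
    rw [h.finrank_mul hJ₁0 hJ₂0] at hdy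
    set f₁ := j₁ - y with hf₁
    set f₂ := j₂ + y with hf₂
    have hff : f₁ + f₂ = 1 := by rw [hf₁, hf₂, ← hj]; ring
    have hf₁J : f₁ ∈ J₁ := J₁.sub_mem hj₁ (Ideal.mul_le_left hy)
    have hf₂J : f₂ ∈ J₂ := J₂.add_mem hj₂ (Ideal.mul_le_right hy)
    have hdf₁ : deg f₁ ≤ 8 * N₀ := by omega
    have hdf₂ : deg f₂ ≤ 8 * N₀ := by
      have h1 : f₂ = 1 + (-1) * f₁ := by linear_combination hff
      have h2 := h.add 1 ((-1) * f₁)
      have h3 : deg ((-1) * f₁) ≤ deg f₁ := by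
        have h4 := h.smul_le (-1) f₁
        rwa [Algebra.smul_def, map_neg, map_one] at h4
      rw [← h1, h.deg_one] at h2
      refine h2.trans (max_le (Nat.zero_le _) (h3.trans hdf₁))
    have hdu₂ : deg u₂ ≤ ℓ * (4 * N₀) := by
      have h1 := h.le_deg_mul hm u₂
      rw [← hu₂] at h1
      exact h1.trans ((h.deg_pow_le β ℓ).trans (Nat.mul_le_mul_left _ hdβ))
    have hne : ∀ (x u : O), x ≠ 0 → x ^ ℓ = m * u → u ≠ 0 := by
      rintro x u hx hxu rfl
      rw [mul_zero] at hxu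
      exact hx (pow_eq_zero_iff hℓ |>.1 hxu)
    have hu₁0 := hne α u₁ hα hu₁
    have hu₂0 := hne β u₂ hβ0 hu₂
    have hhh : ∀ (f u : O) (J : Ideal O), u ≠ 0 → f ∈ J → Ideal.span {u} = J ^ ℓ →
        deg f ≤ 8 * N₀ → ∃ g, f ^ ℓ = u * g ∧ deg g ≤ ℓ * (8 * N₀) := by
      intro f u J hu hf huJ hdf
      have h1 : f ^ ℓ ∈ Ideal.span {u} := by
        rw [huJ]
        exact Ideal.pow_mem_pow hf ℓ
      obtain ⟨g, hg⟩ := Ideal.mem_span_singleton.1 h1
      refine ⟨g, hg, ?_⟩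
      have h2 := h.le_deg_mul hu g
      rw [← hg] at h2
      exact h2.trans ((h.deg_pow_le f ℓ).trans (Nat.mul_le_mul_left _ hdf))
    obtain ⟨h₁, hh₁, hdh₁⟩ := hhh f₁ u₁ J₁ hu₁0 hf₁J hu₁J hdf₁
    obtain ⟨h₂, hh₂, hdh₂⟩ := hhh f₂ u₂ J₂ hu₂0 hf₂J hu₂J hdf₂
    -- the last two relations
    have hy₁ : f₁ * β ∈ Ideal.span {α} := by
      rw [hJ₁, mul_comm f₁]
      exact Ideal.mul_mem_mul hβE hf₁J
    have hy₂ : f₂ * α ∈ Ideal.span {β} := by
      rw [hJ₂, mul_comm f₂]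
      exact Ideal.mul_mem_mul hαE hf₂J
    obtain ⟨y₁, hy₁⟩ := Ideal.mem_span_singleton.1 hy₁
    obtain ⟨y₂, hy₂⟩ := Ideal.mem_span_singleton.1 hy₂
    have hdy₁ : deg y₁ ≤ 12 * N₀ := by
      have h1 := h.le_deg_mul hα y₁
      rw [← hy₁] at h1
      have h2 := h.deg_mul_le f₁ β
      omega
    have hdy₂ : deg y₂ ≤ 12 * N₀ := by
      have h1 := h.le_deg_mul hβ0 y₂
      rw [← hy₂] at h1
      have h2 := h.deg_mul_le f₂ α
      omega
    refine ⟨α, β, f₁, f₂, u₁, u₂, h₁, h₂, y₁, y₂, hα, ?_, ?_⟩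
    · exact ⟨hbd _ (by omega), hbd _ (by omega), hbd _ (by omega), hbd _ (by omega),
        hbd2 _ (hdu₁.trans (Nat.mul_le_mul_left _ (by omega))),
        hbd2 _ (hdu₂.trans (Nat.mul_le_mul_left _ (by omega))),
        hbd2 _ (hdh₁.trans (Nat.mul_le_mul_left _ (by omega))),
        hbd2 _ (hdh₂.trans (Nat.mul_le_mul_left _ (by omega))), hbd _ hdy₁, hbd _ hdy₂⟩
    · exact ⟨hff, hu₁, hu₂, hh₁, hh₂, hy₁, hy₂⟩

end DegFun

/-- M3 (Cert.lean): bounded representatives and certificates. -/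
theorem exists_cert {k O : Type*} [Field k] [IsAlgClosed k] [CommRing O] [IsDedekindDomain O]
    [Algebra k O] {deg : O → ℕ} (h : DegFun k O deg) (ℓ : ℕ) (hℓ : ℓ ≠ 0) :
    ∃ N, ∀ m : O, m ≠ 0 → (∃ E : Ideal O, Ideal.span {m} = E ^ ℓ) →
      ∃ m' w z : O, w ≠ 0 ∧ z ≠ 0 ∧ m * w ^ ℓ = m' * z ^ ℓ ∧ Cert deg ℓ N m' := by
  obtain ⟨N₀, hN₀⟩ := h.gaps
  refine ⟨(ℓ + 1) * (12 * N₀), fun m hm hE => ?_⟩
  obtain ⟨E, hE⟩ := hE
  have hE0 : E ≠ ⊥ := by
    rintro rfl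
    rw [← Ideal.zero_eq_bot, zero_pow hℓ, Ideal.zero_eq_bot, Ideal.span_singleton_eq_bot] at hE
    exact hm hE
  obtain ⟨y, hyE, hy⟩ := Submodule.exists_mem_ne_zero_of_ne_bot hE0
  obtain ⟨J, hJ⟩ := Ideal.dvd_span_singleton.2 hyE
  have hJ0 : J ≠ ⊥ := by
    rintro rfl
    rw [Ideal.mul_bot, Ideal.span_singleton_eq_bot] at hJ
    exact hy hJ
  obtain ⟨z, hzJ, hz, hdz⟩ := h.exists_small hN₀ hJ0
  obtain ⟨E', hE'⟩ := Ideal.dvd_span_singleton.2 hzJ
  have hE'0 : E' ≠ ⊥ := by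
    rintro rfl
    rw [Ideal.mul_bot, Ideal.span_singleton_eq_bot] at hE'
    exact hz hE'
  have hyl : y ^ ℓ ≠ 0 := pow_ne_zero _ hy
  have h1 : Ideal.span {m * z ^ ℓ} = Ideal.span {y ^ ℓ} * E' ^ ℓ := by
    rw [← Ideal.span_singleton_mul_span_singleton, ← Ideal.span_singleton_pow,
      ← Ideal.span_singleton_pow, hE, hE', hJ, mul_pow, mul_pow, mul_assoc]
  have h2 : m * z ^ ℓ ∈ Ideal.span {y ^ ℓ} := by
    have : m * z ^ ℓ ∈ Ideal.span {m * z ^ ℓ} := Ideal.mem_span_singleton_self _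
    rw [h1] at this
    exact Ideal.mul_le_left this
  obtain ⟨m', hm'⟩ := Ideal.mem_span_singleton.1 h2
  have hm'0 : m' ≠ 0 := by
    rintro rfl
    rw [mul_zero] at hm'
    exact mul_ne_zero hm (pow_ne_zero _ hz) hm'
  have hE'' : Ideal.span {m'} = E' ^ ℓ := by
    rw [hm', ← Ideal.span_singleton_mul_span_singleton] at h1
    exact mul_left_cancel₀ (show Ideal.span {y ^ ℓ} ≠ 0 from by
      rw [Ideal.zero_eq_bot, Ne, Ideal.span_singleton_eq_bot]; exact hyl) h1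
  have hdE' : Module.finrank k (O ⧸ E') ≤ N₀ := by
    have h3 := h.finrank_mul hJ0 hE'0
    rw [← hE', (h.finrank_quotient z hz).2] at h3
    omega
  have hdm' : deg m' ≤ ℓ * N₀ := by
    have h3 : ∀ n : ℕ, Module.finrank k (O ⧸ E' ^ n) = n * Module.finrank k (O ⧸ E') := by
      intro n
      induction n with
      | zero =>
        rw [pow_zero, Ideal.one_eq_top, zero_mul]
        exact Module.finrank_zero_of_subsingleton
      | succ n ih =>
        rw [pow_succ, h.finrank_mul (pow_ne_zero _ hE'0) hE'0, ih]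
        ring
    have h4 := h3 ℓ
    rw [← hE'', (h.finrank_quotient m' hm'0).2] at h4
    rw [h4]
    exact Nat.mul_le_mul_left _ hdE'
  exact ⟨m', z, y, hz, hy, by rw [hm']; ring, h.cert_of_small hN₀ hℓ hm'0 hE'' hdE' hdm'⟩

end Pool.Agent.MP1bdb59C
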