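import Mathlib

/-!
# Kummer theory for constant extensions
-/

open Polynomial IntermediateField

noncomputable section

open scoped Classical

namespace Pool.Agent.MP1bdb59C

/-- Let `k` be algebraically closed in `L`. If an element `m` of `L` becomes an `ℓ`-th power in the
compositum of `L` and the algebraic closure of `k`, then it is the product of an element of `k` and
an `ℓ`-th power in `L`. -/
theorem kummer_descent {k L Ω : Type*} [Field k] [CharZero k] [Field L] [Field Ω] [IsAlgClosed Ω]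
    [Algebra k L] [Algebra L Ω] [Algebra k Ω] [IsScalarTower k L Ω]
    (hreg : ∀ x : L, IsAlgebraic k x → x ∈ Set.range (algebraMap k L)) {ℓ : ℕ}
    [hp : Fact ℓ.Prime] {ζ : k} (hζ : IsPrimitiveRoot ζ ℓ) (m : L) (hm : m ≠ 0) (z : Ω)
    (hz : z ∈ adjoin L (algebraicClosure k Ω : Set Ω)) (hzm : z ^ ℓ = algebraMap L Ω m) :
    ∃ (c : k) (l : L), c ≠ 0 ∧ l ≠ 0 ∧ m = algebraMap k L c * l ^ ℓ := by
  have hℓ := hp.out
  have hLc : CharZero L := charZero_of_injective_algebraMap (algebraMap k L).injective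
  obtain ⟨T, hT, hzT⟩ := exists_finset_of_mem_adjoin hz
  set p : k[X] := ∏ a ∈ T, minpoly k a with hpdef
  set p' : L[X] := p.map (algebraMap k L) with hp'
  have hp0 : p ≠ 0 := by
    rw [hpdef, Finset.prod_ne_zero_iff]
    intro a ha
    exact minpoly.ne_zero (mem_algebraicClosure_iff'.mp (hT ha))
  set L' : IntermediateField L Ω := adjoin L (p'.rootSet Ω) with hL'
  have hsf : IsSplittingField L L' p' :=
    adjoin_rootSet_isSplittingField (IsAlgClosed.splits _)
  have hfin : FiniteDimensional L L' := IsSplittingField.finiteDimensional L' p'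
  have hnorm : Normal L L' := Normal.of_isSplittingField p'
  have hgal : IsGalois L L' := ⟨⟩
  have hroot : ∀ a ∈ T, a ∈ p'.rootSet Ω := by
    intro a ha
    rw [mem_rootSet]
    refine ⟨(Polynomial.map_ne_zero_iff (algebraMap k L).injective).mpr hp0, ?_⟩
    rw [hp', aeval_map_algebraMap, hpdef, map_prod]
    exact Finset.prod_eq_zero ha (minpoly.aeval k a)
  have hzL' : z ∈ L' := by
    have h1 : adjoin L (T : Set Ω) ≤ L' := adjoin.mono L _ _ fun a ha => hroot a ha
    exact h1 hzT
  set z' : L' := ⟨z, hzL'⟩ with hz'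
  have hzm' : z' ^ ℓ = algebraMap L L' m := by
    apply Subtype.ext
    exact hzm
  have hz0 : z' ≠ 0 := by
    intro h0
    rw [h0, zero_pow hℓ.ne_zero] at hzm'
    exact hm ((map_eq_zero _).mp hzm'.symm)
  let i1 : Algebra k L' := ((algebraMap L L').comp (algebraMap k L)).toAlgebra
  have i2 : IsScalarTower k L L' := IsScalarTower.of_algebraMap_eq fun _ => rfl
  have hζ' : IsPrimitiveRoot (algebraMap k L' ζ) ℓ :=
    hζ.map_of_injective (algebraMap k L').injective
  have hσk : ∀ (σ : L' ≃ₐ[L] L') (c : k), σ (algebraMap k L' c) = algebraMap k L' c := by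
    intro σ c
    rw [IsScalarTower.algebraMap_apply k L L', σ.commutes]
  -- the character
  have hχ : ∀ σ : L' ≃ₐ[L] L', ∃ c : k, c ^ ℓ = 1 ∧ σ z' = algebraMap k L' c * z' := by
    intro σ
    have h1 : (σ z' / z') ^ ℓ = 1 := by
      rw [div_pow, ← map_pow, hzm', σ.commutes, div_self]
      rwa [Ne, map_eq_zero]
    obtain ⟨i, -, hi⟩ := hζ'.eq_pow_of_pow_eq_one h1
    refine ⟨ζ ^ i, ?_, ?_⟩
    · rw [← pow_mul, mul_comm, pow_mul, hζ.pow_eq_one, one_pow]
    · rw [map_pow, hi, div_mul_cancel₀ _ hz0]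
  choose c hc1 hc2 using hχ
  have hc0 : ∀ σ, c σ ≠ 0 := by
    intro σ h0
    have := hc1 σ
    rw [h0, zero_pow hℓ.ne_zero] at this
    exact zero_ne_one this
  have hinj := (algebraMap k L').injective
  have hcmul : ∀ σ τ, c (σ * τ) = c σ * c τ := by
    intro σ τ
    apply hinj
    apply mul_right_cancel₀ hz0
    rw [← hc2, AlgEquiv.mul_apply, hc2 τ, map_mul, hσk, hc2 σ, map_mul]
    ring
  have hcone : c 1 = 1 := by
    have := hcmul 1 1
    rw [mul_one] at this
    exact (mul_eq_left₀ (hc0 1)).mp this.symm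
  -- independence of characters
  let M : IntermediateField k L' := algebraicClosure k L'
  let F : (L' ≃ₐ[L] L') → (M →* L') := fun σ =>
    (σ : L' →* L').comp (M.val : M →* L')
  have hFinj : Function.Injective F := by
    intro σ τ hστ
    have h1 : ∀ y : L', IsAlgebraic k y → σ y = τ y := by
      intro y hy
      have h2 := DFunLike.congr_fun hστ (⟨y, mem_algebraicClosure_iff.mpr hy⟩ : M)
      exact h2
    apply AlgEquiv.ext
    intro y
    have hy : (y : Ω) ∈ adjoin L (p'.rootSet Ω) := y.2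
    have key : ∀ (x : Ω) (hx : x ∈ adjoin L (p'.rootSet Ω)),
        σ (⟨x, hx⟩ : L') = τ (⟨x, hx⟩ : L') := by
      intro x hx
      induction hx using adjoin_induction with
      | mem x hx =>
        apply h1
        refine ⟨p, hp0, ?_⟩
        rw [mem_rootSet] at hx
        have h3 := hx.2
        rw [hp', aeval_map_algebraMap] at h3
        apply Subtype.ext
        have h4 : ((aeval (⟨x, subset_adjoin L _ (mem_rootSet.mpr hx)⟩ : L') p : L') : Ω) =
            aeval x p := by
          rw [← aeval_map_algebraMap L x p, ← aeval_map_algebraMap L _ p]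
          exact (Polynomial.aeval_algebraMap_apply Ω (⟨x, _⟩ : L') (p.map (algebraMap k L))).symm
        exact h4.trans h3
      | algebraMap x =>
        have h2 : (⟨algebraMap L Ω x, IntermediateField.algebraMap_mem _ x⟩ : L') = algebraMap L L' x := rfl
        rw [h2, σ.commutes, τ.commutes]
      | add x y hx hy h3 h4 =>
        have h2 : (⟨x + y, add_mem hx hy⟩ : L') = ⟨x, hx⟩ + ⟨y, hy⟩ := rfl
        rw [h2, map_add, map_add, h3, h4]
      | inv x hx h3 =>
        have h2 : (⟨x⁻¹, inv_mem hx⟩ : L') = (⟨x, hx⟩ : L')⁻¹ := rfl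
        rw [h2, map_inv₀, map_inv₀, h3]
      | mul x y hx hy h3 h4 =>
        have h2 : (⟨x * y, mul_mem hx hy⟩ : L') = ⟨x, hx⟩ * ⟨y, hy⟩ := rfl
        rw [h2, map_mul, map_mul, h3, h4]
    exact key y hy
  have hli : LinearIndependent L' (fun σ : L' ≃ₐ[L] L' => (F σ : M → L')) :=
    (linearIndependent_monoidHom M L').comp F hFinj
  have hex : ∃ y : M, ∑ σ : L' ≃ₐ[L] L', (algebraMap k L' (c σ))⁻¹ * σ (y : L') ≠ 0 := by
    by_contra hcon
    push Not at hcon
    have h1 : ∑ σ : L' ≃ₐ[L] L', (algebraMap k L' (c σ))⁻¹ • (F σ : M → L') = 0 := by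
      funext y
      rw [Finset.sum_apply]
      exact hcon y
    have h2 := (Fintype.linearIndependent_iff.mp hli) _ h1 1
    rw [inv_eq_zero, map_eq_zero] at h2
    exact hc0 1 h2
  obtain ⟨y, hy⟩ := hex
  set β : L' := ∑ σ : L' ≃ₐ[L] L', (algebraMap k L' (c σ))⁻¹ * σ (y : L') with hβ
  have hτβ : ∀ τ : L' ≃ₐ[L] L', τ β = algebraMap k L' (c τ) * β := by
    intro τ
    rw [hβ, map_sum, Finset.mul_sum]
    rw [← Equiv.sum_comp (Equiv.mulLeft τ) (fun σ => algebraMap k L' (c τ) *
      ((algebraMap k L' (c σ))⁻¹ * σ (y : L')))]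
    apply Finset.sum_congr rfl
    intro σ _
    rw [map_mul, map_inv₀, hσk, Equiv.coe_mulLeft, hcmul, map_mul, AlgEquiv.mul_apply]
    have h1 : algebraMap k L' (c τ) ≠ 0 := by
      rw [Ne, map_eq_zero]
      exact hc0 τ
    field_simp
  have hβalg : IsAlgebraic k β := by
    have hyalg : IsAlgebraic k (y : L') := mem_algebraicClosure_iff.mp y.2
    have h1 : β ∈ algebraicClosure k L' := by
      rw [hβ]
      apply sum_mem
      intro σ _
      apply mul_mem
      · apply inv_mem
        exact IntermediateField.algebraMap_mem _ _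
      · rw [mem_algebraicClosure_iff]
        have h2 : IsAlgebraic k ((σ.restrictScalars k : L' →ₐ[k] L') (y : L')) := hyalg.algHom _
        exact h2
    exact mem_algebraicClosure_iff.mp h1
  have hfix : ∀ x : L', (∀ τ : L' ≃ₐ[L] L', τ x = x) → ∃ l : L, algebraMap L L' l = x := by
    intro x hx
    exact (IsGalois.mem_range_algebraMap_iff_fixed x).mpr hx
  obtain ⟨w, hw⟩ := hfix (z' / β) (fun τ => by
    rw [map_div₀, hc2, hτβ]
    have h1 : algebraMap k L' (c τ) ≠ 0 := by
      rw [Ne, map_eq_zero]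
      exact hc0 τ
    exact mul_div_mul_left _ _ h1)
  obtain ⟨b, hb⟩ := hfix (β ^ ℓ) (fun τ => by
    rw [map_pow, hτβ, mul_pow, ← map_pow, hc1, map_one, one_mul])
  have hbalg : IsAlgebraic k b := by
    have h1 : IsAlgebraic k (algebraMap L L' b) := by
      rw [hb]
      exact hβalg.pow ℓ
    exact (isAlgebraic_algebraMap_iff (algebraMap L L').injective).mp h1
  obtain ⟨c₀, hc₀⟩ := hreg b hbalg
  have hmw : m = b * w ^ ℓ := by
    apply (algebraMap L L').injective
    rw [map_mul, map_pow, hw, hb, ← hzm', div_pow, mul_div_cancel₀]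
    exact pow_ne_zero _ hy
  refine ⟨c₀, w, ?_, ?_, by rw [hc₀]; exact hmw⟩
  · rintro rfl
    rw [map_zero] at hc₀
    rw [← hc₀, zero_mul] at hmw
    exact hm hmw
  · rintro rfl
    rw [zero_pow hℓ.ne_zero, mul_zero] at hmw
    exact hm hmw

end Pool.Agent.MP1bdb59C
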