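import Mathlib
import Pool.Agent.MP1bdb59C.DegDef

/-!
# Functions with poles only at one point: the abstract dimension count
-/

open Polynomial

noncomputable section

open scoped Classical WithZero

namespace Pool.Agent.MP1bdb59C

open WithZero

/-- The data of a ring `R` in a function field `L`, the valuations `v j` at the places outside `R`,
and an element `X` of `R` with poles exactly at these places. -/
structure Places {k L ι : Type*} [Field k] [Field L] [Algebra k L] [Fintype ι]
    (R : Subalgebra k L) (v : ι → Valuation L ℤᵐ⁰) (X : L) (e : ι → ℕ) (n : ℕ)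
    (ω : Fin n → L) : Prop where
  const : ∀ j (c : k), v j (algebraMap k L c) ≤ 1
  res : ∀ j u, v j u ≤ 1 → ∃ c : k, v j (u - algebraMap k L c) < 1
  glob : ∀ x ∈ R, (∀ j, v j x ≤ 1) → ∃ c : k, x = algebraMap k L c
  integ : ∀ x : L, IsIntegral R x → x ∈ R
  frac : ∀ x : L, ∃ a ∈ R, ∃ s ∈ R, s ≠ 0 ∧ x = a / s
  X_mem : X ∈ R
  X_val : ∀ j, v j X = exp (e j : ℤ)
  e_pos : ∀ j, 0 < e j
  e_sum : ∑ j, e j ≤ n
  ω_mem : ∀ i, ω i ∈ R
  ω_ind : ∀ p : Fin n → k[X], ∑ i, aeval X (p i) * ω i = 0 → ∀ i, p i = 0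

namespace Places

variable {k L ι : Type*} [Field k] [Field L] [Algebra k L] [Fintype ι]
  {R : Subalgebra k L} {v : ι → Valuation L ℤᵐ⁰} {X : L} {e : ι → ℕ} {n : ℕ} {ω : Fin n → L}
  (h : Places R v X e n ω)

include h

lemma const_eq (j : ι) {c : k} (hc : c ≠ 0) : v j (algebraMap k L c) = 1 := by
  apply le_antisymm (h.const j c)
  have h1 := h.const j c⁻¹
  have h2 : v j (algebraMap k L c) * v j (algebraMap k L c⁻¹) = 1 := by
    rw [← map_mul, ← map_mul, mul_inv_cancel₀ hc, map_one, map_one]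
  rw [← h2]
  exact mul_le_of_le_one_right' h1

/-- The space of functions in `R` with poles bounded by `a`. -/
def A (a : ι → ℤ) : Submodule k L where
  carrier := {x | x ∈ R ∧ ∀ j, v j x ≤ exp (a j)}
  zero_mem' := ⟨R.zero_mem, fun j => by rw [map_zero]; exact zero_le⟩
  add_mem' := fun {x y} hx hy => ⟨R.add_mem hx.1 hy.1, fun j =>
    ((v j).map_add x y).trans (max_le (hx.2 j) (hy.2 j))⟩
  smul_mem' := fun c x hx => ⟨R.smul_mem hx.1 c, fun j => by
    rw [Algebra.smul_def, map_mul]
    calc v j (algebraMap k L c) * v j x ≤ 1 * v j x := mul_le_mul_left (h.const j c) _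
      _ = v j x := one_mul _
      _ ≤ _ := hx.2 j⟩

lemma mem_A {a : ι → ℤ} {x : L} : x ∈ h.A a ↔ x ∈ R ∧ ∀ j, v j x ≤ exp (a j) := Iff.rfl

lemma A_mono {a b : ι → ℤ} (hab : ∀ j, a j ≤ b j) : h.A a ≤ h.A b := fun _ hx =>
  ⟨hx.1, fun j => (hx.2 j).trans (exp_le_exp.mpr (hab j))⟩

/-- If `v j y` is `exp m` then every `x` with `v j x ≤ exp m` is `c * y` modulo smaller
elements. -/
lemma exists_sub (j : ι) {m : ℤ} {x y : L} (hy : v j y = exp m) (hx : v j x ≤ exp m) :
    ∃ c : k, v j (x - algebraMap k L c * y) ≤ exp (m - 1) := by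
  have hy0 : y ≠ 0 := by
    rintro rfl
    rw [map_zero] at hy
    exact exp_ne_zero hy.symm
  have h1 : v j (x / y) ≤ 1 := by
    rw [map_div₀, hy]
    exact (div_le_one₀ exp_pos).mpr hx
  obtain ⟨c, hc⟩ := h.res j _ h1
  refine ⟨c, ?_⟩
  have h2 : x - algebraMap k L c * y = (x / y - algebraMap k L c) * y := by
    field_simp
  rw [h2, map_mul, hy]
  by_cases h0 : v j (x / y - algebraMap k L c) = 0
  · rw [h0, zero_mul]
    exact zero_le
  · have h3 : v j (x / y - algebraMap k L c) ≤ exp (-1) := by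
      rw [← exp_log h0] at hc ⊢
      change _ < exp (0 : ℤ) at hc
      rw [exp_lt_exp] at hc
      rw [exp_le_exp]
      omega
    calc v j (x / y - algebraMap k L c) * exp m ≤ exp (-1) * exp m := mul_le_mul_left h3 _
      _ = exp (m - 1) := by
        rw [← exp_add]
        congr 1
        ring

/-- Allowing one more pole raises the dimension by at most one. -/
lemma step {a b : ι → ℤ} (j : ι) (hb : b = Function.update a j (a j + 1))
    (hfin : (h.A a).FG) :
    (h.A b).FG ∧ Module.finrank k (h.A b) ≤ Module.finrank k (h.A a) + 1 := by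
  have hab : ∀ i, a i ≤ b i := by
    intro i
    rw [hb]
    by_cases hi : i = j
    · subst hi
      rw [Function.update_self]
      omega
    · rw [Function.update_of_ne hi]
  by_cases hy : ∃ y ∈ h.A b, v j y = exp (a j + 1)
  · obtain ⟨y, hyb, hy⟩ := hy
    have h1 : h.A b = h.A a ⊔ Submodule.span k {y} := by
      apply le_antisymm
      · intro x hx
        have hxj : v j x ≤ exp (a j + 1) := by
          have := hx.2 j
          rwa [hb, Function.update_self] at this
        obtain ⟨c, hc⟩ := h.exists_sub j hy hxj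
        have hcy : algebraMap k L c * y ∈ h.A b := by
          rw [← Algebra.smul_def]
          exact (h.A b).smul_mem c hyb
        rw [Submodule.mem_sup]
        refine ⟨x - algebraMap k L c * y, ?_, algebraMap k L c * y, ?_, by ring⟩
        · refine ⟨R.sub_mem hx.1 hcy.1, fun i => ?_⟩
          by_cases hi : i = j
          · subst hi
            have h3 : a i + 1 - 1 = a i := by ring
            rwa [h3] at hc
          · have := ((h.A b).sub_mem hx hcy).2 i
            rwa [hb, Function.update_of_ne hi] at this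
        · rw [← Algebra.smul_def]
          exact Submodule.smul_mem _ c (Submodule.mem_span_singleton_self y)
      · apply sup_le (h.A_mono hab)
        rw [Submodule.span_le, Set.singleton_subset_iff]
        exact hyb
    have h2 : (h.A b).FG := by
      rw [h1]
      exact hfin.sup (Submodule.fg_span_singleton y)
    refine ⟨h2, ?_⟩
    have : Module.Finite k (h.A a) := Module.Finite.iff_fg.mpr hfin
    rw [h1]
    exact (Submodule.finrank_add_le_finrank_add_finrank _ _).trans
      (Nat.add_le_add_left (by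
        have := finrank_span_le_card (R := k) ({y} : Set L)
        simpa using this) _)
  · have h1 : h.A b = h.A a := by
      apply le_antisymm _ (h.A_mono hab)
      intro x hx
      refine ⟨hx.1, fun i => ?_⟩
      by_cases hi : i = j
      · subst hi
        by_contra hcon
        apply hy
        refine ⟨x, hx, ?_⟩
        have hxi : v i x ≤ exp (a i + 1) := by
          have := hx.2 i
          rwa [hb, Function.update_self] at this
        rw [not_le] at hcon
        have h0 : v i x ≠ 0 := (exp_pos.trans hcon).ne'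
        rw [← exp_log h0] at hxi hcon ⊢
        rw [exp_le_exp] at hxi
        rw [exp_lt_exp] at hcon
        congr 1
        omega
      · have := hx.2 i
        rwa [hb, Function.update_of_ne hi] at this
    rw [h1]
    exact ⟨hfin, Nat.le_succ _⟩

lemma steps (m : ℕ) : ∀ a b : ι → ℤ, (∀ j, a j ≤ b j) → ∑ j, (b j - a j) = m →
    (h.A a).FG → (h.A b).FG ∧ Module.finrank k (h.A b) ≤ Module.finrank k (h.A a) + m := by
  induction m with
  | zero =>
    intro a b hab hs hfin
    have h1 : ∀ j ∈ Finset.univ, b j - a j = 0 :=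
      (Finset.sum_eq_zero_iff_of_nonneg (fun j _ => sub_nonneg.mpr (hab j))).mp
        (by rw [hs]; rfl)
    have h2 : b = a := by
      funext j
      have := h1 j (Finset.mem_univ j)
      omega
    rw [h2]
    exact ⟨hfin, le_rfl⟩
  | succ m ih =>
    intro a b hab hs hfin
    have h1 : ∃ j, a j < b j := by
      by_contra hcon
      push Not at hcon
      have h2 : ∑ j, (b j - a j) = 0 := by
        apply Finset.sum_eq_zero
        intro j _
        have := hab j
        have := hcon j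
        omega
      rw [h2] at hs
      push_cast at hs
      omega
    obtain ⟨j, hj⟩ := h1
    set b' := Function.update b j (b j - 1) with hb'
    have h2 : ∀ i, a i ≤ b' i := by
      intro i
      rw [hb']
      by_cases hi : i = j
      · subst hi
        rw [Function.update_self]
        omega
      · rw [Function.update_of_ne hi]
        exact hab i
    have h3 : ∑ i, (b' i - a i) = m := by
      have e1 : ∑ i, (b i - a i) = ∑ i, (b' i - a i) + 1 := by
        rw [← Finset.add_sum_erase _ _ (Finset.mem_univ j),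
          ← Finset.add_sum_erase (a := j) Finset.univ (fun i => b' i - a i) (Finset.mem_univ j)]
        have e2 : ∑ i ∈ Finset.univ.erase j, (b' i - a i) =
            ∑ i ∈ Finset.univ.erase j, (b i - a i) := by
          apply Finset.sum_congr rfl
          intro i hi
          rw [hb', Function.update_of_ne (Finset.ne_of_mem_erase hi)]
        rw [e2, hb', Function.update_self]
        ring
      rw [e1] at hs
      push_cast at hs
      omega
    obtain ⟨h4, h5⟩ := ih a b' h2 h3 hfin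
    obtain ⟨h6, h7⟩ := h.step (a := b') (b := b) j (by
      funext i
      by_cases hi : i = j
      · subst hi
        rw [Function.update_self, hb', Function.update_self]
        ring
      · rw [Function.update_of_ne hi, hb', Function.update_of_ne hi]) h4
    exact ⟨h6, by omega⟩

lemma A_fg (b : ι → ℤ) : (h.A b).FG := by
  have h1 : (h.A fun j => min (b j) 0).FG := by
    have h2 : (h.A fun j => min (b j) 0) ≤ Submodule.span k {1} := by
      intro x hx
      obtain ⟨c, hc⟩ := h.glob x hx.1 (fun j => (hx.2 j).trans (by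
        change _ ≤ exp (0 : ℤ)
        rw [exp_le_exp]
        exact min_le_right _ _))
      rw [Submodule.mem_span_singleton]
      exact ⟨c, by rw [Algebra.smul_def, mul_one, hc]⟩
    have : FiniteDimensional k (Submodule.span k {(1 : L)}) :=
      Module.Finite.iff_fg.mpr (Submodule.fg_span_singleton 1)
    have := Submodule.finiteDimensional_of_le h2
    exact Module.Finite.iff_fg.mp this
  have h3 : ∃ m : ℕ, ∑ j, (b j - min (b j) 0) = m :=
    ⟨(∑ j, (b j - min (b j) 0)).toNat, (Int.toNat_of_nonneg (Finset.sum_nonneg fun j _ =>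
      sub_nonneg.mpr (min_le_left _ _))).symm⟩
  obtain ⟨m, hm⟩ := h3
  exact (h.steps m _ b (fun j => min_le_left _ _) hm h1).1

/-- Lower bound of the dimension when the poles are those of `X ^ N`. -/
lemma lower : ∃ c : ℕ, ∀ M : ℕ, n * (M + 1) ≤
    Module.finrank k (h.A fun j => ((M + c : ℕ) : ℤ) * e j) := by
  -- `c`
  have hc : ∃ c : ℕ, ∀ i j, v j (ω i) ≤ exp ((c : ℤ) * e j) := by
    have h1 : ∀ i j, ∃ c : ℕ, v j (ω i) ≤ exp ((c : ℤ) * e j) := by
      intro i j
      refine ⟨(log (v j (ω i))).toNat, ?_⟩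
      by_cases h0 : v j (ω i) = 0
      · rw [h0]
        exact zero_le
      · nth_rw 1 [← exp_log h0]
        rw [exp_le_exp]
        have h2 : (1 : ℤ) ≤ e j := by exact_mod_cast h.e_pos j
        have h3 := Int.self_le_toNat (log (v j (ω i)))
        have h4 : (0 : ℤ) ≤ ((log (v j (ω i))).toNat : ℤ) := Int.natCast_nonneg _
        nlinarith
    choose c hc using h1
    refine ⟨∑ i, ∑ j, c i j, fun i j => (hc i j).trans ?_⟩
    rw [exp_le_exp]
    have h2 : c i j ≤ ∑ i, ∑ j, c i j :=
      (Finset.single_le_sum (f := fun j => c i j) (fun _ _ => Nat.zero_le _)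
        (Finset.mem_univ j)).trans
      (Finset.single_le_sum (f := fun i => ∑ j, c i j) (fun _ _ => Nat.zero_le _)
        (Finset.mem_univ i))
    have h3 : (c i j : ℤ) ≤ ((∑ i, ∑ j, c i j : ℕ) : ℤ) := by exact_mod_cast h2
    exact mul_le_mul_of_nonneg_right h3 (Int.natCast_nonneg _)
  obtain ⟨c, hc⟩ := hc
  refine ⟨c, fun M => ?_⟩
  have hmem : ∀ p : Fin n × Fin (M + 1), X ^ (p.2 : ℕ) * ω p.1 ∈
      h.A fun j => ((M + c : ℕ) : ℤ) * e j := by
    intro p
    refine ⟨R.mul_mem (R.pow_mem h.X_mem _) (h.ω_mem _), fun j => ?_⟩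
    rw [map_mul, map_pow, h.X_val j]
    have h1 : exp (e j : ℤ) ^ (p.2 : ℕ) = exp (((p.2 : ℕ) : ℤ) * e j) := by
      rw [← exp_nsmul, nsmul_eq_mul]
    rw [h1]
    calc exp (((p.2 : ℕ) : ℤ) * e j) * v j (ω p.1)
        ≤ exp (((p.2 : ℕ) : ℤ) * e j) * exp ((c : ℤ) * e j) := mul_le_mul_right (hc _ j) _
      _ = exp (((p.2 : ℕ) : ℤ) * e j + (c : ℤ) * e j) := (exp_add _ _).symm
      _ ≤ _ := by
        rw [exp_le_exp]
        have h2 : ((p.2 : ℕ) : ℤ) ≤ M := by
          have := p.2.2
          omega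
        have h3 : (0 : ℤ) ≤ e j := Int.natCast_nonneg _
        push_cast
        nlinarith
  have hli : LinearIndependent k (fun p : Fin n × Fin (M + 1) =>
      (⟨X ^ (p.2 : ℕ) * ω p.1, hmem p⟩ : h.A fun j => ((M + c : ℕ) : ℤ) * e j)) := by
    rw [Fintype.linearIndependent_iff]
    intro g hg p
    have h1 : ∑ p : Fin n × Fin (M + 1), g p • (X ^ (p.2 : ℕ) * ω p.1) = 0 := by
      have := congrArg Subtype.val hg
      simpa using this
    have h2 : ∑ i, aeval X (∑ l : Fin (M + 1), C (g (i, l)) * Polynomial.X ^ (l : ℕ)) * ω i = 0 := by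
      rw [← h1, Fintype.sum_prod_type]
      apply Finset.sum_congr rfl
      intro i _
      rw [map_sum, Finset.sum_mul]
      apply Finset.sum_congr rfl
      intro l _
      rw [map_mul, aeval_C, map_pow, aeval_X, Algebra.smul_def, mul_assoc]
    have h3 := h.ω_ind _ h2 p.1
    have h4 := congrArg (fun q => q.coeff (p.2 : ℕ)) h3
    simp only [finsetSum_coeff, coeff_C_mul_X_pow, coeff_zero] at h4
    rw [Finset.sum_eq_single p.2] at h4
    · simpa using h4
    · intro l _ hl
      rw [if_neg]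
      intro h5
      exact hl (Fin.ext h5.symm)
    · intro h5
      exact absurd (Finset.mem_univ _) h5
  have : Module.Finite k (h.A fun j => ((M + c : ℕ) : ℤ) * e j) :=
    Module.Finite.iff_fg.mpr (h.A_fg _)
  have := hli.fintype_card_le_finrank
  rwa [Fintype.card_prod, Fintype.card_fin, Fintype.card_fin] at this

/-- Functions with one large pole and prescribed zeros at the other points. -/
lemma lower_one (j₀ : ι) (m : ι → ℕ) (hm : m j₀ = 0) : ∃ C : ℤ, ∀ M : ℕ,
    ((M * e j₀ : ℕ) : ℤ) - C ≤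
      Module.finrank k (h.A (Function.update (fun j => -(m j : ℤ)) j₀ (M * e j₀ : ℕ))) := by
  obtain ⟨c, hc⟩ := h.lower
  refine ⟨(n : ℤ) * c + ∑ j, (m j : ℤ), fun M => ?_⟩
  by_cases hM : c ≤ M
  · obtain ⟨N, rfl⟩ := Nat.exists_eq_add_of_le' hM
    have h1 := hc N
    set a : ι → ℤ := Function.update (fun j => -(m j : ℤ)) j₀ ((N + c) * e j₀ : ℕ) with ha
    set b : ι → ℤ := fun j => ((N + c : ℕ) : ℤ) * e j with hb
    have hab : ∀ j, a j ≤ b j := by
      intro j
      by_cases hj : j = j₀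
      · subst hj
        rw [ha, Function.update_self]
        push_cast
        exact le_rfl
      · rw [ha, Function.update_of_ne hj]
        have : (0 : ℤ) ≤ ((N + c : ℕ) : ℤ) * e j := by positivity
        have h2 : (0 : ℤ) ≤ (m j : ℤ) := Int.natCast_nonneg _
        change -(m j : ℤ) ≤ ((N + c : ℕ) : ℤ) * e j
        omega
    have hsum : ∑ j, (b j - a j) =
        ((N + c : ℕ) : ℤ) * (∑ j, (e j : ℤ)) + ∑ j, (m j : ℤ) - ((N + c : ℕ) : ℤ) * e j₀ := by
      have h2 : ∀ j, b j - a j = ((N + c : ℕ) : ℤ) * e j + m j -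
          (if j = j₀ then ((N + c : ℕ) : ℤ) * e j₀ else 0) := by
        intro j
        by_cases hj : j = j₀
        · subst hj
          rw [ha, Function.update_self, if_pos rfl, hm]
          simp only [hb]
          push_cast
          ring
        · rw [ha, Function.update_of_ne hj, if_neg hj]
          ring
      rw [Finset.sum_congr rfl fun j _ => h2 j, Finset.sum_sub_distrib, Finset.sum_add_distrib,
        ← Finset.mul_sum, Finset.sum_ite_eq' Finset.univ j₀, if_pos (Finset.mem_univ _)]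
    have hnn : 0 ≤ ∑ j, (b j - a j) := Finset.sum_nonneg fun j _ => sub_nonneg.mpr (hab j)
    obtain ⟨h3, h4⟩ := h.steps (∑ j, (b j - a j)).toNat a b hab
      (Int.toNat_of_nonneg hnn).symm (h.A_fg a)
    have h5 : ((∑ j, (b j - a j)).toNat : ℤ) = ∑ j, (b j - a j) := Int.toNat_of_nonneg hnn
    have h6 : (n : ℤ) * (N + 1) ≤ Module.finrank k (h.A a) + ∑ j, (b j - a j) := by
      rw [← h5]
      exact_mod_cast h1.trans h4
    have h7 : (∑ j, (e j : ℤ)) ≤ n := by exact_mod_cast h.e_sum
    rw [hsum] at h6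
    have h8 : (0 : ℤ) ≤ ((N + c : ℕ) : ℤ) := Int.natCast_nonneg _
    push_cast at h6 h8 ⊢
    nlinarith
  · have h1 : (0 : ℤ) ≤ Module.finrank k (h.A (Function.update (fun j => -(m j : ℤ)) j₀
      (M * e j₀ : ℕ))) := Int.natCast_nonneg _
    have h2 : (e j₀ : ℤ) ≤ n := by
      have h3 : e j₀ ≤ ∑ j, e j :=
        Finset.single_le_sum (fun _ _ => Nat.zero_le _) (Finset.mem_univ j₀)
      exact_mod_cast h3.trans h.e_sum
    have h3 : (0 : ℤ) ≤ ∑ j, (m j : ℤ) := Finset.sum_nonneg fun _ _ => Int.natCast_nonneg _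
    have h4 : (M : ℤ) ≤ c := by omega
    have h5 : (0 : ℤ) ≤ M := Int.natCast_nonneg _
    have h6 : (0 : ℤ) ≤ n := Int.natCast_nonneg _
    push_cast
    nlinarith

/-- The ring of functions with poles only at `j₀`. -/
def O (j₀ : ι) : Subalgebra k L where
  carrier := {x | x ∈ R ∧ ∀ j, j ≠ j₀ → v j x ≤ 1}
  mul_mem' := fun {x y} hx hy => ⟨R.mul_mem hx.1 hy.1, fun j hj => by
    rw [map_mul]
    exact mul_le_one' (hx.2 j hj) (hy.2 j hj)⟩
  add_mem' := fun {x y} hx hy => ⟨R.add_mem hx.1 hy.1, fun j hj =>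
    ((v j).map_add x y).trans (max_le (hx.2 j hj) (hy.2 j hj))⟩
  algebraMap_mem' := fun c => ⟨R.algebraMap_mem c, fun j _ => h.const j c⟩

lemma mem_O {j₀ : ι} {x : L} : x ∈ h.O j₀ ↔ x ∈ R ∧ ∀ j, j ≠ j₀ → v j x ≤ 1 := Iff.rfl

lemma one_le_of_mem {j₀ : ι} {x : L} (hx : x ∈ h.O j₀) (hx0 : x ≠ 0) : 1 ≤ v j₀ x := by
  by_contra hcon
  rw [not_le] at hcon
  obtain ⟨c, hc⟩ := h.glob x hx.1 (fun j => by
    by_cases hj : j = j₀
    · rw [hj]
      exact hcon.le
    · exact hx.2 j hj)
  have hc0 : c ≠ 0 := by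
    rintro rfl
    rw [map_zero] at hc
    exact hx0 hc
  rw [hc, h.const_eq j₀ hc0] at hcon
  exact lt_irrefl _ hcon

/-- The order of the pole at `j₀`. -/
def deg (j₀ : ι) (x : h.O j₀) : ℕ := (log (v j₀ (x : L))).toNat

lemma val_eq {j₀ : ι} (x : h.O j₀) (hx0 : x ≠ 0) : v j₀ (x : L) = exp (h.deg j₀ x : ℤ) := by
  have hx0' : (x : L) ≠ 0 := fun h0 => hx0 (Subtype.ext h0)
  have h1 := h.one_le_of_mem x.2 hx0'
  have h2 : v j₀ (x : L) ≠ 0 := (zero_lt_one.trans_le h1).ne'
  have h3 : 0 ≤ log (v j₀ (x : L)) := by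
    rw [← exp_log h2] at h1
    change exp (0 : ℤ) ≤ _ at h1
    rwa [exp_le_exp] at h1
  unfold deg
  rw [Int.toNat_of_nonneg h3, exp_log h2]

lemma deg_zero (j₀ : ι) : h.deg j₀ 0 = 0 := by
  unfold deg
  simp

lemma deg_le_iff {j₀ : ι} (x : h.O j₀) (N : ℕ) : h.deg j₀ x ≤ N ↔ v j₀ (x : L) ≤ exp (N : ℤ) := by
  by_cases hx : x = 0
  · subst hx
    rw [h.deg_zero]
    simp
  · rw [h.val_eq x hx, exp_le_exp]
    omega

lemma gaps_aux {j₀ : ι} (N : ℕ)
    (hgap : ¬ ∃ x : h.O j₀, x ≠ 0 ∧ h.deg j₀ x = N + 1) :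
    h.A (Function.update (fun _ => 0) j₀ ((N + 1 : ℕ) : ℤ)) ≤
      h.A (Function.update (fun _ => 0) j₀ (N : ℤ)) := by
  intro x hx
  refine ⟨hx.1, fun j => ?_⟩
  have hj := hx.2 j
  by_cases hjj : j = j₀
  · subst hjj
    rw [Function.update_self] at hj ⊢
    have hxO : x ∈ h.O j := ⟨hx.1, fun i hi => by
      have := hx.2 i
      rwa [Function.update_of_ne hi] at this⟩
    have h1 := (h.deg_le_iff ⟨x, hxO⟩ (N + 1)).mpr hj
    rw [← h.deg_le_iff ⟨x, hxO⟩]
    by_contra hcon
    apply hgap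
    refine ⟨⟨x, hxO⟩, ?_, by omega⟩
    intro h0
    rw [h0, h.deg_zero] at hcon
    omega
  · rwa [Function.update_of_ne hjj] at hj ⊢

lemma gaps (j₀ : ι) : ∃ N₀, ∀ N, N₀ ≤ N → ∃ x : h.O j₀, x ≠ 0 ∧ h.deg j₀ x = N := by
  set g : ℕ → ℕ := fun N =>
    Module.finrank k (h.A (Function.update (fun _ => 0) j₀ (N : ℤ))) with hg
  have hstep : ∀ N, g (N + 1) ≤ g N + 1 := by
    intro N
    refine (h.step (a := Function.update (fun _ => 0) j₀ (N : ℤ))
      (b := Function.update (fun _ => 0) j₀ ((N + 1 : ℕ) : ℤ)) j₀ ?_ (h.A_fg _)).2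
    rw [Function.update_idem, Function.update_self]
    push_cast
    rfl
  have hgap : ∀ N, ¬ (∃ x : h.O j₀, x ≠ 0 ∧ h.deg j₀ x = N + 1) → g (N + 1) ≤ g N := by
    intro N hN
    have : Module.Finite k (h.A (Function.update (fun _ => 0) j₀ (N : ℤ))) :=
      Module.Finite.iff_fg.mpr (h.A_fg _)
    exact Submodule.finrank_mono (h.gaps_aux N hN)
  have hmono : ∀ N N' : ℕ, N ≤ N' → (N : ℤ) - g N ≤ N' - g N' := by
    intro N N' hN
    induction N', hN using Nat.le_induction with
    | base => exact le_rfl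
    | succ N' _ ih =>
      have := hstep N'
      push_cast
      omega
  obtain ⟨C, hC⟩ := h.lower_one j₀ (fun _ => 0) rfl
  have hbdd : ∀ N : ℕ, (N : ℤ) - g N ≤ C := by
    intro N
    have h1 : N ≤ N * e j₀ := Nat.le_mul_of_pos_right _ (h.e_pos j₀)
    have h2 := hC N
    have h3 : (fun j : ι => -(((fun _ => 0 : ι → ℕ) j : ℕ) : ℤ)) = fun _ => 0 := by
      funext j
      simp
    rw [h3] at h2
    have h4 := hmono N (N * e j₀) h1
    simp only [hg] at h4 ⊢
    omega
  obtain ⟨ub, ⟨N₀, hN₀⟩, hub⟩ := Int.exists_greatest_of_bdd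
    (P := fun z => ∃ N : ℕ, z = (N : ℤ) - g N)
    ⟨C, fun z ⟨N, hN⟩ => hN ▸ hbdd N⟩ ⟨_, 0, rfl⟩
  refine ⟨N₀ + 1, fun N hN => ?_⟩
  obtain ⟨M, rfl⟩ : ∃ M, N = M + 1 := ⟨N - 1, by omega⟩
  by_contra hcon
  have h1 := hgap M hcon
  have h2 := hmono N₀ M (by omega)
  have h3 := hub _ ⟨M + 1, rfl⟩
  push_cast at h3
  omega

lemma degFun (j₀ : ι) : DegFun k (h.O j₀) (h.deg j₀) where
  mul := fun x y hx hy => by
    have h1 := h.val_eq (x * y) (mul_ne_zero hx hy)
    have h2 : ((x * y : h.O j₀) : L) = x * y := rfl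
    rw [h2, map_mul, h.val_eq x hx, h.val_eq y hy, ← exp_add] at h1
    have h3 := exp_injective h1
    omega
  add := fun x y => by
    rw [h.deg_le_iff]
    refine ((v j₀).map_add x y).trans (max_le ?_ ?_)
    · exact (h.deg_le_iff x _).mp (le_max_left _ _)
    · exact (h.deg_le_iff y _).mp (le_max_right _ _)
  zero := h.deg_zero j₀
  const := fun c => by
    apply Nat.le_zero.mp
    rw [h.deg_le_iff]
    exact h.const j₀ c
  sub := fun x y hx hy hxy => by
    obtain ⟨c, hc⟩ := h.exists_sub j₀ (h.val_eq y hy) (hxy ▸ (h.val_eq x hx).le)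
    refine ⟨c, ?_⟩
    by_cases h0 : x - algebraMap k (h.O j₀) c * y = 0
    · exact Or.inl (sub_eq_zero.mp h0)
    · right
      have h1 := h.val_eq _ h0
      have h2 : ((x - algebraMap k (h.O j₀) c * y : h.O j₀) : L) =
        x - algebraMap k L c * y := rfl
      rw [h2] at h1
      rw [h1, exp_le_exp] at hc
      omega
  gaps := h.gaps j₀

lemma exists_mul_mem (j₀ : ι) {a s : L} (ha : a ∈ R) (hs : s ∈ R) :
    ∃ b : L, b ≠ 0 ∧ b * a ∈ h.O j₀ ∧ b * s ∈ h.O j₀ := by
  set m : ι → ℕ := fun j => if j = j₀ then 0 else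
    max (log (v j a)).toNat (log (v j s)).toNat with hm
  obtain ⟨C, hC⟩ := h.lower_one j₀ m (by simp [hm])
  have h1 := hC (C.toNat + 1)
  have h2 : (C.toNat + 1) ≤ (C.toNat + 1) * e j₀ := Nat.le_mul_of_pos_right _ (h.e_pos j₀)
  have h3 := Int.self_le_toNat C
  set W := h.A (Function.update (fun j => -(m j : ℤ)) j₀ ((C.toNat + 1) * e j₀ : ℕ)) with hW
  have h4 : 0 < Module.finrank k W := by omega
  have : Module.Finite k W := Module.Finite.iff_fg.mpr (h.A_fg _)
  have h5 : Nontrivial W := Module.finrank_pos_iff.mp h4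
  obtain ⟨⟨b, hb⟩, hb0⟩ := exists_ne (0 : W)
  have key : ∀ c : L, (∀ j, j ≠ j₀ → v j c ≤ exp (m j : ℤ)) → c ∈ R → b * c ∈ h.O j₀ := by
    intro c hc hcR
    refine ⟨R.mul_mem hb.1 hcR, fun j hj => ?_⟩
    have h6 := hb.2 j
    rw [Function.update_of_ne hj] at h6
    rw [map_mul]
    calc v j b * v j c ≤ exp (-(m j : ℤ)) * exp (m j : ℤ) := mul_le_mul' h6 (hc j hj)
      _ = 1 := by
        rw [← exp_add, neg_add_cancel]
        rfl
  have key2 : ∀ (x : L) (N : ℕ) (j : ι), (log (v j x)).toNat ≤ N → v j x ≤ exp (N : ℤ) := by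
    intro x N j hN
    by_cases h0 : v j x = 0
    · rw [h0]
      exact zero_le
    · rw [← exp_log h0, exp_le_exp]
      have := Int.self_le_toNat (log (v j x))
      omega
  refine ⟨b, fun h0 => hb0 (Subtype.ext h0), key a (fun j hj => key2 _ _ _ ?_) ha,
    key s (fun j hj => key2 _ _ _ ?_) hs⟩
  · simp only [hm, if_neg hj]
    exact le_max_left _ _
  · simp only [hm, if_neg hj]
    exact le_max_right _ _

lemma isFractionRing (j₀ : ι) : IsFractionRing (h.O j₀) L := by
  apply IsFractionRing.of_field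
  intro z
  obtain ⟨a, ha, s, hs, hs0, hz⟩ := h.frac z
  obtain ⟨b, hb0, hba, hbs⟩ := h.exists_mul_mem j₀ ha hs
  refine ⟨⟨b * a, hba⟩, ⟨b * s, hbs⟩, ?_⟩
  change z = (b * a) / (b * s)
  rw [hz, mul_div_mul_left _ _ hb0]

lemma isIntegrallyClosed (j₀ : ι) : IsIntegrallyClosed (h.O j₀) := by
  have := h.isFractionRing j₀
  rw [isIntegrallyClosed_iff L]
  intro x ⟨p, hp, hpx⟩
  refine ⟨⟨x, ?_, fun j hj => ?_⟩, rfl⟩
  · apply h.integ
    let f : h.O j₀ →+* R := (algebraMap (h.O j₀) L).codRestrict R fun y => y.2.1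
    refine ⟨p.map f, hp.map f, ?_⟩
    rw [eval₂_map]
    exact hpx
  · let f : h.O j₀ →+* (v j).valuationSubring :=
      (algebraMap (h.O j₀) L).codRestrict (v j).valuationSubring fun y => y.2.2 j hj
    have h1 : IsIntegral (v j).valuationSubring x := by
      refine ⟨p.map f, hp.map f, ?_⟩
      rw [eval₂_map]
      exact hpx
    obtain ⟨y, rfl⟩ := IsIntegrallyClosed.isIntegral_iff.mp h1
    exact y.2

theorem main (j₀ : ι) : ∃ (O : Subalgebra k L) (deg : O → ℕ), IsFractionRing O L ∧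
    IsIntegrallyClosed O ∧ DegFun k O deg :=
  ⟨h.O j₀, h.deg j₀, h.isFractionRing j₀, h.isIntegrallyClosed j₀, h.degFun j₀⟩

end Places

end Pool.Agent.MP1bdb59C
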