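import Mathlib
import Pool.Agent.MP1bdb59C.Dvr

/-!
# Units of the ring of functions of an affine curve modulo constants and `ℓ`-th powers
-/

open Polynomial IsDedekindDomain

noncomputable section

open scoped Classical WithZero

namespace Pool.Agent.MP1bdb59C

/-- A homomorphism from a commutative group to a finitely generated free abelian group has
finite image modulo `ℓ`-th powers. -/
lemma exists_reps_mod_pow {G : Type*} [CommGroup G] {ι : Type*} [Finite ι]
    (lam : G →* (ι → Multiplicative ℤ)) (ℓ : ℕ) (hℓ : ℓ ≠ 0) :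
    ∃ S : Finset G, ∀ u : G, ∃ v ∈ S, ∃ z : G, lam (u * v⁻¹ * (z ^ ℓ)⁻¹) = 1 := by
  have : NeZero ℓ := ⟨hℓ⟩
  let f : Additive G →+ (ι → ℤ) :=
    { toFun := fun g i => Multiplicative.toAdd (lam g.toMul i)
      map_zero' := by
        funext i
        simp
      map_add' := by
        intro x y
        funext i
        simp }
  have hf : ∀ g : G, lam g = 1 ↔ f (Additive.ofMul g) = 0 := by
    intro g
    constructor
    · intro h
      funext i
      change Multiplicative.toAdd (lam g i) = 0
      rw [h]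
      rfl
    · intro h
      funext i
      have := congrFun h i
      change Multiplicative.toAdd (lam g i) = 0 at this
      rw [toAdd_eq_zero] at this
      exact this
  have hH : (LinearMap.range f.toIntLinearMap).FG := IsNoetherian.noetherian _
  obtain ⟨n, b, hb⟩ := Submodule.fg_iff_exists_fin_generating_family.mp hH
  have hb' : ∀ i, ∃ g : Additive G, f g = b i := fun i => by
    have : b i ∈ LinearMap.range f.toIntLinearMap := hb ▸ Submodule.subset_span ⟨i, rfl⟩
    obtain ⟨g, hg⟩ := this
    exact ⟨g, hg⟩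
  choose g hg using hb'
  refine ⟨Finset.univ.image (fun r : Fin n → Fin ℓ => (∑ i, (r i : ℕ) • g i : Additive G).toMul),
    fun u => ?_⟩
  have hu : f (Additive.ofMul u) ∈ LinearMap.range f.toIntLinearMap := ⟨Additive.ofMul u, rfl⟩
  rw [← hb, Submodule.mem_span_range_iff_exists_fun] at hu
  obtain ⟨c, hc⟩ := hu
  have hlt : ∀ i, (c i % (ℓ : ℤ)).toNat < ℓ := fun i => by
    have h1 := Int.emod_nonneg (c i) (by exact_mod_cast hℓ : (ℓ : ℤ) ≠ 0)
    have h2 := Int.emod_lt_of_pos (c i) (by exact_mod_cast Nat.pos_of_ne_zero hℓ : (0 : ℤ) < ℓ)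
    omega
  refine ⟨_, Finset.mem_image_of_mem _ (Finset.mem_univ (fun i => ⟨_, hlt i⟩)),
    (∑ i, (c i / (ℓ : ℤ)) • g i : Additive G).toMul, ?_⟩
  rw [hf]
  have e : Additive.ofMul (u * ((∑ i, (c i % (ℓ : ℤ)).toNat • g i : Additive G).toMul)⁻¹ *
      (((∑ i, (c i / (ℓ : ℤ)) • g i : Additive G).toMul) ^ ℓ)⁻¹) =
      Additive.ofMul u - (∑ i, (c i % (ℓ : ℤ)).toNat • g i) - ℓ • (∑ i, (c i / (ℓ : ℤ)) • g i) := by
    rw [sub_eq_add_neg, sub_eq_add_neg]
    rfl
  rw [e, map_sub, map_sub, ← hc, map_sum, map_nsmul, map_sum]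
  simp only [map_nsmul, map_zsmul, hg]
  rw [Finset.smul_sum, ← Finset.sum_sub_distrib, ← Finset.sum_sub_distrib]
  apply Finset.sum_eq_zero
  intro i _
  have h1 : (c i % (ℓ : ℤ)).toNat • b i = (c i % (ℓ : ℤ)) • b i := by
    rw [← natCast_zsmul, Int.toNat_of_nonneg (Int.emod_nonneg (c i) (by exact_mod_cast hℓ))]
  rw [h1, ← natCast_zsmul, smul_smul, ← sub_smul, ← sub_smul]
  have h2 := Int.mul_ediv_add_emod (c i) ℓ
  have h3 : c i - c i % (ℓ : ℤ) - (ℓ : ℤ) * (c i / ℓ) = 0 := by linarith
  rw [h3, zero_smul]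

section general

variable {A F L : Type*} [CommRing A] [IsDedekindDomain A] [Field F] [Algebra A F]
  [IsFractionRing A F] [Field L] [Algebra F L] [FiniteDimensional F L] [Algebra.IsSeparable F L]
  [Algebra A L] [IsScalarTower A F L]

include F in
/-- Elements of `L` which are integral outside `t` are integral if finitely many valuations
vanish. -/
lemma exists_hom (t : A) (ht : t ≠ 0) {G : Type*} [CommGroup G] (φ : G →* Lˣ)
    (hφ : ∀ g : G, ∃ N : ℕ, IsIntegral A (algebraMap A L t ^ N * (φ g : L))) :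
    ∃ (n : ℕ) (lam : G →* (Fin n → Multiplicative ℤ)), ∀ g, lam g = 1 → IsIntegral A (φ g : L) := by
  have : IsDedekindDomain (integralClosure A L) := integralClosure.isDedekindDomain A F L
  have : IsFractionRing (integralClosure A L) L :=
    integralClosure.isFractionRing_of_finite_extension F L
  set B := integralClosure A L with hB
  have htL : algebraMap A L t ≠ 0 := by
    rw [IsScalarTower.algebraMap_apply A F L, Ne, map_eq_zero]
    exact fun h => ht ((IsFractionRing.injective A F) (by rw [h, map_zero]))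
  have htB : algebraMap A B t ≠ 0 := by
    intro h
    apply htL
    rw [IsScalarTower.algebraMap_apply A B L, h, map_zero]
  let T : Set (HeightOneSpectrum B) := {P | algebraMap A B t ∈ P.asIdeal}
  have hT : T.Finite := by
    have := Ideal.finite_factors (R := B) (I := Ideal.span {algebraMap A B t}) (by
      rw [Ne, Ideal.zero_eq_bot, Ideal.span_singleton_eq_bot]
      exact htB)
    simpa only [Ideal.dvd_span_singleton] using this
  have : Finite T := hT
  obtain ⟨n, ⟨e⟩⟩ := Finite.exists_equiv_fin T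
  let lam0 (P : HeightOneSpectrum B) : G →* Multiplicative ℤ :=
    (WithZero.unitsWithZeroEquiv (α := Multiplicative ℤ)).toMonoidHom.comp
      ((Units.map (P.valuation L : L →* ℤᵐ⁰)).comp φ)
  have hlam0 : ∀ P g, lam0 P g = 1 → P.valuation L (φ g : L) = 1 := by
    intro P g h
    have h1 : (WithZero.unitsWithZeroEquiv (α := Multiplicative ℤ))
        (Units.map (P.valuation L : L →* ℤᵐ⁰) (φ g)) = 1 := h
    rw [map_eq_one_iff _ (MulEquiv.injective _)] at h1
    exact congrArg Units.val h1
  refine ⟨n, MonoidHom.pi fun i => lam0 (e.symm i).1, fun g hg => ?_⟩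
  have key : ∀ P : HeightOneSpectrum B, P.valuation L (φ g : L) ≤ 1 := by
    intro P
    by_cases hP : P ∈ T
    · have h1 := congrFun hg (e ⟨P, hP⟩)
      have h2 : lam0 P g = 1 := by
        have : lam0 (e.symm (e ⟨P, hP⟩)).1 g = 1 := h1
        rwa [e.symm_apply_apply] at this
      exact (hlam0 P g h2).le
    · obtain ⟨N, hN⟩ := hφ g
      have h1 : P.valuation L (algebraMap A L t) = 1 := by
        rw [IsScalarTower.algebraMap_apply A B L]
        exact P.valuation_eq_one_iff_notMem.mpr hP
      have h2 : P.valuation L (algebraMap A L t ^ N * (φ g : L)) ≤ 1 := by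
        have := P.valuation_le_one (K := L) (⟨_, hN⟩ : B)
        exact this
      rwa [map_mul, map_pow, h1, one_pow, one_mul] at h2
  obtain ⟨x, hx⟩ := HeightOneSpectrum.mem_integers_of_valuation_le_one (R := B) L (φ g : L) key
  rw [← hx]
  exact x.2

end general

section

variable {k L : Type*} [Field k] [Field L] [Algebra k[X] L] [Algebra k L]
  [IsScalarTower k k[X] L]
  [Algebra (RatFunc k) L] [IsScalarTower k[X] (RatFunc k) L]

/-- An element of `k(X)` that is a polynomial and integral at infinity is a constant. -/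
lemma exists_const (p : k[X])
    (hp : RatFunc.inftyValuation k (algebraMap k[X] (RatFunc k) p) ≤ 1) : ∃ c : k, p = C c := by
  by_cases h0 : p = 0
  · exact ⟨0, by rw [h0, map_zero]⟩
  · rw [RatFunc.inftyValuation_apply, RatFunc.inftyValuation.polynomial k h0] at hp
    have h1 : WithZero.exp (p.natDegree : ℤ) ≤ WithZero.exp (0 : ℤ) := hp
    rw [WithZero.exp_le_exp] at h1
    have h2 : p.natDegree = 0 := by omega
    exact ⟨p.coeff 0, Polynomial.eq_C_of_natDegree_eq_zero h2⟩

/-- An element of a finite extension of `k(X)` that is integral over `k[X]` and at infinity is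
algebraic over `k`. -/
lemma isAlgebraic_of_integral [Algebra (RatFunc.inftyValuation k).valuationSubring L]
    [IsScalarTower (RatFunc.inftyValuation k).valuationSubring (RatFunc k) L]
    (x : L) (h1 : IsIntegral k[X] x)
    (h2 : IsIntegral (RatFunc.inftyValuation k).valuationSubring x) : IsAlgebraic k x := by
  have e1 := minpoly.isIntegrallyClosed_eq_field_fractions' (RatFunc k) h1
  have e2 := minpoly.isIntegrallyClosed_eq_field_fractions' (RatFunc k) h2
  have h3 : ∀ i, ∃ c : k, (minpoly k[X] x).coeff i = C c := by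
    intro i
    apply exists_const
    have e3 := congrArg (fun q => Polynomial.coeff q i) (e1.symm.trans e2)
    simp only [Polynomial.coeff_map] at e3
    rw [e3]
    exact ((minpoly (RatFunc.inftyValuation k).valuationSubring x).coeff i).2
  choose c hc using h3
  have h4 : minpoly k[X] x ∈ Polynomial.lifts (C : k →+* k[X]) := by
    rw [Polynomial.lifts_iff_coeff_lifts]
    intro i
    exact ⟨c i, (hc i).symm⟩
  obtain ⟨q, hq⟩ := (Polynomial.mem_lifts _).mp h4
  refine ⟨q, ?_, ?_⟩
  · rintro rfl
    rw [Polynomial.map_zero] at hq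
    exact minpoly.ne_zero h1 hq.symm
  · have h5 := minpoly.aeval k[X] x
    rw [← hq, Polynomial.aeval_def, Polynomial.eval₂_map] at h5
    rw [Polynomial.aeval_def]
    have h6 : algebraMap k L = (algebraMap k[X] L).comp C := by
      ext a
      rw [RingHom.comp_apply, IsScalarTower.algebraMap_apply k k[X] L]
      rfl
    rw [h6]
    exact h5

end

section

variable {k O L : Type*} [Field k] [CommRing O] [IsDomain O] [Field L] [Algebra O L]
  [IsFractionRing O L] [Algebra k[X] O] [Algebra k[X] L] [IsScalarTower k[X] O L]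
  [Algebra k O] [IsScalarTower k k[X] O] [Algebra k L] [IsScalarTower k k[X] L]
  [Algebra (RatFunc k) L] [IsScalarTower k[X] (RatFunc k) L] [FiniteDimensional (RatFunc k) L]
  [Algebra.IsSeparable (RatFunc k) L]

/-- T1: the units of `O` modulo constants and `ℓ`-th powers are finite in number. `O` is integral
over `k[X][1/s]` and `k` is algebraically closed in `L = Frac O`. -/
theorem units_finite (s : k[X]) (hs : s ≠ 0)
    (hint : ∀ a : O, ∃ N : ℕ, IsIntegral k[X] (algebraMap k[X] O s ^ N * a))
    (hreg : ∀ x : L, IsAlgebraic k x → x ∈ Set.range (algebraMap k L))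
    (ℓ : ℕ) (hℓ : ℓ ≠ 0) :
    ∃ S : Finset Oˣ, ∀ u : Oˣ, ∃ v ∈ S, ∃ (c : k) (z : Oˣ),
      (u : O) = algebraMap k O c * v * z ^ ℓ := by
  -- the valuation ring at infinity
  have hX : RatFunc.inftyValuation k ((RatFunc.X : RatFunc k)⁻¹) = WithZero.exp (-1 : ℤ) := by
    rw [← one_div, RatFunc.inftyValuation.X_inv]
  have := isDVR_of_exp_neg_one (RatFunc.inftyValuation k) hX
  let _ : Algebra (RatFunc.inftyValuation k).valuationSubring L :=
    ((algebraMap (RatFunc k) L).comp
      (algebraMap (RatFunc.inftyValuation k).valuationSubring (RatFunc k))).toAlgebra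
  have : IsScalarTower (RatFunc.inftyValuation k).valuationSubring (RatFunc k) L :=
    IsScalarTower.of_algebraMap_eq fun _ => rfl
  obtain ⟨π, hπ⟩ := IsDiscreteValuationRing.exists_irreducible
    (RatFunc.inftyValuation k).valuationSubring
  let φ : Oˣ →* Lˣ := Units.map (algebraMap O L : O →* L)
  have hφ1 : ∀ g : Oˣ, ∃ N : ℕ, IsIntegral k[X] (algebraMap k[X] L s ^ N * (φ g : L)) := by
    intro g
    obtain ⟨N, hN⟩ := hint (g : O)
    refine ⟨N, ?_⟩
    have := hN.map (IsScalarTower.toAlgHom k[X] O L)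
    rw [map_mul, map_pow, IsScalarTower.coe_toAlgHom', ← IsScalarTower.algebraMap_apply] at this
    exact this
  have hφ2 : ∀ g : Oˣ, ∃ N : ℕ, IsIntegral (RatFunc.inftyValuation k).valuationSubring
      (algebraMap (RatFunc.inftyValuation k).valuationSubring L π ^ N * (φ g : L)) := by
    intro g
    have halg : Algebra.IsAlgebraic (RatFunc.inftyValuation k).valuationSubring L :=
      (IsFractionRing.comap_isAlgebraic_iff (K := RatFunc k)).mpr inferInstance
    obtain ⟨y, hy, hint⟩ := (halg.isAlgebraic (φ g : L)).exists_integral_multiple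
    obtain ⟨N, hN⟩ := IsDiscreteValuationRing.associated_pow_irreducible hy hπ
    obtain ⟨w, hw⟩ := hN
    refine ⟨N, ?_⟩
    have h1 : algebraMap (RatFunc.inftyValuation k).valuationSubring L π ^ N * (φ g : L) =
      (w : (RatFunc.inftyValuation k).valuationSubring) • (y • (φ g : L)) := by
      rw [smul_smul, mul_comm (w : (RatFunc.inftyValuation k).valuationSubring) y, hw,
        Algebra.smul_def, map_pow]
    rw [h1]
    exact hint.smul _
  obtain ⟨n1, lam1, h1⟩ := exists_hom (F := RatFunc k) s hs φ hφ1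
  obtain ⟨n2, lam2, h2⟩ := exists_hom (F := RatFunc k) π hπ.ne_zero φ hφ2
  let lam : Oˣ →* (Fin n1 ⊕ Fin n2 → Multiplicative ℤ) :=
    MonoidHom.pi (Sum.elim (fun i => (Pi.evalMonoidHom _ i).comp lam1)
      (fun i => (Pi.evalMonoidHom _ i).comp lam2))
  obtain ⟨S, hS⟩ := exists_reps_mod_pow lam ℓ hℓ
  refine ⟨S, fun u => ?_⟩
  obtain ⟨v, hv, z, hz⟩ := hS u
  have hz1 : lam1 (u * v⁻¹ * (z ^ ℓ)⁻¹) = 1 := by
    funext i
    exact congrFun hz (Sum.inl i)
  have hz2 : lam2 (u * v⁻¹ * (z ^ ℓ)⁻¹) = 1 := by
    funext i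
    exact congrFun hz (Sum.inr i)
  obtain ⟨c, hc⟩ := hreg _ (isAlgebraic_of_integral _ (h1 _ hz1) (h2 _ hz2))
  refine ⟨v, hv, c, z, ?_⟩
  have hinj : Function.Injective (algebraMap O L) := IsFractionRing.injective O L
  have hc' : algebraMap k O c = ((u * v⁻¹ * (z ^ ℓ)⁻¹ : Oˣ) : O) := by
    apply hinj
    have e1 : algebraMap O L (algebraMap k O c) = algebraMap k L c := by
      rw [IsScalarTower.algebraMap_apply k k[X] O, ← IsScalarTower.algebraMap_apply k[X] O L,
        ← IsScalarTower.algebraMap_apply k k[X] L]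
    rw [e1, hc]
    rfl
  rw [hc', ← Units.val_pow_eq_pow_val, ← Units.val_mul, ← Units.val_mul]
  congr 1
  rw [mul_assoc _ v, mul_comm v, ← mul_assoc, inv_mul_cancel_right, inv_mul_cancel_right]

end

end Pool.Agent.MP1bdb59C
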