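import Mathlib
import Pool.Agent.MP1bdb59C.Units

/-!
# Places over a discrete valuation ring
-/

open Polynomial IsDedekindDomain

noncomputable section

open scoped Classical WithZero

namespace Pool.Agent.MP1bdb59C

section dvr

variable {V F S L : Type*} [CommRing V] [IsDomain V] [IsDiscreteValuationRing V] [Field F]
  [Algebra V F] [IsFractionRing V F] [CommRing S] [IsDedekindDomain S] [Algebra V S]
  [Module.Finite V S] [Field L] [Algebra S L] [IsFractionRing S L] [Algebra F L] [Algebra V L]
  [IsScalarTower V S L] [IsScalarTower V F L] [FiniteDimensional F L]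

include F L in
lemma places_dvr (π : V) (hπ : Irreducible π) :
    Finite (HeightOneSpectrum S) ∧ Nonempty (HeightOneSpectrum S) ∧
    ∀ [Fintype (HeightOneSpectrum S)], ∃ e : HeightOneSpectrum S → ℕ,
      (∀ Q, 0 < e Q) ∧ ∑ Q, e Q ≤ Module.finrank F L ∧
      ∀ Q, Q.valuation L (algebraMap V L π) = WithZero.exp (-(e Q : ℤ)) := by
  have hinjVL : Function.Injective (algebraMap V L) := by
    rw [IsScalarTower.algebraMap_eq V F L]
    exact (algebraMap F L).injective.comp (IsFractionRing.injective V F)
  have hinjVS : Function.Injective (algebraMap V S) := by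
    rw [IsScalarTower.algebraMap_eq V S L] at hinjVL
    exact Function.Injective.of_comp hinjVL
  have : FaithfulSMul V S := (faithfulSMul_iff_algebraMap_injective V S).mpr hinjVS
  have : Module.IsTorsionFree V S := inferInstance
  have hp0 : IsLocalRing.maximalIdeal V ≠ ⊥ := IsDiscreteValuationRing.not_a_field V
  have hover : ∀ Q : HeightOneSpectrum S, Q.asIdeal.LiesOver (IsLocalRing.maximalIdeal V) := by
    intro Q
    obtain ⟨x, hx, hx0⟩ := Submodule.exists_mem_ne_zero_of_ne_bot Q.ne_bot
    have h1 : Q.asIdeal.comap (algebraMap V S) ≠ ⊥ :=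
      Ideal.comap_ne_bot_of_integral_mem hx0 hx (Algebra.IsIntegral.isIntegral x)
    have h2 : (Q.asIdeal.comap (algebraMap V S)).IsPrime := inferInstance
    have h3 : (Q.asIdeal.comap (algebraMap V S)).IsMaximal := h2.isMaximal h1
    exact ⟨(IsLocalRing.eq_maximalIdeal h3).symm⟩
  set p := IsLocalRing.maximalIdeal V with hp
  have hmem : ∀ Q : HeightOneSpectrum S, Q.asIdeal ∈ IsDedekindDomain.primesOverFinset p S := by
    intro Q
    rw [IsDedekindDomain.mem_primesOverFinset_iff hp0 S]
    exact ⟨Q.isPrime, hover Q⟩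
  have hfin : Finite (HeightOneSpectrum S) := by
    let f : HeightOneSpectrum S → IsDedekindDomain.primesOverFinset p S := fun Q => ⟨Q.asIdeal, hmem Q⟩
    exact Finite.of_injective f fun Q Q' hQ => HeightOneSpectrum.ext (congrArg Subtype.val hQ)
  have hne : Nonempty (HeightOneSpectrum S) := by
    by_contra hcon
    have h1 : IsDedekindDomain.primesOverFinset p S = ∅ := by
      rw [Finset.eq_empty_iff_forall_notMem]
      intro P hP
      rw [IsDedekindDomain.mem_primesOverFinset_iff hp0 S] at hP
      have := hP.1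
      have := hP.2
      exact hcon ⟨⟨P, hP.1, Ideal.ne_bot_of_liesOver_of_ne_bot hp0 P⟩⟩
    have h2 := Ideal.sum_ramification_inertia S F L hp0
    rw [h1, Finset.sum_empty] at h2
    exact (Module.finrank_pos (R := F) (M := L)).ne h2
  refine ⟨hfin, hne, ?_⟩
  intro _
  let v : HeightOneSpectrum V := ⟨p, inferInstance, hp0⟩
  refine ⟨fun Q => Ideal.ramificationIdx' p Q.asIdeal, fun Q => ?_, ?_, fun Q => ?_⟩
  · have := hover Q
    exact Nat.pos_of_ne_zero (Ideal.IsDedekindDomain.ramificationIdx'_ne_zero_of_liesOver _ hp0)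
  · rw [← Ideal.sum_ramification_inertia S F L hp0]
    have h1 : ∑ Q : HeightOneSpectrum S, Ideal.ramificationIdx' p Q.asIdeal =
        ∑ P ∈ Finset.univ.image (fun Q : HeightOneSpectrum S => Q.asIdeal),
          Ideal.ramificationIdx' p P := by
      rw [Finset.sum_image]
      intro Q _ Q' _ hQ
      exact HeightOneSpectrum.ext hQ
    rw [h1]
    refine (Finset.sum_le_sum_of_subset (?_ : _ ⊆ IsDedekindDomain.primesOverFinset p S)).trans
      (Finset.sum_le_sum fun P hP => ?_)
    · intro P hP
      rw [Finset.mem_image] at hP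
      obtain ⟨Q, _, rfl⟩ := hP
      exact hmem Q
    · rw [IsDedekindDomain.mem_primesOverFinset_iff hp0 S] at hP
      have := hP.1
      have := hP.2
      exact Nat.le_mul_of_pos_right _ (Nat.pos_of_ne_zero (Ideal.inertiaDeg'_ne_zero p P))
  · have : Q.asIdeal.LiesOver v.asIdeal := hover Q
    have h1 := HeightOneSpectrum.valuation_liesOver (K := F) L v Q (algebraMap V F π)
    rw [HeightOneSpectrum.valuation_of_algebraMap, HeightOneSpectrum.intValuation_singleton
      (r := π) (v := v) hπ.ne_zero hπ.maximalIdeal_eq, ← IsScalarTower.algebraMap_apply V F L] at h1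
    rw [← h1, ← WithZero.exp_nsmul, nsmul_eq_mul, mul_neg, mul_one]

end dvr

/-- An integral element over `V` is congruent to a constant if every element of `V` is. -/
lemma res_aux {k V L : Type*} [Field k] [IsAlgClosed k] [CommRing V] [Field L] [Algebra V L]
    [Algebra k L] (w : Valuation L ℤᵐ⁰)
    (hV : ∀ f : V, ∃ c : k, w (algebraMap V L f - algebraMap k L c) < 1) (a : L)
    (ha : IsIntegral V a) (hwa : w a ≤ 1) : ∃ c : k, w (a - algebraMap k L c) < 1 := by
  obtain ⟨p, hp, hpa⟩ := ha
  choose c hc using hV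
  rw [hp.as_sum, eval₂_add, eval₂_X_pow, eval₂_finsetSum] at hpa
  simp only [eval₂_mul, eval₂_C, eval₂_X_pow] at hpa
  set q : k[X] := X ^ p.natDegree + ∑ i ∈ Finset.range p.natDegree, C (c (p.coeff i)) * X ^ i
    with hq
  have hdeg : (∑ i ∈ Finset.range p.natDegree, C (c (p.coeff i)) * X ^ i : k[X]).degree <
      p.natDegree := by
    rw [Polynomial.degree_lt_iff_coeff_zero]
    intro m hm
    rw [finsetSum_coeff]
    apply Finset.sum_eq_zero
    intro i hi
    rw [coeff_C_mul_X_pow, if_neg]
    rw [Finset.mem_range] at hi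
    omega
  have hqm : q.Monic := monic_X_pow_add hdeg
  have hqa : w (aeval a q) < 1 := by
    have h1 : aeval a q = -∑ i ∈ Finset.range p.natDegree,
        (algebraMap V L (p.coeff i) - algebraMap k L (c (p.coeff i))) * a ^ i := by
      rw [hq, map_add, map_pow, aeval_X, map_sum]
      simp only [map_mul, aeval_C, map_pow, aeval_X, sub_mul, Finset.sum_sub_distrib]
      linear_combination hpa
    rw [h1, Valuation.map_neg]
    apply Valuation.map_sum_lt _ one_ne_zero
    intro i _
    rw [map_mul, map_pow]
    exact mul_lt_one_of_nonneg_of_lt_one_left zero_le (hc _) (pow_le_one' hwa i)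
  have hsplit : q = (q.roots.map fun r => X - C r).prod :=
    (IsAlgClosed.splits q).eq_prod_roots_of_monic hqm
  by_contra hcon
  push Not at hcon
  apply hqa.not_ge
  rw [hsplit, map_multiset_prod, map_multiset_prod, Multiset.map_map, Multiset.map_map]
  apply Multiset.one_le_prod
  intro y hy
  rw [Multiset.mem_map] at hy
  obtain ⟨r, _, rfl⟩ := hy
  simp only [Function.comp_apply, map_sub, aeval_X, aeval_C]
  exact hcon r

/-- An element of `k(X)` which is regular at infinity is congruent to a constant. -/
lemma exists_const_infty {k : Type*} [Field k] (f : RatFunc k)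
    (hf : RatFunc.inftyValuation k f ≤ 1) :
    ∃ c : k, RatFunc.inftyValuation k (f - algebraMap k[X] (RatFunc k) (C c)) < 1 := by
  by_cases hf0 : f = 0
  · refine ⟨0, ?_⟩
    rw [hf0, map_zero, map_zero, sub_zero, map_zero]
    exact zero_lt_one
  have hn : f.num ≠ 0 := RatFunc.num_ne_zero hf0
  have hd : f.denom ≠ 0 := RatFunc.denom_ne_zero f
  have hd' : algebraMap k[X] (RatFunc k) f.denom ≠ 0 := RatFunc.algebraMap_ne_zero hd
  have hv : ∀ p : k[X], p ≠ 0 → RatFunc.inftyValuation k (algebraMap k[X] (RatFunc k) p) =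
      WithZero.exp (p.natDegree : ℤ) := by
    intro p hp
    rw [RatFunc.inftyValuation_apply, RatFunc.inftyValuation.polynomial k hp]
  have hvd : RatFunc.inftyValuation k (algebraMap k[X] (RatFunc k) f.denom) ≠ 0 := by
    rw [hv _ hd]
    exact WithZero.exp_ne_zero
  have hle : f.num.natDegree ≤ f.denom.natDegree := by
    rw [← RatFunc.num_div_denom f, map_div₀, hv _ hn, hv _ hd,
      div_le_one₀ WithZero.exp_pos, WithZero.exp_le_exp] at hf
    exact_mod_cast hf
  set c := f.num.coeff f.denom.natDegree with hc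
  refine ⟨c, ?_⟩
  set P := f.num - C c * f.denom with hP
  have h1 : f - algebraMap k[X] (RatFunc k) (C c) = algebraMap k[X] (RatFunc k) P /
      algebraMap k[X] (RatFunc k) f.denom := by
    rw [hP, map_sub, map_mul, sub_div, RatFunc.num_div_denom, mul_div_cancel_right₀ _ hd']
  rw [h1, map_div₀]
  by_cases hP0 : P = 0
  · rw [hP0, map_zero, map_zero, zero_div]
    exact zero_lt_one
  rw [hv _ hP0, hv _ hd, div_lt_one₀ WithZero.exp_pos, WithZero.exp_lt_exp]
  have h2 : P.natDegree ≤ f.denom.natDegree := by
    refine (natDegree_sub_le _ _).trans (max_le hle ?_)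
    exact natDegree_C_mul_le _ _
  have h3 : P.coeff f.denom.natDegree = 0 := by
    rw [hP, coeff_sub, coeff_C_mul, ← hc]
    have : f.denom.coeff f.denom.natDegree = 1 := RatFunc.monic_denom f
    rw [this, mul_one, sub_self]
  have h4 : P.natDegree ≠ f.denom.natDegree := by
    intro h4
    rw [← h4] at h3
    exact hP0 (leadingCoeff_eq_zero.mp h3)
  exact_mod_cast lt_of_le_of_ne h2 h4

end Pool.Agent.MP1bdb59C
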