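import Mathlib
import Pool.Agent.MP1bdb59C.OnePointAux
import Pool.Agent.MP1bdb59C.OnePointDvr

/-!
# A ring of functions with poles only at one point
-/

open Polynomial IsDedekindDomain

noncomputable section

open scoped Classical WithZero

namespace Pool.Agent.MP1bdb59C

theorem exists_onePoint {k L : Type*} [Field k] [IsAlgClosed k] [CharZero k] [Field L]
    [Algebra k[X] L] [Algebra (RatFunc k) L] [IsScalarTower k[X] (RatFunc k) L]
    [FiniteDimensional (RatFunc k) L] [Algebra k L] [IsScalarTower k k[X] L] :
    ∃ (O : Subalgebra k L) (deg : O → ℕ), IsFractionRing O L ∧ IsIntegrallyClosed O ∧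
      DegFun k O deg := by
  have : CharZero (RatFunc k) :=
    charZero_of_injective_algebraMap (algebraMap k (RatFunc k)).injective
  -- the valuation ring at infinity
  have hX : RatFunc.inftyValuation k ((RatFunc.X : RatFunc k)⁻¹) = WithZero.exp (-1 : ℤ) := by
    rw [← one_div, RatFunc.inftyValuation.X_inv]
  have := isDVR_of_exp_neg_one (RatFunc.inftyValuation k) hX
  let _ : Algebra (RatFunc.inftyValuation k).valuationSubring L :=
    ((algebraMap (RatFunc k) L).comp
      (algebraMap (RatFunc.inftyValuation k).valuationSubring (RatFunc k))).toAlgebra
  have : IsScalarTower (RatFunc.inftyValuation k).valuationSubring (RatFunc k) L :=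
    IsScalarTower.of_algebraMap_eq fun _ => rfl
  -- the ring of functions regular at infinity
  have : IsDedekindDomain (integralClosure (RatFunc.inftyValuation k).valuationSubring L) :=
    integralClosure.isDedekindDomain _ (RatFunc k) L
  have : IsFractionRing (integralClosure (RatFunc.inftyValuation k).valuationSubring L) L :=
    integralClosure.isFractionRing_of_finite_extension (RatFunc k) L
  have : Module.Finite (RatFunc.inftyValuation k).valuationSubring
      (integralClosure (RatFunc.inftyValuation k).valuationSubring L) :=
    IsIntegralClosure.finite _ (RatFunc k) L _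
  set π : (RatFunc.inftyValuation k).valuationSubring := ⟨(RatFunc.X : RatFunc k)⁻¹, by
    change RatFunc.inftyValuation k ((RatFunc.X : RatFunc k)⁻¹) ≤ 1
    rw [hX]
    change _ ≤ WithZero.exp (0 : ℤ)
    rw [WithZero.exp_le_exp]
    omega⟩ with hπdef
  have hπ : Irreducible π := irreducible_of_exp_neg_one hX
  obtain ⟨hfin, hne, he⟩ := places_dvr (F := RatFunc k)
    (S := integralClosure (RatFunc.inftyValuation k).valuationSubring L) (L := L) π hπ
  have : Fintype (HeightOneSpectrum
    (integralClosure (RatFunc.inftyValuation k).valuationSubring L)) := Fintype.ofFinite _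
  obtain ⟨e, he0, hesum, heval⟩ := he
  -- the affine ring
  have : IsFractionRing (integralClosure k[X] L) L :=
    integralClosure.isFractionRing_of_finite_extension (RatFunc k) L
  have halgk : ∀ c : k, algebraMap k L c = algebraMap (RatFunc k) L
      (algebraMap k[X] (RatFunc k) (C c)) := by
    intro c
    rw [← IsScalarTower.algebraMap_apply k[X] (RatFunc k) L,
      IsScalarTower.algebraMap_apply k k[X] L]
    rfl
  have hconstV : ∀ c : k, RatFunc.inftyValuation k (algebraMap k[X] (RatFunc k) (C c)) ≤ 1 := by
    intro c
    by_cases hc : c = 0
    · rw [hc, map_zero, map_zero, map_zero]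
      exact zero_le_one
    · rw [RatFunc.inftyValuation_apply, RatFunc.inftyValuation.polynomial k (C_ne_zero.mpr hc),
        natDegree_C]
      exact le_rfl
  have hVle : ∀ (Q : HeightOneSpectrum
      (integralClosure (RatFunc.inftyValuation k).valuationSubring L))
      (f : (RatFunc.inftyValuation k).valuationSubring),
      Q.valuation L (algebraMap (RatFunc.inftyValuation k).valuationSubring L f) ≤ 1 := by
    intro Q f
    rw [IsScalarTower.algebraMap_apply (RatFunc.inftyValuation k).valuationSubring
      (integralClosure (RatFunc.inftyValuation k).valuationSubring L) L]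
    exact Q.valuation_le_one _
  -- basis
  let b := Module.finBasis (RatFunc k) L
  have halgX : Algebra.IsAlgebraic k[X] L :=
    (IsFractionRing.comap_isAlgebraic_iff (K := RatFunc k)).mpr inferInstance
  have hd : ∀ i, ∃ d : k[X], d ≠ 0 ∧ IsIntegral k[X] (d • b i) := by
    intro i
    obtain ⟨y, hy, hint⟩ := (halgX.isAlgebraic (b i)).exists_integral_multiple
    exact ⟨y, hy, hint⟩
  choose d hd0 hdint using hd
  have key : Places ((integralClosure k[X] L).restrictScalars k)
      (fun Q : HeightOneSpectrum
        (integralClosure (RatFunc.inftyValuation k).valuationSubring L) => Q.valuation L)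
      (algebraMap k[X] L X) e (Module.finrank (RatFunc k) L) (fun i => d i • b i) :=
    { const := by
        intro Q c
        rw [halgk]
        exact hVle Q ⟨_, hconstV c⟩
      res := by
        intro Q u hu
        obtain ⟨a, ha⟩ := Q.exists_valuation_sub_lt_of_integer (K := L) hu 1
        rw [Units.val_one] at ha
        have hV : ∀ f : (RatFunc.inftyValuation k).valuationSubring, ∃ c : k,
            Q.valuation L (algebraMap (RatFunc.inftyValuation k).valuationSubring L f -
              algebraMap k L c) < 1 := by
          intro f
          obtain ⟨c, hc⟩ := exists_const_infty (f : RatFunc k) f.2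
          refine ⟨c, ?_⟩
          set g : (RatFunc.inftyValuation k).valuationSubring := f - ⟨_, hconstV c⟩ with hg
          have h1 : algebraMap (RatFunc.inftyValuation k).valuationSubring L f -
              algebraMap k L c = algebraMap (RatFunc.inftyValuation k).valuationSubring L g := by
            rw [hg, map_sub, halgk]
            rfl
          have h2 : g ∈ IsLocalRing.maximalIdeal (RatFunc.inftyValuation k).valuationSubring := by
            rw [IsLocalRing.mem_maximalIdeal, mem_nonunits_iff, isUnit_iff_val_eq_one]
            exact hc.ne
          rw [hπ.maximalIdeal_eq, Ideal.mem_span_singleton] at h2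
          obtain ⟨g', hg'⟩ := h2
          rw [h1, hg', map_mul, map_mul, heval Q]
          refine mul_lt_one_of_nonneg_of_lt_one_left zero_le ?_ (hVle Q g')
          change _ < WithZero.exp (0 : ℤ)
          rw [WithZero.exp_lt_exp]
          have := he0 Q
          omega
        obtain ⟨c, hc⟩ := res_aux (Q.valuation L) hV (a : L) a.2 (Q.valuation_le_one a)
        refine ⟨c, ?_⟩
        have h1 : u - algebraMap k L c = ((a : L) - algebraMap k L c) - ((a : L) - u) := by ring
        rw [h1]
        exact ((Q.valuation L).map_sub _ _).trans_lt (max_lt hc ha)
      glob := by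
        intro x hx hxQ
        obtain ⟨y, hy⟩ := HeightOneSpectrum.mem_integers_of_valuation_le_one
          (R := integralClosure (RatFunc.inftyValuation k).valuationSubring L) L x hxQ
        have h2 : IsIntegral (RatFunc.inftyValuation k).valuationSubring x := by
          rw [← hy]
          exact y.2
        have h3 := isAlgebraic_of_integral (k := k) x hx h2
        have h4 := IsAlgClosed.degree_eq_one_of_irreducible k (minpoly.irreducible h3.isIntegral)
        obtain ⟨c, hc⟩ := minpoly.mem_range_of_degree_eq_one k x h4
        exact ⟨c, hc.symm⟩
      integ := by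
        intro x hx
        have h1 : IsIntegral (integralClosure k[X] L) x := hx
        exact isIntegral_trans (R := k[X]) x h1
      frac := by
        intro x
        obtain ⟨a, s, hs, hx⟩ := IsFractionRing.div_surjective (A := integralClosure k[X] L) x
        refine ⟨a, a.2, s, s.2, ?_, hx.symm⟩
        intro h0
        exact nonZeroDivisors.ne_zero hs (Subtype.ext h0)
      X_mem := isIntegral_algebraMap
      X_val := by
        intro Q
        have h1 : algebraMap k[X] L X =
            (algebraMap (RatFunc.inftyValuation k).valuationSubring L π)⁻¹ := by
          change _ = (algebraMap (RatFunc k) L ((RatFunc.X : RatFunc k)⁻¹))⁻¹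
          rw [map_inv₀, inv_inv, IsScalarTower.algebraMap_apply k[X] (RatFunc k) L,
            RatFunc.algebraMap_X]
        rw [h1, map_inv₀, heval Q, ← WithZero.exp_neg, neg_neg]
      e_pos := he0
      e_sum := hesum
      ω_mem := hdint
      ω_ind := by
        intro p hp i
        have h1 : ∀ q : k[X], aeval (algebraMap k[X] L X) q = algebraMap k[X] L q := by
          intro q
          rw [aeval_algebraMap_apply, aeval_X_left, AlgHom.id_apply]
        have h2 : ∑ i, (algebraMap k[X] (RatFunc k) (p i * d i)) • b i = 0 := by
          rw [← hp]
          apply Finset.sum_congr rfl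
          intro i _
          rw [h1, algebraMap_smul, mul_smul, Algebra.smul_def]
        have h3 := Fintype.linearIndependent_iff.mp b.linearIndependent _ h2 i
        rw [map_eq_zero_iff _ (IsFractionRing.injective k[X] (RatFunc k))] at h3
        exact (mul_eq_zero.mp h3).resolve_right (hd0 i) }
  exact key.main hne.some

end Pool.Agent.MP1bdb59C
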