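import Mathlib

/-!
# Elements killed by all derivations (characteristic 0)
-/

open Polynomial

noncomputable section

open scoped Classical

namespace Pool.Agent.MP1bdb59C

/-- the ring of dual numbers, with no predefined algebra structure -/
def Dual (Ω : Type*) : Type _ := TrivSqZeroExt Ω Ω

instance instDual (Ω : Type*) [Field Ω] : CommRing (Dual Ω) :=
  inferInstanceAs (CommRing (TrivSqZeroExt Ω Ω))

/-- the first coordinate -/
def Dual.fst (Ω : Type*) [Field Ω] : Dual Ω →+* Ω :=
  (TrivSqZeroExt.fstHom Ω Ω Ω : TrivSqZeroExt Ω Ω →+* Ω)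

/-- the inclusion -/
def Dual.inl (Ω : Type*) [Field Ω] : Ω →+* Dual Ω :=
  (TrivSqZeroExt.inlHom Ω Ω : Ω →+* TrivSqZeroExt Ω Ω)

/-- the second coordinate -/
def Dual.snd {Ω : Type*} [Field Ω] (z : Dual Ω) : Ω := TrivSqZeroExt.snd (z : TrivSqZeroExt Ω Ω)

/-- the element `ε` -/
def Dual.eps (Ω : Type*) [Field Ω] : Dual Ω := (TrivSqZeroExt.inr 1 : TrivSqZeroExt Ω Ω)

theorem Dual.ext' {Ω : Type*} [Field Ω] {z w : Dual Ω} (h1 : Dual.fst Ω z = Dual.fst Ω w)
    (h2 : Dual.snd z = Dual.snd w) : z = w := TrivSqZeroExt.ext h1 h2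

theorem Dual.snd_mul {Ω : Type*} [Field Ω] (z w : Dual Ω) :
    Dual.snd (z * w) = Dual.fst Ω z * Dual.snd w + Dual.fst Ω w * Dual.snd z := by
  have h := TrivSqZeroExt.snd_mul (R := Ω) (M := Ω) z w
  refine Eq.trans h ?_
  rw [smul_eq_mul, MulOpposite.smul_eq_mul_unop, MulOpposite.unop_op, mul_comm (TrivSqZeroExt.snd z)]
  rfl

theorem Dual.snd_add {Ω : Type*} [Field Ω] (z w : Dual Ω) :
    Dual.snd (z + w) = Dual.snd z + Dual.snd w := rfl

theorem Dual.snd_zero {Ω : Type*} [Field Ω] : Dual.snd (0 : Dual Ω) = 0 := rfl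

theorem Dual.snd_inl {Ω : Type*} [Field Ω] (y : Ω) : Dual.snd (Dual.inl Ω y) = 0 := rfl

theorem Dual.snd_eps {Ω : Type*} [Field Ω] : Dual.snd (Dual.eps Ω) = 1 := rfl

/-- every field extension in characteristic zero is formally smooth -/
theorem formallySmooth_of_charZero (F L : Type*) [Field F] [CharZero F] [Field L] [Algebra F L] :
    Algebra.FormallySmooth F L := by
  obtain ⟨ι, v, hv⟩ := exists_isTranscendenceBasis' F L
  have h1 := hv.isAlgebraic_field
  have h2 : Algebra.IsSeparable (IntermediateField.adjoin F (Set.range v)) L := inferInstance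
  exact Algebra.FormallySmooth.of_algebraicIndependent_of_isSeparable hv.1

/-- M1 (Der.lean). -/
theorem mem_range_of_forall_derivation {k Ω : Type*} [Field k] [CharZero k] [Field Ω] [Algebra k Ω]
    (hk : ∀ x : Ω, IsAlgebraic k x → x ∈ Set.range (algebraMap k Ω)) (x : Ω)
    (h : ∀ D : Derivation k Ω Ω, D x = 0) : x ∈ Set.range (algebraMap k Ω) := by
  by_contra hx
  have htr : Transcendental k x := fun halg => hx (hk x halg)
  have hinj := transcendental_iff_injective.1 htr
  -- `Ω` as an algebra over `k[X]`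
  let _ : Algebra k[X] Ω := (aeval x : k[X] →ₐ[k] Ω).toRingHom.toAlgebra
  have hmap : ∀ p : k[X], algebraMap k[X] Ω p = aeval x p := fun p => rfl
  have hfaith : FaithfulSMul k[X] Ω := (faithfulSMul_iff_algebraMap_injective _ _).2 hinj
  let _ : Algebra (FractionRing k[X]) Ω := FractionRing.liftAlgebra k[X] Ω
  have hst : IsScalarTower k[X] (FractionRing k[X]) Ω := FractionRing.isScalarTower_liftAlgebra _ _
  have hs1 : Algebra.FormallySmooth k[X] (FractionRing k[X]) :=
    Algebra.FormallySmooth.of_isLocalization (nonZeroDivisors k[X])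
  have hs2 : Algebra.FormallySmooth (FractionRing k[X]) Ω := formallySmooth_of_charZero _ _
  have hs3 : Algebra.FormallySmooth k[X] Ω :=
    Algebra.FormallySmooth.comp k[X] (FractionRing k[X]) Ω
  -- the algebra of dual numbers over `k[X]`, `X ↦ x + ε`
  let φ : k[X] →+* Dual Ω :=
    eval₂RingHom ((Dual.inl Ω).comp (algebraMap k Ω)) (Dual.inl Ω x + Dual.eps Ω)
  let _ : Algebra k[X] (Dual Ω) := φ.toAlgebra
  have hφ : ∀ p : k[X], algebraMap k[X] (Dual Ω) p = φ p := fun p => rfl
  have hfi : ∀ y, Dual.fst Ω (Dual.inl Ω y) = y := fun y => rfl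
  have hfe : Dual.fst Ω (Dual.eps Ω) = 0 := rfl
  have hfst : ∀ p : k[X], Dual.fst Ω (φ p) = aeval x p := by
    intro p
    have : (Dual.fst Ω).comp φ = (aeval x : k[X] →ₐ[k] Ω).toRingHom := by
      apply Polynomial.ringHom_ext
      · intro c
        simp [φ, hfi]
      · simp [φ, hfi, hfe]
    exact RingHom.congr_fun this p
  let g : Dual Ω →ₐ[k[X]] Ω := { Dual.fst Ω with commutes' := fun p => hfst p }
  have hg : ∀ z, g z = Dual.fst Ω z := fun z => rfl
  have hgs : Function.Surjective g := fun y => ⟨Dual.inl Ω y, rfl⟩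
  have hnil : IsNilpotent (RingHom.ker (g : Dual Ω →ₐ[k[X]] Ω)) := by
    refine ⟨2, ?_⟩
    rw [Ideal.zero_eq_bot, eq_bot_iff, pow_two, Ideal.mul_le]
    intro r hr s hs
    rw [RingHom.mem_ker] at hr hs
    rw [Ideal.mem_bot]
    have hr' : Dual.fst Ω r = 0 := hr
    have hs' : Dual.fst Ω s = 0 := hs
    apply Dual.ext'
    · rw [map_mul, hr', zero_mul, map_zero]
    · rw [Dual.snd_mul, hr', hs', zero_mul, zero_mul, add_zero, Dual.snd_zero]
  let L : Ω →ₐ[k[X]] Dual Ω :=
    Algebra.FormallySmooth.liftOfSurjective (AlgHom.id k[X] Ω) g hgs hnil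
  have hL : ∀ y, Dual.fst Ω (L y) = y := fun y =>
    Algebra.FormallySmooth.liftOfSurjective_apply (AlgHom.id k[X] Ω) g hgs hnil y
  have hLc : ∀ c : k, L (algebraMap k Ω c) = Dual.inl Ω (algebraMap k Ω c) := by
    intro c
    have h1 : algebraMap k Ω c = algebraMap k[X] Ω (C c) := by rw [hmap, aeval_C]
    rw [h1, AlgHom.commutes, hφ, hmap, aeval_C]
    simp [φ]
  have hLx : L x = Dual.inl Ω x + Dual.eps Ω := by
    have h1 : x = algebraMap k[X] Ω X := by rw [hmap, aeval_X]
    conv_lhs => rw [h1]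
    rw [AlgHom.commutes, hφ]
    simp [φ]
  -- the derivation
  let D : Derivation k Ω Ω := Derivation.mk'
    { toFun := fun y => Dual.snd (L y)
      map_add' := fun a b => by
        rw [map_add, Dual.snd_add]
      map_smul' := fun c a => by
        rw [Algebra.smul_def, map_mul, hLc, Dual.snd_mul, hfi, Dual.snd_inl, mul_zero, add_zero,
          Algebra.smul_def, RingHom.id_apply] }
    (fun a b => by
      change Dual.snd (L (a * b)) = a * Dual.snd (L b) + b * Dual.snd (L a)
      rw [map_mul, Dual.snd_mul, hL, hL])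
  have hD : D x = Dual.snd (L x) := rfl
  have h0 := h D
  rw [hD, hLx, Dual.snd_add, Dual.snd_inl, Dual.snd_eps, zero_add] at h0
  exact one_ne_zero h0

end Pool.Agent.MP1bdb59C
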