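import Mathlib
import Pool.Agent.MP1bdb59C.DegBasic
import Pool.Agent.MP1bdb59C.Der

/-!
# Ultrapower and rigidity: finiteness from bounded certificates
-/

open Polynomial

noncomputable section

open scoped Classical TensorProduct

set_option linter.unusedSectionVars false

namespace Pool.Agent.MP1bdb59C

namespace Rigid


/-! ### Algebra with one derivation -/

section Alg

variable {k R : Type*} [CommRing k] [CommRing R] [Algebra k R] (d : Derivation k R R)

lemma step1 {l : ℕ} {m α u h f : R} (ha : α ^ (l + 1) = m * u) (hf : f ^ (l + 1) = u * h) :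
    f ^ (l + 1) * (((l + 1 : ℕ) : R) * m * d α - α * d m) = m * α * h * d u := by
  have h1 : d (α ^ (l + 1)) = d (m * u) := by rw [ha]
  rw [Derivation.leibniz_pow, Derivation.leibniz] at h1
  simp only [Nat.add_sub_cancel, smul_eq_mul, nsmul_eq_mul] at h1
  rw [hf]
  have h2 : α * h * (((l + 1 : ℕ) : R) * (α ^ l * d α)) = α * h * (m * d u + u * d m) := by
    rw [h1]
  have h3 : ((l + 1 : ℕ) : R) * h * d α * α ^ (l + 1) = ((l + 1 : ℕ) : R) * h * d α * (m * u) := by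
    rw [ha]
  rw [pow_succ] at h3
  linear_combination h2 - h3

lemma step2 {l : ℕ} {m α u h f s x : R} (ha : α ^ (l + 1) = m * u) (hf : f ^ (l + 1) = u * h)
    (hs : f * s = α * x) :
    f ^ (l + 2) * (((l + 1 : ℕ) : R) * m * d s - s * d m) =
      m * α * (x * h * d u + ((l + 1 : ℕ) : R) * f ^ (l + 1) * d x
        - ((l + 1 : ℕ) : R) * f ^ l * x * d f) := by
  have h1 := step1 d ha hf
  have h2 : d (f * s) = d (α * x) := by rw [hs]
  rw [Derivation.leibniz, Derivation.leibniz] at h2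
  simp only [smul_eq_mul] at h2
  have h3 : f ^ (l + 2) = f ^ l * f * f := by ring
  have h4 : f ^ (l + 1) = f ^ l * f := by ring
  rw [h3]
  rw [h4] at h1 ⊢
  linear_combination x * h1 + (((l + 1 : ℕ) : R) * m * f ^ l * f) * h2
    - (f ^ l * f * d m + ((l + 1 : ℕ) : R) * m * f ^ l * d f) * hs

/-- the ideal `E*` -/
def InE (α β f₁ f₂ s : R) : Prop := α ∣ f₁ * s ∧ β ∣ f₂ * s

lemma InE.add {α β f₁ f₂ s t : R} (hs : InE α β f₁ f₂ s) (ht : InE α β f₁ f₂ t) :
    InE α β f₁ f₂ (s + t) :=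
  ⟨by rw [mul_add]; exact dvd_add hs.1 ht.1, by rw [mul_add]; exact dvd_add hs.2 ht.2⟩

lemma InE.mul_left {α β f₁ f₂ s : R} (hs : InE α β f₁ f₂ s) (a : R) :
    InE α β f₁ f₂ (a * s) :=
  ⟨by rw [mul_left_comm]; exact dvd_mul_of_dvd_right hs.1 a,
    by rw [mul_left_comm]; exact dvd_mul_of_dvd_right hs.2 a⟩

lemma cop {f₁ f₂ : R} (hf : f₁ + f₂ = 1) (n : ℕ) : ∃ a b, a * f₁ ^ n + b * f₂ ^ n = 1 := by
  have h1 : IsCoprime f₁ f₂ := ⟨1, 1, by rw [one_mul, one_mul, hf]⟩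
  exact h1.pow

lemma InE.dvd_pow {l : ℕ} {m α β f₁ f₂ u₁ u₂ h₁ h₂ y₁ y₂ s : R}
    (hc : CertRel (l + 1) m α β f₁ f₂ u₁ u₂ h₁ h₂ y₁ y₂) (hs : InE α β f₁ f₂ s) :
    m ∣ s ^ (l + 1) := by
  obtain ⟨⟨x₁, hx₁⟩, ⟨x₂, hx₂⟩⟩ := hs
  obtain ⟨a, b, hab⟩ := cop hc.f (l + 1)
  have h1 : f₁ ^ (l + 1) * s ^ (l + 1) = m * (u₁ * x₁ ^ (l + 1)) := by
    rw [← mul_pow, hx₁, mul_pow, hc.a, mul_assoc]
  have h2 : f₂ ^ (l + 1) * s ^ (l + 1) = m * (u₂ * x₂ ^ (l + 1)) := by
    rw [← mul_pow, hx₂, mul_pow, hc.b, mul_assoc]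
  refine ⟨a * (u₁ * x₁ ^ (l + 1)) + b * (u₂ * x₂ ^ (l + 1)), ?_⟩
  linear_combination a * h1 + b * h2 - s ^ (l + 1) * hab

lemma InE.exists_y {l : ℕ} {m α β f₁ f₂ u₁ u₂ h₁ h₂ y₁ y₂ s : R}
    (hc : CertRel (l + 1) m α β f₁ f₂ u₁ u₂ h₁ h₂ y₁ y₂) (hs : InE α β f₁ f₂ s) :
    ∃ y, ((l + 1 : ℕ) : R) * m * d s - s * d m = m * y ∧ InE α β f₁ f₂ y := by
  obtain ⟨⟨x₁, hx₁⟩, ⟨x₂, hx₂⟩⟩ := hs
  obtain ⟨a, b, hab⟩ := cop hc.f (l + 2)
  have h1 := step2 d hc.a hc.fa hx₁
  have h2 := step2 d hc.b hc.fb hx₂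
  have hα : InE α β f₁ f₂ α := ⟨⟨f₁, mul_comm _ _⟩, ⟨y₂, hc.ba⟩⟩
  have hβ : InE α β f₁ f₂ β := ⟨⟨y₁, hc.ab⟩, ⟨f₂, mul_comm _ _⟩⟩
  refine ⟨a * (x₁ * h₁ * d u₁ + ((l + 1 : ℕ) : R) * f₁ ^ (l + 1) * d x₁
        - ((l + 1 : ℕ) : R) * f₁ ^ l * x₁ * d f₁) * α +
      b * (x₂ * h₂ * d u₂ + ((l + 1 : ℕ) : R) * f₂ ^ (l + 1) * d x₂
        - ((l + 1 : ℕ) : R) * f₂ ^ l * x₂ * d f₂) * β, ?_, (hα.mul_left _).add (hβ.mul_left _)⟩
  linear_combination a * h1 + b * h2 - (((l + 1 : ℕ) : R) * m * d s - s * d m) * hab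

/-- the root is constant -/
lemma d_eq_zero [IsDomain R] {l : ℕ} {m s u : R} (hm : m ≠ 0) (hs : s ≠ 0)
    (hu : s ^ (l + 1) = m * u) (hZ : ((l + 1 : ℕ) : R) * m * d s - s * d m = 0) : d u = 0 := by
  have h1 : d (s ^ (l + 1)) = d (m * u) := by rw [hu]
  rw [Derivation.leibniz_pow, Derivation.leibniz] at h1
  simp only [Nat.add_sub_cancel, smul_eq_mul, nsmul_eq_mul] at h1
  have h2 : s * m * d u = 0 := by
    have h3 : s ^ (l + 1) = s ^ l * s := pow_succ _ _
    rw [h3] at hu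
    linear_combination -s * h1 + (((l + 1 : ℕ) : R) * d s) * hu + u * hZ
  rcases mul_eq_zero.mp h2 with h3 | h3
  · rcases mul_eq_zero.mp h3 with h4 | h4
    · exact absurd h4 hs
    · exact absurd h4 hm
  · exact h3

end Alg



/-! ### Base change of a derivation -/

section Ext

variable {k Ω O : Type*} [Field k] [Field Ω] [Algebra k Ω] [CommRing O] [Algebra k O]

/-- the derivation `D ⊗ id` of `Ω ⊗ O` -/
def dd (O : Type*) [CommRing O] [Algebra k O] (D : Derivation k Ω Ω) :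
    Derivation k (Ω ⊗[k] O) (Ω ⊗[k] O) :=
  Derivation.mk' (LinearMap.rTensor O (D : Ω →ₗ[k] Ω)) (by
    intro a b
    induction a using TensorProduct.induction_on with
    | zero => simp
    | add a a' ha ha' =>
      rw [add_mul, map_add, ha, ha', map_add, add_smul, smul_add]
      abel
    | tmul x y =>
      induction b using TensorProduct.induction_on with
      | zero => simp
      | add b b' hb hb' =>
        rw [mul_add, map_add, hb, hb', map_add, add_smul, smul_add]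
        abel
      | tmul x' y' =>
        simp only [Algebra.TensorProduct.tmul_mul_tmul, LinearMap.rTensor_tmul, smul_eq_mul,
          Derivation.coeFn_coe, Derivation.leibniz]
        rw [TensorProduct.add_tmul, mul_comm y' y])

@[simp]
lemma dd_tmul (D : Derivation k Ω Ω) (a : Ω) (x : O) : dd O D (a ⊗ₜ x) = D a ⊗ₜ x := rfl

lemma dd_smul (D : Derivation k Ω Ω) (a : Ω) (s : Ω ⊗[k] O) :
    dd O D (a • s) = D a • s + a • dd O D s := by
  induction s using TensorProduct.induction_on with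
  | zero => simp
  | add s t hs ht =>
    rw [smul_add, map_add, hs, ht, map_add, smul_add, smul_add]
    abel
  | tmul b x =>
    rw [TensorProduct.smul_tmul', dd_tmul, dd_tmul, TensorProduct.smul_tmul',
      TensorProduct.smul_tmul', smul_eq_mul, Derivation.leibniz, ← TensorProduct.add_tmul]
    simp only [smul_eq_mul]
    rw [add_comm, mul_comm b (D a)]

/-- the evaluation at a point -/
def ev (Ω : Type*) [Field Ω] [Algebra k Ω] (φ : O →ₐ[k] k) : Ω ⊗[k] O →ₐ[Ω] Ω :=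
  Algebra.TensorProduct.lift (AlgHom.id Ω Ω) ((Algebra.ofId k Ω).comp φ)
    (fun _ _ => Commute.all _ _)

@[simp]
lemma ev_tmul (φ : O →ₐ[k] k) (a : Ω) (x : O) :
    ev Ω φ (a ⊗ₜ x) = a * algebraMap k Ω (φ x) := by
  simp [ev, Algebra.ofId_apply]

lemma ev_dd (φ : O →ₐ[k] k) (D : Derivation k Ω Ω) (s : Ω ⊗[k] O) :
    ev Ω φ (dd O D s) = D (ev Ω φ s) := by
  induction s using TensorProduct.induction_on with
  | zero => simp
  | add s t hs ht => rw [map_add, map_add, hs, ht, map_add, map_add]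
  | tmul a x =>
    rw [dd_tmul, ev_tmul, ev_tmul, Derivation.leibniz, Derivation.map_algebraMap, smul_zero,
      zero_add, smul_eq_mul, mul_comm]

/-- constants of all derivations -/
lemma mem_of_dd (hk : ∀ x : Ω, (∀ D : Derivation k Ω Ω, D x = 0) → x ∈ Set.range (algebraMap k Ω))
    (u : Ω ⊗[k] O) (hu : ∀ D : Derivation k Ω Ω, dd O D u = 0) :
    ∃ u₀ : O, u = 1 ⊗ₜ u₀ := by
  let b := Module.Basis.ofVectorSpace k O
  let B := Algebra.TensorProduct.basis Ω b
  have hB : ∀ i, B i = 1 ⊗ₜ b i := fun i => Algebra.TensorProduct.basis_apply b i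
  have h1 : ∀ D : Derivation k Ω Ω, ∀ v : Ω ⊗[k] O, ∀ i, B.repr (dd O D v) i = D (B.repr v i) := by
    intro D v i
    have h2 : v = ∑ j ∈ (B.repr v).support, B.repr v j • B j := by
      conv_lhs => rw [← B.linearCombination_repr v]
      rfl
    have h3 : dd O D v = ∑ j ∈ (B.repr v).support, D (B.repr v j) • B j := by
      conv_lhs => rw [h2]
      rw [map_sum]
      refine Finset.sum_congr rfl fun j _ => ?_
      rw [dd_smul, hB, dd_tmul, Derivation.map_one_eq_zero, TensorProduct.zero_tmul, smul_zero, add_zero]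
    rw [h3, map_sum, Finsupp.finsetSum_apply]
    simp only [map_smul, Module.Basis.repr_self, Finsupp.smul_apply, smul_eq_mul]
    rw [Finset.sum_eq_single i]
    · simp
    · intro j _ hj
      rw [Finsupp.single_apply, if_neg hj, mul_zero]
    · intro hi
      rw [Finsupp.notMem_support_iff.mp hi, map_zero, zero_mul]
  have h2 : ∀ i, ∃ c : k, algebraMap k Ω c = B.repr u i := by
    intro i
    refine hk _ fun D => ?_
    rw [← h1, hu, map_zero, Finsupp.zero_apply]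
  choose c hc using h2
  refine ⟨∑ j ∈ (B.repr u).support, c j • b j, ?_⟩
  conv_lhs => rw [← B.linearCombination_repr u]
  rw [Finsupp.linearCombination_apply, Finsupp.sum, TensorProduct.tmul_sum]
  refine Finset.sum_congr rfl fun j _ => ?_
  rw [hB, ← hc, TensorProduct.tmul_smul, algebraMap_smul]

end Ext





/-! ### The ultrapower -/

/-- the ultrafilter -/
abbrev U : Ultrafilter ℕ := Filter.hyperfilter ℕ

/-- sequences vanishing almost everywhere -/
def J (A : Type*) [CommRing A] : Ideal (ℕ → A) where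
  carrier := {f | ∀ᶠ n in (U : Filter ℕ), f n = 0}
  zero_mem' := Filter.Eventually.of_forall fun _ => rfl
  add_mem' := fun {f g} hf hg => by
    filter_upwards [hf, hg] with n h1 h2
    rw [Pi.add_apply, h1, h2, add_zero]
  smul_mem' := fun c f hf => by
    filter_upwards [hf] with n h1
    rw [smul_eq_mul, Pi.mul_apply, h1, mul_zero]

lemma mem_J {A : Type*} [CommRing A] {f : ℕ → A} : f ∈ J A ↔ ∀ᶠ n in (U : Filter ℕ), f n = 0 :=
  Iff.rfl

/-- the ultrapower -/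
abbrev Q (A : Type*) [CommRing A] : Type _ := (ℕ → A) ⧸ J A

/-- the class of a sequence -/
def cl {A : Type*} [CommRing A] (f : ℕ → A) : Q A := Ideal.Quotient.mk (J A) f

lemma cl_surj {A : Type*} [CommRing A] (x : Q A) : ∃ f : ℕ → A, cl f = x :=
  Ideal.Quotient.mk_surjective x

lemma cl_eq {A : Type*} [CommRing A] {f g : ℕ → A} :
    cl f = cl g ↔ ∀ᶠ n in (U : Filter ℕ), f n = g n := by
  unfold cl
  rw [Ideal.Quotient.eq, mem_J]
  simp only [Pi.sub_apply, sub_eq_zero]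

lemma cl_mul {A : Type*} [CommRing A] (f g : ℕ → A) : cl f * cl g = cl (fun n => f n * g n) :=
  (map_mul (Ideal.Quotient.mk (J A)) f g).symm

lemma cl_add {A : Type*} [CommRing A] (f g : ℕ → A) : cl f + cl g = cl (fun n => f n + g n) :=
  (map_add (Ideal.Quotient.mk (J A)) f g).symm

lemma cl_pow {A : Type*} [CommRing A] (f : ℕ → A) (l : ℕ) : cl f ^ l = cl (fun n => f n ^ l) :=
  (map_pow (Ideal.Quotient.mk (J A)) f l).symm

lemma cl_one {A : Type*} [CommRing A] : (1 : Q A) = cl (fun _ => 1) :=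
  (map_one (Ideal.Quotient.mk (J A))).symm

lemma cl_zero {A : Type*} [CommRing A] : (0 : Q A) = cl (fun _ => 0) :=
  (map_zero (Ideal.Quotient.mk (J A))).symm

lemma cl_eq_zero {A : Type*} [CommRing A] {f : ℕ → A} :
    cl f = 0 ↔ ∀ᶠ n in (U : Filter ℕ), f n = 0 := by
  rw [cl_zero, cl_eq]

instance (A : Type*) [CommRing A] [Nontrivial A] : Nontrivial (Q A) := by
  refine ⟨⟨0, 1, ?_⟩⟩
  rw [cl_zero, cl_one, Ne, cl_eq]
  intro h0
  obtain ⟨n, hn⟩ := h0.exists
  exact zero_ne_one hn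

instance (A : Type*) [CommRing A] [IsDomain A] : IsDomain (Q A) := by
  have : NoZeroDivisors (Q A) := by
    refine ⟨fun {x y} hxy => ?_⟩
    obtain ⟨f, rfl⟩ := cl_surj x
    obtain ⟨g, rfl⟩ := cl_surj y
    rw [cl_mul, cl_eq_zero] at hxy
    rw [cl_eq_zero, cl_eq_zero, ← Ultrafilter.eventually_or]
    filter_upwards [hxy] with n hn
    exact mul_eq_zero.mp hn
  exact NoZeroDivisors.to_isDomain _

instance (A : Type*) [Field A] : (J A).IsMaximal := by
  refine Ideal.Quotient.maximal_of_isField _ ?_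
  refine ⟨exists_pair_ne _, mul_comm, fun {x} hx => ?_⟩
  obtain ⟨f, rfl⟩ := cl_surj x
  refine ⟨cl (fun n => (f n)⁻¹), ?_⟩
  rw [cl_mul, cl_one, cl_eq]
  have h1 : ¬ ∀ᶠ n in (U : Filter ℕ), f n = 0 := by
    rw [← cl_eq_zero]
    exact hx
  rw [← Ultrafilter.eventually_not] at h1
  filter_upwards [h1] with n hn
  exact mul_inv_cancel₀ hn

instance (A : Type*) [Field A] : Field (Q A) := Ideal.Quotient.field (J A)

section Alg

variable {k : Type*} [Field k]

lemma algebraMap_Q (A : Type*) [CommRing A] [Algebra k A] (c : k) :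
    algebraMap k (Q A) c = cl (fun _ => algebraMap k A c) := rfl

/-- functoriality -/
def Qmap {A B : Type*} [CommRing A] [CommRing B] [Algebra k A] [Algebra k B] (f : A →ₐ[k] B) :
    Q A →ₐ[k] Q B :=
  Ideal.Quotient.liftₐ (J A) ((Ideal.Quotient.mkₐ k (J B)).comp (f.compLeft ℕ)) (by
    intro a ha
    change cl (fun n => f (a n)) = 0
    rw [cl_eq_zero]
    filter_upwards [ha] with n hn
    rw [hn, map_zero])

lemma Qmap_cl {A B : Type*} [CommRing A] [CommRing B] [Algebra k A] [Algebra k B] (f : A →ₐ[k] B)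
    (a : ℕ → A) : Qmap f (cl a) = cl (fun n => f (a n)) := rfl

/-- constant sequences -/
def const (A : Type*) [CommRing A] [Algebra k A] : A →ₐ[k] Q A :=
  (Ideal.Quotient.mkₐ k (J A)).comp (Pi.constAlgHom k ℕ A)

lemma const_apply (A : Type*) [CommRing A] [Algebra k A] (a : A) :
    const (k := k) A a = cl (fun _ => a) := rfl

/-- the map from the base change to the ultrapower -/
def Phi (k O : Type*) [Field k] [CommRing O] [Algebra k O] : Q k ⊗[k] O →ₐ[k] Q O :=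
  Algebra.TensorProduct.lift (Qmap (Algebra.ofId k O)) (const O) (fun _ _ => Commute.all _ _)

variable {O : Type*} [CommRing O] [Algebra k O]

lemma Phi_tmul (a : ℕ → k) (x : O) : Phi k O (cl a ⊗ₜ x) = cl (fun n => a n • x) := by
  unfold Phi
  rw [Algebra.TensorProduct.lift_tmul, Qmap_cl, const_apply, cl_mul]
  simp only [Algebra.ofId_apply, Algebra.smul_def]

lemma cl_sum {A ι : Type*} [CommRing A] (s : Finset ι) (f : ι → ℕ → A) :
    ∑ i ∈ s, cl (f i) = cl (fun n => ∑ i ∈ s, f i n) := by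
  have h1 := map_sum (Ideal.Quotient.mk (J A)) f s
  have h2 : (∑ i ∈ s, f i) = fun n => ∑ i ∈ s, f i n := by
    funext n
    rw [Finset.sum_apply]
  rw [h2] at h1
  exact h1.symm

lemma Phi_inj : Function.Injective (Phi k O) := by
  rw [injective_iff_map_eq_zero]
  intro s hs
  let b := Module.Basis.ofVectorSpace k O
  let B := Algebra.TensorProduct.basis (Q k) b
  have hB : ∀ i, B i = 1 ⊗ₜ b i := fun i => Algebra.TensorProduct.basis_apply b i
  choose c hc using fun i => cl_surj (B.repr s i)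
  have h1 : s = ∑ i ∈ (B.repr s).support, (cl (c i)) ⊗ₜ[k] b i := by
    conv_lhs => rw [← B.linearCombination_repr s]
    rw [Finsupp.linearCombination_apply, Finsupp.sum]
    refine Finset.sum_congr rfl fun j _ => ?_
    rw [hB, hc, TensorProduct.smul_tmul', smul_eq_mul, mul_one]
  have h2 : Phi k O s = cl (fun n => ∑ i ∈ (B.repr s).support, c i n • b i) := by
    conv_lhs => rw [h1]
    rw [map_sum, ← cl_sum]
    refine Finset.sum_congr rfl fun j _ => ?_
    rw [Phi_tmul]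
  rw [h2, cl_eq_zero] at hs
  rw [h1]
  refine Finset.sum_eq_zero fun i hi => ?_
  have h3 : cl (c i) = 0 := by
    rw [cl_eq_zero]
    filter_upwards [hs] with n hn
    exact (linearIndependent_iff'.mp b.linearIndependent) _ _ hn i hi
  rw [h3, TensorProduct.zero_tmul]

instance isDomain_tensor [IsDomain O] : IsDomain (Q k ⊗[k] O) :=
  Function.Injective.isDomain (Phi k O).toRingHom Phi_inj

lemma ev_eq (φ : O →ₐ[k] k) (s : Q k ⊗[k] O) (x : ℕ → O) (hs : Phi k O s = cl x) :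
    ev (Q k) φ s = cl (fun n => φ (x n)) := by
  have h1 : ∀ t : Q k ⊗[k] O, ev (Q k) φ t = Qmap φ (Phi k O t) := by
    intro t
    induction t using TensorProduct.induction_on with
    | zero => simp
    | add t t' ht ht' => rw [map_add, map_add, map_add, ht, ht']
    | tmul a y =>
      obtain ⟨a, rfl⟩ := cl_surj a
      rw [Phi_tmul, Qmap_cl, ev_tmul]
      simp only [map_smul, smul_eq_mul]
      rw [algebraMap_Q, cl_mul]
      rfl
  rw [h1, hs, Qmap_cl]

end Alg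



/-! ### Elements of bounded degree -/

section Bd

variable {k O : Type*} [Field k] [CommRing O] [IsDomain O] [Algebra k O] {deg : O → ℕ}

lemma exists_eventually_eq (f : ℕ → ℕ) (N : ℕ) (hf : ∀ᶠ n in (U : Filter ℕ), f n ≤ N) :
    ∃ A, ∀ᶠ n in (U : Filter ℕ), f n = A := by
  induction N with
  | zero =>
    refine ⟨0, ?_⟩
    filter_upwards [hf] with n hn
    omega
  | succ N ih =>
    by_cases h1 : ∀ᶠ n in (U : Filter ℕ), f n ≤ N
    · exact ih h1
    · rw [← Ultrafilter.eventually_not] at h1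
      refine ⟨N + 1, ?_⟩
      filter_upwards [hf, h1] with n hn hn'
      omega

/-- elements of degree at most `N` of the base change -/
def V (_h : DegFun k O deg) (N : ℕ) : Submodule (Q k) (Q k ⊗[k] O) :=
  Submodule.span (Q k) ((fun x : O => (1 : Q k) ⊗ₜ[k] x) '' {x | deg x ≤ N})

variable (h : DegFun k O deg)

lemma tmul_mem_V {N : ℕ} {x : O} (hx : deg x ≤ N) (a : Q k) : a ⊗ₜ x ∈ V h N := by
  have h1 : (a ⊗ₜ x : Q k ⊗[k] O) = a • ((1 : Q k) ⊗ₜ x) := by
    rw [TensorProduct.smul_tmul', smul_eq_mul, mul_one]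
  rw [h1]
  exact Submodule.smul_mem _ a (Submodule.subset_span ⟨x, hx, rfl⟩)

lemma V_induction {N : ℕ} {P : Q k ⊗[k] O → Prop} (h0 : P 0) (hadd : ∀ s t, P s → P t → P (s + t))
    (ht : ∀ (a : Q k) (x : O), deg x ≤ N → P (a ⊗ₜ x)) {s : Q k ⊗[k] O} (hs : s ∈ V h N) : P s := by
  have h1 : ∀ a : Q k, P (a • s) := by
    unfold V at hs
    induction hs using Submodule.span_induction with
    | mem x hx =>
      obtain ⟨y, hy, rfl⟩ := hx
      intro a
      have h2 : a • ((1 : Q k) ⊗ₜ[k] y) = a ⊗ₜ y := by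
        rw [TensorProduct.smul_tmul', smul_eq_mul, mul_one]
      change P (a • ((1 : Q k) ⊗ₜ[k] y))
      rw [h2]
      exact ht a y hy
    | zero =>
      intro a
      rw [smul_zero]
      exact h0
    | add x y _ _ hx hy =>
      intro a
      rw [smul_add]
      exact hadd _ _ (hx a) (hy a)
    | smul c x _ hx =>
      intro a
      rw [smul_smul]
      exact hx _
  have h2 := h1 1
  rwa [one_smul] at h2

lemma dd_mem_V {N : ℕ} (D : Derivation k (Q k) (Q k)) {s : Q k ⊗[k] O} (hs : s ∈ V h N) :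
    dd O D s ∈ V h N := by
  refine V_induction h (P := fun s => dd O D s ∈ V h N) ?_ ?_ ?_ hs
  · rw [map_zero]
    exact Submodule.zero_mem _
  · intro s t hs ht
    rw [map_add]
    exact Submodule.add_mem _ hs ht
  · intro a x hx
    rw [dd_tmul]
    exact tmul_mem_V h hx _

lemma exists_rep {N : ℕ} {s : Q k ⊗[k] O} (hs : s ∈ V h N) :
    ∃ x : ℕ → O, Phi k O s = cl x ∧ ∀ n, deg (x n) ≤ N := by
  refine V_induction h (P := fun s => ∃ x : ℕ → O, Phi k O s = cl x ∧ ∀ n, deg (x n) ≤ N)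
    ?_ ?_ ?_ hs
  · refine ⟨fun _ => 0, ?_, fun _ => ?_⟩
    · rw [map_zero, cl_zero]
    · rw [h.zero]
      exact Nat.zero_le _
  · rintro s t ⟨x, hx, hx'⟩ ⟨y, hy, hy'⟩
    refine ⟨fun n => x n + y n, ?_, fun n => (h.add _ _).trans (max_le (hx' n) (hy' n))⟩
    rw [map_add, hx, hy, cl_add]
  · intro a x hx
    obtain ⟨a, rfl⟩ := cl_surj a
    exact ⟨fun n => a n • x, Phi_tmul a x, fun n => (h.smul_le _ _).trans hx⟩

lemma exists_lift {N : ℕ} {x : ℕ → O} (hx : ∀ᶠ n in (U : Filter ℕ), deg (x n) ≤ N) :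
    ∃ s ∈ V h N, Phi k O s = cl x := by
  have : Module.Finite k (h.B N) := h.finite_B N
  let b := Module.finBasis k (h.B N)
  have h0 : deg (0 : O) ≤ N := by
    rw [h.zero]
    exact Nat.zero_le _
  let x' : ℕ → h.B N := fun n => if hn : deg (x n) ≤ N then ⟨x n, hn⟩ else 0
  refine ⟨∑ i, (cl fun n => b.repr (x' n) i) ⊗ₜ (b i : O), ?_, ?_⟩
  · exact Submodule.sum_mem _ fun i _ => tmul_mem_V h (b i).2 _
  · rw [map_sum]
    simp only [Phi_tmul]
    rw [cl_sum, cl_eq]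
    filter_upwards [hx] with n hn
    have h1 := congrArg (fun z : h.B N => (z : O)) (b.sum_repr (x' n))
    simp only [Submodule.coe_sum, Submodule.coe_smul] at h1
    rw [h1]
    simp only [x', dif_pos hn]

lemma mem_V_of {N : ℕ} {s : Q k ⊗[k] O} {x : ℕ → O} (hs : Phi k O s = cl x)
    (hx : ∀ᶠ n in (U : Filter ℕ), deg (x n) ≤ N) : s ∈ V h N := by
  obtain ⟨t, ht, ht'⟩ := exists_lift h hx
  rw [← hs] at ht'
  rw [← Phi_inj ht']
  exact ht

include h in
lemma deg_mul_le (x y : O) : deg (x * y) ≤ deg x + deg y := by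
  by_cases hx : x = 0
  · rw [hx, zero_mul, h.zero]
    exact Nat.zero_le _
  by_cases hy : y = 0
  · rw [hy, mul_zero, h.zero]
    exact Nat.zero_le _
  exact (h.mul x y hx hy).le

lemma mul_mem_V {a b : ℕ} {s t : Q k ⊗[k] O} (hs : s ∈ V h a) (ht : t ∈ V h b) :
    s * t ∈ V h (a + b) := by
  obtain ⟨x, hx, hx'⟩ := exists_rep h hs
  obtain ⟨y, hy, hy'⟩ := exists_rep h ht
  refine mem_V_of h (x := fun n => x n * y n) ?_ (Filter.Eventually.of_forall fun n =>
    (deg_mul_le h _ _).trans (add_le_add (hx' n) (hy' n)))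
  rw [map_mul, hx, hy, cl_mul]

lemma mem_V_of_mul {A N : ℕ} {m y : Q k ⊗[k] O} {μ : ℕ → O} (hm : Phi k O m = cl μ)
    (hm0 : ∀ᶠ n in (U : Filter ℕ), μ n ≠ 0) (hA : ∀ᶠ n in (U : Filter ℕ), deg (μ n) = A)
    (hmy : m * y ∈ V h (A + N)) (x : ℕ → O) (hx : Phi k O y = cl x) : y ∈ V h N := by
  obtain ⟨z, hz, hz'⟩ := exists_rep h hmy
  rw [map_mul, hm, hx, cl_mul, cl_eq] at hz
  refine mem_V_of h hx ?_
  filter_upwards [hz, hm0, hA] with n h1 h2 h3
  by_cases hx0 : x n = 0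
  · rw [hx0, h.zero]
    exact Nat.zero_le _
  · have h4 := h.mul _ _ h2 hx0
    have h5 := hz' n
    rw [← h1, h4, h3] at h5
    omega

lemma eq_zero_of_ev {N : ℕ} {s : Q k ⊗[k] O} (hs : s ∈ V h N) (T : Finset (O →ₐ[k] k))
    (hT : N < T.card) (h0 : ∀ φ ∈ T, ev (Q k) φ s = 0) : s = 0 := by
  obtain ⟨x, hx, hx'⟩ := exists_rep h hs
  apply Phi_inj
  rw [map_zero, hx, cl_eq_zero]
  have h1 : ∀ᶠ n in (U : Filter ℕ), ∀ φ ∈ T, φ (x n) = 0 := by
    rw [Filter.eventually_all_finset]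
    intro φ hφ
    have h2 := h0 φ hφ
    rw [ev_eq φ s x hx, cl_eq_zero] at h2
    exact h2
  filter_upwards [h1] with n hn
  by_contra hne
  have h3 := h.card_zeros (x n) hne T hn
  have h4 := hx' n
  omega

end Bd

end Rigid


namespace Rigid

section Main

variable {k O : Type*} [Field k] [IsAlgClosed k] [CharZero k] [CommRing O] [IsDomain O]
  [Algebra k O] {deg : O → ℕ}

lemma mem_range_Q (x : Q k) (hx : ∀ D : Derivation k (Q k) (Q k), D x = 0) :
    x ∈ Set.range (algebraMap k (Q k)) := by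
  refine mem_range_of_forall_derivation ?_ x hx
  intro y hy
  have hi : IsIntegral k y := hy.isIntegral
  have h1 : (minpoly k y).degree = 1 :=
    IsAlgClosed.degree_eq_one_of_irreducible k (minpoly.irreducible hi)
  obtain ⟨c, hc⟩ := minpoly.mem_range_of_degree_eq_one k y h1
  exact ⟨c, hc⟩

lemma exists_root (x : Q k) (l : ℕ) : ∃ μ : Q k, μ ^ (l + 1) = x := by
  obtain ⟨f, rfl⟩ := cl_surj x
  choose g hg using fun n => IsAlgClosed.exists_pow_nat_eq (f n) (Nat.succ_pos l)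
  refine ⟨cl g, ?_⟩
  rw [cl_pow, cl_eq]
  exact Filter.Eventually.of_forall hg

/-- the rigid element -/
theorem exists_rigid (h : DegFun k O deg) (l N : ℕ) {m α β f₁ f₂ u₁ u₂ h₁ h₂ y₁ y₂ : Q k ⊗[k] O}
    (hm0 : m ≠ 0) (hα0 : α ≠ 0) (hm : m ∈ V h N) (hα : α ∈ V h N)
    (hc : CertRel (l + 1) m α β f₁ f₂ u₁ u₂ h₁ h₂ y₁ y₂) :
    ∃ s : Q k ⊗[k] O, s ≠ 0 ∧ ∃ u₀ : O, s ^ (l + 1) = m * (1 ⊗ₜ u₀) := by
  -- degree of m
  obtain ⟨μm, hμm, hμm'⟩ := exists_rep h hm
  obtain ⟨A, hA⟩ := exists_eventually_eq (fun n => deg (μm n)) N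
    (Filter.Eventually.of_forall hμm')
  have hμ0 : ∀ᶠ n in (U : Filter ℕ), μm n ≠ 0 := by
    rw [Ultrafilter.eventually_not]
    intro h1
    apply hm0
    apply Phi_inj
    rw [hμm, map_zero, cl_eq_zero]
    exact h1
  have hmA : m ∈ V h A := mem_V_of h hμm (by
    filter_upwards [hA] with n hn
    exact hn.le)
  -- the derivation step
  have hstep : ∀ (D : Derivation k (Q k) (Q k)) (s : Q k ⊗[k] O), s ∈ V h N →
      InE α β f₁ f₂ s → ∃ y ∈ V h N, InE α β f₁ f₂ y ∧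
        ((l + 1 : ℕ) : Q k ⊗[k] O) * m * dd O D s - s * dd O D m = m * y := by
    intro D s hs hsE
    obtain ⟨y, hy, hyE⟩ := hsE.exists_y (dd O D) hc
    refine ⟨y, ?_, hyE, hy⟩
    obtain ⟨x, hx⟩ := cl_surj (Phi k O y)
    refine mem_V_of_mul h hμm hμ0 hA ?_ x hx.symm
    rw [← hy]
    refine Submodule.sub_mem _ ?_ ?_
    · rw [mul_assoc, ← nsmul_eq_mul]
      exact Submodule.smul_of_tower_mem _ _ (mul_mem_V h hmA (dd_mem_V h D hs))
    · rw [mul_comm]
      exact mul_mem_V h (dd_mem_V h D hmA) hs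
  -- points
  obtain ⟨φ, hφ⟩ := h.exists_points
  let T₀ : Finset (O →ₐ[k] k) := (Finset.range (2 * N + 2)).image φ
  have hT₀ : T₀.card = 2 * N + 2 := by
    rw [Finset.card_image_of_injective _ hφ, Finset.card_range]
  let T : Finset (O →ₐ[k] k) := T₀.filter fun ψ => ev (Q k) ψ m ≠ 0
  have hT : N < T.card := by
    have h1 : (T₀.filter fun ψ => ev (Q k) ψ m = 0).card ≤ N := by
      by_contra hlt
      apply hm0
      refine eq_zero_of_ev h hm _ (not_le.mp hlt) ?_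
      intro ψ hψ
      exact (Finset.mem_filter.mp hψ).2
    have h2 := Finset.card_filter_add_card_filter_not (s := T₀) (fun ψ => ev (Q k) ψ m = 0)
    have h3 : T = T₀.filter fun ψ => ¬ (ev (Q k) ψ m = 0) := rfl
    rw [h3]
    omega
  -- minimal support
  let P : ℕ → Prop := fun c => ∃ s : Q k ⊗[k] O, s ≠ 0 ∧ s ∈ V h N ∧ InE α β f₁ f₂ s ∧
    (T.filter fun ψ => ev (Q k) ψ s ≠ 0).card = c
  have hP : ∃ c, P c := ⟨_, α, hα0, hα, ⟨⟨f₁, mul_comm _ _⟩, ⟨y₂, hc.ba⟩⟩, rfl⟩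
  obtain ⟨s, hs0, hsV, hsE, hsc⟩ := Nat.find_spec hP
  have hmin : ∀ y : Q k ⊗[k] O, y ∈ V h N → InE α β f₁ f₂ y →
      (T.filter fun ψ => ev (Q k) ψ y ≠ 0).card < (T.filter fun ψ => ev (Q k) ψ s ≠ 0).card →
      y = 0 := by
    intro y hyV hyE hlt
    by_contra hy0
    rw [hsc] at hlt
    exact Nat.find_min hP hlt ⟨y, hy0, hyV, hyE, rfl⟩
  obtain ⟨ψ₀, hψ₀, hψs⟩ : ∃ ψ ∈ T, ev (Q k) ψ s ≠ 0 := by
    by_contra hcon
    push Not at hcon
    exact hs0 (eq_zero_of_ev h hsV T hT hcon)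
  have hψm : ev (Q k) ψ₀ m ≠ 0 := (Finset.mem_filter.mp hψ₀).2
  obtain ⟨μ, hμ⟩ := exists_root (ev (Q k) ψ₀ m) l
  have hμ0' : μ ≠ 0 := by
    rintro rfl
    apply hψm
    rw [← hμ, zero_pow (Nat.succ_ne_zero l)]
  -- normalise
  let c : Q k := μ / ev (Q k) ψ₀ s
  have hc0 : c ≠ 0 := div_ne_zero hμ0' hψs
  let t : Q k ⊗[k] O := c • s
  have ht0 : t ≠ 0 := smul_ne_zero hc0 hs0
  have htV : t ∈ V h N := Submodule.smul_mem _ _ hsV
  have htE : InE α β f₁ f₂ t := by
    have h1 : t = algebraMap (Q k) (Q k ⊗[k] O) c * s := Algebra.smul_def c s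
    rw [h1]
    exact hsE.mul_left _
  have htev : ∀ ψ, ev (Q k) ψ t = c * ev (Q k) ψ s := by
    intro ψ
    rw [map_smul, smul_eq_mul]
  have ht1 : ev (Q k) ψ₀ t = μ := by
    rw [htev]
    exact div_mul_cancel₀ _ hψs
  obtain ⟨u, hu⟩ := htE.dvd_pow hc
  have hdu : ∀ D : Derivation k (Q k) (Q k), dd O D u = 0 := by
    intro D
    obtain ⟨y, hyV, hyE, hy⟩ := hstep D t htV htE
    have hy0 : y = 0 := by
      apply hmin y hyV hyE
      apply Finset.card_lt_card
      rw [Finset.ssubset_iff_of_subset]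
      · refine ⟨ψ₀, Finset.mem_filter.mpr ⟨hψ₀, hψs⟩, ?_⟩
        rw [Finset.mem_filter, not_and, not_not]
        intro _
        have h1 := congrArg (ev (Q k) ψ₀) hy
        rw [map_sub, map_mul, map_mul, map_mul, map_mul, map_natCast, ev_dd, ev_dd, ht1, ← hμ,
          Derivation.leibniz_pow] at h1
        simp only [Nat.add_sub_cancel, smul_eq_mul, nsmul_eq_mul] at h1
        have h2 : μ ^ (l + 1) * ev (Q k) ψ₀ y = 0 := by
          rw [← h1]
          ring
        rcases mul_eq_zero.mp h2 with h3 | h3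
        · exact absurd h3 (pow_ne_zero _ hμ0')
        · exact h3
      · intro ψ hψ
        rw [Finset.mem_filter] at hψ ⊢
        refine ⟨hψ.1, fun h0 => hψ.2 ?_⟩
        have h1 := congrArg (ev (Q k) ψ) hy
        rw [map_sub, map_mul, map_mul, map_mul, map_mul, map_natCast, ev_dd, ev_dd, htev, h0,
          mul_zero, map_zero, mul_zero, zero_mul, sub_zero] at h1
        rcases mul_eq_zero.mp h1.symm with h3 | h3
        · exact absurd h3 (Finset.mem_filter.mp hψ.1).2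
        · exact h3
    rw [hy0, mul_zero] at hy
    exact d_eq_zero (dd O D) hm0 ht0 hu hy
  obtain ⟨u₀, hu₀⟩ := mem_of_dd mem_range_Q u hdu
  exact ⟨t, ht0, u₀, by rw [hu, hu₀]⟩

end Main

end Rigid

/-- M4 (Rigid.lean): ultrapower and rigidity. -/
theorem finite_of_cert {k O : Type*} [Field k] [IsAlgClosed k] [CharZero k] [CommRing O]
    [IsDomain O] [Algebra k O] {deg : O → ℕ} (h : DegFun k O deg) (ℓ : ℕ) (hℓ : ℓ ≠ 0) (N : ℕ)
    (S : Set O) (hS : ∀ m ∈ S, Cert deg ℓ N m)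
    (hind : ∀ m ∈ S, ∀ m' ∈ S, (∃ w z : O, w ≠ 0 ∧ z ≠ 0 ∧ m * w ^ ℓ = m' * z ^ ℓ) → m = m') :
    S.Finite := by
  obtain ⟨l, rfl⟩ := Nat.exists_eq_succ_of_ne_zero hℓ
  by_contra hinf
  have hinf : S.Infinite := hinf
  let m : ℕ → O := fun n => (hinf.natEmbedding S n : O)
  have hmS : ∀ n, m n ∈ S := fun n => (hinf.natEmbedding S n).2
  have hminj : Function.Injective m :=
    Subtype.val_injective.comp (hinf.natEmbedding S).injective
  choose hm0 hmN α β f₁ f₂ u₁ u₂ h₁ h₂ y₁ y₂ hα0 hdeg hrel using fun n => hS (m n) (hmS n)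
  obtain ⟨m', hm', em⟩ := Rigid.exists_lift h (x := m) (Filter.Eventually.of_forall hmN)
  obtain ⟨α', hα', eα⟩ := Rigid.exists_lift h (x := α)
    (Filter.Eventually.of_forall fun n => (hdeg n).1)
  obtain ⟨β', hβ', eβ⟩ := Rigid.exists_lift h (x := β)
    (Filter.Eventually.of_forall fun n => (hdeg n).2.1)
  obtain ⟨f₁', hf₁', ef₁⟩ := Rigid.exists_lift h (x := f₁)
    (Filter.Eventually.of_forall fun n => (hdeg n).2.2.1)
  obtain ⟨f₂', hf₂', ef₂⟩ := Rigid.exists_lift h (x := f₂)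
    (Filter.Eventually.of_forall fun n => (hdeg n).2.2.2.1)
  obtain ⟨u₁', hu₁', eu₁⟩ := Rigid.exists_lift h (x := u₁)
    (Filter.Eventually.of_forall fun n => (hdeg n).2.2.2.2.1)
  obtain ⟨u₂', hu₂', eu₂⟩ := Rigid.exists_lift h (x := u₂)
    (Filter.Eventually.of_forall fun n => (hdeg n).2.2.2.2.2.1)
  obtain ⟨h₁', hh₁', eh₁⟩ := Rigid.exists_lift h (x := h₁)
    (Filter.Eventually.of_forall fun n => (hdeg n).2.2.2.2.2.2.1)
  obtain ⟨h₂', hh₂', eh₂⟩ := Rigid.exists_lift h (x := h₂)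
    (Filter.Eventually.of_forall fun n => (hdeg n).2.2.2.2.2.2.2.1)
  obtain ⟨y₁', hy₁', ey₁⟩ := Rigid.exists_lift h (x := y₁)
    (Filter.Eventually.of_forall fun n => (hdeg n).2.2.2.2.2.2.2.2.1)
  obtain ⟨y₂', hy₂', ey₂⟩ := Rigid.exists_lift h (x := y₂)
    (Filter.Eventually.of_forall fun n => (hdeg n).2.2.2.2.2.2.2.2.2)
  have hc : CertRel (l + 1) m' α' β' f₁' f₂' u₁' u₂' h₁' h₂' y₁' y₂' := by
    constructor <;> apply Rigid.Phi_inj
    · rw [map_add, map_one, ef₁, ef₂, Rigid.cl_add, Rigid.cl_one]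
      exact congrArg _ (funext fun n => (hrel n).f)
    · rw [map_pow, map_mul, eα, em, eu₁, Rigid.cl_mul, Rigid.cl_pow]
      exact congrArg _ (funext fun n => (hrel n).a)
    · rw [map_pow, map_mul, eβ, em, eu₂, Rigid.cl_mul, Rigid.cl_pow]
      exact congrArg _ (funext fun n => (hrel n).b)
    · rw [map_pow, map_mul, ef₁, eu₁, eh₁, Rigid.cl_mul, Rigid.cl_pow]
      exact congrArg _ (funext fun n => (hrel n).fa)
    · rw [map_pow, map_mul, ef₂, eu₂, eh₂, Rigid.cl_mul, Rigid.cl_pow]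
      exact congrArg _ (funext fun n => (hrel n).fb)
    · rw [map_mul, map_mul, ef₁, eβ, eα, ey₁, Rigid.cl_mul, Rigid.cl_mul]
      exact congrArg _ (funext fun n => (hrel n).ab)
    · rw [map_mul, map_mul, ef₂, eβ, eα, ey₂, Rigid.cl_mul, Rigid.cl_mul]
      exact congrArg _ (funext fun n => (hrel n).ba)
  have hne : ∀ (x : ℕ → O) (x' : Rigid.Q k ⊗[k] O), Rigid.Phi k O x' = Rigid.cl x →
      (∀ n, x n ≠ 0) → x' ≠ 0 := by
    rintro x x' hx hx0 rfl
    rw [map_zero, eq_comm, Rigid.cl_eq_zero] at hx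
    obtain ⟨n, hn⟩ := hx.exists
    exact hx0 n hn
  obtain ⟨s, hs0, u₀, hsu⟩ := Rigid.exists_rigid h l N (hne m m' em hm0) (hne α α' eα hα0)
    hm' hα' hc
  obtain ⟨x, hx⟩ := Rigid.cl_surj (Rigid.Phi k O s)
  have h1 : ∀ᶠ n in (Rigid.U : Filter ℕ), x n ≠ 0 := by
    rw [Ultrafilter.eventually_not]
    intro h2
    apply hs0
    apply Rigid.Phi_inj
    rw [map_zero, ← hx, Rigid.cl_eq_zero]
    exact h2
  have h2 : ∀ᶠ n in (Rigid.U : Filter ℕ), x n ^ (l + 1) = m n * u₀ := by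
    have h3 := congrArg (Rigid.Phi k O) hsu
    have h4 : Rigid.Phi k O ((1 : Rigid.Q k) ⊗ₜ u₀) = Rigid.cl (fun _ => u₀) := by
      rw [Rigid.cl_one, Rigid.Phi_tmul]
      simp only [one_smul]
    rw [map_pow, map_mul, ← hx, em, h4, Rigid.cl_mul, Rigid.cl_pow, Rigid.cl_eq] at h3
    exact h3
  have h3 : {n | x n ≠ 0 ∧ x n ^ (l + 1) = m n * u₀} ∈ (Rigid.U : Filter ℕ) := h1.and h2
  have h4 : {n | x n ≠ 0 ∧ x n ^ (l + 1) = m n * u₀}.Infinite := by
    intro hfin
    exact (Set.Finite.notMem_hyperfilter hfin) h3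
  obtain ⟨a, ⟨ha0, ha⟩⟩ := h4.nonempty
  obtain ⟨b, ⟨hb0, hb⟩, hab⟩ := h4.exists_gt a
  apply hab.ne'
  apply hminj
  refine hind _ (hmS b) _ (hmS a) ⟨x a, x b, ha0, hb0, ?_⟩
  rw [ha, hb]
  ring

end Pool.Agent.MP1bdb59C
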