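import Mathlib
import Pool.Agent.MP1bdb59C.Val
import Pool.Agent.MP1bdb59C.DegBasic
import Pool.Agent.MP1bdb59C.Cert
import Pool.Agent.MP1bdb59C.Rigid
import Pool.Agent.MP1bdb59C.OnePoint
import Pool.Agent.MP1bdb59C.SameField2
import Pool.Agent.MP1bdb59C.Kum

/-!
# Finiteness of the `ℓ`-Selmer group of a function field, modulo constants
-/

open Polynomial IsDedekindDomain

noncomputable section

open scoped Classical WithZero

namespace Pool.Agent.MP1bdb59C

section Classes

variable {O : Type*} [CommRing O] [IsDomain O]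

/-- Equality modulo `ℓ`-th powers. -/
def RelPow (ℓ : ℕ) (m m' : O) : Prop := ∃ w z : O, w ≠ 0 ∧ z ≠ 0 ∧ m * w ^ ℓ = m' * z ^ ℓ

omit [IsDomain O] in
lemma RelPow.symm {ℓ : ℕ} {m m' : O} (h : RelPow ℓ m m') : RelPow ℓ m' m := by
  obtain ⟨w, z, hw, hz, h⟩ := h
  exact ⟨z, w, hz, hw, h.symm⟩

lemma RelPow.trans {ℓ : ℕ} {m m' m'' : O} (h : RelPow ℓ m m') (h' : RelPow ℓ m' m'') :
    RelPow ℓ m m'' := by
  obtain ⟨w, z, hw, hz, h⟩ := h
  obtain ⟨w', z', hw', hz', h'⟩ := h'
  refine ⟨w * w', z * z', mul_ne_zero hw hw', mul_ne_zero hz hz', ?_⟩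
  rw [mul_pow, mul_pow]
  linear_combination w' ^ ℓ * h + z ^ ℓ * h'

lemma relPow_refl (ℓ : ℕ) (m : O) : RelPow ℓ m m := ⟨1, 1, one_ne_zero, one_ne_zero, rfl⟩

/-- The equivalence relation. -/
def relPowSetoid (O : Type*) [CommRing O] [IsDomain O] (ℓ : ℕ) : Setoid O where
  r := RelPow ℓ
  iseqv := ⟨relPow_refl ℓ, RelPow.symm, RelPow.trans⟩

variable {k L : Type*} [Field k] [IsAlgClosed k] [CharZero k] {O : Type*} [CommRing O]
  [IsDedekindDomain O] [Algebra k O] [Field L] [Algebra O L] [IsFractionRing O L]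

/-- Finiteness for a ring of functions with poles at one point. -/
theorem finite_classes {deg : O → ℕ} (h : DegFun k O deg) {ℓ : ℕ} (hℓ : ℓ ≠ 0) :
    ∃ F : Finset L, ∀ m : L, m ≠ 0 →
      (∀ Q : HeightOneSpectrum O, ∃ z : ℤᵐ⁰, Q.valuation L m = z ^ ℓ) →
      ∃ g ∈ F, ∃ z : L, z ≠ 0 ∧ m = g * z ^ ℓ := by
  obtain ⟨N, hN⟩ := exists_cert h ℓ hℓ
  let s := relPowSetoid O ℓ
  let Φ : Quotient s → O := fun q =>
    if hq : ∃ m', Cert deg ℓ N m' ∧ Quotient.mk s m' = q then hq.choose else 0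
  have hΦ : ∀ q, (∃ m', Cert deg ℓ N m' ∧ Quotient.mk s m' = q) →
      Cert deg ℓ N (Φ q) ∧ Quotient.mk s (Φ q) = q := by
    intro q hq
    have h1 : Φ q = hq.choose := dif_pos hq
    rw [h1]
    exact hq.choose_spec
  set S : Set O := {m | Cert deg ℓ N m ∧ Φ (Quotient.mk s m) = m} with hS
  have hSfin : S.Finite := by
    apply finite_of_cert h ℓ hℓ N S (fun m hm => hm.1)
    intro m hm m' hm' hrel
    have h1 : Quotient.mk s m = Quotient.mk s m' := Quotient.sound hrel
    rw [← hm.2, ← hm'.2, h1]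
  refine ⟨hSfin.toFinset.image (algebraMap O L), fun m hm hval => ?_⟩
  -- clear the denominator
  obtain ⟨a, b, hb, rfl⟩ := IsFractionRing.div_surjective O m
  have hb0 : b ≠ 0 := nonZeroDivisors.ne_zero hb
  have hbL : algebraMap O L b ≠ 0 := by rwa [Ne, IsFractionRing.to_map_eq_zero_iff]
  have ha0 : a ≠ 0 := by
    rintro rfl
    rw [map_zero, zero_div] at hm
    exact hm rfl
  have hpow : algebraMap O L (a * b ^ (ℓ - 1)) =
      (algebraMap O L a / algebraMap O L b) * (algebraMap O L b) ^ ℓ := by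
    obtain ⟨ℓ', rfl⟩ := Nat.exists_eq_succ_of_ne_zero hℓ
    rw [Nat.succ_sub_one, map_mul, map_pow, pow_succ]
    field_simp
  have hideal : ∃ E : Ideal O, Ideal.span {a * b ^ (ℓ - 1)} = E ^ ℓ := by
    have hx : a * b ^ (ℓ - 1) ≠ 0 := mul_ne_zero ha0 (pow_ne_zero _ hb0)
    have hv : ∀ P : HeightOneSpectrum O, ∃ z : ℤᵐ⁰,
        P.valuation L (algebraMap O L (a * b ^ (ℓ - 1))) = z ^ ℓ := by
      intro P
      obtain ⟨z, hz⟩ := hval P
      exact ⟨z * P.valuation L (algebraMap O L b), by rw [hpow, map_mul, map_pow, hz, mul_pow]⟩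
    obtain ⟨I, -, hI⟩ := exists_ideal_pow hℓ hx (fun P => by
      obtain ⟨z, hz⟩ := hv P
      exact ⟨z, by rw [← hz, HeightOneSpectrum.valuation_of_algebraMap]⟩)
    exact ⟨I, hI⟩
  obtain ⟨m', w, z, hw, hz, hrel, hcert⟩ := hN _ (mul_ne_zero ha0 (pow_ne_zero _ hb0)) hideal
  obtain ⟨hc1, hc2⟩ := hΦ (Quotient.mk s m') ⟨m', hcert, rfl⟩
  obtain ⟨w', z', hw', hz', hrel'⟩ : RelPow ℓ (Φ (Quotient.mk s m')) m' := Quotient.exact hc2
  refine ⟨algebraMap O L (Φ (Quotient.mk s m')), ?_, ?_⟩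
  · rw [Finset.mem_image]
    refine ⟨_, ?_, rfl⟩
    rw [Set.Finite.mem_toFinset]
    exact ⟨hc1, by rw [hc2]⟩
  · have hwL : algebraMap O L w ≠ 0 := by rwa [Ne, IsFractionRing.to_map_eq_zero_iff]
    have hzL : algebraMap O L z ≠ 0 := by rwa [Ne, IsFractionRing.to_map_eq_zero_iff]
    have hwL' : algebraMap O L w' ≠ 0 := by rwa [Ne, IsFractionRing.to_map_eq_zero_iff]
    have hzL' : algebraMap O L z' ≠ 0 := by rwa [Ne, IsFractionRing.to_map_eq_zero_iff]
    have e1 := congrArg (algebraMap O L) hrel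
    have e2 := congrArg (algebraMap O L) hrel'
    rw [map_mul (algebraMap O L) (a * b ^ (ℓ - 1)) _, hpow, map_mul, map_pow, map_pow] at e1
    rw [map_mul, map_mul, map_pow, map_pow] at e2
    refine ⟨(algebraMap O L w' * algebraMap O L z) /
      (algebraMap O L z' * algebraMap O L w * algebraMap O L b),
      div_ne_zero (mul_ne_zero hwL' hzL) (mul_ne_zero (mul_ne_zero hzL' hwL) hbL), ?_⟩
    rw [div_pow, mul_pow, mul_pow, mul_pow, ← mul_div_assoc,
      eq_div_iff (mul_ne_zero (mul_ne_zero (pow_ne_zero _ hzL') (pow_ne_zero _ hwL))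
        (pow_ne_zero _ hbL))]
    linear_combination (algebraMap O L z') ^ ℓ * e1 - (algebraMap O L z) ^ ℓ * e2

end Classes

/-- Finitely many representatives. -/
lemma exists_finset_reps {L α : Type*} (V : Set L) (A : Set α) (hA : A.Finite) (P : L → α → Prop)
    (R : L → L → Prop) (h1 : ∀ m ∈ V, ∃ a ∈ A, P m a)
    (h2 : ∀ m ∈ V, ∀ m' ∈ V, ∀ a ∈ A, P m a → P m' a → R m m') :
    ∃ G : Finset L, (∀ g ∈ G, g ∈ V) ∧ ∀ m ∈ V, ∃ g ∈ G, R m g := by
  classical
  rcases V.eq_empty_or_nonempty with hV | ⟨v₀, -⟩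
  · subst hV
    exact ⟨∅, by simp, by simp⟩
  have hne : Nonempty L := ⟨v₀⟩
  let A' : Set α := {a | a ∈ A ∧ ∃ m ∈ V, P m a}
  have hA' : A'.Finite := hA.subset (fun a ha => ha.1)
  have hc : ∀ a ∈ A', ∃ m ∈ V, P m a := fun a ha => ha.2
  choose! c hcV hcP using hc
  refine ⟨hA'.toFinset.image c, ?_, ?_⟩
  · intro g hg
    rw [Finset.mem_image] at hg
    obtain ⟨a, ha, rfl⟩ := hg
    exact hcV a (hA'.mem_toFinset.mp ha)
  · intro m hm
    obtain ⟨a, ha, hP⟩ := h1 m hm
    have ha' : a ∈ A' := ⟨ha, m, hm, hP⟩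
    exact ⟨c a, Finset.mem_image_of_mem c (hA'.mem_toFinset.mpr ha'),
      h2 m hm (c a) (hcV a ha') a ha hP (hcP a ha')⟩

/-- Two values congruent modulo `ℓ` differ by an `ℓ`-th power. -/
lemma exists_pow_of_log {ℓ : ℕ} {x y : ℤᵐ⁰} (hx : x ≠ 0) (hy : y ≠ 0)
    (h : ((WithZero.log x : ℤ) : ZMod ℓ) = ((WithZero.log y : ℤ) : ZMod ℓ)) :
    ∃ z : ℤᵐ⁰, x / y = z ^ ℓ := by
  have h1 : (((WithZero.log x - WithZero.log y : ℤ)) : ZMod ℓ) = 0 := by
    rw [Int.cast_sub, h, sub_self]
  rw [ZMod.intCast_zmod_eq_zero_iff_dvd] at h1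
  obtain ⟨t, ht⟩ := h1
  refine ⟨WithZero.exp t, ?_⟩
  rw [← WithZero.exp_log (div_ne_zero hx hy), WithZero.log_div hx hy, ht, ← WithZero.exp_nsmul,
    nsmul_eq_mul]

/-- Finiteness modulo `ℓ`-th powers of a larger field, for a function field over an algebraically
closed field. -/
theorem finite_mod_pow {k F O L E : Type*} [Field k] [Field F] [IsAlgClosed F] [CharZero F]
    [CommRing O] [IsDedekindDomain O] [Field L] [Algebra O L] [IsFractionRing O L]
    [Algebra k[X] O] [Field E] [Algebra L E] [Algebra.IsAlgebraic L E] [Algebra F[X] E]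
    [Algebra (RatFunc F) E] [IsScalarTower F[X] (RatFunc F) E] [FiniteDimensional (RatFunc F) E]
    [Algebra F E] [IsScalarTower F F[X] E]
    (hC : ∀ c : k, ∃ c' : F,
      algebraMap L E (algebraMap O L (algebraMap k[X] O (C c))) = algebraMap F E c')
    (s : k[X]) (hs : algebraMap k[X] O s ≠ 0)
    (hint : ∀ a : O, ∃ N : ℕ, IsIntegral k[X] (algebraMap k[X] O s ^ N * a))
    {ℓ : ℕ} (hℓ : ℓ ≠ 0) :
    ∃ G : Finset L, (∀ g ∈ G, g ≠ 0) ∧ ∀ m : L, m ≠ 0 →
      (∀ P : HeightOneSpectrum O, ∃ z : ℤᵐ⁰, P.valuation L m = z ^ ℓ) →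
      ∃ g ∈ G, ∃ z : E, z ≠ 0 ∧ algebraMap L E m = algebraMap L E g * z ^ ℓ := by
  obtain ⟨O₀, deg, hfr, hic, hdeg⟩ := exists_onePoint (k := F) (L := E)
  have hDed : IsDedekindDomain O₀ := hdeg.isDedekindDomain
  obtain ⟨Fs, hFs⟩ := finite_classes (L := E) hdeg hℓ
  -- the bad primes
  set φ : O →+* E := (algebraMap L E).comp (algebraMap O L) with hφ
  have hφinj : Function.Injective φ :=
    (algebraMap L E).injective.comp (IsFractionRing.injective O L)
  have hφs : φ (algebraMap k[X] O s) ≠ 0 := by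
    rwa [Ne, map_eq_zero_iff _ hφinj]
  set T : Set (HeightOneSpectrum O₀) :=
    HeightOneSpectrum.Support O₀ (φ (algebraMap k[X] O X)) ∪
      HeightOneSpectrum.Support O₀ (φ (algebraMap k[X] O s))⁻¹ with hT
  have hTfin : T.Finite :=
    (HeightOneSpectrum.Support.finite O₀ _).union (HeightOneSpectrum.Support.finite O₀ _)
  have hgood : ∀ Q : HeightOneSpectrum O₀, Q ∉ T → ∀ a : O, Q.valuation E (φ a) ≤ 1 := by
    intro Q hQ a
    rw [hT, Set.mem_union, not_or] at hQ
    have hQX : Q.valuation E (φ (algebraMap k[X] O X)) ≤ 1 := not_lt.mp hQ.1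
    have hQs : Q.valuation E (φ (algebraMap k[X] O s))⁻¹ ≤ 1 := not_lt.mp hQ.2
    have hpol : ∀ p : k[X], Q.valuation E (φ (algebraMap k[X] O p)) ≤ 1 := by
      intro p
      induction p using Polynomial.induction_on' with
      | add p q hp hq =>
        rw [map_add, map_add]
        exact (Valuation.map_add_le _ hp hq)
      | monomial n c =>
        rw [← C_mul_X_pow_eq_monomial, map_mul, map_mul, map_mul, map_pow, map_pow, map_pow]
        refine mul_le_one' ?_ (pow_le_one' hQX n)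
        obtain ⟨c', hc'⟩ := hC c
        have h1 : φ (algebraMap k[X] O (C c)) = algebraMap O₀ E (algebraMap F O₀ c') := by
          rw [hφ, RingHom.comp_apply, hc']
          rfl
        rw [h1]
        exact Q.valuation_le_one _
    obtain ⟨N, hN⟩ := hint a
    have hint2 : Q.valuation E (φ (algebraMap k[X] O s ^ N * a)) ≤ 1 := by
      obtain ⟨p, hp, hp0⟩ := hN
      let f : k[X] →+* (Q.valuation E).integer :=
        { toFun := fun x => ⟨φ (algebraMap k[X] O x), hpol x⟩
          map_one' := by ext; simp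
          map_mul' := by intro x y; ext; simp
          map_zero' := by ext; simp
          map_add' := by intro x y; ext; simp }
      have h2 : IsIntegral (Q.valuation E).integer (φ (algebraMap k[X] O s ^ N * a)) := by
        refine ⟨p.map f, hp.map f, ?_⟩
        rw [eval₂_map]
        have : (algebraMap (Q.valuation E).integer E).comp f = φ.comp (algebraMap k[X] O) := by
          ext x <;> rfl
        rw [this, ← Polynomial.hom_eval₂, hp0, map_zero]
      exact (Valuation.integer.integers (Q.valuation E)).mem_of_integral h2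
    rw [map_mul, map_pow, map_mul, map_pow] at hint2
    have h3 : Q.valuation E (φ a) =
        (Q.valuation E (φ (algebraMap k[X] O s))⁻¹) ^ N *
          (Q.valuation E (φ (algebraMap k[X] O s)) ^ N * Q.valuation E (φ a)) := by
      rw [← mul_assoc, ← mul_pow, ← map_mul, inv_mul_cancel₀ hφs, map_one, one_pow, one_mul]
    rw [h3]
    exact mul_le_one' (pow_le_one' hQs N) hint2
  -- the set of elements
  set V : Set L := {m | m ≠ 0 ∧
    ∀ P : HeightOneSpectrum O, ∃ z : ℤᵐ⁰, P.valuation L m = z ^ ℓ} with hV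
  have hVgood : ∀ m ∈ V, ∀ Q : HeightOneSpectrum O₀, Q ∉ T → ∃ z : ℤᵐ⁰,
      Q.valuation E (algebraMap L E m) = z ^ ℓ := fun m hm Q hQ =>
    isPow_of_valuation_le (O := O) Q (hgood Q hQ) ℓ m hm.1 hm.2
  have hVne : ∀ m ∈ V, ∀ Q : HeightOneSpectrum O₀, Q.valuation E (algebraMap L E m) ≠ 0 := by
    intro m hm Q
    rw [Valuation.ne_zero_iff]
    exact (_root_.map_ne_zero _).mpr hm.1
  have : NeZero ℓ := ⟨hℓ⟩
  have : Finite T := hTfin
  obtain ⟨G₁, hG₁V, hG₁⟩ := exists_finset_reps V (Set.univ : Set (T → ZMod ℓ)) Set.finite_univ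
    (fun m a => ∀ Q : T, ((WithZero.log (Q.1.valuation E (algebraMap L E m)) : ℤ) : ZMod ℓ) = a Q)
    (fun m g => ∀ Q : HeightOneSpectrum O₀, ∃ z : ℤᵐ⁰,
      Q.valuation E (algebraMap L E m / algebraMap L E g) = z ^ ℓ)
    (fun m hm => ⟨_, Set.mem_univ _, fun Q => rfl⟩)
    (by
      intro m hm m' hm' a _ h1 h2 Q
      rw [map_div₀]
      by_cases hQ : Q ∈ T
      · exact exists_pow_of_log (hVne m hm Q) (hVne m' hm' Q)
          ((h1 ⟨Q, hQ⟩).trans (h2 ⟨Q, hQ⟩).symm)
      · obtain ⟨z, hz⟩ := hVgood m hm Q hQ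
        obtain ⟨z', hz'⟩ := hVgood m' hm' Q hQ
        exact ⟨z / z', by rw [hz, hz', div_pow]⟩)
  obtain ⟨G, hGV, hG⟩ := exists_finset_reps V ((G₁ ×ˢ Fs : Finset (L × E)) : Set (L × E))
    (Finset.finite_toSet _)
    (fun m a => ∃ z : E, z ≠ 0 ∧ algebraMap L E m = algebraMap L E a.1 * a.2 * z ^ ℓ)
    (fun m g => ∃ z : E, z ≠ 0 ∧ algebraMap L E m = algebraMap L E g * z ^ ℓ)
    (by
      intro m hm
      obtain ⟨g, hg, hmg⟩ := hG₁ m hm
      have hg0 : algebraMap L E g ≠ 0 := (_root_.map_ne_zero _).mpr (hG₁V g hg).1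
      have hm0 : algebraMap L E m ≠ 0 := (_root_.map_ne_zero _).mpr hm.1
      obtain ⟨g', hg', z, hz, h⟩ := hFs (algebraMap L E m / algebraMap L E g)
        (div_ne_zero hm0 hg0) hmg
      refine ⟨(g, g'), ?_, z, hz, ?_⟩
      · rw [Finset.coe_product]
        exact ⟨hg, hg'⟩
      · rw [div_eq_iff hg0] at h
        rw [h]
        ring)
    (by
      rintro m hm m' hm' ⟨g, g'⟩ - ⟨z, hz, h⟩ ⟨z', hz', h'⟩
      refine ⟨z / z', div_ne_zero hz hz', ?_⟩
      rw [h, h', div_pow]
      field_simp)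
  exact ⟨G, fun g hg => (hGV g hg).1, fun m hm0 hm => hG m ⟨hm0, hm⟩⟩

section Extend

variable {k L Ω F : Type*} [Field k] [Field L] [Field Ω] [Field F] [Algebra L Ω] [Algebra k F]
  [Algebra F[X] Ω] [Algebra (RatFunc F) Ω] [IsScalarTower F[X] (RatFunc F) Ω] [Algebra F Ω]
  [IsScalarTower F F[X] Ω] [Algebra k[X] L] [Algebra (RatFunc k) L]
  [IsScalarTower k[X] (RatFunc k) L]

/-- A Galois type compositum. -/
theorem exists_compositum [FiniteDimensional (RatFunc k) L]
    (hcompat : (algebraMap F[X] Ω).comp (mapRingHom (algebraMap k F)) =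
      (algebraMap L Ω).comp (algebraMap k[X] L)) :
    ∃ E : IntermediateField (RatFunc F) Ω, FiniteDimensional (RatFunc F) E ∧
      (∀ l : L, algebraMap L Ω l ∈ E) ∧
      ∀ z : Ω, z ∈ E → z ∈ IntermediateField.adjoin L (Set.range (algebraMap F Ω)) := by
  set b := Module.finBasis (RatFunc k) L with hb
  set S : Set Ω := Set.range (fun i => algebraMap L Ω (b i)) with hS
  have hcompat' : ∀ p : k[X], algebraMap L Ω (algebraMap k[X] L p) =
      algebraMap F[X] Ω (p.map (algebraMap k F)) := fun p => (RingHom.congr_fun hcompat p).symm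
  have hint : ∀ l : L, IsIntegral (RatFunc F) (algebraMap L Ω l) := by
    intro l
    have h1 : IsAlgebraic (RatFunc k) l := Algebra.IsAlgebraic.isAlgebraic l
    have h2 : IsAlgebraic k[X] l := (IsFractionRing.isAlgebraic_iff k[X] (RatFunc k) L).mpr h1
    have h3 : IsAlgebraic F[X] (algebraMap L Ω l) :=
      h2.ringHom_of_comp_eq (mapRingHom (algebraMap k F)) (algebraMap L Ω)
        (map_injective _ (algebraMap k F).injective) hcompat
    exact ((IsFractionRing.isAlgebraic_iff F[X] (RatFunc F) Ω).mp h3).isIntegral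
  refine ⟨IntermediateField.adjoin (RatFunc F) S, ?_, ?_, ?_⟩
  · have : Finite S := Set.finite_range _
    apply IntermediateField.finiteDimensional_adjoin
    rintro x ⟨i, rfl⟩
    exact hint _
  · have h1 : ∀ r : RatFunc k, algebraMap L Ω (algebraMap (RatFunc k) L r) ∈
        IntermediateField.adjoin (RatFunc F) S := by
      intro r
      obtain ⟨p, q, -, rfl⟩ := IsFractionRing.div_surjective k[X] r
      rw [map_div₀, map_div₀, ← IsScalarTower.algebraMap_apply k[X] (RatFunc k) L,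
        ← IsScalarTower.algebraMap_apply k[X] (RatFunc k) L, hcompat', hcompat', IsScalarTower.algebraMap_apply F[X] (RatFunc F) Ω,
        IsScalarTower.algebraMap_apply F[X] (RatFunc F) Ω]
      exact div_mem (IntermediateField.algebraMap_mem _ _) (IntermediateField.algebraMap_mem _ _)
    intro l
    rw [← b.sum_repr l, map_sum]
    refine sum_mem fun i _ => ?_
    rw [Algebra.smul_def, map_mul]
    exact mul_mem (h1 _) (IntermediateField.subset_adjoin _ _ ⟨i, rfl⟩)
  · intro z hz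
    have hle : (IntermediateField.adjoin (RatFunc F) S).toSubfield ≤
        (IntermediateField.adjoin L (Set.range (algebraMap F Ω))).toSubfield := by
      apply IntermediateField.adjoin_le_subfield
      · rintro _ ⟨r, rfl⟩
        have h2 : ∀ p : F[X], algebraMap F[X] Ω p ∈
            (IntermediateField.adjoin L (Set.range (algebraMap F Ω))).toSubfield := by
          intro p
          induction p using Polynomial.induction_on' with
          | add p q hp hq => rw [map_add]; exact add_mem hp hq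
          | monomial n c =>
            rw [← C_mul_X_pow_eq_monomial, map_mul, map_pow]
            refine mul_mem ?_ (pow_mem ?_ _)
            · rw [← Polynomial.algebraMap_eq, ← IsScalarTower.algebraMap_apply]
              exact IntermediateField.subset_adjoin _ _ ⟨c, rfl⟩
            · have h3 := hcompat' X
              rw [Polynomial.map_X] at h3
              rw [← h3]
              exact IntermediateField.algebraMap_mem _ _
        obtain ⟨p, q, -, rfl⟩ := IsFractionRing.div_surjective F[X] r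
        rw [map_div₀, ← IsScalarTower.algebraMap_apply, ← IsScalarTower.algebraMap_apply]
        exact div_mem (h2 _) (h2 _)
      · rintro _ ⟨i, rfl⟩
        exact IntermediateField.algebraMap_mem _ _
    exact hle hz

end Extend

section Final

variable {k O L : Type*} [Field k] [CharZero k] [CommRing O] [IsDedekindDomain O]
    [Field L] [Algebra O L] [IsFractionRing O L] [Algebra k[X] O] [Algebra k[X] L]
    [IsScalarTower k[X] O L] [Algebra k L]
    [IsScalarTower k k[X] L] [Algebra (RatFunc k) L] [IsScalarTower k[X] (RatFunc k) L]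
    [FiniteDimensional (RatFunc k) L]

theorem finite_selmer_aux {Ω F : Type*} [Field Ω] [Field F] [IsAlgClosed Ω] [IsAlgClosed F]
    [CharZero F] [Algebra L Ω] [Algebra.IsAlgebraic L Ω] [Algebra k F] [Algebra k Ω]
    [IsScalarTower k L Ω]
    [Algebra F[X] Ω] [Algebra (RatFunc F) Ω] [IsScalarTower F[X] (RatFunc F) Ω] [Algebra F Ω]
    [IsScalarTower F F[X] Ω]
    (hcompat : (algebraMap F[X] Ω).comp (mapRingHom (algebraMap k F)) =
      (algebraMap L Ω).comp (algebraMap k[X] L))
    (hF : Set.range (algebraMap F Ω) = (algebraicClosure k Ω : Set Ω))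
    (s : k[X]) (hs : s ≠ 0)
    (hint : ∀ a : O, ∃ N : ℕ, IsIntegral k[X] (algebraMap k[X] O s ^ N * a))
    (hreg : ∀ x : L, IsAlgebraic k x → x ∈ Set.range (algebraMap k L))
    {ℓ : ℕ} [hp : Fact ℓ.Prime] {ζ : k} (hζ : IsPrimitiveRoot ζ ℓ) :
    ∃ M : Finset L, ∀ m : L, m ≠ 0 →
      (∀ P : HeightOneSpectrum O, ∃ z : ℤᵐ⁰, P.valuation L m = z ^ ℓ) →
      ∃ m₀ ∈ M, ∃ (c : k) (z : L), c ≠ 0 ∧ z ≠ 0 ∧ m = algebraMap k L c * m₀ * z ^ ℓ := by
  obtain ⟨E, hE1, hE2, hE3⟩ := exists_compositum hcompat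
  let _ : Algebra L E := (RingHom.codRestrict (algebraMap L Ω) E hE2).toAlgebra
  have : IsScalarTower L E Ω := IsScalarTower.of_algebraMap_eq (fun x => rfl)
  have : Algebra.IsAlgebraic L E := Algebra.IsAlgebraic.tower_bot L E Ω
  have t0 : IsScalarTower F (RatFunc F) Ω := IsScalarTower.of_algebraMap_eq (fun c => by
    rw [IsScalarTower.algebraMap_apply F F[X] (RatFunc F),
      ← IsScalarTower.algebraMap_apply F[X] (RatFunc F) Ω,
      ← IsScalarTower.algebraMap_apply F F[X] Ω])
  have t0' : IsScalarTower F F[X] E := IsScalarTower.of_algebraMap_eq (fun c => by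
    apply Subtype.coe_injective
    exact IsScalarTower.algebraMap_apply F F[X] Ω c)
  have hinjL : Function.Injective (algebraMap k[X] L) := by
    rw [IsScalarTower.algebraMap_eq k[X] (RatFunc k) L]
    exact (algebraMap (RatFunc k) L).injective.comp (IsFractionRing.injective k[X] (RatFunc k))
  have hs' : algebraMap k[X] O s ≠ 0 := by
    intro h0
    apply hs
    apply hinjL
    rw [IsScalarTower.algebraMap_apply k[X] O L, h0, map_zero, map_zero]
  obtain ⟨G, hG0, hG⟩ := finite_mod_pow (k := k) (F := F) (O := O) (L := L) (E := E) (by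
    intro c
    refine ⟨algebraMap k F c, ?_⟩
    apply Subtype.coe_injective
    have h1 := RingHom.congr_fun hcompat (C c)
    simp only [RingHom.comp_apply, coe_mapRingHom, Polynomial.map_C] at h1
    rw [← IsScalarTower.algebraMap_apply k[X] O L]
    change algebraMap L Ω (algebraMap k[X] L (C c)) = algebraMap F Ω (algebraMap k F c)
    rw [← h1, ← Polynomial.algebraMap_eq, ← IsScalarTower.algebraMap_apply F F[X] Ω])
    s hs' hint hp.out.ne_zero
  refine ⟨G, fun m hm hmv => ?_⟩
  obtain ⟨g, hg, z, hz, hmz⟩ := hG m hm hmv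
  have hg0 := hG0 g hg
  have hz2 : (z : Ω) ^ ℓ = algebraMap L Ω (m / g) := by
    have h1 := congrArg (algebraMap E Ω) hmz
    rw [map_mul, map_pow, ← IsScalarTower.algebraMap_apply, ← IsScalarTower.algebraMap_apply] at h1
    have hg0' : algebraMap L Ω g ≠ 0 := (_root_.map_ne_zero _).mpr hg0
    rw [map_div₀, h1, mul_div_cancel_left₀ _ hg0']
    rfl
  obtain ⟨c, l, hc, hl, h⟩ := kummer_descent (Ω := Ω) hreg hζ (m / g) (div_ne_zero hm hg0) z (by
    rw [← hF]
    exact hE3 _ z.2) hz2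
  refine ⟨g, hg, c, l, hc, hl, ?_⟩
  rw [div_eq_iff hg0] at h
  rw [h]
  ring

/-- M6: the `ℓ`-Selmer group of `O` is finite modulo constants. -/
theorem finite_selmer (s : k[X]) (hs : s ≠ 0)
    (hint : ∀ a : O, ∃ N : ℕ, IsIntegral k[X] (algebraMap k[X] O s ^ N * a))
    (hreg : ∀ x : L, IsAlgebraic k x → x ∈ Set.range (algebraMap k L))
    {ℓ : ℕ} [hp : Fact ℓ.Prime] {ζ : k} (hζ : IsPrimitiveRoot ζ ℓ) :
    ∃ M : Finset L, ∀ m : L, m ≠ 0 →
      (∀ P : HeightOneSpectrum O, ∃ z : ℤᵐ⁰, P.valuation L m = z ^ ℓ) →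
      ∃ m₀ ∈ M, ∃ (c : k) (z : L), c ≠ 0 ∧ z ≠ 0 ∧ m = algebraMap k L c * m₀ * z ^ ℓ := by
  let Ω := AlgebraicClosure L
  let F := algebraicClosure k Ω
  set x : Ω := algebraMap L Ω (algebraMap k[X] L X) with hx
  have hinjL : Function.Injective (algebraMap k[X] L) := by
    rw [IsScalarTower.algebraMap_eq k[X] (RatFunc k) L]
    exact (algebraMap (RatFunc k) L).injective.comp (IsFractionRing.injective k[X] (RatFunc k))
  have hxk : Transcendental k x := by
    rw [transcendental_iff]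
    intro p hp
    have h1 : aeval x p = algebraMap L Ω (algebraMap k[X] L p) := by
      rw [hx, aeval_algebraMap_apply, aeval_algebraMap_apply, aeval_X_left_apply]
    rw [h1] at hp
    have h2 := (map_eq_zero (algebraMap L Ω)).mp hp
    exact (map_eq_zero_iff _ hinjL).mp h2
  have hFa : IsAlgClosed F := IsAlgClosure.isAlgClosed k
  have hxF : Transcendental F x := hxk.algebraicClosure
  have hinjF : Function.Injective (aeval x : F[X] →ₐ[F] Ω) := transcendental_iff_injective.mp hxF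
  let a1 : Algebra F[X] Ω := (aeval x : F[X] →ₐ[F] Ω).toRingHom.toAlgebra
  let a2 : Algebra (RatFunc F) Ω :=
    (IsFractionRing.lift (K := RatFunc F) (g := (aeval x : F[X] →ₐ[F] Ω).toRingHom) hinjF).toAlgebra
  have t1 : IsScalarTower F[X] (RatFunc F) Ω := IsScalarTower.of_algebraMap_eq (fun p => by
    exact (IsFractionRing.lift_algebraMap hinjF p).symm)
  have t2 : IsScalarTower F F[X] Ω := IsScalarTower.of_algebraMap_eq (fun c => by
    exact (aeval_C (R := F) x c).symm)
  have hcompat : (algebraMap F[X] Ω).comp (mapRingHom (algebraMap k F)) =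
      (algebraMap L Ω).comp (algebraMap k[X] L) := by
    apply Polynomial.ringHom_ext
    · intro c
      simp only [RingHom.comp_apply, coe_mapRingHom, Polynomial.map_C]
      have h1 : algebraMap k[X] L (C c) = algebraMap k L c := by
        rw [← Polynomial.algebraMap_eq, ← IsScalarTower.algebraMap_apply]
      rw [h1, ← IsScalarTower.algebraMap_apply k L Ω]
      exact aeval_C (R := F) x _
    · simp only [RingHom.comp_apply, coe_mapRingHom, Polynomial.map_X]
      exact aeval_X (R := F) x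
  exact finite_selmer_aux (Ω := Ω) (F := F) hcompat Subtype.range_coe s hs hint hreg hζ

end Final

end Pool.Agent.MP1bdb59C
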