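import Mathlib
import Pool.Agent.MP1bdb59C.GenLoc

/-!
# The local condition at a place where the twist ramifies, general form
-/

open Polynomial

noncomputable section

open scoped Classical WithZero

namespace Pool.Agent.MP1bdb59C

section Res

variable {A F : Type*} [CommRing A] [Field F] {v : Valuation F ℤᵐ⁰}
  [IsDiscreteValuationRing v.valuationSubring] (ι : A →+* F) (hι : ∀ x, v (ι x) ≤ 1)

/-- The homomorphism from `A` to the residue field. -/
def toRes : A →+* IsLocalRing.ResidueField v.valuationSubring :=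
  (IsLocalRing.residue v.valuationSubring).comp (ι.codRestrict v.valuationSubring.toSubring hι)

omit [IsDiscreteValuationRing v.valuationSubring] in
lemma toRes_eq_zero_iff (x : A) : toRes ι hι x = 0 ↔ v (ι x) < 1 := by
  unfold toRes
  rw [RingHom.comp_apply, IsLocalRing.residue_eq_zero_iff, IsLocalRing.mem_maximalIdeal,
    mem_nonunits_iff, isUnit_iff_val_eq_one]
  have h1 : v (ι x) ≤ 1 := hι x
  constructor
  · intro h2
    exact lt_of_le_of_ne h1 h2
  · intro h2 h3
    exact h2.ne h3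

omit [IsDiscreteValuationRing v.valuationSubring] in
lemma toRes_surjective (hres : ∀ r : F, v r ≤ 1 → ∃ x : A, v (r - ι x) < 1) :
    Function.Surjective (toRes ι hι) := by
  intro y
  obtain ⟨r, rfl⟩ := IsLocalRing.residue_surjective y
  obtain ⟨x, hx⟩ := hres r r.2
  refine ⟨x, ?_⟩
  let ιR : A →+* v.valuationSubring := ι.codRestrict v.valuationSubring.toSubring hι
  change IsLocalRing.residue v.valuationSubring (ιR x) = IsLocalRing.residue v.valuationSubring r
  rw [← sub_eq_zero, ← map_sub]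
  rw [IsLocalRing.residue_eq_zero_iff, IsLocalRing.mem_maximalIdeal, mem_nonunits_iff,
    isUnit_iff_val_eq_one]
  intro h1
  have h2 : v ((ιR x - r : v.valuationSubring) : F) = v (r - ι x) := by
    rw [← Valuation.map_neg]
    congr 1
    change -(ι x - (r : F)) = _
    ring
  rw [h2] at h1
  rw [h1] at hx
  exact lt_irrefl _ hx

/-- **The local condition at a twisted place.** Let `F` be a field with a discrete valuation, and
`A → F` a homomorphism to the valuation ring, onto the residue field. If `m = κ c z^ℓ`, with `c` in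
`A[x]/(f)` not vanishing in the residue ring, satisfies the local condition for the twist
`y^ℓ = ϖ^(jn) f(x/ϖ^j)`, where `f` is irreducible in the residue field, then the image of `c` in
the residue ring is the product of a constant and an `ℓ`-th power. -/
theorem res_of_locCond {ϖ : F} (hϖ : v ϖ = WithZero.exp (-1 : ℤ)) {ℓ : ℕ} [hp : Fact ℓ.Prime]
    {f : A[X]} (hf : f.Monic) (hirr : Irreducible (f.map (toRes ι hι)))
    (hsep : (f.map (toRes ι hι)).Separable) (hcop : ¬ ℓ ∣ f.natDegree) {ζ : A}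
    (hζ : IsPrimitiveRoot (toRes ι hι ζ) ℓ) {j : ℕ} (hj : ¬ ℓ ∣ j) {g : F[X]} [hg : Good ℓ g]
    (hgf : g = (f.map ι).scaleRoots (ϖ ^ j))
    (𝔞 : Ideal (CoordRing ℓ g)) (a : F[X]) (hs : ∃ s ∈ 𝔞, red g s = 1)
    {ζF : F} (hζF : IsPrimitiveRoot ζF ℓ) (hζζ : ζF = ι ζ)
    (hN : nrm (tauI hζF) ℓ 𝔞 = Ideal.span {of g a})
    (m : AdjoinRoot g) (hm : AdjoinRoot.mk g a * m = 1)
    (c₀ : AdjoinRoot f) (hc₀ : lamMap (toRes ι hι) rfl c₀ ≠ 0) (κ : F)
    (Z : AdjoinRoot (f.map ι))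
    (hmc : scMap hgf m = AdjoinRoot.of _ κ * lamMap ι rfl c₀ * Z ^ ℓ) :
    ∃ (e : IsLocalRing.ResidueField v.valuationSubring) (b : AdjoinRoot (f.map (toRes ι hι))),
      lamMap (toRes ι hι) rfl c₀ = AdjoinRoot.of _ e * b ^ ℓ := by
  have hℓ := hp.out
  let ιR : A →+* v.valuationSubring := ι.codRestrict v.valuationSubring.toSubring hι
  have hιR : (algebraMap v.valuationSubring F).comp ιR = ι := rfl
  have hϖ1 : v ϖ ≤ 1 := by
    rw [hϖ]
    change WithZero.exp (-1 : ℤ) ≤ WithZero.exp (0 : ℤ)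
    rw [WithZero.exp_le_exp]
    norm_num
  set π : v.valuationSubring := ⟨ϖ, hϖ1⟩ with hπ
  have hπirr : Irreducible π := irreducible_of_exp_neg_one hϖ
  let res := IsLocalRing.residue v.valuationSubring
  let σ : A →+* IsLocalRing.ResidueField v.valuationSubring := toRes ι hι
  have hσ : res.comp ιR = σ := rfl
  obtain ⟨fR, hfR⟩ : ∃ fR, fR = f.map ιR := ⟨_, rfl⟩
  have hfRm : fR.Monic := by rw [hfR]; exact hf.map _
  have hfRF : fR.map (algebraMap v.valuationSubring F) = f.map ι := by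
    rw [hfR, Polynomial.map_map, hιR]
  have hfbar : fR.map res = f.map σ := by
    rw [hfR, Polynomial.map_map, hσ]
  have hgood : Good ℓ (fR.map res) := by
    rw [hfbar]
    refine ⟨hf.map _, hsep, ?_⟩
    rwa [hf.natDegree_map]
  have hirr' : Irreducible (fR.map res) := by
    rw [hfbar]
    exact hirr
  have hgf' : g = (fR.scaleRoots (π ^ j)).map (algebraMap v.valuationSubring F) := by
    rw [map_scaleRoots _ _ _ (by rw [hfRm.leadingCoeff, map_one]; exact one_ne_zero), hfRF, hgf]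
    rfl
  have hζR : IsPrimitiveRoot (algebraMap v.valuationSubring F (ιR ζ)) ℓ := by
    have h1 : algebraMap v.valuationSubring F (ιR ζ) = ζF := by rw [hζζ]; rfl
    rw [h1]
    exact hζF
  have hζbar : IsPrimitiveRoot (res (ιR ζ)) ℓ := hζ
  have hN' : nrm (tauI hζR) ℓ 𝔞 = Ideal.span {of g a} := by
    have h1 : algebraMap v.valuationSubring F (ιR ζ) = ζF := by rw [hζζ]; rfl
    rw [← hN]
    congr 2
  obtain ⟨c, q, e, b, hc, he, hb, hdvd, hq⟩ := twisted_norm hπirr hfRm hirr' hζR hζbar hj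
    hgf' 𝔞 a hs hN'
  have hfield := Fact.mk hirr'
  have h1 : scMap hgf (AdjoinRoot.mk g a) =
      AdjoinRoot.of _ c * AdjoinRoot.mk (f.map ι) (q.map (algebraMap v.valuationSubring F)) := by
    rw [scMap_mk, ← AdjoinRoot.mk_C, ← map_mul, AdjoinRoot.mk_eq_mk]
    rw [hfRF] at hdvd
    exact hdvd
  have h2 : AdjoinRoot.of (f.map ι) c *
      AdjoinRoot.mk (f.map ι) (q.map (algebraMap v.valuationSubring F)) *
      (AdjoinRoot.of _ κ * lamMap ι rfl c₀ * Z ^ ℓ) = 1 := by
    rw [← h1, ← hmc, ← map_mul, hm, map_one]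
  have hnt : (1 : AdjoinRoot (f.map ι)) ≠ 0 := by
    intro h0
    have h3 := of_inj' (f := f.map ι) (hf.map ι) (by
      rw [hf.natDegree_map]
      intro h4
      exact hcop (by rw [h4]; exact dvd_zero ℓ))
    have h4 : AdjoinRoot.of (f.map ι) (1 : F) = AdjoinRoot.of (f.map ι) 0 := by
      rw [map_one, map_zero, h0]
    exact one_ne_zero (h3 h4)
  have hZ : Z ≠ 0 := by
    rintro rfl
    rw [zero_pow hℓ.ne_zero, mul_zero, mul_zero] at h2
    exact hnt h2.symm
  obtain ⟨γ, Z₀, hγ, hZγ, hZ₀⟩ := exists_unit_part hfRm hfRF rfl Z hZ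
  have hlinj : Function.Injective (lamMap (algebraMap v.valuationSubring F) hfRF) :=
    lamMap_inj hfRF hfRm
  -- the constant class
  obtain ⟨c₁, hc₁⟩ : ∃ c₁ : AdjoinRoot fR, c₁ = lamMap ιR hfR.symm c₀ := ⟨_, rfl⟩
  have hc₁F : lamMap (algebraMap v.valuationSubring F) hfRF c₁ = lamMap ι rfl c₀ := by
    rw [hc₁]
    exact lamMap_comp ιR (algebraMap v.valuationSubring F) hfR.symm hfRF rfl c₀
  have hfσ : f.map σ = fR.map res := hfbar.symm
  have hc₁R : lamMap res rfl c₁ = lamMap σ hfσ c₀ := by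
    rw [hc₁]
    exact lamMap_comp ιR res hfR.symm rfl hfσ c₀
  have hc₀' : lamMap σ hfσ c₀ ≠ 0 := by
    intro h0
    apply hc₀
    obtain ⟨p, rfl⟩ := AdjoinRoot.mk_surjective c₀
    rw [lamMap_mk, AdjoinRoot.mk_eq_zero] at h0 ⊢
    rw [hfσ]
    exact h0
  -- the unit `Y`
  obtain ⟨Y, hY⟩ : ∃ Y, Y = AdjoinRoot.mk fR q * c₁ * Z₀ ^ ℓ := ⟨_, rfl⟩
  obtain ⟨δ, hδ⟩ : ∃ δ, δ = c * κ * γ ^ ℓ := ⟨_, rfl⟩
  have hYF : lamMap (algebraMap v.valuationSubring F) hfRF Y =
      AdjoinRoot.mk (f.map ι) (q.map (algebraMap v.valuationSubring F)) * lamMap ι rfl c₀ *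
        (lamMap (algebraMap v.valuationSubring F) hfRF Z₀) ^ ℓ := by
    rw [hY, map_mul (lamMap (algebraMap v.valuationSubring F) hfRF),
      map_mul (lamMap (algebraMap v.valuationSubring F) hfRF),
      map_pow (lamMap (algebraMap v.valuationSubring F) hfRF), lamMap_mk, hc₁F]
  have hδF : AdjoinRoot.of (f.map ι) δ = AdjoinRoot.of (f.map ι) c * AdjoinRoot.of (f.map ι) κ *
      (AdjoinRoot.of (f.map ι) γ) ^ ℓ := by
    rw [hδ, map_mul (AdjoinRoot.of (f.map ι)), map_mul (AdjoinRoot.of (f.map ι)),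
      map_pow (AdjoinRoot.of (f.map ι))]
  have hδY : AdjoinRoot.of (f.map ι) δ * lamMap (algebraMap v.valuationSubring F) hfRF Y = 1 := by
    rw [hYF, hδF, ← h2, hZγ]
    ring
  have hYR : lamMap res rfl Y = AdjoinRoot.of _ e * b ^ ℓ * lamMap σ hfσ c₀ *
      (lamMap res rfl Z₀) ^ ℓ := by
    rw [hY, map_mul, map_mul, map_pow, lamMap_mk, hc₁R, hq]
  have hYR0 : lamMap res rfl Y ≠ 0 := by
    rw [hYR]
    refine mul_ne_zero (mul_ne_zero (mul_ne_zero ?_ (pow_ne_zero _ hb)) hc₀') (pow_ne_zero _ hZ₀)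
    rwa [Ne, map_eq_zero]
  have hδ0 : δ ≠ 0 := by
    rintro h0
    rw [h0, map_zero, zero_mul] at hδY
    exact hnt hδY.symm
  have hd : ∃ d : IsLocalRing.ResidueField v.valuationSubring, lamMap res rfl Y =
      AdjoinRoot.of (fR.map res) d := by
    by_cases hv : v δ ≤ 1
    · have h3 : AdjoinRoot.of fR (⟨δ, hv⟩ : v.valuationSubring) * Y = 1 := by
        apply hlinj
        rw [map_mul, lamMap_of', map_one]
        exact hδY
      have h4 := congrArg (lamMap res (rfl : fR.map res = _)) h3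
      rw [map_mul, lamMap_of', map_one] at h4
      refine ⟨(res ⟨δ, hv⟩)⁻¹, ?_⟩
      rw [map_inv₀]
      exact eq_inv_of_mul_eq_one_right h4
    · have hv' : v δ⁻¹ ≤ 1 := by
        rw [map_inv₀]
        exact inv_le_one_of_one_le₀ (not_le.mp hv).le
      have h3 : Y = AdjoinRoot.of fR (⟨δ⁻¹, hv'⟩ : v.valuationSubring) := by
        apply hlinj
        rw [lamMap_of']
        have h4 : AdjoinRoot.of (f.map ι) δ * AdjoinRoot.of (f.map ι) δ⁻¹ = 1 := by
          rw [← map_mul, mul_inv_cancel₀ hδ0, map_one]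
        calc lamMap (algebraMap v.valuationSubring F) hfRF Y =
            (AdjoinRoot.of (f.map ι) δ * AdjoinRoot.of (f.map ι) δ⁻¹) *
              lamMap (algebraMap v.valuationSubring F) hfRF Y := by rw [h4, one_mul]
          _ = (AdjoinRoot.of (f.map ι) δ * lamMap (algebraMap v.valuationSubring F) hfRF Y) *
              AdjoinRoot.of (f.map ι) δ⁻¹ := by ring
          _ = _ := by rw [hδY, one_mul]; rfl
      exact ⟨res ⟨δ⁻¹, hv'⟩, by rw [h3, lamMap_of']⟩
  obtain ⟨d, hd⟩ := hd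
  rw [hd] at hYR
  have hoe : AdjoinRoot.of (fR.map res) e ≠ 0 := by rwa [Ne, map_eq_zero]
  have key : ∀ (E B W U D : AdjoinRoot (fR.map res)), E ≠ 0 → B ≠ 0 → W ≠ 0 →
      D = E * B ^ ℓ * U * W ^ ℓ → U = D / E * ((B * W)⁻¹) ^ ℓ := by
    intro E B W U D hE hB hW hD
    have hB' : B ^ ℓ ≠ 0 := pow_ne_zero _ hB
    have hW' : W ^ ℓ ≠ 0 := pow_ne_zero _ hW
    rw [hD, inv_pow, mul_pow, mul_inv, div_eq_mul_inv]
    calc U = U * (E * E⁻¹) * (B ^ ℓ * (B ^ ℓ)⁻¹) * (W ^ ℓ * (W ^ ℓ)⁻¹) := by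
          rw [mul_inv_cancel₀ hE, mul_inv_cancel₀ hB', mul_inv_cancel₀ hW', mul_one, mul_one,
            mul_one]
      _ = _ := by ring
  have hfin := key _ _ _ _ _ hoe hb hZ₀ hYR
  rw [← map_div₀] at hfin
  -- rewrite `fR.map res` as `f.map σ`
  have hid : ∀ (p : (IsLocalRing.ResidueField v.valuationSubring)[X]) (hp : fR.map res = p)
      (e' : IsLocalRing.ResidueField v.valuationSubring) (b' : AdjoinRoot (fR.map res)),
      lamMap σ hfσ c₀ = AdjoinRoot.of (fR.map res) e' * b' ^ ℓ →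
      ∀ hp' : f.map σ = p, ∃ (e : IsLocalRing.ResidueField v.valuationSubring) (b : AdjoinRoot p),
        lamMap σ hp' c₀ = AdjoinRoot.of p e * b ^ ℓ := by
    rintro p rfl e' b' h _
    exact ⟨e', b', h⟩
  exact hid _ hfbar _ _ hfin rfl

end Res

end Pool.Agent.MP1bdb59C
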