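import Mathlib
import Pool.Agent.MP1bdb59C.GenLoc2
import Pool.Agent.MP1bdb59C.Gen

/-!
# The local condition at a twisted place, for a twist by a unit times a power of a uniformizer
-/

open Polynomial

noncomputable section

open scoped Classical WithZero

namespace Pool.Agent.MP1bdb59C

section

variable {R : Type*} [CommRing R] {f g g' : R[X]} {c d : R}

lemma scMap_scMap (hg : g = f.scaleRoots c) (hg' : g' = g.scaleRoots d)
    (h : g' = f.scaleRoots (c * d)) (x : AdjoinRoot g') :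
    scMap hg (scMap hg' x) = scMap h x := by
  obtain ⟨p, rfl⟩ := AdjoinRoot.mk_surjective x
  rw [scMap_mk, scMap_mk, scMap_mk, comp_assoc, mul_comp, C_comp, X_comp, ← mul_assoc, ← C_mul,
    mul_comm d c]

lemma scMap_congr (hg : g = f.scaleRoots c) (h : g = f.scaleRoots d) (hcd : c = d)
    (x : AdjoinRoot g) : scMap hg x = scMap h x := by
  subst hcd
  rfl

end

variable {F : Type*} [Field F] {v : Valuation F ℤᵐ⁰} [IsDiscreteValuationRing v.valuationSubring]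
  {A : Type*} [CommRing A] (ι : A →+* F) (hι : ∀ x, v (ι x) ≤ 1)

theorem res_of_locCond_unit {ϖ : F} (hϖ : v ϖ = WithZero.exp (-1 : ℤ)) {ℓ : ℕ}
    [hp : Fact ℓ.Prime]
    {f : A[X]} (hf : f.Monic) (hirr : Irreducible (f.map (toRes ι hι)))
    (hsep : (f.map (toRes ι hι)).Separable) (hcop : ¬ ℓ ∣ f.natDegree) {ζ : A}
    (hζ : IsPrimitiveRoot (toRes ι hι ζ) ℓ) {j : ℕ} (hj : ¬ ℓ ∣ j) {d d' : A} (hd : d * d' = 1)
    {g : F[X]} [hg : Good ℓ g]
    (hgf : g = (f.map ι).scaleRoots (ι d * ϖ ^ j))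
    (𝔞 : Ideal (CoordRing ℓ g)) (a : F[X]) (hs : ∃ s ∈ 𝔞, red g s = 1)
    {ζF : F} (hζF : IsPrimitiveRoot ζF ℓ) (hζζ : ζF = ι ζ)
    (hN : nrm (tauI hζF) ℓ 𝔞 = Ideal.span {of g a})
    (m : AdjoinRoot g) (hm : AdjoinRoot.mk g a * m = 1)
    (c₀ : AdjoinRoot f) (hc₀ : lamMap (toRes ι hι) rfl c₀ ≠ 0) (κ : F)
    (Z : AdjoinRoot (f.map ι))
    (hmc : scMap hgf m = AdjoinRoot.of _ κ * lamMap ι rfl c₀ * Z ^ ℓ) :
    ∃ (e : IsLocalRing.ResidueField v.valuationSubring) (b : AdjoinRoot (f.map (toRes ι hι))),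
      lamMap (toRes ι hι) rfl c₀ = AdjoinRoot.of _ e * b ^ ℓ := by
  have hℓ := hp.out
  obtain ⟨f', hf'⟩ : ∃ f', f' = f.scaleRoots d := ⟨_, rfl⟩
  have hf'm : f'.Monic := by
    rw [hf', monic_scaleRoots_iff]
    exact hf
  set σ := toRes ι hι with hσ
  have hσd : σ d * σ d' = 1 := by rw [← map_mul, hd, map_one]
  have hιd : ι d * ι d' = 1 := by rw [← map_mul, hd, map_one]
  have hf'σ : f'.map σ = (f.map σ).scaleRoots (σ d) := by
    rw [hf', map_scaleRoots _ _ _ (by rw [hf.leadingCoeff, map_one]; exact one_ne_zero)]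
  have hf'ι : f'.map ι = (f.map ι).scaleRoots (ι d) := by
    rw [hf', map_scaleRoots _ _ _ (by rw [hf.leadingCoeff, map_one]; exact one_ne_zero)]
  have i0 := Fact.mk hirr
  have hdom : IsDomain (AdjoinRoot (f'.map σ)) := (scEquiv hf'σ hσd).toMulEquiv.isDomain _
  have hirr' : Irreducible (f'.map σ) := by
    have h1 : (Ideal.span {f'.map σ}).IsPrime := by
      have : IsDomain ((IsLocalRing.ResidueField v.valuationSubring)[X] ⧸
        Ideal.span {f'.map σ}) := hdom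
      exact (Ideal.Quotient.isDomain_iff_prime _).mp this
    exact ((Ideal.span_singleton_prime (hf'm.map σ).ne_zero).mp h1).irreducible
  have hsep' : (f'.map σ).Separable := by
    have h1 := separable_scaleRoots hsep (left_ne_zero_of_mul_eq_one hσd) hirr (by
      rw [← hf'σ]; exact hirr')
    rw [hf'σ]
    exact h1
  have hcop' : ¬ ℓ ∣ f'.natDegree := by
    rw [hf', natDegree_scaleRoots]
    exact hcop
  have hgf' : g = (f'.map ι).scaleRoots (ϖ ^ j) := by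
    rw [hf'ι, ← scaleRoots_mul]
    exact hgf
  obtain ⟨c₀', hc₀'⟩ : ∃ c', scMap hf' c' = c₀ :=
    ⟨(scEquiv hf' hd).symm c₀, (scEquiv hf' hd).apply_symm_apply c₀⟩
  obtain ⟨Z', hZ'⟩ : ∃ Z', scMap hf'ι Z' = Z :=
    ⟨(scEquiv hf'ι hιd).symm Z, (scEquiv hf'ι hιd).apply_symm_apply Z⟩
  have hσc : scMap hf'σ (lamMap σ rfl c₀') = lamMap σ rfl c₀ := by
    rw [← hc₀', lamMap_scMap hf' σ rfl rfl hf'σ rfl]
  have hιc : scMap hf'ι (lamMap ι rfl c₀') = lamMap ι rfl c₀ := by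
    rw [← hc₀', lamMap_scMap hf' ι rfl rfl hf'ι rfl]
  obtain ⟨e, b, heb⟩ := res_of_locCond ι hι hϖ hf'm hirr' hsep' hcop' hζ hj hgf' 𝔞 a hs hζF hζζ hN
    m hm c₀' (by
      intro h0
      apply hc₀
      rw [← hσc, h0, map_zero]) κ Z' (by
      apply (scEquiv hf'ι hιd).injective
      change scMap hf'ι _ = scMap hf'ι _
      rw [scMap_scMap hf'ι hgf' hgf, hmc, map_mul, map_mul, map_pow, scMap_of, hιc, hZ'])
  refine ⟨e, scMap hf'σ b, ?_⟩
  rw [← hσc, heb, map_mul, map_pow, scMap_of]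

end Pool.Agent.MP1bdb59C
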