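import Mathlib
import Pool.Agent.MP1bdb59C.LocSel
import Pool.Agent.MP1bdb59C.Spec
import Pool.Agent.MP1bdb59C.Gen
import Pool.Agent.MP1bdb59C.UnitTw
import Pool.Agent.MP1bdb59C.Selmer
import Pool.Agent.MP1bdb59C.Reps2
import Pool.Agent.MP1bdb59C.HitExt

/-!
# Twists over function fields over a Hilbertian field
-/

open Polynomial IsDedekindDomain

noncomputable section

open scoped Classical WithZero

namespace Pool.Agent.MP1bdb59C

open Pool.Agent.MP1bdb59 (Sep AbsGal emb resGal Place Completion placeOf TateModule)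

universe u v

section At

variable {k : Type u} {K : Type v} [Field k] [Field K] [Algebra k K] {A : Type*} [CommRing A]
  [IsDedekindDomain A] [Algebra A K] [IsFractionRing A K] [Algebra k A] [IsScalarTower k A K]
  {ℓ : ℕ} [hp : Fact ℓ.Prime]
  {f : A[X]} [hirr : Fact (Irreducible (f.map (algebraMap A K)))]
  [IsDedekindDomain (AdjoinRoot f)] [Algebra (AdjoinRoot f) (AdjoinRoot (f.map (algebraMap A K)))]
  [IsFractionRing (AdjoinRoot f) (AdjoinRoot (f.map (algebraMap A K)))]
  [IsScalarTower A (AdjoinRoot f) (AdjoinRoot (f.map (algebraMap A K)))]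
  (halg : ∀ x, algebraMap (AdjoinRoot f) (AdjoinRoot (f.map (algebraMap A K))) x =
    lamMap (algebraMap A K) rfl x)
  (hf : f.Monic) (hsep : f.Separable) (hcop : ¬ ℓ ∣ f.natDegree)

include halg hf in
lemma comap_span {w : A} (hw : w ≠ 0) :
    (Ideal.span {AdjoinRoot.of f w}).comap (algebraMap A (AdjoinRoot f)) = Ideal.span {w} := by
  have hn : f.natDegree ≠ 0 := by
    rw [← hf.natDegree_map (algebraMap A K)]
    exact hirr.out.natDegree_pos.ne'
  apply le_antisymm
  · intro a ha
    change AdjoinRoot.of f a ∈ Ideal.span {AdjoinRoot.of f w} at ha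
    rw [Ideal.mem_span_singleton'] at ha
    obtain ⟨o, ho⟩ := ha
    have hwK : algebraMap A K w ≠ 0 := by rwa [Ne, IsFractionRing.to_map_eq_zero_iff]
    have h1 := congrArg (lamMap (algebraMap A K) (rfl : f.map (algebraMap A K) = _)) ho
    rw [map_mul, lamMap_of', lamMap_of'] at h1
    have h2 : lamMap (algebraMap A K) (rfl : f.map (algebraMap A K) = _) o =
        algebraMap K _ (algebraMap A K a / algebraMap A K w) := by
      rw [map_div₀, eq_div_iff (by rwa [Ne, map_eq_zero])]
      exact h1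
    have h3 : IsIntegral A (algebraMap K (AdjoinRoot (f.map (algebraMap A K)))
        (algebraMap A K a / algebraMap A K w)) := by
      rw [← h2, ← halg]
      have := (AdjoinRoot.powerBasis' hf).finite
      exact (Algebra.IsIntegral.isIntegral o).algebraMap
    rw [isIntegral_algebraMap_iff (algebraMap K _).injective] at h3
    obtain ⟨b, hb⟩ := IsIntegrallyClosed.isIntegral_iff.mp h3
    rw [Ideal.mem_span_singleton']
    refine ⟨b, ?_⟩
    apply IsFractionRing.injective A K
    rw [map_mul, hb, div_mul_cancel₀ _ hwK]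
  · rw [Ideal.span_le, Set.singleton_subset_iff]
    exact Ideal.mem_span_singleton_self _

include halg hf hsep hcop in
/-- The twist by `d w^j`, `d` a unit, when `w` stays prime in `A[x]/(f)` and the representatives
of the Selmer group do not become `ℓ`-th powers modulo `w`. -/
theorem twist_at {ζ : k} (hζ : IsPrimitiveRoot ζ ℓ) {j : ℕ} (hj : ¬ ℓ ∣ j) {w : A} (hw0 : w ≠ 0)
    {d d' : A} (hd : d * d' = 1)
    {g : K[X]} (hg : g = (f.map (algebraMap A K)).scaleRoots (algebraMap A K (d * w ^ j)))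
    (M : Finset (AdjoinRoot f))
    (hM : ∀ m : AdjoinRoot (f.map (algebraMap A K)), m ≠ 0 →
      (∀ P : HeightOneSpectrum (AdjoinRoot f), ∃ z : ℤᵐ⁰,
        P.valuation (AdjoinRoot (f.map (algebraMap A K))) m = z ^ ℓ) →
      (∃ r : K, Algebra.norm K m = r ^ ℓ) → (∃ z, m = z ^ ℓ) ∨
        ∃ m₀ ∈ M, ∃ z, z ≠ 0 ∧ m = algebraMap (AdjoinRoot f) _ m₀ * z ^ ℓ)
    (hmax : (Ideal.span {AdjoinRoot.of f w}).IsMaximal)
    (hMmod : ∀ m ∈ M, ¬ ∃ b : AdjoinRoot f, m - b ^ ℓ ∈ Ideal.span {AdjoinRoot.of f w}) :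
    (∀ ξ ∈ Sha k ℓ g, ℓ • ξ = 0 → ξ = 0) ∧
      (∀ t : Jac ℓ g K, (∀ σ, act ℓ g K σ t = t) →
        ∃ s : Jac ℓ g K, (∀ σ, act ℓ g K σ s = s) ∧ ℓ • s = t) := by
  have hℓ := hp.out
  have hn : f.natDegree ≠ 0 := by
    rw [← hf.natDegree_map (algebraMap A K)]
    exact hirr.out.natDegree_pos.ne'
  have hfKm : (f.map (algebraMap A K)).Monic := hf.map _
  have hwK : algebraMap A K w ≠ 0 := by rwa [Ne, IsFractionRing.to_map_eq_zero_iff]
  have hd0 : d ≠ 0 := left_ne_zero_of_mul_eq_one hd
  have hwjK : algebraMap A K (d * w ^ j) ≠ 0 := by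
    rw [Ne, IsFractionRing.to_map_eq_zero_iff]
    exact mul_ne_zero hd0 (pow_ne_zero _ hw0)
  -- `g` is good
  have hgm : g.Monic := by
    rw [hg, monic_scaleRoots_iff]
    exact hfKm
  have hgdom : IsDomain (AdjoinRoot g) := (scEquiv hg (mul_inv_cancel₀ hwjK)).toMulEquiv.isDomain _
  have hgirr : Irreducible g := by
    have h1 : (Ideal.span {g}).IsPrime := by
      have : IsDomain (K[X] ⧸ Ideal.span {g}) := ‹IsDomain (AdjoinRoot g)›
      exact (Ideal.Quotient.isDomain_iff_prime _).mp this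
    exact ((Ideal.span_singleton_prime hgm.ne_zero).mp h1).irreducible
  have hgood : Good ℓ g := by
    refine ⟨hgm, ?_, ?_⟩
    · have h1 := separable_scaleRoots (hsep.map (f := algebraMap A K)) hwjK hirr.out (by
        rw [← hg]; exact hgirr)
      rw [hg]
      exact h1
    · rw [hg, natDegree_scaleRoots, hf.natDegree_map]
      exact hcop
  -- the primes
  have hcomap := comap_span halg hf hw0
  have hint : Algebra.IsIntegral A (AdjoinRoot f) := by
    have := (AdjoinRoot.powerBasis' hf).finite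
    infer_instance
  have hAmax : (Ideal.span {w}).IsMaximal := by
    rw [← hcomap]
    exact Ideal.isMaximal_comap_of_isIntegral_of_isMaximal _
  have hw0' : AdjoinRoot.of f w ≠ 0 := by
    intro h0
    have h1 := congrArg (lamMap (algebraMap A K) (rfl : f.map (algebraMap A K) = _)) h0
    rw [lamMap_of', map_zero, map_eq_zero] at h1
    exact hwK h1
  let p : HeightOneSpectrum A := ⟨Ideal.span {w}, hAmax.isPrime, by
    rwa [Ne, Ideal.span_singleton_eq_bot]⟩
  let P : HeightOneSpectrum (AdjoinRoot f) := ⟨Ideal.span {AdjoinRoot.of f w}, hmax.isPrime, by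
    rwa [Ne, Ideal.span_singleton_eq_bot]⟩
  have hζK : IsPrimitiveRoot (algebraMap k K ζ) ℓ := hζ.map_of_injective (algebraMap k K).injective
  have hζA : algebraMap A K (algebraMap k A ζ) = algebraMap k K ζ := by
    rw [← IsScalarTower.algebraMap_apply]
  have hfree : Module.Free A (AdjoinRoot f) :=
    Module.Free.of_basis (AdjoinRoot.powerBasis' hf).basis
  have htf : Module.IsTorsionFree A (AdjoinRoot f) := inferInstance
  refine sha_ell_torsion k hζK g hgirr fun m hm ⟨r, hr⟩ hloc => ?_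
  have hm' : scMap hg m ≠ 0 := by
    intro h0
    have h1 : scEquiv hg (mul_inv_cancel₀ hwjK) m = 0 := h0
    rw [map_eq_zero_iff _ (scEquiv hg (mul_inv_cancel₀ hwjK)).injective] at h1
    exact hm.ne_zero h1
  have hr' : Algebra.norm K (scMap hg m) = r ^ ℓ := by rw [norm_scMap hwjK hg, hr]
  have hval : ∀ P' : HeightOneSpectrum (AdjoinRoot f), ∃ z : ℤᵐ⁰,
      P'.valuation (AdjoinRoot (f.map (algebraMap A K))) (scMap hg m) = z ^ ℓ := by
    intro P'
    set p' := HeightOneSpectrum.under A P' with hp'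
    have hlo : P'.asIdeal.LiesOver p'.asIdeal := ⟨rfl⟩
    by_cases hwp : w ∈ p'.asIdeal
    · have h1 : p'.asIdeal = Ideal.span {w} := by
        symm
        apply hAmax.eq_of_le p'.isPrime.ne_top
        rwa [Ideal.span_le, Set.singleton_subset_iff]
      have h2 : P'.asIdeal = Ideal.span {algebraMap A (AdjoinRoot f) w} := by
        symm
        apply hmax.eq_of_le P'.isPrime.ne_top
        rw [Ideal.span_le, Set.singleton_subset_iff]
        exact hwp
      exact isPow_at halg hf hsep hcop p' h1 _ hm' hr' P' h2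
    · have hwp' : d * w ^ j ∉ p'.asIdeal := by
        intro h0
        apply hwp
        have h1 : w ^ j ∈ p'.asIdeal := by
          have h2 : w ^ j = d' * (d * w ^ j) := by
            rw [← mul_assoc, mul_comm d' d, hd, one_mul]
          rw [h2]
          exact Ideal.mul_mem_left _ _ h0
        exact p'.isPrime.mem_of_pow_mem j h1
      have hg1 : g = (f.map (algebraMap A K)).scaleRoots (algebraMap A K (d * w ^ j) ^ 1) := by
        rw [pow_one]
        exact hg
      rw [scMap_congr hg hg1 (pow_one _).symm]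
      exact isPow_away (j := 1) halg hf hsep hcop hζK hζA p' hwp' hg1
        (placeOf k K p') rfl m hm hr hloc P' hlo
  rcases hM _ hm' hval ⟨r, hr'⟩ with ⟨z, hz⟩ | ⟨m₀, hm₀, z, hz0, hz⟩
  · refine ⟨(scEquiv hg (mul_inv_cancel₀ hwjK)).symm z, ?_⟩
    apply (scEquiv hg (mul_inv_cancel₀ hwjK)).injective
    rw [map_pow, RingEquiv.apply_symm_apply]
    exact hz
  · exfalso
    -- the completion at `w`
    have hpK : ∀ x : A, p.valuation K (algebraMap A K x) ≤ 1 := fun x => p.valuation_le_one x
    obtain ⟨vF, h1, h2, h3⟩ := exists_dvr p (placeOf k K p) rfl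
    set F := Completion (placeOf k K p) with hF
    set ι : A →+* F := (algebraMap K F).comp (algebraMap A K) with hι
    have hιx : ∀ x, ι x = algebraMap K F (algebraMap A K x) := fun x => rfl
    have hι1 : ∀ x, vF (ι x) ≤ 1 := by
      intro x
      rw [hιx, h1]
      exact hpK x
    have hres : ∀ r : F, vF r ≤ 1 → ∃ x : A, vF (r - ι x) < 1 := by
      intro r hr
      obtain ⟨x, hx⟩ := h2 r 1 one_ne_zero
      rw [map_one] at hx
      have h4 : p.valuation K x ≤ 1 := by
        rw [← h1]
        have h5 : algebraMap K F x = (algebraMap K F x - r) + r := by ring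
        rw [h5]
        exact Valuation.map_add_le _ hx.le hr
      obtain ⟨q, hq⟩ := p.exists_valuation_sub_lt_of_integer h4 1
      refine ⟨q, ?_⟩
      have h6 : r - ι q = -((algebraMap K F x - r) +
          (algebraMap K F (algebraMap A K q - x))) := by
        rw [hιx, map_sub]
        ring
      rw [h6, Valuation.map_neg]
      refine Valuation.map_add_lt _ hx ?_
      rw [h1]
      exact hq
    set σ := toRes ι hι1 with hσ
    have hσs : Function.Surjective σ := toRes_surjective ι hι1 hres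
    have hvw : vF (ι w) = WithZero.exp (-1 : ℤ) := by
      rw [hιx, h1, HeightOneSpectrum.valuation_of_algebraMap]
      exact HeightOneSpectrum.intValuation_singleton p hw0 rfl
    have hσw : σ w = 0 := by
      rw [hσ, toRes_eq_zero_iff, hvw]
      change WithZero.exp (-1 : ℤ) < WithZero.exp (0 : ℤ)
      rw [WithZero.exp_lt_exp]
      norm_num
    obtain ⟨hirrσ, hker⟩ := irreducible_map_of_isMaximal σ hσs hf hn hσw hmax
    obtain ⟨𝔞, a, hs, hN, hma⟩ := hloc (placeOf k K p)
    have hgoodF : Good ℓ (g.map (algebraMap K F)) :=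
      ⟨hgood.monic.map _, hgood.sep.map, by rw [natDegree_map]; exact hgood.cop⟩
    have hfF : (f.map (algebraMap A K)).map (algebraMap K F) = f.map ι := by
      rw [Polynomial.map_map]
    have hgF : g.map (algebraMap K F) = (f.map ι).scaleRoots (ι d * ι w ^ j) := by
      rw [hg, map_scaleRoots _ _ _ (by
        rw [hfKm.leadingCoeff, map_one]; exact one_ne_zero), hfF, ← map_pow, ← map_mul]
      rfl
    have hσm₀ : lamMap σ (rfl : f.map σ = f.map σ) m₀ ≠ 0 := by
      intro h0
      apply hMmod m₀ hm₀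
      refine ⟨0, ?_⟩
      rw [zero_pow hℓ.ne_zero, sub_zero, ← hker]
      exact h0
    have hmc : scMap hgF (lamMap (algebraMap K F) rfl m) = AdjoinRoot.of _ (1 : F) *
        lamMap ι rfl m₀ * (lamMap (algebraMap K F) hfF z) ^ ℓ := by
      rw [← lamMap_scMap hg (algebraMap K F) hfF rfl hgF (by rw [← map_pow, ← map_mul]; rfl), hz,
        halg,
        map_mul (lamMap (algebraMap K F) hfF), map_pow (lamMap (algebraMap K F) hfF),
        lamMap_comp (algebraMap A K) (algebraMap K F) rfl hfF rfl, map_one, one_mul]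
    obtain ⟨e, b, heb⟩ := res_of_locCond_unit ι hι1 hvw hf hirrσ (hsep.map) hcop
      (ζ := algebraMap k A ζ) (hζ.map_of_injective
        (f := (toRes ι hι1).comp (algebraMap k A)) (RingHom.injective _)) hj hd hgF 𝔞 a hs
      (hζK.map_of_injective (algebraMap K F).injective)
      (by rw [hιx, hζA]) hN _ hma m₀ hσm₀ 1 _ hmc
    have hNz : Algebra.norm K z ≠ 0 := by
      have := (AdjoinRoot.powerBasis' hfKm).finite
      rw [Ne, Algebra.norm_eq_zero_iff]
      exact hz0
    obtain ⟨o, ho⟩ := exists_pow_mod (K := K) σ hσs hf hcop hirrσ m₀ hσm₀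
      (y := r / Algebra.norm K z) (by
        rw [← halg, div_pow, eq_div_iff (pow_ne_zero _ hNz), ← map_pow, ← map_mul, ← hz, hr'])
      heb
    apply hMmod m₀ hm₀
    refine ⟨o, ?_⟩
    rw [← hker]
    exact ho

end At

section Core

variable {k₀ : Type*} {k : Type u} {K : Type v} [Field k₀] [Field k] [Algebra k₀ k] [CharZero k]
  [Field K] [Algebra k K] [Algebra k[X] K] [IsScalarTower k k[X] K] [Algebra (RatFunc k) K]
  [IsScalarTower k[X] (RatFunc k) K] [FiniteDimensional (RatFunc k) K]
  {A : Type*} [CommRing A] [IsDedekindDomain A] [Algebra k[X] A] [Algebra A K]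
  [IsFractionRing A K] [IsScalarTower k[X] A K] [Algebra k A] [IsScalarTower k k[X] A]
  [IsScalarTower k A K] {ℓ : ℕ} [hp : Fact ℓ.Prime]

/-- The main theorem, over a Dedekind domain `A` of functions. -/
theorem hilbert_twist_core (hk : HilbOver k₀ k) {ζ : k} (hζ : IsPrimitiveRoot ζ ℓ) (s : k[X])
    (hs : s ≠ 0) (hint : ∀ a : A, ∃ N : ℕ, IsIntegral k[X] (algebraMap k[X] A s ^ N * a))
    {f : A[X]} (hf : f.Monic) (hsep : f.Separable) (hirr : Irreducible (f.map (algebraMap A K)))
    (hcop : ¬ ℓ ∣ f.natDegree)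
    (hreg : ∀ x : AdjoinRoot (f.map (algebraMap A K)), IsAlgebraic k x →
      x ∈ Set.range (algebraMap k (AdjoinRoot (f.map (algebraMap A K))))) :
    {c : k₀ | ∀ (d : Aˣ) (j : ℕ), ¬ ℓ ∣ j → ∀ g : K[X], g = (f.map (algebraMap A K)).scaleRoots
        (algebraMap A K d * algebraMap k[X] K (X - C (algebraMap k₀ k c)) ^ j) →
      (∀ ξ ∈ Sha k ℓ g, ℓ • ξ = 0 → ξ = 0) ∧
      (∀ t : Jac ℓ g K, (∀ σ, act ℓ g K σ t = t) →
        ∃ s : Jac ℓ g K, (∀ σ, act ℓ g K σ s = s) ∧ ℓ • s = t)}.Infinite := by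
  have hℓ := hp.out
  have i0 := Fact.mk hirr
  have hn : f.natDegree ≠ 0 := by
    rw [← hf.natDegree_map (algebraMap A K)]
    exact hirr.natDegree_pos.ne'
  have hfKm : (f.map (algebraMap A K)).Monic := hf.map _
  have hded : IsDedekindDomain (AdjoinRoot f) := isDedekind_adjoinRoot K hf hsep hirr
  let i1 : Algebra (AdjoinRoot f) (AdjoinRoot (f.map (algebraMap A K))) :=
    (lamMap (algebraMap A K) rfl).toAlgebra
  have i2 : IsFractionRing (AdjoinRoot f) (AdjoinRoot (f.map (algebraMap A K))) :=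
    isFractionRing_adjoinRoot rfl hf hirr (fun _ => rfl)
  have i3 : IsScalarTower A (AdjoinRoot f) (AdjoinRoot (f.map (algebraMap A K))) := by
    apply IsScalarTower.of_algebraMap_eq
    intro a
    change AdjoinRoot.of _ (algebraMap A K a) = lamMap (algebraMap A K) rfl (AdjoinRoot.of f a)
    rw [lamMap_of']
  have i4 : IsScalarTower k[X] (AdjoinRoot f) (AdjoinRoot (f.map (algebraMap A K))) := by
    apply IsScalarTower.of_algebraMap_eq
    intro q
    change AdjoinRoot.of _ (algebraMap k[X] K q) =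
      lamMap (algebraMap A K) rfl (AdjoinRoot.of f (algebraMap k[X] A q))
    rw [lamMap_of', ← IsScalarTower.algebraMap_apply]
  have i5 : IsScalarTower k k[X] (AdjoinRoot f) := inferInstance
  have i6 : IsScalarTower k k[X] (AdjoinRoot (f.map (algebraMap A K))) := inferInstance
  have i7 : IsScalarTower k[X] (RatFunc k) (AdjoinRoot (f.map (algebraMap A K))) := inferInstance
  have i8 : FiniteDimensional K (AdjoinRoot (f.map (algebraMap A K))) :=
    (AdjoinRoot.powerBasis' hfKm).finite
  have i9 : IsScalarTower (RatFunc k) K (AdjoinRoot (f.map (algebraMap A K))) := inferInstance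
  have i10 : FiniteDimensional (RatFunc k) (AdjoinRoot (f.map (algebraMap A K))) :=
    Module.Finite.trans K _
  have i11 : CharZero (RatFunc k) :=
    charZero_of_injective_algebraMap (algebraMap k (RatFunc k)).injective
  have i12 : Algebra.IsSeparable (RatFunc k) (AdjoinRoot (f.map (algebraMap A K))) := inferInstance
  have i13 : IsScalarTower k (AdjoinRoot f) (AdjoinRoot (f.map (algebraMap A K))) := by
    apply IsScalarTower.of_algebraMap_eq
    intro c
    change AdjoinRoot.of _ (algebraMap k K c) =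
      lamMap (algebraMap A K) rfl (AdjoinRoot.of f (algebraMap k A c))
    rw [lamMap_of', ← IsScalarTower.algebraMap_apply]
  have hintO : ∀ a : AdjoinRoot f, ∃ N : ℕ,
      IsIntegral k[X] (algebraMap k[X] (AdjoinRoot f) s ^ N * a) := fun a =>
    exists_pow_mul_isIntegral (algebraMap k[X] A s) isIntegral_algebraMap hint hf hn a
  have hfin := finite_selmer (k := k) (O := AdjoinRoot f)
    (L := AdjoinRoot (f.map (algebraMap A K))) s hs hintO hreg hζ
  have hkK : ∀ (c : k) (y : K), algebraMap k K c = y ^ ℓ → ∃ b : k, c = b ^ ℓ := by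
    intro c y hy
    have h1 : IsAlgebraic k (algebraMap K (AdjoinRoot (f.map (algebraMap A K))) y) := by
      refine IsIntegral.isAlgebraic ⟨X ^ ℓ - C c, monic_X_pow_sub_C _ hℓ.ne_zero, ?_⟩
      rw [eval₂_sub, eval₂_pow, eval₂_X, eval₂_C, ← map_pow, ← hy,
        ← IsScalarTower.algebraMap_apply, sub_self]
    obtain ⟨b, hb⟩ := hreg _ h1
    refine ⟨b, ?_⟩
    rw [IsScalarTower.algebraMap_apply k K] at hb
    have hb' := (algebraMap K (AdjoinRoot (f.map (algebraMap A K)))).injective hb
    apply (algebraMap k K).injective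
    rw [hy, map_pow, hb']
  obtain ⟨M, hM1, hM2⟩ := exists_reps_sel hfin (Algebra.norm K) hcop (fun x hx => by
      rwa [Algebra.norm_eq_zero_iff] at hx) (fun c => by
      rw [IsScalarTower.algebraMap_apply k K, Algebra.norm_algebraMap,
        (AdjoinRoot.powerBasis' hfKm).finrank, AdjoinRoot.powerBasis'_dim, hf.natDegree_map]) hkK
  have hℓk : (ℓ : k) ≠ 0 := by exact_mod_cast hℓ.ne_zero
  have hbad : {c : k | s.eval c = 0}.Finite := by
    refine s.roots.toFinset.finite_toSet.subset fun c hc => ?_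
    rw [Finset.mem_coe, Multiset.mem_toFinset, mem_roots hs]
    exact hc
  have hinf := hilbert_spec_over (L := AdjoinRoot (f.map (algebraMap A K))) hk hℓk M hM1 _ hbad
  refine hinf.mono ?_
  rintro c ⟨hcs, hc⟩ d j hj g hg
  have hcs' : s.eval (algebraMap k₀ k c) ≠ 0 := hcs
  have hmax := isMaximal_span (AdjoinRoot (f.map (algebraMap A K))) s hintO hcs'
    (fun 𝔪 h𝔪 hX => (hc 𝔪 h𝔪 hX).1)
  have hMmod := (hc _ hmax (Ideal.mem_span_singleton_self _)).2
  have hinjK : Function.Injective (algebraMap k[X] K) := by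
    rw [IsScalarTower.algebraMap_eq k[X] (RatFunc k) K]
    exact (algebraMap (RatFunc k) K).injective.comp (IsFractionRing.injective k[X] (RatFunc k))
  have hw0 : algebraMap k[X] A (X - C (algebraMap k₀ k c)) ≠ 0 := by
    intro h0
    apply X_sub_C_ne_zero (algebraMap k₀ k c)
    apply hinjK
    rw [IsScalarTower.algebraMap_apply k[X] A K, h0, map_zero, map_zero]
  refine twist_at (f := f) (fun _ => rfl) hf hsep hcop hζ hj hw0 d.mul_inv (g := g) ?_ M hM2 hmax
    hMmod
  rw [hg, IsScalarTower.algebraMap_apply k[X] A K, map_mul, map_pow]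

theorem hilbert_twist_core'
    (hk : HilbOver k₀ k) {ζ : k} (hζ : IsPrimitiveRoot ζ ℓ) (s : k[X])
    (hs : s ≠ 0) (hint : ∀ a : A, ∃ N : ℕ, IsIntegral k[X] (algebraMap k[X] A s ^ N * a))
    {f : A[X]} (hf : f.Monic) (hsep : f.Separable) (hirr : Irreducible (f.map (algebraMap A K)))
    (hcop : ¬ ℓ ∣ f.natDegree)
    (hreg : ∀ x : AdjoinRoot (f.map (algebraMap A K)), IsAlgebraic k x →
      x ∈ Set.range (algebraMap k (AdjoinRoot (f.map (algebraMap A K)))))
    {G : Subgroup Kˣ} (hG : ∀ γ ∈ G, ∃ d d' : A, d * d' = 1 ∧ algebraMap A K d = γ) :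
    {c : k₀ | ∀ (u : kˣ), ∀ γ ∈ G, ∀ j : ℕ, ¬ ℓ ∣ j → ∀ g : K[X],
      g = (f.map (algebraMap A K)).scaleRoots
        (algebraMap k K u * γ * algebraMap k[X] K (X - C (algebraMap k₀ k c)) ^ j) →
      (∀ ξ ∈ Sha k ℓ g, ℓ • ξ = 0 → ξ = 0) ∧
      (∀ t : Jac ℓ g K, (∀ σ, act ℓ g K σ t = t) →
        ∃ s : Jac ℓ g K, (∀ σ, act ℓ g K σ s = s) ∧ ℓ • s = t)}.Infinite := by
  refine (hilbert_twist_core (A := A) hk hζ s hs hint hf hsep hirr hcop hreg).mono ?_
  intro c hc u γ hγ j hj g hg
  obtain ⟨d, d', hd, hdγ⟩ := hG γ hγ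
  refine hc (Units.map (algebraMap k A : k →* A) u * ⟨d, d', hd, by rw [mul_comm, hd]⟩) j hj g ?_
  have h1 : algebraMap A K ((Units.map (algebraMap k A : k →* A) u *
      ⟨d, d', hd, by rw [mul_comm, hd]⟩ : Aˣ) : A) = algebraMap k K u * γ := by
    rw [Units.val_mul, map_mul, Units.coe_map, MonoidHom.coe_coe,
      ← IsScalarTower.algebraMap_apply, ← hdγ]
  rw [h1]
  exact hg

end Core

end Pool.Agent.MP1bdb59C
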