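import Mathlib
import Pool.Agent.MP1bdb59C.HilbTw

/-!
# Twists over function fields over a Hilbertian field: the final theorem
-/

open Polynomial IsDedekindDomain

noncomputable section

open scoped Classical WithZero

namespace Pool.Agent.MP1bdb59C

open Pool.Agent.MP1bdb59 (Sep AbsGal emb resGal Place Completion placeOf TateModule)

universe u v

section Fin

variable {k₀ : Type*} {k : Type u} {K : Type v} [Field k₀] [Field k] [Algebra k₀ k] [CharZero k]
  [Field K] [Algebra k K]
  {ℓ : ℕ} [hp : Fact ℓ.Prime]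

/-- The main theorem, over a domain `A` containing the coefficients. -/
theorem hilbert_twist_lift [Algebra k[X] K] [IsScalarTower k k[X] K] [Algebra (RatFunc k) K]
    [IsScalarTower k[X] (RatFunc k) K] [FiniteDimensional (RatFunc k) K]
    {A : Type*} [CommRing A] [IsDedekindDomain A] [Algebra k[X] A] [Algebra A K]
    [IsFractionRing A K] [IsScalarTower k[X] A K] [Algebra k A] [IsScalarTower k k[X] A]
    [IsScalarTower k A K]
    (hk : HilbOver k₀ k) {ζ : k} (hζ : IsPrimitiveRoot ζ ℓ) (s : k[X])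
    (hs : s ≠ 0) (hint : ∀ a : A, ∃ N : ℕ, IsIntegral k[X] (algebraMap k[X] A s ^ N * a))
    {f : K[X]} (hf : f.Monic) (hirr : Irreducible f) (hcop : ¬ ℓ ∣ f.natDegree)
    (hreg : ∀ x : AdjoinRoot f, IsAlgebraic k x → x ∈ Set.range (algebraMap k (AdjoinRoot f)))
    {a b : K[X]} (hab : a * f + b * derivative f = 1) {S : Finset Kˣ} {W : Finset K}
    (hWf : f.coeffs ⊆ W) (hWa : a.coeffs ⊆ W) (hWb : b.coeffs ⊆ W)
    (hWS : ∀ γ ∈ S, (γ : K) ∈ W) (hWS' : ∀ γ ∈ S, ((γ⁻¹ : Kˣ) : K) ∈ W)
    (hmem : ∀ x ∈ W, x ∈ Set.range (algebraMap A K)) :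
    {c : k₀ | ∀ (u : kˣ), ∀ γ ∈ Subgroup.closure (S : Set Kˣ), ∀ j : ℕ, ¬ ℓ ∣ j →
      ∀ g : K[X], g = f.scaleRoots
        (algebraMap k K u * γ * algebraMap k[X] K (X - C (algebraMap k₀ k c)) ^ j) →
      (∀ ξ ∈ Sha k ℓ g, ℓ • ξ = 0 → ξ = 0) ∧
      (∀ t : Jac ℓ g K, (∀ σ, act ℓ g K σ t = t) →
        ∃ s : Jac ℓ g K, (∀ σ, act ℓ g K σ s = s) ∧ ℓ • s = t)}.Infinite := by
  have hlift : ∀ q : K[X], q.coeffs ⊆ W → ∃ q' : A[X], q'.map (algebraMap A K) = q := by
    intro q hq
    have h1 : q ∈ lifts (algebraMap A K) := by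
      rw [lifts_iff_coeff_lifts]
      intro n
      by_cases h0 : q.coeff n = 0
      · rw [h0]
        exact ⟨0, map_zero _⟩
      · exact hmem _ (hq (coeff_mem_coeffs h0))
    exact (mem_lifts q).mp h1
  obtain ⟨fA, rfl⟩ := hlift f hWf
  obtain ⟨aA, rfl⟩ := hlift a hWa
  obtain ⟨bA, rfl⟩ := hlift b hWb
  have hinjA : Function.Injective (algebraMap A K) := IsFractionRing.injective A K
  have hfA : fA.Monic := monic_of_injective hinjA hf
  have hsepA : fA.Separable := by
    refine ⟨aA, bA, ?_⟩
    apply map_injective _ hinjA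
    rw [Polynomial.map_add, Polynomial.map_mul, Polynomial.map_mul, Polynomial.map_one,
      ← derivative_map]
    exact hab
  -- the group `G` consists of units of `A`
  have hunit : ∀ γ ∈ Subgroup.closure (S : Set Kˣ), ∃ d d' : A, d * d' = 1 ∧
      algebraMap A K d = γ := by
    intro γ hγ
    induction hγ using Subgroup.closure_induction with
    | mem γ hγ =>
      obtain ⟨x, hx⟩ := hmem (γ : K) (hWS γ hγ)
      obtain ⟨y, hy⟩ := hmem ((γ⁻¹ : Kˣ) : K) (hWS' γ hγ)
      refine ⟨x, y, ?_, hx⟩
      apply hinjA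
      rw [map_mul, hx, hy, map_one, Units.mul_inv]
    | one => exact ⟨1, 1, one_mul 1, by rw [map_one, Units.val_one]⟩
    | mul γ γ' _ _ h1 h2 =>
      obtain ⟨x, y, h1, h1'⟩ := h1
      obtain ⟨x', y', h2, h2'⟩ := h2
      refine ⟨x * x', y * y', ?_, by rw [map_mul, h1', h2', Units.val_mul]⟩
      rw [mul_mul_mul_comm, h1, h2, one_mul]
    | inv γ _ h1 =>
      obtain ⟨x, y, h1, h1'⟩ := h1
      refine ⟨y, x, by rw [mul_comm, h1], ?_⟩
      have h3 := congrArg (algebraMap A K) h1
      rw [map_mul, map_one] at h3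
      rw [Units.val_inv_eq_inv_val, ← h1']
      exact eq_inv_of_mul_eq_one_right h3
  exact hilbert_twist_core' hk hζ s hs hint hfA hsepA hirr
    (by rwa [hfA.natDegree_map] at hcop) hreg hunit

/-- The main theorem, for a function field over `k(h)`. -/
theorem hilbert_twist_aux [Algebra k[X] K] [IsScalarTower k k[X] K] [Algebra (RatFunc k) K]
    [IsScalarTower k[X] (RatFunc k) K] [FiniteDimensional (RatFunc k) K]
    (hk : HilbOver k₀ k) {ζ : k} (hζ : IsPrimitiveRoot ζ ℓ)
    {f : K[X]} (hf : f.Monic) (hirr : Irreducible f) (hcop : ¬ ℓ ∣ f.natDegree)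
    (hreg : ∀ x : AdjoinRoot f, IsAlgebraic k x → x ∈ Set.range (algebraMap k (AdjoinRoot f)))
    {G : Subgroup Kˣ} (hG : G.FG) :
    {c : k₀ | ∀ (u : kˣ), ∀ γ ∈ G, ∀ j : ℕ, ¬ ℓ ∣ j → ∀ g : K[X], g = f.scaleRoots
        (algebraMap k K u * γ * algebraMap k[X] K (X - C (algebraMap k₀ k c)) ^ j) →
      (∀ ξ ∈ Sha k ℓ g, ℓ • ξ = 0 → ξ = 0) ∧
      (∀ t : Jac ℓ g K, (∀ σ, act ℓ g K σ t = t) →
        ∃ s : Jac ℓ g K, (∀ σ, act ℓ g K σ s = s) ∧ ℓ • s = t)}.Infinite := by
  have hc1 : CharZero (RatFunc k) :=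
    charZero_of_injective_algebraMap (algebraMap k (RatFunc k)).injective
  have hc2 : CharZero K := charZero_of_injective_algebraMap (algebraMap k K).injective
  have hs1 : Algebra.IsSeparable (RatFunc k) K := inferInstance
  have hsep : f.Separable := hirr.separable
  obtain ⟨a, b, hab⟩ := hsep
  -- the integral closure of `k[h]`
  set A₀ := integralClosure k[X] K with hA₀
  have j1 : IsFractionRing A₀ K :=
    integralClosure.isFractionRing_of_finite_extension (RatFunc k) K
  have j2 : IsDedekindDomain A₀ := IsIntegralClosure.isDedekindDomain k[X] (RatFunc k) K A₀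
  have hinjK : Function.Injective (algebraMap k[X] K) := by
    rw [IsScalarTower.algebraMap_eq k[X] (RatFunc k) K]
    exact (algebraMap (RatFunc k) K).injective.comp (IsFractionRing.injective k[X] (RatFunc k))
  -- the denominator
  obtain ⟨S, hS⟩ := hG
  obtain ⟨W, hW⟩ : ∃ W : Finset K, W = f.coeffs ∪ a.coeffs ∪ b.coeffs ∪
    (S.image (fun γ : Kˣ => (γ : K)) ∪ S.image (fun γ : Kˣ => ((γ⁻¹ : Kˣ) : K))) := ⟨_, rfl⟩
  obtain ⟨s, hs, hsint⟩ := exists_integral_multiples k[X] (RatFunc k) W
  have hsA : algebraMap k[X] A₀ s ≠ 0 := by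
    intro h0
    apply hs
    apply hinjK
    rw [IsScalarTower.algebraMap_apply k[X] A₀ K, h0, map_zero, map_zero]
  have hle : Submonoid.powers (algebraMap k[X] A₀ s) ≤ nonZeroDivisors A₀ := by
    rw [Submonoid.powers_le]
    exact mem_nonZeroDivisors_of_ne_zero hsA
  have k1 : IsLocalization (Submonoid.powers (algebraMap k[X] A₀ s))
      (Localization.subalgebra.ofField K _ hle) := inferInstance
  set A := Localization.subalgebra.ofField K _ hle with hA
  have k2 : IsFractionRing A K := inferInstance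
  have k3 : IsDedekindDomain A := IsLocalization.isDedekindDomain A₀ hle A
  have k4 : IsScalarTower k[X] A K := inferInstance
  have k5 : IsScalarTower k k[X] A := inferInstance
  have k6 : IsScalarTower k A K := inferInstance
  have k7 : IsScalarTower A₀ A K := inferInstance
  have k8 : IsScalarTower k[X] A₀ A := inferInstance
  -- elements of `A`
  have hmem : ∀ x ∈ W, x ∈ Set.range (algebraMap A K) := by
    intro x hx
    have h1 : IsIntegral k[X] (s • x) := hsint x hx
    have h2 : x ∈ A := by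
      refine ⟨⟨s • x, h1⟩, algebraMap k[X] A₀ s, Submonoid.mem_powers _, ?_⟩
      have h3 : algebraMap A₀ K (algebraMap k[X] A₀ s) ≠ 0 := by
        rwa [Ne, IsFractionRing.to_map_eq_zero_iff]
      rw [eq_mul_inv_iff_mul_eq₀ h3]
      change x * algebraMap k[X] K s = s • x
      rw [Algebra.smul_def, mul_comm]
    exact ⟨⟨x, h2⟩, rfl⟩
  rw [← hS]
  refine hilbert_twist_lift (A := A) hk hζ s hs ?_ hf hirr hcop hreg hab (S := S) (W := W)
    ?_ ?_ ?_ ?_ ?_ hmem
  · intro x
    obtain ⟨⟨y, ⟨_, N, rfl⟩⟩, hy⟩ := IsLocalization.surj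
      (Submonoid.powers (algebraMap k[X] A₀ s)) x
    refine ⟨N, ?_⟩
    have h1 : algebraMap k[X] A s ^ N * x = algebraMap A₀ A y := by
      rw [← hy, mul_comm]
      rfl
    rw [h1]
    exact (Algebra.IsIntegral.isIntegral (R := k[X]) y).map (IsScalarTower.toAlgHom k[X] A₀ A)
  · rw [hW]
    exact fun x hx => Finset.mem_union_left _ (Finset.mem_union_left _
      (Finset.mem_union_left _ hx))
  · rw [hW]
    exact fun x hx => Finset.mem_union_left _ (Finset.mem_union_left _
      (Finset.mem_union_right _ hx))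
  · rw [hW]
    exact fun x hx => Finset.mem_union_left _ (Finset.mem_union_right _ hx)
  · rw [hW]
    exact fun x hx => Finset.mem_union_right _ (Finset.mem_union_left _
      (Finset.mem_image_of_mem _ hx))
  · rw [hW]
    exact fun x hx => Finset.mem_union_right _ (Finset.mem_union_right _
      (Finset.mem_image_of_mem _ hx))

/-- **Twists over a function field over a Hilbertian field.** -/
theorem hilbert_twist (hk : HilbOver k₀ k) {ζ : k} (hζ : IsPrimitiveRoot ζ ℓ) {h : K}
    (htr : Transcendental k h) [FiniteDimensional (IntermediateField.adjoin k {h}) K]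
    {f : K[X]} (hf : f.Monic) (hirr : Irreducible f) (hcop : ¬ ℓ ∣ f.natDegree)
    (hreg : ∀ x : AdjoinRoot f, IsAlgebraic k x → x ∈ Set.range (algebraMap k (AdjoinRoot f)))
    {G : Subgroup Kˣ} (hG : G.FG) :
    {c : k₀ | ∀ (u : kˣ), ∀ γ ∈ G, ∀ j : ℕ, ¬ ℓ ∣ j → ∀ g : K[X],
      g = f.scaleRoots (algebraMap k K u * γ * (h - algebraMap k K (algebraMap k₀ k c)) ^ j) →
      (∀ ξ ∈ Sha k ℓ g, ℓ • ξ = 0 → ξ = 0) ∧
      (∀ t : Jac ℓ g K, (∀ σ, act ℓ g K σ t = t) →
        ∃ s : Jac ℓ g K, (∀ σ, act ℓ g K σ s = s) ∧ ℓ • s = t)}.Infinite := by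
  have hinj : Function.Injective (aeval h : k[X] →ₐ[k] K) := transcendental_iff_injective.mp htr
  let a1 : Algebra k[X] K := (aeval h : k[X] →ₐ[k] K).toRingHom.toAlgebra
  let a2 : Algebra (RatFunc k) K :=
    (IsFractionRing.lift (K := RatFunc k) (g := (aeval h : k[X] →ₐ[k] K).toRingHom) hinj).toAlgebra
  have t1 : IsScalarTower k[X] (RatFunc k) K := IsScalarTower.of_algebraMap_eq (fun p => by
    exact (IsFractionRing.lift_algebraMap hinj p).symm)
  have t2 : IsScalarTower k k[X] K := IsScalarTower.of_algebraMap_eq (fun c => by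
    exact (aeval_C (R := k) h c).symm)
  have hX : ∀ c : k, algebraMap k[X] K (X - C c) = h - algebraMap k K c := by
    intro c
    rw [map_sub]
    congr 1
    · exact aeval_X (R := k) h
    · exact aeval_C (R := k) h c
  have hfin : FiniteDimensional (RatFunc k) K := by
    have hcomp : (algebraMap (RatFunc k) K) =
        (algebraMap (IntermediateField.adjoin k {h}) K).comp
          (RatFunc.algEquivOfTranscendental h htr).toRingEquiv.toRingHom := by
      apply IsLocalization.ringHom_ext (nonZeroDivisors k[X])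
      apply Polynomial.ringHom_ext
      · intro c
        rw [RingHom.comp_apply, RingHom.comp_apply, RingHom.comp_apply]
        have h1 : (RatFunc.algEquivOfTranscendental h htr).toRingEquiv.toRingHom
            (algebraMap k[X] (RatFunc k) (C c)) = algebraMap k _ c := by
          have h2 : algebraMap k[X] (RatFunc k) (C c) = algebraMap k (RatFunc k) c := by
            rw [IsScalarTower.algebraMap_apply k k[X] (RatFunc k)]
            rfl
          rw [h2]
          exact (RatFunc.algEquivOfTranscendental h htr).commutes c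
        rw [h1, ← IsScalarTower.algebraMap_apply k[X] (RatFunc k) K, ← Polynomial.algebraMap_eq,
          ← IsScalarTower.algebraMap_apply, ← IsScalarTower.algebraMap_apply]
      · rw [RingHom.comp_apply, RingHom.comp_apply, RingHom.comp_apply,
          ← IsScalarTower.algebraMap_apply k[X] (RatFunc k) K]
        have h1 : (RatFunc.algEquivOfTranscendental h htr).toRingEquiv.toRingHom
            (algebraMap k[X] (RatFunc k) X) =
            aeval (IntermediateField.AdjoinSimple.gen k h) (X : k[X]) :=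
          RatFunc.algEquivOfTranscendental_algebraMap h htr X
        rw [h1, aeval_X, IntermediateField.AdjoinSimple.algebraMap_gen]
        exact aeval_X (R := k) h
    refine Module.Finite.of_equiv_equiv
      (RatFunc.algEquivOfTranscendental h htr).symm.toRingEquiv (RingEquiv.refl K) ?_
    ext x
    obtain ⟨u, rfl⟩ := (RatFunc.algEquivOfTranscendental h htr).surjective x
    have h1 := RingHom.congr_fun hcomp u
    rw [RingHom.comp_apply] at h1
    rw [RingHom.comp_apply, RingHom.comp_apply]
    have h2 : ((RatFunc.algEquivOfTranscendental h htr).symm.toRingEquiv :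
        IntermediateField.adjoin k {h} →+* RatFunc k)
        (RatFunc.algEquivOfTranscendental h htr u) = u :=
      (RatFunc.algEquivOfTranscendental h htr).symm_apply_apply u
    rw [h2, h1]
    rfl
  have hmain := hilbert_twist_aux hk hζ hf hirr hcop hreg hG
  refine hmain.mono ?_
  intro c hc u γ hγ j hj g hg
  refine hc u γ hγ j hj g ?_
  rw [hg, hX]

end Fin

end Pool.Agent.MP1bdb59C
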