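import Mathlib
import Pool.Agent.MP1bdb59C.HilbFin
import Pool.Agent.MP1bdb59C.GeomExt
import Pool.Agent.MP1bdb59C.BC

/-!
# Twists over function fields over a Hilbertian field: every prime `ℓ`
-/

open Polynomial

noncomputable section

open scoped Classical

namespace Pool.Agent.MP1bdb59C

open Pool.Agent.MP1bdb59 (Sep AbsGal emb resGal Place Completion placeOf TateModule)

universe u v

lemma finite_adjoin_ext {k K K' k' : Type*} [Field k] [Field K] [Field K'] [Field k'] [Algebra k K]
    [Algebra K K'] [Algebra k K'] [IsScalarTower k K K'] [Algebra k k'] [Algebra k' K']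
    [IsScalarTower k k' K'] [FiniteDimensional K K'] (h : K)
    [FiniteDimensional (IntermediateField.adjoin k {h}) K] :
    FiniteDimensional (IntermediateField.adjoin k' {algebraMap K K' h}) K' := by
  have hmem : ∀ x : IntermediateField.adjoin k {h}, algebraMap K K' x ∈
      IntermediateField.adjoin k' {algebraMap K K' h} := by
    rintro ⟨x, hx⟩
    change algebraMap K K' x ∈ _
    induction hx using IntermediateField.adjoin_induction with
    | mem x hx =>
      rw [Set.mem_singleton_iff] at hx
      rw [hx]
      exact IntermediateField.mem_adjoin_simple_self _ _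
    | algebraMap x =>
      rw [← IsScalarTower.algebraMap_apply, IsScalarTower.algebraMap_apply k k' K']
      exact IntermediateField.algebraMap_mem _ _
    | add x y _ _ hx hy => rw [map_add]; exact add_mem hx hy
    | inv x _ hx => rw [map_inv₀]; exact inv_mem hx
    | mul x y _ _ hx hy => rw [map_mul]; exact mul_mem hx hy
  let φ : IntermediateField.adjoin k {h} →+* IntermediateField.adjoin k' {algebraMap K K' h} :=
    RingHom.codRestrict ((algebraMap K K').comp (algebraMap (IntermediateField.adjoin k {h}) K))
      (IntermediateField.adjoin k' {algebraMap K K' h}) hmem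
  let i1 : Algebra (IntermediateField.adjoin k {h})
      (IntermediateField.adjoin k' {algebraMap K K' h}) := φ.toAlgebra
  have i3 : IsScalarTower (IntermediateField.adjoin k {h}) K K' := inferInstance
  have i4 : IsScalarTower (IntermediateField.adjoin k {h})
      (IntermediateField.adjoin k' {algebraMap K K' h}) K' :=
    IsScalarTower.of_algebraMap_eq (fun x => rfl)
  have i5 : Module.Finite (IntermediateField.adjoin k {h}) K' := Module.Finite.trans K K'
  exact Module.Finite.of_restrictScalars_finite (IntermediateField.adjoin k {h}) _ _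

lemma subgroup_fg_map {G G' : Type*} [Group G] [Group G'] {H : Subgroup G} (hH : H.FG)
    (φ : G →* G') : (H.map φ).FG := by
  obtain ⟨S, hS⟩ := hH
  refine ⟨S.image φ, ?_⟩
  rw [Finset.coe_image, ← MonoidHom.map_closure, hS]

section

variable {k : Type u} {K : Type v} [Field k] [CharZero k] [Field K] [Algebra k K]
  {ℓ : ℕ} [hp : Fact ℓ.Prime]

/-- **Twists over a function field over a Hilbertian field.** -/
theorem hilbert_twist_all (hk : IsHilbertian k) {h : K}
    (htr : Transcendental k h) [FiniteDimensional (IntermediateField.adjoin k {h}) K]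
    {f : K[X]} (hf : f.Monic) (hirr : Irreducible f) (hcop : ¬ ℓ ∣ f.natDegree)
    (hreg : ∀ x : AdjoinRoot f, IsAlgebraic k x → x ∈ Set.range (algebraMap k (AdjoinRoot f)))
    {G : Subgroup Kˣ} (hG : G.FG) :
    {c : k | ∀ (u : kˣ), ∀ γ ∈ G, ∀ j : ℕ, ¬ ℓ ∣ j → ∀ g : K[X],
      g = f.scaleRoots (algebraMap k K u * γ * (h - algebraMap k K c) ^ j) →
      (∀ ξ ∈ Sha k ℓ g, ℓ • ξ = 0 → ξ = 0) ∧
      (∀ t : Jac ℓ g K, (∀ σ, act ℓ g K σ t = t) →
        ∃ s : Jac ℓ g K, (∀ σ, act ℓ g K σ s = s) ∧ ℓ • s = t)}.Infinite := by
  have hℓ := hp.out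
  have hc2 : CharZero K := charZero_of_injective_algebraMap (algebraMap k K).injective
  have hne : NeZero (ℓ : K) := ⟨by exact_mod_cast hℓ.ne_zero⟩
  have hne' : NeZero ℓ := ⟨hℓ.ne_zero⟩
  let K' := CyclotomicField ℓ K
  have c1 : IsCyclotomicExtension {ℓ} K K' := CyclotomicField.isCyclotomicExtension ℓ K
  have i1 : FiniteDimensional K K' := IsCyclotomicExtension.finiteDimensional {ℓ} K K'
  have i2 : CharZero K' := charZero_of_injective_algebraMap (algebraMap K K').injective
  have i3 : Algebra.IsSeparable K K' := inferInstance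
  have i5 : IsScalarTower k K K' := inferInstance
  set ζ : K' := IsCyclotomicExtension.zeta ℓ K K' with hζ
  have hζs : IsPrimitiveRoot ζ ℓ := IsCyclotomicExtension.zeta_spec ℓ K K'
  have hζint : IsIntegral k ζ := by
    refine ⟨X ^ ℓ - 1, monic_X_pow_sub_C 1 hℓ.ne_zero, ?_⟩
    rw [eval₂_sub, eval₂_pow, eval₂_X, eval₂_one, hζs.pow_eq_one, sub_self]
  have htop : IntermediateField.adjoin K {ζ} = ⊤ := by
    apply IntermediateField.adjoin_eq_top_of_algebra
    exact IsCyclotomicExtension.adjoin_primitive_root_eq_top hζs
  have hregK := closed_base hirr hreg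
  have hd : ¬ ℓ ∣ Module.finrank K K' := by
    have h1 : Module.finrank K K' = (minpoly K ζ).natDegree := by
      have h1 : Module.finrank K (IntermediateField.adjoin K {ζ}) = (minpoly K ζ).natDegree :=
        IntermediateField.adjoin.finrank hζint.tower_top
      rwa [htop, IntermediateField.finrank_top'] at h1
    have h2 : minpoly K ζ ∣ cyclotomic ℓ K := by
      apply minpoly.dvd
      rw [← eval_map_algebraMap, map_cyclotomic]
      exact (isRoot_cyclotomic_iff.mpr hζs)
    have h3 := natDegree_le_of_dvd h2 (cyclotomic_ne_zero ℓ K)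
    rw [natDegree_cyclotomic, Nat.totient_prime hℓ] at h3
    have h4 : 0 < (minpoly K ζ).natDegree := minpoly.natDegree_pos hζint.tower_top
    rw [h1]
    intro h5
    have h6 := Nat.le_of_dvd h4 h5
    have h7 := hℓ.one_lt
    omega
  have i6 : FiniteDimensional k (IntermediateField.adjoin k {ζ}) :=
    IntermediateField.adjoin.finiteDimensional hζint
  have hover : HilbOver k (IntermediateField.adjoin k {ζ}) := hilbOver_of_finite hk
  have hζ' : IsPrimitiveRoot (IntermediateField.AdjoinSimple.gen k ζ) ℓ := by
    apply IsPrimitiveRoot.of_map_of_injective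
      (f := algebraMap (IntermediateField.adjoin k {ζ}) K') _ (RingHom.injective _)
    rw [IntermediateField.AdjoinSimple.algebraMap_gen]
    exact hζs
  have htr' : Transcendental (IntermediateField.adjoin k {ζ}) (algebraMap K K' h) := by
    have h1 : Transcendental k (algebraMap K K' h) :=
      (transcendental_algebraMap_iff (algebraMap K K').injective).mpr htr
    exact h1.extendScalars _
  have i7 : FiniteDimensional (IntermediateField.adjoin (IntermediateField.adjoin k {ζ})
      {algebraMap K K' h}) K' := finite_adjoin_ext (k := k) h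
  have hirr' := irreducible_ext hζint htop hf hirr hreg
  have i8 := Fact.mk hirr'
  have hmain := hilbert_twist (k₀ := k) (k := IntermediateField.adjoin k {ζ}) (K := K') (ℓ := ℓ)
    hover hζ' htr' (hf.map (algebraMap K K')) hirr' (by rwa [hf.natDegree_map])
    (closed_ext hζint htop hf hirr hreg) (subgroup_fg_map hG (Units.map (algebraMap K K' : K →* K')))
  refine hmain.mono ?_
  intro c hc u γ hγ j hj g hg
  obtain ⟨h1, h2⟩ := hc (Units.map (algebraMap k (IntermediateField.adjoin k {ζ}) : k →* _) u)
    (Units.map (algebraMap K K' : K →* K') γ) (Subgroup.mem_map_of_mem _ hγ) j hj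
    (g.map (algebraMap K K')) (by
      rw [hg, map_scaleRoots _ _ _ (by rw [hf.leadingCoeff, map_one]; exact one_ne_zero), map_mul,
        map_mul, map_pow, map_sub]
      rfl)
  exact descend_baseChange (k' := IntermediateField.adjoin k {ζ}) hd g h1 h2

end

end Pool.Agent.MP1bdb59C
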