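import Mathlib
import Pool.Agent.MP1bdb59C.HitDef

/-!
# Finitely generated fields of characteristic 0 are Hilbertian: induction on the generators

The inputs (number fields, rational function fields, finite extensions) are hypotheses here; they
are supplied in `HitFG.lean`.
-/

open Polynomial

noncomputable section

namespace Pool.Agent.MP1bdb59C

universe u

open IntermediateField in
/-- Induction on the number of generators. -/
theorem isHilbertian_of_fg_aux {k : Type u} [Field k] [CharZero k]
    (hbase : IsHilbertian (⊥ : IntermediateField ℚ k))
    (hpol : ∀ (F : Type u) [Field F] [CharZero F], IsHilbertian (RatFunc F))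
    (hfin : ∀ (F E : Type u) [Field F] [CharZero F] [Field E] [Algebra F E]
      [FiniteDimensional F E], IsHilbertian F → IsHilbertian E)
    (hfg : (⊤ : IntermediateField ℚ k).FG) : IsHilbertian k := by
  -- transfer along isomorphisms
  have htr : ∀ (F E : Type u) [Field F] [CharZero F] [Field E] (_ : F ≃+* E),
      IsHilbertian F → IsHilbertian E := by
    intro F E _ _ _ e h
    let _ : Algebra F E := e.toRingHom.toAlgebra
    have : FiniteDimensional F E :=
      Module.Finite.of_surjective (Algebra.linearMap F E) e.surjective
    exact hfin F E h
  have hall : IsHilbertian (⊤ : IntermediateField ℚ k) := by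
    refine induction_on_adjoin_fg (fun K : IntermediateField ℚ k => IsHilbertian K) hbase ?_ ⊤ hfg
    intro K x hK
    change IsHilbertian K⟮x⟯
    have : CharZero K := inferInstance
    by_cases hx : IsAlgebraic K x
    · have : FiniteDimensional K K⟮x⟯ := adjoin.finiteDimensional hx.isIntegral
      exact hfin K K⟮x⟯ hK
    · have : CharZero (RatFunc K) :=
        charZero_of_injective_algebraMap (algebraMap K (RatFunc K)).injective
      exact htr (RatFunc K) K⟮x⟯ (RatFunc.algEquivOfTranscendental x hx).toRingEquiv (hpol K)
  exact htr _ _ (topEquiv (F := ℚ) (E := k)).toRingEquiv hall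

end Pool.Agent.MP1bdb59C
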