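import Mathlib

/-!
# Uniform bound for the number of common zeros
-/

open Polynomial

noncomputable section

open scoped Classical

namespace Pool.Agent.MP1bdb59C

/-- The determinant of a matrix of polynomials with entries of degree at most `d`. -/
theorem natDegree_det_le_of_entries {R : Type*} [CommRing R] {n : ℕ} (A : Matrix (Fin n) (Fin n) R[X])
    (d : ℕ) (hA : ∀ i j, (A i j).natDegree ≤ d) : A.det.natDegree ≤ n * d := by
  rw [Matrix.det_apply]
  refine Polynomial.natDegree_sum_le_of_forall_le _ _ (fun σ _ => ?_)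
  refine (Polynomial.natDegree_smul_le _ _).trans ?_
  refine (Polynomial.natDegree_prod_le _ _).trans ?_
  refine (Finset.sum_le_card_nsmul _ _ d (fun i _ => hA _ _)).trans ?_
  simp

/-- An element divides its norm. -/
theorem exists_mul_eq_norm {R S : Type*} [CommRing R] [Nontrivial R] [CommRing S] [Algebra R S]
    [Module.Free R S] [Module.Finite R S] (x : S) :
    ∃ z : S, x * z = algebraMap R S (Algebra.norm R x) := by
  have h1 : aeval x (LinearMap.charpoly (Algebra.lmul R S x)) = 0 := by
    have h2 := LinearMap.aeval_self_charpoly (Algebra.lmul R S x)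
    rw [aeval_algHom_apply] at h2
    exact Algebra.lmul_injective (by rw [h2, map_zero])
  set p := LinearMap.charpoly (Algebra.lmul R S x) with hp
  have h3 : p = X * p.divX + C (p.coeff 0) := by
    rw [mul_comm]
    exact (divX_mul_X_add p).symm
  have h4 : x * aeval x p.divX = - algebraMap R S (p.coeff 0) := by
    rw [h3] at h1
    rw [map_add, map_mul, aeval_X, aeval_C] at h1
    exact eq_neg_of_add_eq_zero_left h1
  have h5 : Algebra.norm R x = (-1) ^ Module.finrank R S * p.coeff 0 := by
    rw [Algebra.norm_apply, LinearMap.det_eq_sign_charpoly_coeff]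
  refine ⟨-(algebraMap R S ((-1) ^ Module.finrank R S)) * aeval x p.divX, ?_⟩
  rw [h5, map_mul, mul_left_comm, h4]
  ring

/-- Uniform bound for the number of common zeros. -/
theorem card_common_le {K : Type*} [Field K] (g : K[X][X]) (hg : g.Monic)
    (hirr : Irreducible (g.map (algebraMap K[X] (RatFunc K)))) (D : ℕ) :
    ∃ B : ℕ, ∀ P : K[X][X], P ≠ 0 → P.natDegree < g.natDegree →
      (∀ i, (P.coeff i).natDegree < D) → ∀ S : Finset K,
      (∀ c ∈ S, ∃ y : K, (g.map (evalRingHom c)).eval y = 0 ∧
        (P.map (evalRingHom c)).eval y = 0) → S.card ≤ B := by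
  have hgirr : Irreducible g := (hg.irreducible_iff_irreducible_map_fraction_map).2 hirr
  have hdom : IsDomain (AdjoinRoot g) := AdjoinRoot.isDomain_of_prime hgirr.prime
  have hfree : Module.Free K[X] (AdjoinRoot g) := hg.free_adjoinRoot
  have hfin : Module.Finite K[X] (AdjoinRoot g) := hg.finite_adjoinRoot
  set pb := AdjoinRoot.powerBasis' hg with hpb
  set n := pb.dim with hn
  set M := Algebra.leftMulMatrix pb.basis (AdjoinRoot.root g) with hM
  set E : ℕ := ∑ i ∈ Finset.range g.natDegree, ∑ a, ∑ b, ((M ^ i) a b).natDegree with hE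
  refine ⟨n * (D + E), ?_⟩
  intro P hP0 hPdeg hPD S hS
  set x : AdjoinRoot g := AdjoinRoot.mk g P with hx
  have hx0 : x ≠ 0 := AdjoinRoot.mk_ne_zero_of_natDegree_lt hg hP0 hPdeg
  have hN0 : Algebra.norm K[X] x ≠ 0 := Algebra.norm_ne_zero_iff.2 hx0
  -- degree bound
  have hmat : Algebra.leftMulMatrix pb.basis x =
      ∑ i ∈ Finset.range g.natDegree, P.coeff i • M ^ i := by
    have h1 : x = ∑ i ∈ Finset.range g.natDegree, P.coeff i • AdjoinRoot.root g ^ i := by
      rw [hx, ← AdjoinRoot.aeval_eq, aeval_eq_sum_range' hPdeg]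
    rw [h1, map_sum]
    refine Finset.sum_congr rfl (fun i _ => ?_)
    rw [map_smul, map_pow]
  have hent : ∀ a b, (Algebra.leftMulMatrix pb.basis x a b).natDegree ≤ D + E := by
    intro a b
    rw [hmat, Matrix.sum_apply]
    refine Polynomial.natDegree_sum_le_of_forall_le _ _ (fun i hi => ?_)
    rw [Matrix.smul_apply, smul_eq_mul]
    refine natDegree_mul_le.trans (add_le_add (hPD i).le ?_)
    calc ((M ^ i) a b).natDegree ≤ ∑ b, ((M ^ i) a b).natDegree :=
          Finset.single_le_sum (f := fun b => ((M ^ i) a b).natDegree)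
            (fun _ _ => Nat.zero_le _) (Finset.mem_univ b)
      _ ≤ ∑ a, ∑ b, ((M ^ i) a b).natDegree :=
          Finset.single_le_sum (f := fun a => ∑ b, ((M ^ i) a b).natDegree)
            (fun _ _ => Nat.zero_le _) (Finset.mem_univ a)
      _ ≤ E := Finset.single_le_sum
            (f := fun i => ∑ a, ∑ b, ((M ^ i) a b).natDegree)
            (fun _ _ => Nat.zero_le _) hi
  have hdeg : (Algebra.norm K[X] x).natDegree ≤ n * (D + E) := by
    rw [Algebra.norm_eq_matrix_det pb.basis]
    exact natDegree_det_le_of_entries _ _ hent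
  refine le_trans ?_ hdeg
  apply Polynomial.card_le_degree_of_subset_roots
  intro c hc
  rw [Finset.mem_val] at hc
  rw [mem_roots hN0, IsRoot.def]
  obtain ⟨y, hgy, hPy⟩ := hS c hc
  obtain ⟨z, hz⟩ := exists_mul_eq_norm (R := K[X]) x
  have hy : g.eval₂ (evalRingHom c) y = 0 := by rwa [← eval_map]
  have h1 := congrArg (AdjoinRoot.lift (evalRingHom c) y hy) hz
  rw [map_mul, hx, AdjoinRoot.lift_mk, ← eval_map, hPy, zero_mul, AdjoinRoot.algebraMap_eq,
    AdjoinRoot.lift_of] at h1
  exact h1.symm

end Pool.Agent.MP1bdb59C
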