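import Mathlib

/-!
# The determinant of monomials at points of a curve in one smooth residue class
-/

open Polynomial

noncomputable section

open scoped Classical

namespace Pool.Agent.MP1bdb59C

/-- The determinant of values of polynomials at points congruent modulo `q`. -/
theorem dvd_det_of_eval {R : Type*} [CommRing R] (s : ℕ) (ψ : Fin s → R[X]) (q : R) (x : Fin s → R)
    (hx : ∀ i j, q ∣ x i - x j) :
    q ^ (s * (s - 1) / 2) ∣ (Matrix.of fun i j => (ψ j).eval (x i)).det := by
  induction s with
  | zero => simp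
  | succ s ih =>
    choose d hd using fun i : Fin s => hx i.succ 0
    set χ : Fin (s + 1) → R[X] := fun j => ψ j /ₘ (X - C (x 0)) with hχ
    have hdiv : ∀ i j, (ψ j).eval (x i) - (ψ j).eval (x 0) = (x i - x 0) * (χ j).eval (x i) := by
      intro i j
      have h1 := modByMonic_add_div (ψ j) (X - C (x 0))
      rw [modByMonic_X_sub_C_eq_C_eval] at h1
      have h2 := congrArg (eval (x i)) h1
      rw [eval_add, eval_C, eval_mul, eval_sub, eval_X, eval_C] at h2
      rw [← h2]
      ring
    set A : Matrix (Fin (s + 1)) (Fin (s + 1)) R := Matrix.of fun i j => (ψ j).eval (x i) with hA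
    set B : Matrix (Fin (s + 1)) (Fin (s + 1)) R := Matrix.of fun i j =>
      if i = 0 then (ψ j).eval (x 0) else (ψ j).eval (x i) - (ψ j).eval (x 0) with hB
    have hAB : A.det = B.det := by
      apply Matrix.det_eq_of_forall_row_eq_smul_add_const (fun i => if i = 0 then 0 else 1) 0
      · simp
      · intro i j
        by_cases hi : i = 0
        · subst hi
          simp [hA, hB]
        · simp [hA, hB, hi]
    rw [hAB, Matrix.det_succ_row_zero]
    apply Finset.dvd_sum
    intro j _
    apply Dvd.dvd.mul_left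
    have h3 : B.submatrix Fin.succ j.succAbove = Matrix.of fun i k =>
        (q * d i) * (Matrix.of fun i k : Fin s => (χ (j.succAbove k)).eval (x i.succ)) i k := by
      ext i k
      simp only [Matrix.submatrix_apply, hB, Matrix.of_apply, Fin.succ_ne_zero, if_false]
      rw [hdiv, hd]
    rw [h3, Matrix.det_mul_column, Finset.prod_mul_distrib, Finset.prod_const, Finset.card_univ,
      Fintype.card_fin]
    have h4 : (s + 1) * (s + 1 - 1) / 2 = s + s * (s - 1) / 2 := by
      have h5 : (s + 1) * (s + 1 - 1) = 2 * s + s * (s - 1) := by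
        rcases s with _ | s
        · rfl
        · simp only [Nat.add_sub_cancel]
          ring
      rw [h5, Nat.mul_add_div (by norm_num)]
    rw [h4, pow_add, mul_assoc]
    apply mul_dvd_mul_left
    apply Dvd.dvd.mul_left
    apply ih
    intro i i'
    exact hx _ _

/-- Hensel's lemma for an ideal, without completeness. -/
lemma hensel_aux {A : Type*} [CommRing A] (I : Ideal A) (G : A[X]) (y₀ u : A)
    (h₀ : G.eval y₀ ∈ I) (hu : u * (derivative G).eval y₀ - 1 ∈ I) (N : ℕ) :
    ∃ Φ : A, Φ - y₀ ∈ I ∧ G.eval Φ ∈ I ^ N := by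
  induction N with
  | zero => exact ⟨y₀, by simp, by simp⟩
  | succ N ih =>
    rcases Nat.eq_zero_or_pos N with hN | hN
    · subst hN
      exact ⟨y₀, by simp, by simpa using h₀⟩
    obtain ⟨Φ, h1, h2⟩ := ih
    have hI : I ^ N ≤ I := by
      conv_rhs => rw [← pow_one I]
      exact Ideal.pow_le_pow_right hN
    refine ⟨Φ + -(u * G.eval Φ), ?_, ?_⟩
    · have h3 : Φ + -(u * G.eval Φ) - y₀ = (Φ - y₀) - u * G.eval Φ := by ring
      rw [h3]
      exact I.sub_mem h1 (I.mul_mem_left _ (hI h2))
    · obtain ⟨k, hk⟩ := G.binomExpansion Φ (-(u * G.eval Φ))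
      rw [hk]
      have h4 : (derivative G).eval Φ - (derivative G).eval y₀ ∈ I := by
        obtain ⟨m, hm⟩ := sub_dvd_eval_sub Φ y₀ (derivative G)
        rw [hm]
        exact I.mul_mem_right _ h1
      have h5 : 1 - u * (derivative G).eval Φ ∈ I := by
        have h6 : 1 - u * (derivative G).eval Φ = -(u * (derivative G).eval y₀ - 1) -
            u * ((derivative G).eval Φ - (derivative G).eval y₀) := by ring
        rw [h6]
        exact I.sub_mem (I.neg_mem hu) (I.mul_mem_left _ h4)
      have h7 : G.eval Φ + (derivative G).eval Φ * -(u * G.eval Φ) + k * (-(u * G.eval Φ)) ^ 2 =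
          G.eval Φ * (1 - u * (derivative G).eval Φ) + (k * u ^ 2) * (G.eval Φ) ^ 2 := by ring
      rw [h7]
      apply Ideal.add_mem
      · rw [pow_succ]
        exact Ideal.mul_mem_mul h2 h5
      · apply Ideal.mul_mem_left
        have h8 : (G.eval Φ) ^ 2 ∈ (I ^ N) ^ 2 := Ideal.pow_mem_pow h2 2
        rw [← pow_mul] at h8
        exact Ideal.pow_le_pow_right (by omega) h8

/-- Two approximate roots which are congruent modulo `q` to a simple root are close. -/
lemma dvd_sub_of_root {R : Type*} [CommRing R] (f : R[X]) (q u y w : R) (N : ℕ)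
    (hu : q ∣ u * (derivative f).eval w - 1) (hyw : q ∣ y - w) (hy : f.eval y = 0)
    (hw : q ^ N ∣ f.eval w) : q ^ N ∣ y - w := by
  obtain ⟨k, hk⟩ := f.binomExpansion w (y - w)
  have h1 : w + (y - w) = y := by ring
  rw [h1, hy] at hk
  set h := y - w with hh
  set e := (derivative f).eval w + k * h with he
  have h2 : e * h = -f.eval w := by
    rw [he]
    linear_combination hk.symm
  have h3 : q ∣ 1 - u * e := by
    have h4 : 1 - u * e = -(u * (derivative f).eval w - 1) - (u * k) * h := by
      rw [he]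
      ring
    rw [h4]
    exact dvd_sub (dvd_neg.mpr hu) (Dvd.dvd.mul_left hyw _)
  have h5 : q ^ N ∣ (1 - u * e) ^ N := pow_dvd_pow_of_dvd h3 N
  have h6 : u * e ∣ 1 - (1 - u * e) ^ N := by
    have := sub_dvd_pow_sub_pow (1 : R) (1 - u * e) N
    rw [one_pow] at this
    have h7 : 1 - (1 - u * e) = u * e := by ring
    rwa [h7] at this
  obtain ⟨m, hm⟩ := h6
  have h8 : h = h * (1 - u * e) ^ N + u * m * (e * h) := by
    have : u * m * (e * h) = h * (u * e * m) := by ring
    rw [this, ← hm]
    ring
  rw [h8, h2]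
  exact dvd_add (Dvd.dvd.mul_left h5 _) (Dvd.dvd.mul_left (dvd_neg.mpr hw) _)

/-- Values of a polynomial in two variables at congruent points are congruent. -/
lemma dvd_eval_sub_eval {R : Type*} [CommRing R] (g : R[X][X]) (q c c' y y' : R)
    (hc : q ∣ c - c') (hy : q ∣ y - y') :
    q ∣ (g.map (evalRingHom c)).eval y - (g.map (evalRingHom c')).eval y' := by
  have key : ∀ c y : R, Ideal.Quotient.mk (Ideal.span {q}) ((g.map (evalRingHom c)).eval y) =
      g.eval₂ ((evalRingHom (Ideal.Quotient.mk (Ideal.span {q}) c)).comp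
        (mapRingHom (Ideal.Quotient.mk (Ideal.span {q}))))
        (Ideal.Quotient.mk (Ideal.span {q}) y) := by
    intro c y
    rw [eval_map, hom_eval₂]
    congr 1
    ext a
    · simp
    · simp
  have hq : ∀ a b : R, q ∣ a - b ↔
      Ideal.Quotient.mk (Ideal.span {q}) a = Ideal.Quotient.mk (Ideal.span {q}) b := by
    intro a b
    rw [Ideal.Quotient.eq, Ideal.mem_span_singleton]
  rw [hq, key, key, (hq _ _).mp hc, (hq _ _).mp hy]

/-- The determinant of monomials at points of a curve in one smooth residue class modulo `q`. -/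
theorem dvd_det {R : Type*} [CommRing R] (g : R[X][X]) (q c₀ y₀ u : R)
    (h₀ : q ∣ (g.map (evalRingHom c₀)).eval y₀)
    (hu : q ∣ u * ((derivative g).map (evalRingHom c₀)).eval y₀ - 1) (s : ℕ) (a b : Fin s → ℕ)
    (c y : Fin s → R) (hc : ∀ i, q ∣ c i - c₀) (hy : ∀ i, q ∣ y i - y₀)
    (hg : ∀ i, (g.map (evalRingHom (c i))).eval (y i) = 0) :
    q ^ (s * (s - 1) / 2) ∣ (Matrix.of fun i j => c i ^ a j * y i ^ b j).det := by
  set N := s * (s - 1) / 2 with hN
  set I : Ideal R[X] := Ideal.span {C q, X} with hI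
  set τ : R[X] →+* R[X] := eval₂RingHom C (C c₀ + X) with hτ
  have hcomp : ∀ z : R, (evalRingHom z).comp τ = evalRingHom (c₀ + z) := by
    intro z
    ext a
    · simp [hτ]
    · simp [hτ]
  have hev : ∀ (p : R[X][X]) (Φ : R[X]) (z : R), ((p.map τ).eval Φ).eval z =
      (p.map (evalRingHom (c₀ + z))).eval (Φ.eval z) := by
    intro p Φ z
    rw [← hcomp z, ← coe_evalRingHom z, eval_map, hom_eval₂, eval_map]
  have hmemI : ∀ f : R[X], q ∣ f.eval 0 → f ∈ I := by
    intro f hf
    obtain ⟨m, hm⟩ := hf
    rw [hI, Ideal.mem_span_pair]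
    refine ⟨C m, divX f, ?_⟩
    conv_rhs => rw [← divX_mul_X_add f]
    rw [coeff_zero_eq_eval_zero, hm, C_mul]
    ring
  obtain ⟨Φ, hΦ1, hΦ2⟩ := hensel_aux I (g.map τ) (C y₀) (C u)
    (by
      apply hmemI
      rw [hev, add_zero, eval_C]
      exact h₀)
    (by
      apply hmemI
      rw [eval_sub, eval_mul, eval_C, derivative_map, hev, add_zero, eval_C, eval_one]
      exact hu) N
  have hIq : ∀ z : R, q ∣ z → ∀ (k : ℕ) (f : R[X]), f ∈ I ^ k → q ^ k ∣ f.eval z := by
    intro z hz k f hf
    have h1 : I ≤ (Ideal.span {q}).comap (evalRingHom z) := by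
      rw [hI, Ideal.span_le]
      intro x hx
      rcases hx with hx | hx
      · rw [hx]
        simp [Ideal.mem_comap, Ideal.mem_span_singleton]
      · rw [Set.mem_singleton_iff.mp hx]
        simpa [Ideal.mem_comap, Ideal.mem_span_singleton] using hz
    have h2 : I ^ k ≤ ((Ideal.span {q}) ^ k).comap (evalRingHom z) :=
      (Ideal.pow_right_mono h1 k).trans (Ideal.le_comap_pow _ k)
    have h3 := h2 hf
    rw [Ideal.mem_comap, Ideal.span_singleton_pow, Ideal.mem_span_singleton] at h3
    exact h3
  have hw : ∀ i, q ^ N ∣ y i - Φ.eval (c i - c₀) := by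
    intro i
    have hci : c₀ + (c i - c₀) = c i := by ring
    have h1 : q ∣ Φ.eval (c i - c₀) - y₀ := by
      have := hIq (c i - c₀) (hc i) 1 (Φ - C y₀) (by rwa [pow_one])
      rwa [pow_one, eval_sub, eval_C] at this
    have h2 : q ∣ y i - Φ.eval (c i - c₀) := by
      have : y i - Φ.eval (c i - c₀) = (y i - y₀) - (Φ.eval (c i - c₀) - y₀) := by ring
      rw [this]
      exact dvd_sub (hy i) h1
    apply dvd_sub_of_root (g.map (evalRingHom (c i))) q u _ _ N _ h2 (hg i)
    · have := hIq (c i - c₀) (hc i) N _ hΦ2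
      rwa [hev, hci] at this
    · rw [derivative_map]
      have h3 := dvd_eval_sub_eval (derivative g) q (c i) c₀ (Φ.eval (c i - c₀)) y₀ (hc i) h1
      have h4 : u * ((derivative g).map (evalRingHom (c i))).eval (Φ.eval (c i - c₀)) - 1 =
          u * (((derivative g).map (evalRingHom (c i))).eval (Φ.eval (c i - c₀)) -
            ((derivative g).map (evalRingHom c₀)).eval y₀) +
          (u * ((derivative g).map (evalRingHom c₀)).eval y₀ - 1) := by ring
      rw [h4]
      exact dvd_add (Dvd.dvd.mul_left h3 _) hu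
  have hdet := dvd_det_of_eval s (fun j => (C c₀ + X) ^ a j * Φ ^ b j) q (fun i => c i - c₀)
    (fun i j => by
      have : c i - c₀ - (c j - c₀) = (c i - c₀) - (c j - c₀) := by ring
      rw [this]
      exact dvd_sub (hc i) (hc j))
  have hq : ∀ a b : R, q ^ N ∣ a - b ↔
      Ideal.Quotient.mk (Ideal.span {q ^ N}) a = Ideal.Quotient.mk (Ideal.span {q ^ N}) b := by
    intro a b
    rw [Ideal.Quotient.eq, Ideal.mem_span_singleton]
  have hcong : q ^ N ∣ (Matrix.of fun i j => c i ^ a j * y i ^ b j).det -
      (Matrix.of fun i j : Fin s => ((C c₀ + X) ^ a j * Φ ^ b j).eval (c i - c₀)).det := by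
    rw [hq, RingHom.map_det, RingHom.map_det]
    congr 1
    ext i j
    simp only [RingHom.mapMatrix_apply, Matrix.map_apply, Matrix.of_apply, eval_mul, eval_pow,
      eval_add, eval_C, eval_X, map_mul, map_pow, map_add]
    rw [(hq _ _).mp (hw i), ← map_add]
    congr 3
    ring
  have := dvd_add hcong hdet
  rwa [sub_add_cancel] at this

end Pool.Agent.MP1bdb59C
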