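import Mathlib
import Pool.Agent.MP1bdb59C.HitDef
import Pool.Agent.MP1bdb59C.Det
import Pool.Agent.MP1bdb59C.Bez

/-!
# The determinant method over `k₀[t]`
-/

open Polynomial

noncomputable section

open scoped Classical

namespace Pool.Agent.MP1bdb59C

/-! ### linear algebra -/

/-- if all maximal minors vanish, the columns are dependent -/
theorem exists_vec {K ι : Type*} [Field K] {s : ℕ} (v : ι → Fin s → K)
    (h : ∀ e : Fin s → ι, (Matrix.of fun i j => v (e i) j).det = 0) :
    ∃ P : Fin s → K, P ≠ 0 ∧ ∀ i, ∑ j, P j * v i j = 0 := by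
  by_cases hW : Submodule.span K (Set.range v) = ⊤
  · exfalso
    obtain ⟨f, hf1, hf2, hf3⟩ := Submodule.exists_fun_fin_finrank_span_eq K (Set.range v)
    have hr : Module.finrank K (Submodule.span K (Set.range v)) = s := by
      rw [hW, finrank_top, Module.finrank_fintype_fun_eq_card, Fintype.card_fin]
    choose e he using hf1
    have hli : LinearIndependent K (fun i : Fin s => v (e (Fin.cast hr.symm i))) := by
      have h1 := hf3.comp (Fin.cast hr.symm) (Fin.cast_injective _)
      have h2 : (fun i : Fin s => v (e (Fin.cast hr.symm i))) = f ∘ Fin.cast hr.symm := by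
        funext i
        exact he _
      rw [h2]
      exact h1
    have h3 := h (fun i => e (Fin.cast hr.symm i))
    set A : Matrix (Fin s) (Fin s) K := Matrix.of fun i j => v (e (Fin.cast hr.symm i)) j with hA
    have h4 : IsUnit A := Matrix.linearIndependent_rows_iff_isUnit.1 hli
    have h5 := (Matrix.isUnit_iff_isUnit_det A).1 h4
    rw [h3] at h5
    exact not_isUnit_zero h5
  · obtain ⟨f, hf0, hf⟩ := Submodule.exists_dual_map_eq_bot_of_lt_top
      (lt_top_iff_ne_top.2 hW) inferInstance
    have hfw : ∀ w : Fin s → K, f w = ∑ j, f (Pi.single j 1) * w j := by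
      intro w
      conv_lhs => rw [← Finset.univ_sum_single w, map_sum]
      refine Finset.sum_congr rfl fun j _ => ?_
      have : Pi.single j (w j) = w j • (Pi.single j 1 : Fin s → K) := by
        ext i
        by_cases hij : i = j
        · subst hij
          simp
        · simp [hij]
      rw [this, map_smul, smul_eq_mul, mul_comm]
    refine ⟨fun j => f (Pi.single j 1), ?_, ?_⟩
    · intro h0
      apply hf0
      refine LinearMap.ext fun w => ?_
      rw [hfw, LinearMap.zero_apply]
      refine Finset.sum_eq_zero fun j _ => ?_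
      have := congrFun h0 j
      simp only [Pi.zero_apply] at this
      rw [this, zero_mul]
    · intro i
      rw [← hfw]
      have : f (v i) ∈ Submodule.map f (Submodule.span K (Set.range v)) :=
        Submodule.mem_map_of_mem (Submodule.subset_span ⟨i, rfl⟩)
      rw [hf, Submodule.mem_bot] at this
      exact this

/-! ### the monomials -/

/-- exponent of `x` -/
def ea {D n : ℕ} (j : Fin (D * n)) : ℕ := (finProdFinEquiv.symm j).1

/-- exponent of `Y` -/
def eb {D n : ℕ} (j : Fin (D * n)) : ℕ := (finProdFinEquiv.symm j).2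

theorem ea_lt {D n : ℕ} (j : Fin (D * n)) : ea j < D := (finProdFinEquiv.symm j).1.2

theorem eb_lt {D n : ℕ} (j : Fin (D * n)) : eb j < n := (finProdFinEquiv.symm j).2.2

theorem eab_inj {D n : ℕ} {i j : Fin (D * n)} (h1 : ea i = ea j) (h2 : eb i = eb j) : i = j := by
  apply finProdFinEquiv.symm.injective
  exact Prod.ext (Fin.ext h1) (Fin.ext h2)

theorem sum_ea (D n : ℕ) : (∑ j : Fin (D * n), ea j) * 2 = n * (D * (D - 1)) := by
  have h1 : ∑ j : Fin (D * n), ea j = ∑ p : Fin D × Fin n, (p.1 : ℕ) :=
    finProdFinEquiv.symm.sum_comp (fun p : Fin D × Fin n => (p.1 : ℕ))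
  rw [h1, Fintype.sum_prod_type]
  simp only [Finset.sum_const, Finset.card_univ, Fintype.card_fin, smul_eq_mul]
  rw [← Finset.mul_sum, mul_assoc, Fin.sum_univ_eq_sum_range (fun i => i) D,
    Finset.sum_range_id_mul_two]

theorem sum_eb (D n : ℕ) : (∑ j : Fin (D * n), eb j) * 2 = D * (n * (n - 1)) := by
  have h1 : ∑ j : Fin (D * n), eb j = ∑ p : Fin D × Fin n, (p.2 : ℕ) :=
    finProdFinEquiv.symm.sum_comp (fun p : Fin D × Fin n => (p.2 : ℕ))
  rw [h1, Fintype.sum_prod_type]
  simp only [Finset.sum_const, Finset.card_univ, Fintype.card_fin, smul_eq_mul]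
  rw [mul_assoc, Fin.sum_univ_eq_sum_range (fun i => i) n, Finset.sum_range_id_mul_two]

/-- the polynomial with given coefficients -/
def mp {K : Type*} [Field K] {D n : ℕ} (P : Fin (D * n) → K) : K[X][X] :=
  ∑ j, monomial (eb j) (monomial (ea j) (P j))

theorem mp_coeff {K : Type*} [Field K] {D n : ℕ} (P : Fin (D * n) → K) (i : ℕ) :
    (mp P).coeff i = ∑ j, if eb j = i then monomial (ea j) (P j) else 0 := by
  unfold mp
  rw [finsetSum_coeff]
  refine Finset.sum_congr rfl fun j _ => ?_
  rw [coeff_monomial]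

theorem mp_ne_zero {K : Type*} [Field K] {D n : ℕ} {P : Fin (D * n) → K} (hP : P ≠ 0) :
    mp P ≠ 0 := by
  obtain ⟨j, hj⟩ := Function.ne_iff.1 hP
  intro h0
  apply hj
  have h1 : ((mp P).coeff (eb j)).coeff (ea j) = P j := by
    rw [mp_coeff, finsetSum_coeff, Finset.sum_eq_single j]
    · rw [if_pos rfl, coeff_monomial, if_pos rfl]
    · intro i _ hij
      by_cases h2 : eb i = eb j
      · rw [if_pos h2, coeff_monomial, if_neg]
        intro h3
        exact hij (eab_inj h3 h2)
      · rw [if_neg h2, coeff_zero]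
    · intro h
      exact absurd (Finset.mem_univ _) h
  rw [h0] at h1
  simp at h1
  exact h1.symm

theorem mp_natDegree {K : Type*} [Field K] {D n : ℕ} (hn : 0 < n) (P : Fin (D * n) → K) :
    (mp P).natDegree < n := by
  have : (mp P).natDegree ≤ n - 1 := by
    apply natDegree_sum_le_of_forall_le
    intro j _
    refine (natDegree_monomial_le _).trans ?_
    have := eb_lt j
    omega
  omega

theorem mp_coeff_natDegree {K : Type*} [Field K] {D n : ℕ} (hD : 0 < D) (P : Fin (D * n) → K)
    (i : ℕ) : ((mp P).coeff i).natDegree < D := by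
  have : ((mp P).coeff i).natDegree ≤ D - 1 := by
    rw [mp_coeff]
    apply natDegree_sum_le_of_forall_le
    intro j _
    split_ifs
    · refine (natDegree_monomial_le _).trans ?_
      have := ea_lt j
      omega
    · simp
  omega

theorem mp_eval {K : Type*} [Field K] {D n : ℕ} (P : Fin (D * n) → K) (c y : K) :
    ((mp P).map (evalRingHom c)).eval y = ∑ j, P j * (c ^ ea j * y ^ eb j) := by
  unfold mp
  rw [Polynomial.map_sum, eval_finsetSum]
  refine Finset.sum_congr rfl fun j _ => ?_
  rw [map_monomial, eval_monomial, coe_evalRingHom, eval_monomial]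
  ring

/-! ### degrees -/

theorem natDegree_det_le {k : Type*} [Field k] {s : ℕ} (M : Matrix (Fin s) (Fin s) k[X])
    (w : Fin s → ℕ) (h : ∀ i j, (M i j).natDegree ≤ w j) : M.det.natDegree ≤ ∑ j, w j := by
  rw [Matrix.det_apply]
  apply natDegree_sum_le_of_forall_le
  intro σ _
  refine (natDegree_smul_le _ _).trans ?_
  refine (natDegree_prod_le _ _).trans ?_
  exact Finset.sum_le_sum fun j _ => h _ _

/-- the degree of the value of a polynomial -/
theorem natDegree_eval_le {k : Type*} [Field k] {κ κ' m : ℕ} (a : k[X][X]) (ha : a.natDegree ≤ κ)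
    (ha' : ∀ i, (a.coeff i).natDegree ≤ κ') {c : k[X]} (hc : c.natDegree ≤ m) :
    (a.eval c).natDegree ≤ κ' + κ * m := by
  rw [eval_eq_sum_range]
  apply natDegree_sum_le_of_forall_le
  intro i hi
  have hi' : i ≤ κ := by
    have := Finset.mem_range.1 hi
    omega
  refine (natDegree_mul_le).trans ?_
  refine add_le_add (ha' i) ?_
  refine (natDegree_pow_le).trans ?_
  exact Nat.mul_le_mul hi' hc

/-- the degree of a root -/
theorem natDegree_root_le {k : Type*} [Field k] {E : ℕ} (f : k[X][X]) (hf : f.Monic)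
    (hn : 1 ≤ f.natDegree) (hE : ∀ i, i < f.natDegree → (f.coeff i).natDegree ≤ E) {y : k[X]}
    (hy : f.eval y = 0) : y.natDegree ≤ E := by
  by_contra hcon
  push Not at hcon
  rw [eval_eq_sum_range, Finset.sum_range_succ, hf.coeff_natDegree, one_mul] at hy
  have h1 : y ^ f.natDegree = -∑ i ∈ Finset.range f.natDegree, f.coeff i * y ^ i :=
    eq_neg_of_add_eq_zero_right hy
  have h2 : (∑ i ∈ Finset.range f.natDegree, f.coeff i * y ^ i).natDegree ≤
      E + (f.natDegree - 1) * y.natDegree := by
    apply natDegree_sum_le_of_forall_le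
    intro i hi
    have hi' := Finset.mem_range.1 hi
    refine (natDegree_mul_le).trans (add_le_add (hE i hi') ?_)
    refine (natDegree_pow_le).trans (Nat.mul_le_mul_right _ (by omega))
  have h3 : (y ^ f.natDegree).natDegree = f.natDegree * y.natDegree := natDegree_pow _ _
  rw [h1, natDegree_neg] at h3
  rw [h3] at h2
  obtain ⟨n, hn'⟩ : ∃ n, f.natDegree = n + 1 := ⟨f.natDegree - 1, by omega⟩
  rw [hn', Nat.add_sub_cancel, Nat.add_mul, one_mul] at h2
  omega

/-! ### evaluation and uniqueness -/

/-- coprimality with a power of `X - τ` -/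
theorem coprime_pow {k : Type*} [Field k] (τ : k) (m : ℕ) {w : k[X]} (hw : w.eval τ ≠ 0) :
    IsCoprime ((X - C τ) ^ m) w := by
  apply IsCoprime.pow_left
  rw [(irreducible_X_sub_C τ).coprime_iff_not_dvd, dvd_iff_isRoot]
  exact hw

/-- roots congruent modulo `X - τ` of congruent polynomials are congruent -/
theorem hensel_unique {k : Type*} [Field k] (f : k[X][X]) (τ : k) (m : ℕ) {y y' : k[X]}
    (h1 : (X - C τ) ^ m ∣ f.eval y) (h2 : (X - C τ) ^ m ∣ f.eval y') (hyy : y.eval τ = y'.eval τ)
    (hs : (f.derivative.eval y).eval τ ≠ 0) : (X - C τ) ^ m ∣ y' - y := by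
  obtain ⟨r, hr⟩ := binomExpansion f y (y' - y)
  rw [add_sub_cancel] at hr
  have h3 : (X - C τ) ^ m ∣ (y' - y) * (f.derivative.eval y + r * (y' - y)) := by
    have : (y' - y) * (f.derivative.eval y + r * (y' - y)) = f.eval y' - f.eval y := by
      rw [hr]
      ring
    rw [this]
    exact dvd_sub h2 h1
  refine IsCoprime.dvd_of_dvd_mul_right (coprime_pow τ m ?_) h3
  simp only [eval_add, eval_mul, eval_sub, hyy, sub_self, mul_zero, add_zero]
  exact hs

/-- evaluation at `c` and then at `τ` -/
theorem eval_eval {k : Type*} [Field k] (g : k[X][X][X]) (c y : k[X]) (τ : k) :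
    ((g.map (evalRingHom c)).eval y).eval τ =
      (g.map (eval₂RingHom (evalRingHom τ) (c.eval τ))).eval (y.eval τ) := by
  have h1 : (evalRingHom τ).comp (evalRingHom c) = eval₂RingHom (evalRingHom τ) (c.eval τ) := by
    apply Polynomial.ringHom_ext
    · intro a
      simp
    · simp
  rw [← h1, ← Polynomial.map_map, ← coe_evalRingHom τ, Polynomial.eval_map_apply]

/-- congruence of values in `c` -/
theorem dvd_eval_sub {R : Type*} [CommRing R] (g : R[X][X]) (c c' y : R) :
    c - c' ∣ (g.map (evalRingHom c)).eval y - (g.map (evalRingHom c')).eval y := by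
  have h : ∀ c : R, (g.map (evalRingHom c)).eval y = (g.eval (C y)).eval c := by
    intro c
    rw [← coe_evalRingHom c, ← Polynomial.eval_map_apply]
    simp
  rw [h, h]
  exact sub_dvd_eval_sub c c' _

/-! ### the resultant -/

theorem res_ne_zero {R K : Type*} [CommRing R] [IsDomain R] [Field K] [Algebra R K]
    [IsFractionRing R K] [CharZero K] (g : R[X][X]) (hirr : IrrOver R K g) :
    g.resultant g.derivative ≠ 0 := by
  intro h0
  set φ : R[X] →+* RatFunc K := (algebraMap K[X] (RatFunc K)).comp (mapRingHom (algebraMap R K))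
    with hφ
  have hinj : Function.Injective φ := by
    rw [hφ, RingHom.coe_comp]
    exact (IsFractionRing.injective K[X] (RatFunc K)).comp
      (map_injective _ (IsFractionRing.injective R K))
  have hsep : (g.map φ).Separable := Irreducible.separable hirr
  have h1 := resultant_map_map g g.derivative g.natDegree g.derivative.natDegree φ
  rw [h0, map_zero] at h1
  have h2 : (g.map φ).resultant (derivative g |>.map φ) = 0 := by
    rw [← h1, natDegree_map_eq_of_injective hinj, natDegree_map_eq_of_injective hinj]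
  rw [resultant_eq_zero_iff] at h2
  apply h2.2
  rw [← derivative_map]
  exact hsep

/-- roots are simple where the resultant does not vanish -/
theorem simple_root {A k : Type*} [CommRing A] [Field k] (g : A[X]) (hn : g.natDegree ≠ 0)
    (ψ : A →+* k) (hψ : ψ (g.resultant g.derivative) ≠ 0) {y : k} (hy : (g.map ψ).eval y = 0) :
    ((derivative g).map ψ).eval y ≠ 0 := by
  intro h
  obtain ⟨p, q, -, -, hpq⟩ := exists_mul_add_mul_eq_C_resultant g g.derivative le_rfl le_rfl
    (Or.inl hn)
  apply hψ
  have h1 := congrArg (fun f => (f.map ψ).eval y) hpq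
  simp only [Polynomial.map_add, Polynomial.map_mul, eval_add, eval_mul, hy, h, zero_mul,
    add_zero, map_C, eval_C] at h1
  exact h1.symm

/-! ### the bad values -/

/-- the test values -/
def cu {k : Type*} [Field k] (τ γ : k) (m : ℕ) (u : k) : k[X] := C γ + C u * (X - C τ) ^ m

theorem cu_eval {k : Type*} [Field k] (τ γ : k) {m : ℕ} (hm : 0 < m) (u : k) :
    (cu τ γ m u).eval τ = γ := by
  unfold cu
  simp [hm.ne']

theorem cu_natDegree {k : Type*} [Field k] (τ γ : k) (m : ℕ) (u : k) :
    (cu τ γ m u).natDegree ≤ m := by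
  unfold cu
  refine (natDegree_add_le _ _).trans (max_le (by simp) ?_)
  refine (natDegree_C_mul_le _ _).trans ?_
  rw [natDegree_pow, natDegree_X_sub_C, mul_one]

theorem cu_inj {k : Type*} [Field k] (τ γ : k) (m : ℕ) : Function.Injective (cu τ γ m) := by
  intro u u' h
  unfold cu at h
  have h1 : C u * (X - C τ) ^ m = C u' * (X - C τ) ^ m := add_left_cancel h
  have h2 : (X - C τ) ^ m ≠ 0 := pow_ne_zero _ (X_sub_C_ne_zero τ)
  exact C_injective (mul_right_cancel₀ h2 h1)

theorem dvd_cu {k : Type*} [Field k] (τ γ : k) (m : ℕ) (u : k) :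
    (X - C τ) ^ m ∣ cu τ γ m u - C γ := ⟨C u, by unfold cu; ring⟩

theorem arith_key {κ κ' m n : ℕ} (hn : 2 ≤ n) (hm : κ' < m)
    (h : m * ((κ + 1) * n * ((κ + 1) * n - 1) / 2) ≤
      m * (∑ j : Fin ((κ + 1) * n), ea j) + (κ' + κ * m) * ∑ j : Fin ((κ + 1) * n), eb j) :
    False := by
  have h1 := sum_ea (κ + 1) n
  have h2 := sum_eb (κ + 1) n
  have h3 : (κ + 1) * n * ((κ + 1) * n - 1) / 2 * 2 = (κ + 1) * n * ((κ + 1) * n - 1) :=
    Nat.div_mul_cancel (Nat.even_mul_pred_self _).two_dvd
  set A := ∑ j : Fin ((κ + 1) * n), ea j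
  set B := ∑ j : Fin ((κ + 1) * n), eb j
  set N := (κ + 1) * n * ((κ + 1) * n - 1) / 2
  obtain ⟨n', rfl⟩ : ∃ n', n = n' + 1 := ⟨n - 1, by omega⟩
  have hn' : 1 ≤ n' := by omega
  have e1 : (κ + 1) * (n' + 1) - 1 = κ * n' + κ + n' := by
    have : (κ + 1) * (n' + 1) = κ * n' + κ + n' + 1 := by ring
    omega
  rw [e1] at h3
  simp only [Nat.add_sub_cancel] at h1 h2
  have h4 : m * (N * 2) ≤ m * (A * 2) + (κ' + κ * m) * (B * 2) := by nlinarith
  rw [h1, h2, h3] at h4
  have h5 : (κ + 1) * (n' + 1) * (m * (κ * n' + κ + n')) ≤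
      (κ + 1) * (n' + 1) * (m * κ + (κ' + κ * m) * n') := by
    calc (κ + 1) * (n' + 1) * (m * (κ * n' + κ + n'))
        = m * ((κ + 1) * (n' + 1) * (κ * n' + κ + n')) := by ring
      _ ≤ _ := h4
      _ = _ := by ring
  have h6 := Nat.le_of_mul_le_mul_left h5 (by positivity)
  nlinarith

theorem bad_finite {k : Type*} [Field k] [CharZero k] (g : k[X][X][X]) (hg : g.Monic)
    (hn : 2 ≤ g.natDegree) (hirr : IrrOver k[X] (RatFunc k) g) {κ κ' m : ℕ}
    (hκ : ∀ j, (g.coeff j).natDegree ≤ κ) (hκ' : ∀ j i, ((g.coeff j).coeff i).natDegree ≤ κ')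
    (hm : κ' < m) (τ γ : k)
    (hψ : (eval₂RingHom (evalRingHom τ) γ) (g.resultant g.derivative) ≠ 0) :
    {u : k | ∃ y : k[X], (g.map (evalRingHom (cu τ γ m u))).eval y = 0}.Finite := by
  have hm0 : 0 < m := by omega
  set n := g.natDegree with hndef
  set ψ : k[X][X] →+* k := eval₂RingHom (evalRingHom τ) γ with hψdef
  set K := RatFunc k
  -- the polynomial over `K`
  set gK : K[X][X] := g.map (mapRingHom (algebraMap k[X] K)) with hgK
  have hgKm : gK.Monic := hg.map _
  have hgKn : gK.natDegree = n := hg.natDegree_map _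
  have hgKi : Irreducible (gK.map (algebraMap K[X] (RatFunc K))) := by
    rw [hgK, Polynomial.map_map]
    exact hirr
  obtain ⟨B, hB⟩ := card_common_le gK hgKm hgKi (κ + 1)
  -- degrees of roots
  have hdeg : ∀ (u : k) (y : k[X]), (g.map (evalRingHom (cu τ γ m u))).eval y = 0 →
      y.natDegree ≤ κ' + κ * m := by
    intro u y hy
    have hnd : (g.map (evalRingHom (cu τ γ m u))).natDegree = n := hg.natDegree_map _
    refine natDegree_root_le _ (hg.map _) (by rw [hnd]; omega) (fun i _ => ?_) hy
    rw [coeff_map]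
    exact natDegree_eval_le _ (hκ i) (hκ' i) (cu_natDegree τ γ m u)
  -- one class
  have hclass : ∀ y₀ : k, {u : k | ∃ y : k[X], (g.map (evalRingHom (cu τ γ m u))).eval y = 0 ∧
      y.eval τ = y₀}.Finite := by
    intro y₀
    by_contra hinf
    obtain ⟨T, hT, hTc⟩ := Set.Infinite.exists_subset_card_eq hinf (B + 1)
    have hT' : ∀ u : T, ∃ y : k[X], (g.map (evalRingHom (cu τ γ m u.1))).eval y = 0 ∧
      y.eval τ = y₀ := fun u => hT u.2
    choose y hy1 hy2 using hT'
    have hTne : T.Nonempty := by
      rw [← Finset.card_pos]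
      omega
    obtain ⟨u₁, hu₁⟩ := hTne
    set w : T := ⟨u₁, hu₁⟩
    set q : k[X] := (X - C τ) ^ m with hq
    -- `g(γ, y) = 0` modulo `q`
    have hroot : ∀ u : T, q ∣ (g.map (evalRingHom (C γ))).eval (y u) := by
      intro u
      have h1 := dvd_eval_sub g (cu τ γ m u.1) (C γ) (y u)
      rw [hy1 u, zero_sub, dvd_neg] at h1
      exact (dvd_cu τ γ m u.1).trans h1
    have hy₀ : (g.map ψ).eval y₀ = 0 := by
      have h1 := eval_eval g (cu τ γ m u₁) (y w) τ
      rw [cu_eval τ γ hm0, hy2 w] at h1
      rw [← h1]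
      have := hy1 w
      change (g.map (evalRingHom (cu τ γ m u₁))).eval (y w) = 0 at this
      rw [this, eval_zero]
    have hsimple := simple_root g (by omega) ψ hψ hy₀
    have hder : (((derivative g).map (evalRingHom (C γ))).eval (y w)).eval τ ≠ 0 := by
      rw [eval_eval, eval_C, hy2 w]
      exact hsimple
    have hcong : ∀ u : T, q ∣ y u - y w := by
      intro u
      refine hensel_unique (g.map (evalRingHom (C γ))) τ m (hroot w) (hroot u)
        (by rw [hy2, hy2]) ?_
      rw [derivative_map]
      exact hder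
    obtain ⟨a, b, hab⟩ := coprime_pow τ m hder
    -- the determinants vanish
    have hdet : ∀ e : Fin ((κ + 1) * n) → T, (Matrix.of fun i j : Fin ((κ + 1) * n) =>
        cu τ γ m (e i).1 ^ ea j * y (e i) ^ eb j).det = 0 := by
      intro e
      by_contra hne
      have h1 := dvd_det g q (C γ) (y w) b (hroot w)
        ⟨-a, by linear_combination hab⟩ ((κ + 1) * n) ea eb (fun i => cu τ γ m (e i).1)
        (fun i => y (e i)) (fun i => dvd_cu τ γ m _) (fun i => hcong _) (fun i => hy1 _)
      have h2 := natDegree_le_of_dvd h1 hne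
      have h3 := natDegree_det_le (Matrix.of fun i j : Fin ((κ + 1) * n) =>
        cu τ γ m (e i).1 ^ ea j * y (e i) ^ eb j) (fun j => m * ea j + (κ' + κ * m) * eb j)
        (fun i j => by
          rw [Matrix.of_apply]
          refine (natDegree_mul_le).trans (add_le_add ?_ ?_)
          · refine (natDegree_pow_le).trans ?_
            rw [mul_comm m]
            exact Nat.mul_le_mul_left _ (cu_natDegree τ γ m _)
          · refine (natDegree_pow_le).trans ?_
            rw [mul_comm _ (eb j)]
            exact Nat.mul_le_mul_left _ (hdeg _ _ (hy1 _)))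
      rw [Finset.sum_add_distrib, ← Finset.mul_sum, ← Finset.mul_sum] at h3
      have h4 : (q ^ ((κ + 1) * n * ((κ + 1) * n - 1) / 2)).natDegree =
          m * ((κ + 1) * n * ((κ + 1) * n - 1) / 2) := by
        rw [hq, ← pow_mul, natDegree_pow, natDegree_X_sub_C, mul_one]
      rw [h4] at h2
      exact arith_key hn hm (h2.trans h3)
    -- the vector
    obtain ⟨P, hP0, hP⟩ := exists_vec (K := K) (ι := T)
      (fun u j => algebraMap k[X] K (cu τ γ m u.1) ^ ea j * algebraMap k[X] K (y u) ^ eb j)
      (fun e => by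
        have h1 := congrArg (algebraMap k[X] K) (hdet e)
        rw [RingHom.map_det, map_zero] at h1
        rw [← h1]
        congr 1
        ext i j
        simp)
    -- the common zeros
    have h1 := hB (mp P) (mp_ne_zero hP0) (by rw [hgKn]; exact mp_natDegree (by omega) P)
      (mp_coeff_natDegree (by omega) P)
      (Finset.univ.image fun u : T => algebraMap k[X] K (cu τ γ m u.1)) (by
        intro c hc
        obtain ⟨u, -, rfl⟩ := Finset.mem_image.1 hc
        refine ⟨algebraMap k[X] K (y u), ?_, ?_⟩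
        · have h2 := congrArg (algebraMap k[X] K) (hy1 u)
          rw [map_zero] at h2
          rw [← h2, hgK, Polynomial.map_map]
          have h3 : (evalRingHom (algebraMap k[X] K (cu τ γ m u.1))).comp
              (mapRingHom (algebraMap k[X] K)) =
              (algebraMap k[X] K).comp (evalRingHom (cu τ γ m u.1)) := by
            apply Polynomial.ringHom_ext
            · intro a
              simp
            · simp
          rw [h3, ← Polynomial.map_map, Polynomial.eval_map_apply]
        · rw [mp_eval]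
          exact hP u)
    rw [Finset.card_image_of_injective, Finset.card_univ, Fintype.card_coe, hTc] at h1
    · omega
    · intro u u' huu
      exact Subtype.ext (cu_inj τ γ m (IsFractionRing.injective k[X] K huu))
  -- all classes
  have hroots : ((g.map ψ).rootSet k).Finite := (g.map ψ).rootSet_finite k
  refine ((hroots.biUnion fun y₀ _ => hclass y₀).subset ?_)
  rintro u ⟨y, hy⟩
  simp only [Set.mem_iUnion, exists_prop]
  refine ⟨y.eval τ, ?_, y, hy, rfl⟩
  have h1 := eval_eval g (cu τ γ m u) y τ
  rw [hy, eval_zero, cu_eval τ γ hm0] at h1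
  rw [mem_rootSet]
  refine ⟨(hg.map ψ).ne_zero, ?_⟩
  rw [coe_aeval_eq_eval]
  exact h1.symm

/-! ### the theorem -/

/-- common degree bounds -/
theorem exists_kappa {k : Type*} [Field k] (S : Finset k[X][X][X]) : ∃ κ κ' : ℕ, ∀ g ∈ S,
    (∀ j, (g.coeff j).natDegree ≤ κ) ∧ ∀ j i, ((g.coeff j).coeff i).natDegree ≤ κ' := by
  refine ⟨S.sup fun g => g.support.sup fun j => (g.coeff j).natDegree,
    S.sup fun g => g.support.sup fun j => (g.coeff j).support.sup fun i =>
      ((g.coeff j).coeff i).natDegree, fun g hg => ⟨fun j => ?_, fun j i => ?_⟩⟩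
  · by_cases hj : g.coeff j = 0
    · rw [hj]
      simp
    · have h1 := Finset.le_sup (f := fun j => (g.coeff j).natDegree) (mem_support_iff.2 hj)
      exact h1.trans (Finset.le_sup (f := fun g : k[X][X][X] =>
        g.support.sup fun j => (g.coeff j).natDegree) hg)
  · by_cases hj : g.coeff j = 0
    · rw [hj]
      simp
    by_cases hi : (g.coeff j).coeff i = 0
    · rw [hi]
      simp
    have h1 := Finset.le_sup (f := fun i => ((g.coeff j).coeff i).natDegree)
      (mem_support_iff.2 hi)
    have h2 := Finset.le_sup (f := fun j => (g.coeff j).support.sup fun i =>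
      ((g.coeff j).coeff i).natDegree) (mem_support_iff.2 hj)
    exact (h1.trans h2).trans (Finset.le_sup (f := fun g : k[X][X][X] =>
      g.support.sup fun j => (g.coeff j).support.sup fun i =>
      ((g.coeff j).coeff i).natDegree) hg)

theorem noRootInf_pol (k₀ : Type*) [Field k₀] [CharZero k₀] : NoRootInf k₀[X] (RatFunc k₀) := by
  intro S hS
  obtain ⟨κ, κ', hκ⟩ := exists_kappa S
  -- the point `(τ, γ)`
  set r : k₀[X][X] := ∏ g ∈ S, g.resultant g.derivative with hr
  have hr0 : r ≠ 0 := Finset.prod_ne_zero_iff.2 fun g hg =>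
    res_ne_zero (K := RatFunc k₀) g (hS g hg).2.2
  have hinf : Infinite k₀ := inferInstance
  obtain ⟨γ, hγ⟩ : ∃ γ : k₀, r.eval (C γ) ≠ 0 := by
    by_contra hcon
    push Not at hcon
    apply hr0
    apply Polynomial.eq_zero_of_infinite_isRoot
    exact (Set.infinite_range_of_injective (C_injective (R := k₀))).mono
      (by rintro _ ⟨γ, rfl⟩; exact hcon γ)
  obtain ⟨τ, hτ⟩ : ∃ τ : k₀, (r.eval (C γ)).eval τ ≠ 0 := by
    by_contra hcon
    push Not at hcon
    apply hγ
    apply Polynomial.funext
    intro τ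
    rw [hcon τ, eval_zero]
  have hψ : ∀ g ∈ S, (eval₂RingHom (evalRingHom τ) γ) (g.resultant g.derivative) ≠ 0 := by
    intro g hg h0
    apply hτ
    have h1 : (evalRingHom τ).comp (evalRingHom (C γ)) = eval₂RingHom (evalRingHom τ) γ := by
      apply Polynomial.ringHom_ext
      · intro a
        simp
      · simp
    have h2 : (r.eval (C γ)).eval τ = (eval₂RingHom (evalRingHom τ) γ) r := by
      rw [← h1]
      rfl
    rw [h2, hr, map_prod]
    exact Finset.prod_eq_zero hg h0
  -- the bad set
  have hbad : (⋃ g ∈ S, {u : k₀ | ∃ y : k₀[X],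
      (g.map (evalRingHom (cu τ γ (κ' + 1) u))).eval y = 0}).Finite := by
    refine Set.Finite.biUnion S.finite_toSet fun g hg => ?_
    exact bad_finite g (hS g hg).1 (hS g hg).2.1 (hS g hg).2.2 (hκ g hg).1 (hκ g hg).2
      (Nat.lt_succ_self _) τ γ (hψ g hg)
  have hgood := hbad.infinite_compl
  refine (hgood.image (cu_inj τ γ (κ' + 1)).injOn).mono ?_
  rintro _ ⟨u, hu, rfl⟩
  intro g hg y hy
  apply hu
  simp only [Set.mem_iUnion, exists_prop]
  exact ⟨g, hg, y, hy⟩

end Pool.Agent.MP1bdb59C
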