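import Mathlib
import Pool.Agent.MP1bdb59C.HitDef
import Pool.Agent.MP1bdb59C.Det
import Pool.Agent.MP1bdb59C.Bez
import Pool.Agent.MP1bdb59C.HitPol

/-!
# The determinant method over `ℤ`
-/

open Polynomial

noncomputable section

open scoped Classical

namespace Pool.Agent.MP1bdb59C

/-! ### sizes -/

/-- the size of the value of a polynomial -/
theorem hi_eval_le (a : ℤ[X]) {κ : ℕ} (ha : a.natDegree ≤ κ) {T : ℤ} (hT : 1 ≤ T) {c : ℤ}
    (hc : |c| ≤ T) : |a.eval c| ≤ (∑ i ∈ Finset.range (κ + 1), |a.coeff i|) * T ^ κ := by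
  rw [eval_eq_sum_range' (Nat.lt_succ_of_le ha), Finset.sum_mul]
  refine (Finset.abs_sum_le_sum_abs _ _).trans (Finset.sum_le_sum fun i hi => ?_)
  rw [abs_mul, abs_pow]
  refine mul_le_mul_of_nonneg_left ?_ (abs_nonneg _)
  have hi' : i ≤ κ := by
    have := Finset.mem_range.1 hi
    omega
  exact (pow_le_pow_left₀ (abs_nonneg _) hc i).trans (pow_le_pow_right₀ hT hi')

/-- the size of a root -/
theorem hi_root_le {E : ℤ} (hE1 : 0 ≤ E) (f : ℤ[X]) (hf : f.Monic) (hn : 1 ≤ f.natDegree)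
    (hE : ∀ i, i < f.natDegree → |f.coeff i| ≤ E) {y : ℤ} (hy : f.eval y = 0) :
    |y| ≤ f.natDegree * E := by
  by_cases hy0 : y = 0
  · rw [hy0, abs_zero]
    positivity
  have hy1 : 1 ≤ |y| := Int.one_le_abs hy0
  rw [eval_eq_sum_range, Finset.sum_range_succ, hf.coeff_natDegree, one_mul] at hy
  have h1 : y ^ f.natDegree = -∑ i ∈ Finset.range f.natDegree, f.coeff i * y ^ i :=
    eq_neg_of_add_eq_zero_right hy
  have h2 : |y| ^ f.natDegree ≤ (f.natDegree * E) * |y| ^ (f.natDegree - 1) := by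
    rw [← abs_pow, h1, abs_neg]
    refine (Finset.abs_sum_le_sum_abs _ _).trans ?_
    refine (Finset.sum_le_card_nsmul _ _ (E * |y| ^ (f.natDegree - 1)) fun i hi => ?_).trans ?_
    · have hi' := Finset.mem_range.1 hi
      rw [abs_mul, abs_pow]
      exact mul_le_mul (hE i hi') (pow_le_pow_right₀ hy1 (by omega)) (by positivity) hE1
    · rw [Finset.card_range, nsmul_eq_mul, mul_assoc]
  have h3 : |y| ^ f.natDegree = |y| * |y| ^ (f.natDegree - 1) := by
    rw [← pow_succ']
    congr 1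
    omega
  rw [h3] at h2
  exact le_of_mul_le_mul_right h2 (by positivity)

/-- the size of a determinant -/
theorem hi_det_le {s : ℕ} (M : Matrix (Fin s) (Fin s) ℤ) (w : Fin s → ℤ)
    (h : ∀ i j, |M i j| ≤ w j) : |M.det| ≤ s.factorial * ∏ j, w j := by
  rw [Matrix.det_apply]
  refine (Finset.abs_sum_le_sum_abs _ _).trans ?_
  refine (Finset.sum_le_card_nsmul _ _ (∏ j, w j) fun σ _ => ?_).trans ?_
  · have h1 : |Equiv.Perm.sign σ • ∏ i, M (σ i) i| = ∏ i, |M (σ i) i| := by
      rw [← Finset.abs_prod]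
      rcases Int.units_eq_one_or (Equiv.Perm.sign σ) with h | h
      · rw [h, one_smul]
      · rw [h, Units.neg_smul, one_smul, abs_neg]
    rw [h1]
    exact Finset.prod_le_prod (fun _ _ => abs_nonneg _) fun j _ => h _ _
  · rw [Finset.card_univ, Fintype.card_perm, Fintype.card_fin, nsmul_eq_mul]

theorem hi_arith {κ n : ℕ} (hn : 2 ≤ n) :
    (∑ j : Fin ((κ + 1) * n), ea j) + κ * (∑ j : Fin ((κ + 1) * n), eb j) + 1 ≤
      (κ + 1) * n * ((κ + 1) * n - 1) / 2 := by
  have h1 := sum_ea (κ + 1) n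
  have h2 := sum_eb (κ + 1) n
  have h3 : (κ + 1) * n * ((κ + 1) * n - 1) / 2 * 2 = (κ + 1) * n * ((κ + 1) * n - 1) :=
    Nat.div_mul_cancel (Nat.even_mul_pred_self _).two_dvd
  set A := ∑ j : Fin ((κ + 1) * n), ea j
  set B := ∑ j : Fin ((κ + 1) * n), eb j
  set N := (κ + 1) * n * ((κ + 1) * n - 1) / 2
  obtain ⟨n', rfl⟩ : ∃ n', n = n' + 1 := ⟨n - 1, by omega⟩
  have hn' : 1 ≤ n' := by omega
  have e1 : (κ + 1) * (n' + 1) - 1 = κ * n' + κ + n' := by
    have : (κ + 1) * (n' + 1) = κ * n' + κ + n' + 1 := by ring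
    omega
  rw [e1] at h3
  simp only [Nat.add_sub_cancel] at h1 h2
  have h4 : (A + κ * B) * 2 = (κ + 1) * (n' + 1) * (κ + κ * n') := by
    calc (A + κ * B) * 2 = A * 2 + κ * (B * 2) := by ring
      _ = _ := by rw [h1, h2]; ring
  have h5 : N * 2 = (A + κ * B) * 2 + (κ + 1) * (n' + 1) * n' := by
    rw [h3, h4]
    ring
  have h6 : 2 ≤ (κ + 1) * (n' + 1) * n' := by
    calc 2 = 1 * (1 + 1) * 1 := rfl
      _ ≤ (κ + 1) * (n' + 1) * n' := by gcongr; omega
  omega

/-- one residue class -/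
theorem hi_class (g : ℤ[X][X]) (hg : g.Monic) (hn : 2 ≤ g.natDegree) (hirr : IrrOver ℤ ℚ g) :
    ∃ B : ℕ, ∀ A : ℕ, 1 ≤ A → ∃ Q : ℕ, ∀ q : ℕ, q.Prime → Q ≤ q → ∀ (T : Finset ℤ) (y : ℤ → ℤ),
      (∀ c ∈ T, 1 ≤ c ∧ c ≤ A * q) → (∀ c ∈ T, (g.map (evalRingHom c)).eval (y c) = 0) →
      (∀ c ∈ T, ∀ c' ∈ T, (q : ℤ) ∣ c - c' ∧ (q : ℤ) ∣ y c - y c') →
      (∀ c ∈ T, ¬ (q : ℤ) ∣ ((derivative g).map (evalRingHom c)).eval (y c)) → T.card ≤ B := by
  set n := g.natDegree with hndef
  set κ : ℕ := g.support.sup fun j => (g.coeff j).natDegree with hκdef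
  have hκ : ∀ j, (g.coeff j).natDegree ≤ κ := by
    intro j
    by_cases hj : g.coeff j = 0
    · rw [hj]
      simp
    · exact Finset.le_sup (f := fun j => (g.coeff j).natDegree) (mem_support_iff.2 hj)
  -- the polynomial over `ℚ`
  set gK : ℚ[X][X] := g.map (mapRingHom (algebraMap ℤ ℚ)) with hgK
  have hgKm : gK.Monic := hg.map _
  have hgKn : gK.natDegree = n := hg.natDegree_map _
  have hgKi : Irreducible (gK.map (algebraMap ℚ[X] (RatFunc ℚ))) := by
    rw [hgK, Polynomial.map_map]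
    exact hirr
  obtain ⟨B, hB⟩ := card_common_le gK hgKm hgKi (κ + 1)
  refine ⟨B, fun A hA => ?_⟩
  -- size of the roots
  set H : ℤ := ∑ j ∈ Finset.range n, ∑ i ∈ Finset.range (κ + 1), |(g.coeff j).coeff i| with hH
  have hH0 : 0 ≤ H := Finset.sum_nonneg fun _ _ => Finset.sum_nonneg fun _ _ => abs_nonneg _
  have hsize : ∀ (T c y : ℤ), 1 ≤ T → |c| ≤ T → (g.map (evalRingHom c)).eval y = 0 →
      |y| ≤ (n * H) * T ^ κ := by
    intro T c y hT hc hy
    have hnd : (g.map (evalRingHom c)).natDegree = n := hg.natDegree_map _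
    have h1 := hi_root_le (E := H * T ^ κ) (by positivity) (g.map (evalRingHom c)) (hg.map _)
      (by rw [hnd]; omega) (fun j hj => by
        rw [coeff_map, coe_evalRingHom]
        refine (hi_eval_le _ (hκ j) hT hc).trans ?_
        refine mul_le_mul_of_nonneg_right ?_ (by positivity)
        rw [hnd] at hj
        exact Finset.single_le_sum (f := fun j => ∑ i ∈ Finset.range (κ + 1),
          |(g.coeff j).coeff i|) (fun j _ => Finset.sum_nonneg fun _ _ => abs_nonneg _)
          (Finset.mem_range.2 hj)) hy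
    rw [hnd, ← mul_assoc] at h1
    exact h1
  set s := (κ + 1) * n with hs
  set a₀ := ∑ j : Fin s, ea j with ha₀
  set b₀ := ∑ j : Fin s, eb j with hb₀
  set Q : ℤ := s.factorial * ((n * H) ^ b₀ * (A : ℤ) ^ (a₀ + κ * b₀)) with hQ
  refine ⟨Q.toNat + 1, fun q hq hQq T y hT hroot hcong hsimp => ?_⟩
  have hQq' : Q < q := by
    have := Int.self_le_toNat Q
    have h2 : ((Q.toNat + 1 : ℕ) : ℤ) ≤ q := by exact_mod_cast hQq
    push_cast at h2
    linarith
  have hq0 : (0 : ℤ) < q := by exact_mod_cast hq.pos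
  have hq1 : (1 : ℤ) ≤ q := by linarith
  have hA' : (1 : ℤ) ≤ A := by exact_mod_cast hA
  have hAq : (1 : ℤ) ≤ A * q := one_le_mul_of_one_le_of_one_le hA' hq1
  rcases T.eq_empty_or_nonempty with rfl | ⟨w, hw⟩
  · simp
  -- inverse of the derivative
  have hcop : IsCoprime (q : ℤ) (((derivative g).map (evalRingHom w)).eval (y w)) :=
    (Nat.prime_iff_prime_int.1 hq).irreducible.coprime_iff_not_dvd.2 (hsimp w hw)
  obtain ⟨a, b, hab⟩ := hcop
  -- the determinants vanish
  have hdet : ∀ e : Fin s → T, (Matrix.of fun i j : Fin s =>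
      (e i).1 ^ ea j * y (e i) ^ eb j).det = 0 := by
    intro e
    have h1 := dvd_det g (q : ℤ) w (y w) b (by rw [hroot w hw]; exact dvd_zero _)
      ⟨-a, by linear_combination hab⟩ s ea eb (fun i => (e i).1) (fun i => y (e i))
      (fun i => (hcong _ (e i).2 _ hw).1) (fun i => (hcong _ (e i).2 _ hw).2)
      (fun i => hroot _ (e i).2)
    have h2 := hi_det_le (Matrix.of fun i j : Fin s => (e i).1 ^ ea j * y (e i) ^ eb j)
      (fun j => ((A : ℤ) * q) ^ ea j * ((n * H) * (A * q) ^ κ) ^ eb j) (fun i j => by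
        rw [Matrix.of_apply, abs_mul, abs_pow, abs_pow]
        have h3 := hT _ (e i).2
        have h4 : |((e i : T) : ℤ)| ≤ A * q := by
          rw [abs_of_nonneg (by linarith)]
          exact h3.2
        have h5 := hsize _ _ _ hAq h4 (hroot _ (e i).2)
        exact mul_le_mul (pow_le_pow_left₀ (abs_nonneg _) h4 _)
          (pow_le_pow_left₀ (abs_nonneg _) h5 _) (by positivity) (by positivity))
    have h6 : (s.factorial : ℤ) * ∏ j : Fin s,
        (((A : ℤ) * q) ^ ea j * ((n * H) * (A * q) ^ κ) ^ eb j) = Q * q ^ (a₀ + κ * b₀) := by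
      rw [Finset.prod_mul_distrib, Finset.prod_pow_eq_pow_sum, Finset.prod_pow_eq_pow_sum,
        ← ha₀, ← hb₀, hQ]
      ring
    rw [h6] at h2
    refine Int.eq_zero_of_abs_lt_dvd h1 (h2.trans_lt ?_)
    calc Q * (q : ℤ) ^ (a₀ + κ * b₀) < q * (q : ℤ) ^ (a₀ + κ * b₀) :=
          mul_lt_mul_of_pos_right hQq' (by positivity)
      _ = (q : ℤ) ^ (a₀ + κ * b₀ + 1) := by ring
      _ ≤ (q : ℤ) ^ (s * (s - 1) / 2) := pow_le_pow_right₀ hq1 (hi_arith hn)
  -- the vector
  obtain ⟨P, hP0, hP⟩ := exists_vec (K := ℚ) (ι := T)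
    (fun u j => ((u.1 : ℤ) : ℚ) ^ ea j * ((y u : ℤ) : ℚ) ^ eb j)
    (fun e => by
      have h1 := congrArg (Int.castRingHom ℚ) (hdet e)
      rw [RingHom.map_det, map_zero] at h1
      rw [← h1]
      congr 1
      ext i j
      simp)
  -- the common zeros
  have h1 := hB (mp P) (mp_ne_zero hP0) (by rw [hgKn]; exact mp_natDegree (by omega) P)
    (mp_coeff_natDegree (by omega) P)
    (Finset.univ.image fun u : T => ((u.1 : ℤ) : ℚ)) (by
      intro c hc
      obtain ⟨u, -, rfl⟩ := Finset.mem_image.1 hc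
      refine ⟨((y u : ℤ) : ℚ), ?_, ?_⟩
      · have h2 := congrArg (Int.castRingHom ℚ) (hroot _ u.2)
        rw [map_zero] at h2
        rw [← h2, hgK, Polynomial.map_map]
        have h3 : (evalRingHom ((u.1 : ℤ) : ℚ)).comp (mapRingHom (algebraMap ℤ ℚ)) =
            (Int.castRingHom ℚ).comp (evalRingHom u.1) := by
          apply Polynomial.ringHom_ext
          · intro a
            simp
          · simp
        rw [h3, ← Polynomial.map_map]
        exact Polynomial.eval_map_apply (Int.castRingHom ℚ) _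
      · rw [mp_eval]
        exact hP u)
  rw [Finset.card_image_of_injective, Finset.card_univ, Fintype.card_coe] at h1
  · exact h1
  · intro u u' huu
    exact Subtype.ext (Int.cast_injective huu)

/-! ### counting -/

/-- at most `A` integers of `[1, A q]` lie in one residue class modulo `q` -/
theorem hi_fiber {q A : ℕ} (hq : 0 < q) (T : Finset ℤ) (hT : ∀ c ∈ T, 1 ≤ c ∧ c ≤ A * q)
    (hc : ∀ c ∈ T, ∀ c' ∈ T, (q : ℤ) ∣ c - c') : T.card ≤ A := by
  have hq' : (0 : ℤ) < q := by exact_mod_cast hq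
  have h1 : (T.image fun c => (c - 1) / (q : ℤ)) ⊆ Finset.Ico (0 : ℤ) A := by
    intro d hd
    obtain ⟨c, hcT, rfl⟩ := Finset.mem_image.1 hd
    obtain ⟨h1, h2⟩ := hT c hcT
    rw [Finset.mem_Ico]
    refine ⟨Int.ediv_nonneg (by linarith) hq'.le, Int.ediv_lt_of_lt_mul hq' (by linarith)⟩
  have h2 := Finset.card_le_card h1
  rw [Int.card_Ico, sub_zero, Int.toNat_natCast, Finset.card_image_of_injOn] at h2
  · exact h2
  · intro c hcT c' hcT' h
    obtain ⟨k, hk⟩ := hc c hcT c' hcT'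
    have h3 : (c - 1) / (q : ℤ) = (c' - 1) / (q : ℤ) + k := by
      have : c - 1 = (c' - 1) + q * k := by linarith
      rw [this, Int.add_mul_ediv_left _ _ hq'.ne']
    have h4 : k = 0 := by
      have h5 : (c - 1) / (q : ℤ) = (c' - 1) / (q : ℤ) := h
      linarith
    rw [h4] at hk
    linarith

theorem hi_cast_eq {q : ℕ} {a b : ℤ} : ((a : ZMod q) = (b : ZMod q)) ↔ (q : ℤ) ∣ a - b := by
  rw [← sub_eq_zero, ← Int.cast_sub, ZMod.intCast_zmod_eq_zero_iff_dvd]

/-- reduction modulo `q` of a value -/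
theorem hi_red (g : ℤ[X][X]) (q : ℕ) (c y : ℤ) :
    (((g.map (evalRingHom c)).eval y : ℤ) : ZMod q) =
      (g.map (eval₂RingHom (Int.castRingHom (ZMod q)) (c : ZMod q))).eval (y : ZMod q) := by
  have h1 : (Int.castRingHom (ZMod q)).comp (evalRingHom c) =
      eval₂RingHom (Int.castRingHom (ZMod q)) (c : ZMod q) := by
    apply Polynomial.ringHom_ext
    · intro a
      simp
    · simp
  rw [← h1, ← Polynomial.map_map]
  exact (Polynomial.eval_map_apply (Int.castRingHom (ZMod q)) _).symm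

theorem hi_count (g : ℤ[X][X]) (hg : g.Monic) (hn : 2 ≤ g.natDegree) (hirr : IrrOver ℤ ℚ g) :
    ∃ B E : ℕ, ∀ A : ℕ, 1 ≤ A → ∃ Q : ℕ, ∀ q : ℕ, q.Prime → Q ≤ q →
      ((Finset.Icc (1 : ℤ) (A * q)).filter
        fun c => ∃ y : ℤ, (g.map (evalRingHom c)).eval y = 0).card ≤ q * B + A * E := by
  obtain ⟨B, hB⟩ := hi_class g hg hn hirr
  set n := g.natDegree with hndef
  set r : ℤ[X] := g.resultant g.derivative with hr
  have hr0 : r ≠ 0 := res_ne_zero (K := ℚ) g hirr
  refine ⟨B * n, r.natDegree, fun A hA => ?_⟩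
  obtain ⟨Q, hQ⟩ := hB A hA
  refine ⟨Q + r.leadingCoeff.natAbs + 1, fun q hq hQq => ?_⟩
  have := Fact.mk hq
  have hr1 : r.map (Int.castRingHom (ZMod q)) ≠ 0 := by
    intro h0
    have h1 := congrArg (fun p => p.coeff r.natDegree) h0
    simp only [coeff_map, coeff_zero] at h1
    rw [eq_intCast, ZMod.intCast_zmod_eq_zero_iff_dvd] at h1
    have h2 := Int.natAbs_dvd_natAbs.2 h1
    rw [Int.natAbs_natCast] at h2
    have h3 := Nat.le_of_dvd (Int.natAbs_pos.2 (leadingCoeff_ne_zero.2 hr0)) h2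
    change q ≤ r.leadingCoeff.natAbs at h3
    omega
  set T := (Finset.Icc (1 : ℤ) (A * q)).filter
    fun c => ∃ y : ℤ, (g.map (evalRingHom c)).eval y = 0 with hT
  have hTm : ∀ c ∈ T, (1 ≤ c ∧ c ≤ A * q) ∧ ∃ y : ℤ, (g.map (evalRingHom c)).eval y = 0 := by
    intro c hc
    rw [hT, Finset.mem_filter, Finset.mem_Icc] at hc
    exact hc
  set T₁ := T.filter fun c => ((r.eval c : ℤ) : ZMod q) = 0 with hT₁
  set T₂ := T.filter fun c => ¬ ((r.eval c : ℤ) : ZMod q) = 0 with hT₂
  have hcard : T₁.card + T₂.card = T.card := Finset.card_filter_add_card_filter_not _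
  -- the first part
  have h1 : T₁.card ≤ A * r.natDegree := by
    have e1 := Finset.card_le_mul_card_image (f := fun c : ℤ => (c : ZMod q)) T₁ A (by
      intro a _
      refine hi_fiber hq.pos _ (fun c hc => ?_) (fun c hc c' hc' => ?_)
      · exact (hTm c (Finset.mem_filter.1 (Finset.mem_filter.1 hc).1).1).1
      · rw [← hi_cast_eq, (Finset.mem_filter.1 hc).2, (Finset.mem_filter.1 hc').2])
    refine e1.trans (Nat.mul_le_mul_left _ ?_)
    have e2 : (T₁.image fun c : ℤ => (c : ZMod q)) ⊆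
        (r.map (Int.castRingHom (ZMod q))).roots.toFinset := by
      intro a ha
      obtain ⟨c, hc, rfl⟩ := Finset.mem_image.1 ha
      rw [Multiset.mem_toFinset, mem_roots hr1, IsRoot]
      have e3 := Polynomial.eval_map_apply (p := r) (Int.castRingHom (ZMod q)) c
      rw [eq_intCast, eq_intCast] at e3
      rw [e3]
      exact (Finset.mem_filter.1 hc).2
    refine (Finset.card_le_card e2).trans ((Multiset.toFinset_card_le _).trans ?_)
    exact (card_roots' _).trans natDegree_map_le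
  -- the second part
  have h2 : T₂.card ≤ q * (B * n) := by
    have hy : ∀ c : ℤ, ∃ y : ℤ, c ∈ T → (g.map (evalRingHom c)).eval y = 0 := by
      intro c
      by_cases hc : c ∈ T
      · obtain ⟨y, hy⟩ := (hTm c hc).2
        exact ⟨y, fun _ => hy⟩
      · exact ⟨0, fun h => absurd h hc⟩
    choose y hy using hy
    have e1 := Finset.card_le_mul_card_image
      (f := fun c : ℤ => ((c : ZMod q), ((y c : ℤ) : ZMod q))) T₂ B (by
      intro a _
      refine hQ q hq (by omega) _ y (fun c hc => ?_) (fun c hc => ?_) (fun c hc c' hc' => ?_)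
        (fun c hc => ?_)
      · exact (hTm c (Finset.mem_filter.1 (Finset.mem_filter.1 hc).1).1).1
      · exact hy c (Finset.mem_filter.1 (Finset.mem_filter.1 hc).1).1
      · have e2 := (Finset.mem_filter.1 hc).2
        have e3 := (Finset.mem_filter.1 hc').2
        rw [← e3, Prod.mk.injEq, hi_cast_eq, hi_cast_eq] at e2
        exact e2
      · have e2 := Finset.mem_filter.1 (Finset.mem_filter.1 hc).1
        rw [← ZMod.intCast_zmod_eq_zero_iff_dvd, hi_red]
        have e3 := hy c e2.1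
        refine simple_root g (by omega) (eval₂RingHom (Int.castRingHom (ZMod q)) (c : ZMod q))
          ?_ ?_
        · intro h0
          apply e2.2
          rw [← h0]
          have e4 := Polynomial.eval_map_apply (p := r) (Int.castRingHom (ZMod q)) c
          rw [eq_intCast, eq_intCast] at e4
          rw [← e4, eval_map]
          rfl
        · rw [← hi_red, e3, Int.cast_zero])
    refine e1.trans ?_
    rw [mul_comm q, mul_assoc]
    refine Nat.mul_le_mul_left _ ?_
    -- the number of points modulo `q`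
    have e5 := Finset.card_le_mul_card_image (f := fun p : ZMod q × ZMod q => p.1)
      (T₂.image fun c : ℤ => ((c : ZMod q), ((y c : ℤ) : ZMod q))) n (by
      intro a _
      have e6 : (((T₂.image fun c : ℤ => ((c : ZMod q), ((y c : ℤ) : ZMod q))).filter
          fun p => p.1 = a).image fun p => p.2) ⊆
          (g.map (eval₂RingHom (Int.castRingHom (ZMod q)) a)).roots.toFinset := by
        intro b hb
        obtain ⟨p, hp, rfl⟩ := Finset.mem_image.1 hb
        obtain ⟨hp1, hp2⟩ := Finset.mem_filter.1 hp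
        obtain ⟨c, hc, rfl⟩ := Finset.mem_image.1 hp1
        rw [Multiset.mem_toFinset, mem_roots (hg.map _).ne_zero, IsRoot, ← hp2, ← hi_red,
          hy c (Finset.mem_filter.1 hc).1, Int.cast_zero]
      have e7 := (Finset.card_le_card e6).trans (Multiset.toFinset_card_le _)
      rw [Finset.card_image_of_injOn] at e7
      · refine e7.trans ((card_roots' _).trans ?_)
        rw [hg.natDegree_map]
      · intro p hp p' hp' h
        exact Prod.ext ((Finset.mem_filter.1 hp).2.trans (Finset.mem_filter.1 hp').2.symm) h)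
    refine e5.trans (Nat.mul_le_mul_left _ ?_)
    refine (Finset.card_le_univ _).trans ?_
    rw [ZMod.card]
  rw [← hcard, add_comm]
  exact add_le_add h2 h1

/-- **The integers**: infinitely many specialisations without roots. -/
theorem noRootInf_int : NoRootInf ℤ ℚ := by
  intro S hS hfin
  have hex : ∀ g : ℤ[X][X], ∃ B E : ℕ, g ∈ S → ∀ A : ℕ, 1 ≤ A → ∃ Q : ℕ, ∀ q : ℕ, q.Prime →
      Q ≤ q → ((Finset.Icc (1 : ℤ) (A * q)).filter
        fun c => ∃ y : ℤ, (g.map (evalRingHom c)).eval y = 0).card ≤ q * B + A * E := by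
    intro g
    by_cases hg : g ∈ S
    · obtain ⟨B, E, h⟩ := hi_count g (hS g hg).1 (hS g hg).2.1 (hS g hg).2.2
      exact ⟨B, E, fun _ => h⟩
    · exact ⟨0, 0, fun h => absurd h hg⟩
  choose B E hBE using hex
  set A : ℕ := 1 + ∑ g ∈ S, B g with hA
  have hex2 : ∀ g : ℤ[X][X], ∃ Q : ℕ, g ∈ S → ∀ q : ℕ, q.Prime →
      Q ≤ q → ((Finset.Icc (1 : ℤ) (A * q)).filter
        fun c => ∃ y : ℤ, (g.map (evalRingHom c)).eval y = 0).card ≤ q * B g + A * E g := by
    intro g
    by_cases hg : g ∈ S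
    · obtain ⟨Q, h⟩ := hBE g hg A (by omega)
      exact ⟨Q, fun _ => h⟩
    · exact ⟨0, fun h => absurd h hg⟩
  choose Q hQ using hex2
  set F : Finset ℤ := hfin.toFinset with hF
  obtain ⟨q, hq1, hq⟩ := Nat.exists_infinite_primes
    (∑ g ∈ S, Q g + F.card + A * ∑ g ∈ S, E g + 1)
  have hQq : ∀ g ∈ S, Q g ≤ q := by
    intro g hg
    have := Finset.single_le_sum (f := Q) (fun g _ => Nat.zero_le _) hg
    omega
  have hcov : Finset.Icc (1 : ℤ) (A * q) ⊆ F ∪ S.biUnion fun g =>
      (Finset.Icc (1 : ℤ) (A * q)).filter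
        fun c => ∃ y : ℤ, (g.map (evalRingHom c)).eval y = 0 := by
    intro c hc
    rw [Finset.mem_union]
    by_cases h : c ∈ F
    · exact Or.inl h
    · right
      rw [hF, Set.Finite.mem_toFinset, Set.mem_ofPred_eq] at h
      push Not at h
      obtain ⟨g, hg, y, hy⟩ := h
      exact Finset.mem_biUnion.2 ⟨g, hg, Finset.mem_filter.2 ⟨hc, y, hy⟩⟩
  have h1 := (Finset.card_le_card hcov).trans (Finset.card_union_le _ _)
  have h2 : (S.biUnion fun g => (Finset.Icc (1 : ℤ) (A * q)).filter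
        fun c => ∃ y : ℤ, (g.map (evalRingHom c)).eval y = 0).card ≤
        q * ∑ g ∈ S, B g + A * ∑ g ∈ S, E g := by
    refine Finset.card_biUnion_le.trans ?_
    rw [Finset.mul_sum, Finset.mul_sum, ← Finset.sum_add_distrib]
    exact Finset.sum_le_sum fun g hg => hQ g hg q hq (hQq g hg)
  have h3 : (Finset.Icc (1 : ℤ) (A * q)).card = A * q := by
    rw [Int.card_Icc]
    have : (A : ℤ) * q + 1 - 1 = ((A * q : ℕ) : ℤ) := by push_cast; ring
    rw [this, Int.toNat_natCast]
  rw [h3] at h1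
  have h4 : A * q = q + q * ∑ g ∈ S, B g := by
    rw [hA]
    ring
  omega

end Pool.Agent.MP1bdb59C
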