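import Mathlib
import Pool.Agent.MP1bdb59C.HitInt
import Pool.Agent.MP1bdb59C.HitPol
import Pool.Agent.MP1bdb59C.HitRed2
import Pool.Agent.MP1bdb59C.HitExt
import Pool.Agent.MP1bdb59C.HitFGAux

/-!
# Finitely generated fields of characteristic 0 are Hilbertian
-/

open Polynomial

noncomputable section

namespace Pool.Agent.MP1bdb59C

theorem isHilbertian_of_fg {k : Type*} [Field k] [CharZero k]
    (hfg : (⊤ : IntermediateField ℚ k).FG) : IsHilbertian k := by
  have hQ : IsHilbertian ℚ := isHilbertian_of_noRootInf (R := ℤ) noRootInf_int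
  refine isHilbertian_of_fg_aux (isHilbertian_of_finite hQ) ?_ ?_ hfg
  · intro F _ _
    exact isHilbertian_of_noRootInf (R := F[X]) (noRootInf_pol F)
  · intro F E _ _ _ _ _ h
    exact isHilbertian_of_finite h

end Pool.Agent.MP1bdb59C
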