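import Pool.Agent.MP1bdb59C.Val

/-!
# Finitely many representatives of the classes with trivial local invariants
-/

open IsDedekindDomain

noncomputable section

open scoped Classical WithZero nonZeroDivisors

namespace Pool.Agent.MP1bdb59C

/-- A finite cover by a relation gives finitely many representatives. -/
lemma exists_finset_reps {α T : Type*} [Finite T] (A : α → Prop) (R : α → T → Prop)
    (E : α → α → Prop) (htot : ∀ m, A m → ∃ t, R m t)
    (hR : ∀ m m' t, A m → A m' → R m t → R m' t → E m' m) :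
    ∃ M : Finset α, (∀ m ∈ M, A m) ∧ ∀ m, A m → ∃ m₀ ∈ M, E m₀ m := by
  have h1 : Finite {t : T // ∃ m, A m ∧ R m t} := inferInstance
  have h2 : ∀ t : {t : T // ∃ m, A m ∧ R m t}, ∃ m, A m ∧ R m t.1 := fun t => t.2
  choose g hg using h2
  have h3 : (Set.range g).Finite := Set.finite_range g
  refine ⟨h3.toFinset, ?_, ?_⟩
  · intro m hm
    rw [Set.Finite.mem_toFinset] at hm
    obtain ⟨t, rfl⟩ := hm
    exact (hg t).1
  · intro m hm
    obtain ⟨t, ht⟩ := htot m hm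
    refine ⟨g ⟨t, m, hm, ht⟩, ?_, hR m _ t hm (hg _).1 ht (hg _).2⟩
    rw [Set.Finite.mem_toFinset]
    exact ⟨_, rfl⟩

section

variable {O L : Type*} [CommRing O] [IsDedekindDomain O] [Field L] [Algebra O L]
  [IsFractionRing O L]

lemma exists_int_ideal {ℓ : ℕ} (hℓ : ℓ ≠ 0) (m : L) (hm : m ≠ 0)
    (h : ∀ P : HeightOneSpectrum O, ∃ z : ℤᵐ⁰, P.valuation L m = z ^ ℓ) :
    ∃ (x b : O) (I : (Ideal O)⁰), x ≠ 0 ∧ b ≠ 0 ∧
      algebraMap O L x = m * algebraMap O L b ^ ℓ ∧ Ideal.span {x} = (I : Ideal O) ^ ℓ := by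
  obtain ⟨a, b, hb, rfl⟩ := IsFractionRing.div_surjective (A := O) m
  have hb0 : b ≠ 0 := nonZeroDivisors.ne_zero hb
  have hb' : algebraMap O L b ≠ 0 := by
    rwa [Ne, IsFractionRing.to_map_eq_zero_iff]
  have ha0 : a ≠ 0 := by
    rintro rfl
    rw [map_zero, zero_div] at hm
    exact hm rfl
  set x : O := a * b ^ (ℓ - 1) with hx
  have hx0 : x ≠ 0 := mul_ne_zero ha0 (pow_ne_zero _ hb0)
  have hxm : algebraMap O L x = algebraMap O L a / algebraMap O L b * (algebraMap O L b) ^ ℓ := by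
    obtain ⟨n, rfl⟩ := Nat.exists_eq_succ_of_ne_zero hℓ
    rw [hx, Nat.succ_sub_one, map_mul, map_pow, Nat.succ_eq_add_one, pow_succ]
    field_simp
  obtain ⟨I, hI0, hI⟩ := exists_ideal_pow hℓ hx0 (fun P => by
    obtain ⟨z, hz⟩ := h P
    refine ⟨z * P.valuation L (algebraMap O L b), ?_⟩
    have h5 := congrArg (P.valuation L) hxm
    rw [map_mul (P.valuation L), map_pow (P.valuation L), hz] at h5
    rw [← P.valuation_of_algebraMap (K := L) x, h5, mul_pow])
  exact ⟨x, b, ⟨I, mem_nonZeroDivisors_iff_ne_zero.mpr hI0⟩, hx0, hb0, hxm, hI⟩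

/-- Two elements whose ideals are `ℓ`-th powers of ideals in the same class differ by a unit and an
`ℓ`-th power. -/
lemma exists_unit_of_class_eq {ℓ : ℕ} {m m' : L}
    {x b x' b' : O} {I I' : (Ideal O)⁰} (hb : b ≠ 0) (hb' : b' ≠ 0)
    (hxm : algebraMap O L x = m * algebraMap O L b ^ ℓ)
    (hxm' : algebraMap O L x' = m' * algebraMap O L b' ^ ℓ)
    (hI : Ideal.span {x} = (I : Ideal O) ^ ℓ) (hI' : Ideal.span {x'} = (I' : Ideal O) ^ ℓ)
    (hcl : ClassGroup.mk0 I = ClassGroup.mk0 I') :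
    ∃ (u : Oˣ) (w : L), w ≠ 0 ∧ m' = m * algebraMap O L u * w ^ ℓ := by
  obtain ⟨d, d', hd, hd', hdd⟩ := ClassGroup.mk0_eq_mk0_iff.mp hcl
  have h1 : Ideal.span {d ^ ℓ * x} = Ideal.span {d' ^ ℓ * x'} := by
    rw [← Ideal.span_singleton_mul_span_singleton, ← Ideal.span_singleton_mul_span_singleton,
      ← Ideal.span_singleton_pow, ← Ideal.span_singleton_pow, hI, hI', ← mul_pow, ← mul_pow, hdd]
  rw [Ideal.span_singleton_eq_span_singleton] at h1
  obtain ⟨u, hu⟩ := h1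
  have hb1 : algebraMap O L b ≠ 0 := by rwa [Ne, IsFractionRing.to_map_eq_zero_iff]
  have hb2 : algebraMap O L b' ≠ 0 := by rwa [Ne, IsFractionRing.to_map_eq_zero_iff]
  have hd1 : algebraMap O L d ≠ 0 := by rwa [Ne, IsFractionRing.to_map_eq_zero_iff]
  have hd2 : algebraMap O L d' ≠ 0 := by rwa [Ne, IsFractionRing.to_map_eq_zero_iff]
  refine ⟨u, algebraMap O L d * algebraMap O L b / (algebraMap O L d' * algebraMap O L b'),
    by positivity, ?_⟩
  have h2 := congrArg (algebraMap O L) hu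
  rw [map_mul, map_mul, map_mul, map_pow, map_pow, hxm, hxm'] at h2
  rw [div_pow, mul_div_assoc', eq_div_iff (pow_ne_zero _ (mul_ne_zero hd2 hb2)), mul_pow, mul_pow]
  linear_combination -h2

end

section

variable {k O L K : Type*} [Field k] [CommRing O] [IsDedekindDomain O] [Field L] [Algebra O L]
  [IsFractionRing O L] [Algebra k O] [Field K] [Algebra k K]

/-- T4b: finitely many representatives. `Nm` is the norm `L → K`. -/
theorem exists_reps {ℓ : ℕ} [hp : Fact ℓ.Prime]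
    (hpic : Finite {x : ClassGroup O // x ^ ℓ = 1})
    (hun : ∃ S : Finset Oˣ, ∀ u : Oˣ, ∃ v ∈ S, ∃ (c : k) (z : Oˣ),
      (u : O) = algebraMap k O c * v * z ^ ℓ)
    (Nm : L →* K) {n : ℕ} (hn : ¬ ℓ ∣ n) (hNm0 : ∀ x, Nm x = 0 → x = 0)
    (hNm : ∀ c : k, Nm (algebraMap O L (algebraMap k O c)) = algebraMap k K c ^ n)
    (hkK : ∀ (c : k) (y : K), algebraMap k K c = y ^ ℓ → ∃ b : k, c = b ^ ℓ) :
    ∃ M : Finset O, (∀ m ∈ M, ¬ ∃ z : L, algebraMap O L m = z ^ ℓ) ∧
      ∀ m : L, m ≠ 0 → (∀ P : HeightOneSpectrum O, ∃ z : ℤᵐ⁰, P.valuation L m = z ^ ℓ) →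
        (∃ r : K, Nm m = r ^ ℓ) →
        (∃ z : L, m = z ^ ℓ) ∨ ∃ m₀ ∈ M, ∃ z : L, z ≠ 0 ∧ m = algebraMap O L m₀ * z ^ ℓ := by
  have hℓ : ℓ ≠ 0 := hp.out.ne_zero
  obtain ⟨S, hS⟩ := hun
  -- admissible elements
  set A : L → Prop := fun m => m ≠ 0 ∧
    (∀ P : HeightOneSpectrum O, ∃ z : ℤᵐ⁰, P.valuation L m = z ^ ℓ) ∧ ∃ r : K, Nm m = r ^ ℓ with hA
  -- first relation
  set R1 : L → {x : ClassGroup O // x ^ ℓ = 1} → Prop := fun m γ =>
    ∃ (x b : O) (I : (Ideal O)⁰), b ≠ 0 ∧ algebraMap O L x = m * algebraMap O L b ^ ℓ ∧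
      Ideal.span {x} = (I : Ideal O) ^ ℓ ∧ ClassGroup.mk0 I = γ.1 with hR1
  obtain ⟨M1, hM1, hM1'⟩ := exists_finset_reps A R1
    (fun m' m => ∃ (u : Oˣ) (w : L), w ≠ 0 ∧ m = m' * algebraMap O L u * w ^ ℓ)
    (fun m hm => by
      obtain ⟨x, b, I, hx, hb, hxm, hI⟩ := exists_int_ideal hℓ m hm.1 hm.2.1
      refine ⟨⟨ClassGroup.mk0 I, ?_⟩, x, b, I, hb, hxm, hI, rfl⟩
      rw [← map_pow, ClassGroup.mk0_eq_one_iff]
      rw [SubmonoidClass.coe_pow, ← hI]
      exact ⟨⟨x, rfl⟩⟩)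
    (fun m m' γ hm hm' h h' => by
      obtain ⟨x, b, I, hb, hxm, hI, hcl⟩ := h
      obtain ⟨x', b', I', hb', hxm', hI', hcl'⟩ := h'
      exact exists_unit_of_class_eq hb' hb hxm' hxm hI' hI (hcl'.trans hcl.symm))
  -- second relation
  set R2 : L → {m // m ∈ M1} × {v // v ∈ S} → Prop := fun m t =>
    ∃ (c : k) (w : L), w ≠ 0 ∧
      m = t.1.1 * algebraMap O L (algebraMap k O c) * algebraMap O L t.2.1 * w ^ ℓ with hR2
  obtain ⟨M2, hM2, hM2'⟩ := exists_finset_reps A R2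
    (fun m' m => ∃ (w : L), w ≠ 0 ∧ m = m' * w ^ ℓ)
    (fun m hm => by
      obtain ⟨m₀, hm₀, u, w, hw, h1⟩ := hM1' m hm
      obtain ⟨v, hv, c, z, h2⟩ := hS u
      refine ⟨(⟨m₀, hm₀⟩, ⟨v, hv⟩), c, algebraMap O L z * w, ?_, ?_⟩
      · refine mul_ne_zero ?_ hw
        rw [Ne, IsFractionRing.to_map_eq_zero_iff]
        exact z.ne_zero
      · rw [h1, h2, map_mul, map_mul, map_pow]
        ring)
    (fun m m' t hm hm' h h' => by
      obtain ⟨c, w, hw, h1⟩ := h
      obtain ⟨c', w', hw', h1'⟩ := h'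
      obtain ⟨hm0, -, r, hr⟩ := hm
      obtain ⟨hm0', -, r', hr'⟩ := hm'
      have hc : algebraMap O L (algebraMap k O c) ≠ 0 := by
        intro h0
        rw [h0, mul_zero, zero_mul, zero_mul] at h1
        exact hm0 h1
      have hc' : algebraMap O L (algebraMap k O c') ≠ 0 := by
        intro h0
        rw [h0, mul_zero, zero_mul, zero_mul] at h1'
        exact hm0' h1'
      have hc0 : c ≠ 0 := by rintro rfl; rw [map_zero, map_zero] at hc; exact hc rfl
      have hc0' : c' ≠ 0 := by rintro rfl; rw [map_zero, map_zero] at hc'; exact hc' rfl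
      set e : k := c / c' with he
      have he0 : e ≠ 0 := div_ne_zero hc0 hc0'
      have hce : c = e * c' := by rw [he]; field_simp
      have h2 : m = m' * algebraMap O L (algebraMap k O e) * (w / w') ^ ℓ := by
        rw [h1, h1', hce, map_mul, map_mul, div_pow]
        field_simp
      have hNne : ∀ y : L, y ≠ 0 → Nm y ≠ 0 := fun y hy h0 => hy (hNm0 y h0)
      have h3 : algebraMap k K e ^ n = (r / (r' * Nm (w / w'))) ^ ℓ := by
        have h4 := congrArg Nm h2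
        rw [map_mul, map_mul, map_pow, hNm, hr, hr'] at h4
        have h5 : Nm (w / w') ≠ 0 := hNne _ (div_ne_zero hw hw')
        have h6 : r' ^ ℓ ≠ 0 := by rw [← hr']; exact hNne _ hm0'
        rw [div_pow, mul_pow, h4, eq_div_iff (mul_ne_zero h6 (pow_ne_zero _ h5))]
        ring
      -- Bezout
      have hcop : IsCoprime (n : ℤ) (ℓ : ℤ) := by
        rw [Nat.isCoprime_iff_coprime]
        exact ((Nat.Prime.coprime_iff_not_dvd hp.out).mpr hn).symm
      obtain ⟨s, t', hst⟩ := hcop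
      have heK : algebraMap k K e ≠ 0 := by rwa [Ne, map_eq_zero]
      have h7 : algebraMap k K e = ((r / (r' * Nm (w / w'))) ^ s * algebraMap k K e ^ t') ^ ℓ := by
        calc algebraMap k K e = algebraMap k K e ^ (s * n + t' * ℓ) := by rw [hst, zpow_one]
          _ = (algebraMap k K e ^ n) ^ s * (algebraMap k K e ^ t') ^ ℓ := by
              rw [zpow_add₀ heK, zpow_mul' , zpow_natCast, zpow_mul, zpow_natCast]
          _ = _ := by
              rw [h3, mul_pow, ← zpow_natCast (_ ^ s), ← zpow_natCast (_ / _), ← zpow_mul,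
                ← zpow_mul, mul_comm]
              rw [mul_comm ((algebraMap k K e ^ t') ^ ℓ), mul_comm (ℓ : ℤ) s]
      obtain ⟨b, hb⟩ := hkK e _ h7
      have hb0 : algebraMap O L (algebraMap k O b) ≠ 0 := by
        intro h0
        have h8 : algebraMap O L (algebraMap k O e) = 0 := by
          rw [hb, map_pow, map_pow, h0, zero_pow hℓ]
        rw [h8, mul_zero, zero_mul] at h2
        exact hm0 h2
      refine ⟨algebraMap O L (algebraMap k O b) * (w / w'),
        mul_ne_zero hb0 (div_ne_zero hw hw'), ?_⟩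
      rw [h2, hb, map_pow, map_pow, mul_pow]
      ring)
  -- scale
  have hsc : ∀ m : L, ∃ x : O, m ≠ 0 → ∃ b : L, b ≠ 0 ∧ algebraMap O L x = m * b ^ ℓ := by
    intro m
    by_cases hm : m = 0
    · exact ⟨0, fun h => absurd hm h⟩
    obtain ⟨a, b, hb, rfl⟩ := IsFractionRing.div_surjective (A := O) m
    have hb0 : b ≠ 0 := nonZeroDivisors.ne_zero hb
    have hb' : algebraMap O L b ≠ 0 := by
      rwa [Ne, IsFractionRing.to_map_eq_zero_iff]
    refine ⟨a * b ^ (ℓ - 1), fun _ => ⟨algebraMap O L b, hb', ?_⟩⟩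
    obtain ⟨n, rfl⟩ := Nat.exists_eq_succ_of_ne_zero hℓ
    rw [Nat.succ_sub_one, map_mul, map_pow, Nat.succ_eq_add_one, pow_succ]
    field_simp
  choose g hg using hsc
  refine ⟨(M2.image g).filter (fun m => ¬ ∃ z : L, algebraMap O L m = z ^ ℓ), ?_, ?_⟩
  · intro m hm
    exact (Finset.mem_filter.mp hm).2
  · intro m hm hval hnm
    obtain ⟨m₀, hm₀, w, hw, h1⟩ := hM2' m ⟨hm, hval, hnm⟩
    obtain ⟨b, hb, h2⟩ := hg m₀ (hM2 m₀ hm₀).1
    by_cases h3 : ∃ z : L, algebraMap O L (g m₀) = z ^ ℓ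
    · obtain ⟨z, hz⟩ := h3
      left
      refine ⟨z / b * w, ?_⟩
      rw [h1, mul_pow, div_pow, ← hz, h2]
      field_simp
    · right
      refine ⟨g m₀, Finset.mem_filter.mpr ⟨Finset.mem_image_of_mem _ hm₀, h3⟩, w / b,
        div_ne_zero hw hb, ?_⟩
      rw [h1, div_pow, h2]
      field_simp

end

end Pool.Agent.MP1bdb59C
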